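import Pool.Agent.H652.PV.Tdefs

/-!
# Verification of certificates (statement T4), by helper597
-/

set_option autoImplicit false
set_option synthInstance.maxSize 2000

namespace Pool.Agent.H652.PV

open Pool.Agent.TH960.PE MeasureTheory

namespace TChk

/-! ### Signs and values -/

theorem cv_pos_iff (a : Coef) : 0 < cv a ↔ a.2.1 < a.1 := by
  unfold cv
  have h : (0 : ℝ) < (a.2.2 : ℝ) + 1 := by positivity
  rw [div_pos_iff_of_pos_right h, sub_pos, Nat.cast_lt]

theorem cv_nonneg_iff (a : Coef) : 0 ≤ cv a ↔ a.2.1 ≤ a.1 := by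
  unfold cv
  have h : (0 : ℝ) < (a.2.2 : ℝ) + 1 := by positivity
  rw [le_div_iff₀ h, zero_mul, sub_nonneg, Nat.cast_le]

theorem cv_nonpos_iff (a : Coef) : cv a ≤ 0 ↔ a.1 ≤ a.2.1 := by
  unfold cv
  have h : (0 : ℝ) < (a.2.2 : ℝ) + 1 := by positivity
  rw [div_le_iff₀ h, zero_mul, sub_nonpos, Nat.cast_le]

theorem pev_single (X : ℕ → ℝ) (c : Coef) : pev X [(c, [])] = cv c := by
  simp [pev, mev]

theorem pev_flatMap {β : Type*} (X : ℕ → ℝ) (f : β → Poly) (l : List β) :
    pev X (l.flatMap f) = (l.map fun b => pev X (f b)).sum := by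
  induction l with
  | nil => simp [pev]
  | cons b l ih => rw [List.flatMap_cons, pev_append, ih, List.map_cons, List.sum_cons]

theorem isPoly_flatMap {β : Type*} {n : ℕ} (f : β → Poly) (l : List β)
    (h : ∀ b ∈ l, IsPoly n (f b)) : IsPoly n (l.flatMap f) := by
  intro m hm
  obtain ⟨b, hb, hmb⟩ := List.mem_flatMap.1 hm
  exact h b hb m hmb

theorem isPoly_single (n : ℕ) (c : Coef) : IsPoly n [(c, [])] := by
  intro m hm
  simp only [List.mem_singleton] at hm
  subst hm
  simp

theorem isPoly_app {n : ℕ} {A B : Poly} (hA : IsPoly n A) (hB : IsPoly n B) :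
    IsPoly n (A ++ B) := by
  intro m hm
  rcases List.mem_append.1 hm with h | h
  · exact hA m h
  · exact hB m h

/-! ### The sums of squares -/

/-- the sum of squares of the positive certificate -/
def sumPos (n : ℕ) (ds : List (Coef × Poly)) : Poly :=
  (List.range n).flatMap fun i => mulS [((ent ds i).1, [])] (sqP (varP i ++ (ent ds i).2))

/-- the sum of squares of the negative certificate -/
def sumNeg (ds : List (Coef × Poly)) : Poly := ds.flatMap fun p => mulS [(p.1, [])] (sqP p.2)

theorem pev_sumPos (X : ℕ → ℝ) (n : ℕ) (ds : List (Coef × Poly)) : pev X (sumPos n ds) =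
    ∑ i ∈ Finset.range n, cv (ent ds i).1 * (X i + pev X (ent ds i).2) ^ 2 := by
  unfold sumPos
  rw [pev_flatMap]
  have h : (fun i : ℕ => pev X (mulS [((ent ds i).1, [])] (sqP (varP i ++ (ent ds i).2)))) =
      fun i => cv (ent ds i).1 * (X i + pev X (ent ds i).2) ^ 2 := by
    funext i
    rw [pev_mulS, pev_single, pev_sqP, pev_append, pev_varP]
  rw [h]
  induction n with
  | zero => simp
  | succ n ih =>
    rw [List.range_succ, List.map_append, List.sum_append, ih, Finset.sum_range_succ]
    simp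

theorem pev_sumNeg (X : ℕ → ℝ) (ds : List (Coef × Poly)) : pev X (sumNeg ds) =
    (ds.map fun p => cv p.1 * pev X p.2 ^ 2).sum := by
  unfold sumNeg
  rw [pev_flatMap]
  have h : (fun p : Coef × Poly => pev X (mulS [(p.1, [])] (sqP p.2))) =
      fun p => cv p.1 * pev X p.2 ^ 2 := by
    funext p
    rw [pev_mulS, pev_single, pev_sqP]
  rw [h]

theorem isPoly_sumPos {n : ℕ} {ds : List (Coef × Poly)}
    (h : ∀ i < n, IsPoly i (ent ds i).2) : IsPoly n (sumPos n ds) := by
  refine isPoly_flatMap _ _ fun i hi => ?_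
  have hi' : i < n := List.mem_range.1 hi
  exact isPoly_mulS (isPoly_single n _)
    (isPoly_sqP (isPoly_app (isPoly_varP hi') (isPoly_mono hi'.le (h i hi'))))

theorem isPoly_sumNeg {n : ℕ} {ds : List (Coef × Poly)}
    (h : ∀ p ∈ ds, IsPoly n p.2) : IsPoly n (sumNeg ds) :=
  isPoly_flatMap _ _ fun p hp => isPoly_mulS (isPoly_single n _) (isPoly_sqP (h p hp))

/-! ### The zero test -/

theorem isZ_iff {n : ℕ} {g : Poly} (hg : IsPoly n g) :
    isZ n g = true ↔ ∀ X : ℕ → ℝ, pev X g = 0 := by
  constructor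
  · exact t_zero.1 n g hg
  · intro h
    by_contra hc
    have h1 : isZ n g = false := by
      cases hh : isZ n g
      · rfl
      · exact absurd hh hc
    have h2 := t_zero.2.1 n g hg h1
    have h3 : {x : Fin n → ℝ | pev (ext x) g = 0} = Set.univ := by
      ext x
      simp only [Set.mem_ofPred_eq, Set.mem_univ, iff_true]
      exact h _
    rw [h3] at h2
    exact (isOpen_univ.measure_ne_zero (volume : Measure (Fin n → ℝ)) Set.univ_nonempty) h2

/-! ### The checks -/

/-- all lists of exponents have length at most `k` -/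
def lenB (k : ℕ) (P : Poly) : Bool := P.all fun m => decide (m.2.length ≤ k)

theorem lenB_iff (k : ℕ) (P : Poly) : lenB k P = true ↔ IsPoly k P := by
  unfold lenB Pool.Agent.TH960.PE.IsPoly
  rw [List.all_eq_true]
  constructor
  · intro h m hm
    exact of_decide_eq_true (h m hm)
  · intro h m hm
    exact decide_eq_true (h m hm)

/-- the positive check -/
def cPos (z : (ℕ × Poly) × (Coef × List (Coef × Poly))) : Bool :=
  decide (z.2.2.length = z.1.1) && (decide (z.2.1.2.1 < z.2.1.1) &&
    ((List.range z.1.1).all (fun i => decide ((ent z.2.2 i).1.2.1 < (ent z.2.2 i).1.1)) &&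
      ((List.range z.1.1).all (fun i => lenB i (ent z.2.2 i).2) &&
        isZ z.1.1 (subP z.1.2 (subP [(z.2.1, [])] (sumPos z.1.1 z.2.2))))))

/-- the negative check -/
def cNeg (z : (ℕ × Poly) × (Coef × List (Coef × Poly))) : Bool :=
  decide (z.2.1.1 ≤ z.2.1.2.1) &&
    (z.2.2.all (fun p => decide (p.1.2.1 ≤ p.1.1) && lenB z.1.1 p.2) &&
      isZ z.1.1 (subP z.1.2 (subP [(z.2.1, [])] (sumNeg z.2.2))))

theorem cPos_iff (n : ℕ) (F : Poly) (r : Coef) (ds : List (Coef × Poly)) (hF : IsPoly n F) :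
    cPos ((n, F), (r, ds)) = true ↔ IsPos n F r ds := by
  unfold cPos IsPos
  simp only [Bool.and_eq_true]
  rw [decide_eq_true_iff, decide_eq_true_iff, List.all_eq_true, List.all_eq_true, cv_pos_iff]
  have e1 : (∀ i ∈ List.range n, decide ((ent ds i).1.2.1 < (ent ds i).1.1) = true) ↔
      ∀ i < n, 0 < cv (ent ds i).1 := by
    constructor
    · intro h i hi
      exact (cv_pos_iff _).2 (of_decide_eq_true (h i (List.mem_range.2 hi)))
    · intro h i hi
      exact decide_eq_true ((cv_pos_iff _).1 (h i (List.mem_range.1 hi)))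
  have e2 : (∀ i ∈ List.range n, lenB i (ent ds i).2 = true) ↔
      ∀ i < n, IsPoly i (ent ds i).2 := by
    constructor
    · intro h i hi
      exact (lenB_iff _ _).1 (h i (List.mem_range.2 hi))
    · intro h i hi
      exact (lenB_iff _ _).2 (h i (List.mem_range.1 hi))
  rw [e1, e2]
  refine and_congr_right fun _ => and_congr_right fun _ => and_congr_right fun _ =>
    and_congr_right fun h4 => ?_
  rw [isZ_iff (isPoly_subP hF (isPoly_subP (isPoly_single n r) (isPoly_sumPos h4)))]
  refine forall_congr' fun X => ?_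
  rw [pev_subP, pev_subP, pev_single, pev_sumPos, sub_eq_zero]

theorem cNeg_iff (n : ℕ) (F : Poly) (r : Coef) (ds : List (Coef × Poly)) (hF : IsPoly n F) :
    cNeg ((n, F), (r, ds)) = true ↔ IsNeg n F r ds := by
  unfold cNeg IsNeg
  simp only [Bool.and_eq_true]
  rw [decide_eq_true_iff, List.all_eq_true, cv_nonpos_iff]
  have e1 : (∀ p ∈ ds, (decide (p.1.2.1 ≤ p.1.1) && lenB n p.2) = true) ↔
      ∀ p ∈ ds, 0 ≤ cv p.1 ∧ IsPoly n p.2 := by
    refine forall_congr' fun p => forall_congr' fun _ => ?_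
    rw [Bool.and_eq_true, decide_eq_true_iff, cv_nonneg_iff, lenB_iff]
  rw [e1]
  refine and_congr_right fun _ => and_congr_right fun h4 => ?_
  rw [isZ_iff (isPoly_subP hF (isPoly_subP (isPoly_single n r)
    (isPoly_sumNeg fun p hp => (h4 p hp).2)))]
  refine forall_congr' fun X => ?_
  rw [pev_subP, pev_subP, pev_single, pev_sumNeg, sub_eq_zero]

/-! ### Computability -/

section prim

open PrimT SCode

variable {α : Type*} [Primcodable α]

theorem all_p {β : Type*} [Primcodable β] {f : α → List β} {p : α → β → Bool} (hf : Primrec f)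
    (hp : Primrec₂ p) : Primrec fun a => (f a).all (p a) := by
  have h2 : Primrec₂ fun (a : α) (q : β × Bool) => p a q.1 && q.2 := by
    have h3 : Primrec fun x : α × (β × Bool) => p x.1 x.2.1 && x.2.2 :=
      Primrec.and.comp (hp.comp Primrec.fst (Primrec.fst.comp Primrec.snd))
        (Primrec.snd.comp Primrec.snd)
    exact h3.to₂
  have h := Primrec.list_foldr hf (Primrec.const true) h2
  refine h.of_eq fun a => ?_
  induction f a with
  | nil => rfl
  | cons b l ih => rw [List.foldr_cons, List.all_cons, ih]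

theorem lt_p {f g : α → ℕ} (hf : Primrec f) (hg : Primrec g) :
    Primrec fun a => decide (f a < g a) :=
  (Primrec.nat_lt.comp hf hg).decide

theorem le_p {f g : α → ℕ} (hf : Primrec f) (hg : Primrec g) :
    Primrec fun a => decide (f a ≤ g a) :=
  (Primrec.nat_le.comp hf hg).decide

theorem eq_p {f g : α → ℕ} (hf : Primrec f) (hg : Primrec g) :
    Primrec fun a => decide (f a = g a) :=
  (Primrec.eq.comp hf hg).decide

theorem lenB_p {k : α → ℕ} {f : α → Poly} (hk : Primrec k) (hf : Primrec f) :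
    Primrec fun a => lenB (k a) (f a) := by
  have h : Primrec₂ fun (a : α) (m : Mono) => decide (m.2.length ≤ k a) := by
    have h1 : Primrec fun x : α × Mono => decide (x.2.2.length ≤ k x.1) :=
      le_p (Primrec.list_length.comp (Primrec.snd.comp Primrec.snd)) (hk.comp Primrec.fst)
    exact h1.to₂
  exact all_p hf h

theorem ent_p {f : α → List (Coef × Poly)} {i : α → ℕ} (hf : Primrec f) (hi : Primrec i) :
    Primrec fun a => ent (f a) (i a) :=
  (Primrec.list_getD (((0, 0, 0), []) : Coef × Poly)).comp hf hi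

theorem sumPos_p {n : α → ℕ} {f : α → List (Coef × Poly)} (hn : Primrec n) (hf : Primrec f) :
    Primrec fun a => sumPos (n a) (f a) := by
  have h : Primrec₂ fun (a : α) (i : ℕ) =>
      mulS [((ent (f a) i).1, [])] (sqP (varP i ++ (ent (f a) i).2)) := by
    have he : Primrec fun x : α × ℕ => ent (f x.1) x.2 :=
      ent_p (hf.comp Primrec.fst) Primrec.snd
    have h1 : Primrec fun x : α × ℕ =>
        mulS [((ent (f x.1) x.2).1, [])] (sqP (varP x.2 ++ (ent (f x.1) x.2).2)) :=
      mulS_p (coef_p (Primrec.fst.comp he))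
        (sqP_p (app_p (varP_p Primrec.snd) (Primrec.snd.comp he)))
    exact h1.to₂
  exact Primrec.list_flatMap (Primrec.list_range.comp hn) h

theorem sumNeg_p {f : α → List (Coef × Poly)} (hf : Primrec f) :
    Primrec fun a => sumNeg (f a) := by
  have h : Primrec₂ fun (_ : α) (p : Coef × Poly) => mulS [(p.1, [])] (sqP p.2) := by
    have h1 : Primrec fun x : α × (Coef × Poly) => mulS [(x.2.1, [])] (sqP x.2.2) :=
      mulS_p (coef_p (Primrec.fst.comp Primrec.snd)) (sqP_p (Primrec.snd.comp Primrec.snd))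
    exact h1.to₂
  exact Primrec.list_flatMap hf h

theorem isZ_p' {n : α → ℕ} {f : α → Poly} (hn : Primrec n) (hf : Primrec f) :
    Primrec fun a => isZ (n a) (f a) := t_zero.2.2.comp (Primrec.pair hn hf)

theorem cPos_p : Primrec cPos := by
  have hn : Primrec fun z : (ℕ × Poly) × (Coef × List (Coef × Poly)) => z.1.1 :=
    Primrec.fst.comp Primrec.fst
  have hF : Primrec fun z : (ℕ × Poly) × (Coef × List (Coef × Poly)) => z.1.2 :=
    Primrec.snd.comp Primrec.fst
  have hr : Primrec fun z : (ℕ × Poly) × (Coef × List (Coef × Poly)) => z.2.1 :=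
    Primrec.fst.comp Primrec.snd
  have hd : Primrec fun z : (ℕ × Poly) × (Coef × List (Coef × Poly)) => z.2.2 :=
    Primrec.snd.comp Primrec.snd
  have he : Primrec fun x : ((ℕ × Poly) × (Coef × List (Coef × Poly))) × ℕ =>
      ent x.1.2.2 x.2 := ent_p (hd.comp Primrec.fst) Primrec.snd
  have t1 : Primrec fun z : (ℕ × Poly) × (Coef × List (Coef × Poly)) =>
      decide (z.2.2.length = z.1.1) := eq_p (Primrec.list_length.comp hd) hn
  have t2 : Primrec fun z : (ℕ × Poly) × (Coef × List (Coef × Poly)) =>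
      decide (z.2.1.2.1 < z.2.1.1) :=
    lt_p (Primrec.fst.comp (Primrec.snd.comp hr)) (Primrec.fst.comp hr)
  have t3 : Primrec fun z : (ℕ × Poly) × (Coef × List (Coef × Poly)) =>
      (List.range z.1.1).all (fun i => decide ((ent z.2.2 i).1.2.1 < (ent z.2.2 i).1.1)) := by
    refine all_p (Primrec.list_range.comp hn) ?_
    have h1 : Primrec fun x : ((ℕ × Poly) × (Coef × List (Coef × Poly))) × ℕ =>
        decide ((ent x.1.2.2 x.2).1.2.1 < (ent x.1.2.2 x.2).1.1) :=
      lt_p (Primrec.fst.comp (Primrec.snd.comp (Primrec.fst.comp he)))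
        (Primrec.fst.comp (Primrec.fst.comp he))
    exact h1.to₂
  have t4 : Primrec fun z : (ℕ × Poly) × (Coef × List (Coef × Poly)) =>
      (List.range z.1.1).all (fun i => lenB i (ent z.2.2 i).2) := by
    refine all_p (Primrec.list_range.comp hn) ?_
    have h1 : Primrec fun x : ((ℕ × Poly) × (Coef × List (Coef × Poly))) × ℕ =>
        lenB x.2 (ent x.1.2.2 x.2).2 := lenB_p Primrec.snd (Primrec.snd.comp he)
    exact h1.to₂
  have t5 : Primrec fun z : (ℕ × Poly) × (Coef × List (Coef × Poly)) =>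
      isZ z.1.1 (subP z.1.2 (subP [(z.2.1, [])] (sumPos z.1.1 z.2.2))) :=
    isZ_p' hn (subP_p hF (subP_p (coef_p hr) (sumPos_p hn hd)))
  exact Primrec.and.comp t1 (Primrec.and.comp t2 (Primrec.and.comp t3 (Primrec.and.comp t4 t5)))

theorem cNeg_p : Primrec cNeg := by
  have hn : Primrec fun z : (ℕ × Poly) × (Coef × List (Coef × Poly)) => z.1.1 :=
    Primrec.fst.comp Primrec.fst
  have hF : Primrec fun z : (ℕ × Poly) × (Coef × List (Coef × Poly)) => z.1.2 :=
    Primrec.snd.comp Primrec.fst
  have hr : Primrec fun z : (ℕ × Poly) × (Coef × List (Coef × Poly)) => z.2.1 :=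
    Primrec.fst.comp Primrec.snd
  have hd : Primrec fun z : (ℕ × Poly) × (Coef × List (Coef × Poly)) => z.2.2 :=
    Primrec.snd.comp Primrec.snd
  have t1 : Primrec fun z : (ℕ × Poly) × (Coef × List (Coef × Poly)) =>
      decide (z.2.1.1 ≤ z.2.1.2.1) :=
    le_p (Primrec.fst.comp hr) (Primrec.fst.comp (Primrec.snd.comp hr))
  have t2 : Primrec fun z : (ℕ × Poly) × (Coef × List (Coef × Poly)) =>
      z.2.2.all (fun p => decide (p.1.2.1 ≤ p.1.1) && lenB z.1.1 p.2) := by
    refine all_p hd ?_
    have h1 : Primrec fun x : ((ℕ × Poly) × (Coef × List (Coef × Poly))) × (Coef × Poly) =>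
        (decide (x.2.1.2.1 ≤ x.2.1.1) && lenB x.1.1.1 x.2.2) := by
      have c1 : Primrec fun x : ((ℕ × Poly) × (Coef × List (Coef × Poly))) × (Coef × Poly) =>
          x.2.1 := Primrec.fst.comp Primrec.snd
      exact Primrec.and.comp
        (le_p (Primrec.fst.comp (Primrec.snd.comp c1)) (Primrec.fst.comp c1))
        (lenB_p (hn.comp Primrec.fst) (Primrec.snd.comp Primrec.snd))
    exact h1.to₂
  have t3 : Primrec fun z : (ℕ × Poly) × (Coef × List (Coef × Poly)) =>
      isZ z.1.1 (subP z.1.2 (subP [(z.2.1, [])] (sumNeg z.2.2))) :=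
    isZ_p' hn (subP_p hF (subP_p (coef_p hr) (sumNeg_p hd)))
  exact Primrec.and.comp t1 (Primrec.and.comp t2 t3)

end prim

end TChk

theorem t_chk : S_chk :=
  ⟨⟨TChk.cPos, TChk.cPos_p, fun n F r ds hF => TChk.cPos_iff n F r ds hF⟩,
    ⟨TChk.cNeg, TChk.cNeg_p, fun n F r ds hF => TChk.cNeg_iff n F r ds hF⟩⟩

end Pool.Agent.H652.PV
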