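import Pool.Agent.H652.PV.Tdefs

/-!
# T5 (helper571 for helper652): primitive recursive comparison of two products of rational numbers
-/

set_option autoImplicit false
set_option synthInstance.maxSize 2000

namespace Pool.Agent.H652.PV

open Pool.Agent.TH960.PE MeasureTheory

namespace TCmp

/-- the product of the first `n` coefficients of the list -/
def cprod (n : ℕ) (ds : List (Coef × Poly)) : Coef :=
  (List.range n).foldr (fun i s => cmul (ent ds i).1 s) (1, 0, 0)

/-- powers -/
def cpow (n : ℕ) (r : Coef) : Coef :=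
  (List.range n).foldr (fun _ s => cmul r s) (1, 0, 0)

/-- equality of values -/
def ceq (a b : Coef) : Bool :=
  decide (a.1 * (b.2.2 + 1) + b.2.1 * (a.2.2 + 1) = b.1 * (a.2.2 + 1) + a.2.1 * (b.2.2 + 1))

theorem cv_one' : cv (1, 0, 0) = 1 := by
  unfold cv
  norm_num

theorem cv_foldr (g : ℕ → Coef) (l : List ℕ) :
    cv (l.foldr (fun i s => cmul (g i) s) (1, 0, 0)) = (l.map fun i => cv (g i)).prod := by
  induction l with
  | nil => rw [List.foldr_nil, cv_one', List.map_nil, List.prod_nil]
  | cons i l ih => rw [List.foldr_cons, cv_cmul, ih, List.map_cons, List.prod_cons]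

theorem prod_range_map (f : ℕ → ℝ) (n : ℕ) :
    ((List.range n).map f).prod = ∏ i ∈ Finset.range n, f i := by
  induction n with
  | zero => rw [List.range_zero, List.map_nil, List.prod_nil, Finset.range_zero, Finset.prod_empty]
  | succ n ih =>
    rw [List.range_succ, List.map_append, List.prod_append, ih, Finset.prod_range_succ,
      List.map_cons, List.map_nil, List.prod_cons, List.prod_nil, mul_one]

theorem cv_cprod (n : ℕ) (ds : List (Coef × Poly)) :
    cv (cprod n ds) = ∏ i ∈ Finset.range n, cv (ent ds i).1 := by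
  unfold cprod
  rw [cv_foldr (fun i => (ent ds i).1), prod_range_map]

theorem cv_cpow (n : ℕ) (r : Coef) : cv (cpow n r) = cv r ^ n := by
  unfold cpow
  rw [cv_foldr (fun _ => r), prod_range_map, Finset.prod_const, Finset.card_range]

theorem ceq_iff (a b : Coef) : ceq a b = true ↔ cv a = cv b := by
  unfold ceq cv
  rw [decide_eq_true_iff, div_eq_div_iff (by positivity) (by positivity)]
  constructor
  · intro h
    have h1 : ((a.1 * (b.2.2 + 1) + b.2.1 * (a.2.2 + 1) : ℕ) : ℝ) =
        ((b.1 * (a.2.2 + 1) + a.2.1 * (b.2.2 + 1) : ℕ) : ℝ) := by rw [h]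
    push_cast at h1
    linear_combination h1
  · intro h
    have h1 : ((a.1 * (b.2.2 + 1) + b.2.1 * (a.2.2 + 1) : ℕ) : ℝ) =
        ((b.1 * (a.2.2 + 1) + a.2.1 * (b.2.2 + 1) : ℕ) : ℝ) := by
      push_cast
      linear_combination h
    exact_mod_cast h1

variable {α : Type*} [Primcodable α]

theorem ceq_p {f g : α → Coef} (hf : Primrec f) (hg : Primrec g) :
    Primrec fun a => ceq (f a) (g a) := by
  have f1 : Primrec fun a => (f a).1 := Primrec.fst.comp hf
  have f2 : Primrec fun a => (f a).2.1 := Primrec.fst.comp (Primrec.snd.comp hf)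
  have f3 : Primrec fun a => (f a).2.2 + 1 :=
    Primrec.nat_add.comp (Primrec.snd.comp (Primrec.snd.comp hf)) (Primrec.const 1)
  have g1 : Primrec fun a => (g a).1 := Primrec.fst.comp hg
  have g2 : Primrec fun a => (g a).2.1 := Primrec.fst.comp (Primrec.snd.comp hg)
  have g3 : Primrec fun a => (g a).2.2 + 1 :=
    Primrec.nat_add.comp (Primrec.snd.comp (Primrec.snd.comp hg)) (Primrec.const 1)
  exact Primrec.eq.decide.comp
    (Primrec.nat_add.comp (Primrec.nat_mul.comp f1 g3) (Primrec.nat_mul.comp g2 f3))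
    (Primrec.nat_add.comp (Primrec.nat_mul.comp g1 f3) (Primrec.nat_mul.comp f2 g3))

theorem cpow_p {n : α → ℕ} {r : α → Coef} (hn : Primrec n) (hr : Primrec r) :
    Primrec fun a => cpow (n a) (r a) := by
  have h : Primrec₂ fun (a : α) (p : ℕ × Coef) => cmul (r a) p.2 := by
    have h1 : Primrec fun q : α × (ℕ × Coef) => cmul (r q.1) q.2.2 :=
      PrimT.cmul_p (hr.comp Primrec.fst) (Primrec.snd.comp Primrec.snd)
    exact h1.to₂
  exact Primrec.list_foldr (Primrec.list_range.comp hn) (Primrec.const ((1, 0, 0) : Coef)) h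

theorem cprod_p {n : α → ℕ} {ds : α → List (Coef × Poly)} (hn : Primrec n) (hd : Primrec ds) :
    Primrec fun a => cprod (n a) (ds a) := by
  have h : Primrec₂ fun (a : α) (p : ℕ × Coef) => cmul (ent (ds a) p.1).1 p.2 := by
    have h2 : Primrec fun q : α × (ℕ × Coef) => (ds q.1).getD q.2.1 ((0, 0, 0), []) :=
      (Primrec.list_getD ((0, 0, 0), [])).comp (hd.comp Primrec.fst)
        (Primrec.fst.comp Primrec.snd)
    have h1 : Primrec fun q : α × (ℕ × Coef) => cmul (ent (ds q.1) q.2.1).1 q.2.2 :=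
      PrimT.cmul_p (Primrec.fst.comp h2) (Primrec.snd.comp Primrec.snd)
    exact h1.to₂
  exact Primrec.list_foldr (Primrec.list_range.comp hn) (Primrec.const ((1, 0, 0) : Coef)) h

end TCmp

open TCmp in
theorem t_cmp : S_cmp := by
  refine ⟨fun p => ceq (cmul (cpow p.1 p.2.1.1) (cprod p.1 p.2.2.2))
    (cmul (cpow p.1 p.2.2.1) (cprod p.1 p.2.1.2)), ?_, ?_⟩
  · have hn : Primrec fun p : ℕ × ((Coef × List (Coef × Poly)) × (Coef × List (Coef × Poly))) =>
        p.1 := Primrec.fst
    have hr : Primrec fun p : ℕ × ((Coef × List (Coef × Poly)) × (Coef × List (Coef × Poly))) =>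
        p.2.1.1 := Primrec.fst.comp (Primrec.fst.comp Primrec.snd)
    have hd : Primrec fun p : ℕ × ((Coef × List (Coef × Poly)) × (Coef × List (Coef × Poly))) =>
        p.2.1.2 := Primrec.snd.comp (Primrec.fst.comp Primrec.snd)
    have hr' : Primrec fun p : ℕ × ((Coef × List (Coef × Poly)) × (Coef × List (Coef × Poly))) =>
        p.2.2.1 := Primrec.fst.comp (Primrec.snd.comp Primrec.snd)
    have hd' : Primrec fun p : ℕ × ((Coef × List (Coef × Poly)) × (Coef × List (Coef × Poly))) =>
        p.2.2.2 := Primrec.snd.comp (Primrec.snd.comp Primrec.snd)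
    exact ceq_p (PrimT.cmul_p (cpow_p hn hr) (cprod_p hn hd'))
      (PrimT.cmul_p (cpow_p hn hr') (cprod_p hn hd))
  · intro n r r' ds ds' _ _ hd hd'
    have h1 : (∏ i ∈ Finset.range n, cv (ent ds i).1) ≠ 0 :=
      Finset.prod_ne_zero_iff.2 fun i hi => (hd i (Finset.mem_range.1 hi)).ne'
    have h2 : (∏ i ∈ Finset.range n, cv (ent ds' i).1) ≠ 0 :=
      Finset.prod_ne_zero_iff.2 fun i hi => (hd' i (Finset.mem_range.1 hi)).ne'
    show ceq (cmul (cpow n r) (cprod n ds')) (cmul (cpow n r') (cprod n ds)) = true ↔ _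
    rw [ceq_iff, cv_cmul, cv_cmul, cv_cpow, cv_cpow, cv_cprod, cv_cprod, div_eq_div_iff h1 h2]

end Pool.Agent.H652.PV
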