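import Pool.Agent.H652.PV.Tdefs

/-!
# A region of finite volume given by a cubic polynomial has no cubic part
-/

set_option autoImplicit false
set_option synthInstance.maxSize 2000

namespace Pool.Agent.H652.PV

open Pool.Agent.TH960.PE MeasureTheory

namespace TCub

open Filter Topology Metric Pointwise

lemma mev_mul (t : ℝ) (e : List ℕ) :
    ∀ X : ℕ → ℝ, mev (fun i => t * X i) e = t ^ e.sum * mev X e := by
  induction e with
  | nil =>
    intro X
    simp [mev]
  | cons a e ih =>
    intro X
    simp only [mev, List.sum_cons]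
    rw [ih (fun i => X (i + 1)), mul_pow, pow_add]
    ring

lemma pev_cub (t : ℝ) (X : ℕ → ℝ) (P : Poly) (h : ∀ m ∈ P, m.2.sum = 3) :
    pev (fun i => t * X i) P = t ^ 3 * pev X P := by
  induction P with
  | nil => simp [pev]
  | cons m P ih =>
    rw [pev_cons, pev_cons, ih (fun m' hm' => h m' (List.mem_cons_of_mem _ hm')), mev_mul,
      h m List.mem_cons_self]
    ring

/-- the sum of the absolute values of the monomials -/
noncomputable def aev (X : ℕ → ℝ) (P : Poly) : ℝ := (P.map fun m => |cv m.1| * |mev X m.2|).sum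

lemma aev_cons (X : ℕ → ℝ) (m : Mono) (P : Poly) :
    aev X (m :: P) = |cv m.1| * |mev X m.2| + aev X P := by
  simp [aev]

lemma pev_low {t : ℝ} (ht : 1 ≤ t) (X : ℕ → ℝ) (P : Poly) (h : ∀ m ∈ P, m.2.sum ≤ 2) :
    |pev (fun i => t * X i) P| ≤ t ^ 2 * aev X P := by
  induction P with
  | nil => simp [pev, aev]
  | cons m P ih =>
    rw [pev_cons, aev_cons, mev_mul]
    have h1 := ih fun m' hm' => h m' (List.mem_cons_of_mem _ hm')
    have h2 : t ^ m.2.sum ≤ t ^ 2 := pow_le_pow_right₀ ht (h m List.mem_cons_self)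
    have h3 : |cv m.1 * (t ^ m.2.sum * mev X m.2)| ≤ t ^ 2 * (|cv m.1| * |mev X m.2|) := by
      rw [abs_mul, abs_mul, abs_of_nonneg (show 0 ≤ t ^ m.2.sum by positivity)]
      have h4 : t ^ m.2.sum * (|cv m.1| * |mev X m.2|) ≤ t ^ 2 * (|cv m.1| * |mev X m.2|) :=
        mul_le_mul_of_nonneg_right h2 (by positivity)
      linarith
    refine (abs_add_le _ _).trans ?_
    rw [mul_add]
    exact add_le_add h3 h1

lemma pev_split (X : ℕ → ℝ) (F : Poly) :
    pev X F = pev X (low F) + pev X (F.filter fun m => ! decide (m.2.sum ≤ 2)) := by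
  unfold low
  induction F with
  | nil => simp [pev]
  | cons m F ih =>
    rw [pev_cons, ih]
    by_cases hm : m.2.sum ≤ 2
    · rw [List.filter_cons_of_pos (by simpa using hm), List.filter_cons_of_neg (by simpa using hm), pev_cons]
      ring
    · rw [List.filter_cons_of_neg (by simpa using hm), List.filter_cons_of_pos (by simpa using hm), pev_cons]
      ring

lemma ext_smul {n : ℕ} (t : ℝ) (x : Fin n → ℝ) : ext (t • x) = fun i => t * ext x i := by
  funext i
  unfold ext
  by_cases h : i < n
  · simp [h]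
  · simp [h]

lemma cont_ext {n : ℕ} (i : ℕ) : Continuous fun x : Fin n → ℝ => ext x i := by
  unfold ext
  by_cases h : i < n
  · simp only [h, dif_pos]
    exact continuous_apply _
  · simp only [h, dif_neg, not_false_iff]
    exact continuous_const

lemma cont_mev {n : ℕ} (e : List ℕ) : Continuous fun x : Fin n → ℝ => mev (ext x) e := by
  have h : (fun x : Fin n → ℝ => mev (ext x) e) =
      fun x : Fin n → ℝ => ∏ i ∈ Finset.range e.length, ext x i ^ e.getD i 0 := by
    funext x
    exact mev_eq_prod e _ le_rfl _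
  rw [h]
  exact continuous_finsetProd _ fun i _ => (cont_ext i).pow _

lemma cont_pev {n : ℕ} (P : Poly) : Continuous fun x : Fin n → ℝ => pev (ext x) P := by
  induction P with
  | nil =>
    simp only [pev, List.map_nil, List.sum_nil]
    exact continuous_const
  | cons m P ih =>
    simp only [pev_cons]
    exact (continuous_const.mul (cont_mev _)).add ih

lemma cont_aev {n : ℕ} (P : Poly) : Continuous fun x : Fin n → ℝ => aev (ext x) P := by
  induction P with
  | nil =>
    simp only [aev, List.map_nil, List.sum_nil]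
    exact continuous_const
  | cons m P ih =>
    simp only [aev_cons]
    exact (continuous_const.mul (cont_mev _).abs).add ih

/-- the main point -/
lemma no_pos {n : ℕ} (hn : 1 ≤ n) (F : Poly) (hF : Deg 3 F)
    (hV : volume {x : Fin n → ℝ | 0 < pev (ext x) F} ≠ ⊤) (x0 : Fin n → ℝ) :
    ¬ 0 < pev (ext x0) (F.filter fun m => ! decide (m.2.sum ≤ 2)) := by
  intro hpos
  set G := F.filter fun m => ! decide (m.2.sum ≤ 2) with hG
  have hG3 : ∀ m ∈ G, m.2.sum = 3 := by
    intro m hm
    rw [hG, List.mem_filter] at hm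
    have h1 := hF m hm.1
    have h2 : ¬ m.2.sum ≤ 2 := by simpa using hm.2
    omega
  have hL2 : ∀ m ∈ low F, m.2.sum ≤ 2 := by
    intro m hm
    unfold low at hm
    rw [List.mem_filter] at hm
    simpa using hm.2
  set c := pev (ext x0) G / 2 with hc
  set K := aev (ext x0) (low F) + 1 with hK
  have hc0 : 0 < c := by linarith
  have hnear : ∀ᶠ x : Fin n → ℝ in 𝓝 x0, c < pev (ext x) G ∧ aev (ext x) (low F) < K :=
    ((cont_pev G).continuousAt.eventually (lt_mem_nhds (show c < pev (ext x0) G by linarith))).and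
      ((cont_aev (low F)).continuousAt.eventually
        (gt_mem_nhds (show aev (ext x0) (low F) < K by linarith)))
  obtain ⟨ε, hε, hball⟩ := Metric.eventually_nhds_iff_ball.1 hnear
  have hsub : ∀ t : ℝ, 1 ≤ t → K ≤ c * t → t • ball x0 ε ⊆ {x : Fin n → ℝ | 0 < pev (ext x) F} := by
    rintro t ht htK _ ⟨x, hx, rfl⟩
    obtain ⟨h1, h2⟩ := hball x hx
    change 0 < pev (ext (t • x)) F
    rw [pev_split, ext_smul, pev_cub t _ G hG3]
    have h3 := pev_low ht (ext x) (low F) hL2
    rw [abs_le] at h3
    have ht0 : 0 < t := by linarith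
    have h4 : t ^ 2 * aev (ext x) (low F) < t ^ 2 * K := mul_lt_mul_of_pos_left h2 (by positivity)
    have h5 : t ^ 2 * K ≤ t ^ 2 * (c * t) := mul_le_mul_of_nonneg_left htK (by positivity)
    have h6 : t ^ 3 * c ≤ t ^ 3 * pev (ext x) G := mul_le_mul_of_nonneg_left h1.le (by positivity)
    nlinarith
  -- the volumes
  obtain ⟨V, hVe⟩ : ∃ V, V = (volume {x : Fin n → ℝ | 0 < pev (ext x) F}).toReal := ⟨_, rfl⟩
  obtain ⟨w, hwe⟩ : ∃ w, w = (volume (ball x0 ε)).toReal := ⟨_, rfl⟩
  have hw : 0 < w := by
    rw [hwe]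
    exact ENNReal.toReal_pos (measure_ball_pos _ _ hε).ne' measure_ball_lt_top.ne
  have hle : ∀ t : ℝ, 1 ≤ t → K ≤ c * t → t * w ≤ V := by
    intro t ht htK
    have h1 := measure_mono (μ := volume) (hsub t ht htK)
    rw [Measure.addHaar_smul, Module.finrank_fintype_fun_eq_card, Fintype.card_fin] at h1
    have h2 := ENNReal.toReal_mono hV h1
    rw [ENNReal.toReal_mul, ENNReal.toReal_ofReal (abs_nonneg _), ← hVe, ← hwe,
      abs_of_nonneg (by positivity)] at h2
    have h3 : t ≤ t ^ n := le_self_pow₀ ht (by omega)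
    exact (mul_le_mul_of_nonneg_right h3 hw.le).trans h2
  have hV0 : 0 ≤ V := by
    rw [hVe]
    exact ENNReal.toReal_nonneg
  have h1 := hle (max 1 (K / c) + (V + 1) / w)
    (by
      have h2 : 0 ≤ (V + 1) / w := by positivity
      linarith [le_max_left 1 (K / c)])
    (by
      have h2 : 0 ≤ (V + 1) / w := by positivity
      have h3 : K / c ≤ max 1 (K / c) + (V + 1) / w := by linarith [le_max_right 1 (K / c)]
      rw [div_le_iff₀ hc0] at h3
      linarith)
  have h2 : (max 1 (K / c) + (V + 1) / w) * w = max 1 (K / c) * w + (V + 1) := by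
    field_simp
  rw [h2] at h1
  have h3 : 0 < max 1 (K / c) * w := mul_pos (lt_of_lt_of_le one_pos (le_max_left _ _)) hw
  linarith

end TCub

open TCub in
theorem t_cub : S_cub := by
  intro n F hP hF hV X
  rw [pev_split X F]
  set G := F.filter fun m => ! decide (m.2.sum ≤ 2) with hG
  have hGP : IsPoly n G := fun m hm => hP m (List.mem_of_mem_filter hm)
  have hG3 : ∀ m ∈ G, m.2.sum = 3 := by
    intro m hm
    rw [hG, List.mem_filter] at hm
    have h1 := hF m hm.1
    have h2 : ¬ m.2.sum ≤ 2 := by simpa using hm.2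
    omega
  have hzero : pev X G = 0 := by
    rcases Nat.eq_zero_or_pos n with hn | hn
    · have h1 : G = [] := by
        rw [List.eq_nil_iff_forall_not_mem]
        intro m hm
        have h2 := hGP m hm
        rw [hn, Nat.le_zero, List.length_eq_zero_iff] at h2
        have h3 := hG3 m hm
        rw [h2] at h3
        simp at h3
      rw [h1]
      simp [pev]
    · obtain ⟨x, hx⟩ : ∃ x : Fin n → ℝ, x = fun i : Fin n => X (i : ℕ) := ⟨_, rfl⟩
      have h1 : pev X G = pev (ext x) G := by
        refine pev_congr n G hGP _ _ fun i hi => ?_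
        rw [hx]
        simp [ext, hi]
      have h2 := no_pos hn F hF hV x
      have h3 := no_pos hn F hF hV ((-1 : ℝ) • x)
      rw [ext_smul, ← hG, pev_cub (-1) _ G hG3] at h3
      rw [← hG] at h2
      rw [h1]
      push Not at h2 h3
      linarith
  rw [hzero, add_zero]

end Pool.Agent.H652.PV
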