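import Pool.Agent.H652.PV.Tdefs

/-!
# Completing squares (task T1; helper263)
-/

set_option autoImplicit false
set_option synthInstance.maxSize 2000

namespace Pool.Agent.H652.PV

open Pool.Agent.TH960.PE MeasureTheory

namespace TTri

/-! ### Coefficients -/

theorem exists_cv (q : ℚ) : ∃ c : Coef, cv c = (q : ℝ) := by
  refine ⟨(q.num.toNat, (-q.num).toNat, q.den - 1), ?_⟩
  unfold cv
  have h1 : ((q.num.toNat : ℕ) : ℝ) - (((-q.num).toNat : ℕ) : ℝ) = (q.num : ℝ) := by
    have h2 : (q.num.toNat : ℤ) - ((-q.num).toNat : ℤ) = q.num := by omega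
    exact_mod_cast congrArg (fun z : ℤ => (z : ℝ)) h2
  have h3 : ((q.den - 1 : ℕ) : ℝ) + 1 = (q.den : ℝ) := by
    have h4 : q.den - 1 + 1 = q.den := Nat.sub_add_cancel q.den_pos
    exact_mod_cast h4
  change (((q.num.toNat : ℕ) : ℝ) - (((-q.num).toNat : ℕ) : ℝ)) / (((q.den - 1 : ℕ) : ℝ) + 1) = q
  rw [h1, h3]
  exact (Rat.cast_def q).symm

theorem cv_rat (a : Coef) : ∃ q : ℚ, cv a = (q : ℝ) := by
  refine ⟨((a.1 : ℚ) - a.2.1) / ((a.2.2 : ℚ) + 1), ?_⟩
  unfold cv
  push_cast
  rfl

/-! ### The decomposition -/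

theorem mev_zero : ∀ (e : List ℕ) (X : ℕ → ℝ), e.sum = 0 → mev X e = 1 := by
  intro e
  induction e with
  | nil => intro X _; simp [mev]
  | cons a e ih =>
    intro X h
    rw [List.sum_cons] at h
    have h1 : a = 0 := by omega
    rw [mev, ih _ (by omega), h1, pow_zero, one_mul]

theorem last (n : ℕ) (e : List ℕ) (hm : e.length ≤ n + 1) (hm' : e.sum ≤ 2) :
    ∃ (e' : List ℕ) (k : ℕ), e'.length ≤ n ∧ e'.sum + k ≤ 2 ∧
      ∀ X : ℕ → ℝ, mev X e = mev X e' * X n ^ k := by
  by_cases hn : e.length ≤ n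
  · exact ⟨e, 0, hn, hm', fun X => by rw [pow_zero, mul_one]⟩
  · have hlen : e.length = n + 1 := by omega
    have hne : e ≠ [] := by
      rintro rfl
      simp at hlen
    have h1 : e.dropLast ++ [e.getLast hne] = e := List.dropLast_append_getLast hne
    have h2 : e.dropLast.length = n := by
      rw [List.length_dropLast, hlen]
      omega
    refine ⟨e.dropLast, e.getLast hne, h2.le, ?_, fun X => ?_⟩
    · have h3 := congrArg List.sum h1
      rw [List.sum_append, List.sum_singleton] at h3
      omega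
    · have h3 : mev X (e.dropLast ++ [e.getLast hne]) =
          mev X e.dropLast * X n ^ e.getLast hne := by
        rw [mev_append, h2, mev, mev, mul_one, zero_add]
      rwa [h1] at h3

theorem isPoly_cons {n : ℕ} {m : Mono} {F : Poly} (hm : m.2.length ≤ n) (hF : IsPoly n F) :
    IsPoly n (m :: F) := by
  intro x hx
  rcases List.mem_cons.1 hx with rfl | hx
  · exact hm
  · exact hF x hx

theorem deg_cons {n : ℕ} {m : Mono} {F : Poly} (hm : m.2.sum ≤ n) (hF : Deg n F) :
    Deg n (m :: F) := by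
  intro x hx
  rcases List.mem_cons.1 hx with rfl | hx
  · exact hm
  · exact hF x hx

theorem decomp (n : ℕ) : ∀ F : Poly, IsPoly (n + 1) F → Deg 2 F → ∃ (a : Coef) (L Q : Poly),
    IsPoly n L ∧ Deg 1 L ∧ IsPoly n Q ∧ Deg 2 Q ∧
    ∀ X : ℕ → ℝ, pev X F = cv a * X n ^ 2 + X n * pev X L + pev X Q := by
  intro F
  induction F with
  | nil =>
    intro _ _
    refine ⟨(0, 0, 0), [], [], fun _ h => absurd h List.not_mem_nil,
      fun _ h => absurd h List.not_mem_nil, fun _ h => absurd h List.not_mem_nil,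
      fun _ h => absurd h List.not_mem_nil, fun X => ?_⟩
    simp [pev, cv]
  | cons m F ih =>
    intro hP hD
    obtain ⟨a, L, Q, hL, hL', hQ, hQ', h⟩ := ih (fun x hx => hP x (List.mem_cons_of_mem _ hx))
      (fun x hx => hD x (List.mem_cons_of_mem _ hx))
    obtain ⟨e, k, he, hk, hmev⟩ := last n m.2 (hP m List.mem_cons_self) (hD m List.mem_cons_self)
    rcases k with _ | _ | _ | k
    · refine ⟨a, L, (m.1, e) :: Q, hL, hL', isPoly_cons he hQ, deg_cons (by simpa using hk) hQ',
        fun X => ?_⟩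
      rw [pev_cons, h, pev_cons, hmev]
      ring
    · refine ⟨a, (m.1, e) :: L, Q, isPoly_cons he hL, deg_cons (by
        change e.sum ≤ 1
        omega) hL', hQ, hQ', fun X => ?_⟩
      rw [pev_cons, h, pev_cons, hmev]
      ring
    · refine ⟨cadd m.1 a, L, Q, hL, hL', hQ, hQ', fun X => ?_⟩
      rw [pev_cons, h, hmev, cv_cadd, mev_zero e X (by omega)]
      ring
    · omega

theorem const (G : Poly) : IsPoly 0 G → ∃ r : Coef, ∀ X : ℕ → ℝ, pev X G = cv r := by
  induction G with
  | nil =>
    intro _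
    exact ⟨(0, 0, 0), fun X => by simp [pev, cv]⟩
  | cons m G ih =>
    intro h
    obtain ⟨r, hr⟩ := ih fun x hx => h x (List.mem_cons_of_mem _ hx)
    have h1 : m.2 = [] := List.length_eq_zero_iff.1 (Nat.le_zero.1 (h m List.mem_cons_self))
    refine ⟨cadd m.1 r, fun X => ?_⟩
    rw [pev_cons, hr, cv_cadd, h1, mev, mul_one]

/-! ### Fubini -/

theorem vol_eq {n : ℕ} {F : Poly} {a : Coef} {L Q : Poly} (hL : IsPoly n L) (hQ : IsPoly n Q)
    (h : ∀ X : ℕ → ℝ, pev X F = cv a * X n ^ 2 + X n * pev X L + pev X Q) (c : ℝ) :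
    volume {z : Fin (n + 1) → ℝ | c < pev (ext z) F} =
      ∫⁻ x : Fin n → ℝ, volume {t : ℝ | c < cv a * t ^ 2 + t * pev (ext x) L + pev (ext x) Q} := by
  have hmF : MeasurableSet {X : ℕ → ℝ | c < pev X F} :=
    measurableSet_lt measurable_const (measurable_pev F)
  have h1 : volume {z : Fin (n + 1) → ℝ | c < pev (ext z) F} =
      ∫⁻ z : Fin (n + 1) → ℝ, Set.indicator {X : ℕ → ℝ | c < pev X F} (1 : (ℕ → ℝ) → ENNReal)
        (ext z) := by
    exact (lintegral_indicator_one (measurable_ext (n + 1) hmF)).symm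
  rw [h1, lint_split n 1 _ (measurable_one.indicator hmF)]
  refine lintegral_congr fun x => ?_
  have hm : MeasurableSet {t : ℝ | c < cv a * t ^ 2 + t * pev (ext x) L + pev (ext x) Q} := by
    refine measurableSet_lt measurable_const ?_
    fun_prop
  have h2 : ∀ y : Fin 1 → ℝ, Set.indicator {X : ℕ → ℝ | c < pev X F}
      (1 : (ℕ → ℝ) → ENNReal) (glue n (ext x) (ext y)) =
      Set.indicator {t : ℝ | c < cv a * t ^ 2 + t * pev (ext x) L + pev (ext x) Q}
        (1 : ℝ → ENNReal) (MeasurableEquiv.funUnique (Fin 1) ℝ y) := by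
    intro y
    have h3 : pev (glue n (ext x) (ext y)) F =
        cv a * (y 0) ^ 2 + y 0 * pev (ext x) L + pev (ext x) Q := by
      have h4 : glue n (ext x) (ext y) n = y 0 := by
        simp [glue, ext]
      rw [h, h4, (dep_pev hL).glue, (dep_pev hQ).glue]
    simp only [Set.indicator_apply, Set.mem_ofPred_eq, h3]
    rfl
  simp only [h2]
  have h5 := (volume_preserving_funUnique (Fin 1) ℝ).lintegral_comp
    (f := Set.indicator {t : ℝ | c < cv a * t ^ 2 + t * pev (ext x) L + pev (ext x) Q}
      (1 : ℝ → ENNReal)) (measurable_one.indicator hm)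
  exact h5.trans (lintegral_indicator_one hm)

/-! ### One variable -/

theorem top_sq {A l q c : ℝ} (hA : 0 < A) : volume {t : ℝ | c < A * t ^ 2 + t * l + q} = ⊤ := by
  refine measure_mono_top (s₁ := Set.Ioi (1 + (|l| + |c| + |q| + 1) / A)) (fun t ht => ?_)
    Real.volume_Ioi
  have h1 : 1 + (|l| + |c| + |q| + 1) / A < t := ht
  have h2 : (|l| + |c| + |q| + 1) / A < t - 1 := by linarith
  rw [div_lt_iff₀ hA] at h2
  have a1 := neg_abs_le l
  have a2 := le_abs_self c
  have a3 := neg_abs_le q
  have a4 := abs_nonneg c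
  have a5 := abs_nonneg q
  have a6 := abs_nonneg l
  have h3 : |c| + |q| + 1 < A * t + l := by nlinarith
  have h4 : 1 < t := by
    by_contra h5
    push Not at h5
    nlinarith
  change c < A * t ^ 2 + t * l + q
  nlinarith

theorem top_lin {A l q c : ℝ} (hA : A = 0) (hl : l ≠ 0) :
    volume {t : ℝ | c < A * t ^ 2 + t * l + q} = ⊤ := by
  subst hA
  rcases lt_or_gt_of_ne hl with h | h
  · refine measure_mono_top (s₁ := Set.Iio ((c - q) / l)) (fun t ht => ?_) Real.volume_Iio
    have h1 : t < (c - q) / l := ht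
    rw [lt_div_iff_of_neg h] at h1
    change c < 0 * t ^ 2 + t * l + q
    linarith
  · refine measure_mono_top (s₁ := Set.Ioi ((c - q) / l)) (fun t ht => ?_) Real.volume_Ioi
    have h1 : (c - q) / l < t := ht
    rw [div_lt_iff₀ h] at h1
    change c < 0 * t ^ 2 + t * l + q
    linarith

theorem pos_quad {d ε : ℝ} (hd : 0 < d) (hε : 0 < ε) : ∃ κ : ENNReal, κ ≠ 0 ∧
    ∀ l q : ℝ, ε < q + l ^ 2 / (4 * d) → κ ≤ volume {t : ℝ | ε / 2 < -d * t ^ 2 + t * l + q} := by
  obtain ⟨δ, hδ⟩ : ∃ δ : ℝ, δ = min 1 (ε / (2 * d)) := ⟨_, rfl⟩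
  have hδ0 : 0 < δ := by
    rw [hδ]
    exact lt_min one_pos (by positivity)
  have hδ1 : δ ≤ 1 := by
    rw [hδ]
    exact min_le_left _ _
  have hδ2 : δ * (2 * d) ≤ ε := by
    rw [← le_div_iff₀ (by positivity), hδ]
    exact min_le_right _ _
  refine ⟨ENNReal.ofReal (2 * δ), by rw [Ne, ENNReal.ofReal_eq_zero, not_le]; positivity,
    fun l q h => ?_⟩
  have h1 : volume (Set.Ioo (l / (2 * d) - δ) (l / (2 * d) + δ)) = ENNReal.ofReal (2 * δ) := by
    rw [Real.volume_Ioo]
    congr 1
    ring
  rw [← h1]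
  refine measure_mono fun t ht => ?_
  obtain ⟨h2, h3⟩ := ht
  obtain ⟨s, hs⟩ : ∃ s : ℝ, s = t - l / (2 * d) := ⟨_, rfl⟩
  have h4 : s ^ 2 ≤ δ ^ 2 := by
    apply sq_le_sq'
    · linarith
    · linarith
  have h5 : -d * t ^ 2 + t * l + q = q + l ^ 2 / (4 * d) - d * s ^ 2 := by
    rw [hs]
    field_simp
    ring
  have h6 : d * s ^ 2 ≤ d * δ ^ 2 := mul_le_mul_of_nonneg_left h4 hd.le
  have h8 : δ ^ 2 ≤ δ := by nlinarith
  have h7 : d * δ ^ 2 ≤ d * δ := mul_le_mul_of_nonneg_left h8 hd.le
  change ε / 2 < -d * t ^ 2 + t * l + q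
  rw [h5]
  linarith

/-! ### Positive volume -/

theorem cont_pev (n : ℕ) (F : Poly) : Continuous fun x : Fin n → ℝ => pev (ext x) F := by
  have h1 : ∀ i, Continuous fun x : Fin n → ℝ => ext x i := by
    intro i
    unfold ext
    by_cases h : i < n
    · simp only [h, dif_pos]
      exact continuous_apply _
    · simp only [h, dif_neg, not_false_iff]
      exact continuous_const
  induction F with
  | nil =>
    simp only [pev, List.map_nil, List.sum_nil]
    exact continuous_const
  | cons m F ih =>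
    simp only [pev_cons]
    refine (continuous_const.mul ?_).add ih
    have h2 : (fun x : Fin n → ℝ => mev (ext x) m.2) =
        fun x : Fin n → ℝ => ∏ i ∈ Finset.range m.2.length, ext x i ^ m.2.getD i 0 := by
      funext x
      exact mev_eq_prod m.2 m.2.length le_rfl _
    rw [h2]
    exact continuous_finsetProd _ fun i _ => (h1 i).pow _

theorem exists_pt {n : ℕ} {ds : List (Coef × Poly)} (hp : ∀ i < n, IsPoly i (ent ds i).2) :
    ∀ k ≤ n, ∃ X : ℕ → ℝ, ∀ i < k, X i + pev X (ent ds i).2 = 0 := by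
  intro k
  induction k with
  | zero => intro _; exact ⟨0, fun i hi => absurd hi (Nat.not_lt_zero _)⟩
  | succ k ih =>
    intro hk
    obtain ⟨X, hX⟩ := ih (by omega)
    refine ⟨fun i => if i = k then -pev X (ent ds k).2 else X i, fun i hi => ?_⟩
    have h1 : pev (fun i => if i = k then -pev X (ent ds k).2 else X i) (ent ds i).2 =
        pev X (ent ds i).2 := by
      refine pev_congr i _ (hp i (by omega)) _ _ fun j hj => ?_
      change (if j = k then -pev X (ent ds k).2 else X j) = X j
      rw [if_neg (by omega)]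
    rw [h1]
    by_cases h2 : i = k
    · subst h2
      change (if i = i then -pev X (ent ds i).2 else X i) + pev X (ent ds i).2 = 0
      rw [if_pos rfl, neg_add_cancel]
    · change (if i = k then -pev X (ent ds k).2 else X i) + pev X (ent ds i).2 = 0
      rw [if_neg h2]
      exact hX i (by omega)

theorem pos_vol {n : ℕ} {F : Poly} {r : Coef} {ds : List (Coef × Poly)} (hF : IsPoly n F)
    (h : IsPos n F r ds) : volume {x : Fin n → ℝ | cv r / 2 < pev (ext x) F} ≠ 0 := by
  obtain ⟨-, hr, -, hp, hv⟩ := h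
  obtain ⟨X, hX⟩ := exists_pt hp n le_rfl
  have h1 : pev X F = cv r := by
    rw [hv, Finset.sum_eq_zero, sub_zero]
    intro i hi
    rw [hX i (Finset.mem_range.1 hi)]
    ring
  have h2 : pev (ext fun i : Fin n => X i) F = pev X F := by
    refine pev_congr n F hF _ _ fun i hi => ?_
    unfold ext
    rw [dif_pos hi]
  have h3 : IsOpen {x : Fin n → ℝ | cv r / 2 < pev (ext x) F} :=
    isOpen_lt continuous_const (cont_pev n F)
  refine (h3.measure_pos volume ⟨fun i : Fin n => X i, ?_⟩).ne'
  change cv r / 2 < pev (ext fun i : Fin n => X i) F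
  rw [h2, h1]
  linarith

theorem univ_ne (n : ℕ) : volume (Set.univ : Set (Fin n → ℝ)) ≠ 0 :=
  (isOpen_univ.measure_pos volume Set.univ_nonempty).ne'

/-- a lower bound of an integral -/
theorem int_top {n : ℕ} {G : Poly} {c : ℝ} {κ : ENNReal} {f : (Fin n → ℝ) → ENNReal}
    (hf : ∀ x, c < pev (ext x) G → κ ≤ f x)
    (h : κ * volume {x : Fin n → ℝ | c < pev (ext x) G} = ⊤) : ∫⁻ x, f x = ⊤ := by
  have hm : MeasurableSet {x : Fin n → ℝ | c < pev (ext x) G} :=
    (isOpen_lt continuous_const (cont_pev n G)).measurableSet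
  rw [eq_top_iff, ← h, ← lintegral_indicator_const hm]
  refine lintegral_mono fun x => ?_
  by_cases hx : x ∈ {x : Fin n → ℝ | c < pev (ext x) G}
  · rw [Set.indicator_of_mem hx]
    exact hf x hx
  · rw [Set.indicator_of_notMem hx]
    exact bot_le

theorem ent_lt {ds : List (Coef × Poly)} {p : Coef × Poly} {i : ℕ} (h : i < ds.length) :
    ent (ds ++ [p]) i = ent ds i := List.getD_append _ _ _ _ h

theorem ent_eq {ds : List (Coef × Poly)} {p : Coef × Poly} {i : ℕ} (h : ds.length = i) :
    ent (ds ++ [p]) i = p := by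
  unfold ent
  rw [List.getD_append_right _ _ _ _ h.le, h, Nat.sub_self]
  rfl

end TTri

/-- **Completing squares.** -/
theorem t_tri : S_tri := by
  intro n
  induction n with
  | zero =>
    intro F hP _
    obtain ⟨r, hr⟩ := TTri.const F hP
    by_cases h0 : 0 < cv r
    · refine Or.inl ⟨r, [], rfl, h0, fun i hi => absurd hi (Nat.not_lt_zero _),
        fun i hi => absurd hi (Nat.not_lt_zero _), fun X => ?_⟩
      rw [hr, Finset.sum_range_zero, sub_zero]
    · refine Or.inr (Or.inl ⟨r, [], not_lt.1 h0, fun _ h => absurd h List.not_mem_nil,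
        fun X => ?_⟩)
      rw [hr, List.map_nil, List.sum_nil, sub_zero]
  | succ n ih =>
    intro F hP hD
    obtain ⟨a, L, Q, hL, hL', hQ, hQ', h⟩ := TTri.decomp n F hP hD
    rcases lt_trichotomy (cv a) 0 with ha | ha | ha
    · -- completing the square
      obtain ⟨q, hq⟩ := TTri.cv_rat a
      obtain ⟨cd, hcd⟩ := TTri.exists_cv (-q)
      obtain ⟨c1, hc1⟩ := TTri.exists_cv (1 / (4 * -q))
      obtain ⟨c2, hc2⟩ := TTri.exists_cv (-(1 / (2 * -q)))
      obtain ⟨d, hd⟩ : ∃ d : ℝ, d = -cv a := ⟨_, rfl⟩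
      have hd0 : 0 < d := by
        rw [hd]
        linarith
      have hcd' : cv cd = d := by
        rw [hcd, hd, hq]
        push_cast
        rfl
      have hc1' : cv c1 = 1 / (4 * d) := by
        rw [hc1, hd, hq]
        push_cast
        rfl
      have hc2' : cv c2 = -(1 / (2 * d)) := by
        rw [hc2, hd, hq]
        push_cast
        rfl
      have ha' : cv a = -d := by
        rw [hd, neg_neg]
      have hF'1 : IsPoly n (Q ++ mulS [(c1, [])] (sqP L)) :=
        SChain.isPoly_append hQ (isPoly_mulS (SChain.isPoly_const n c1) (isPoly_sqP hL))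
      have hF'2 : Deg 2 (Q ++ mulS [(c1, [])] (sqP L)) :=
        SCode.deg_append hQ' (SCode.deg_mono (by norm_num)
          (SCode.deg_mulS (SCode.deg_coef 0 c1) (SCode.deg_sqP hL')))
      have hF'3 : ∀ X : ℕ → ℝ, pev X (Q ++ mulS [(c1, [])] (sqP L)) =
          pev X Q + pev X L ^ 2 / (4 * d) := by
        intro X
        rw [pev_append, pev_mulS, pev_sqP, SChain.pev_const, hc1']
        ring
      have hLn1 : IsPoly n (mulS [(c2, [])] L) := isPoly_mulS (SChain.isPoly_const n c2) hL
      have hLn2 : ∀ X : ℕ → ℝ, pev X (mulS [(c2, [])] L) = -(pev X L / (2 * d)) := by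
        intro X
        rw [pev_mulS, SChain.pev_const, hc2']
        ring
      rcases ih _ hF'1 hF'2 with ⟨r, ds, hlen, hr, hdp, hp, hv⟩ | ⟨e, ds, he, hds, hv⟩ | ⟨ε, hε, hv⟩
      · refine Or.inl ⟨r, ds ++ [(cd, mulS [(c2, [])] L)], ?_, hr, fun i hi => ?_, fun i hi => ?_,
          fun X => ?_⟩
        · rw [List.length_append, hlen, List.length_singleton]
        · rcases Nat.lt_succ_iff_lt_or_eq.1 hi with h1 | h1
          · rw [TTri.ent_lt (by omega)]
            exact hdp i h1
          · rw [TTri.ent_eq (by omega)]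
            change 0 < cv cd
            rw [hcd']
            exact hd0
        · rcases Nat.lt_succ_iff_lt_or_eq.1 hi with h1 | h1
          · rw [TTri.ent_lt (by omega)]
            exact hp i h1
          · rw [TTri.ent_eq (by omega)]
            rw [h1]
            exact hLn1
        · rw [Finset.sum_range_succ, TTri.ent_eq hlen]
          have h1 : ∑ i ∈ Finset.range n, cv (ent (ds ++ [(cd, mulS [(c2, [])] L)]) i).1 *
              (X i + pev X (ent (ds ++ [(cd, mulS [(c2, [])] L)]) i).2) ^ 2 =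
              ∑ i ∈ Finset.range n, cv (ent ds i).1 * (X i + pev X (ent ds i).2) ^ 2 := by
            refine Finset.sum_congr rfl fun i hi => ?_
            rw [TTri.ent_lt (by rw [hlen]; exact Finset.mem_range.1 hi)]
          have h2 := hv X
          rw [hF'3] at h2
          rw [h1, h]
          change cv a * X n ^ 2 + X n * pev X L + pev X Q = cv r -
            (∑ i ∈ Finset.range n, cv (ent ds i).1 * (X i + pev X (ent ds i).2) ^ 2 +
              cv cd * (X n + pev X (mulS [(c2, [])] L)) ^ 2)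
          rw [hLn2, hcd', ha']
          have h3 : d * (X n + -(pev X L / (2 * d))) ^ 2 =
              d * X n ^ 2 - X n * pev X L + pev X L ^ 2 / (4 * d) := by
            field_simp
            ring
          rw [h3]
          linarith
      · refine Or.inr (Or.inl ⟨e, ds ++ [(cd, varP n ++ mulS [(c2, [])] L)], he, fun p hp => ?_,
          fun X => ?_⟩)
        · rcases List.mem_append.1 hp with h1 | h1
          · exact ⟨(hds p h1).1, isPoly_mono (Nat.le_succ n) (hds p h1).2⟩
          · rw [List.mem_singleton] at h1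
            subst h1
            refine ⟨?_, SChain.isPoly_append (isPoly_varP (Nat.lt_succ_self n))
              (isPoly_mono (Nat.le_succ n) hLn1)⟩
            change 0 ≤ cv cd
            rw [hcd']
            exact hd0.le
        · have h2 := hv X
          rw [hF'3] at h2
          rw [List.map_append, List.sum_append, List.map_singleton, List.sum_singleton, h,
            pev_append, pev_varP, hLn2, hcd', ha']
          have h3 : d * (X n + -(pev X L / (2 * d))) ^ 2 =
              d * X n ^ 2 - X n * pev X L + pev X L ^ 2 / (4 * d) := by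
            field_simp
            ring
          rw [h3]
          linarith
      · refine Or.inr (Or.inr ⟨ε / 2, half_pos hε, ?_⟩)
        rw [TTri.vol_eq hL hQ h]
        obtain ⟨κ, hκ, hκ'⟩ := TTri.pos_quad hd0 hε
        refine TTri.int_top (G := Q ++ mulS [(c1, [])] (sqP L)) (c := ε) (κ := κ)
          (fun x hx => ?_) ?_
        · rw [hF'3] at hx
          rw [ha']
          exact hκ' _ _ hx
        · rw [hv, ENNReal.mul_top hκ]
    · by_cases hz : isZ n L = true
      · have hL0 := t_zero.1 n L hL hz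
        have hFQ : ∀ X : ℕ → ℝ, pev X F = pev X Q := by
          intro X
          rw [h, hL0, ha]
          ring
        have hcyl : ∀ c : ℝ, volume {x : Fin n → ℝ | c < pev (ext x) Q} ≠ 0 →
            volume {z : Fin (n + 1) → ℝ | c < pev (ext z) F} = ⊤ := by
          intro c hc
          rw [TTri.vol_eq hL hQ h]
          refine TTri.int_top (G := Q) (c := c) (κ := ⊤) (fun x hx => ?_) (ENNReal.top_mul hc)
          have h1 : {t : ℝ | c < cv a * t ^ 2 + t * pev (ext x) L + pev (ext x) Q} = Set.univ := by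
            refine Set.eq_univ_of_forall fun t => ?_
            change c < cv a * t ^ 2 + t * pev (ext x) L + pev (ext x) Q
            rw [hL0, ha]
            linarith
          rw [h1, Real.volume_univ]
        rcases ih Q hQ hQ' with ⟨r, ds, hpos⟩ | ⟨e, ds, he, hds, hv⟩ | ⟨ε, hε, hv⟩
        · exact Or.inr (Or.inr ⟨cv r / 2, half_pos hpos.2.1, hcyl _ (TTri.pos_vol hQ hpos)⟩)
        · exact Or.inr (Or.inl ⟨e, ds, he,
            fun p hp => ⟨(hds p hp).1, isPoly_mono (Nat.le_succ n) (hds p hp).2⟩,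
            fun X => by rw [hFQ, hv]⟩)
        · exact Or.inr (Or.inr ⟨ε, hε, hcyl _ (by rw [hv]; exact ENNReal.top_ne_zero)⟩)
      · have h0 := t_zero.2.1 n L hL (by simpa using hz)
        refine Or.inr (Or.inr ⟨1, one_pos, ?_⟩)
        rw [TTri.vol_eq hL hQ h]
        have h1 : (fun x : Fin n → ℝ =>
            volume {t : ℝ | 1 < cv a * t ^ 2 + t * pev (ext x) L + pev (ext x) Q}) =ᵐ[volume]
            fun _ => ⊤ := by
          have h2 := measure_eq_zero_iff_ae_notMem.1 h0
          filter_upwards [h2] with x hx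
          exact TTri.top_lin ha hx
        rw [lintegral_congr_ae h1, lintegral_const, ENNReal.top_mul (TTri.univ_ne n)]
    · refine Or.inr (Or.inr ⟨1, one_pos, ?_⟩)
      rw [TTri.vol_eq hL hQ h]
      simp only [TTri.top_sq ha]
      rw [lintegral_const, ENNReal.top_mul (TTri.univ_ne n)]

end Pool.Agent.H652.PV
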