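import Pool.Agent.H652.PV.Tdefs

/-!
# The volume of an ellipsoid region in triangular form
-/

set_option autoImplicit false
set_option synthInstance.maxSize 2000

namespace Pool.Agent.H652.PV

open Pool.Agent.TH960.PE MeasureTheory

namespace TVol

open Finset

theorem bal_ne_zero (n : ℕ) : bal n ≠ 0 := by
  unfold bal
  have hc : Continuous fun x : Fin n → ℝ => ∑ i, x i ^ 2 := by fun_prop
  refine (isOpen_lt hc continuous_const).measure_ne_zero volume ⟨0, ?_⟩
  show ∑ i : Fin n, (0 : Fin n → ℝ) i ^ 2 < 1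
  simp

theorem bal_ne_top (n : ℕ) : bal n ≠ ⊤ := by
  unfold bal
  refine ne_of_lt (lt_of_le_of_lt (measure_mono ?_) (measure_closedBall_lt_top (x := (0 : Fin n → ℝ))
    (r := 1)))
  intro x hx
  have hx' : ∑ i, x i ^ 2 < 1 := hx
  rw [mem_closedBall_zero_iff, pi_norm_le_iff_of_nonneg zero_le_one]
  intro i
  rw [Real.norm_eq_abs, ← sq_le_one_iff_abs_le_one]
  have h1 : x i ^ 2 ≤ ∑ i, x i ^ 2 :=
    single_le_sum (f := fun i => x i ^ 2) (fun j _ => sq_nonneg _) (mem_univ i)
  linarith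

/-- the inner integral -/
theorem inner (φ : ℝ → ENNReal) (hφ : Measurable φ) {d : ℝ} (hd : 0 < d) (s l : ℝ) :
    ∫⁻ y : Fin 1 → ℝ, φ (s + d * (y 0 + l) ^ 2) =
      ENNReal.ofReal (√d)⁻¹ * ∫⁻ y : Fin 1 → ℝ, φ (s + y 0 ^ 2) := by
  have hs : 0 < √d := Real.sqrt_pos.2 hd
  have hm : Measurable fun y : Fin 1 → ℝ => φ (s + d * (y 0 + l) ^ 2) :=
    hφ.comp (by fun_prop)
  rw [lint_diag (fun _ : Fin 1 => (√d)⁻¹) (fun _ => -l) (fun _ => inv_ne_zero hs.ne') _ hm]
  have e1 : |∏ _i : Fin 1, (√d)⁻¹| = (√d)⁻¹ := by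
    rw [prod_const, card_univ, Fintype.card_fin, pow_one, abs_of_pos (inv_pos.2 hs)]
  rw [e1]
  congr 1
  refine lintegral_congr fun y => ?_
  congr 2
  have h2 : √d * √d = d := Real.mul_self_sqrt hd.le
  have h3 : √d * (√d)⁻¹ = 1 := mul_inv_cancel₀ hs.ne'
  calc d * ((√d)⁻¹ * y 0 + -l + l) ^ 2 = (√d * √d) * ((√d)⁻¹ * y 0) ^ 2 := by rw [h2]; ring
    _ = (√d * (√d)⁻¹) ^ 2 * y 0 ^ 2 := by ring
    _ = y 0 ^ 2 := by rw [h3]; ring

theorem glue_last (n : ℕ) (X : ℕ → ℝ) (y : Fin 1 → ℝ) : glue n X (ext y) n = y 0 := by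
  simp [glue, Pool.Agent.TH960.PE.ext]

/-- the substitution in all variables -/
theorem subst (d : ℕ → ℝ) (l : ℕ → Poly) : ∀ (n : ℕ), (∀ i < n, 0 < d i) →
    (∀ i < n, IsPoly i (l i)) → ∀ φ : ℝ → ENNReal, Measurable φ →
    ∫⁻ x : Fin n → ℝ, φ (∑ i ∈ range n, d i * (ext x i + pev (ext x) (l i)) ^ 2) =
      ENNReal.ofReal (∏ i ∈ range n, (√(d i))⁻¹) *
        ∫⁻ x : Fin n → ℝ, φ (∑ i ∈ range n, ext x i ^ 2) := by
  intro n
  induction n with
  | zero =>
    intro _ _ φ _
    rw [range_zero, prod_empty, ENNReal.ofReal_one, one_mul]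
    rfl
  | succ n ih =>
    intro hd hl φ hφ
    obtain ⟨ψ, hψ⟩ : ∃ ψ : ℝ → ENNReal, ∀ s, ψ s = ∫⁻ y : Fin 1 → ℝ, φ (s + y 0 ^ 2) :=
      ⟨_, fun _ => rfl⟩
    have hψm : Measurable ψ := by
      have e : ψ = fun s => ∫⁻ y : Fin 1 → ℝ, φ (s + y 0 ^ 2) := funext hψ
      rw [e]
      have hm : Measurable fun p : ℝ × (Fin 1 → ℝ) => φ (p.1 + p.2 0 ^ 2) := hφ.comp (by fun_prop)
      exact hm.lintegral_prod_right'
    have hsm : ∀ f : ℕ → (ℕ → ℝ) → ℝ, (∀ i, Measurable (f i)) →
        Measurable fun X => φ (∑ i ∈ range (n + 1), f i X) := fun f hf =>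
      hφ.comp (Finset.measurable_sum _ fun i _ => hf i)
    have h1 : ∫⁻ x : Fin (n + 1) → ℝ,
        φ (∑ i ∈ range (n + 1), d i * (ext x i + pev (ext x) (l i)) ^ 2) =
        ∫⁻ x : Fin n → ℝ, ENNReal.ofReal (√(d n))⁻¹ *
          ψ (∑ i ∈ range n, d i * (ext x i + pev (ext x) (l i)) ^ 2) := by
      rw [lint_split n 1 (fun X => φ (∑ i ∈ range (n + 1), d i * (X i + pev X (l i)) ^ 2))
        (hsm (fun i X => d i * (X i + pev X (l i)) ^ 2) fun i =>
          ((((measurable_pi_apply i).add (measurable_pev (l i))).pow_const 2).const_mul (d i)))]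
      refine lintegral_congr fun x => ?_
      rw [hψ, ← inner φ hφ (hd n (by omega)) _ (pev (ext x) (l n))]
      refine lintegral_congr fun y => ?_
      rw [sum_range_succ, glue_last, (dep_pev (hl n (by omega))).glue]
      congr 2
      refine sum_congr rfl fun i hi => ?_
      have hi' := mem_range.1 hi
      rw [((dep_pev (hl i (by omega))).mono hi'.le).glue]
      have : glue n (ext x) (ext y) i = ext x i := if_pos hi'
      rw [this]
    have h2 : ∫⁻ x : Fin (n + 1) → ℝ, φ (∑ i ∈ range (n + 1), ext x i ^ 2) =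
        ∫⁻ x : Fin n → ℝ, ψ (∑ i ∈ range n, ext x i ^ 2) := by
      rw [lint_split n 1 (fun X => φ (∑ i ∈ range (n + 1), X i ^ 2))
        (hsm (fun i X => X i ^ 2) fun i => (measurable_pi_apply i).pow_const 2)]
      refine lintegral_congr fun x => ?_
      rw [hψ]
      refine lintegral_congr fun y => ?_
      rw [sum_range_succ, glue_last]
      congr 2
      refine sum_congr rfl fun i hi => ?_
      have : glue n (ext x) (ext y) i = ext x i := if_pos (mem_range.1 hi)
      rw [this]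
    have hm3 : Measurable fun x : Fin n → ℝ =>
        ψ (∑ i ∈ range n, d i * (ext x i + pev (ext x) (l i)) ^ 2) := by
      have : Measurable fun X : ℕ → ℝ => ψ (∑ i ∈ range n, d i * (X i + pev X (l i)) ^ 2) :=
        hψm.comp (Finset.measurable_sum _ fun i _ =>
          ((((measurable_pi_apply i).add (measurable_pev (l i))).pow_const 2).const_mul (d i)))
      exact this.comp (measurable_ext n)
    rw [h1, lintegral_const_mul _ hm3,
      ih (fun i hi => hd i (by omega)) (fun i hi => hl i (by omega)) ψ hψm, h2, ← mul_assoc,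
      ← ENNReal.ofReal_mul (by positivity), prod_range_succ, mul_comm (√(d n))⁻¹]

/-- balls of radius `√R` -/
theorem ball_scale (n : ℕ) {R : ℝ} (hR : 0 < R) :
    volume {x : Fin n → ℝ | ∑ i, x i ^ 2 < R} = ENNReal.ofReal (√R ^ n) * bal n := by
  classical
  have hs : 0 < √R := Real.sqrt_pos.2 hR
  have hc : Measurable fun x : Fin n → ℝ => ∑ i, x i ^ 2 := by fun_prop
  have hA : MeasurableSet {x : Fin n → ℝ | ∑ i, x i ^ 2 < R} := measurableSet_lt hc measurable_const
  have hB : MeasurableSet {x : Fin n → ℝ | ∑ i, x i ^ 2 < 1} := measurableSet_lt hc measurable_const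
  unfold bal
  rw [← lintegral_indicator_one hA, ← lintegral_indicator_one hB]
  rw [lint_diag (fun _ : Fin n => √R) (fun _ => 0) (fun _ => hs.ne') _
    (measurable_one.indicator hA)]
  have e1 : |∏ _i : Fin n, √R| = √R ^ n := by
    rw [prod_const, card_univ, Fintype.card_fin, abs_of_pos (by positivity)]
  rw [e1]
  congr 1
  refine lintegral_congr fun y => ?_
  simp only [Set.indicator_apply, Set.mem_ofPred_eq]
  have e2 : ∑ i, (√R * y i + 0) ^ 2 = R * ∑ i, y i ^ 2 := by
    rw [mul_sum]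
    refine sum_congr rfl fun i _ => ?_
    have : √R * √R = R := Real.mul_self_sqrt hR.le
    calc (√R * y i + 0) ^ 2 = (√R * √R) * y i ^ 2 := by ring
      _ = R * y i ^ 2 := by rw [this]
  have e3 : (∑ i, (√R * y i + 0) ^ 2 < R) = (∑ i, y i ^ 2 < 1) := by
    rw [e2]
    apply propext
    constructor
    · intro h
      by_contra hcon
      push Not at hcon
      have := mul_le_mul_of_nonneg_left hcon hR.le
      linarith
    · intro h
      have := mul_lt_mul_of_pos_left h hR
      linarith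
  simp only [e3, Pi.one_apply]

theorem ext_sum (n : ℕ) (x : Fin n → ℝ) : ∑ i ∈ range n, ext x i ^ 2 = ∑ i, x i ^ 2 := by
  rw [Finset.sum_range]
  refine sum_congr rfl fun i _ => ?_
  have : ext x (i : ℕ) = x i := dif_pos i.2
  rw [this]

end TVol

open TVol in
theorem t_vol : S_vol := by
  classical
  refine ⟨fun n => ⟨bal_ne_zero n, bal_ne_top n⟩, ?_, ?_⟩
  · rintro n F r ds ⟨-, hr, hd, hl, hF⟩
    obtain ⟨φ, hφ⟩ : ∃ φ : ℝ → ENNReal, φ = Set.indicator {s | s < cv r} 1 := ⟨_, rfl⟩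
    have hφm : Measurable φ := by
      rw [hφ]
      exact measurable_one.indicator (measurableSet_lt measurable_id measurable_const)
    have hA : MeasurableSet {x : Fin n → ℝ | 0 < pev (ext x) F} :=
      measurableSet_lt measurable_const ((measurable_pev F).comp (measurable_ext n))
    have hc : Measurable fun x : Fin n → ℝ => ∑ i, x i ^ 2 := by fun_prop
    have hB : MeasurableSet {x : Fin n → ℝ | ∑ i, x i ^ 2 < cv r} :=
      measurableSet_lt hc measurable_const
    have h1 : volume {x : Fin n → ℝ | 0 < pev (ext x) F} =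
        ∫⁻ x : Fin n → ℝ, φ (∑ i ∈ Finset.range n, cv (ent ds i).1 *
          (ext x i + pev (ext x) (ent ds i).2) ^ 2) := by
      rw [← lintegral_indicator_one hA]
      refine lintegral_congr fun x => ?_
      rw [hφ]
      simp only [Set.indicator_apply, Set.mem_ofPred_eq, hF, sub_pos, Pi.one_apply]
    have h2 : ∫⁻ x : Fin n → ℝ, φ (∑ i ∈ Finset.range n, ext x i ^ 2) =
        ENNReal.ofReal (√(cv r) ^ n) * bal n := by
      rw [← ball_scale n hr, ← lintegral_indicator_one hB]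
      refine lintegral_congr fun x => ?_
      rw [hφ, ext_sum]
      simp only [Set.indicator_apply, Set.mem_ofPred_eq, Pi.one_apply]
    rw [h1, subst (fun i => cv (ent ds i).1) (fun i => (ent ds i).2) n hd hl φ hφm, h2, ← mul_assoc,
      ← ENNReal.ofReal_mul (Finset.prod_nonneg fun i _ => by positivity)]
    congr 2
    have e : cv r ^ n / ∏ i ∈ Finset.range n, cv (ent ds i).1 =
        ((∏ i ∈ Finset.range n, (√(cv (ent ds i).1))⁻¹) * √(cv r) ^ n) ^ 2 := by
      rw [mul_pow, ← Finset.prod_pow, ← pow_mul, mul_comm n 2, pow_mul, Real.sq_sqrt hr.le]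
      have e2 : ∏ i ∈ Finset.range n, (√(cv (ent ds i).1))⁻¹ ^ 2 =
          (∏ i ∈ Finset.range n, cv (ent ds i).1)⁻¹ := by
        rw [← Finset.prod_inv_distrib]
        refine Finset.prod_congr rfl fun i hi => ?_
        rw [inv_pow, Real.sq_sqrt (hd i (Finset.mem_range.1 hi)).le]
      rw [e2]
      ring
    rw [e, Real.sqrt_sq (mul_nonneg (Finset.prod_nonneg fun i _ => by positivity) (by positivity))]
  · rintro n F e ds ⟨he, hd, hF⟩
    have h : {x : Fin n → ℝ | 0 < pev (ext x) F} = ∅ := by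
      apply Set.eq_empty_of_forall_notMem
      intro x hx
      have hx' : 0 < pev (ext x) F := hx
      rw [hF] at hx'
      have h2 : 0 ≤ (ds.map fun p => cv p.1 * pev (ext x) p.2 ^ 2).sum := by
        apply List.sum_nonneg
        intro a ha
        obtain ⟨p, hp, rfl⟩ := List.mem_map.1 ha
        exact mul_nonneg (hd p hp).1 (sq_nonneg _)
      linarith
    rw [h, measure_empty]

end Pool.Agent.H652.PV
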