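import Pool.Agent.H652.PV.Cub
import Pool.Agent.H652.PV.TTri
import Pool.Agent.H652.PV.TCub
import Pool.Agent.H652.PV.TVol
import Pool.Agent.H652.PV.TChk
import Pool.Agent.H652.PV.TCmp

/-!
# Cubics: conclusion
-/

set_option autoImplicit false
set_option synthInstance.maxSize 2000

namespace Pool.Agent.H652.PV

/-- **Equality of volumes is decidable in degree at most three.** -/
theorem equalVolumes3 : EqualVolumes3 := volumes3 t_tri t_cub t_vol t_chk t_cmp

end Pool.Agent.H652.PV
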