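import Pool.Agent.H652.PV.Qdefs

/-!
# Q6: homogeneous coordinates (helper30)
-/

set_option autoImplicit false
set_option synthInstance.maxSize 2000

namespace Pool.Agent.H652.PV

open Pool.Agent.TH960.PE MeasureTheory

namespace QBase

/-- sum of squares of the first `k` coordinates -/
noncomputable def sqs (k : ℕ) (X : ℕ → ℝ) : ℝ := ∑ j ∈ Finset.range k, X j ^ 2

lemma measurable_sqs (k : ℕ) : Measurable (sqs k) := by
  unfold sqs
  exact Finset.measurable_sum _ fun j _ => (measurable_pi_apply j).pow_const 2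

lemma sqs_nonneg (k : ℕ) (X : ℕ → ℝ) : 0 ≤ sqs k X := Finset.sum_nonneg fun _ _ => sq_nonneg _

lemma cast_int {a b : ℕ} (h : a = b) (f : (ℕ → ℝ) → ENNReal) :
    ∫⁻ x : Fin a → ℝ, f (ext x) = ∫⁻ x : Fin b → ℝ, f (ext x) := by
  subst h
  rfl

lemma ext_mul {k : ℕ} (c : ℝ) (y : Fin k → ℝ) :
    ext (fun i => c * y i + 0) = fun i => c * ext y i := by
  funext i
  unfold ext
  by_cases h : i < k
  · simp [h]
  · simp [h]

lemma mext (k i : ℕ) : Measurable fun x : Fin k → ℝ => ext x i :=
  measurable_pi_iff.mp (measurable_ext k) i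

/-- scaling -/
lemma scale (k : ℕ) (c : ℝ) (hc : c ≠ 0) (f : (ℕ → ℝ) → ENNReal) (hf : Measurable f) :
    ∫⁻ y : Fin k → ℝ, f (ext y) =
      ENNReal.ofReal (|c| ^ k) * ∫⁻ y : Fin k → ℝ, f (fun i => c * ext y i) := by
  have h := lint_diag (fun _ : Fin k => c) (fun _ => 0) (fun _ => hc)
    (fun y : Fin k → ℝ => f (ext y)) (hf.comp (measurable_ext k))
  rw [h]
  simp only [ext_mul, Finset.prod_const, Finset.card_univ, Fintype.card_fin, abs_pow]

/-- the inner integral -/
noncomputable def V1 (n : ℕ) (W : ℝ → ℝ → ENNReal) (a : ℝ) : ENNReal :=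
  ∫⁻ q : Fin (n + 1) → ℝ, W a (sqs (n + 1) (ext q))

lemma measurable_V1 (n : ℕ) {W : ℝ → ℝ → ENNReal} (hW : Measurable (Function.uncurry W)) :
    Measurable (V1 n W) := by
  unfold V1
  have h : Measurable fun p : ℝ × (Fin (n + 1) → ℝ) => W p.1 (sqs (n + 1) (ext p.2)) :=
    hW.comp (measurable_fst.prodMk
      ((measurable_sqs (n + 1)).comp ((measurable_ext (n + 1)).comp measurable_snd)))
  exact h.lintegral_prod_right'

lemma sqs_mul (k : ℕ) (c : ℝ) (X : ℕ → ℝ) : sqs k (fun i => c * X i) = c ^ 2 * sqs k X := by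
  unfold sqs
  rw [Finset.mul_sum]
  exact Finset.sum_congr rfl fun j _ => by ring

lemma meas_W (n : ℕ) {W : ℝ → ℝ → ENNReal} (hW : Measurable (Function.uncurry W)) (a b : ℝ) :
    Measurable fun X : ℕ → ℝ => W a (b * sqs (n + 1) X) :=
  hW.comp (measurable_const.prodMk ((measurable_sqs (n + 1)).const_mul b))

lemma inner (n : ℕ) {W : ℝ → ℝ → ENNReal} (hW : Measurable (Function.uncurry W)) (a c : ℝ)
    (hc : c ≠ 0) : ∫⁻ p : Fin (n + 1) → ℝ, W a (c ^ 2 * sqs (n + 1) (ext p)) =
      ENNReal.ofReal ((|c| ^ (n + 1))⁻¹) * V1 n W a := by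
  have h := scale (n + 1) c⁻¹ (inv_ne_zero hc) (fun X => W a (c ^ 2 * sqs (n + 1) X))
    (meas_W n hW a (c ^ 2))
  have e : ∀ t : ℝ, c ^ 2 * (c⁻¹ ^ 2 * t) = t := by
    intro t
    field_simp
  simp only [sqs_mul, e] at h
  rw [h, abs_inv, inv_pow]
  rfl

/-- integral over the homogenizing coordinate -/
lemma outer (n : ℕ) {W : ℝ → ℝ → ENNReal} (hW : Measurable (Function.uncurry W)) (S : ℝ)
    (hS : 0 ≤ S) : ∫⁻ c : Fin 1 → ℝ, ENNReal.ofReal (1 / |ext c 0|) *
      V1 n W (ext c 0 ^ 2 * (1 + S)) =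
      ∫⁻ c : Fin 1 → ℝ, ENNReal.ofReal (1 / |ext c 0|) * V1 n W (ext c 0 ^ 2) := by
  obtain ⟨l, hl⟩ : ∃ l, l = √(1 + S) := ⟨_, rfl⟩
  have hl0 : 0 < l := by rw [hl]; exact Real.sqrt_pos.mpr (by linarith)
  have hl2 : l ^ 2 = 1 + S := by rw [hl]; exact Real.sq_sqrt (by linarith)
  have hm : Measurable fun X : ℕ → ℝ => ENNReal.ofReal (1 / |X 0|) * V1 n W (X 0 ^ 2 * (1 + S)) := by
    refine Measurable.mul ?_ ((measurable_V1 n hW).comp
      (((measurable_pi_apply 0).pow_const 2).mul_const _))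
    exact ENNReal.measurable_ofReal.comp
      ((measurable_const).div (continuous_abs.measurable.comp (measurable_pi_apply 0)))
  have h := scale 1 l⁻¹ (inv_ne_zero hl0.ne')
    (fun X => ENNReal.ofReal (1 / |X 0|) * V1 n W (X 0 ^ 2 * (1 + S))) hm
  rw [h, ← lintegral_const_mul]
  · refine lintegral_congr fun c => ?_
    rw [← mul_assoc, ← ENNReal.ofReal_mul (by positivity)]
    congr 2
    · rw [abs_mul, abs_inv, abs_of_pos hl0, pow_one]
      rw [one_div, mul_inv, inv_inv, ← mul_assoc, inv_mul_cancel₀ hl0.ne', one_mul, one_div]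
    · rw [mul_pow, inv_pow, hl2]
      field_simp
  · exact (hm.comp (measurable_pi_lambda _ fun i => (measurable_pi_apply i).const_mul l⁻¹)).comp
      (measurable_ext 1)

end QBase

open QBase in
/-- Q6: homogeneous coordinates -/
theorem t_base : S_base := by
  intro n h W hh hD hW
  -- the right-hand side
  have hR : ∫⁻ y : Fin (n + 2) → ℝ, ENNReal.ofReal (1 / |y 0|) *
        W (y 0 ^ 2) (∑ j ∈ Finset.range (n + 1), ext y (1 + j) ^ 2) =
      ∫⁻ c : Fin 1 → ℝ, ENNReal.ofReal (1 / |ext c 0|) * V1 n W (ext c 0 ^ 2) := by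
    have e0 : ∀ y : Fin (n + 2) → ℝ, y 0 = ext y 0 := fun y => by
      unfold ext
      rw [dif_pos (by omega)]
      rfl
    simp only [e0]
    have hm0 : Measurable fun X : ℕ → ℝ => ENNReal.ofReal (1 / |X 0|) :=
      ENNReal.measurable_ofReal.comp
        ((measurable_const).div (continuous_abs.measurable.comp (measurable_pi_apply 0)))
    have hm1 : Measurable fun X : ℕ → ℝ => ∑ j ∈ Finset.range (n + 1), X (1 + j) ^ 2 :=
      Finset.measurable_sum _ fun j _ => (measurable_pi_apply (1 + j)).pow_const 2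
    have hm : Measurable fun X : ℕ → ℝ => ENNReal.ofReal (1 / |X 0|) *
        W (X 0 ^ 2) (∑ j ∈ Finset.range (n + 1), X (1 + j) ^ 2) :=
      hm0.mul (hW.comp (((measurable_pi_apply 0).pow_const 2).prodMk hm1))
    rw [cast_int (show n + 2 = 1 + (n + 1) by omega) (fun X => ENNReal.ofReal (1 / |X 0|) *
        W (X 0 ^ 2) (∑ j ∈ Finset.range (n + 1), X (1 + j) ^ 2)), lint_split _ _ _ hm]
    refine lintegral_congr fun c => ?_
    have e1 : ∀ q : Fin (n + 1) → ℝ, ENNReal.ofReal (1 / |glue 1 (ext c) (ext q) 0|) *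
        W (glue 1 (ext c) (ext q) 0 ^ 2)
          (∑ j ∈ Finset.range (n + 1), glue 1 (ext c) (ext q) (1 + j) ^ 2) =
        ENNReal.ofReal (1 / |ext c 0|) * W (ext c 0 ^ 2) (sqs (n + 1) (ext q)) := by
      intro q
      have g0 : glue 1 (ext c) (ext q) 0 = ext c 0 := by simp [glue]
      have g1 : ∀ j, glue 1 (ext c) (ext q) (1 + j) = ext q j := fun j => by simp [glue]
      simp only [g0, g1]
      rfl
    simp only [e1]
    rw [lintegral_const_mul]
    · rfl
    · have := meas_W n hW (ext c 0 ^ 2) 1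
      simp only [one_mul] at this
      exact this.comp (measurable_ext (n + 1))
  rw [hR]
  -- the left-hand side
  have hmD : Measurable fun p : (ℕ → ℝ) × ℝ => h (fun i => p.1 i / p.2) :=
    hh.comp (measurable_pi_lambda _ fun i =>
      ((measurable_pi_apply i).comp measurable_fst).div measurable_snd)
  have hmF : Measurable fun X : ℕ → ℝ => h (fun i => X i / X n) *
        W (∑ j ∈ Finset.range (n + 1), X j ^ 2)
          (∑ j ∈ Finset.range (n + 1), (X n * X (n + 1 + j)) ^ 2) := by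
    have hA : Measurable fun X : ℕ → ℝ => ∑ j ∈ Finset.range (n + 1), X j ^ 2 :=
      Finset.measurable_sum _ fun j _ => (measurable_pi_apply j).pow_const 2
    have hB : Measurable fun X : ℕ → ℝ =>
        ∑ j ∈ Finset.range (n + 1), (X n * X (n + 1 + j)) ^ 2 := by
      refine Finset.measurable_sum _ fun j _ => ?_
      have a1 : Measurable fun X : ℕ → ℝ => X n := measurable_pi_apply n
      have a2 : Measurable fun X : ℕ → ℝ => X (n + 1 + j) := measurable_pi_apply (n + 1 + j)
      exact (a1.mul a2).pow_const 2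
    have a3 : Measurable fun X : ℕ → ℝ => X n := measurable_pi_apply n
    exact (hmD.comp (measurable_id.prodMk a3)).mul (hW.comp (hA.prodMk hB))
  rw [cast_int (show 2 * n + 2 = n + (1 + (n + 1)) by omega)
    (fun X => h (fun i => X i / X n) *
        W (∑ j ∈ Finset.range (n + 1), X j ^ 2)
          (∑ j ∈ Finset.range (n + 1), (X n * X (n + 1 + j)) ^ 2)), lint_split _ _ _ hmF]
  -- the two inner integrals
  have hin : ∀ s : Fin n → ℝ, ∫⁻ y : Fin (1 + (n + 1)) → ℝ,
      h (fun i => glue n (ext s) (ext y) i / glue n (ext s) (ext y) n) *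
        W (∑ j ∈ Finset.range (n + 1), glue n (ext s) (ext y) j ^ 2)
          (∑ j ∈ Finset.range (n + 1),
            (glue n (ext s) (ext y) n * glue n (ext s) (ext y) (n + 1 + j)) ^ 2) =
      ∫⁻ c : Fin 1 → ℝ, ENNReal.ofReal ((|ext c 0| ^ (n + 1))⁻¹) *
        (h (fun i => ext s i / ext c 0) * V1 n W (sqs n (ext s) + ext c 0 ^ 2)) := by
    intro s
    have hmg : Measurable fun Y : ℕ → ℝ => glue n (ext s) Y :=
      (measurable_glue n).comp (measurable_const.prodMk measurable_id)
    rw [lint_split 1 (n + 1) (fun Y => h (fun i => glue n (ext s) Y i / glue n (ext s) Y n) *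
        W (∑ j ∈ Finset.range (n + 1), glue n (ext s) Y j ^ 2)
          (∑ j ∈ Finset.range (n + 1),
            (glue n (ext s) Y n * glue n (ext s) Y (n + 1 + j)) ^ 2)) (hmF.comp hmg)]
    refine lintegral_congr_ae ?_
    filter_upwards [SChain.ae_ne (n := 1) 0 one_pos] with c hc
    have g1 : ∀ q : Fin (n + 1) → ℝ, glue n (ext s) (glue 1 (ext c) (ext q)) n = ext c 0 := by
      intro q
      simp [glue]
    have g2 : ∀ (q : Fin (n + 1) → ℝ) (j : ℕ),
        glue n (ext s) (glue 1 (ext c) (ext q)) (n + 1 + j) = ext q j := by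
      intro q j
      have h1 : ¬ (n + 1 + j < n) := by omega
      have h2 : n + 1 + j - n = 1 + j := by omega
      simp [glue, h1, h2]
    have g3 : ∀ q : Fin (n + 1) → ℝ,
        ∑ j ∈ Finset.range (n + 1), glue n (ext s) (glue 1 (ext c) (ext q)) j ^ 2 =
          sqs n (ext s) + ext c 0 ^ 2 := by
      intro q
      rw [Finset.sum_range_succ, g1]
      refine congrArg (· + _) ?_
      unfold sqs
      refine Finset.sum_congr rfl fun j hj => ?_
      rw [Finset.mem_range] at hj
      simp [glue, hj]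
    have g4 : ∀ q : Fin (n + 1) → ℝ,
        h (fun i => glue n (ext s) (glue 1 (ext c) (ext q)) i / ext c 0) =
          h (fun i => ext s i / ext c 0) := by
      intro q
      refine hD _ _ fun i hi => ?_
      simp [glue, hi]
    have g5 : ∀ q : Fin (n + 1) → ℝ,
        ∑ j ∈ Finset.range (n + 1), (ext c 0 * ext q j) ^ 2 =
          ext c 0 ^ 2 * sqs (n + 1) (ext q) := by
      intro q
      unfold sqs
      rw [Finset.mul_sum]
      exact Finset.sum_congr rfl fun j _ => by ring
    simp only [g1, g2, g3, g4, g5]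
    have hq : Measurable fun q : Fin (n + 1) → ℝ =>
        W (sqs n (ext s) + ext c 0 ^ 2) (ext c 0 ^ 2 * sqs (n + 1) (ext q)) :=
      (meas_W n hW _ _).comp (measurable_ext (n + 1))
    rw [lintegral_const_mul _ hq, inner n hW _ _ hc]
    ring
  simp only [hin]
  -- interchange
  have hm2 : Measurable fun p : (Fin n → ℝ) × (Fin 1 → ℝ) =>
      ENNReal.ofReal ((|ext p.2 0| ^ (n + 1))⁻¹) *
        (h (fun i => ext p.1 i / ext p.2 0) * V1 n W (sqs n (ext p.1) + ext p.2 0 ^ 2)) := by
    have c0 : Measurable fun p : (Fin n → ℝ) × (Fin 1 → ℝ) => ext p.2 0 :=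
      (mext 1 0).comp measurable_snd
    refine Measurable.mul ?_ (Measurable.mul ?_ ?_)
    · exact ENNReal.measurable_ofReal.comp
        ((continuous_abs.measurable.comp c0).pow_const (n + 1)).inv
    · exact hmD.comp (((measurable_ext n).comp measurable_fst).prodMk c0)
    · exact (measurable_V1 n hW).comp
        (((measurable_sqs n).comp ((measurable_ext n).comp measurable_fst)).add (c0.pow_const 2))
  rw [lintegral_lintegral_swap hm2.aemeasurable]
  -- scaling of the first coordinates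
  have hsc : ∀ c : Fin 1 → ℝ, ext c 0 ≠ 0 → ∫⁻ s : Fin n → ℝ,
      ENNReal.ofReal ((|ext c 0| ^ (n + 1))⁻¹) *
        (h (fun i => ext s i / ext c 0) * V1 n W (sqs n (ext s) + ext c 0 ^ 2)) =
      ∫⁻ x : Fin n → ℝ, h (ext x) * (ENNReal.ofReal (1 / |ext c 0|) *
        V1 n W (ext c 0 ^ 2 * (1 + sqs n (ext x)))) := by
    intro c hc
    have hm3 : Measurable fun X : ℕ → ℝ => ENNReal.ofReal ((|ext c 0| ^ (n + 1))⁻¹) *
        (h (fun i => X i / ext c 0) * V1 n W (sqs n X + ext c 0 ^ 2)) :=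
      ((hmD.comp (measurable_id.prodMk measurable_const)).mul
        ((measurable_V1 n hW).comp ((measurable_sqs n).add_const _))).const_mul _
    rw [scale n (ext c 0) hc (fun X => ENNReal.ofReal ((|ext c 0| ^ (n + 1))⁻¹) *
        (h (fun i => X i / ext c 0) * V1 n W (sqs n X + ext c 0 ^ 2))) hm3,
      ← lintegral_const_mul]
    · refine lintegral_congr fun x => ?_
      have e1 : (fun i => ext c 0 * ext x i / ext c 0) = ext x := by
        funext i
        exact mul_div_cancel_left₀ _ hc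
      have e2 : ext c 0 ^ 2 * sqs n (ext x) + ext c 0 ^ 2 =
          ext c 0 ^ 2 * (1 + sqs n (ext x)) := by ring
      have e3 : ENNReal.ofReal (|ext c 0| ^ n) * ENNReal.ofReal ((|ext c 0| ^ (n + 1))⁻¹) =
          ENNReal.ofReal (1 / |ext c 0|) := by
        rw [← ENNReal.ofReal_mul (by positivity)]
        congr 1
        have hc' : |ext c 0| ≠ 0 := abs_ne_zero.mpr hc
        rw [pow_succ]
        field_simp
      rw [e1, sqs_mul, e2, ← mul_assoc, e3]
      ring
    · exact (hm3.comp (measurable_pi_lambda _ fun i =>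
        (measurable_pi_apply i).const_mul (ext c 0))).comp (measurable_ext n)
  have hstep : ∫⁻ c : Fin 1 → ℝ, ∫⁻ s : Fin n → ℝ,
      ENNReal.ofReal ((|ext c 0| ^ (n + 1))⁻¹) *
        (h (fun i => ext s i / ext c 0) * V1 n W (sqs n (ext s) + ext c 0 ^ 2)) =
      ∫⁻ c : Fin 1 → ℝ, ∫⁻ x : Fin n → ℝ, h (ext x) * (ENNReal.ofReal (1 / |ext c 0|) *
        V1 n W (ext c 0 ^ 2 * (1 + sqs n (ext x)))) := by
    refine lintegral_congr_ae ?_
    filter_upwards [SChain.ae_ne (n := 1) 0 one_pos] with c hc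
    exact hsc c hc
  rw [hstep]
  have hm4 : Measurable fun p : (Fin 1 → ℝ) × (Fin n → ℝ) =>
      h (ext p.2) * (ENNReal.ofReal (1 / |ext p.1 0|) *
        V1 n W (ext p.1 0 ^ 2 * (1 + sqs n (ext p.2)))) := by
    have c0 : Measurable fun p : (Fin 1 → ℝ) × (Fin n → ℝ) => ext p.1 0 :=
      (mext 1 0).comp measurable_fst
    refine Measurable.mul (hh.comp ((measurable_ext n).comp measurable_snd)) (Measurable.mul ?_ ?_)
    · exact ENNReal.measurable_ofReal.comp
        (measurable_const.div (continuous_abs.measurable.comp c0))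
    · exact (measurable_V1 n hW).comp ((c0.pow_const 2).mul
        (measurable_const.add ((measurable_sqs n).comp ((measurable_ext n).comp measurable_snd))))
  rw [lintegral_lintegral_swap hm4.aemeasurable]
  have hlast : ∀ x : Fin n → ℝ, ∫⁻ c : Fin 1 → ℝ, h (ext x) * (ENNReal.ofReal (1 / |ext c 0|) *
        V1 n W (ext c 0 ^ 2 * (1 + sqs n (ext x)))) =
      h (ext x) * ∫⁻ c : Fin 1 → ℝ, ENNReal.ofReal (1 / |ext c 0|) * V1 n W (ext c 0 ^ 2) := by
    intro x
    rw [lintegral_const_mul, outer n hW _ (sqs_nonneg n _)]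
    have c0 : Measurable fun c : Fin 1 → ℝ => ext c 0 := mext 1 0
    refine Measurable.mul ?_ ?_
    · exact ENNReal.measurable_ofReal.comp
        (measurable_const.div (continuous_abs.measurable.comp c0))
    · exact (measurable_V1 n hW).comp ((c0.pow_const 2).mul_const _)
  simp only [hlast]
  have hhe : Measurable fun x : Fin n → ℝ => h (ext x) := hh.comp (measurable_ext n)
  rw [lintegral_mul_const _ hhe]

end Pool.Agent.H652.PV
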