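import Pool.Agent.H652.PV.Sdefs

/-!
# The support of the kernels; the constant is positive and finite
-/

set_option autoImplicit false
set_option synthInstance.maxSize 2000

namespace Pool.Agent.H652.PV

open Pool.Agent.TH960.PE MeasureTheory

namespace SBnd

/-! ### Elementary facts -/

theorem f0_ne {t : ℝ} (h : f0 t ≠ 0) : t < 1 / 4 := by
  by_contra hc
  exact h (by unfold f0; rw [if_neg hc])

theorem f0_pos {t : ℝ} (h : t < 1 / 4) : f0 t ≠ 0 := by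
  unfold f0
  rw [if_pos h]
  exact one_ne_zero

theorem f0_le (t : ℝ) : f0 t ≤ 1 := by
  unfold f0
  split_ifs
  · exact le_rfl
  · exact zero_le

theorem f0_meas : Measurable f0 := by
  unfold f0
  exact Measurable.ite measurableSet_Iio measurable_const measurable_const

theorem lint_ne {n : ℕ} {g : (Fin n → ℝ) → ENNReal} (h : ∫⁻ y, g y ≠ 0) : ∃ y, g y ≠ 0 := by
  by_contra hc
  push Not at hc
  apply h
  rw [lintegral_congr hc]
  exact lintegral_zero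

/-- an integral of a bounded function supported in a box -/
theorem lint_box {n : ℕ} (R : ℝ) (C : ENNReal) {g : (Fin n → ℝ) → ENNReal} (h1 : ∀ y, g y ≤ C)
    (h2 : ∀ y, g y ≠ 0 → ∀ i, |y i| ≤ R) :
    ∫⁻ y, g y ≤ C * volume (Set.Icc (fun _ : Fin n => -R) (fun _ => R)) := by
  calc ∫⁻ y, g y
      ≤ ∫⁻ y, (Set.Icc (fun _ : Fin n => -R) (fun _ => R)).indicator (fun _ => C) y := by
        apply lintegral_mono
        intro y
        by_cases hy : g y = 0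
        · rw [hy]
          exact zero_le
        · have hm : y ∈ Set.Icc (fun _ : Fin n => -R) (fun _ => R) :=
            ⟨fun i => (abs_le.mp (h2 y hy i)).1, fun i => (abs_le.mp (h2 y hy i)).2⟩
          rw [Set.indicator_of_mem hm]
          exact h1 y
    _ = C * volume (Set.Icc (fun _ : Fin n => -R) (fun _ => R)) :=
        lintegral_indicator_const measurableSet_Icc C

theorem box_fin {n : ℕ} (R : ℝ) : volume (Set.Icc (fun _ : Fin n => -R) (fun _ => R)) ≠ ⊤ :=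
  isCompact_Icc.measure_lt_top.ne

/-- the integral of a function which is nonzero on a nonempty open set -/
theorem lint_pos {n : ℕ} {g : (Fin n → ℝ) → ENNReal} (hg : Measurable g)
    (φ : (Fin n → ℝ) → ℝ) (hφ : Continuous φ) (h : ∀ y, φ y < 1 / 4 → g y ≠ 0)
    (y0 : Fin n → ℝ) (h0 : φ y0 < 1 / 4) : ∫⁻ y, g y ≠ 0 := by
  intro hz
  have h3 := (lintegral_eq_zero_iff hg).mp hz
  have hU : IsOpen {y | φ y < 1 / 4} := isOpen_lt hφ continuous_const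
  have h4 := hU.measure_pos volume ⟨y0, h0⟩
  have h5 : volume {y | φ y < 1 / 4} = 0 := by
    have h6 : volume {y | ¬ g y = (0 : (Fin n → ℝ) → ENNReal) y} = 0 := ae_iff.mp h3
    exact measure_mono_null (fun y hy => h y hy) h6
  exact h4.ne' h5

theorem abs_w {K : ℕ} {w x : ℝ} (hw : 0 < w) (hK : (K : ℝ) * w ^ 2 = 1 / 4)
    (h : (K : ℝ) * x ^ 2 < 1 / 4) : |x| ≤ w := by
  by_contra hc
  push Not at hc
  have h1 : w ^ 2 ≤ x ^ 2 := by
    rw [← sq_abs x]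
    exact pow_le_pow_left₀ hw.le hc.le 2
  have h2 : (K : ℝ) * w ^ 2 ≤ K * x ^ 2 := mul_le_mul_of_nonneg_left h1 (Nat.cast_nonneg K)
  linarith

theorem abs_half {x : ℝ} (h : x ^ 2 < 1 / 4) : |x| ≤ 1 / 2 := by
  by_contra hc
  push Not at hc
  have h1 : (1 / 2 : ℝ) ^ 2 ≤ x ^ 2 := by
    rw [← sq_abs x]
    exact pow_le_pow_left₀ (by norm_num) hc.le 2
  norm_num at h1
  linarith

/-- `|x y| ≤ a`, `b ≤ |x|`: a bound for `|y|`. -/
theorem abs_div {x y a b c : ℝ} (hb : 0 < b) (hx : b ≤ |x|) (h : |x * y| ≤ a) (hc : a ≤ b * c) :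
    |y| ≤ c := by
  rw [abs_mul] at h
  have h1 : b * |y| ≤ |x| * |y| := mul_le_mul_of_nonneg_right hx (abs_nonneg y)
  have h2 : b * |y| ≤ b * c := by linarith
  exact le_of_mul_le_mul_left h2 hb

theorem bnd_pos (Ls : List ℕ) : 1 ≤ bnd Ls := by
  induction Ls with
  | nil => exact le_rfl
  | cons L Ls ih =>
    show 1 ≤ 4 ^ (L + 1) + bnd Ls
    exact le_trans ih (Nat.le_add_left _ _)

theorem bnd_cons (L : ℕ) (Ls : List ℕ) : bnd (L :: Ls) = 4 ^ (L + 1) + bnd Ls := rfl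

/-! ### The support -/

/-- the bounds for the variables of one multiplication -/
theorem step_bnd {K : ℕ} {w : ℝ} (hw : 0 < w) (hK : (K : ℝ) * w ^ 2 = 1 / 4) (L : ℕ) {t δ : ℝ}
    (ht : 0 ≤ t) (y : Fin 4 → ℝ)
    (h1 : t + (K * (δ - y 0) ^ 2 + ((1 - y 2 * y 1) ^ 2 + ((1 - y 2) ^ 2 + (y 3 * y 2) ^ 2))) <
      1 / 4)
    (h2 : |y 1 * y 0| ≤ 4 ^ L * w) :
    t < 1 / 4 ∧ |δ| ≤ 4 ^ (L + 1) * w ∧ ∀ i, |y i| ≤ 3 + 3 * (4 ^ L * w) := by
  have hKn : (0 : ℝ) ≤ K := Nat.cast_nonneg K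
  have e1 : 0 ≤ (K : ℝ) * (δ - y 0) ^ 2 := mul_nonneg hKn (sq_nonneg _)
  have e2 : 0 ≤ (1 - y 2 * y 1) ^ 2 := sq_nonneg _
  have e3 : 0 ≤ (1 - y 2) ^ 2 := sq_nonneg _
  have e4 : 0 ≤ (y 3 * y 2) ^ 2 := sq_nonneg _
  have a1 : |δ - y 0| ≤ w := abs_w hw hK (by linarith)
  have a2 : |1 - y 2 * y 1| ≤ 1 / 2 := abs_half (by linarith)
  have a3 : |1 - y 2| ≤ 1 / 2 := abs_half (by linarith)
  have a4 : |y 3 * y 2| ≤ 1 / 2 := abs_half (by linarith)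
  have p4 : (1 : ℝ) ≤ 4 ^ L := one_le_pow₀ (by norm_num)
  have p5 : w ≤ 4 ^ L * w := by nlinarith
  rw [abs_le] at a2 a3
  have b2 : 1 / 2 ≤ y 2 := by linarith
  have b3 : y 2 ≤ 3 / 2 := by linarith
  have b2' : |y 2| = y 2 := abs_of_nonneg (by linarith)
  have c1 : 1 / 2 ≤ y 2 * y 1 := by linarith
  have c2 : y 2 * y 1 ≤ 3 / 2 := by linarith
  have c3 : 0 < y 1 := by
    by_contra hc
    push Not at hc
    have : y 2 * y 1 ≤ 0 := mul_nonpos_of_nonneg_of_nonpos (by linarith) hc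
    linarith
  have c4 : 1 / 3 ≤ y 1 := by
    have : y 2 * y 1 ≤ 3 / 2 * y 1 := mul_le_mul_of_nonneg_right b3 c3.le
    linarith
  have c5 : y 1 ≤ 3 := by
    have : 1 / 2 * y 1 ≤ y 2 * y 1 := mul_le_mul_of_nonneg_right b2 c3.le
    linarith
  have d0 : |y 0| ≤ 3 * (4 ^ L * w) :=
    abs_div (by norm_num : (0 : ℝ) < 1 / 3) (by rw [abs_of_pos c3]; exact c4) h2 (by linarith)
  have d3 : |y 3| ≤ 1 := by
    rw [mul_comm] at a4
    exact abs_div (by norm_num : (0 : ℝ) < 1 / 2) (by rw [b2']; exact b2) a4 (by norm_num)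
  refine ⟨by linarith, ?_, ?_⟩
  · have : |δ| ≤ |δ - y 0| + |y 0| := by
      have := abs_add_le (δ - y 0) (y 0)
      rwa [sub_add_cancel] at this
    calc |δ| ≤ |δ - y 0| + |y 0| := this
      _ ≤ w + 3 * (4 ^ L * w) := add_le_add a1 d0
      _ ≤ 4 ^ L * w + 3 * (4 ^ L * w) := by linarith
      _ = 4 ^ (L + 1) * w := by ring
  · have hp : 0 ≤ 3 * (4 ^ L * w) := by positivity
    intro i
    fin_cases i
    · show |y 0| ≤ _
      linarith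
    · show |y 1| ≤ _
      rw [abs_of_pos c3]
      linarith
    · show |y 2| ≤ _
      rw [b2']
      linarith
    · show |y 3| ≤ _
      linarith

theorem t1_nonneg {K : ℕ} {t δ : ℝ} (ht : 0 ≤ t) (y : Fin 4 → ℝ) :
    0 ≤ t + (K * (δ - y 0) ^ 2 + ((1 - y 2 * y 1) ^ 2 + ((1 - y 2) ^ 2 + (y 3 * y 2) ^ 2))) := by
  have hKn : (0 : ℝ) ≤ K := Nat.cast_nonneg K
  have e1 : 0 ≤ (K : ℝ) * (δ - y 0) ^ 2 := mul_nonneg hKn (sq_nonneg _)
  have e2 : 0 ≤ (1 - y 2 * y 1) ^ 2 := sq_nonneg _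
  have e3 : 0 ≤ (1 - y 2) ^ 2 := sq_nonneg _
  have e4 : 0 ≤ (y 3 * y 2) ^ 2 := sq_nonneg _
  linarith

/-- Claim 1 -/
theorem kc_supp {K : ℕ} {w : ℝ} (hw : 0 < w) (hK : (K : ℝ) * w ^ 2 = 1 / 4) :
    ∀ (L : ℕ) (f : ℝ → ENNReal), (∀ t, 1 / 4 ≤ t → f t = 0) → ∀ t δ : ℝ, 0 ≤ t →
      kc K L f t δ ≠ 0 → t < 1 / 4 ∧ |δ| ≤ 4 ^ L * w ∧ ∃ t', 0 ≤ t' ∧ f t' ≠ 0 := by
  intro L
  induction L with
  | zero =>
    intro f hf t δ ht h
    have h1 : f (t + K * δ ^ 2) ≠ 0 := h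
    have hKn : (0 : ℝ) ≤ K * δ ^ 2 := mul_nonneg (Nat.cast_nonneg K) (sq_nonneg _)
    have h2 : t + K * δ ^ 2 < 1 / 4 := by
      by_contra hc
      push Not at hc
      exact h1 (hf _ hc)
    refine ⟨by linarith, ?_, t + K * δ ^ 2, by linarith, h1⟩
    rw [pow_zero, one_mul]
    exact abs_w hw hK (by linarith)
  | succ L ih =>
    intro f hf t δ ht h
    obtain ⟨y, hy⟩ := lint_ne h
    obtain ⟨h1, h2, h3⟩ := ih f hf _ _ (t1_nonneg ht y) hy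
    obtain ⟨h4, h5, _⟩ := step_bnd hw hK L ht y h1 h2
    exact ⟨h4, h5, h3⟩

/-- the bounds for the variables of one summand -/
theorem sstep_bnd {t : ℝ} (ht : 0 ≤ t) (y : Fin 4 → ℝ) (R : ℝ) (hR : 0 ≤ R)
    (h1 : t + ((1 - y 1) ^ 2 + ((y 2 * y 1) ^ 2 + (y 3 * y 1) ^ 2)) < 1 / 4)
    (h2 : |y 0| ≤ R) :
    t < 1 / 4 ∧ ∀ i, |y i| ≤ 3 + R := by
  have e2 : 0 ≤ (1 - y 1) ^ 2 := sq_nonneg _
  have e3 : 0 ≤ (y 2 * y 1) ^ 2 := sq_nonneg _
  have e4 : 0 ≤ (y 3 * y 1) ^ 2 := sq_nonneg _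
  have a2 : |1 - y 1| ≤ 1 / 2 := abs_half (by linarith)
  have a3 : |y 2 * y 1| ≤ 1 / 2 := abs_half (by linarith)
  have a4 : |y 3 * y 1| ≤ 1 / 2 := abs_half (by linarith)
  rw [abs_le] at a2
  have b2 : 1 / 2 ≤ y 1 := by linarith
  have b3 : y 1 ≤ 3 / 2 := by linarith
  have b2' : |y 1| = y 1 := abs_of_nonneg (by linarith)
  have d2 : |y 2| ≤ 1 := by
    rw [mul_comm] at a3
    exact abs_div (by norm_num : (0 : ℝ) < 1 / 2) (by rw [b2']; exact b2) a3 (by norm_num)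
  have d3 : |y 3| ≤ 1 := by
    rw [mul_comm] at a4
    exact abs_div (by norm_num : (0 : ℝ) < 1 / 2) (by rw [b2']; exact b2) a4 (by norm_num)
  refine ⟨by linarith, ?_⟩
  intro i
  fin_cases i
  · show |y 0| ≤ _
    linarith
  · show |y 1| ≤ _
    rw [b2']
    linarith
  · show |y 2| ≤ _
    linarith
  · show |y 3| ≤ _
    linarith

theorem t2_nonneg {t : ℝ} (ht : 0 ≤ t) (y : Fin 4 → ℝ) :
    0 ≤ t + ((1 - y 1) ^ 2 + ((y 2 * y 1) ^ 2 + (y 3 * y 1) ^ 2)) := by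
  have e2 : 0 ≤ (1 - y 1) ^ 2 := sq_nonneg _
  have e3 : 0 ≤ (y 2 * y 1) ^ 2 := sq_nonneg _
  have e4 : 0 ≤ (y 3 * y 1) ^ 2 := sq_nonneg _
  linarith

/-- Claim 2 -/
theorem ks_supp {K : ℕ} {w : ℝ} (hw : 0 < w) (hK : (K : ℝ) * w ^ 2 = 1 / 4) :
    ∀ (Ls : List ℕ) (t δ : ℝ), 0 ≤ t → ks K Ls f0 t δ ≠ 0 →
      t < 1 / 4 ∧ |δ| ≤ bnd Ls * w := by
  intro Ls
  induction Ls with
  | nil =>
    intro t δ ht h
    have h1 : t + K * δ ^ 2 < 1 / 4 := f0_ne h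
    have hKn : (0 : ℝ) ≤ K * δ ^ 2 := mul_nonneg (Nat.cast_nonneg K) (sq_nonneg _)
    refine ⟨by linarith, ?_⟩
    have h2 : |δ| ≤ w := abs_w hw hK (by linarith)
    have h3 : ((bnd [] : ℕ) : ℝ) = 1 := by
      show ((1 : ℕ) : ℝ) = 1
      exact Nat.cast_one
    rw [h3, one_mul]
    exact h2
  | cons L Ls ih =>
    intro t δ ht h
    obtain ⟨y, hy⟩ := lint_ne h
    have hf : ∀ t', 1 / 4 ≤ t' → ks K Ls f0 t' (δ - y 0) = 0 := by
      intro t' ht'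
      by_contra hc
      have := (ih t' (δ - y 0) (by linarith) hc).1
      linarith
    obtain ⟨h1, h2, t', ht', h3⟩ := kc_supp hw hK L _ hf _ _ (t2_nonneg ht y) hy
    have h4 := (ih t' (δ - y 0) ht' h3).2
    have h5 := (sstep_bnd ht y _ (by positivity) h1 h2).1
    refine ⟨h5, ?_⟩
    have h6 : |δ| ≤ |δ - y 0| + |y 0| := by
      have := abs_add_le (δ - y 0) (y 0)
      rwa [sub_add_cancel] at this
    have h7 : (4 : ℝ) ^ L * w ≤ 4 ^ (L + 1) * w := by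
      have : (0 : ℝ) ≤ 4 ^ L * w := by positivity
      rw [pow_succ]
      linarith
    rw [bnd_cons]
    push_cast
    rw [add_mul]
    linarith

/-! ### Finiteness -/

/-- Claim 3 -/
theorem kc_fin {K : ℕ} {w : ℝ} (hw : 0 < w) (hK : (K : ℝ) * w ^ 2 = 1 / 4) :
    ∀ L : ℕ, ∃ C : ENNReal, C ≠ ⊤ ∧ ∀ (f : ℝ → ENNReal) (M : ENNReal), (∀ t, 0 ≤ t → f t ≤ M) →
      (∀ t, 1 / 4 ≤ t → f t = 0) → ∀ t δ : ℝ, 0 ≤ t → kc K L f t δ ≤ M * C := by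
  intro L
  induction L with
  | zero =>
    refine ⟨1, ENNReal.one_ne_top, ?_⟩
    intro f M h1 _ t δ ht
    rw [mul_one]
    have hKn : (0 : ℝ) ≤ K * δ ^ 2 := mul_nonneg (Nat.cast_nonneg K) (sq_nonneg _)
    exact h1 _ (by linarith)
  | succ L ih =>
    obtain ⟨C, hC, ih⟩ := ih
    refine ⟨C * volume (Set.Icc (fun _ : Fin 4 => -(3 + 3 * (4 ^ L * w)))
      (fun _ => 3 + 3 * (4 ^ L * w))), ENNReal.mul_ne_top hC (box_fin _), ?_⟩
    intro f M h1 h2 t δ ht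
    rw [← mul_assoc]
    show (∫⁻ y : Fin 4 → ℝ, kc K L f (t + (K * (δ - y 0) ^ 2 + ((1 - y 2 * y 1) ^ 2 +
      ((1 - y 2) ^ 2 + (y 3 * y 2) ^ 2)))) (y 1 * y 0)) ≤ _
    apply lint_box
    · intro y
      exact ih f M h1 h2 _ _ (t1_nonneg ht y)
    · intro y hy
      obtain ⟨h3, h4, _⟩ := kc_supp hw hK L f h2 _ _ (t1_nonneg ht y) hy
      exact (step_bnd hw hK L ht y h3 h4).2.2

/-- Claim 4 -/
theorem ks_fin {K : ℕ} {w : ℝ} (hw : 0 < w) (hK : (K : ℝ) * w ^ 2 = 1 / 4) :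
    ∀ Ls : List ℕ, ∃ C : ENNReal, C ≠ ⊤ ∧ ∀ t δ : ℝ, 0 ≤ t → ks K Ls f0 t δ ≤ C := by
  intro Ls
  induction Ls with
  | nil =>
    exact ⟨1, ENNReal.one_ne_top, fun t δ _ => f0_le _⟩
  | cons L Ls ih =>
    obtain ⟨M, hM, ih⟩ := ih
    obtain ⟨C, hC, hkc⟩ := kc_fin hw hK L
    refine ⟨M * C * volume (Set.Icc (fun _ : Fin 4 => -(3 + 4 ^ L * w))
      (fun _ => 3 + 4 ^ L * w)), ENNReal.mul_ne_top (ENNReal.mul_ne_top hM hC) (box_fin _), ?_⟩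
    intro t δ ht
    have hf : ∀ (y : Fin 4 → ℝ) (t' : ℝ), 1 / 4 ≤ t' → ks K Ls f0 t' (δ - y 0) = 0 := by
      intro y t' ht'
      by_contra hc
      have := (ks_supp hw hK Ls t' (δ - y 0) (by linarith) hc).1
      linarith
    show (∫⁻ y : Fin 4 → ℝ, kc K L (fun t' => ks K Ls f0 t' (δ - y 0))
        (t + ((1 - y 1) ^ 2 + ((y 2 * y 1) ^ 2 + (y 3 * y 1) ^ 2))) (y 0)) ≤ _
    apply lint_box
    · intro y
      exact hkc _ M (fun t' ht' => ih t' _ ht') (hf y) _ _ (t2_nonneg ht y)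
    · intro y hy
      obtain ⟨h3, h4, _⟩ := kc_supp hw hK L _ (hf y) _ _ (t2_nonneg ht y) hy
      exact (sstep_bnd ht y _ (by positivity) h3 h4).2

/-! ### Positivity -/

/-- Claim 5 -/
theorem kc_pos (hM : S_meas) (K : ℕ) : ∀ (L : ℕ) (f : ℝ → ENNReal), Measurable f → ∀ c : ℝ,
    (∀ t', t' + c < 1 / 4 → f t' ≠ 0) → ∀ t δ : ℝ, t + c + K * δ ^ 2 < 1 / 4 →
      kc K L f t δ ≠ 0 := by
  intro L
  induction L with
  | zero =>
    intro f _ c h t δ ht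
    exact h (t + K * δ ^ 2) (by linarith)
  | succ L ih =>
    intro f hf c h t δ ht
    have hm : Measurable fun y : Fin 4 → ℝ => kc K L f (t + (K * (δ - y 0) ^ 2 +
        ((1 - y 2 * y 1) ^ 2 + ((1 - y 2) ^ 2 + (y 3 * y 2) ^ 2)))) (y 1 * y 0) := by
      have h1 : Measurable (Function.uncurry fun (_ : Unit) => f) := hf.comp measurable_snd
      have h2 := hM.1 K L Unit (fun _ => f) h1
      have h3 : Measurable fun y : Fin 4 → ℝ => (((), (t + (K * (δ - y 0) ^ 2 +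
          ((1 - y 2 * y 1) ^ 2 + ((1 - y 2) ^ 2 + (y 3 * y 2) ^ 2))), y 1 * y 0)) :
            Unit × ℝ × ℝ) := by
        refine Measurable.prodMk measurable_const (Measurable.prodMk ?_ ?_)
        · fun_prop
        · fun_prop
      exact h2.comp h3
    refine lint_pos hm (fun y => t + (K * (δ - y 0) ^ 2 +
        ((1 - y 2 * y 1) ^ 2 + ((1 - y 2) ^ 2 + (y 3 * y 2) ^ 2))) + c + K * (y 1 * y 0) ^ 2)
      (by fun_prop) ?_ ![0, 1, 1, 0] ?_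
    · intro y hy
      exact ih f hf c h _ _ hy
    · show t + (K * (δ - 0) ^ 2 + ((1 - (1 : ℝ) * 1) ^ 2 + ((1 - (1 : ℝ)) ^ 2 + ((0 : ℝ) * 1) ^ 2)))
        + c + K * ((1 : ℝ) * 0) ^ 2 < 1 / 4
      have : t + (K * (δ - 0) ^ 2 + ((1 - (1 : ℝ) * 1) ^ 2 + ((1 - (1 : ℝ)) ^ 2 +
        ((0 : ℝ) * 1) ^ 2))) + c + K * ((1 : ℝ) * 0) ^ 2 = t + c + K * δ ^ 2 := by ring
      rw [this]
      exact ht

/-- Claim 6 -/
theorem ks_pos (hM : S_meas) (K : ℕ) : ∀ (Ls : List ℕ) (t δ : ℝ), t + K * δ ^ 2 < 1 / 4 →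
    ks K Ls f0 t δ ≠ 0 := by
  have hks : ∀ Ls : List ℕ, Measurable fun p : Unit × ℝ × ℝ => ks K Ls f0 p.2.1 p.2.2 := by
    intro Ls
    have h1 : Measurable (Function.uncurry fun (_ : Unit) => f0) := f0_meas.comp measurable_snd
    exact hM.2 K Ls Unit (fun _ => f0) h1
  intro Ls
  induction Ls with
  | nil =>
    intro t δ ht
    exact f0_pos ht
  | cons L Ls ih =>
    intro t δ ht
    have hm : Measurable fun y : Fin 4 → ℝ => kc K L (fun t' => ks K Ls f0 t' (δ - y 0))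
        (t + ((1 - y 1) ^ 2 + ((y 2 * y 1) ^ 2 + (y 3 * y 1) ^ 2))) (y 0) := by
      have h1 : Measurable (Function.uncurry fun (y : Fin 4 → ℝ) (t' : ℝ) =>
          ks K Ls f0 t' (δ - y 0)) := by
        have h2 : Measurable fun q : (Fin 4 → ℝ) × ℝ => (((), (q.2, δ - q.1 0)) :
            Unit × ℝ × ℝ) := by
          refine Measurable.prodMk measurable_const (Measurable.prodMk measurable_snd ?_)
          fun_prop
        exact (hks Ls).comp h2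
      have h3 := hM.1 K L (Fin 4 → ℝ) (fun y t' => ks K Ls f0 t' (δ - y 0)) h1
      have h4 : Measurable fun y : Fin 4 → ℝ =>
          ((y, (t + ((1 - y 1) ^ 2 + ((y 2 * y 1) ^ 2 + (y 3 * y 1) ^ 2)), y 0)) :
            (Fin 4 → ℝ) × ℝ × ℝ) := by
        refine Measurable.prodMk measurable_id (Measurable.prodMk ?_ ?_)
        · fun_prop
        · fun_prop
      exact h3.comp h4
    refine lint_pos hm (fun y => t + ((1 - y 1) ^ 2 + ((y 2 * y 1) ^ 2 + (y 3 * y 1) ^ 2)) +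
        K * (δ - y 0) ^ 2 + K * (y 0) ^ 2)
      (by fun_prop) ?_ ![0, 1, 0, 0] ?_
    · intro y hy
      refine kc_pos hM K L _ ?_ (K * (δ - y 0) ^ 2) ?_ _ _ hy
      · have h2 : Measurable fun t' : ℝ => (((), (t', δ - y 0)) : Unit × ℝ × ℝ) := by
          exact Measurable.prodMk measurable_const
            (Measurable.prodMk measurable_id measurable_const)
        exact (hks Ls).comp h2
      · intro t' ht'
        exact ih t' (δ - y 0) ht'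
    · show t + ((1 - (1 : ℝ)) ^ 2 + (((0 : ℝ) * 1) ^ 2 + ((0 : ℝ) * 1) ^ 2)) +
        K * (δ - 0) ^ 2 + K * (0 : ℝ) ^ 2 < 1 / 4
      have : t + ((1 - (1 : ℝ)) ^ 2 + (((0 : ℝ) * 1) ^ 2 + ((0 : ℝ) * 1) ^ 2)) +
        K * (δ - 0) ^ 2 + K * (0 : ℝ) ^ 2 = t + K * δ ^ 2 := by ring
      rw [this]
      exact ht

/-! ### The constant -/

theorem t3_nonneg (y : Fin 5 → ℝ) :
    0 ≤ (1 - y 0 * y 1 ^ 2) ^ 2 + ((y 2 * (y 0 * y 1)) ^ 2 + ((1 - y 0 * y 3) ^ 2 +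
      (y 4 * y 3) ^ 2)) := by
  have e1 : 0 ≤ (1 - y 0 * y 1 ^ 2) ^ 2 := sq_nonneg _
  have e2 : 0 ≤ (y 2 * (y 0 * y 1)) ^ 2 := sq_nonneg _
  have e3 : 0 ≤ (1 - y 0 * y 3) ^ 2 := sq_nonneg _
  have e4 : 0 ≤ (y 4 * y 3) ^ 2 := sq_nonneg _
  linarith

theorem kst_bnd (y : Fin 5 → ℝ)
    (h1 : (1 - y 0 * y 1 ^ 2) ^ 2 + ((y 2 * (y 0 * y 1)) ^ 2 + ((1 - y 0 * y 3) ^ 2 +
      (y 4 * y 3) ^ 2)) < 1 / 4)
    (h2 : |y 0 * (1 - y 3)| ≤ 1 / 8) : ∀ i, |y i| ≤ 4 := by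
  have e1 : 0 ≤ (1 - y 0 * y 1 ^ 2) ^ 2 := sq_nonneg _
  have e2 : 0 ≤ (y 2 * (y 0 * y 1)) ^ 2 := sq_nonneg _
  have e3 : 0 ≤ (1 - y 0 * y 3) ^ 2 := sq_nonneg _
  have e4 : 0 ≤ (y 4 * y 3) ^ 2 := sq_nonneg _
  have a1 : |1 - y 0 * y 1 ^ 2| ≤ 1 / 2 := abs_half (by linarith)
  have a2 : |y 2 * (y 0 * y 1)| ≤ 1 / 2 := abs_half (by linarith)
  have a3 : |1 - y 0 * y 3| ≤ 1 / 2 := abs_half (by linarith)
  have a4 : |y 4 * y 3| ≤ 1 / 2 := abs_half (by linarith)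
  rw [abs_le] at a1 a3 h2
  have b0 : 3 / 8 ≤ y 0 := by
    have : y 0 = y 0 * (1 - y 3) + y 0 * y 3 := by ring
    linarith [h2.1, h2.2, a3.1, a3.2]
  have b0' : y 0 ≤ 13 / 8 := by
    have : y 0 = y 0 * (1 - y 3) + y 0 * y 3 := by ring
    linarith [h2.1, h2.2, a3.1, a3.2]
  have c3 : 0 < y 3 := by
    by_contra hc
    push Not at hc
    have : y 0 * y 3 ≤ 0 := mul_nonpos_of_nonneg_of_nonpos (by linarith) hc
    linarith
  have c3' : 4 / 13 ≤ y 3 := by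
    have : y 0 * y 3 ≤ 13 / 8 * y 3 := mul_le_mul_of_nonneg_right b0' c3.le
    linarith
  have c3'' : y 3 ≤ 4 := by
    have : 3 / 8 * y 3 ≤ y 0 * y 3 := mul_le_mul_of_nonneg_right b0 c3.le
    linarith
  have d1 : 4 / 13 ≤ y 1 ^ 2 := by
    have : y 0 * y 1 ^ 2 ≤ 13 / 8 * y 1 ^ 2 := mul_le_mul_of_nonneg_right b0' (sq_nonneg _)
    linarith
  have d1' : y 1 ^ 2 ≤ 4 := by
    have : 3 / 8 * y 1 ^ 2 ≤ y 0 * y 1 ^ 2 := mul_le_mul_of_nonneg_right b0 (sq_nonneg _)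
    linarith
  have f1 : 1 / 2 ≤ |y 1| := by
    by_contra hc
    push Not at hc
    have h3 : |y 1| ^ 2 ≤ (1 / 2) ^ 2 := pow_le_pow_left₀ (abs_nonneg _) hc.le 2
    rw [sq_abs] at h3
    norm_num at h3
    linarith
  have f1' : |y 1| ≤ 2 := by
    by_contra hc
    push Not at hc
    have h3 : (2 : ℝ) ^ 2 < |y 1| ^ 2 := pow_lt_pow_left₀ hc (by norm_num) (by norm_num)
    rw [sq_abs] at h3
    norm_num at h3
    linarith
  have g4 : |y 4| ≤ 2 := by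
    rw [mul_comm] at a4
    exact abs_div (by norm_num : (0 : ℝ) < 4 / 13) (by rw [abs_of_pos c3]; exact c3') a4
      (by norm_num)
  have g2 : |y 2| ≤ 8 / 3 := by
    rw [mul_comm] at a2
    refine abs_div (by norm_num : (0 : ℝ) < 3 / 16) ?_ a2 (by norm_num)
    rw [abs_mul, abs_of_nonneg (by linarith : (0 : ℝ) ≤ y 0)]
    calc (3 / 16 : ℝ) = 3 / 8 * (1 / 2) := by norm_num
      _ ≤ y 0 * |y 1| := mul_le_mul b0 f1 (by norm_num) (by linarith)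
  intro i
  fin_cases i
  · show |y 0| ≤ 4
    rw [abs_of_nonneg (by linarith : (0 : ℝ) ≤ y 0)]
    linarith
  · show |y 1| ≤ 4
    linarith
  · show |y 2| ≤ 4
    linarith
  · show |y 3| ≤ 4
    rw [abs_of_pos c3]
    exact c3''
  · show |y 4| ≤ 4
    linarith

end SBnd

open SBnd in
theorem t_bnd (hM : S_meas) : S_bnd := by
  intro Ls K hKdef
  have hb : (0 : ℝ) < bnd Ls := by
    have := bnd_pos Ls
    exact_mod_cast this
  have hw : (0 : ℝ) < 1 / (8 * bnd Ls) := by positivity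
  have hK : (K : ℝ) * (1 / (8 * bnd Ls)) ^ 2 = 1 / 4 := by
    rw [hKdef]
    push_cast
    field_simp
    norm_num
  have hS : ∀ t δ : ℝ, 0 ≤ t → ks K Ls f0 t δ ≠ 0 → t < 1 / 4 ∧ |δ| ≤ 1 / 8 := by
    intro t δ ht h
    obtain ⟨h1, h2⟩ := ks_supp hw hK Ls t δ ht h
    refine ⟨h1, h2.trans (le_of_eq ?_)⟩
    field_simp
  refine ⟨hS, ?_, ?_⟩
  · have hm : Measurable fun y : Fin 5 → ℝ => ks K Ls f0 ((1 - y 0 * y 1 ^ 2) ^ 2 +
        ((y 2 * (y 0 * y 1)) ^ 2 + ((1 - y 0 * y 3) ^ 2 + (y 4 * y 3) ^ 2)))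
          (y 0 * (1 - y 3)) := by
      have h1 : Measurable (Function.uncurry fun (_ : Unit) => f0) := f0_meas.comp measurable_snd
      have h2 := hM.2 K Ls Unit (fun _ => f0) h1
      have h3 : Measurable fun y : Fin 5 → ℝ => (((), ((1 - y 0 * y 1 ^ 2) ^ 2 +
        ((y 2 * (y 0 * y 1)) ^ 2 + ((1 - y 0 * y 3) ^ 2 + (y 4 * y 3) ^ 2)),
          y 0 * (1 - y 3))) : Unit × ℝ × ℝ) := by
        refine Measurable.prodMk measurable_const (Measurable.prodMk ?_ ?_)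
        · fun_prop
        · fun_prop
      exact h2.comp h3
    refine lint_pos hm (fun y => (1 - y 0 * y 1 ^ 2) ^ 2 +
        ((y 2 * (y 0 * y 1)) ^ 2 + ((1 - y 0 * y 3) ^ 2 + (y 4 * y 3) ^ 2)) +
          K * (y 0 * (1 - y 3)) ^ 2) (by fun_prop) ?_ ![1, 1, 0, 1, 0] ?_
    · intro y hy
      exact ks_pos hM K Ls _ _ hy
    · show (1 - (1 : ℝ) * 1 ^ 2) ^ 2 + (((0 : ℝ) * (1 * 1)) ^ 2 + ((1 - (1 : ℝ) * 1) ^ 2 +
        ((0 : ℝ) * 1) ^ 2)) + K * ((1 : ℝ) * (1 - 1)) ^ 2 < 1 / 4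
      norm_num
  · obtain ⟨C, hC, hks⟩ := ks_fin hw hK Ls
    have h1 : kst K Ls ≤ C * volume (Set.Icc (fun _ : Fin 5 => -(4 : ℝ)) (fun _ => (4 : ℝ))) := by
      unfold kst
      apply lint_box
      · intro y
        exact hks _ _ (t3_nonneg y)
      · intro y hy
        obtain ⟨h3, h4⟩ := hS _ _ (t3_nonneg y) hy
        exact kst_bnd y h3 h4
    exact (lt_of_le_of_lt h1 (ENNReal.mul_lt_top hC.lt_top (box_fin _).lt_top)).ne

end Pool.Agent.H652.PV
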