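import Pool.Agent.H652.PV.Qdefs
import Pool.Agent.H652.PV.SBnd

/-!
# Q5: the constant is positive and finite (helper725)
-/

set_option autoImplicit false
set_option synthInstance.maxSize 2000

namespace Pool.Agent.H652.PV

open Pool.Agent.TH960.PE MeasureTheory

namespace QCst

open SBnd

theorem f1_ne {t v : ℝ} (h : f1 t v ≠ 0) : t + (1 - v) ^ 2 < 1 / 4 := by
  by_contra hc
  exact h (by unfold f1; rw [if_neg hc])

theorem f1_pos {t v : ℝ} (h : t + (1 - v) ^ 2 < 1 / 4) : f1 t v ≠ 0 := by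
  unfold f1
  rw [if_pos h]
  exact one_ne_zero

theorem f1_le (t v : ℝ) : f1 t v ≤ 1 := by
  unfold f1
  split_ifs
  · exact le_rfl
  · exact zero_le

theorem f1_meas : Measurable fun p : ℝ × ℝ => f1 p.1 p.2 := by
  unfold f1
  have h : MeasurableSet {p : ℝ × ℝ | p.1 + (1 - p.2) ^ 2 < 1 / 4} :=
    measurableSet_lt (by fun_prop) measurable_const
  exact Measurable.ite h measurable_const measurable_const

theorem lint_ne1 {g : ℝ → ENNReal} (h : ∫⁻ y, g y ≠ 0) : ∃ y, g y ≠ 0 := by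
  by_contra hc
  push Not at hc
  apply h
  rw [lintegral_congr hc]
  exact lintegral_zero

theorem lint_box1 (R : ℝ) (C : ENNReal) {g : ℝ → ENNReal} (h1 : ∀ y, g y ≤ C)
    (h2 : ∀ y, g y ≠ 0 → |y| ≤ R) : ∫⁻ y, g y ≤ C * volume (Set.Icc (-R) R) := by
  calc ∫⁻ y, g y ≤ ∫⁻ y, (Set.Icc (-R) R).indicator (fun _ => C) y := by
        apply lintegral_mono
        intro y
        by_cases hy : g y = 0
        · rw [hy]
          exact zero_le
        · have hm : y ∈ Set.Icc (-R) R := abs_le.mp (h2 y hy)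
          rw [Set.indicator_of_mem hm]
          exact h1 y
    _ = C * volume (Set.Icc (-R) R) := lintegral_indicator_const measurableSet_Icc C

theorem lint_pos1 {g : ℝ → ENNReal} (hg : Measurable g) (φ : ℝ → ℝ) (hφ : Continuous φ)
    (h : ∀ y, φ y < 1 / 4 → g y ≠ 0) (y0 : ℝ) (h0 : φ y0 < 1 / 4) : ∫⁻ y, g y ≠ 0 := by
  intro hz
  have h3 := (lintegral_eq_zero_iff hg).mp hz
  have hU : IsOpen {y | φ y < 1 / 4} := isOpen_lt hφ continuous_const
  have h4 := hU.measure_pos volume ⟨y0, h0⟩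
  have h5 : volume {y | φ y < 1 / 4} = 0 := by
    have h6 : volume {y | ¬ g y = (0 : ℝ → ENNReal) y} = 0 := ae_iff.mp h3
    exact measure_mono_null (fun y hy => h y hy) h6
  exact h4.ne' h5

/-! ### The kernel -/

theorem JL_supp {K : ℕ} {w : ℝ} (hw : 0 < w) (hK : (K : ℝ) * w ^ 2 = 1 / 4) (l : List ℝ) :
    ∀ t v : ℝ, 0 ≤ t → JL K l f1 t v ≠ 0 →
      t < 1 / 4 ∧ |1 - v| ≤ 1 / 2 + (l.map fun a => |a|).sum * w := by
  induction l with
  | nil =>
    intro t v ht h
    have h1 := f1_ne (h : f1 t v ≠ 0)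
    refine ⟨by have := sq_nonneg (1 - v); linarith, ?_⟩
    have h2 := abs_half (x := 1 - v) (by linarith)
    simpa using h2
  | cons a l ih =>
    intro t v ht h
    obtain ⟨z, hz⟩ := lint_ne1 (h : ∫⁻ z : ℝ, JL K l f1 (t + K * z ^ 2) (v + a * z) ≠ 0)
    have hz0 : 0 ≤ (K : ℝ) * z ^ 2 := by positivity
    obtain ⟨h1, h2⟩ := ih _ _ (by linarith) hz
    have h3 : |z| ≤ w := abs_w hw hK (by linarith)
    refine ⟨by linarith, ?_⟩
    have h4 : |1 - v| ≤ |1 - (v + a * z)| + |a| * |z| := by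
      have h5 : 1 - v = (1 - (v + a * z)) + a * z := by ring
      calc |1 - v| = |(1 - (v + a * z)) + a * z| := by rw [← h5]
        _ ≤ |1 - (v + a * z)| + |a * z| := abs_add_le _ _
        _ = _ := by rw [abs_mul]
    have h6 : |a| * |z| ≤ |a| * w := mul_le_mul_of_nonneg_left h3 (abs_nonneg a)
    rw [List.map_cons, List.sum_cons, add_mul]
    linarith

theorem JL_le {K : ℕ} {w : ℝ} (hw : 0 < w) (hK : (K : ℝ) * w ^ 2 = 1 / 4) (l : List ℝ) :
    ∀ t v : ℝ, 0 ≤ t → JL K l f1 t v ≤ (volume (Set.Icc (-w) w)) ^ l.length := by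
  induction l with
  | nil =>
    intro t v _
    exact (f1_le t v).trans (by simp)
  | cons a l ih =>
    intro t v ht
    have h1 := lint_box1 (g := fun z : ℝ => JL K l f1 (t + K * z ^ 2) (v + a * z)) w
      ((volume (Set.Icc (-w) w)) ^ l.length)
      (fun z => ih _ _ (by positivity)) (fun z hz => by
        have hz0 : 0 ≤ (K : ℝ) * z ^ 2 := by positivity
        have h2 := (JL_supp hw hK l _ _ (by linarith) hz).1
        exact abs_w hw hK (by linarith))
    rw [List.length_cons, pow_succ]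
    exact h1

theorem cof_step (n d : ℕ) (Y : ℕ → ℝ) (hY : ∀ j, |Y j| ≤ 2) (L : List ℕ) :
    ((L.flatMap fun j => (cof n d).map fun (a : (ℕ → ℝ) → ℝ) (Y : ℕ → ℝ) => Y j * a Y).map
      fun a => |a Y|).sum ≤ L.length * (2 * ((cof n d).map fun a => |a Y|).sum) := by
  have hS : 0 ≤ ((cof n d).map fun a => |a Y|).sum := by
    apply List.sum_nonneg
    intro x hx
    obtain ⟨a, _, rfl⟩ := List.mem_map.1 hx
    exact abs_nonneg _
  induction L with
  | nil => simp
  | cons j L ih =>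
    rw [List.flatMap_cons, List.map_append, List.sum_append, List.length_cons, List.map_map]
    have h1 : ((cof n d).map ((fun a : (ℕ → ℝ) → ℝ => |a Y|) ∘
        fun (a : (ℕ → ℝ) → ℝ) (Y : ℕ → ℝ) => Y j * a Y)).sum =
        |Y j| * ((cof n d).map fun a => |a Y|).sum := by
      rw [← List.sum_map_mul_left]
      congr 1
      apply List.map_congr_left
      intro a _
      simp only [Function.comp_apply, abs_mul]
    rw [h1]
    have h2 : |Y j| * ((cof n d).map fun a => |a Y|).sum ≤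
        2 * ((cof n d).map fun a => |a Y|).sum := mul_le_mul_of_nonneg_right (hY j) hS
    push_cast
    linarith

theorem cof_sum (n : ℕ) (Y : ℕ → ℝ) (hY : ∀ j, |Y j| ≤ 2) (d : ℕ) :
    ((cof n d).map fun a => |a Y|).sum ≤ (2 * (n : ℝ) + 3) ^ d := by
  induction d with
  | zero =>
    have : (cof n 0) = [] := rfl
    rw [this]
    simp
  | succ d ih =>
    have e : cof n (d + 1) = ((List.range (n + 1)).flatMap fun j =>
      (cof n d).map fun (a : (ℕ → ℝ) → ℝ) (Y : ℕ → ℝ) => Y j * a Y) ++ [fun _ => 1] := rfl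
    rw [e, List.map_append, List.sum_append]
    have h1 := cof_step n d Y hY (List.range (n + 1))
    rw [List.length_range] at h1
    have h2 : ((n + 1 : ℕ) : ℝ) * (2 * ((cof n d).map fun a => |a Y|).sum) ≤
        ((n + 1 : ℕ) : ℝ) * (2 * (2 * (n : ℝ) + 3) ^ d) :=
      mul_le_mul_of_nonneg_left (by linarith) (by positivity)
    have h3 : (1 : ℝ) ≤ (2 * (n : ℝ) + 3) ^ d := one_le_pow₀ (by
      have : (0 : ℝ) ≤ n := Nat.cast_nonneg n
      linarith)
    have h4 : (List.map (fun a : (ℕ → ℝ) → ℝ => |a Y|) [fun _ => 1]).sum = 1 := by simp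
    rw [h4]
    have h5 : (2 * (n : ℝ) + 3) ^ (d + 1) =
        ((n + 1 : ℕ) : ℝ) * (2 * (2 * (n : ℝ) + 3) ^ d) + (2 * (n : ℝ) + 3) ^ d := by
      push_cast
      ring
    rw [h5]
    linarith

theorem pt_le (n : ℕ) (ρ : ℝ) (h : |ρ| ≤ 2) (j : ℕ) : |pt n ρ j| ≤ 2 := by
  unfold pt
  split_ifs
  · exact h
  · simp

/-- the half width of the support of the errors -/
noncomputable def ww (n d B : ℕ) : ℝ := 1 / (8 * ((2 * (n : ℝ) + 3) ^ d + B * 2 ^ d))

theorem qq_pos (n d B : ℕ) : 1 ≤ (2 * (n : ℝ) + 3) ^ d + B * 2 ^ d := by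
  have h3 : (1 : ℝ) ≤ (2 * (n : ℝ) + 3) ^ d := one_le_pow₀ (by
    have : (0 : ℝ) ≤ n := Nat.cast_nonneg n
    linarith)
  have h4 : (0 : ℝ) ≤ B * 2 ^ d := by positivity
  linarith

theorem ww_pos (n d B : ℕ) : 0 < ww n d B := by
  have := qq_pos n d B
  unfold ww
  positivity

theorem ww_le (n d B : ℕ) : ww n d B ≤ 1 := by
  have := qq_pos n d B
  unfold ww
  rw [div_le_one (by positivity)]
  linarith

theorem ww_K (n d B : ℕ) : (kk n d B : ℝ) * ww n d B ^ 2 = 1 / 4 := by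
  have := qq_pos n d B
  have h0 : (2 * (n : ℝ) + 3) ^ d + B * 2 ^ d ≠ 0 := by positivity
  unfold kk ww
  push_cast
  field_simp
  norm_num

theorem ker_supp (n d B : ℕ) (ρ t v : ℝ) (hρ : |ρ| ≤ 2) (ht : 0 ≤ t)
    (h : ker n d (kk n d B) ρ t v ≠ 0) : |1 - v| ≤ 5 / 8 := by
  have h1 := (JL_supp (ww_pos n d B) (ww_K n d B) _ t v ht h).2
  rw [List.map_map] at h1
  have h2 := cof_sum n (pt n ρ) (pt_le n ρ hρ) d
  have h3 : ((cof n d).map ((fun a : ℝ => |a|) ∘ fun a => a (pt n ρ))).sum * ww n d B ≤ 1 / 8 := by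
    have h4 : ((cof n d).map ((fun a : ℝ => |a|) ∘ fun a => a (pt n ρ))).sum ≤
        (2 * (n : ℝ) + 3) ^ d := h2
    have h5 : (2 * (n : ℝ) + 3) ^ d ≤ (2 * (n : ℝ) + 3) ^ d + B * 2 ^ d := by
      have h4 : (0 : ℝ) ≤ B * 2 ^ d := by positivity
      linarith
    have hq := qq_pos n d B
    have h6 : ((cof n d).map ((fun a : ℝ => |a|) ∘ fun a => a (pt n ρ))).sum * ww n d B ≤
        ((2 * (n : ℝ) + 3) ^ d + B * 2 ^ d) * ww n d B :=
      mul_le_mul_of_nonneg_right (h4.trans h5) (ww_pos n d B).le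
    have h7 : ((2 * (n : ℝ) + 3) ^ d + B * 2 ^ d) * ww n d B = 1 / 8 := by
      have h0 : (2 * (n : ℝ) + 3) ^ d + B * 2 ^ d ≠ 0 := by positivity
      unfold ww
      field_simp
    linarith
  linarith

theorem ker_small (n d B : ℕ) (ρ t v : ℝ) (ht : 0 ≤ t)
    (h : ker n d (kk n d B) ρ t v ≠ 0) : t < 1 / 4 :=
  (JL_supp (ww_pos n d B) (ww_K n d B) _ t v ht h).1

/-- the bound of the kernel -/
noncomputable def kb (n d B : ℕ) : ENNReal :=
  (volume (Set.Icc (-(ww n d B)) (ww n d B))) ^ (cof n d).length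

theorem kb_fin (n d B : ℕ) : kb n d B ≠ ⊤ :=
  ENNReal.pow_ne_top (isCompact_Icc.measure_lt_top.ne)

theorem ker_le (n d B : ℕ) (ρ t v : ℝ) (ht : 0 ≤ t) :
    ker n d (kk n d B) ρ t v ≤ kb n d B := by
  have h1 := JL_le (ww_pos n d B) (ww_K n d B) ((cof n d).map fun a => a (pt n ρ)) t v ht
  rw [List.length_map] at h1
  exact h1

/-! ### The second integral -/

theorem in2_small (n d B : ℕ) (ρ t : ℝ) (ht : 0 ≤ t) (h : in2 n d (kk n d B) t ρ ≠ 0) :
    t < 1 / 4 := by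
  obtain ⟨y, hy⟩ := lint_ne h
  have h1 := right_ne_zero_of_mul hy
  have h0 : 0 ≤ y 1 ^ 2 + (kk n d B : ℝ) * y 2 ^ 2 := by positivity
  have h2 := ker_small n d B ρ _ _ (by linarith) h1
  linarith

/-- the bound of the second integral -/
noncomputable def ib (n d B : ℕ) : ENNReal :=
  ENNReal.ofReal (8 * Real.pi / 3) * kb n d B *
    volume (Set.Icc (fun _ : Fin 3 => -(2 : ℝ)) (fun _ => 2))

theorem ib_fin (n d B : ℕ) : ib n d B ≠ ⊤ :=
  ENNReal.mul_ne_top (ENNReal.mul_ne_top ENNReal.ofReal_ne_top (kb_fin n d B)) (box_fin 2)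

theorem in2_le (n d B : ℕ) (ρ t : ℝ) (hρ : |ρ| ≤ 2) (ht : 0 ≤ t) :
    in2 n d (kk n d B) t ρ ≤ ib n d B := by
  refine lint_box 2 _ (fun y => ?_) (fun y hy => ?_)
  · by_cases h : ker n d (kk n d B) ρ (t + (y 1 ^ 2 + (kk n d B : ℝ) * y 2 ^ 2)) (y 0) = 0
    · rw [h, mul_zero]
      exact zero_le
    · have h0 : 0 ≤ t + (y 1 ^ 2 + (kk n d B : ℝ) * y 2 ^ 2) := by positivity
      have h1 := abs_le.mp (ker_supp n d B ρ _ _ hρ h0 h)
      have h2 : 3 / 8 ≤ |y 0| := by
        have : 3 / 8 ≤ y 0 := by linarith [h1.2]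
        exact this.trans (le_abs_self _)
      refine mul_le_mul' (ENNReal.ofReal_le_ofReal ?_) (ker_le n d B ρ _ _ h0)
      rw [div_le_div_iff₀ (by linarith) (by norm_num)]
      have := Real.pi_pos
      nlinarith
  · have h := right_ne_zero_of_mul hy
    have h0 : 0 ≤ t + (y 1 ^ 2 + (kk n d B : ℝ) * y 2 ^ 2) := by positivity
    have h1 := abs_le.mp (ker_supp n d B ρ _ _ hρ h0 h)
    have h2 := ker_small n d B ρ _ _ h0 h
    have h3 : 0 ≤ (kk n d B : ℝ) * y 2 ^ 2 := by positivity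
    have h4 : 0 ≤ y 1 ^ 2 := sq_nonneg _
    have h5 : |y 1| ≤ 1 / 2 := abs_half (by linarith)
    have h6 : |y 2| ≤ ww n d B := abs_w (ww_pos n d B) (ww_K n d B) (by linarith)
    have h7 := ww_le n d B
    intro i
    fin_cases i
    · show |y 0| ≤ 2
      rw [abs_le]
      constructor <;> linarith [h1.1, h1.2]
    · show |y 1| ≤ 2
      linarith
    · show |y 2| ≤ 2
      linarith

/-! ### Measurability -/

theorem JL_meas (hJ : S_jl) (K : ℕ) (l : List ℝ) :
    Measurable fun p : ℝ × ℝ => JL K l f1 p.1 p.2 := by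
  have h1 := hJ.1 K Unit (l.map fun a _ => a) (fun _ => f1)
    (fun a ha => by
      obtain ⟨b, _, rfl⟩ := List.mem_map.1 ha
      exact measurable_const)
    (f1_meas.comp (by fun_prop : Measurable fun p : Unit × ℝ × ℝ => (p.2.1, p.2.2)))
  have h2 := h1.comp (by fun_prop : Measurable fun q : ℝ × ℝ => (((), q) : Unit × ℝ × ℝ))
  have h3 : ∀ u : Unit, (l.map fun (a : ℝ) (_ : Unit) => a).map (fun a => a u) = l := by
    intro u
    rw [List.map_map]
    exact List.map_id l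
  have h4 : (fun q : ℝ × ℝ => JL K ((l.map fun (a : ℝ) (_ : Unit) => a).map fun a => a ()) f1
      q.1 q.2) = fun p : ℝ × ℝ => JL K l f1 p.1 p.2 := by
    funext q
    rw [h3]
  rw [← h4]
  exact h2

theorem pt_meas (n : ℕ) : Measurable fun ρ : ℝ => pt n ρ := by
  refine measurable_pi_lambda _ fun j => ?_
  unfold pt
  by_cases h : j = n
  · simp only [if_pos h]
    exact measurable_id
  · simp only [if_neg h]
    exact measurable_const

theorem ker_meas (hJ : S_jl) (n d K : ℕ) :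
    Measurable fun p : ℝ × ℝ × ℝ => ker n d K p.1 p.2.1 p.2.2 := by
  have h1 := hJ.1 K ℝ ((cof n d).map fun a ρ => a (pt n ρ)) (fun _ => f1)
    (fun a ha => by
      obtain ⟨b, hb, rfl⟩ := List.mem_map.1 ha
      exact (hJ.2.2.2.2.1 n d b hb).comp (pt_meas n))
    (f1_meas.comp (by fun_prop : Measurable fun p : ℝ × ℝ × ℝ => (p.2.1, p.2.2)))
  have h4 : (fun p : ℝ × ℝ × ℝ => JL K (((cof n d).map fun a ρ => a (pt n ρ)).map fun a => a p.1)
      f1 p.2.1 p.2.2) = fun p : ℝ × ℝ × ℝ => ker n d K p.1 p.2.1 p.2.2 := by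
    funext q
    rw [List.map_map]
    rfl
  rw [← h4]
  exact h1

theorem in2_meas (hJ : S_jl) (n d K : ℕ) :
    Measurable fun q : ℝ × ℝ => in2 n d K q.1 q.2 := by
  have h1 : Measurable fun q : (ℝ × ℝ) × (Fin 3 → ℝ) =>
      ((q.1.2, q.1.1 + (q.2 1 ^ 2 + K * q.2 2 ^ 2), q.2 0) : ℝ × ℝ × ℝ) := by
    fun_prop
  have h2 : Measurable fun q : (ℝ × ℝ) × (Fin 3 → ℝ) => ENNReal.ofReal (Real.pi / |q.2 0|) := by
    fun_prop
  exact (h2.mul ((ker_meas hJ n d K).comp h1)).lintegral_prod_right'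

/-! ### Positivity -/

theorem JL_pos (hJ : S_jl) (K : ℕ) (l : List ℝ) :
    ∀ t v : ℝ, t + (1 - v) ^ 2 < 1 / 4 → JL K l f1 t v ≠ 0 := by
  induction l with
  | nil => exact fun t v h => f1_pos h
  | cons a l ih =>
    intro t v h
    have h1 : Measurable fun z : ℝ => JL K l f1 (t + K * z ^ 2) (v + a * z) :=
      (JL_meas hJ K l).comp (by fun_prop : Measurable fun z : ℝ => (t + K * z ^ 2, v + a * z))
    exact lint_pos1 h1 (fun z => t + K * z ^ 2 + (1 - (v + a * z)) ^ 2) (by fun_prop)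
      (fun z hz => ih _ _ hz) 0 (by simpa using h)

theorem in2_pos (hJ : S_jl) (n d K : ℕ) (t ρ : ℝ) (ht : 0 ≤ t) (h : t < 1 / 4) :
    in2 n d K t ρ ≠ 0 := by
  have h1 : Measurable fun y : Fin 3 → ℝ => ENNReal.ofReal (Real.pi / |y 0|) *
      ker n d K ρ (t + (y 1 ^ 2 + K * y 2 ^ 2)) (y 0) := by
    have h2 : Measurable fun y : Fin 3 → ℝ =>
        ((ρ, t + (y 1 ^ 2 + K * y 2 ^ 2), y 0) : ℝ × ℝ × ℝ) := by
      fun_prop
    have h3 : Measurable fun y : Fin 3 → ℝ => ENNReal.ofReal (Real.pi / |y 0|) := by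
      fun_prop
    exact h3.mul ((ker_meas hJ n d K).comp h2)
  refine lint_pos h1 (fun y => t + (y 1 ^ 2 + K * y 2 ^ 2) + (1 - y 0) ^ 2) (by fun_prop)
    (fun y hy => ?_) (fun i => if i = 0 then 1 else 0) (by simpa using h)
  have h0 : 0 ≤ y 1 ^ 2 + (K : ℝ) * y 2 ^ 2 := by positivity
  have hy' : t + (y 1 ^ 2 + (K : ℝ) * y 2 ^ 2) + (1 - y 0) ^ 2 < 1 / 4 := hy
  have h2 := abs_le.mp (abs_half (x := 1 - y 0) (by linarith))
  have h3 : 0 < y 0 := by linarith [h2.2]
  refine mul_ne_zero ?_ (JL_pos hJ K _ _ _ hy')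
  rw [abs_of_pos h3]
  have := Real.pi_pos
  exact (ENNReal.ofReal_pos.2 (by positivity)).ne'

/-- the argument of the second integral -/
noncomputable def tt (n : ℕ) (y : Fin (n + 2) → ℝ) : ℝ :=
  (1 - y 0 ^ 2) ^ 2 + ∑ j ∈ Finset.range (n + 1), ext y (1 + j) ^ 2

theorem tt_cont (n : ℕ) : Continuous (tt n) := by
  unfold tt
  have h1 : ∀ j, Continuous fun y : Fin (n + 2) → ℝ => ext y j := by
    intro j
    unfold ext
    by_cases h : j < n + 2
    · simp only [h, dif_pos]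
      fun_prop
    · simp only [h, dif_neg, not_false_eq_true]
      fun_prop
  have h2 : Continuous fun y : Fin (n + 2) → ℝ =>
      ∑ j ∈ Finset.range (n + 1), ext y (1 + j) ^ 2 :=
    continuous_finsetSum _ fun j _ => (h1 (1 + j)).pow 2
  exact (by fun_prop : Continuous fun y : Fin (n + 2) → ℝ => (1 - y 0 ^ 2) ^ 2).add h2

theorem tt_nonneg (n : ℕ) (y : Fin (n + 2) → ℝ) : 0 ≤ tt n y :=
  add_nonneg (sq_nonneg _) (Finset.sum_nonneg fun _ _ => sq_nonneg _)

theorem tt_zero {n : ℕ} {y : Fin (n + 2) → ℝ} (h : tt n y < 1 / 4) :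
    1 / 2 ≤ |y 0| ∧ |y 0| ≤ 2 := by
  have h1 : 0 ≤ ∑ j ∈ Finset.range (n + 1), ext y (1 + j) ^ 2 :=
    Finset.sum_nonneg fun _ _ => sq_nonneg _
  have h2 : (1 - y 0 ^ 2) ^ 2 < 1 / 4 := by
    unfold tt at h
    linarith
  have h3 := abs_le.mp (abs_half h2)
  have h4 : |y 0| ^ 2 = y 0 ^ 2 := sq_abs _
  have h5 := abs_nonneg (y 0)
  constructor
  · nlinarith [h3.1, h3.2]
  · nlinarith [h3.1, h3.2]

theorem tt_box {n : ℕ} {y : Fin (n + 2) → ℝ} (h : tt n y < 1 / 4) (i : Fin (n + 2)) :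
    |y i| ≤ 2 := by
  rcases Fin.eq_zero_or_eq_succ i with rfl | ⟨j, rfl⟩
  · exact (tt_zero h).2
  · have h1 : ext y (1 + (j : ℕ)) = y j.succ := by
      unfold ext
      have h2 : 1 + (j : ℕ) < n + 2 := by omega
      rw [dif_pos h2]
      congr 1
      ext
      simp only [Fin.val_succ]
      omega
    have h3 : ext y (1 + (j : ℕ)) ^ 2 ≤ ∑ j ∈ Finset.range (n + 1), ext y (1 + j) ^ 2 :=
      Finset.single_le_sum (f := fun j => ext y (1 + j) ^ 2) (fun _ _ => sq_nonneg _)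
        (Finset.mem_range.2 (by omega))
    have h4 : 0 ≤ (1 - y 0 ^ 2) ^ 2 := sq_nonneg _
    have h5 : |y j.succ| ≤ 1 / 2 := by
      apply abs_half
      rw [← h1]
      unfold tt at h
      linarith
    linarith

end QCst

open QCst SBnd in
theorem t_cst (hJ : S_jl) : S_cst := by
  intro n d B
  have hm : Measurable fun y : Fin (n + 2) → ℝ => ENNReal.ofReal (1 / |y 0|) *
      in2 n d (kk n d B) (tt n y) |y 0| := by
    have h1 : Measurable fun y : Fin (n + 2) → ℝ => ((tt n y, |y 0|) : ℝ × ℝ) :=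
      (tt_cont n).measurable.prodMk (by fun_prop)
    have h2 : Measurable fun y : Fin (n + 2) → ℝ => ENNReal.ofReal (1 / |y 0|) := by
      fun_prop
    exact h2.mul ((in2_meas hJ n d (kk n d B)).comp h1)
  constructor
  · refine lint_pos hm (tt n) (tt_cont n) (fun y hy => ?_) (fun i => if i = 0 then 1 else 0) ?_
    · have h1 := (tt_zero hy).1
      refine mul_ne_zero ?_ (in2_pos hJ n d _ _ _ (tt_nonneg n y) hy)
      exact (ENNReal.ofReal_pos.2 (by positivity)).ne'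
    · have h1 : ∀ j ∈ Finset.range (n + 1),
          ext (fun i : Fin (n + 2) => if i = 0 then (1 : ℝ) else 0) (1 + j) ^ 2 = 0 := by
        intro j hj
        have h2 : 1 + j < n + 2 := by
          have := Finset.mem_range.1 hj
          omega
        unfold ext
        rw [dif_pos h2]
        have h3 : (⟨1 + j, h2⟩ : Fin (n + 2)) ≠ 0 := by
          intro h4
          have h5 := congrArg Fin.val h4
          simp only [Fin.val_zero] at h5
          omega
        show (if (⟨1 + j, h2⟩ : Fin (n + 2)) = 0 then (1 : ℝ) else 0) ^ 2 = 0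
        rw [if_neg h3]
        norm_num
      unfold tt
      rw [Finset.sum_eq_zero h1]
      norm_num
  · have h1 := lint_box (n := n + 2) (g := fun y => ENNReal.ofReal (1 / |y 0|) *
      in2 n d (kk n d B) (tt n y) |y 0|) 2 (ENNReal.ofReal 2 * ib n d B) (fun y => ?_)
      (fun y hy => ?_)
    · refine ne_of_lt (lt_of_le_of_lt h1 ?_)
      exact (ENNReal.mul_ne_top (ENNReal.mul_ne_top ENNReal.ofReal_ne_top (ib_fin n d B))
        (box_fin 2)).lt_top
    · by_cases h : in2 n d (kk n d B) (tt n y) |y 0| = 0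
      · rw [h, mul_zero]
        exact zero_le
      · have h2 := tt_zero (in2_small n d B _ _ (tt_nonneg n y) h)
        refine mul_le_mul' (ENNReal.ofReal_le_ofReal ?_)
          (in2_le n d B _ _ (by rw [abs_abs]; exact h2.2) (tt_nonneg n y))
        rw [div_le_iff₀ (by linarith [h2.1])]
        linarith [h2.1]
    · exact tt_box (in2_small n d B _ _ (tt_nonneg n y) (right_ne_zero_of_mul hy))

end Pool.Agent.H652.PV
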