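import Pool.Agent.H652.PV.Qdefs

/-!
# Q1: simple properties of `JL` and `cof`
-/

set_option autoImplicit false
set_option synthInstance.maxSize 2000

namespace Pool.Agent.H652.PV

open Pool.Agent.TH960.PE MeasureTheory

namespace QJl

theorem meas (K : ℕ) (α : Type) [MeasurableSpace α] (l : List (α → ℝ))
    (f : α → ℝ → ℝ → ENNReal) (hl : ∀ a ∈ l, Measurable a)
    (hf : Measurable fun p : α × ℝ × ℝ => f p.1 p.2.1 p.2.2) :
    Measurable fun p : α × ℝ × ℝ => JL K (l.map fun a => a p.1) (f p.1) p.2.1 p.2.2 := by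
  induction l with
  | nil => exact hf
  | cons a l ih =>
    have ih' := ih (fun b hb => hl b (List.mem_cons_of_mem _ hb))
    have ha : Measurable a := hl a List.mem_cons_self
    have hg : Measurable (fun q : (α × ℝ × ℝ) × ℝ =>
        ((q.1.1, q.1.2.1 + K * q.2 ^ 2, q.1.2.2 + a q.1.1 * q.2) : α × ℝ × ℝ)) := by
      refine Measurable.prodMk (measurable_fst.comp measurable_fst) (Measurable.prodMk ?_ ?_)
      · exact ((measurable_fst.comp (measurable_snd.comp measurable_fst)).add
          ((measurable_snd.pow_const 2).const_mul _))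
      · exact (measurable_snd.comp (measurable_snd.comp measurable_fst)).add
          ((ha.comp (measurable_fst.comp measurable_fst)).mul measurable_snd)
    exact (ih'.comp hg).lintegral_prod_right'

theorem app (K : ℕ) (l l' : List ℝ) (f : ℝ → ℝ → ENNReal) (t v : ℝ) :
    JL K (l ++ l') f t v = JL K l (JL K l' f) t v := by
  induction l generalizing t v with
  | nil => rfl
  | cons a l ih =>
    show ∫⁻ z : ℝ, JL K (l ++ l') f (t + K * z ^ 2) (v + a * z) =
      ∫⁻ z : ℝ, JL K l (JL K l' f) (t + K * z ^ 2) (v + a * z)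
    simp only [ih]

theorem scal (K : ℕ) (l : List ℝ) (f : ℝ → ℝ → ENNReal) (y t v w : ℝ) :
    JL K (l.map fun a => y * a) f t (v + y * w) = JL K l (fun t w => f t (v + y * w)) t w := by
  induction l generalizing t w with
  | nil => rfl
  | cons a l ih =>
    show ∫⁻ z : ℝ, JL K (l.map fun a => y * a) f (t + K * z ^ 2) (v + y * w + y * a * z) =
      ∫⁻ z : ℝ, JL K l (fun t w => f t (v + y * w)) (t + K * z ^ 2) (w + a * z)
    have h : ∀ z : ℝ, v + y * w + y * a * z = v + y * (w + a * z) := fun z => by ring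
    simp only [h, ih]

theorem len_aux (n d m : ℕ) : ((List.range m).flatMap fun j =>
    (cof n d).map fun (a : (ℕ → ℝ) → ℝ) (Y : ℕ → ℝ) => Y j * a Y).length = m * (cof n d).length := by
  induction m with
  | zero => simp
  | succ m ih =>
    rw [List.range_succ, List.flatMap_append, List.length_append, ih]
    simp
    ring

theorem len (n d : ℕ) : (cof n d).length = nod n d := by
  induction d with
  | zero => rfl
  | succ d ih =>
    show (((List.range (n + 1)).flatMap fun j =>
      (cof n d).map fun (a : (ℕ → ℝ) → ℝ) (Y : ℕ → ℝ) => Y j * a Y) ++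
      [fun _ : ℕ → ℝ => (1 : ℝ)]).length = (n + 1) * nod n d + 1
    rw [List.length_append, len_aux, ih]
    rfl

theorem mem_cof {n d : ℕ} {a : (ℕ → ℝ) → ℝ} (ha : a ∈ cof n (d + 1)) :
    (∃ j ≤ n, ∃ b ∈ cof n d, a = fun Y => Y j * b Y) ∨ a = fun _ => 1 := by
  have h : a ∈ ((List.range (n + 1)).flatMap fun j => (cof n d).map fun a Y => Y j * a Y) ++
      [fun _ => (1 : ℝ)] := ha
  rcases List.mem_append.1 h with h | h
  · left
    obtain ⟨j, hj, h⟩ := List.mem_flatMap.1 h
    obtain ⟨b, hb, h⟩ := List.mem_map.1 h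
    exact ⟨j, Nat.lt_succ_iff.1 (List.mem_range.1 hj), b, hb, h.symm⟩
  · right
    exact List.mem_singleton.1 h

theorem meas_cof (n d : ℕ) : ∀ a ∈ cof n d, Measurable a := by
  induction d with
  | zero =>
    intro a ha
    exact absurd ha List.not_mem_nil
  | succ d ih =>
    intro a ha
    rcases mem_cof ha with ⟨j, -, b, hb, rfl⟩ | rfl
    · exact (measurable_pi_apply j).mul (ih b hb)
    · exact measurable_const

theorem dep_cof (n d : ℕ) (Y Y' : ℕ → ℝ) (h : ∀ j ≤ n, Y j = Y' j) :
    ∀ a ∈ cof n d, a Y = a Y' := by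
  induction d with
  | zero =>
    intro a ha
    exact absurd ha List.not_mem_nil
  | succ d ih =>
    intro a ha
    rcases mem_cof ha with ⟨j, hj, b, hb, rfl⟩ | rfl
    · show Y j * b Y = Y' j * b Y'
      rw [h j hj, ih b hb]
    · rfl

theorem sum_aux (n d m : ℕ) (Y : ℕ → ℝ) : (((List.range m).flatMap fun j =>
    (cof n d).map fun (a : (ℕ → ℝ) → ℝ) (Y : ℕ → ℝ) => Y j * a Y).map fun a => a Y ^ 2).sum =
      (∑ j ∈ Finset.range m, Y j ^ 2) * ((cof n d).map fun a => a Y ^ 2).sum := by
  induction m with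
  | zero => simp
  | succ m ih =>
    rw [List.range_succ, List.flatMap_append, List.map_append, List.sum_append, ih,
      Finset.sum_range_succ, add_mul]
    congr 1
    simp only [List.flatMap_cons, List.flatMap_nil, List.append_nil, List.map_map]
    rw [← List.sum_map_mul_left]
    congr 1
    refine List.map_congr_left fun a _ => ?_
    show (Y m * a Y) ^ 2 = Y m ^ 2 * a Y ^ 2
    ring

theorem sum_succ (n d : ℕ) (Y : ℕ → ℝ) : ((cof n (d + 1)).map fun a => a Y ^ 2).sum =
    (∑ j ∈ Finset.range (n + 1), Y j ^ 2) * ((cof n d).map fun a => a Y ^ 2).sum + 1 := by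
  show ((((List.range (n + 1)).flatMap fun j =>
      (cof n d).map fun (a : (ℕ → ℝ) → ℝ) (Y : ℕ → ℝ) => Y j * a Y) ++
      [fun _ : ℕ → ℝ => (1 : ℝ)]).map fun a => a Y ^ 2).sum = _
  rw [List.map_append, List.sum_append, sum_aux]
  simp

theorem sum_cof (n d : ℕ) (Y Y' : ℕ → ℝ)
    (h : ∑ j ∈ Finset.range (n + 1), Y j ^ 2 = ∑ j ∈ Finset.range (n + 1), Y' j ^ 2) :
    ((cof n d).map fun a => a Y ^ 2).sum = ((cof n d).map fun a => a Y' ^ 2).sum := by
  induction d with
  | zero => rfl
  | succ d ih => rw [sum_succ, sum_succ, h, ih]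

end QJl

theorem t_jl : S_jl :=
  ⟨QJl.meas, QJl.app, QJl.scal, QJl.len, QJl.meas_cof, QJl.dep_cof, QJl.sum_cof⟩

end Pool.Agent.H652.PV
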