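import Pool.Agent.H652.PV.Qdefs

/-!
# Quartics: computability
-/

set_option autoImplicit false
set_option synthInstance.maxSize 2000

namespace Pool.Agent.H652.PV

open Pool.Agent.TH960.PE MeasureTheory

namespace QPrim

open PrimT SCode

variable {α : Type*} [Primcodable α]

theorem rep_p {f g : α → ℕ} (hf : Primrec f) (hg : Primrec g) :
    Primrec fun a => List.replicate (f a) (g a) := by
  have h3 : Primrec₂ fun (a : α) (_ : ℕ) => g a := (hg.comp Primrec.fst).to₂
  refine (Primrec.list_map (Primrec.list_range.comp hf) h3).of_eq fun p => ?_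
  simp [List.map_const']

theorem nod_p {f g : α → ℕ} (hf : Primrec f) (hg : Primrec g) :
    Primrec fun a => nod (f a) (g a) := by
  have h1 : Primrec₂ fun (a : α) (q : ℕ × ℕ) => (f a + 1) * q.2 + 1 := by
    have h2 : Primrec fun p : α × (ℕ × ℕ) => (f p.1 + 1) * p.2.2 + 1 :=
      add_p (Primrec.nat_mul.comp (add_p (hf.comp Primrec.fst) 1)
        (Primrec.snd.comp Primrec.snd)) 1
    exact h2.to₂
  refine (Primrec.nat_rec' hg (Primrec.const 0) h1).of_eq fun a => ?_
  induction g a with
  | zero => rfl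
  | succ d ih => rw [nod, ← ih]

theorem tl_p {j : α → ℕ} {G : α → Poly} (hj : Primrec j) (hG : Primrec G) :
    Primrec fun a => tl (j a) (G a) := by
  have h1 : Primrec₂ fun (a : α) (m : Mono) =>
      if m.2.head? = some (j a) then ([(m.1, m.2.tail)] : Poly) else [] := by
    have hh : Primrec fun p : α × Mono => p.2.2.head? :=
      Primrec.list_head?.comp (Primrec.snd.comp Primrec.snd)
    have hs : Primrec fun p : α × Mono => some (j p.1) :=
      Primrec.option_some.comp (hj.comp Primrec.fst)
    have ht : Primrec fun p : α × Mono => ([(p.2.1, p.2.2.tail)] : Poly) :=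
      Primrec.list_cons.comp (Primrec.pair (Primrec.fst.comp Primrec.snd)
        (Primrec.list_tail.comp (Primrec.snd.comp Primrec.snd))) (Primrec.const ([] : Poly))
    exact (Primrec.ite (Primrec.eq.comp hh hs) ht (Primrec.const ([] : Poly))).to₂
  exact Primrec.list_flatMap hG h1

theorem hom_p {n d : α → ℕ} {F : α → Poly} (hn : Primrec n) (hd : Primrec d) (hF : Primrec F) :
    Primrec fun a => hom (n a) (d a) (F a) := by
  have hi : Primrec fun p : α × Mono => idx p.2.2 := idx_p (Primrec.snd.comp Primrec.snd)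
  have h1 : Primrec fun p : α × Mono =>
      ((p.2.1, idx p.2.2 ++ List.replicate (d p.1 - (idx p.2.2).length) (n p.1)) : Mono) :=
    Primrec.pair (Primrec.fst.comp Primrec.snd) (Primrec.list_append.comp hi
      (rep_p (Primrec.nat_sub.comp (hd.comp Primrec.fst) (Primrec.list_length.comp hi))
        (hn.comp Primrec.fst)))
  exact Primrec.list_map hF h1.to₂

/-- the parameters of the tree -/
abbrev Bt := (ℕ × ℕ × Poly) × (ℕ × Poly × ℕ)

/-- the subtrees -/
def subs (b : Bt) : List Bt :=
  if b.2.1 = 0 then [] else (List.range (b.1.2.1 + 1)).map fun j =>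
    (b.1, (b.2.1 - 1, tl j b.2.2.1, b.2.2.2 + j * nod b.1.2.1 (b.2.1 - 1)))

/-- the value from the values of the subtrees -/
def comb (b : Bt) (rs : List (Poly × Poly)) : Poly × Poly :=
  if b.2.1 = 0 then ([], mulS b.1.2.2 (b.2.2.1.map fun m => (m.1, []))) else
    (((List.range (b.1.2.1 + 1)).flatMap fun j => (rs.getD j ([], [])).1) ++
      mulS (natP b.1.1) (sqP (subP (varP (b.2.2.2 + (b.1.2.1 + 1) * nod b.1.2.1 (b.2.1 - 1)))
        ((List.range (b.1.2.1 + 1)).flatMap fun j =>
          mulS (varP j) (rs.getD j ([], [])).2))),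
      varP (b.2.2.2 + (b.1.2.1 + 1) * nod b.1.2.1 (b.2.1 - 1)))

theorem subs_p : Primrec subs := by
  have hd : Primrec fun b : Bt => b.2.1 := Primrec.fst.comp Primrec.snd
  have hn : Primrec fun b : Bt => b.1.2.1 := Primrec.fst.comp (Primrec.snd.comp Primrec.fst)
  have hG : Primrec fun b : Bt => b.2.2.1 := Primrec.fst.comp (Primrec.snd.comp Primrec.snd)
  have hN : Primrec fun b : Bt => b.2.2.2 := Primrec.snd.comp (Primrec.snd.comp Primrec.snd)
  have hd1 : Primrec fun b : Bt => b.2.1 - 1 := Primrec.nat_sub.comp hd (Primrec.const 1)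
  have h1 : Primrec fun p : Bt × ℕ =>
      ((p.1.1, (p.1.2.1 - 1, tl p.2 p.1.2.2.1, p.1.2.2.2 + p.2 * nod p.1.1.2.1 (p.1.2.1 - 1))) : Bt) :=
    Primrec.pair (Primrec.fst.comp Primrec.fst) (Primrec.pair (hd1.comp Primrec.fst)
      (Primrec.pair (tl_p Primrec.snd (hG.comp Primrec.fst))
        (Primrec.nat_add.comp (hN.comp Primrec.fst) (Primrec.nat_mul.comp Primrec.snd
          (nod_p (hn.comp Primrec.fst) (hd1.comp Primrec.fst))))))
  exact Primrec.ite (Primrec.eq.comp hd (Primrec.const 0)) (Primrec.const [])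
    (Primrec.list_map (Primrec.list_range.comp (add_p hn 1)) h1.to₂)

theorem comb_p : Primrec₂ comb := by
  have hK : Primrec fun b : Bt × List (Poly × Poly) => b.1.1.1 :=
    Primrec.fst.comp (Primrec.fst.comp Primrec.fst)
  have hn : Primrec fun b : Bt × List (Poly × Poly) => b.1.1.2.1 :=
    Primrec.fst.comp (Primrec.snd.comp (Primrec.fst.comp Primrec.fst))
  have hu : Primrec fun b : Bt × List (Poly × Poly) => b.1.1.2.2 :=
    Primrec.snd.comp (Primrec.snd.comp (Primrec.fst.comp Primrec.fst))
  have hd : Primrec fun b : Bt × List (Poly × Poly) => b.1.2.1 :=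
    Primrec.fst.comp (Primrec.snd.comp Primrec.fst)
  have hG : Primrec fun b : Bt × List (Poly × Poly) => b.1.2.2.1 :=
    Primrec.fst.comp (Primrec.snd.comp (Primrec.snd.comp Primrec.fst))
  have hN : Primrec fun b : Bt × List (Poly × Poly) => b.1.2.2.2 :=
    Primrec.snd.comp (Primrec.snd.comp (Primrec.snd.comp Primrec.fst))
  have hd1 : Primrec fun b : Bt × List (Poly × Poly) => b.1.2.1 - 1 :=
    Primrec.nat_sub.comp hd (Primrec.const 1)
  have hr : Primrec fun q : (Bt × List (Poly × Poly)) × ℕ => q.1.2.getD q.2 ([], []) :=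
    (Primrec.list_getD (([], []) : Poly × Poly)).comp (Primrec.snd.comp Primrec.fst) Primrec.snd
  have hv : Primrec fun b : Bt × List (Poly × Poly) =>
      varP (b.1.2.2.2 + (b.1.1.2.1 + 1) * nod b.1.1.2.1 (b.1.2.1 - 1)) :=
    varP_p (Primrec.nat_add.comp hN (Primrec.nat_mul.comp (add_p hn 1) (nod_p hn hd1)))
  have hrange : Primrec fun b : Bt × List (Poly × Poly) => List.range (b.1.1.2.1 + 1) :=
    Primrec.list_range.comp (add_p hn 1)
  have h1 : Primrec fun b : Bt × List (Poly × Poly) =>
      (List.range (b.1.1.2.1 + 1)).flatMap fun j => (b.2.getD j ([], [])).1 :=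
    Primrec.list_flatMap hrange (Primrec.fst.comp hr).to₂
  have h2 : Primrec fun b : Bt × List (Poly × Poly) =>
      (List.range (b.1.1.2.1 + 1)).flatMap fun j => mulS (varP j) (b.2.getD j ([], [])).2 :=
    Primrec.list_flatMap hrange (mulS_p (varP_p Primrec.snd) (Primrec.snd.comp hr)).to₂
  have h3 : Primrec fun b : Bt × List (Poly × Poly) =>
      ((b.1.2.2.1.map fun m => (m.1, [])) : Poly) := by
    have h4 : Primrec fun q : (Bt × List (Poly × Poly)) × Mono => ((q.2.1, []) : Mono) :=
      Primrec.pair (Primrec.fst.comp Primrec.snd) (Primrec.const ([] : List ℕ))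
    exact Primrec.list_map hG h4.to₂
  have h5 := Primrec.pair (Primrec.const (α := Bt × List (Poly × Poly)) ([] : Poly)) (mulS_p hu h3)
  have h6 := Primrec.pair (app_p h1 (mulS_p (natP_p hK) (sqP_p (subP_p hv h2)))) hv
  exact (Primrec.ite (Primrec.eq.comp hd (Primrec.const 0)) h5 h6).to₂

/-- the tree as a function of one argument -/
def treeB (b : Bt) : Poly × Poly := tree b.1.1 b.1.2.1 b.1.2.2 b.2.1 b.2.2.1 b.2.2.2

theorem flatMap_getD {β : Type*} (k : ℕ) (F : ℕ → Poly × Poly) (w : ℕ → Poly × Poly → List β) :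
    ((List.range k).flatMap fun j => w j (((List.range k).map F).getD j ([], []))) =
      (List.range k).flatMap fun j => w j (F j) := by
  refine List.flatMap_congr fun j hj => ?_
  rw [List.mem_range] at hj
  simp [List.getD, hj]

theorem treeB_eq (b : Bt) : comb b ((subs b).map treeB) = treeB b := by
  obtain ⟨⟨K, n, u⟩, ⟨d, G, N⟩⟩ := b
  cases d with
  | zero => simp [comb, treeB, tree]
  | succ d =>
    have h1 : (subs ((K, n, u), (d + 1, G, N))).map treeB =
        (List.range (n + 1)).map fun j => tree K n u d (tl j G) (N + j * nod n d) := by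
      simp [subs, treeB, Function.comp_def]
    rw [h1]
    unfold comb
    simp only [Nat.add_one_sub_one, Nat.succ_ne_zero, if_false]
    rw [flatMap_getD (n + 1) (fun j => tree K n u d (tl j G) (N + j * nod n d)) (fun _ r => r.1),
      flatMap_getD (n + 1) (fun j => tree K n u d (tl j G) (N + j * nod n d))
        (fun j r => mulS (varP j) r.2)]
    rfl

theorem treeB_p : Primrec treeB := by
  have hm : Primrec fun b : Bt => b.2.1 := Primrec.fst.comp Primrec.snd
  refine Primrec.nat_omega_rec' treeB (m := fun b => b.2.1) (l := subs)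
    (g := fun b rs => some (comb b rs)) hm subs_p (Primrec.option_some.comp₂ comb_p) ?_ ?_
  · intro b b' hb
    unfold subs at hb
    split_ifs at hb with h0
    · simp at hb
    · rw [List.mem_map] at hb
      obtain ⟨j, _, rfl⟩ := hb
      show b.2.1 - 1 < b.2.1
      omega
  · intro b
    rw [treeB_eq]

theorem tree_p {K n d N : α → ℕ} {u G : α → Poly} (hK : Primrec K) (hn : Primrec n)
    (hu : Primrec u) (hd : Primrec d) (hG : Primrec G) (hN : Primrec N) :
    Primrec fun a => tree (K a) (n a) (u a) (d a) (G a) (N a) :=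
  treeB_p.comp (Primrec.pair (Primrec.pair hK (Primrec.pair hn hu))
    (Primrec.pair hd (Primrec.pair hG hN)))

theorem quarB_p {n K : α → ℕ} (hn : Primrec n) (hK : Primrec K) :
    Primrec fun a => quarB (n a) (K a) := by
  have hrange : Primrec fun a => List.range (n a + 1) := Primrec.list_range.comp (add_p hn 1)
  have h2n : Primrec fun a => 2 * n a := Primrec.nat_mul.comp (Primrec.const 2) hn
  have h1 : Primrec fun a => (List.range (n a + 1)).flatMap fun j => sqP (varP j) :=
    Primrec.list_flatMap hrange (sqP_p (varP_p (Primrec.snd (α := α) (β := ℕ)))).to₂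
  have h2 : Primrec fun a => (List.range (n a + 1)).flatMap fun j =>
      sqP (mulS (varP (n a)) (varP (n a + 1 + j))) := by
    have h3 : Primrec fun p : α × ℕ => sqP (mulS (varP (n p.1)) (varP (n p.1 + 1 + p.2))) :=
      sqP_p (mulS_p (varP_p (hn.comp Primrec.fst)) (varP_p (Primrec.nat_add.comp
        (add_p (hn.comp Primrec.fst) 1) Primrec.snd)))
    exact Primrec.list_flatMap hrange h3.to₂
  have v2 := varP_p (add_p h2n 2)
  have v3 := varP_p (add_p h2n 3)
  have v4 := varP_p (add_p h2n 4)
  have v5 := varP_p (add_p h2n 5)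
  exact app_p (sqP_p (oneP_p h1)) (app_p h2 (app_p (sqP_p (mulS_p v3 v2))
    (mulS_p (natP_p hK) (sqP_p (subP_p v2 (app_p (sqP_p v4) (sqP_p v5)))))))

theorem quar_p {n d K : α → ℕ} {F : α → Poly} (hn : Primrec n) (hd : Primrec d) (hK : Primrec K)
    (hF : Primrec F) : Primrec fun a => quar (n a) (d a) (K a) (F a) := by
  have h2n : Primrec fun a => 2 * n a := Primrec.nat_mul.comp (Primrec.const 2) hn
  have hT : Primrec fun a => quarT (n a) (d a) (K a) (F a) :=
    tree_p hK hn (varP_p (add_p h2n 2)) hd (hom_p hn hd hF) (add_p h2n 6)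
  have hnum : Primrec fun a => 2 * n a + 6 + nod (n a) (d a) :=
    Primrec.nat_add.comp (add_p h2n 6) (nod_p hn hd)
  exact Primrec.pair hnum (oneP_p (mulS_p (Primrec.const (natP 4)) (app_p (quarB_p hn hK)
    (app_p (Primrec.fst.comp hT) (sqP_p (oneP_p (Primrec.snd.comp hT)))))))

theorem kk_p {n d B : α → ℕ} (hn : Primrec n) (hd : Primrec d) (hB : Primrec B) :
    Primrec fun a => kk (n a) (d a) (B a) := by
  have h2n : Primrec fun a => 2 * n a := Primrec.nat_mul.comp (Primrec.const 2) hn
  exact pow_p (Primrec.nat_mul.comp (Primrec.const 4) (Primrec.nat_add.comp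
    (pow_p (add_p h2n 3) hd) (Primrec.nat_mul.comp hB (pow_p (Primrec.const 2) hd))))
    (Primrec.const 2)

theorem asum_p : Primrec asum := by
  have h : Primrec fun p : Poly × (Mono × ℕ) => p.2.1.1.1 + p.2.1.1.2.1 + p.2.2 :=
    Primrec.nat_add.comp (Primrec.nat_add.comp
      (Primrec.fst.comp (Primrec.fst.comp (Primrec.fst.comp Primrec.snd)))
      (Primrec.fst.comp (Primrec.snd.comp (Primrec.fst.comp (Primrec.fst.comp Primrec.snd)))))
      (Primrec.snd.comp Primrec.snd)
  exact Primrec.list_foldr Primrec.id (Primrec.const 0) h.to₂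

theorem dg_p : Primrec dg := by
  have h : Primrec fun p : Poly × (Mono × ℕ) => max (idx p.2.1.2).length p.2.2 :=
    Primrec.nat_max.comp (Primrec.list_length.comp (idx_p
      (Primrec.snd.comp (Primrec.fst.comp Primrec.snd)))) (Primrec.snd.comp Primrec.snd)
  exact Primrec.list_foldr Primrec.id (Primrec.const 0) h.to₂

end QPrim

theorem t_qprim : S_qprim :=
  ⟨QPrim.quar_p (Primrec.fst.comp Primrec.fst) (Primrec.snd.comp Primrec.fst)
      (Primrec.fst.comp Primrec.snd) (Primrec.snd.comp Primrec.snd),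
    QPrim.kk_p Primrec.fst (Primrec.fst.comp Primrec.snd) (Primrec.snd.comp Primrec.snd),
    QPrim.asum_p, QPrim.dg_p⟩

end Pool.Agent.H652.PV
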