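import Pool.Agent.H652.PV.Qdefs

/-!
# Q2: rotation invariance of the iterated integral
-/

set_option autoImplicit false
set_option synthInstance.maxSize 2000

namespace Pool.Agent.H652.PV

open Pool.Agent.TH960.PE MeasureTheory

namespace QRot

/-- the iterated integral as an integral over `Fin n → ℝ` -/
theorem jl_ofFn (K : ℕ) (f : ℝ → ℝ → ENNReal) (hf : Measurable (Function.uncurry f)) (n : ℕ) :
    ∀ (a : Fin n → ℝ) (t v : ℝ), JL K (List.ofFn a) f t v =
      ∫⁻ z : Fin n → ℝ, f (t + K * ∑ i, z i ^ 2) (v + ∑ i, a i * z i) := by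
  induction n with
  | zero =>
    intro a t v
    have h : (volume : Measure (Fin 0 → ℝ)) = Measure.dirac 0 := by
      rw [Measure.volume_pi_eq_dirac 0]
    rw [h, lintegral_dirac]
    simp [JL]
  | succ n ih =>
    intro a t v
    have hm : Measurable fun z : Fin (n + 1) → ℝ =>
        f (t + K * ∑ i, z i ^ 2) (v + ∑ i, a i * z i) := by
      have h1 : Measurable fun z : Fin (n + 1) → ℝ =>
          (t + K * ∑ i, z i ^ 2, v + ∑ i, a i * z i) := by fun_prop
      exact hf.comp h1
    have hem : MeasurePreserving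
        (MeasurableEquiv.piFinSuccAbove (fun _ => ℝ) (0 : Fin (n + 1))).symm :=
      (volume_preserving_piFinSuccAbove (fun _ : Fin (n + 1) => ℝ) 0).symm _
    rw [← hem.lintegral_comp hm, Measure.volume_eq_prod, lintegral_prod]
    · rw [List.ofFn_succ]
      simp only [JL]
      refine lintegral_congr fun z => ?_
      rw [ih]
      refine lintegral_congr fun w => ?_
      have h1 : ((MeasurableEquiv.piFinSuccAbove (fun _ => ℝ) (0 : Fin (n + 1))).symm (z, w)) =
          Fin.cons z w := by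
        funext i
        refine Fin.cases ?_ (fun j => ?_) i
        · simp [MeasurableEquiv.piFinSuccAbove_symm_apply, Fin.insertNthEquiv]
        · simp [MeasurableEquiv.piFinSuccAbove_symm_apply, Fin.insertNthEquiv]
      rw [h1, Fin.sum_univ_succ, Fin.sum_univ_succ]
      simp only [Fin.cons_zero, Fin.cons_succ]
      congr 1
      · ring
      · ring
    · exact (hm.comp hem.measurable).aemeasurable

theorem rot (K n : ℕ) (f : ℝ → ℝ → ENNReal) (hf : Measurable (Function.uncurry f))
    (a b : Fin n → ℝ) (hab : ∑ i, a i ^ 2 = ∑ i, b i ^ 2) (t v : ℝ) :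
    ∫⁻ z : Fin n → ℝ, f (t + K * ∑ i, z i ^ 2) (v + ∑ i, a i * z i) =
      ∫⁻ z : Fin n → ℝ, f (t + K * ∑ i, z i ^ 2) (v + ∑ i, b i * z i) := by
  have key : ∀ c : Fin n → ℝ, ∫⁻ z : Fin n → ℝ, f (t + K * ∑ i, z i ^ 2) (v + ∑ i, c i * z i) =
      ∫⁻ x : EuclideanSpace ℝ (Fin n), f (t + K * ‖x‖ ^ 2)
        (v + @inner ℝ _ _ (WithLp.toLp 2 c) x) := by
    intro c
    have hm : Measurable fun z : Fin n → ℝ => f (t + K * ∑ i, z i ^ 2) (v + ∑ i, c i * z i) := by
      have h1 : Measurable fun z : Fin n → ℝ =>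
          (t + K * ∑ i, z i ^ 2, v + ∑ i, c i * z i) := by fun_prop
      exact hf.comp h1
    rw [← (PiLp.volume_preserving_ofLp (Fin n)).lintegral_comp hm]
    refine lintegral_congr fun x => ?_
    rw [EuclideanSpace.norm_sq_eq]
    congr 2
    · congr 1
      refine Finset.sum_congr rfl fun i _ => ?_
      simp
    · simp only [PiLp.inner_apply]
      refine Finset.sum_congr rfl fun i _ => ?_
      simp [mul_comm]
  rw [key a, key b]
  have hn : ‖(WithLp.toLp 2 b : EuclideanSpace ℝ (Fin n))‖ =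
      ‖(WithLp.toLp 2 a : EuclideanSpace ℝ (Fin n))‖ := by
    rw [EuclideanSpace.norm_eq, EuclideanSpace.norm_eq]
    congr 1
    simp only [Real.norm_eq_abs, sq_abs]
    exact hab.symm
  set T := Submodule.reflection
    (Submodule.span ℝ {(WithLp.toLp 2 b : EuclideanSpace ℝ (Fin n)) - WithLp.toLp 2 a})ᗮ with hT
  have hTb : T (WithLp.toLp 2 b) = WithLp.toLp 2 a := Submodule.reflection_sub hn
  have hm : Measurable fun x : EuclideanSpace ℝ (Fin n) => f (t + K * ‖x‖ ^ 2)
        (v + @inner ℝ _ _ (WithLp.toLp 2 a) x) := by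
    have h1 : Measurable fun x : EuclideanSpace ℝ (Fin n) =>
          (t + K * ‖x‖ ^ 2, v + @inner ℝ _ _ (WithLp.toLp 2 a : EuclideanSpace ℝ (Fin n)) x) := by
      fun_prop
    exact hf.comp h1
  rw [← (LinearIsometryEquiv.measurePreserving T).lintegral_comp hm]
  refine lintegral_congr fun x => ?_
  rw [LinearIsometryEquiv.norm_map, ← hTb, LinearIsometryEquiv.inner_map_map]

end QRot

theorem t_rot : S_rot := by
  intro K l l' f hf hlen hsum t v
  have h1 : ∀ m : List ℝ, ∀ n : ℕ, m.length = n → ∃ a : Fin n → ℝ, m = List.ofFn a ∧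
      (m.map fun a => a ^ 2).sum = ∑ i, a i ^ 2 := by
    intro m n hn
    subst hn
    refine ⟨m.get, (List.ofFn_get m).symm, ?_⟩
    conv_lhs => rw [← List.ofFn_get m]
    rw [List.map_ofFn, List.sum_ofFn]
    rfl
  obtain ⟨a, ha, ha2⟩ := h1 l _ rfl
  obtain ⟨b, hb, hb2⟩ := h1 l' l.length hlen.symm
  rw [ha2, hb2] at hsum
  have e1 := QRot.jl_ofFn K f hf l.length a t v
  have e2 := QRot.jl_ofFn K f hf l.length b t v
  rw [← ha] at e1
  rw [← hb] at e2
  rw [e1, e2]
  exact QRot.rot K l.length f hf a b hsum t v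

end Pool.Agent.H652.PV
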