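import Pool.Agent.H652.PV.Qdefs

/-!
# The evaluation by a tree (task Q3, helper81)
-/

set_option autoImplicit false
set_option synthInstance.maxSize 2000

namespace Pool.Agent.H652.PV

open Pool.Agent.TH960.PE MeasureTheory

namespace QTree

lemma lint_cast {a b : ℕ} (h : a = b) (f : (ℕ → ℝ) → ENNReal) :
    ∫⁻ x : Fin a → ℝ, f (ext x) = ∫⁻ x : Fin b → ℝ, f (ext x) := by
  subst h
  rfl

lemma lint_fin1 (H : ℝ → ENNReal) (hH : Measurable H) :
    ∫⁻ y : Fin 1 → ℝ, H (y 0) = ∫⁻ z : ℝ, H z :=
  (volume_preserving_funUnique (Fin 1) ℝ).lintegral_comp hH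

lemma JL_shift (K : ℕ) (l : List ℝ) (f : ℝ → ℝ → ENNReal) (w : ℝ) :
    ∀ t v : ℝ, JL K l (fun t v => f t (v + w)) t v = JL K l f t (v + w) := by
  induction l with
  | nil => intro t v; rfl
  | cons a l ih =>
    intro t v
    change ∫⁻ z : ℝ, JL K l (fun t v => f t (v + w)) (t + K * z ^ 2) (v + a * z) =
      ∫⁻ z : ℝ, JL K l f (t + K * z ^ 2) (v + w + a * z)
    refine lintegral_congr fun z => ?_
    rw [ih]
    congr 1
    ring

lemma wev_nil (Y : ℕ → ℝ) : wev Y [] = 0 := by simp [wev]

lemma wev_cons (Y : ℕ → ℝ) (m : Mono) (G : Poly) :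
    wev Y (m :: G) = cv m.1 * (m.2.map Y).prod + wev Y G := by simp [wev]

lemma wev_append (Y : ℕ → ℝ) (G G' : Poly) : wev Y (G ++ G') = wev Y G + wev Y G' := by
  simp [wev]

lemma measurable_wev (G : Poly) : Measurable fun Y : ℕ → ℝ => wev Y G := by
  induction G with
  | nil => simp only [wev_nil]; exact measurable_const
  | cons m G ih =>
    simp only [wev_cons]
    exact ((SChain.measurable_map_prod m.2).const_mul _).add ih

lemma wev_congr {n : ℕ} {X Y : ℕ → ℝ} (h : ∀ j ≤ n, X j = Y j) {G : Poly}
    (hG : ∀ m ∈ G, ∀ j ∈ m.2, j ≤ n) : wev X G = wev Y G := by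
  induction G with
  | nil => rw [wev_nil, wev_nil]
  | cons m G ih =>
    rw [wev_cons, wev_cons, ih fun m' hm' => hG m' (List.mem_cons_of_mem _ hm')]
    have h1 : m.2.map X = m.2.map Y :=
      List.map_congr_left fun j hj => h j (hG m List.mem_cons_self j hj)
    rw [h1]

lemma tl_cons (j : ℕ) (m : Mono) (G : Poly) :
    tl j (m :: G) = (if m.2.head? = some j then [(m.1, m.2.tail)] else []) ++ tl j G := by
  simp [tl]

lemma tl_mem {n d j : ℕ} {G : Poly} (hG : ∀ m ∈ G, m.2.length = d + 1 ∧ ∀ j ∈ m.2, j ≤ n) :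
    ∀ m ∈ tl j G, m.2.length = d ∧ ∀ i ∈ m.2, i ≤ n := by
  intro m hm
  obtain ⟨m0, hm0, h⟩ := List.mem_flatMap.1 hm
  split_ifs at h with h1
  · rw [List.mem_singleton] at h
    subst h
    obtain ⟨h2, h3⟩ := hG m0 hm0
    refine ⟨?_, fun i hi => h3 i (List.mem_of_mem_tail hi)⟩
    rw [List.length_tail, h2, Nat.add_sub_cancel]
  · exact absurd h List.not_mem_nil

lemma wev_split {n d : ℕ} {G : Poly} (hG : ∀ m ∈ G, m.2.length = d + 1 ∧ ∀ j ∈ m.2, j ≤ n)
    (Y : ℕ → ℝ) : wev Y G = ∑ j ∈ Finset.range (n + 1), Y j * wev Y (tl j G) := by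
  induction G with
  | nil =>
    have h : ∀ j : ℕ, tl j [] = [] := fun j => rfl
    simp only [h, wev_nil, mul_zero, Finset.sum_const_zero]
  | cons m G ih =>
    rw [wev_cons, ih fun m' hm' => hG m' (List.mem_cons_of_mem _ hm')]
    have h1 : ∀ j ∈ Finset.range (n + 1), Y j * wev Y (tl j (m :: G)) =
        (if m.2.head? = some j then Y j * (cv m.1 * (m.2.tail.map Y).prod) else 0) +
          Y j * wev Y (tl j G) := by
      intro j _
      rw [tl_cons, wev_append, mul_add]
      congr 1
      split_ifs with h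
      · rw [wev_cons, wev_nil, add_zero]
      · rw [wev_nil, mul_zero]
    rw [Finset.sum_congr rfl h1, Finset.sum_add_distrib]
    congr 1
    obtain ⟨h2, h3⟩ := hG m List.mem_cons_self
    obtain ⟨c, w⟩ := m
    cases w with
    | nil => simp at h2
    | cons a w =>
      have ha : a ≤ n := h3 a List.mem_cons_self
      have h4 : ∀ j ∈ Finset.range (n + 1),
          (if (a :: w).head? = some j then Y j * (cv c * ((a :: w).tail.map Y).prod) else 0) =
            if a = j then Y j * (cv c * (w.map Y).prod) else 0 := by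
        intro j _
        simp only [List.head?_cons, Option.some.injEq, List.tail_cons]
      rw [Finset.sum_congr rfl h4, Finset.sum_ite_eq, if_pos (Finset.mem_range.2 (by omega))]
      simp only [List.map_cons, List.prod_cons]
      ring

/-- the energies of the first subtrees -/
def EP (K n : ℕ) (u : Poly) (d : ℕ) (G : Poly) (N l : ℕ) : Poly :=
  (List.range l).flatMap fun j => (tree K n u d (tl j G) (N + j * nod n d)).1

/-- the values of the first subtrees -/
def VP (K n : ℕ) (u : Poly) (d : ℕ) (G : Poly) (N l : ℕ) : Poly :=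
  (List.range l).flatMap fun j => mulS (varP j) (tree K n u d (tl j G) (N + j * nod n d)).2

/-- the coefficients -/
noncomputable def LC (n d l : ℕ) (Y : ℕ → ℝ) : List ℝ :=
  (List.range l).flatMap fun j => (cof n d).map fun a => Y j * a Y

/-- the values -/
noncomputable def WV (u G : Poly) (l : ℕ) (Y : ℕ → ℝ) : ℝ :=
  ∑ j ∈ Finset.range l, Y j * (pev Y u * wev Y (tl j G))

lemma EP_succ (K n : ℕ) (u : Poly) (d : ℕ) (G : Poly) (N l : ℕ) :
    EP K n u d G N (l + 1) = EP K n u d G N l ++ (tree K n u d (tl l G) (N + l * nod n d)).1 := by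
  unfold EP
  rw [List.range_succ, List.flatMap_append, List.flatMap_singleton]

lemma VP_succ (K n : ℕ) (u : Poly) (d : ℕ) (G : Poly) (N l : ℕ) :
    VP K n u d G N (l + 1) = VP K n u d G N l ++
      mulS (varP l) (tree K n u d (tl l G) (N + l * nod n d)).2 := by
  unfold VP
  rw [List.range_succ, List.flatMap_append, List.flatMap_singleton]

lemma LC_succ (n d l : ℕ) (Y : ℕ → ℝ) :
    LC n d (l + 1) Y = LC n d l Y ++ (cof n d).map fun a => Y l * a Y := by
  unfold LC
  rw [List.range_succ, List.flatMap_append, List.flatMap_singleton]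

/-- the conclusion -/
def Cn (K n : ℕ) (u : Poly) (d : ℕ) (G : Poly) (N : ℕ) : Prop :=
  IsPoly (N + nod n d) (tree K n u d G N).1 ∧ IsPoly (N + nod n d) (tree K n u d G N).2 ∧
    ∀ (g : ℝ → ℝ → (ℕ → ℝ) → ENNReal) (E : (ℕ → ℝ) → ℝ),
      (Measurable fun p : ℝ × ℝ × (ℕ → ℝ) => g p.1 p.2.1 p.2.2) → (∀ t v, Dep N (g t v)) →
      Measurable E → Dep N E →
      ∫⁻ X : Fin (N + nod n d) → ℝ,
          g (E (ext X) + pev (ext X) (tree K n u d G N).1) (pev (ext X) (tree K n u d G N).2)
            (ext X) =
        ∫⁻ x : Fin N → ℝ, JL K ((cof n d).map fun a => a (ext x)) (fun t v => g t v (ext x))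
          (E (ext x)) (pev (ext x) u * wev (ext x) G)

theorem zero (K n : ℕ) (u G : Poly) (N : ℕ) (hu : IsPoly N u)
    (hG : ∀ m ∈ G, m.2.length = 0 ∧ ∀ j ∈ m.2, j ≤ n) : Cn K n u 0 G N := by
  have hc : IsPoly N (G.map fun m => (m.1, [])) := by
    intro m hm
    obtain ⟨m0, -, rfl⟩ := List.mem_map.1 hm
    simp
  refine ⟨fun m hm => absurd hm List.not_mem_nil, isPoly_mulS hu hc, ?_⟩
  intro g E _ _ _ _
  change ∫⁻ X : Fin N → ℝ, g (E (ext X) + pev (ext X) [])
    (pev (ext X) (mulS u (G.map fun m => (m.1, [])))) (ext X) =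
    ∫⁻ x : Fin N → ℝ, g (E (ext x)) (pev (ext x) u * wev (ext x) G) (ext x)
  refine lintegral_congr fun x => ?_
  have h1 : pev (ext x) [] = 0 := by simp [pev]
  have h2 : pev (ext x) (G.map fun m => (m.1, [])) = wev (ext x) G := by
    clear hc
    induction G with
    | nil => simp [pev, wev]
    | cons m G ih =>
      rw [List.map_cons, pev_cons, wev_cons, ih fun m' hm' => hG m' (List.mem_cons_of_mem _ hm')]
      have h3 : m.2 = [] := List.length_eq_zero_iff.1 (hG m List.mem_cons_self).1
      rw [h3]
      simp [mev]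
  rw [h1, add_zero, pev_mulS, h2]

/-- the coefficient lists as lists of functions -/
lemma map_cof (n d l : ℕ) (X : ℕ → ℝ) :
    (((cof n d).map fun (a : (ℕ → ℝ) → ℝ) (X : ℕ → ℝ) => X l * a X).map fun b => b X) =
      (cof n d).map fun a => X l * a X := by
  rw [List.map_map]
  rfl

lemma meas_JL (hJ : S_jl) (K n d l : ℕ) {g : ℝ → ℝ → (ℕ → ℝ) → ENNReal}
    (hg : Measurable fun p : ℝ × ℝ × (ℕ → ℝ) => g p.1 p.2.1 p.2.2) :
    Measurable fun p : (ℕ → ℝ) × ℝ × ℝ =>
      JL K ((cof n d).map fun a => p.1 l * a p.1) (fun t v => g t v p.1) p.2.1 p.2.2 := by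
  have h := hJ.1 K (ℕ → ℝ) ((cof n d).map fun (a : (ℕ → ℝ) → ℝ) (X : ℕ → ℝ) => X l * a X)
    (fun X t v => g t v X) (by
      intro b hb
      obtain ⟨a, ha, rfl⟩ := List.mem_map.1 hb
      exact (measurable_pi_apply l).mul (hJ.2.2.2.2.1 n d a ha)) (by
      exact hg.comp ((measurable_fst.comp measurable_snd).prodMk
        ((measurable_snd.comp measurable_snd).prodMk measurable_fst)))
  simp only [map_cof] at h
  exact h

theorem loop (hJ : S_jl) {K n : ℕ} {u : Poly} {d : ℕ}
    (ih : ∀ (G : Poly) (N : ℕ), IsPoly N u → n < N →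
      (∀ m ∈ G, m.2.length = d ∧ ∀ j ∈ m.2, j ≤ n) → Cn K n u d G N)
    {G : Poly} {N : ℕ} (hu : IsPoly N u) (hn : n < N)
    (hG : ∀ m ∈ G, m.2.length = d + 1 ∧ ∀ j ∈ m.2, j ≤ n) (l : ℕ) : l ≤ n + 1 →
    IsPoly (N + l * nod n d) (EP K n u d G N l) ∧ IsPoly (N + l * nod n d) (VP K n u d G N l) ∧
    ∀ (g : ℝ → ℝ → (ℕ → ℝ) → ENNReal) (E : (ℕ → ℝ) → ℝ),
      (Measurable fun p : ℝ × ℝ × (ℕ → ℝ) => g p.1 p.2.1 p.2.2) → (∀ t v, Dep N (g t v)) →
      Measurable E → Dep N E →
      ∫⁻ X : Fin (N + l * nod n d) → ℝ,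
          g (E (ext X) + pev (ext X) (EP K n u d G N l)) (pev (ext X) (VP K n u d G N l)) (ext X) =
        ∫⁻ x : Fin N → ℝ, JL K (LC n d l (ext x)) (fun t v => g t v (ext x)) (E (ext x))
          (WV u G l (ext x)) := by
  induction l with
  | zero =>
    intro _
    refine ⟨fun m hm => absurd hm List.not_mem_nil, fun m hm => absurd hm List.not_mem_nil, ?_⟩
    intro g E _ _ _ _
    have h0 : N + 0 * nod n d = N := by rw [Nat.zero_mul, Nat.add_zero]
    rw [lint_cast h0 (fun X => g (E X + pev X (EP K n u d G N 0)) (pev X (VP K n u d G N 0)) X)]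
    refine lintegral_congr fun x => ?_
    change g (E (ext x) + pev (ext x) []) (pev (ext x) []) (ext x) =
      g (E (ext x)) (WV u G 0 (ext x)) (ext x)
    have h1 : pev (ext x) [] = 0 := by simp [pev]
    have h2 : WV u G 0 (ext x) = 0 := by simp [WV]
    rw [h1, h2, add_zero]
  | succ l ihl =>
    intro hl
    obtain ⟨hE1, hV1, hI⟩ := ihl (by omega)
    have hNl : N ≤ N + l * nod n d := Nat.le_add_right _ _
    have hln : l ≤ n := by omega
    obtain ⟨hc1, hc2, hc3⟩ := ih (tl l G) (N + l * nod n d) (isPoly_mono hNl hu) (by omega)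
      (tl_mem hG)
    have hN2 : N + (l + 1) * nod n d = N + l * nod n d + nod n d := by ring
    have hle : N + l * nod n d ≤ N + (l + 1) * nod n d := by rw [hN2]; exact Nat.le_add_right _ _
    refine ⟨?_, ?_, ?_⟩
    · rw [EP_succ]
      exact SChain.isPoly_append (isPoly_mono hle hE1) (by rw [hN2]; exact hc1)
    · rw [VP_succ]
      exact SChain.isPoly_append (isPoly_mono hle hV1)
        (isPoly_mulS (isPoly_varP (by omega)) (by rw [hN2]; exact hc2))
    intro g E hg hgd hE hEd
    have hs1 : ∫⁻ X : Fin (N + (l + 1) * nod n d) → ℝ,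
        g (E (ext X) + pev (ext X) (EP K n u d G N (l + 1)))
          (pev (ext X) (VP K n u d G N (l + 1))) (ext X) =
        ∫⁻ X : Fin (N + l * nod n d + nod n d) → ℝ,
          (fun t v X => g t (pev X (VP K n u d G N l) + X l * v) X)
            ((fun X => E X + pev X (EP K n u d G N l)) (ext X) +
              pev (ext X) (tree K n u d (tl l G) (N + l * nod n d)).1)
            (pev (ext X) (tree K n u d (tl l G) (N + l * nod n d)).2) (ext X) := by
      rw [lint_cast hN2 (fun X => g (E X + pev X (EP K n u d G N (l + 1)))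
          (pev X (VP K n u d G N (l + 1))) X)]
      refine lintegral_congr fun X => ?_
      simp only [EP_succ, VP_succ, pev_append, pev_mulS, pev_varP, add_assoc]
    rw [hs1, hc3 (fun t v X => g t (pev X (VP K n u d G N l) + X l * v) X)
      (fun X => E X + pev X (EP K n u d G N l)) ?_ ?_ (hE.add (measurable_pev _)) ?_]
    rotate_left
    · have h1 : Measurable fun p : ℝ × ℝ × (ℕ → ℝ) =>
          (p.1, pev p.2.2 (VP K n u d G N l) + p.2.2 l * p.2.1, p.2.2) := by
        refine measurable_fst.prodMk (Measurable.prodMk ?_ (measurable_snd.comp measurable_snd))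
        refine ((measurable_pev _).comp (measurable_snd.comp measurable_snd)).add ?_
        exact ((measurable_pi_apply l).comp (measurable_snd.comp measurable_snd)).mul
          (measurable_fst.comp measurable_snd)
      exact hg.comp h1
    · intro t v X Y hXY
      have h1 := dep_pev hV1 X Y hXY
      have h2 : X l = Y l := hXY l (by omega)
      have h3 : ∀ w, g t w X = g t w Y := fun w => hgd t w X Y fun i hi => hXY i (by omega)
      have h1' : pev X (VP K n u d G N l) = pev Y (VP K n u d G N l) := h1
      change g t (pev X (VP K n u d G N l) + X l * v) X =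
        g t (pev Y (VP K n u d G N l) + Y l * v) Y
      rw [h1', h2, h3]
    · intro X Y hXY
      have h1 : pev X (EP K n u d G N l) = pev Y (EP K n u d G N l) := dep_pev hE1 X Y hXY
      have h2 : E X = E Y := hEd X Y fun i hi => hXY i (by omega)
      change E X + pev X (EP K n u d G N l) = E Y + pev Y (EP K n u d G N l)
      rw [h1, h2]
    -- the scaling
    have hs2 : ∫⁻ x : Fin (N + l * nod n d) → ℝ,
        JL K ((cof n d).map fun a => a (ext x))
          (fun t v => (fun t v X => g t (pev X (VP K n u d G N l) + X l * v) X) t v (ext x))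
          ((fun X => E X + pev X (EP K n u d G N l)) (ext x))
          (pev (ext x) u * wev (ext x) (tl l G)) =
        ∫⁻ X : Fin (N + l * nod n d) → ℝ,
          (fun t v X => JL K ((cof n d).map fun a => X l * a X) (fun t v => g t v X) t
            (v + X l * (pev X u * wev X (tl l G))))
            (E (ext X) + pev (ext X) (EP K n u d G N l)) (pev (ext X) (VP K n u d G N l))
            (ext X) := by
      refine lintegral_congr fun x => ?_
      have h := hJ.2.2.1 K ((cof n d).map fun a => a (ext x)) (fun t v => g t v (ext x))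
        (ext x l) (E (ext x) + pev (ext x) (EP K n u d G N l))
        (pev (ext x) (VP K n u d G N l)) (pev (ext x) u * wev (ext x) (tl l G))
      rw [List.map_map] at h
      exact h.symm
    rw [hs2, hI (fun t v X => JL K ((cof n d).map fun a => X l * a X) (fun t v => g t v X) t
            (v + X l * (pev X u * wev X (tl l G)))) E ?_ ?_ hE hEd]
    rotate_left
    · have h1 : Measurable fun p : ℝ × ℝ × (ℕ → ℝ) =>
          (p.2.2, p.1, p.2.1 + p.2.2 l * (pev p.2.2 u * wev p.2.2 (tl l G))) := by
        have hX : Measurable fun p : ℝ × ℝ × (ℕ → ℝ) => p.2.2 := measurable_snd.comp measurable_snd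
        refine hX.prodMk (measurable_fst.prodMk ?_)
        refine (measurable_fst.comp measurable_snd).add ?_
        exact ((measurable_pi_apply l).comp hX).mul
          (((measurable_pev u).comp hX).mul ((measurable_wev _).comp hX))
      exact (meas_JL hJ K n d l hg).comp h1
    · intro t v X Y hXY
      have hXY' : ∀ j ≤ n, X j = Y j := fun j hj => hXY j (by omega)
      have h1 : pev X u = pev Y u := dep_pev hu X Y hXY
      have h2 : X l = Y l := hXY' l hln
      have h3 : (fun t v => g t v X) = fun t v => g t v Y := by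
        funext t v
        exact hgd t v X Y hXY
      have h4 : wev X (tl l G) = wev Y (tl l G) := wev_congr hXY' fun m hm => (tl_mem hG m hm).2
      have h5 : ((cof n d).map fun a => X l * a X) = (cof n d).map fun a => Y l * a Y := by
        refine List.map_congr_left fun a ha => ?_
        rw [h2, hJ.2.2.2.2.2.1 n d X Y hXY' a ha]
      change JL K ((cof n d).map fun a => X l * a X) (fun t v => g t v X) t
            (v + X l * (pev X u * wev X (tl l G))) =
        JL K ((cof n d).map fun a => Y l * a Y) (fun t v => g t v Y) t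
            (v + Y l * (pev Y u * wev Y (tl l G)))
      rw [h5, h3, h1, h2, h4]
    refine lintegral_congr fun x => ?_
    have h1 := JL_shift K (LC n d l (ext x)) (JL K ((cof n d).map fun a => ext x l * a (ext x))
      (fun t v => g t v (ext x))) (ext x l * (pev (ext x) u * wev (ext x) (tl l G))) (E (ext x))
      (WV u G l (ext x))
    refine h1.trans ?_
    rw [← hJ.2.1, LC_succ]
    congr 1
    unfold WV
    rw [Finset.sum_range_succ]

end QTree

open QTree in
/-- **Q3: the evaluation by a tree.** -/
theorem t_tree (hJ : S_jl) : S_tree := by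
  intro K n u d
  induction d with
  | zero =>
    intro G N hu _ hG
    exact zero K n u G N hu hG
  | succ d ih =>
    intro G N hu hn hG
    have hloop := loop hJ (K := K) (n := n) (u := u) (d := d)
      (fun G N hu hn hG => ih G N hu hn hG) hu hn hG (n + 1) le_rfl
    obtain ⟨hE1, hV1, hI⟩ := hloop
    obtain ⟨N1, hN1⟩ : ∃ N1, N1 = N + (n + 1) * nod n d := ⟨_, rfl⟩
    have hN2 : N + nod n (d + 1) = N1 + 1 := by
      rw [hN1]
      change N + ((n + 1) * nod n d + 1) = _
      ring
    have htree : tree K n u (d + 1) G N = (EP K n u d G N (n + 1) ++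
        mulS (natP K) (sqP (subP (varP N1) (VP K n u d G N (n + 1)))), varP N1) := by
      rw [hN1]
      rfl
    rw [← hN1] at hE1 hV1 hI
    have hNN1 : N ≤ N1 := by rw [hN1]; exact Nat.le_add_right _ _
    rw [htree, hN2]
    refine ⟨?_, isPoly_varP (Nat.lt_succ_self _), ?_⟩
    · exact SChain.isPoly_append (isPoly_mono (Nat.le_succ _) hE1)
        (isPoly_mulS (isPoly_natP _ _) (isPoly_sqP (isPoly_subP (isPoly_varP (Nat.lt_succ_self _))
          (isPoly_mono (Nat.le_succ _) hV1))))
    intro g E hg hgd hE hEd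
    -- the last variable
    have hF : Measurable fun X : ℕ → ℝ => g (E X + (pev X (EP K n u d G N (n + 1)) +
        K * (X N1 - pev X (VP K n u d G N (n + 1))) ^ 2)) (X N1) X := by
      have h1 : Measurable fun X : ℕ → ℝ => ((E X + (pev X (EP K n u d G N (n + 1)) +
        K * (X N1 - pev X (VP K n u d G N (n + 1))) ^ 2)), X N1, X) := by
        refine Measurable.prodMk (hE.add ((measurable_pev _).add ?_))
          ((measurable_pi_apply N1).prodMk measurable_id)
        exact (((measurable_pi_apply N1).sub (measurable_pev _)).pow_const 2).const_mul _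
      exact hg.comp h1
    have hs1 : ∫⁻ X : Fin (N1 + 1) → ℝ, g (E (ext X) + pev (ext X) (EP K n u d G N (n + 1) ++
        mulS (natP K) (sqP (subP (varP N1) (VP K n u d G N (n + 1))))))
          (pev (ext X) (varP N1)) (ext X) =
        ∫⁻ X : Fin (N1 + 1) → ℝ, (fun X : ℕ → ℝ => g (E X + (pev X (EP K n u d G N (n + 1)) +
        K * (X N1 - pev X (VP K n u d G N (n + 1))) ^ 2)) (X N1) X) (ext X) := by
      refine lintegral_congr fun X => ?_
      simp only [pev_append, pev_mulS, pev_natP, pev_sqP, pev_subP, pev_varP]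
    rw [hs1, lint_split N1 1 _ hF]
    have hs2 : ∀ x : Fin N1 → ℝ, ∫⁻ y : Fin 1 → ℝ,
        (fun X : ℕ → ℝ => g (E X + (pev X (EP K n u d G N (n + 1)) +
        K * (X N1 - pev X (VP K n u d G N (n + 1))) ^ 2)) (X N1) X) (glue N1 (ext x) (ext y)) =
        JL K [1] (fun t v => g t v (ext x)) (E (ext x) + pev (ext x) (EP K n u d G N (n + 1)))
          (pev (ext x) (VP K n u d G N (n + 1))) := by
      intro x
      have h1 : ∀ y : Fin 1 → ℝ, (fun X : ℕ → ℝ => g (E X + (pev X (EP K n u d G N (n + 1)) +
        K * (X N1 - pev X (VP K n u d G N (n + 1))) ^ 2)) (X N1) X) (glue N1 (ext x) (ext y)) =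
        (fun z : ℝ => g (E (ext x) + (pev (ext x) (EP K n u d G N (n + 1)) +
        K * (z - pev (ext x) (VP K n u d G N (n + 1))) ^ 2)) z (ext x)) (y 0) := by
        intro y
        have g0 : glue N1 (ext x) (ext y) N1 = y 0 := by simp [glue, ext]
        have g1 : pev (glue N1 (ext x) (ext y)) (EP K n u d G N (n + 1)) =
          pev (ext x) (EP K n u d G N (n + 1)) := (dep_pev hE1).glue (ext x) (ext y)
        have g2 : pev (glue N1 (ext x) (ext y)) (VP K n u d G N (n + 1)) =
          pev (ext x) (VP K n u d G N (n + 1)) := (dep_pev hV1).glue (ext x) (ext y)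
        have g3 : E (glue N1 (ext x) (ext y)) = E (ext x) :=
          (hEd.mono hNN1).glue (ext x) (ext y)
        have g4 : ∀ t v, g t v (glue N1 (ext x) (ext y)) = g t v (ext x) := fun t v =>
          ((hgd t v).mono hNN1).glue (ext x) (ext y)
        simp only [g0, g1, g2, g3, g4]
      have hm : Measurable fun z : ℝ => g (E (ext x) + (pev (ext x) (EP K n u d G N (n + 1)) +
        K * (z - pev (ext x) (VP K n u d G N (n + 1))) ^ 2)) z (ext x) := by
        have h2 : Measurable fun z : ℝ => (E (ext x) + (pev (ext x) (EP K n u d G N (n + 1)) +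
          K * (z - pev (ext x) (VP K n u d G N (n + 1))) ^ 2), z, ext x) := by
          refine Measurable.prodMk ?_ (measurable_id.prodMk measurable_const)
          exact ((((measurable_id.sub_const _).pow_const 2).const_mul _).const_add _).const_add _
        exact hg.comp h2
      rw [lintegral_congr h1, lint_fin1 _ hm,
        ← lintegral_add_left_eq_self _ (pev (ext x) (VP K n u d G N (n + 1)))]
      change _ = ∫⁻ z : ℝ, g (E (ext x) + pev (ext x) (EP K n u d G N (n + 1)) + K * z ^ 2)
        (pev (ext x) (VP K n u d G N (n + 1)) + 1 * z) (ext x)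
      refine lintegral_congr fun z => ?_
      rw [add_sub_cancel_left, one_mul, add_assoc]
    rw [lintegral_congr hs2]
    have hs3 := hI (fun t v X => JL K [1] (fun t v => g t v X) t v) E (by
        have h := hJ.1 K (ℕ → ℝ) [fun _ => 1] (fun X t v => g t v X) (by
          intro a ha
          rw [List.mem_singleton] at ha
          subst ha
          exact measurable_const) (by
          exact hg.comp ((measurable_fst.comp measurable_snd).prodMk
            ((measurable_snd.comp measurable_snd).prodMk measurable_fst)))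
        have h2 : Measurable fun p : ℝ × ℝ × (ℕ → ℝ) => (p.2.2, p.1, p.2.1) :=
          (measurable_snd.comp measurable_snd).prodMk
            (measurable_fst.prodMk (measurable_fst.comp measurable_snd))
        exact h.comp h2) (by
        intro t v X Y hXY
        have h3 : (fun t v => g t v X) = fun t v => g t v Y := by
          funext t v
          exact hgd t v X Y hXY
        change JL K [1] (fun t v => g t v X) t v = JL K [1] (fun t v => g t v Y) t v
        rw [h3]) hE hEd
    refine hs3.trans (lintegral_congr fun x => ?_)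
    have h1 : ((cof n (d + 1)).map fun a => a (ext x)) = LC n d (n + 1) (ext x) ++ [1] := by
      change (((List.range (n + 1)).flatMap fun j => (cof n d).map
        fun (a : (ℕ → ℝ) → ℝ) (Y : ℕ → ℝ) => Y j * a Y) ++ [fun _ => 1]).map
          (fun a : (ℕ → ℝ) → ℝ => a (ext x)) = _
      rw [List.map_append, List.map_flatMap]
      unfold LC
      congr 1
      congr 1
      funext j
      exact map_cof n d j (ext x)
    have h2 : WV u G (n + 1) (ext x) = pev (ext x) u * wev (ext x) G := by
      rw [wev_split hG (ext x)]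
      unfold WV
      rw [Finset.mul_sum]
      exact Finset.sum_congr rfl fun j _ => by ring
    rw [h1, hJ.2.1, h2]

end Pool.Agent.H652.PV
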