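import Pool.Agent.H652.PV.Qdefs

/-!
# Quartics: values, degrees, integer coefficients (statement Q7), by helper603
-/

set_option autoImplicit false
set_option synthInstance.maxSize 2000

namespace Pool.Agent.H652.PV

open Pool.Agent.TH960.PE MeasureTheory

namespace QVal

/-! ### Words -/

theorem dg_le {d : ℕ} (F : Poly) (h : dg F ≤ d) : ∀ m ∈ F, (idx m.2).length ≤ d := by
  induction F with
  | nil => intro m hm; exact absurd hm List.not_mem_nil
  | cons a F ih =>
    have h1 : dg (a :: F) = max (idx a.2).length (dg F) := rfl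
    rw [h1] at h
    intro m hm
    rcases List.mem_cons.1 hm with e | e
    · rw [e]; exact (le_max_left _ _).trans h
    · exact ih ((le_max_right _ _).trans h) m e

theorem isPoly_tail {n : ℕ} {a : Mono} {F : Poly} (h : IsPoly n (a :: F)) : IsPoly n F :=
  fun m hm => h m (List.mem_cons_of_mem _ hm)

theorem wev_cons (Y : ℕ → ℝ) (m : Mono) (G : Poly) :
    wev Y (m :: G) = cv m.1 * (m.2.map Y).prod + wev Y G := by
  simp only [wev, List.map_cons, List.sum_cons]

theorem pev_cons' (Y : ℕ → ℝ) (m : Mono) (G : Poly) :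
    pev Y (m :: G) = cv m.1 * mev Y m.2 + pev Y G := by
  simp only [pev, List.map_cons, List.sum_cons]

theorem hom_cons (n d : ℕ) (m : Mono) (F : Poly) :
    hom n d (m :: F) = (m.1, idx m.2 ++ List.replicate (d - (idx m.2).length) n) :: hom n d F := by
  simp only [hom, List.map_cons]

theorem prod_div (Y : ℕ → ℝ) (y : ℝ) (hy : y ≠ 0) (l : List ℕ) :
    y ^ l.length * (l.map fun i => Y i / y).prod = (l.map Y).prod := by
  induction l with
  | nil => simp
  | cons a l ih =>
    simp only [List.length_cons, List.map_cons, List.prod_cons]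
    rw [← ih, pow_succ]
    field_simp

theorem val_word (n d : ℕ) (Y : ℕ → ℝ) (hY : Y n ≠ 0) (e : List ℕ) (h : (idx e).length ≤ d) :
    ((idx e ++ List.replicate (d - (idx e).length) n).map Y).prod =
      Y n ^ d * mev (fun i => Y i / Y n) e := by
  rw [SCode.mev_idx, List.map_append, List.prod_append, List.map_replicate, List.prod_replicate,
    ← prod_div Y (Y n) hY (idx e)]
  obtain ⟨k, hk⟩ : ∃ k, d = (idx e).length + k := ⟨d - (idx e).length, by omega⟩
  rw [hk, Nat.add_sub_cancel_left, pow_add]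
  ring

theorem mem_hom (n d : ℕ) (F : Poly) (hF : IsPoly n F) (hd : dg F ≤ d) :
    ∀ m ∈ hom n d F, m.2.length = d ∧ ∀ j ∈ m.2, j ≤ n := by
  intro m hm
  obtain ⟨a, ha, rfl⟩ := List.mem_map.1 hm
  have h1 := dg_le F hd a ha
  refine ⟨?_, ?_⟩
  · simp only [List.length_append, List.length_replicate]
    omega
  · intro j hj
    rcases List.mem_append.1 hj with h | h
    · exact (SCode.mem_idx h).le.trans (hF a ha)
    · rw [List.eq_of_mem_replicate h]

theorem abs_prod (Y : ℕ → ℝ) (l : List ℕ) (h : ∀ j ∈ l, |Y j| ≤ 2) :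
    |(l.map Y).prod| ≤ 2 ^ l.length := by
  induction l with
  | nil => simp
  | cons a l ih =>
    simp only [List.length_cons, List.map_cons, List.prod_cons]
    rw [abs_mul, pow_succ, mul_comm]
    exact mul_le_mul (ih fun j hj => h j (List.mem_cons_of_mem _ hj)) (h a List.mem_cons_self)
      (abs_nonneg _) (by positivity)

theorem abs_cv (c : Coef) : |cv c| ≤ (c.1 : ℝ) + c.2.1 := by
  unfold cv
  have h1 : (0 : ℝ) < (c.2.2 : ℝ) + 1 := by positivity
  have h2 : (0 : ℝ) ≤ (c.2.2 : ℝ) := Nat.cast_nonneg _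
  have h3 : (0 : ℝ) ≤ (c.1 : ℝ) := Nat.cast_nonneg _
  have h4 : (0 : ℝ) ≤ (c.2.1 : ℝ) := Nat.cast_nonneg _
  rw [abs_div, abs_of_pos h1, div_le_iff₀ h1]
  have h5 : |(c.1 : ℝ) - c.2.1| ≤ (c.1 : ℝ) + c.2.1 := by
    rw [abs_le]
    constructor <;> linarith
  nlinarith

/-! ### Degrees -/

theorem deg_flatMap {d : ℕ} (L : List ℕ) (f : ℕ → Poly) (h : ∀ j ∈ L, Deg d (f j)) :
    Deg d (L.flatMap f) := by
  intro m hm
  obtain ⟨j, hj, hm'⟩ := List.mem_flatMap.1 hm
  exact h j hj m hm'

theorem deg_tree (K n : ℕ) {u : Poly} (hu : Deg 1 u) (d : ℕ) : ∀ (G : Poly) (N : ℕ),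
    Deg 4 (tree K n u d G N).1 ∧ Deg 1 (tree K n u d G N).2 := by
  induction d with
  | zero =>
    intro G N
    refine ⟨SCode.deg_nil 4, ?_⟩
    have h1 : Deg 0 (G.map fun m => ((m.1, []) : Mono)) := by
      intro m hm
      obtain ⟨a, _, rfl⟩ := List.mem_map.1 hm
      simp
    exact SCode.deg_mulS hu h1
  | succ d ih =>
    intro G N
    simp only [tree]
    refine ⟨SCode.deg_append ?_ ?_, SCode.deg_varP _⟩
    · exact deg_flatMap _ _ fun j _ => (ih _ _).1
    · refine SCode.deg_mono (by norm_num) (SCode.deg_mulS (SCode.deg_natP K) (SCode.deg_sqP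
        (SCode.deg_subP (SCode.deg_mono (by norm_num) (SCode.deg_varP _) : Deg 2 _) ?_)))
      exact deg_flatMap _ _ fun j _ => SCode.deg_mulS (SCode.deg_varP j) (ih _ _).2

theorem deg_quarB (n K : ℕ) : Deg 4 (quarB n K) := by
  unfold quarB
  refine SCode.deg_append ?_ (SCode.deg_append ?_ (SCode.deg_append ?_ ?_))
  · exact SCode.deg_sqP (SCode.deg_oneP (deg_flatMap _ _ fun j _ => SCode.deg_sqP (SCode.deg_varP j)))
  · exact deg_flatMap _ _ fun j _ =>
      SCode.deg_sqP (SCode.deg_mulS (SCode.deg_varP _) (SCode.deg_varP _))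
  · exact SCode.deg_sqP (SCode.deg_mulS (SCode.deg_varP _) (SCode.deg_varP _))
  · exact SCode.deg_mono (by norm_num) (SCode.deg_mulS (SCode.deg_natP K) (SCode.deg_sqP
      (SCode.deg_subP (SCode.deg_mono (by norm_num) (SCode.deg_varP _) : Deg 2 _)
        (SCode.deg_append (SCode.deg_sqP (SCode.deg_varP _)) (SCode.deg_sqP (SCode.deg_varP _))))))

theorem deg_quar (n d K : ℕ) (F : Poly) : Deg 4 (quar n d K F).2 := by
  obtain ⟨h1, h2⟩ := deg_tree K n (SCode.deg_varP (2 * n + 2)) d (hom n d F) (2 * n + 6)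
  refine SCode.deg_oneP (SCode.deg_mono (by norm_num) (SCode.deg_mulS (SCode.deg_natP 4)
    (SCode.deg_append (deg_quarB n K) (SCode.deg_append h1 ?_))))
  exact SCode.deg_mono (by norm_num) (SCode.deg_sqP (SCode.deg_oneP h2))

/-! ### Integer coefficients -/

theorem isInt_flatMap (L : List ℕ) (f : ℕ → Poly) (h : ∀ j ∈ L, IsInt (f j)) :
    IsInt (L.flatMap f) := by
  intro m hm
  obtain ⟨j, hj, hm'⟩ := List.mem_flatMap.1 hm
  exact h j hj m hm'

theorem isInt_tl (j : ℕ) {G : Poly} (hG : IsInt G) : IsInt (tl j G) := by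
  intro m hm
  obtain ⟨a, ha, hm'⟩ := List.mem_flatMap.1 hm
  split_ifs at hm' with h
  · rw [List.mem_singleton] at hm'
    rw [hm']
    exact hG a ha
  · exact absurd hm' List.not_mem_nil

theorem isInt_tree (K n : ℕ) {u : Poly} (hu : IsInt u) (d : ℕ) : ∀ (G : Poly) (N : ℕ), IsInt G →
    IsInt (tree K n u d G N).1 ∧ IsInt (tree K n u d G N).2 := by
  induction d with
  | zero =>
    intro G N hG
    refine ⟨SCode.isInt_nil, ?_⟩
    have h1 : IsInt (G.map fun m => ((m.1, []) : Mono)) := by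
      intro m hm
      obtain ⟨a, ha, rfl⟩ := List.mem_map.1 hm
      exact hG a ha
    exact isInt_mulS hu h1
  | succ d ih =>
    intro G N hG
    simp only [tree]
    refine ⟨isInt_append ?_ ?_, isInt_varP _⟩
    · exact isInt_flatMap _ _ fun j _ => (ih _ _ (isInt_tl j hG)).1
    · refine isInt_mulS (isInt_natP K) (isInt_sqP (isInt_subP (isInt_varP _) ?_))
      exact isInt_flatMap _ _ fun j _ => isInt_mulS (isInt_varP j) (ih _ _ (isInt_tl j hG)).2

theorem isInt_quarB (n K : ℕ) : IsInt (quarB n K) := by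
  unfold quarB
  refine isInt_append ?_ (isInt_append ?_ (isInt_append ?_ ?_))
  · exact isInt_sqP (SCode.isInt_oneP (isInt_flatMap _ _ fun j _ => isInt_sqP (isInt_varP j)))
  · exact isInt_flatMap _ _ fun j _ => isInt_sqP (isInt_mulS (isInt_varP _) (isInt_varP _))
  · exact isInt_sqP (isInt_mulS (isInt_varP _) (isInt_varP _))
  · exact isInt_mulS (isInt_natP K) (isInt_sqP (isInt_subP (isInt_varP _)
      (isInt_append (isInt_sqP (isInt_varP _)) (isInt_sqP (isInt_varP _)))))

theorem isInt_hom (n d : ℕ) {F : Poly} (hF : IsInt F) : IsInt (hom n d F) := by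
  intro m hm
  obtain ⟨a, ha, rfl⟩ := List.mem_map.1 hm
  exact hF a ha

theorem isInt_quar (n d K : ℕ) {F : Poly} (hF : IsInt F) : IsInt (quar n d K F).2 := by
  obtain ⟨h1, h2⟩ := isInt_tree K n (isInt_varP (2 * n + 2)) d (hom n d F) (2 * n + 6)
    (isInt_hom n d hF)
  exact SCode.isInt_oneP (isInt_mulS (isInt_natP 4)
    (isInt_append (isInt_quarB n K) (isInt_append h1 (isInt_sqP (SCode.isInt_oneP h2)))))

end QVal

theorem t_qval : S_qval := by
  refine ⟨?_, ?_, QVal.mem_hom, QVal.deg_quar, fun n d K F hF => QVal.isInt_quar n d K hF⟩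
  · intro n d F Y hF hd hY
    induction F with
    | nil => simp [wev, hom, pev]
    | cons m F ih =>
      have hd' : dg F ≤ d := (le_max_right _ _).trans hd
      rw [QVal.hom_cons, QVal.wev_cons, QVal.pev_cons', ih (QVal.isPoly_tail hF) hd',
        QVal.val_word n d Y hY m.2 (QVal.dg_le _ hd m List.mem_cons_self)]
      ring
  · intro n d F Y hF hd hY
    induction F with
    | nil => simp [wev, hom, asum]
    | cons m F ih =>
      have hd' : dg F ≤ d := (le_max_right _ _).trans hd
      have h1 := ih (QVal.isPoly_tail hF) hd'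
      have h2 := QVal.mem_hom n d (m :: F) hF hd
      rw [QVal.hom_cons] at h2 ⊢
      obtain ⟨h3, h4⟩ := h2 _ List.mem_cons_self
      rw [QVal.wev_cons]
      have h5 : asum (m :: F) = m.1.1 + m.1.2.1 + asum F := rfl
      rw [h5]
      refine (abs_add_le _ _).trans ?_
      rw [abs_mul]
      have h6 := QVal.abs_prod Y (idx m.2 ++ List.replicate (d - (idx m.2).length) n)
        (fun j hj => hY j (h4 j hj))
      rw [h3] at h6
      have h7 := mul_le_mul (QVal.abs_cv m.1) h6 (abs_nonneg _) (by positivity)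
      push_cast
      linarith

end Pool.Agent.H652.PV
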