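import Pool.Agent.H652.PV.Main4
import Pool.Agent.H652.PV.QJl
import Pool.Agent.H652.PV.QRot
import Pool.Agent.H652.PV.QTree
import Pool.Agent.H652.PV.QInn
import Pool.Agent.H652.PV.QCst
import Pool.Agent.H652.PV.QBase
import Pool.Agent.H652.PV.QVal
import Pool.Agent.H652.PV.QPrim

/-!
# Quartics: conclusion
-/

set_option autoImplicit false
set_option synthInstance.maxSize 2000

namespace Pool.Agent.H652.PV

open Pool.Agent.TH960.PE MeasureTheory

theorem decidable_of_volumes4 (h : EqualVolumes4) : AlgDecidable (fun a b => a = b) :=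
  decidable_of_volumes (volumes_of_volumes4 t_jl t_rot (t_tree t_jl) (t_inn t_jl) (t_cst t_jl)
    t_base t_qval t_qprim h)

theorem volumes4_of_decidable (h : AlgDecidable (fun a b => a = b)) : EqualVolumes4 :=
  volumes4_of_volumes (volumes_of_decidable h)

theorem normal_form4 : ∃ R : Code → ℕ × Poly × Poly × Poly, Primrec R ∧
    ∀ c, Adm c → Fine4 (R c).1 (R c).2.1 ∧ Fine4 (R c).1 (R c).2.2.1 ∧
      Fine4 (R c).1 (R c).2.2.2 ∧ volume (reg (R c).1 (R c).2.2.2) ≠ 0 ∧
        val c = ((volume (reg (R c).1 (R c).2.1)).toReal -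
          (volume (reg (R c).1 (R c).2.2.1)).toReal) /
            (volume (reg (R c).1 (R c).2.2.2)).toReal :=
  normal_quartics t_jl t_rot (t_tree t_jl) (t_inn t_jl) (t_cst t_jl) t_base t_qval t_qprim

end Pool.Agent.H652.PV
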