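import Pool.Agent.H652.PV.Stm

/-!
# Computability of the operations with polynomials
-/

set_option autoImplicit false
set_option synthInstance.maxSize 2000

namespace Pool.Agent.H652.PV

open Pool.Agent.TH960.PE

namespace PrimT

variable {α : Type*} [Primcodable α]

lemma cmul_p {f g : α → Coef} (hf : Primrec f) (hg : Primrec g) :
    Primrec fun a => cmul (f a) (g a) := by
  have f1 : Primrec fun a => (f a).1 := Primrec.fst.comp hf
  have f2 : Primrec fun a => (f a).2.1 := Primrec.fst.comp (Primrec.snd.comp hf)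
  have f3 : Primrec fun a => (f a).2.2 := Primrec.snd.comp (Primrec.snd.comp hf)
  have g1 : Primrec fun a => (g a).1 := Primrec.fst.comp hg
  have g2 : Primrec fun a => (g a).2.1 := Primrec.fst.comp (Primrec.snd.comp hg)
  have g3 : Primrec fun a => (g a).2.2 := Primrec.snd.comp (Primrec.snd.comp hg)
  exact Primrec.pair
    (Primrec.nat_add.comp (Primrec.nat_mul.comp f1 g1) (Primrec.nat_mul.comp f2 g2))
    (Primrec.pair
      (Primrec.nat_add.comp (Primrec.nat_mul.comp f1 g2) (Primrec.nat_mul.comp f2 g1))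
      (Primrec.nat_add.comp (Primrec.nat_add.comp (Primrec.nat_mul.comp f3 g3) f3) g3))

lemma ladd_p {f g : α → List ℕ} (hf : Primrec f) (hg : Primrec g) :
    Primrec fun a => ladd (f a) (g a) := by
  have h1 : Primrec fun a => List.range (max (f a).length (g a).length) :=
    Primrec.list_range.comp
      (Primrec.nat_max.comp (Primrec.list_length.comp hf) (Primrec.list_length.comp hg))
  have hg1 : ∀ {β : Type _} [Primcodable β] {u : β → List ℕ} {v : β → ℕ}, Primrec u → Primrec v →
      Primrec fun b => (u b).getD (v b) 0 := by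
    intro β _ u v hu hv
    exact (Primrec.list_getD 0).comp hu hv
  have h2 : Primrec₂ fun (a : α) (i : ℕ) => (f a).getD i 0 + (g a).getD i 0 := by
    have h3 : Primrec fun p : α × ℕ => (f p.1).getD p.2 0 + (g p.1).getD p.2 0 :=
      Primrec.nat_add.comp (hg1 (hf.comp Primrec.fst) Primrec.snd)
        (hg1 (hg.comp Primrec.fst) Primrec.snd)
    exact h3.to₂
  exact Primrec.list_map h1 h2

lemma mulM_p {f g : α → Mono} (hf : Primrec f) (hg : Primrec g) :
    Primrec fun a => mulM (f a) (g a) :=
  Primrec.pair (cmul_p (Primrec.fst.comp hf) (Primrec.fst.comp hg))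
    (ladd_p (Primrec.snd.comp hf) (Primrec.snd.comp hg))

lemma mulS_p {f g : α → Poly} (hf : Primrec f) (hg : Primrec g) :
    Primrec fun a => mulS (f a) (g a) := by
  have h1 : Primrec₂ fun (p : α × Mono) (b : Mono) => mulM p.2 b := by
    have : Primrec fun q : (α × Mono) × Mono => mulM q.1.2 q.2 :=
      mulM_p (Primrec.snd.comp Primrec.fst) Primrec.snd
    exact this.to₂
  have h2 : Primrec₂ fun (a : α) (m : Mono) => (g a).map fun b => mulM m b := by
    have : Primrec fun p : α × Mono => (g p.1).map fun b => mulM p.2 b :=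
      Primrec.list_map (hg.comp Primrec.fst) h1
    exact this.to₂
  exact Primrec.list_flatMap hf h2

lemma negP_p {f : α → Poly} (hf : Primrec f) : Primrec fun a => negP (f a) := by
  have h1 : Primrec fun m : Mono => (((m.1.2.1, m.1.1, m.1.2.2), m.2) : Mono) :=
    Primrec.pair (Primrec.pair (Primrec.fst.comp (Primrec.snd.comp Primrec.fst))
      (Primrec.pair (Primrec.fst.comp Primrec.fst)
        (Primrec.snd.comp (Primrec.snd.comp Primrec.fst)))) Primrec.snd
  have h2 : Primrec₂ fun (_ : α) (m : Mono) => (((m.1.2.1, m.1.1, m.1.2.2), m.2) : Mono) :=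
    h1.comp₂ Primrec₂.right
  exact Primrec.list_map hf h2

lemma subP_p {f g : α → Poly} (hf : Primrec f) (hg : Primrec g) :
    Primrec fun a => subP (f a) (g a) :=
  Primrec.list_append.comp hf (negP_p hg)

lemma sqP_p {f : α → Poly} (hf : Primrec f) : Primrec fun a => sqP (f a) :=
  mulS_p hf hf

lemma replicate_p : Primrec fun n : ℕ => List.replicate n 0 := by
  have h : (fun n : ℕ => List.replicate n 0) = fun n : ℕ => (List.range n).map fun _ => 0 := by
    funext n
    simp [List.map_const']
  rw [h]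
  have h2 : Primrec₂ fun (_ : ℕ) (_ : ℕ) => (0 : ℕ) := (Primrec.const 0).to₂
  exact Primrec.list_map Primrec.list_range h2

lemma varP_p {f : α → ℕ} (hf : Primrec f) : Primrec fun a => varP (f a) := by
  have h1 : Primrec fun a => List.replicate (f a) 0 ++ [1] :=
    Primrec.list_append.comp (replicate_p.comp hf) (Primrec.const [1])
  have h2 : Primrec fun a => (((1, 0, 0), List.replicate (f a) 0 ++ [1]) : Mono) :=
    Primrec.pair (Primrec.const ((1, 0, 0) : Coef)) h1
  exact Primrec.list_cons.comp h2 (Primrec.const ([] : Poly))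

lemma gadP_p {n : α → ℕ} {f g : α → Poly} (hn : Primrec n) (hf : Primrec f) (hg : Primrec g) :
    Primrec fun a => gadP (n a) (f a) (g a) := by
  have v0 : Primrec fun a => varP (n a) := varP_p hn
  have v1 : Primrec fun a => varP (n a + 1) :=
    varP_p (Primrec.nat_add.comp hn (Primrec.const 1))
  have v2 : Primrec fun a => varP (n a + 2) :=
    varP_p (Primrec.nat_add.comp hn (Primrec.const 2))
  have s0 : Primrec fun a => subP (f a) (sqP (varP (n a))) := subP_p hf (sqP_p v0)
  have s1 : Primrec fun a => subP (g a) (sqP (varP (n a + 1))) := subP_p hg (sqP_p v1)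
  have ab : Primrec fun a => sqP (mulS (f a) (g a)) := sqP_p (mulS_p hf hg)
  have t1 : Primrec fun a => sqP (mulS (varP (n a)) (subP (f a) (sqP (varP (n a))))) :=
    sqP_p (mulS_p v0 s0)
  have t2 : Primrec fun a => sqP (mulS (varP (n a + 1)) (subP (g a) (sqP (varP (n a + 1))))) :=
    sqP_p (mulS_p v1 s1)
  have t3 : Primrec fun a => subP (subP (sqP (mulS (f a) (g a)))
      (sqP (mulS (subP (f a) (sqP (varP (n a)))) (g a))))
      (sqP (mulS (subP (g a) (sqP (varP (n a + 1)))) (f a))) :=
    subP_p (subP_p ab (sqP_p (mulS_p s0 hg))) (sqP_p (mulS_p s1 hf))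
  have t4 := mulS_p (Primrec.const (α := α) (natP 225)) (mulS_p t1 (mulS_p t2 t3))
  have t5 := mulS_p (Primrec.const (α := α) (natP 64))
    (mulS_p (mulS_p ab (sqP_p ab)) (sqP_p v2))
  exact subP_p t4 t5

lemma fold_p {n : α → ℕ} {f : α → List Poly} (hn : Primrec n) (hf : Primrec f) :
    Primrec fun a => fold (n a) (f a) := by
  have h1 : Primrec fun a => ((n a, natP 1) : ℕ × Poly) :=
    Primrec.pair hn (Primrec.const (natP 1))
  have h2 : Primrec₂ fun (_ : α) (q : (ℕ × Poly) × Poly) =>
      ((q.1.1 + 3, gadP q.1.1 q.1.2 q.2) : ℕ × Poly) := by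
    have h3 : Primrec fun q : (ℕ × Poly) × Poly =>
        ((q.1.1 + 3, gadP q.1.1 q.1.2 q.2) : ℕ × Poly) := by
      have a1 : Primrec fun q : (ℕ × Poly) × Poly => q.1.1 := Primrec.fst.comp Primrec.fst
      have a2 : Primrec fun q : (ℕ × Poly) × Poly => q.1.2 := Primrec.snd.comp Primrec.fst
      have a3 : Primrec fun q : (ℕ × Poly) × Poly => q.2 := Primrec.snd
      exact Primrec.pair (Primrec.nat_add.comp a1 (Primrec.const 3)) (gadP_p a1 a2 a3)
    exact h3.comp₂ Primrec₂.right
  exact Primrec.list_foldl hf h1 h2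

end PrimT

theorem t_prim : S_prim := by
  refine ⟨?_, ?_, ?_, ?_, ?_, ?_⟩
  · exact PrimT.mulS_p Primrec.fst Primrec.snd
  · exact PrimT.subP_p Primrec.fst Primrec.snd
  · exact PrimT.negP_p Primrec.id
  · exact PrimT.varP_p Primrec.id
  · exact PrimT.gadP_p Primrec.fst (Primrec.fst.comp Primrec.snd) (Primrec.snd.comp Primrec.snd)
  · exact PrimT.fold_p Primrec.fst Primrec.snd

end Pool.Agent.H652.PV
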