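import Pool.Agent.H652.PV.Red
import Pool.Agent.H652.PV.PrimT

/-!
# The regions are computable
-/

set_option autoImplicit false
set_option synthInstance.maxSize 2000

namespace Pool.Agent.H652.PV

open Pool.Agent.TH960.PE PrimT

namespace Cmp

variable {α : Type*} [Primcodable α]

lemma shP_p {n : α → ℕ} {f : α → Poly} (hn : Primrec n) (hf : Primrec f) :
    Primrec fun a => shP (n a) (f a) := by
  have h1 : Primrec fun p : α × Mono => ((p.2.1, List.replicate (n p.1) 0 ++ p.2.2) : Mono) :=
    Primrec.pair (Primrec.fst.comp Primrec.snd)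
      (Primrec.list_append.comp (replicate_p.comp (hn.comp Primrec.fst))
        (Primrec.snd.comp Primrec.snd))
  exact Primrec.list_map hf h1.to₂

lemma den_p {f : α → Poly} (hf : Primrec f) : Primrec fun a => den (f a) := by
  have h1 : Primrec fun q : Mono × ℕ => (q.1.1.2.2 + 1) * q.2 :=
    Primrec.nat_mul.comp (Primrec.nat_add.comp
      (Primrec.snd.comp (Primrec.snd.comp (Primrec.fst.comp Primrec.fst))) (Primrec.const 1))
      Primrec.snd
  have h2 : Primrec₂ fun (_ : α) (q : Mono × ℕ) => (q.1.1.2.2 + 1) * q.2 :=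
    h1.comp₂ Primrec₂.right
  exact Primrec.list_foldr hf (Primrec.const 1) h2

lemma clr_p {f : α → Poly} (hf : Primrec f) : Primrec fun a => clr (f a) := by
  have hd : Primrec fun p : α × Mono => den (f p.1) / (p.2.1.2.2 + 1) :=
    Primrec.nat_div.comp (den_p (hf.comp Primrec.fst))
      (Primrec.nat_add.comp (Primrec.snd.comp (Primrec.snd.comp (Primrec.fst.comp Primrec.snd)))
        (Primrec.const 1))
  have h1 : Primrec fun p : α × Mono =>
      (((p.2.1.1 * (den (f p.1) / (p.2.1.2.2 + 1)), p.2.1.2.1 * (den (f p.1) / (p.2.1.2.2 + 1)), 0),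
        p.2.2) : Mono) :=
    Primrec.pair (Primrec.pair
      (Primrec.nat_mul.comp (Primrec.fst.comp (Primrec.fst.comp Primrec.snd)) hd)
      (Primrec.pair (Primrec.nat_mul.comp
        (Primrec.fst.comp (Primrec.snd.comp (Primrec.fst.comp Primrec.snd))) hd)
        (Primrec.const 0))) (Primrec.snd.comp Primrec.snd)
  exact Primrec.list_map hf h1.to₂

lemma isZ_p (hZ : S_zero) {n : α → ℕ} {f : α → Poly} (hn : Primrec n) (hf : Primrec f) :
    Primrec fun a => isZ (n a) (f a) := hZ.2.2.comp (Primrec.pair hn hf)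

lemma zf_p (hZ : S_zero) {n : α → ℕ} {f : α → Bool × Poly} (hn : Primrec n) (hf : Primrec f) :
    Primrec fun a => zf (n a) (f a) := by
  have h1 : Primrec fun a => (f a).1 || ! isZ (n a) (f a).2 :=
    Primrec.or.comp (Primrec.fst.comp hf) (Primrec.not.comp (isZ_p hZ hn (Primrec.snd.comp hf)))
  have h2 := Primrec.cond h1 (Primrec.snd.comp hf) (Primrec.const (natP 1))
  refine h2.of_eq fun a => ?_
  unfold zf
  rcases h : ((f a).1 || ! isZ (n a) (f a).2) with _ | _ <;> simp [h]

lemma dom_p (hZ : S_zero) {n : α → ℕ} {f : α → Dom} (hn : Primrec n) (hf : Primrec f) :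
    Primrec fun a => ((f a).map (zf (n a))).map (shP 1) := by
  have h1 : Primrec fun p : α × (Bool × Poly) => zf (n p.1) p.2 :=
    zf_p hZ (hn.comp Primrec.fst) Primrec.snd
  have h2 : Primrec fun p : α × Poly => shP 1 p.2 := shP_p (Primrec.const 1) Primrec.snd
  exact Primrec.list_map (Primrec.list_map hf h1.to₂) h2.to₂

lemma mapclr_p {f : α → List Poly} (hf : Primrec f) : Primrec fun a => (f a).map clr := by
  have h2 : Primrec fun p : α × Poly => clr p.2 := clr_p Primrec.snd
  exact Primrec.list_map hf h2.to₂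

lemma regP_p (hZ : S_zero) {f : α → Code} (hf : Primrec f) : Primrec fun a => regP (f a) := by
  have hn : Primrec fun a => (f a).1 := Primrec.fst.comp hf
  have hP : Primrec fun a => (f a).2.1 := Primrec.fst.comp (Primrec.snd.comp hf)
  have hQ : Primrec fun a => (f a).2.2.1 :=
    Primrec.fst.comp (Primrec.snd.comp (Primrec.snd.comp hf))
  have hD : Primrec fun a => (f a).2.2.2 :=
    Primrec.snd.comp (Primrec.snd.comp (Primrec.snd.comp hf))
  have q := shP_p (Primrec.const (α := α) 1) hQ
  have p := shP_p (Primrec.const (α := α) 1) hP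
  have v := Primrec.const (α := α) (varP 0)
  exact mapclr_p (Primrec.list_cons.comp v (Primrec.list_cons.comp
    (mulS_p q (subP_p p (mulS_p v q))) (dom_p hZ hn hD)))

lemma regN_p (hZ : S_zero) {f : α → Code} (hf : Primrec f) : Primrec fun a => regN (f a) := by
  have hn : Primrec fun a => (f a).1 := Primrec.fst.comp hf
  have hP : Primrec fun a => (f a).2.1 := Primrec.fst.comp (Primrec.snd.comp hf)
  have hQ : Primrec fun a => (f a).2.2.1 :=
    Primrec.fst.comp (Primrec.snd.comp (Primrec.snd.comp hf))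
  have hD : Primrec fun a => (f a).2.2.2 :=
    Primrec.snd.comp (Primrec.snd.comp (Primrec.snd.comp hf))
  have q := shP_p (Primrec.const (α := α) 1) hQ
  have p := negP_p (shP_p (Primrec.const (α := α) 1) hP)
  have v := Primrec.const (α := α) (varP 0)
  exact mapclr_p (Primrec.list_cons.comp v (Primrec.list_cons.comp
    (mulS_p q (subP_p p (mulS_p v q))) (dom_p hZ hn hD)))

lemma cube_p {n : α → ℕ} (hn : Primrec n) : Primrec fun a => cube (n a) := by
  have h : Primrec fun p : α × ℕ => subP (natP 1) (mulS (natP 4) (sqP (varP p.2))) :=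
    subP_p (Primrec.const _) (mulS_p (Primrec.const _) (sqP_p (varP_p Primrec.snd)))
  exact Primrec.list_map (Primrec.list_range.comp hn) h.to₂

lemma rep_p {n : α → ℕ} (hn : Primrec n) : Primrec fun a => List.replicate (n a) (natP 1) := by
  have h : Primrec fun a => (List.range (n a)).map fun _ => natP 1 :=
    Primrec.list_map (Primrec.list_range.comp hn) (Primrec.const (natP 1)).to₂
  refine h.of_eq fun a => ?_
  simp [List.map_const']

lemma side_p (z : Poly) {m m' o : α → ℕ} {l : α → List Poly} (hm : Primrec m) (hl : Primrec l)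
    (hm' : Primrec m') (ho : Primrec o) : Primrec fun a => side z (m a) (l a) (m' a) (o a) := by
  have h1 : Primrec fun a => (l a).map (shP 1) := by
    have : Primrec fun p : α × Poly => shP 1 p.2 := shP_p (Primrec.const 1) Primrec.snd
    exact Primrec.list_map hl this.to₂
  have h2 : Primrec fun a => (cube (m' a)).map (shP (1 + m a)) := by
    have : Primrec fun p : α × Poly => shP (1 + m p.1) p.2 :=
      shP_p (Primrec.nat_add.comp (Primrec.const 1) (hm.comp Primrec.fst)) Primrec.snd
    exact Primrec.list_map (cube_p hm') this.to₂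
  exact Primrec.list_append.comp (Primrec.list_cons.comp (Primrec.const z) h1)
    (Primrec.list_append.comp h2 (rep_p ho))

lemma comb_p {m₁ m₂ : α → ℕ} {l₁ l₂ : α → List Poly} (h₁ : Primrec m₁) (k₁ : Primrec l₁)
    (h₂ : Primrec m₂) (k₂ : Primrec l₂) : Primrec fun a => comb (m₁ a) (l₁ a) (m₂ a) (l₂ a) := by
  have n : Primrec fun a => 1 + m₁ a + m₂ a :=
    Primrec.nat_add.comp (Primrec.nat_add.comp (Primrec.const 1) h₁) h₂
  have one := Primrec.const (α := α) [natP 1]
  have A : Primrec fun a => fold (1 + m₁ a + m₂ a)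
      (side zpos (m₁ a) (l₁ a) (m₂ a) ((l₂ a).length + m₁ a) ++ [natP 1]) :=
    fold_p n (Primrec.list_append.comp (side_p zpos h₁ k₁ h₂
      (Primrec.nat_add.comp (Primrec.list_length.comp k₂) h₁)) one)
  have B : Primrec fun a => fold (1 + m₁ a + m₂ a)
      (side zneg (m₂ a) (l₂ a) (m₁ a) ((l₁ a).length + m₂ a) ++ [natP 1]) :=
    fold_p n (Primrec.list_append.comp (side_p zneg h₂ k₂ h₁
      (Primrec.nat_add.comp (Primrec.list_length.comp k₁) h₂)) one)
  exact Primrec.pair (Primrec.fst.comp A)
    (negP_p (mulS_p (Primrec.snd.comp A) (Primrec.snd.comp B)))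

end Cmp

end Pool.Agent.H652.PV
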