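import Pool.Agent.H652.PV.Vol

/-!
# Two regions in one
-/

set_option autoImplicit false
set_option synthInstance.maxSize 2000

namespace Pool.Agent.H652.PV

open Pool.Agent.TH960.PE MeasureTheory

/-- `1 - 4 x_i ^ 2`, `i < m`: the cube -/
def cube (m : ℕ) : List Poly :=
  (List.range m).map fun i => subP (natP 1) (mulS (natP 4) (sqP (varP i)))

/-- `x_0 (1 - x_0)` -/
def zpos : Poly := mulS (varP 0) (subP (natP 1) (varP 0))

/-- `- x_0 (1 + x_0)` -/
def zneg : Poly := negP (mulS (varP 0) (natP 1 ++ varP 0))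

/-- The product of an interval in the direction of `x_0`, of the region given by `l` and of a cube, with
some trivial inequalities. -/
def side (z : Poly) (m : ℕ) (l : List Poly) (m' o : ℕ) : List Poly :=
  (z :: l.map (shP 1)) ++ ((cube m').map (shP (1 + m)) ++ List.replicate o (natP 1))

/-- **Two regions in one:** the number of the variables and the polynomial. -/
def comb (m₁ : ℕ) (l₁ : List Poly) (m₂ : ℕ) (l₂ : List Poly) : ℕ × Poly :=
  ((fold (1 + m₁ + m₂) (side zpos m₁ l₁ m₂ (l₂.length + m₁) ++ [natP 1])).1,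
    negP (mulS (fold (1 + m₁ + m₂) (side zpos m₁ l₁ m₂ (l₂.length + m₁) ++ [natP 1])).2
      (fold (1 + m₁ + m₂) (side zneg m₂ l₂ m₁ (l₁.length + m₂) ++ [natP 1])).2))

/-- the volume of the region given by `l` in the space of dimension `m` -/
noncomputable def vol (m : ℕ) (l : List Poly) : ENNReal := ∫⁻ x : Fin m → ℝ, chis l (ext x)

lemma sh_glue (k : ℕ) (X Y : ℕ → ℝ) : sh k (glue k X Y) = Y := by
  funext i
  simp [sh, glue]

lemma chi_shP (k : ℕ) (g : Poly) (X : ℕ → ℝ) : chi (shP k g) X = chi g (sh k X) := by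
  unfold chi
  rw [pev_shP]

lemma chis_shP (k : ℕ) (l : List Poly) (X : ℕ → ℝ) :
    chis (l.map (shP k)) X = chis l (sh k X) := by
  induction l with
  | nil => simp [chis]
  | cons g l ih => rw [List.map_cons, chis_cons, chis_cons, ih, chi_shP]

lemma chis_ones (o : ℕ) (X : ℕ → ℝ) : chis (List.replicate o (natP 1)) X = 1 := by
  induction o with
  | zero => simp [chis]
  | succ o ih =>
    rw [List.replicate_succ, chis_cons, ih]
    unfold chi
    rw [pev_natP]
    simp

lemma isPoly_cube {m : ℕ} : ∀ g ∈ cube m, IsPoly m g := by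
  intro g hg
  obtain ⟨i, hi, rfl⟩ := List.mem_map.1 hg
  have hi' : i < m := List.mem_range.1 hi
  exact isPoly_subP (isPoly_natP _ _) (isPoly_mulS (isPoly_natP _ _) (isPoly_sqP (isPoly_varP hi')))

lemma measurable_vint {m : ℕ} (l : List Poly) : Measurable fun x : Fin m → ℝ => chis l (ext x) :=
  (measurable_chis l).comp (measurable_ext m)

lemma chis_one {l : List Poly} {X : ℕ → ℝ} (h : ∀ g ∈ l, 0 < pev X g) : chis l X = 1 := by
  induction l with
  | nil => simp [chis]
  | cons g l ih =>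
    rw [chis_cons, ih fun g' hg' => h g' (by simp [hg'])]
    unfold chi
    rw [if_pos (h g (by simp)), one_mul]

lemma chis_zero {l : List Poly} {X : ℕ → ℝ} (h : ¬ ∀ g ∈ l, 0 < pev X g) : chis l X = 0 := by
  induction l with
  | nil => exact absurd (by simp) h
  | cons g l ih =>
    rw [chis_cons]
    by_cases h1 : 0 < pev X g
    · rw [ih fun h2 => h fun g' hg' => ?_, mul_zero]
      rcases List.mem_cons.1 hg' with rfl | h3
      · exact h1
      · exact h2 g' h3
    · unfold chi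
      rw [if_neg h1, zero_mul]

lemma vol_eq (m : ℕ) (l : List Poly) :
    vol m l = volume {x : Fin m → ℝ | ∀ g ∈ l, 0 < pev (ext x) g} := by
  classical
  have hm : MeasurableSet {x : Fin m → ℝ | ∀ g ∈ l, 0 < pev (ext x) g} := by
    have : {x : Fin m → ℝ | ∀ g ∈ l, 0 < pev (ext x) g} =
        ⋂ g ∈ l.toFinset, {x : Fin m → ℝ | 0 < pev (ext x) g} := by
      ext x
      simp
    rw [this]
    exact Finset.measurableSet_biInter _ fun g _ =>
      measurableSet_lt measurable_const ((measurable_pev g).comp (measurable_ext m))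
  rw [← lintegral_indicator_one hm, vol]
  refine lintegral_congr fun x => ?_
  by_cases h : ∀ g ∈ l, 0 < pev (ext x) g
  · rw [chis_one h, Set.indicator_of_mem (by exact h)]
    rfl
  · rw [chis_zero h, Set.indicator_of_notMem (by exact h)]

lemma vol_cube (m : ℕ) : vol m (cube m) = 1 := by
  rw [vol_eq]
  have h : {x : Fin m → ℝ | ∀ g ∈ cube m, 0 < pev (ext x) g} =
      Set.pi Set.univ fun _ : Fin m => Set.Ioo (-(1 / 2) : ℝ) (1 / 2) := by
    ext x
    simp only [cube, List.mem_map, List.mem_range, forall_exists_index, and_imp,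
      forall_apply_eq_imp_iff₂, Set.mem_pi, Set.mem_univ, true_implies, Set.mem_Ioo]
    constructor
    · intro h i
      have h1 := h i.1 i.2
      rw [pev_subP, pev_mulS, pev_sqP, pev_varP, pev_natP, pev_natP] at h1
      simp only [ext, i.2, dif_pos, Fin.eta] at h1
      push_cast at h1
      constructor <;> nlinarith
    · intro h i hi
      have h1 := h ⟨i, hi⟩
      rw [pev_subP, pev_mulS, pev_sqP, pev_varP, pev_natP, pev_natP]
      simp only [ext, hi, dif_pos]
      push_cast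
      nlinarith
  rw [h, volume_pi_pi]
  simp
  norm_num

lemma lint_one (f : ℝ → ENNReal) :
    ∫⁻ x : Fin 1 → ℝ, f (ext x 0) = ∫⁻ t : ℝ, f t := by
  have h := (volume_preserving_funUnique (Fin 1) ℝ).lintegral_comp_emb
    (MeasurableEquiv.measurableEmbedding _) f
  rw [← h]
  rfl

/-- the integral over one side -/
lemma lint_side (z : Poly) (I : Set ℝ) (hI : MeasurableSet I)
    (hzI : ∀ X : ℕ → ℝ, 0 < pev X z ↔ X 0 ∈ I) (m : ℕ) (l : List Poly)
    (hl : ∀ g ∈ l, IsPoly m g) (m' o : ℕ) (f : ℝ → ENNReal) (hf : Measurable f) :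
    ∫⁻ x : Fin (1 + m + m') → ℝ, chis (side z m l m' o) (ext x) * f (ext x 0) =
      vol m l * ∫⁻ t in I, f t := by
  classical
  have hmf : Measurable fun X : ℕ → ℝ => f (X 0) := hf.comp (measurable_pi_apply 0)
  have h1 : ∀ X : ℕ → ℝ, chis (side z m l m' o) X * f (X 0) =
      (I.indicator f (X 0) * chis l (sh 1 X)) * chis (cube m') (sh (1 + m) X) := by
    intro X
    rw [side, chis_append, chis_append, chis_cons, chis_shP, chis_shP, chis_ones]
    have h2 : chi z X * f (X 0) = I.indicator f (X 0) := by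
      unfold chi
      simp only [hzI, Set.indicator_apply]
      by_cases h : X 0 ∈ I <;> simp [h]
    rw [← h2]
    ring
  simp only [h1]
  have hsh : ∀ k : ℕ, Measurable (sh k) := fun k => measurable_pi_lambda _ fun i =>
    measurable_pi_apply (i + k)
  have ha : Measurable fun X : ℕ → ℝ => I.indicator f (X 0) * chis l (sh 1 X) :=
    ((hf.indicator hI).comp (measurable_pi_apply 0)).mul ((measurable_chis l).comp (hsh 1))
  have hb : Measurable fun X : ℕ → ℝ => chis (cube m') (sh (1 + m) X) :=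
    (measurable_chis _).comp (hsh _)
  rw [lint_split (1 + m) m' (fun X => (I.indicator f (X 0) * chis l (sh 1 X)) *
    chis (cube m') (sh (1 + m) X)) (ha.mul hb)]
  have hdl : Dep (1 + m) fun X : ℕ → ℝ => I.indicator f (X 0) * chis l (sh 1 X) := by
    intro X Y h
    have h3 : chis l (sh 1 X) = chis l (sh 1 Y) :=
      dep_chis hl _ _ fun i hi => h (i + 1) (by omega)
    show I.indicator f (X 0) * chis l (sh 1 X) = I.indicator f (Y 0) * chis l (sh 1 Y)
    rw [h 0 (by omega), h3]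
  have h4 : ∀ x : Fin (1 + m) → ℝ, ∫⁻ y : Fin m' → ℝ,
      (I.indicator f (glue (1 + m) (ext x) (ext y) 0) * chis l (sh 1 (glue (1 + m) (ext x) (ext y)))) *
        chis (cube m') (sh (1 + m) (glue (1 + m) (ext x) (ext y))) =
      I.indicator f (ext x 0) * chis l (sh 1 (ext x)) := by
    intro x
    have h5 : ∀ y : Fin m' → ℝ,
        I.indicator f (glue (1 + m) (ext x) (ext y) 0) * chis l (sh 1 (glue (1 + m) (ext x) (ext y))) =
        I.indicator f (ext x 0) * chis l (sh 1 (ext x)) := fun y => hdl.glue (ext x) (ext y)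
    simp only [h5, sh_glue]
    rw [lintegral_const_mul _ (measurable_vint _)]
    have := vol_cube m'
    rw [vol] at this
    rw [this, mul_one]
  simp only [h4]
  rw [lint_split 1 m (fun X => I.indicator f (X 0) * chis l (sh 1 X)) ha]
  simp only [sh_glue]
  have h6 : ∀ x : Fin 1 → ℝ, ∫⁻ y : Fin m → ℝ, I.indicator f (glue 1 (ext x) (ext y) 0) * chis l (ext y) =
      I.indicator f (ext x 0) * vol m l := by
    intro x
    have h7 : ∀ y : Fin m → ℝ, glue 1 (ext x) (ext y) 0 = ext x 0 := fun y => rfl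
    simp only [h7]
    rw [lintegral_const_mul _ (measurable_vint _), vol]
  simp only [h6]
  have h9 : Measurable fun x : Fin 1 → ℝ => (ext x : ℕ → ℝ) 0 :=
    Measurable.comp (g := fun X : ℕ → ℝ => X 0) (f := fun x : Fin 1 → ℝ => (ext x : ℕ → ℝ))
      (measurable_pi_apply 0) (measurable_ext 1)
  have h8 : Measurable fun x : Fin 1 → ℝ => I.indicator f (ext x 0) :=
    (hf.indicator hI).comp h9
  rw [lintegral_mul_const _ h8, lint_one fun t => I.indicator f t, lintegral_indicator hI, mul_comm]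

lemma pev_zpos (X : ℕ → ℝ) : 0 < pev X zpos ↔ X 0 ∈ Set.Ioo (0 : ℝ) 1 := by
  rw [zpos, pev_mulS, pev_subP, pev_varP, pev_natP, Set.mem_Ioo]
  push_cast
  constructor
  · intro h
    constructor <;> nlinarith
  · rintro ⟨h1, h2⟩
    exact mul_pos h1 (by linarith)

lemma pev_zneg (X : ℕ → ℝ) : 0 < pev X zneg ↔ X 0 ∈ Set.Ioo (-1 : ℝ) 0 := by
  rw [zneg, pev_negP, pev_mulS, pev_append, pev_varP, pev_natP, Set.mem_Ioo]
  push_cast
  constructor
  · intro h
    constructor <;> nlinarith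
  · rintro ⟨h1, h2⟩
    nlinarith

lemma isPoly_zpos : IsPoly 1 zpos :=
  isPoly_mulS (isPoly_varP (by omega)) (isPoly_subP (isPoly_natP _ _) (isPoly_varP (by omega)))

lemma isPoly_zneg : IsPoly 1 zneg := by
  refine isPoly_negP (isPoly_mulS (isPoly_varP (by omega)) ?_)
  intro m hm
  rcases List.mem_append.1 hm with h | h
  · exact isPoly_natP 1 1 m h
  · exact isPoly_varP (show 0 < 1 by omega) m h

lemma isPoly_shP' {m n : ℕ} (g : Poly) (hg : IsPoly n g) : IsPoly (m + n) (shP m g) :=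
  isPoly_shP m n g hg

lemma isPoly_side {z : Poly} (hz : IsPoly 1 z) {m : ℕ} {l : List Poly}
    (hl : ∀ g ∈ l, IsPoly m g) (m' o : ℕ) : ∀ g ∈ side z m l m' o, IsPoly (1 + m + m') g := by
  intro g hg
  rw [side] at hg
  rcases List.mem_append.1 hg with h | h
  · rcases List.mem_cons.1 h with rfl | h
    · exact isPoly_mono (by omega) hz
    · obtain ⟨g', hg', rfl⟩ := List.mem_map.1 h
      exact isPoly_mono (by omega) (isPoly_shP' g' (hl g' hg'))
  · rcases List.mem_append.1 h with h | h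
    · obtain ⟨g', hg', rfl⟩ := List.mem_map.1 h
      exact isPoly_shP' g' (isPoly_cube g' hg')
    · rw [List.eq_of_mem_replicate h]
      exact isPoly_natP _ _

lemma length_side (z : Poly) (m : ℕ) (l : List Poly) (m' o : ℕ) :
    (side z m l m' o).length = 1 + l.length + m' + o := by
  simp [side, cube]
  ring

lemma fold_fst (L : ℕ) (l : List Poly) : (fold L l).1 = L + 3 * l.length := by
  rw [fold_eq, foldF_fst]

lemma comb_fst (m₁ : ℕ) (l₁ : List Poly) (m₂ : ℕ) (l₂ : List Poly) :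
    (comb m₁ l₁ m₂ l₂).1 = 1 + m₁ + m₂ + 3 * (2 + l₁.length + l₂.length + m₁ + m₂) := by
  rw [comb]
  simp only [fold_fst, List.length_append, length_side, List.length_cons, List.length_nil]
  ring

lemma comb_fst' (m₁ : ℕ) (l₁ : List Poly) (m₂ : ℕ) (l₂ : List Poly) :
    (fold (1 + m₁ + m₂) (side zneg m₂ l₂ m₁ (l₁.length + m₂) ++ [natP 1])).1 =
      (comb m₁ l₁ m₂ l₂).1 := by
  rw [comb_fst]
  simp only [fold_fst, List.length_append, length_side, List.length_cons, List.length_nil]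
  ring

/-- **Integrals over the combined region.** -/
theorem lint_comb (hG : S_gad) (m₁ : ℕ) (l₁ : List Poly) (h₁ : ∀ g ∈ l₁, IsPoly m₁ g) (m₂ : ℕ)
    (l₂ : List Poly) (h₂ : ∀ g ∈ l₂, IsPoly m₂ g) (f : ℝ → ENNReal) (hf : Measurable f) :
    ∫⁻ x : Fin (comb m₁ l₁ m₂ l₂).1 → ℝ, chi (comb m₁ l₁ m₂ l₂).2 (ext x) * f (ext x 0) =
      vol m₁ l₁ * (∫⁻ t in Set.Ioo (0 : ℝ) 1, f t) +
        vol m₂ l₂ * ∫⁻ t in Set.Ioo (-1 : ℝ) 0, f t := by
  classical
  set A := side zpos m₁ l₁ m₂ (l₂.length + m₁) with hA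
  set B := side zneg m₂ l₂ m₁ (l₁.length + m₂) with hB
  have pA : ∀ g ∈ A, IsPoly (1 + m₁ + m₂) g := isPoly_side isPoly_zpos h₁ _ _
  have pB : ∀ g ∈ B, IsPoly (1 + m₁ + m₂) g := by
    have := isPoly_side isPoly_zneg h₂ m₁ (l₁.length + m₂)
    rwa [show 1 + m₂ + m₁ = 1 + m₁ + m₂ by ring] at this
  have pA' : ∀ g ∈ A ++ [natP 1], IsPoly (1 + m₁ + m₂) g := by
    intro g hg
    rcases List.mem_append.1 hg with h | h
    · exact pA g h
    · rw [List.mem_singleton.1 h]
      exact isPoly_natP _ _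
  have pB' : ∀ g ∈ B ++ [natP 1], IsPoly (1 + m₁ + m₂) g := by
    intro g hg
    rcases List.mem_append.1 hg with h | h
    · exact pB g h
    · rw [List.mem_singleton.1 h]
      exact isPoly_natP _ _
  have hmf : Measurable fun X : ℕ → ℝ => f (X 0) := hf.comp (measurable_pi_apply 0)
  have hdf : ∀ N, 0 < N → Dep N fun X : ℕ → ℝ => f (X 0) := by
    intro N hN X Y h
    show f (X 0) = f (Y 0)
    rw [h 0 hN]
  have e1 := lint_fold hG pA' hmf (hdf _ (by omega))
  have e2 := lint_fold hG pB' hmf (hdf _ (by omega))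
  have n1 := fold_ne_zero hG pA
  have n2 := fold_ne_zero hG pB
  have hone : ∀ X : ℕ → ℝ, chis [natP 1] X = 1 := fun X => by
    have := chis_ones 1 X
    simpa using this
  simp only [chis_append, hone, mul_one] at e1 e2
  rw [lint_side zpos _ measurableSet_Ioo pev_zpos m₁ l₁ h₁ m₂ _ f hf] at e1
  have e2' := lint_side zneg _ measurableSet_Ioo pev_zneg m₂ l₂ h₂ m₁
    (l₁.length + m₂) f hf
  rw [show 1 + m₂ + m₁ = 1 + m₁ + m₂ by ring] at e2'
  rw [e2'] at e2
  have key : ∀ (N M K : ℕ) (F G : Poly), N = K → M = K →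
      (∀ᵐ x : Fin N → ℝ, pev (ext x) F ≠ 0) → (∀ᵐ x : Fin M → ℝ, pev (ext x) G ≠ 0) →
      (∀ X : ℕ → ℝ, 0 < pev X F → ¬ 0 < pev X G) →
      ∫⁻ x : Fin K → ℝ, chi (negP (mulS F G)) (ext x) * f (ext x 0) =
        (∫⁻ x : Fin N → ℝ, chi F (ext x) * f (ext x 0)) +
          ∫⁻ x : Fin M → ℝ, chi G (ext x) * f (ext x 0) := by
    rintro N M K F G rfl rfl hF hGG hd
    have hmF : Measurable fun x : Fin M → ℝ => chi F (ext x) * f (ext x 0) :=
      ((measurable_chi F).mul hmf).comp (measurable_ext _)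
    rw [← lintegral_add_left hmF]
    refine lintegral_congr_ae ?_
    filter_upwards [hF, hGG] with x h1 h2
    rw [← add_mul]
    congr 1
    unfold chi
    rw [pev_negP, pev_mulS]
    rcases lt_or_gt_of_ne h1 with h3 | h3 <;> rcases lt_or_gt_of_ne h2 with h4 | h4
    · have : ¬ 0 < -(pev (ext x) F * pev (ext x) G) := by
        have := mul_pos_of_neg_of_neg h3 h4
        linarith
      simp [this, not_lt.2 h3.le, not_lt.2 h4.le]
    · have : 0 < -(pev (ext x) F * pev (ext x) G) := by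
        have := mul_neg_of_neg_of_pos h3 h4
        linarith
      simp [this, not_lt.2 h3.le, h4]
    · have : 0 < -(pev (ext x) F * pev (ext x) G) := by
        have := mul_neg_of_pos_of_neg h3 h4
        linarith
      simp [this, not_lt.2 h4.le, h3]
    · exact absurd h4 (hd _ h3)
  have h3 := key _ _ (comb m₁ l₁ m₂ l₂).1 _ _ rfl (comb_fst' m₁ l₁ m₂ l₂) n1 n2 ?_
  · rw [← e1, ← e2]
    exact h3
  · intro X ha hb
    have z1 := fold_pos ha zpos (by simp [hA, side])
    have z2 := fold_pos hb zneg (by simp [hB, side])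
    rw [pev_zpos] at z1
    rw [pev_zneg] at z2
    exact absurd z1.1 (not_lt.2 z2.2.le)

lemma isPoly_comb (m₁ : ℕ) (l₁ : List Poly) (h₁ : ∀ g ∈ l₁, IsPoly m₁ g) (m₂ : ℕ)
    (l₂ : List Poly) (h₂ : ∀ g ∈ l₂, IsPoly m₂ g) :
    IsPoly (comb m₁ l₁ m₂ l₂).1 (comb m₁ l₁ m₂ l₂).2 := by
  have pA : ∀ g ∈ side zpos m₁ l₁ m₂ (l₂.length + m₁) ++ [natP 1], IsPoly (1 + m₁ + m₂) g := by
    intro g hg
    rcases List.mem_append.1 hg with h | h
    · exact isPoly_side isPoly_zpos h₁ _ _ g h
    · rw [List.mem_singleton.1 h]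
      exact isPoly_natP _ _
  have pB : ∀ g ∈ side zneg m₂ l₂ m₁ (l₁.length + m₂) ++ [natP 1], IsPoly (1 + m₁ + m₂) g := by
    intro g hg
    rcases List.mem_append.1 hg with h | h
    · have := isPoly_side isPoly_zneg h₂ m₁ (l₁.length + m₂) g h
      rwa [show 1 + m₂ + m₁ = 1 + m₁ + m₂ by ring] at this
    · rw [List.mem_singleton.1 h]
      exact isPoly_natP _ _
  have a := isPoly_foldF _ (1 + m₁ + m₂, natP 1) (isPoly_natP _ _) pA
  have b := isPoly_foldF _ (1 + m₁ + m₂, natP 1) (isPoly_natP _ _) pB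
  have hb : (foldF (1 + m₁ + m₂, natP 1) (side zneg m₂ l₂ m₁ (l₁.length + m₂) ++ [natP 1])).1 =
      (comb m₁ l₁ m₂ l₂).1 := comb_fst' m₁ l₁ m₂ l₂
  rw [hb] at b
  exact isPoly_negP (isPoly_mulS a b)

end Pool.Agent.H652.PV
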