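import Pool.Agent.H652.PV.Stm
import Pool.Graph.R_pool_sql_team_seeded_3997aac3.Q225.Hol.Zero

/-!
# The zero test for polynomials given by lists of monomials
-/

set_option autoImplicit false
set_option synthInstance.maxSize 2000

namespace Pool.Agent.H652.PV

open Pool.Agent.TH960.PE MeasureTheory

namespace ZeroT

/-! ### Values -/

theorem mev_range : ∀ (e : List ℕ) (n : ℕ) (X : ℕ → ℝ), e.length ≤ n →
    mev X e = ∏ i ∈ Finset.range n, X i ^ e.getD i 0
  | [], n, X, _ => by simp [mev]
  | a :: e, 0, X, h => by simp at h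
  | a :: e, n + 1, X, h => by
    have h1 : e.length ≤ n := by simpa using h
    rw [Finset.prod_range_succ', mev, mev_range e n _ h1, mul_comm]
    simp

/-- the exponents -/
noncomputable def ex (n : ℕ) (e : List ℕ) : Fin n →₀ ℕ :=
  Finsupp.equivFunOnFinite.symm (fun i => e.getD i 0)

theorem ex_apply (n : ℕ) (e : List ℕ) (i : Fin n) : ex n e i = e.getD i 0 := rfl

/-- the polynomial -/
noncomputable def MP (n : ℕ) (g : Poly) : MvPolynomial (Fin n) ℝ :=
  (g.map fun m => MvPolynomial.monomial (ex n m.2) (cv m.1)).sum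

theorem MP_cons (n : ℕ) (m : Mono) (g : Poly) :
    MP n (m :: g) = MvPolynomial.monomial (ex n m.2) (cv m.1) + MP n g := by
  simp [MP]

theorem mev_ext (n : ℕ) (e : List ℕ) (h : e.length ≤ n) (x : Fin n → ℝ) :
    mev (ext x) e = (ex n e).prod fun i k => x i ^ k := by
  rw [mev_range e n _ h, Finset.prod_range, Finsupp.prod_fintype _ _ (fun i => pow_zero _)]
  refine Finset.prod_congr rfl fun i _ => ?_
  rw [ex_apply]
  have h1 : ext x (i : ℕ) = x i := by
    unfold ext
    rw [dif_pos i.2]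
  rw [h1]

theorem eval_MP (n : ℕ) (x : Fin n → ℝ) : ∀ g : Poly, IsPoly n g →
    MvPolynomial.eval x (MP n g) = pev (ext x) g
  | [], _ => by simp [MP, pev]
  | m :: g, h => by
    rw [MP_cons, map_add, eval_MP n x g (fun a ha => h a (List.mem_cons_of_mem _ ha)), pev_cons,
      MvPolynomial.eval_monomial, mev_ext n m.2 (h m List.mem_cons_self)]

/-! ### Coefficients -/

theorem cv_cadd (a b : Coef) : cv (cadd a b) = cv a + cv b := by
  unfold cv cadd
  have h1 : (a.2.2 : ℝ) + 1 ≠ 0 := by positivity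
  have h2 : (b.2.2 : ℝ) + 1 ≠ 0 := by positivity
  have h3 : ((a.2.2 * b.2.2 + a.2.2 + b.2.2 : ℕ) : ℝ) + 1 =
      ((a.2.2 : ℝ) + 1) * ((b.2.2 : ℝ) + 1) := by push_cast; ring
  rw [h3]
  push_cast
  field_simp
  ring

theorem cv_zero (a : Coef) : cv a = 0 ↔ a.1 = a.2.1 := by
  unfold cv
  have h1 : (a.2.2 : ℝ) + 1 ≠ 0 := by positivity
  rw [div_eq_zero_iff, or_iff_left h1, sub_eq_zero, Nat.cast_inj]

theorem getD_pad (n : ℕ) (e : List ℕ) (i : ℕ) : (pad n e).getD i 0 = e.getD i 0 := by
  unfold pad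
  rcases lt_or_ge i e.length with h | h
  · rw [List.getD_append _ _ _ _ h]
  · rw [List.getD_append_right _ _ _ _ h, List.getD_eq_default _ _ h]
    rcases lt_or_ge (i - e.length) (n - e.length) with h1 | h1
    · rw [List.getD_replicate _ h1]
    · rw [List.getD_eq_default]
      rw [List.length_replicate]
      exact h1

theorem ex_eq_iff (n : ℕ) (e e' : List ℕ) (h : e.length ≤ n) (h' : e'.length ≤ n) :
    ex n e = ex n e' ↔ pad n e = pad n e' := by
  constructor
  · intro h1
    refine List.ext_getElem (by rw [length_pad n e h, length_pad n e' h']) fun i hi hi' => ?_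
    have hin : i < n := by rwa [length_pad n e h] at hi
    have h2 := DFunLike.congr_fun h1 ⟨i, hin⟩
    rw [ex_apply, ex_apply] at h2
    have h3 : (pad n e).getD i 0 = (pad n e').getD i 0 := by
      rw [getD_pad, getD_pad]
      exact h2
    rw [List.getD_eq_getElem _ _ hi, List.getD_eq_getElem _ _ hi'] at h3
    exact h3
  · intro h1
    ext i
    rw [ex_apply, ex_apply, ← getD_pad n e, ← getD_pad n e', h1]

theorem csum_cons (n : ℕ) (m : Mono) (g : Poly) (e : List ℕ) :
    csum n (m :: g) e = if pad n m.2 = e then cadd m.1 (csum n g e) else csum n g e := rfl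

theorem coeff_MP (n : ℕ) (e : List ℕ) (he : e.length ≤ n) : ∀ g : Poly, IsPoly n g →
    MvPolynomial.coeff (ex n e) (MP n g) = cv (csum n g (pad n e))
  | [], _ => by simp [MP, csum, cv]
  | m :: g, h => by
    have hm : m.2.length ≤ n := h m List.mem_cons_self
    rw [MP_cons, MvPolynomial.coeff_add,
      coeff_MP n e he g (fun a ha => h a (List.mem_cons_of_mem _ ha)), csum_cons,
      MvPolynomial.coeff_monomial]
    by_cases h1 : pad n m.2 = pad n e
    · rw [if_pos h1, if_pos ((ex_eq_iff n _ _ hm he).2 h1), cv_cadd]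
    · rw [if_neg h1, if_neg (fun h2 => h1 ((ex_eq_iff n _ _ hm he).1 h2)), zero_add]

theorem coeff_MP_zero (n : ℕ) (d : Fin n →₀ ℕ) : ∀ g : Poly, (∀ m ∈ g, ex n m.2 ≠ d) →
    MvPolynomial.coeff d (MP n g) = 0
  | [], _ => by simp [MP]
  | m :: g, h => by
    rw [MP_cons, MvPolynomial.coeff_add, MvPolynomial.coeff_monomial,
      if_neg (h m List.mem_cons_self),
      coeff_MP_zero n d g (fun a ha => h a (List.mem_cons_of_mem _ ha)), zero_add]

theorem MP_zero (n : ℕ) (g : Poly) (hg : IsPoly n g) (h : isZ n g = true) : MP n g = 0 := by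
  ext d
  rw [MvPolynomial.coeff_zero]
  by_cases h1 : ∃ m ∈ g, ex n m.2 = d
  · obtain ⟨m, hm, rfl⟩ := h1
    rw [coeff_MP n m.2 (hg m hm) g hg, cv_zero]
    unfold isZ at h
    rw [List.all_eq_true] at h
    exact of_decide_eq_true (h m hm)
  · refine coeff_MP_zero n d g fun m hm he => h1 ⟨m, hm, he⟩

theorem MP_ne_zero (n : ℕ) (g : Poly) (hg : IsPoly n g) (h : isZ n g = false) : MP n g ≠ 0 := by
  intro h0
  unfold isZ at h
  rw [List.all_eq_false] at h
  obtain ⟨m, hm, h1⟩ := h
  apply h1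
  have h2 := coeff_MP n m.2 (hg m hm) g hg
  rw [h0, MvPolynomial.coeff_zero] at h2
  exact decide_eq_true ((cv_zero _).1 h2.symm)

/-! ### Computability -/

theorem p_cadd : Primrec₂ cadd := by
  have a1 : Primrec fun p : Coef × Coef => p.1.1 := Primrec.fst.comp Primrec.fst
  have a2 : Primrec fun p : Coef × Coef => p.1.2.1 :=
    Primrec.fst.comp (Primrec.snd.comp Primrec.fst)
  have a3 : Primrec fun p : Coef × Coef => p.1.2.2 :=
    Primrec.snd.comp (Primrec.snd.comp Primrec.fst)
  have b1 : Primrec fun p : Coef × Coef => p.2.1 := Primrec.fst.comp Primrec.snd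
  have b2 : Primrec fun p : Coef × Coef => p.2.2.1 :=
    Primrec.fst.comp (Primrec.snd.comp Primrec.snd)
  have b3 : Primrec fun p : Coef × Coef => p.2.2.2 :=
    Primrec.snd.comp (Primrec.snd.comp Primrec.snd)
  have a3' : Primrec fun p : Coef × Coef => p.1.2.2 + 1 := Primrec.nat_add.comp a3 (Primrec.const 1)
  have b3' : Primrec fun p : Coef × Coef => p.2.2.2 + 1 := Primrec.nat_add.comp b3 (Primrec.const 1)
  have c1 : Primrec fun p : Coef × Coef => p.1.1 * (p.2.2.2 + 1) + p.2.1 * (p.1.2.2 + 1) :=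
    Primrec.nat_add.comp (Primrec.nat_mul.comp a1 b3') (Primrec.nat_mul.comp b1 a3')
  have c2 : Primrec fun p : Coef × Coef => p.1.2.1 * (p.2.2.2 + 1) + p.2.2.1 * (p.1.2.2 + 1) :=
    Primrec.nat_add.comp (Primrec.nat_mul.comp a2 b3') (Primrec.nat_mul.comp b2 a3')
  have c3 : Primrec fun p : Coef × Coef => p.1.2.2 * p.2.2.2 + p.1.2.2 + p.2.2.2 :=
    Primrec.nat_add.comp (Primrec.nat_add.comp (Primrec.nat_mul.comp a3 b3) a3) b3
  exact (c1.pair (c2.pair c3)).to₂

theorem p_rep : Primrec fun k : ℕ => List.replicate k 0 := by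
  have h : Primrec fun k : ℕ => (List.range k).map fun _ => 0 :=
    Primrec.list_map Primrec.list_range (Primrec.const 0).to₂
  refine h.of_eq fun k => ?_
  simp

theorem p_pad : Primrec₂ pad := by
  have h : Primrec fun p : ℕ × List ℕ => p.2 ++ List.replicate (p.1 - p.2.length) 0 :=
    Primrec.list_append.comp Primrec.snd
      (p_rep.comp (Primrec.nat_sub.comp Primrec.fst (Primrec.list_length.comp Primrec.snd)))
  exact h.to₂

theorem p_csum : Primrec fun q : (ℕ × Poly) × List ℕ => csum q.1.1 q.1.2 q.2 := by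
  have h1 : Primrec fun r : ((ℕ × Poly) × List ℕ) × (Mono × Coef) =>
      if pad r.1.1.1 r.2.1.2 = r.1.2 then cadd r.2.1.1 r.2.2 else r.2.2 := by
    refine Primrec.ite ?_ ?_ ?_
    · exact Primrec.eq.comp
        (p_pad.comp (Primrec.fst.comp (Primrec.fst.comp Primrec.fst))
          (Primrec.snd.comp (Primrec.fst.comp Primrec.snd)))
        (Primrec.snd.comp Primrec.fst)
    · exact p_cadd.comp (Primrec.fst.comp (Primrec.fst.comp Primrec.snd))
        (Primrec.snd.comp Primrec.snd)
    · exact Primrec.snd.comp Primrec.snd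
  have h2 : Primrec fun q : (ℕ × Poly) × List ℕ => q.1.2.foldr
      (fun m s => (fun (q : (ℕ × Poly) × List ℕ) (ms : Mono × Coef) =>
        if pad q.1.1 ms.1.2 = q.2 then cadd ms.1.1 ms.2 else ms.2) q (m, s)) (0, 0, 0) :=
    Primrec.list_foldr (Primrec.snd.comp Primrec.fst) (Primrec.const (0, 0, 0)) h1.to₂
  exact h2

theorem all_foldr {α : Type} (f : α → Bool) : ∀ l : List α,
    l.all f = l.foldr (fun a r => f a && r) true
  | [] => rfl
  | a :: l => by rw [List.all_cons, List.foldr_cons, all_foldr f l]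

theorem p_isZ : Primrec fun p : ℕ × Poly => isZ p.1 p.2 := by
  have hc : Primrec fun r : (ℕ × Poly) × (Mono × Bool) =>
      csum r.1.1 r.1.2 (pad r.1.1 r.2.1.2) :=
    p_csum.comp (Primrec.fst.pair (p_pad.comp (Primrec.fst.comp Primrec.fst)
      (Primrec.snd.comp (Primrec.fst.comp Primrec.snd))))
  have h1 : Primrec fun r : (ℕ × Poly) × (Mono × Bool) =>
      (decide ((csum r.1.1 r.1.2 (pad r.1.1 r.2.1.2)).1 =
        (csum r.1.1 r.1.2 (pad r.1.1 r.2.1.2)).2.1) && r.2.2) := by
    refine Primrec.and.comp ?_ (Primrec.snd.comp Primrec.snd)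
    exact Primrec.eq.decide.comp (Primrec.fst.comp hc) (Primrec.fst.comp (Primrec.snd.comp hc))
  have h2 : Primrec fun p : ℕ × Poly => p.2.foldr
      (fun m s => (fun (p : ℕ × Poly) (ms : Mono × Bool) =>
        (decide ((csum p.1 p.2 (pad p.1 ms.1.2)).1 =
        (csum p.1 p.2 (pad p.1 ms.1.2)).2.1) && ms.2)) p (m, s)) true :=
    Primrec.list_foldr Primrec.snd (Primrec.const true) h1.to₂
  refine h2.of_eq fun p => ?_
  unfold isZ
  rw [all_foldr]

end ZeroT

open ZeroT in
theorem t_zero : S_zero := by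
  refine ⟨?_, ?_, p_isZ⟩
  · intro n g hg h X
    have h1 : pev X g = pev (ext (fun i : Fin n => X i)) g := by
      refine pev_congr n g hg _ _ fun i hi => ?_
      unfold ext
      rw [dif_pos hi]
    rw [h1, ← eval_MP n _ g hg, MP_zero n g hg h, map_zero]
  · intro n g hg h
    have h1 := Pool.Agent.Q225.Hol.fin_null n (MP n g) (MP_ne_zero n g hg h)
    have h2 : {x : Fin n → ℝ | pev (ext x) g = 0} =
        {y : Fin n → ℝ | MvPolynomial.eval y (MP n g) = 0} := by
      ext x
      show pev (ext x) g = 0 ↔ MvPolynomial.eval x (MP n g) = 0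
      rw [eval_MP n x g hg]
    rw [h2]
    exact h1

end Pool.Agent.H652.PV
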