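import Pool.Agent.H652.PV.Qdefs
import Pool.Agent.H652.PV.ZeroT

/-!
# Cubics: definitions

For integer polynomials of degree at most three equality of volumes is decidable.
-/

set_option autoImplicit false
set_option synthInstance.maxSize 2000

namespace Pool.Agent.H652.PV

open Pool.Agent.TH960.PE MeasureTheory

/-- the `i`-th entry -/
def ent (ds : List (Coef × Poly)) (i : ℕ) : Coef × Poly := ds.getD i ((0, 0, 0), [])

/-- `F = r - ∑ d_i (x_i + l_i) ^ 2`, `i < n`, with `r > 0`, `d_i > 0` and `l_i` in the variables before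
`x_i` -/
def IsPos (n : ℕ) (F : Poly) (r : Coef) (ds : List (Coef × Poly)) : Prop :=
  ds.length = n ∧ 0 < cv r ∧ (∀ i < n, 0 < cv (ent ds i).1) ∧ (∀ i < n, IsPoly i (ent ds i).2) ∧
    ∀ X : ℕ → ℝ, pev X F =
      cv r - ∑ i ∈ Finset.range n, cv (ent ds i).1 * (X i + pev X (ent ds i).2) ^ 2

/-- `F = e - ∑ d_i l_i ^ 2` with `e ≤ 0`, `d_i ≥ 0` -/
def IsNeg (n : ℕ) (F : Poly) (e : Coef) (ds : List (Coef × Poly)) : Prop :=
  cv e ≤ 0 ∧ (∀ p ∈ ds, 0 ≤ cv p.1 ∧ IsPoly n p.2) ∧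
    ∀ X : ℕ → ℝ, pev X F = cv e - (ds.map fun p => cv p.1 * pev X p.2 ^ 2).sum

/-- the monomials of degree at most two -/
def low (F : Poly) : Poly := F.filter fun m => decide (m.2.sum ≤ 2)

/-- the volume of the unit ball -/
noncomputable def bal (n : ℕ) : ENNReal := volume {x : Fin n → ℝ | ∑ i, x i ^ 2 < 1}

/-- T1: completing squares -/
def S_tri : Prop :=
  ∀ (n : ℕ) (F : Poly), IsPoly n F → Deg 2 F →
    (∃ r ds, IsPos n F r ds) ∨ (∃ e ds, IsNeg n F e ds) ∨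
      ∃ ε : ℝ, 0 < ε ∧ volume {x : Fin n → ℝ | ε < pev (ext x) F} = ⊤

/-- T2: a region of finite volume given by a cubic -/
def S_cub : Prop :=
  ∀ (n : ℕ) (F : Poly), IsPoly n F → Deg 3 F → volume {x : Fin n → ℝ | 0 < pev (ext x) F} ≠ ⊤ →
    ∀ X : ℕ → ℝ, pev X F = pev X (low F)

/-- T3: volumes -/
def S_vol : Prop :=
  (∀ n : ℕ, bal n ≠ 0 ∧ bal n ≠ ⊤) ∧
  (∀ (n : ℕ) (F : Poly) (r : Coef) (ds : List (Coef × Poly)), IsPos n F r ds →
    volume {x : Fin n → ℝ | 0 < pev (ext x) F} =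
      ENNReal.ofReal √(cv r ^ n / ∏ i ∈ Finset.range n, cv (ent ds i).1) * bal n) ∧
  (∀ (n : ℕ) (F : Poly) (e : Coef) (ds : List (Coef × Poly)), IsNeg n F e ds →
    volume {x : Fin n → ℝ | 0 < pev (ext x) F} = 0)

/-- T4: verification of certificates -/
def S_chk : Prop :=
  (∃ c : (ℕ × Poly) × (Coef × List (Coef × Poly)) → Bool, Primrec c ∧
    ∀ n F r ds, IsPoly n F → (c ((n, F), (r, ds)) = true ↔ IsPos n F r ds)) ∧
  (∃ c : (ℕ × Poly) × (Coef × List (Coef × Poly)) → Bool, Primrec c ∧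
    ∀ n F r ds, IsPoly n F → (c ((n, F), (r, ds)) = true ↔ IsNeg n F r ds))

/-- T5: comparison -/
def S_cmp : Prop :=
  ∃ c : ℕ × ((Coef × List (Coef × Poly)) × (Coef × List (Coef × Poly))) → Bool, Primrec c ∧
    ∀ (n : ℕ) (r r' : Coef) (ds ds' : List (Coef × Poly)), 0 < cv r → 0 < cv r' →
      (∀ i < n, 0 < cv (ent ds i).1) → (∀ i < n, 0 < cv (ent ds' i).1) →
      (c (n, ((r, ds), (r', ds'))) = true ↔
        cv r ^ n / ∏ i ∈ Finset.range n, cv (ent ds i).1 =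
          cv r' ^ n / ∏ i ∈ Finset.range n, cv (ent ds' i).1)

end Pool.Agent.H652.PV
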