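import Pool.Agent.H652.PV.Main
import Pool.Agent.H652.PV.Tdefs

/-!
# Equality of volumes is decidable in degree three
-/

set_option autoImplicit false
set_option synthInstance.maxSize 2000

namespace Pool.Agent.H652.PV

open Pool.Agent.TH960.PE MeasureTheory

/-- There is an algorithm which decides, for integer polynomials `F`, `G` of degree at most three such that
`F > 0` and `G > 0` have finite volume, whether these volumes are equal. -/
def EqualVolumes3 : Prop :=
  ∃ f : (ℕ × Poly × Poly) →. Bool, Partrec f ∧ ∀ (n : ℕ) (F G : Poly), Fine n F → Deg 3 F →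
    Fine n G → Deg 3 G →
    ∃ b ∈ f (n, F, G), (b = true ↔ volume (reg n F) = volume (reg n G))

namespace Cub

/-- certificates -/
abbrev Cer := Coef × List (Coef × Poly)

variable (P N : (ℕ × Poly) × Cer → Bool) (C : ℕ × (Cer × Cer) → Bool)

/-- the answer given by a pair of certificates -/
def body (a : ℕ × Poly × Poly) (c : Cer × Cer) : Option Bool :=
  cond (P ((a.1, a.2.1), c.1) && P ((a.1, a.2.2), c.2)) (some (C (a.1, c)))
    (cond ((P ((a.1, a.2.1), c.1) && N ((a.1, a.2.2), c.2)) ||
      (N ((a.1, a.2.1), c.1) && P ((a.1, a.2.2), c.2))) (some false)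
      (cond (N ((a.1, a.2.1), c.1) && N ((a.1, a.2.2), c.2)) (some true) none))

lemma body_p (hP : Primrec P) (hN : Primrec N) (hC : Primrec C) :
    Primrec₂ (body P N C) := by
  have a : Primrec fun p : (ℕ × Poly × Poly) × (Cer × Cer) => (((p.1.1, p.1.2.1), p.2.1) :
      (ℕ × Poly) × Cer) :=
    ((Primrec.fst.comp Primrec.fst).pair (Primrec.fst.comp (Primrec.snd.comp Primrec.fst))).pair
      (Primrec.fst.comp Primrec.snd)
  have b : Primrec fun p : (ℕ × Poly × Poly) × (Cer × Cer) => (((p.1.1, p.1.2.2), p.2.2) :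
      (ℕ × Poly) × Cer) :=
    ((Primrec.fst.comp Primrec.fst).pair (Primrec.snd.comp (Primrec.snd.comp Primrec.fst))).pair
      (Primrec.snd.comp Primrec.snd)
  have c : Primrec fun p : (ℕ × Poly × Poly) × (Cer × Cer) => ((p.1.1, p.2) :
      ℕ × (Cer × Cer)) := (Primrec.fst.comp Primrec.fst).pair Primrec.snd
  have Pa := hP.comp a
  have Pb := hP.comp b
  have Na := hN.comp a
  have Nb := hN.comp b
  exact Primrec.cond (Primrec.and.comp Pa Pb) (Primrec.option_some.comp (hC.comp c))
    (Primrec.cond (Primrec.or.comp (Primrec.and.comp Pa Nb) (Primrec.and.comp Na Pb))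
      (Primrec.const _) (Primrec.cond (Primrec.and.comp Na Nb) (Primrec.const _)
        (Primrec.const _)))

end Cub

open Cub

theorem volumes3 (hT : S_tri) (hU : S_cub) (hV : S_vol) (hK : S_chk) (hC : S_cmp) :
    EqualVolumes3 := by
  classical
  obtain ⟨⟨P, Pp, hP⟩, ⟨N, Np, hN⟩⟩ := hK
  obtain ⟨C, Cp, hC⟩ := hC
  obtain ⟨v0, v1, v2⟩ := hV
  -- existence of certificates
  have ex : ∀ (n : ℕ) (F : Poly), Fine n F → Deg 3 F →
      ∃ c : Cer, P ((n, F), c) = true ∨ N ((n, F), c) = true := by
    intro n F hF hd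
    have hlow := hU n F hF.1 hd hF.2.2
    have h1 : IsPoly n (low F) := fun m hm => hF.1 m (List.mem_of_mem_filter hm)
    have h2 : Deg 2 (low F) := fun m hm => by simpa using (List.mem_filter.1 hm).2
    rcases hT n (low F) h1 h2 with ⟨r, ds, h⟩ | ⟨e, ds, h⟩ | ⟨ε, hε, h⟩
    · refine ⟨(r, ds), Or.inl ((hP n F r ds hF.1).2 ⟨h.1, h.2.1, h.2.2.1, h.2.2.2.1, ?_⟩)⟩
      intro X
      rw [hlow X]
      exact h.2.2.2.2 X
    · refine ⟨(e, ds), Or.inr ((hN n F e ds hF.1).2 ⟨h.1, h.2.1, ?_⟩)⟩
      intro X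
      rw [hlow X]
      exact h.2.2 X
    · exfalso
      refine hF.2.2 (top_le_iff.1 ?_)
      rw [← h]
      refine measure_mono fun x hx => ?_
      change 0 < pev (ext x) F
      rw [hlow]
      exact lt_trans hε hx
  -- volumes
  have volP : ∀ (n : ℕ) (F : Poly) (c : Cer), Fine n F → P ((n, F), c) = true →
      0 < cv c.1 ∧ (∀ i < n, 0 < cv (ent c.2 i).1) ∧
      volume (reg n F) =
        ENNReal.ofReal √(cv c.1 ^ n / ∏ i ∈ Finset.range n, cv (ent c.2 i).1) * bal n := by
    intro n F c hF h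
    have h' := (hP n F c.1 c.2 hF.1).1 h
    exact ⟨h'.2.1, h'.2.2.1, v1 n F c.1 c.2 h'⟩
  have volN : ∀ (n : ℕ) (F : Poly) (c : Cer), Fine n F → N ((n, F), c) = true →
      volume (reg n F) = 0 := fun n F c hF h => v2 n F c.1 c.2 ((hN n F c.1 c.2 hF.1).1 h)
  have qpos : ∀ (n : ℕ) (c : Cer), 0 < cv c.1 → (∀ i < n, 0 < cv (ent c.2 i).1) →
      0 < cv c.1 ^ n / ∏ i ∈ Finset.range n, cv (ent c.2 i).1 := by
    intro n c h1 h2
    exact div_pos (pow_pos h1 n) (Finset.prod_pos fun i hi => h2 i (Finset.mem_range.1 hi))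
  have vpos : ∀ (n : ℕ) (F : Poly) (c : Cer), Fine n F → P ((n, F), c) = true →
      volume (reg n F) ≠ 0 := by
    intro n F c hF h
    obtain ⟨a, b, e⟩ := volP n F c hF h
    rw [e]
    exact mul_ne_zero (ENNReal.ofReal_pos.2 (Real.sqrt_pos.2 (qpos n c a b))).ne' (v0 n).1
  -- correctness
  have cor : ∀ (n : ℕ) (F G : Poly) (c : Cer × Cer) (b : Bool), Fine n F → Fine n G →
      body P N C (n, F, G) c = some b → (b = true ↔ volume (reg n F) = volume (reg n G)) := by
    intro n F G c b hF hG hb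
    unfold body at hb
    simp only at hb
    cases h1 : P ((n, F), c.1) <;> cases h2 : P ((n, G), c.2) <;>
      cases h3 : N ((n, F), c.1) <;> cases h4 : N ((n, G), c.2) <;>
      simp only [h1, h2, h3, h4, Bool.and_true, Bool.and_false, Bool.true_and, Bool.false_and,
        Bool.or_false, Bool.false_or, Bool.or_true, Bool.true_or, Bool.or_self, cond_true,
        cond_false, Option.some.injEq, reduceCtorEq] at hb
    all_goals first
      | (subst hb
         rw [volN n F c.1 hF h3, volN n G c.2 hG h4]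
         simp; done)
      | (subst hb
         rw [volN n F c.1 hF h3]
         simp only [Bool.false_eq_true, false_iff]
         exact (vpos n G c.2 hG h2).symm)
      | (subst hb
         rw [volN n G c.2 hG h4]
         simp only [Bool.false_eq_true, false_iff]
         exact vpos n F c.1 hF h1)
      | (obtain ⟨a1, a2, a3⟩ := volP n F c.1 hF h1
         obtain ⟨b1, b2, b3⟩ := volP n G c.2 hG h2
         have q1 := qpos n c.1 a1 a2
         have q2 := qpos n c.2 b1 b2
         rw [← hb, hC n c.1.1 c.2.1 c.1.2 c.2.2 a1 b1 a2 b2, a3, b3,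
           ENNReal.mul_left_inj (v0 n).1 (v0 n).2,
           ENNReal.ofReal_eq_ofReal_iff (Real.sqrt_nonneg _) (Real.sqrt_nonneg _),
           Real.sqrt_inj q1.le q2.le])
  refine ⟨fun a => Nat.rfindOpt fun k => (Encodable.decode (α := Cer × Cer) k).bind
    (body P N C a), ?_, fun n F G hF dF hG dG => ?_⟩
  · refine Partrec.rfindOpt (Primrec.to_comp ?_)
    have h1 : Primrec fun p : (ℕ × Poly × Poly) × ℕ =>
        (Encodable.decode p.2 : Option (Cer × Cer)) := Primrec.decode.comp Primrec.snd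
    have h2 : Primrec₂ fun (p : (ℕ × Poly × Poly) × ℕ) (c : Cer × Cer) => body P N C p.1 c :=
      (body_p P N C Pp Np Cp).comp (Primrec.fst.comp Primrec.fst) Primrec.snd
    exact Primrec.option_bind h1 h2
  · obtain ⟨c, hc⟩ := ex n F hF dF
    obtain ⟨c', hc'⟩ := ex n G hG dG
    have hdom : ∃ k b, b ∈ (Encodable.decode (α := Cer × Cer) k).bind
        (body P N C (n, F, G)) := by
      refine ⟨Encodable.encode (c, c'), ?_⟩
      rw [Encodable.encodek]
      simp only [Option.bind_some]
      unfold body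
      simp only
      rcases hc with h | h <;> rcases hc' with h' | h' <;> simp only [h, h', Bool.and_true,
        Bool.true_and, Bool.or_true, Bool.true_or]
      · exact ⟨_, rfl⟩
      · cases P ((n, G), c')
        · exact ⟨_, rfl⟩
        · exact ⟨_, rfl⟩
      · cases P ((n, F), c)
        · exact ⟨_, rfl⟩
        · exact ⟨_, rfl⟩
      · cases P ((n, F), c) <;> cases P ((n, G), c') <;> exact ⟨_, rfl⟩
    have hd := Nat.rfindOpt_dom.2 hdom
    refine ⟨(Nat.rfindOpt fun k => (Encodable.decode (α := Cer × Cer) k).bind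
      (body P N C (n, F, G))).get hd, Part.get_mem hd, ?_⟩
    obtain ⟨k, hk⟩ := Nat.rfindOpt_spec (Part.get_mem hd)
    rw [Option.mem_def, Option.bind_eq_some_iff] at hk
    obtain ⟨d, -, hd2⟩ := hk
    exact cor n F G d _ hF hG hd2

end Pool.Agent.H652.PV
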