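import Pool.Graph.R_pool_sql_team_seeded_ab47071d.TH960.PE.Rat

/-!
# Polynomials given by lists of monomials, and the gadget for the conjunction of two inequalities
-/

set_option autoImplicit false
set_option synthInstance.maxSize 2000

namespace Pool.Agent.H652.PV

open Pool.Agent.TH960.PE MeasureTheory

/-! ### The gadget -/

/-- The polynomial of the gadget: for all `a`, `b` the set of the `(s, w, r)` where it is positive has
volume one if `a` and `b` are positive, and it is empty otherwise. -/
noncomputable def gad (a b s w r : ℝ) : ℝ :=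
  225 * (s * (a - s ^ 2)) ^ 2 * (w * (b - w ^ 2)) ^ 2 *
    ((a * b) ^ 2 - ((a - s ^ 2) * b) ^ 2 - ((b - w ^ 2) * a) ^ 2) - 64 * (a * b) ^ 6 * r ^ 2

/-! ### Operations with polynomials -/

/-- the sum of two coefficients -/
def cadd (a b : Coef) : Coef :=
  (a.1 * (b.2.2 + 1) + b.1 * (a.2.2 + 1), a.2.1 * (b.2.2 + 1) + b.2.1 * (a.2.2 + 1),
    a.2.2 * b.2.2 + a.2.2 + b.2.2)

/-- the sum of two lists of exponents -/
def ladd (e e' : List ℕ) : List ℕ :=
  (List.range (max e.length e'.length)).map fun i => e.getD i 0 + e'.getD i 0

/-- the product of two monomials -/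
def mulM (a b : Mono) : Mono := (cmul a.1 b.1, ladd a.2 b.2)

/-- the product of two polynomials -/
def mulS (A B : Poly) : Poly := A.flatMap fun a => B.map fun b => mulM a b

/-- the negative of a polynomial -/
def negP (A : Poly) : Poly := A.map fun m => ((m.1.2.1, m.1.1, m.1.2.2), m.2)

/-- the difference of two polynomials -/
def subP (A B : Poly) : Poly := A ++ negP B

/-- the square of a polynomial -/
def sqP (A : Poly) : Poly := mulS A A

/-- the coordinate `x_i` -/
def varP (i : ℕ) : Poly := [((1, 0, 0), List.replicate i 0 ++ [1])]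

/-- a natural number -/
def natP (a : ℕ) : Poly := [((a, 0, 0), [])]

/-- the gadget, with the new variables `x_N`, `x_(N+1)`, `x_(N+2)` -/
def gadP (N : ℕ) (A B : Poly) : Poly :=
  subP
    (mulS (natP 225) (mulS (sqP (mulS (varP N) (subP A (sqP (varP N)))))
      (mulS (sqP (mulS (varP (N + 1)) (subP B (sqP (varP (N + 1))))))
        (subP (subP (sqP (mulS A B)) (sqP (mulS (subP A (sqP (varP N))) B)))
          (sqP (mulS (subP B (sqP (varP (N + 1)))) A))))))
    (mulS (natP 64) (mulS (mulS (sqP (mulS A B)) (sqP (sqP (mulS A B)))) (sqP (varP (N + 2)))))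

/-- The conjunction of a list of inequalities in `L` variables: the number of the variables and the
polynomial. -/
def fold (L : ℕ) (l : List Poly) : ℕ × Poly :=
  l.foldl (fun st g => (st.1 + 3, gadP st.1 st.2 g)) (L, natP 1)

/-- The sum of the coefficients of the monomials with the list of exponents `e`, padded to length `n`. -/
def csum (n : ℕ) (g : Poly) (e : List ℕ) : Coef :=
  g.foldr (fun m s => if pad n m.2 = e then cadd m.1 s else s) (0, 0, 0)

/-- The test for the zero polynomial. -/
def isZ (n : ℕ) (g : Poly) : Bool :=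
  g.all fun m => decide ((csum n g (pad n m.2)).1 = (csum n g (pad n m.2)).2.1)

end Pool.Agent.H652.PV
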