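import Pool.Agent.H652.PV.Stm

/-!
# The volume of the gadget (helper696)
-/

set_option autoImplicit false
set_option synthInstance.maxSize 2000

namespace Pool.Agent.H652.PV

open MeasureTheory Set

namespace GadV

theorem rpow_nn {q : ℝ} (hz : ∀ x : ℝ, x ≤ 0 → x ^ q = 0) (x : ℝ) : 0 ≤ x ^ q := by
  rcases le_or_gt x 0 with h | h
  · rw [hz x h]
  · exact Real.rpow_nonneg h.le q

/-- the one-dimensional integral -/
theorem gl (p b C : ℝ) (hp : 1 < p) (hz : ∀ x : ℝ, x ≤ 0 → x ^ p = 0)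
    (hz1 : ∀ x : ℝ, x ≤ 0 → x ^ (p - 1) = 0) (hb : 0 < b) (hC : C ≤ 1) :
    ∫⁻ w : ℝ, ENNReal.ofReal (|w| * |1 - w ^ 2 / b| * (C - (1 - w ^ 2 / b) ^ 2) ^ (p - 1)) =
      ENNReal.ofReal (b * C ^ p / p) := by
  have hp0 : 0 < p := by linarith
  set G : ℝ → ℝ := fun w => w * |1 - w ^ 2 / b| * (C - (1 - w ^ 2 / b) ^ 2) ^ (p - 1) with hG
  set H : ℝ → ℝ := fun w => b / (4 * p) * (C - (1 - w ^ 2 / b) ^ 2) ^ p with hH
  set H' : ℝ → ℝ := fun w => w * (1 - w ^ 2 / b) * (C - (1 - w ^ 2 / b) ^ 2) ^ (p - 1) with hH'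
  have hder : ∀ w, HasDerivAt H (H' w) w := by
    intro w
    have h1 : HasDerivAt (fun w : ℝ => C - (1 - w ^ 2 / b) ^ 2)
        (4 * w / b * (1 - w ^ 2 / b)) w := by
      have h2 : HasDerivAt (fun w : ℝ => w ^ 2) (2 * w) w := by simpa using hasDerivAt_pow 2 w
      have h3 := (((h2.div_const b).const_sub 1).pow 2).const_sub C
      refine h3.congr_deriv ?_
      simp only [Nat.cast_ofNat, Nat.add_one_sub_one, pow_one]
      ring
    have h5 := (h1.rpow_const (p := p) (Or.inr hp.le)).const_mul (b / (4 * p))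
    refine h5.congr_deriv ?_
    rw [hH']
    field_simp
  have hcq : Continuous fun x : ℝ => x ^ (p - 1) := Real.continuous_rpow_const (by linarith)
  have hcB : Continuous fun w : ℝ => 1 - w ^ 2 / b := by fun_prop
  have hcr : Continuous fun w : ℝ => (C - (1 - w ^ 2 / b) ^ 2) ^ (p - 1) :=
    hcq.comp (continuous_const.sub (hcB.pow 2))
  have hcG : Continuous G := (continuous_id.mul hcB.abs).mul hcr
  have hcH' : Continuous H' := (continuous_id.mul hcB).mul hcr
  set R : ℝ := √(2 * b) with hR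
  have hR2 : R ^ 2 = 2 * b := Real.sq_sqrt (by positivity)
  have hR0 : 0 ≤ R := Real.sqrt_nonneg _
  set r : ℝ := √b with hr
  have hr2 : r ^ 2 = b := Real.sq_sqrt hb.le
  have hr0 : 0 ≤ r := Real.sqrt_nonneg _
  have hrR : r ≤ R := Real.sqrt_le_sqrt (by linarith)
  have hout : ∀ w, R ≤ w → C - (1 - w ^ 2 / b) ^ 2 ≤ 0 := by
    intro w hw
    have h1 : 2 * b ≤ w ^ 2 := by rw [← hR2]; exact pow_le_pow_left₀ hR0 hw 2
    have h2 : 2 ≤ w ^ 2 / b := by rw [le_div_iff₀ hb]; exact h1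
    nlinarith
  have hG0 : ∀ w, R ≤ w → G w = 0 := by
    intro w hw
    show w * |1 - w ^ 2 / b| * (C - (1 - w ^ 2 / b) ^ 2) ^ (p - 1) = 0
    rw [hz1 _ (hout w hw), mul_zero]
  have hev : ∀ w : ℝ, |w| * |1 - w ^ 2 / b| * (C - (1 - w ^ 2 / b) ^ 2) ^ (p - 1) = G |w| := by
    intro w
    show _ = |w| * |1 - |w| ^ 2 / b| * (C - (1 - |w| ^ 2 / b) ^ 2) ^ (p - 1)
    rw [sq_abs]
  have hint : Integrable (fun w : ℝ => G |w|) := by
    refine (hcG.comp continuous_abs).integrable_of_hasCompactSupport ?_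
    refine HasCompactSupport.intro (isCompact_Icc (a := -R) (b := R)) fun x hx => ?_
    refine hG0 _ ?_
    by_contra h
    rw [not_le, abs_lt] at h
    exact hx ⟨h.1.le, h.2.le⟩
  have hnn : ∀ w : ℝ, 0 ≤ G |w| := by
    intro w
    exact mul_nonneg (mul_nonneg (abs_nonneg _) (abs_nonneg _)) (rpow_nn hz1 _)
  simp only [hev]
  rw [← ofReal_integral_eq_lintegral_ofReal hint (Filter.Eventually.of_forall hnn),
    integral_comp_abs]
  congr 1
  have h1 : ∫ x in Ioi (0 : ℝ), G x = ∫ x in (0 : ℝ)..R, G x := by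
    rw [intervalIntegral.integral_of_le hR0]
    refine setIntegral_eq_of_subset_of_forall_sdiff_eq_zero measurableSet_Ioi
      Ioc_subset_Ioi_self ?_
    intro x hx
    refine hG0 x ?_
    by_contra h
    exact hx.2 ⟨hx.1, (not_le.1 h).le⟩
  have h2 : ∫ x in (0 : ℝ)..R, G x = (∫ x in (0 : ℝ)..r, G x) + ∫ x in r..R, G x :=
    (intervalIntegral.integral_add_adjacent_intervals (hcG.intervalIntegrable _ _)
      (hcG.intervalIntegrable _ _)).symm
  have h3 : ∫ x in (0 : ℝ)..r, G x = H r - H 0 := by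
    rw [← intervalIntegral.integral_eq_sub_of_hasDerivAt (fun x _ => hder x)
      (hcH'.intervalIntegrable _ _)]
    refine intervalIntegral.integral_congr fun x hx => ?_
    rw [uIcc_of_le hr0] at hx
    have h4 : x ^ 2 / b ≤ 1 := by
      rw [div_le_one hb, ← hr2]
      exact pow_le_pow_left₀ hx.1 hx.2 2
    show x * |1 - x ^ 2 / b| * _ = x * (1 - x ^ 2 / b) * _
    rw [abs_of_nonneg (by linarith)]
  have h4 : ∫ x in r..R, G x = -(H R - H r) := by
    rw [← intervalIntegral.integral_eq_sub_of_hasDerivAt (fun x _ => hder x)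
      (hcH'.intervalIntegrable _ _), ← intervalIntegral.integral_neg]
    refine intervalIntegral.integral_congr fun x hx => ?_
    rw [uIcc_of_le hrR] at hx
    have h4 : 1 ≤ x ^ 2 / b := by
      rw [one_le_div hb, ← hr2]
      exact pow_le_pow_left₀ hr0 hx.1 2
    show x * |1 - x ^ 2 / b| * _ = -(x * (1 - x ^ 2 / b) * _)
    rw [abs_of_nonpos (by linarith)]
    ring
  have h5 : H 0 = 0 := by
    show b / (4 * p) * (C - (1 - 0 ^ 2 / b) ^ 2) ^ p = 0
    rw [hz _ (by norm_num; linarith), mul_zero]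
  have h6 : H R = 0 := by
    show b / (4 * p) * (C - (1 - R ^ 2 / b) ^ 2) ^ p = 0
    rw [hz _ (hout R le_rfl), mul_zero]
  have h7 : H r = b / (4 * p) * C ^ p := by
    show b / (4 * p) * (C - (1 - r ^ 2 / b) ^ 2) ^ p = _
    rw [hr2, div_self hb.ne']
    norm_num
  rw [h1, h2, h3, h4, h5, h6, h7]
  field_simp
  ring

theorem half_zero (x : ℝ) (hx : x ≤ 0) : x ^ ((3 / 2 : ℝ) - 1) = 0 := by
  rw [show ((3 / 2 : ℝ) - 1) = 1 / 2 by norm_num, ← Real.sqrt_eq_rpow]
  exact Real.sqrt_eq_zero_of_nonpos hx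

theorem three_zero (x : ℝ) (hx : x ≤ 0) : x ^ (3 / 2 : ℝ) = 0 := by
  rcases hx.lt_or_eq with h | h
  · rw [Real.rpow_def_of_neg h]
    have h1 : Real.cos (3 / 2 * Real.pi) = 0 := by
      rw [show (3 / 2 * Real.pi : ℝ) = Real.pi / 2 + Real.pi by ring, Real.cos_add_pi,
        Real.cos_pi_div_two, neg_zero]
    rw [h1, mul_zero]
  · rw [h, Real.zero_rpow (by norm_num)]

theorem five_zero (x : ℝ) (hx : x ≤ 0) : x ^ (5 / 2 : ℝ) = 0 := by
  rcases hx.lt_or_eq with h | h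
  · rw [Real.rpow_def_of_neg h]
    have h1 : Real.cos (5 / 2 * Real.pi) = 0 := by
      rw [show (5 / 2 * Real.pi : ℝ) = Real.pi / 2 + 2 * Real.pi by ring,
        Real.cos_add_two_pi, Real.cos_pi_div_two]
    rw [h1, mul_zero]
  · rw [h, Real.zero_rpow (by norm_num)]

/-- slices -/
theorem vol3 (S : Set (ℝ × ℝ × ℝ)) (hS : MeasurableSet S) :
    volume {v : Fin 3 → ℝ | (v 0, v 1, v 2) ∈ S} =
      ∫⁻ s : ℝ, ∫⁻ w : ℝ, volume {r : ℝ | (s, w, r) ∈ S} := by
  have h1 := volume_preserving_piFinSuccAbove (fun _ : Fin 3 => ℝ) 0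
  have h2 : MeasurePreserving (Prod.map id (MeasurableEquiv.finTwoArrow (α := ℝ)))
      (volume : Measure (ℝ × (Fin 2 → ℝ))) (volume : Measure (ℝ × ℝ × ℝ)) :=
    (MeasurePreserving.id volume).prod (volume_preserving_finTwoArrow ℝ)
  have h3 := h2.comp h1
  have h4 := h3.measure_preimage hS.nullMeasurableSet
  have h5 : (Prod.map id (MeasurableEquiv.finTwoArrow (α := ℝ)) ∘
      (MeasurableEquiv.piFinSuccAbove (fun _ : Fin 3 => ℝ) 0)) ⁻¹' S =
      {v : Fin 3 → ℝ | (v 0, v 1, v 2) ∈ S} := by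
    ext v
    rfl
  rw [h5] at h4
  rw [h4]
  have h6 : (volume : Measure (ℝ × ℝ × ℝ)) S =
      ∫⁻ s : ℝ, volume (Prod.mk s ⁻¹' S) := Measure.prod_apply hS
  rw [h6]
  refine lintegral_congr fun s => ?_
  have h7 : (volume : Measure (ℝ × ℝ)) (Prod.mk s ⁻¹' S) =
      ∫⁻ w : ℝ, volume (Prod.mk w ⁻¹' (Prod.mk s ⁻¹' S)) :=
    Measure.prod_apply (measurable_prodMk_left hS)
  rw [h7]
  rfl

theorem cont_gad (a b : ℝ) : Continuous fun x : ℝ × ℝ × ℝ => gad a b x.1 x.2.1 x.2.2 := by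
  unfold gad
  fun_prop

theorem slice_vol {a b : ℝ} (ha : 0 < a) (hb : 0 < b) (s w : ℝ) :
    volume {r : ℝ | 0 < gad a b s w r} =
      ENNReal.ofReal (15 / (4 * (a * b)) * (|s| * |1 - s ^ 2 / a|) *
        (|w| * |1 - w ^ 2 / b| * ((1 - (1 - s ^ 2 / a) ^ 2) - (1 - w ^ 2 / b) ^ 2) ^
          ((3 / 2 : ℝ) - 1))) := by
  set A : ℝ := 1 - s ^ 2 / a with hA
  set B : ℝ := 1 - w ^ 2 / b with hB
  have hA1 : a - s ^ 2 = a * A := by rw [hA]; field_simp
  have hB1 : b - w ^ 2 = b * B := by rw [hB]; field_simp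
  have hab : 0 < a * b := mul_pos ha hb
  set k : ℝ := 15 / (8 * (a * b)) * (s * A * (w * B)) with hk
  set D : ℝ := 1 - A ^ 2 - B ^ 2 with hD
  have hset : {r : ℝ | 0 < gad a b s w r} = Ioo (-√(k ^ 2 * D)) (√(k ^ 2 * D)) := by
    ext r
    rw [mem_Ioo, ← Real.sq_lt, mem_ofPred_eq]
    have h1 : gad a b s w r = 64 * (a * b) ^ 6 * (k ^ 2 * D - r ^ 2) := by
      unfold gad
      rw [hA1, hB1, hk, hD]
      field_simp
      ring
    rw [h1]
    have h2 : 0 < 64 * (a * b) ^ 6 := by positivity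
    rw [mul_pos_iff_of_pos_left h2, sub_pos]
  rw [hset, Real.volume_Ioo]
  congr 1
  rw [Real.sqrt_mul (sq_nonneg _), Real.sqrt_sq_eq_abs, hk, abs_mul, abs_mul, abs_mul, abs_mul,
    abs_of_pos (show 0 < 15 / (8 * (a * b)) by positivity),
    show ((3 / 2 : ℝ) - 1) = 1 / 2 by norm_num, ← Real.sqrt_eq_rpow]
  field_simp
  ring

theorem vol_pos {a b : ℝ} (ha : 0 < a) (hb : 0 < b) :
    volume {v : Fin 3 → ℝ | 0 < gad a b (v 0) (v 1) (v 2)} = 1 := by
  have hS : MeasurableSet {x : ℝ × ℝ × ℝ | 0 < gad a b x.1 x.2.1 x.2.2} :=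
    (isOpen_lt continuous_const (cont_gad a b)).measurableSet
  have h1 := vol3 _ hS
  have hab : 0 < a * b := mul_pos ha hb
  refine Eq.trans h1 ?_
  have h2 : ∀ s : ℝ, ∫⁻ w : ℝ, volume {r : ℝ | 0 < gad a b s w r} =
      ENNReal.ofReal (5 / (2 * a)) * ENNReal.ofReal (|s| * |1 - s ^ 2 / a| *
        (1 - (1 - s ^ 2 / a) ^ 2) ^ ((5 / 2 : ℝ) - 1)) := by
    intro s
    have h3 : ∀ w : ℝ, volume {r : ℝ | 0 < gad a b s w r} =
        ENNReal.ofReal (15 / (4 * (a * b)) * (|s| * |1 - s ^ 2 / a|)) * ENNReal.ofReal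
          (|w| * |1 - w ^ 2 / b| * ((1 - (1 - s ^ 2 / a) ^ 2) - (1 - w ^ 2 / b) ^ 2) ^
            ((3 / 2 : ℝ) - 1)) := by
      intro w
      rw [slice_vol ha hb, ENNReal.ofReal_mul (by positivity)]
    simp only [h3]
    rw [lintegral_const_mul']
    · rw [gl (3 / 2) b (1 - (1 - s ^ 2 / a) ^ 2) (by norm_num) three_zero half_zero hb
        (by nlinarith [sq_nonneg (1 - s ^ 2 / a)]),
        ← ENNReal.ofReal_mul (by positivity), ← ENNReal.ofReal_mul (by positivity)]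
      congr 1
      rw [show ((5 / 2 : ℝ) - 1) = 3 / 2 by norm_num]
      field_simp
      ring
    · exact ENNReal.ofReal_ne_top
  have h4 : ∫⁻ s : ℝ, ∫⁻ w : ℝ, volume {r : ℝ | 0 < gad a b s w r} = 1 := by
    simp only [h2]
    rw [lintegral_const_mul' _ _ ENNReal.ofReal_ne_top,
      gl (5 / 2) a 1 (by norm_num) five_zero (by
        intro x hx
        rw [show ((5 / 2 : ℝ) - 1) = 3 / 2 by norm_num]
        exact three_zero x hx) ha le_rfl, ← ENNReal.ofReal_mul (by positivity),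
      Real.one_rpow]
    rw [show 5 / (2 * a) * (a * 1 / (5 / 2)) = 1 by field_simp, ENNReal.ofReal_one]
  exact h4

theorem pos_of_gad {a b s w r : ℝ} (h : 0 < gad a b s w r) : 0 < a ∧ 0 < b := by
  unfold gad at h
  have h1 : 0 ≤ 64 * (a * b) ^ 6 * r ^ 2 := by positivity
  have h2 : 0 ≤ 225 * (s * (a - s ^ 2)) ^ 2 * (w * (b - w ^ 2)) ^ 2 := by positivity
  have h3 : 0 < (a * b) ^ 2 - ((a - s ^ 2) * b) ^ 2 - ((b - w ^ 2) * a) ^ 2 := by
    by_contra hcon
    have := mul_nonpos_of_nonneg_of_nonpos h2 (not_lt.1 hcon)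
    linarith
  constructor
  · by_contra ha
    rw [not_lt] at ha
    have h4 : 0 ≤ (a - s ^ 2) ^ 2 - a ^ 2 := by
      have : 0 ≤ s ^ 2 * (s ^ 2 + 2 * (-a)) := by
        have := sq_nonneg s
        nlinarith [mul_nonneg this this, mul_nonneg this (neg_nonneg.2 ha)]
      nlinarith
    have h5 := mul_nonneg (sq_nonneg b) h4
    nlinarith [sq_nonneg ((b - w ^ 2) * a)]
  · by_contra hb
    rw [not_lt] at hb
    have h4 : 0 ≤ (b - w ^ 2) ^ 2 - b ^ 2 := by
      have : 0 ≤ w ^ 2 * (w ^ 2 + 2 * (-b)) := by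
        have := sq_nonneg w
        nlinarith [mul_nonneg this this, mul_nonneg this (neg_nonneg.2 hb)]
      nlinarith
    have h5 := mul_nonneg (sq_nonneg a) h4
    nlinarith [sq_nonneg ((a - s ^ 2) * b)]

theorem null (a : ℝ) : volume {v : Fin 3 → ℝ | gad a 1 (v 0) (v 1) (v 2) = 0} = 0 := by
  have hS : MeasurableSet {x : ℝ × ℝ × ℝ | gad a 1 x.1 x.2.1 x.2.2 = 0} :=
    (isClosed_eq (cont_gad a 1) continuous_const).measurableSet
  refine Eq.trans (vol3 _ hS) ?_
  have key : ∀ᵐ s : ℝ, ∀ᵐ w : ℝ, volume {r : ℝ | gad a 1 s w r = 0} = 0 := by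
    by_cases ha : a = 0
    · have h0 : ∀ᵐ s : ℝ, s ≠ 0 := Measure.ae_ne volume 0
      filter_upwards [h0] with s hs
      have h1 : ∀ᵐ w : ℝ, w ≠ 0 := Measure.ae_ne volume 0
      have h2 : ∀ᵐ w : ℝ, w ≠ 1 := Measure.ae_ne volume 1
      have h3 : ∀ᵐ w : ℝ, w ≠ -1 := Measure.ae_ne volume (-1)
      filter_upwards [h1, h2, h3] with w hw1 hw2 hw3
      have h4 : {r : ℝ | gad a 1 s w r = 0} = ∅ := by
        rw [eq_empty_iff_forall_notMem]
        intro r hr
        have h5 : gad a 1 s w r = -(225 * s ^ 10 * (w * (1 - w) * (1 + w)) ^ 2) := by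
          unfold gad
          rw [ha]
          ring
        rw [mem_ofPred_eq, h5, neg_eq_zero] at hr
        have h6 : w * (1 - w) * (1 + w) ≠ 0 := by
          refine mul_ne_zero (mul_ne_zero hw1 ?_) ?_
          · intro h
            exact hw2 (by linarith)
          · intro h
            exact hw3 (by linarith)
        have h7 : 0 < 225 * s ^ 10 * (w * (1 - w) * (1 + w)) ^ 2 := by positivity
        linarith
      rw [h4, measure_empty]
    · refine Filter.Eventually.of_forall fun s => Filter.Eventually.of_forall fun w => ?_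
      set D : ℝ := gad a 1 s w 0 / (64 * a ^ 6) with hD
      have h4 : {r : ℝ | gad a 1 s w r = 0} ⊆ {√D, -√D} := by
        intro r hr
        have h5 : gad a 1 s w r = gad a 1 s w 0 - 64 * a ^ 6 * r ^ 2 := by
          unfold gad
          ring
        rw [mem_ofPred_eq, h5] at hr
        have h6 : r ^ 2 = D := by
          rw [hD, eq_div_iff (by positivity)]
          linarith
        rw [← h6, Real.sqrt_sq_eq_abs]
        rcases abs_choice r with h7 | h7
        · left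
          exact h7.symm
        · right
          rw [h7]
          simp
      exact measure_mono_null h4 ((Set.toFinite _).measure_zero _)
  have h1 : ∀ᵐ s : ℝ, ∫⁻ w : ℝ, volume {r : ℝ | gad a 1 s w r = 0} = 0 := by
    filter_upwards [key] with s hs
    rw [lintegral_congr_ae hs, lintegral_zero]
  have h2 : ∫⁻ s : ℝ, ∫⁻ w : ℝ, volume {r : ℝ | gad a 1 s w r = 0} = 0 := by
    rw [lintegral_congr_ae h1, lintegral_zero]
  exact h2

end GadV

theorem t_gad : S_gad := by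
  refine ⟨fun a b => ?_, GadV.null⟩
  by_cases h : 0 < a ∧ 0 < b
  · rw [if_pos h]
    exact GadV.vol_pos h.1 h.2
  · rw [if_neg h]
    have h1 : {v : Fin 3 → ℝ | 0 < gad a b (v 0) (v 1) (v 2)} = ∅ := by
      rw [eq_empty_iff_forall_notMem]
      intro v hv
      exact h (GadV.pos_of_gad hv)
    rw [h1, measure_empty]

end Pool.Agent.H652.PV
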