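import Pool.Agent.H652.PV.Mvp
import Pool.Agent.H839.PV.Mom

/-!
# Real periods in the form of the frozen statement and integrals over the whole space
-/

set_option autoImplicit false
set_option synthInstance.maxSize 2000

namespace Pool.Agent.H652.PV.KZ

open Pool.Agent.TH960.PE Pool.Agent.H839.PV MeasureTheory

/-- A real period, in the form of the frozen statement: the absolutely convergent integral of a rational
function with rational coefficients over a finite union of sets given by finitely many strict polynomial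
inequalities with rational coefficients. -/
def IsPeriod (v : ℝ) : Prop :=
  ∃ (n : ℕ) (P Q : MvPolynomial (Fin n) ℚ) (k m : ℕ)
      (p : Fin k → Fin m → MvPolynomial (Fin n) ℚ),
      IntegrableOn
        (fun x : Fin n → ℝ => (MvPolynomial.aeval x P / MvPolynomial.aeval x Q : ℝ))
        {x : Fin n → ℝ | ∃ j, ∀ i, 0 < (MvPolynomial.aeval x (p j i) : ℝ)} volume ∧
      (∫ x in {x : Fin n → ℝ | ∃ j, ∀ i, 0 < (MvPolynomial.aeval x (p j i) : ℝ)},
          (MvPolynomial.aeval x P / MvPolynomial.aeval x Q : ℝ)) = v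

/-- `v` is the absolutely convergent integral over the whole space `ℝ ^ n` of `P / Q`, where `P` and `Q` are
polynomials with integer coefficients and `Q ≥ 1` everywhere. -/
def RatInt (v : ℝ) : Prop :=
  ∃ (n : ℕ) (P Q : MvPolynomial (Fin n) ℤ),
    (∀ x : Fin n → ℝ, 1 ≤ (MvPolynomial.aeval x Q : ℝ)) ∧
    Integrable (fun x : Fin n → ℝ => (MvPolynomial.aeval x P / MvPolynomial.aeval x Q : ℝ)) ∧
    ∫ x : Fin n → ℝ, (MvPolynomial.aeval x P / MvPolynomial.aeval x Q : ℝ) = v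

/-- `v` is the difference of the convergent integrals of `1 / p` and of `1 / q` over the whole space
`ℝ ^ (n + 1)`, where `p` and `q` are polynomials with integer coefficients, `p ≥ 1` and `q ≥ 1`
everywhere. -/
def RecInt (v : ℝ) : Prop :=
  ∃ (n : ℕ) (p q : MvPolynomial (Fin (n + 1)) ℤ),
    (∀ x : Fin (n + 1) → ℝ,
      1 ≤ (MvPolynomial.aeval x p : ℝ) ∧ 1 ≤ (MvPolynomial.aeval x q : ℝ)) ∧
    Integrable (fun x : Fin (n + 1) → ℝ => (1 / MvPolynomial.aeval x p : ℝ)) ∧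
    Integrable (fun x : Fin (n + 1) → ℝ => (1 / MvPolynomial.aeval x q : ℝ)) ∧
    (∫ x : Fin (n + 1) → ℝ, (1 / MvPolynomial.aeval x p : ℝ)) -
      (∫ x : Fin (n + 1) → ℝ, (1 / MvPolynomial.aeval x q : ℝ)) = v

/-- The preimage of the open unit ball under the polynomial map given by the list `f`. -/
def Ball {n : ℕ} (f : List (MvPolynomial (Fin n) ℤ)) : Set (Fin n → ℝ) :=
  {x | (f.map fun q => (MvPolynomial.aeval x q : ℝ) ^ 2).sum < 1}

/-- `v = (vol (Ball f) - vol (Ball g)) / vol (Ball h)` for three polynomial maps `f`, `g`, `h` of degree at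
most two on the same space `ℝ ^ n`, with integer coefficients. -/
def QuadQuot (v : ℝ) : Prop :=
  ∃ (n : ℕ) (f g h : List (MvPolynomial (Fin n) ℤ)),
    ((∀ q ∈ f, q.totalDegree ≤ 2) ∧ (∀ q ∈ g, q.totalDegree ≤ 2) ∧ (∀ q ∈ h, q.totalDegree ≤ 2)) ∧
    (volume (Ball f) ≠ ⊤ ∧ volume (Ball g) ≠ ⊤ ∧ volume (Ball h) ≠ ⊤) ∧ volume (Ball h) ≠ 0 ∧
    ((volume (Ball f)).toReal - (volume (Ball g)).toReal) / (volume (Ball h)).toReal = v

theorem aeval_map {n : ℕ} (f : MvPolynomial (Fin n) ℤ) (x : Fin n → ℝ) :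
    (MvPolynomial.aeval x (MvPolynomial.map (Int.castRingHom ℚ) f) : ℝ) =
      MvPolynomial.aeval x f := by
  rw [MvPolynomial.aeval_def, MvPolynomial.aeval_def, MvPolynomial.eval₂_map]
  congr 1

theorem isPeriod_of_rat {v : ℝ} (h : RatInt v) : IsPeriod v := by
  obtain ⟨n, P, Q, -, h2, h3⟩ := h
  have e : {x : Fin n → ℝ | ∃ _j : Fin 1, ∀ _i : Fin 0,
      0 < (MvPolynomial.aeval x (0 : MvPolynomial (Fin n) ℚ) : ℝ)} = Set.univ := by
    ext x
    simp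
  refine ⟨n, MvPolynomial.map (Int.castRingHom ℚ) P, MvPolynomial.map (Int.castRingHom ℚ) Q, 1, 0,
    fun _ _ => 0, ?_, ?_⟩
  · rw [e]
    simp only [aeval_map]
    exact h2.integrableOn
  · rw [e]
    simp only [aeval_map, Measure.restrict_univ]
    exact h3

theorem rat_of_rec' {v : ℝ} (h : RecInt v) : ∃ (n : ℕ) (P Q : MvPolynomial (Fin (n + 1)) ℤ),
    (∀ x : Fin (n + 1) → ℝ, 1 ≤ (MvPolynomial.aeval x Q : ℝ)) ∧
    Integrable (fun x : Fin (n + 1) → ℝ => (MvPolynomial.aeval x P / MvPolynomial.aeval x Q : ℝ)) ∧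
    ∫ x : Fin (n + 1) → ℝ, (MvPolynomial.aeval x P / MvPolynomial.aeval x Q : ℝ) = v := by
  obtain ⟨n, p, q, h1, h2, h3, rfl⟩ := h
  have e : ∀ x : Fin (n + 1) → ℝ,
      (MvPolynomial.aeval x (q - p) / MvPolynomial.aeval x (p * q) : ℝ) =
        1 / MvPolynomial.aeval x p - 1 / MvPolynomial.aeval x q := by
    intro x
    have a : (MvPolynomial.aeval x p : ℝ) ≠ 0 := (lt_of_lt_of_le one_pos (h1 x).1).ne'
    have b : (MvPolynomial.aeval x q : ℝ) ≠ 0 := (lt_of_lt_of_le one_pos (h1 x).2).ne'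
    rw [map_sub, map_mul, div_sub_div _ _ a b]
    ring
  refine ⟨n, q - p, p * q, fun x => ?_, ?_, ?_⟩
  · rw [map_mul]
    exact one_le_mul_of_one_le_of_one_le (h1 x).1 (h1 x).2
  · simp only [e]
    exact h2.sub h3
  · simp only [e]
    exact integral_sub h2 h3

theorem rat_of_rec {v : ℝ} (h : RecInt v) : RatInt v := by
  obtain ⟨n, P, Q, h⟩ := rat_of_rec' h
  exact ⟨n + 1, P, Q, h⟩

/-! ### From periods to two volumes -/

theorem mem_closure {v : ℝ} (h : IsPeriod v) : v ∈ AddSubgroup.closure Q54.KZ.bas := by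
  obtain ⟨n, P, Q, k, m, p, h1, h2⟩ := h
  have h3 : {x : Fin n → ℝ | ∃ j, ∀ i, 0 < (MvPolynomial.aeval x (p j i) : ℝ)} =
      Q54.KZ.uni (List.ofFn fun j => List.ofFn (p j)) := by
    ext x
    simp only [Q54.KZ.uni, Set.mem_ofPred_eq, List.mem_ofFn', Set.mem_range, exists_exists_eq_and,
      forall_exists_index, forall_apply_eq_imp_iff]
  rw [h3] at h1 h2
  have h4 := Q54.KZ.integral_uni_mem k (List.ofFn fun j => List.ofFn (p j)) (by simp) P Q h1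
  rw [h2] at h4
  exact Q54.KZ.vols_le h4

theorem moment_of_closure {v : ℝ} (h : v ∈ AddSubgroup.closure Q54.KZ.bas) :
    ∃ (n : ℕ) (i : Fin n) (f : MvPolynomial (Fin n) ℤ),
      IntegrableOn (fun x => x i) {x | 0 < (MvPolynomial.aeval x f : ℝ)} ∧
        ∫ x in {x | 0 < (MvPolynomial.aeval x f : ℝ)}, x i = v := by
  obtain ⟨n, m, r, T, -, h1, h2⟩ := Q54.KZ.exists_moment h
  have h3 := Q54.KZ.integral_coord T
  choose P hP using fun c : Fin r => clear_pos (Q54.KZ.bil (T c))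
  have h4 : {z : Fin (n + 1 + m) → ℝ | ∀ c, 0 < (MvPolynomial.aeval z (Q54.KZ.bil (T c)) : ℝ)} =
      {x | ∀ A ∈ List.ofFn P, 0 < (MvPolynomial.aeval x A : ℝ)} := by
    ext x
    simp only [Set.mem_ofPred_eq, List.mem_ofFn', Set.mem_range, forall_exists_index,
      forall_apply_eq_imp_iff, hP]
  rw [h4] at h3
  obtain ⟨k, F, h5, h6⟩ := moment_single (Fin.castAdd m 0) (List.ofFn P) (h3.1.1 h1)
  refine ⟨_, _, F, h5, ?_⟩
  have h7 : ∫ x in {x | 0 < (MvPolynomial.aeval x F : ℝ)}, x (Fin.castAdd k (Fin.castAdd m 0)) = _ := h6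
  rw [h7, h3.2]
  exact h2

theorem vols_of_closure {v : ℝ} (h : v ∈ AddSubgroup.closure Q54.KZ.bas) :
    ∃ (n : ℕ) (F G : Poly), Fine n F ∧ Fine n G ∧
      (volume (reg n F)).toReal - (volume (reg n G)).toReal = v := by
  obtain ⟨n, i, f, h1, rfl⟩ := moment_of_closure h
  obtain ⟨N, f', g', a, b, c⟩ := moment_vol i f h1
  obtain ⟨F, F1, F2, F3⟩ := Mvp.code_exists f'
  obtain ⟨G, G1, G2, G3⟩ := Mvp.code_exists g'
  have eF : reg N F = {x | 0 < (MvPolynomial.aeval x f' : ℝ)} := by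
    ext x
    change 0 < pev (ext x) F ↔ 0 < (MvPolynomial.aeval x f' : ℝ)
    rw [F3]
  have eG : reg N G = {x | 0 < (MvPolynomial.aeval x g' : ℝ)} := by
    ext x
    change 0 < pev (ext x) G ↔ 0 < (MvPolynomial.aeval x g' : ℝ)
    rw [G3]
  refine ⟨N, F, G, ⟨F1, F2, ?_⟩, ⟨G1, G2, ?_⟩, ?_⟩
  · rw [eF]
    exact a
  · rw [eG]
    exact b
  · rw [eF, eG]
    exact c

theorem vols_of_isPeriod {v : ℝ} (h : IsPeriod v) : ∃ (n : ℕ) (F G : Poly), Fine n F ∧ Fine n G ∧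
    (volume (reg n F)).toReal - (volume (reg n G)).toReal = v := vols_of_closure (mem_closure h)

/-! ### From codes to polynomials -/

theorem rat_of_code {n : ℕ} {P Q : Poly} (h : RatFn n P Q) :
    RatInt (∫ x : Fin n → ℝ, pev (ext x) P / pev (ext x) Q) := by
  obtain ⟨⟨p1, p2⟩, ⟨q1, q2⟩, h3, h4⟩ := h
  obtain ⟨P', hP⟩ := Mvp.poly_exists' P p1 p2
  obtain ⟨Q', hQ⟩ := Mvp.poly_exists' Q q1 q2
  refine ⟨n, P', Q', fun x => ?_, ?_, ?_⟩
  · rw [hQ]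
    exact h3 _
  · simp only [hP, hQ]
    exact h4
  · simp only [hP, hQ]

theorem rec_of_code {x : ℝ} {a : ℕ × Poly × Poly} (ha : 0 < a.1) (h : RecForm x a) :
    RecInt x := by
  obtain ⟨N, p, q⟩ := a
  obtain ⟨m, rfl⟩ : ∃ m, N = m + 1 := ⟨N - 1, by
    have : 0 < N := ha
    omega⟩
  obtain ⟨⟨p1, p2, p3, p4⟩, ⟨q1, q2, q3, q4⟩, e⟩ := h
  obtain ⟨p', hp⟩ := Mvp.poly_exists' _ p1 p2
  obtain ⟨q', hq⟩ := Mvp.poly_exists' _ q1 q2
  refine ⟨m, p', q', fun x => ?_, ?_, ?_, ?_⟩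
  · rw [hp, hq]
    exact ⟨p3 _, q3 _⟩
  · simp only [hp]
    exact p4
  · simp only [hq]
    exact q4
  · simp only [hp, hq]
    exact e

theorem list_of_code {n : ℕ} (Q : List Poly) (h : ∀ q ∈ Q, Quad n q) :
    ∃ L : List (MvPolynomial (Fin n) ℤ), (∀ q ∈ L, q.totalDegree ≤ 2) ∧
      ∀ x : Fin n → ℝ, (L.map fun q => (MvPolynomial.aeval x q : ℝ) ^ 2).sum =
        (Q.map fun q => pev (ext x) q ^ 2).sum := by
  induction Q with
  | nil => exact ⟨[], by simp, fun x => by simp⟩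
  | cons q Q ih =>
    obtain ⟨L, h1, h2⟩ := ih fun q hq => h q (List.mem_cons_of_mem _ hq)
    obtain ⟨a, b, c⟩ := h q List.mem_cons_self
    obtain ⟨f, f1, f2⟩ := Mvp.poly_exists q a b c
    refine ⟨f :: L, ?_, fun x => ?_⟩
    · intro g hg
      rcases List.mem_cons.1 hg with rfl | hg
      · exact f1
      · exact h1 g hg
    · rw [List.map_cons, List.sum_cons, List.map_cons, List.sum_cons, h2, f2]

theorem ball_of_code {n : ℕ} {F : Poly} (h : Sq n F) : ∃ L : List (MvPolynomial (Fin n) ℤ),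
    (∀ q ∈ L, q.totalDegree ≤ 2) ∧ Ball L = reg n F := by
  obtain ⟨Q, h1, h2⟩ := h
  obtain ⟨L, h3, h4⟩ := list_of_code Q h1
  refine ⟨L, h3, ?_⟩
  ext x
  change (L.map fun q => (MvPolynomial.aeval x q : ℝ) ^ 2).sum < 1 ↔ 0 < pev (ext x) F
  rw [h4, h2, sub_pos]

theorem quad_of_code {x : ℝ} {a : ℕ × Poly × Poly × Poly} (h : QuotForm x a) : QuadQuot x := by
  obtain ⟨⟨⟨f1, -⟩, f2⟩, ⟨⟨g1, -⟩, g2⟩, ⟨⟨h1, -⟩, h2⟩, h0, rfl⟩ := h
  obtain ⟨f, f3, f4⟩ := ball_of_code f2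
  obtain ⟨g, g3, g4⟩ := ball_of_code g2
  obtain ⟨h, h3, h4⟩ := ball_of_code h2
  refine ⟨a.1, f, g, h, ⟨f3, g3, h3⟩, ?_, ?_, ?_⟩
  · rw [f4, g4, h4]
    exact ⟨f1.2.2, g1.2.2, h1.2.2⟩
  · rw [h4]
    exact h0
  · rw [f4, g4, h4]

/-! ### Conclusion -/

theorem rat_of_isPeriod {v : ℝ} (h : IsPeriod v) : RatInt (Real.pi ^ 2 * v) := by
  obtain ⟨n, F, G, hF, hG, rfl⟩ := vols_of_isPeriod h
  obtain ⟨a, b⟩ := Recip.sp_spec' (n, F, G) hF hG
  rw [← b]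
  exact rat_of_code a

theorem two_ratfn (a : ℕ × Poly × Poly) (h : RatFn a.1 a.2.1 a.2.2) :
    RatFn a.1 (mulS (natP 2) a.2.1) a.2.2 ∧
      ∫ x : Fin a.1 → ℝ, pev (ext x) (mulS (natP 2) a.2.1) / pev (ext x) a.2.2 =
        2 * ∫ x : Fin a.1 → ℝ, pev (ext x) a.2.1 / pev (ext x) a.2.2 := by
  obtain ⟨⟨p1, p2⟩, ⟨q1, q2⟩, h3, h4⟩ := h
  have e : ∀ X : ℕ → ℝ, pev X (mulS (natP 2) a.2.1) / pev X a.2.2 =
      2 * (pev X a.2.1 / pev X a.2.2) := by
    intro X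
    rw [pev_mulS, pev_natP]
    push_cast
    ring
  refine ⟨⟨⟨isPoly_mulS (isPoly_natP _ _) p1, isInt_mulS (isInt_natP _) p2⟩, ⟨q1, q2⟩, h3, ?_⟩, ?_⟩
  · simp only [e]
    exact h4.const_mul 2
  · simp only [e]
    exact integral_const_mul _ _

theorem rec_of_closure {v : ℝ} (h : v ∈ AddSubgroup.closure Q54.KZ.bas) :
    RecInt (Real.pi ^ 5 * v) := by
  obtain ⟨n, F, G, hF, hG, rfl⟩ := vols_of_closure h
  obtain ⟨a, b⟩ := Recip.sp_spec' (n, F, G) hF hG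
  obtain ⟨a', b'⟩ := two_ratfn _ a
  obtain ⟨p1, p2, p3⟩ := Single.yy_spec' t_rad t_lin t_ycod
    ((Whole.sp (n, F, G)).1, mulS (natP 2) (Whole.sp (n, F, G)).2.1, (Whole.sp (n, F, G)).2.2) a'
  refine rec_of_code (Nat.succ_pos _) ⟨p1, p2, p3.trans ?_⟩
  change Real.pi ^ 3 / 2 * ∫ x : Fin (Whole.sp (n, F, G)).1 → ℝ,
    pev (ext x) (mulS (natP 2) (Whole.sp (n, F, G)).2.1) / pev (ext x) (Whole.sp (n, F, G)).2.2 = _
  rw [b', b]
  ring

theorem rec_of_isPeriod {v : ℝ} (h : IsPeriod v) : RecInt (Real.pi ^ 5 * v) :=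
  rec_of_closure (mem_closure h)

theorem quad_of_isPeriod {v : ℝ} (h : IsPeriod v) : QuadQuot v := by
  obtain ⟨n, F, G, hF, hG, rfl⟩ := vols_of_isPeriod h
  obtain ⟨a, b⟩ := Pairs.hC_spec' (n, F, G) hF hG
  obtain ⟨t1, t2⟩ := Pairs.twoC_spec
  obtain ⟨R, -, hR⟩ := Pairs.quot_normal
  have h2 := hR _ (adm_mulC _ _ t1 a)
  rw [val_mulC _ _ t1, t2, b] at h2
  have e : (2 : ℝ) * (((volume (reg n F)).toReal - (volume (reg n G)).toReal) / 2) =
      (volume (reg n F)).toReal - (volume (reg n G)).toReal := by ring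
  have h3 := quad_of_code h2
  rwa [e] at h3

/-- Real periods divided by powers of `π`. -/
theorem over_pi (v : ℝ) : List.TFAE [∃ k : ℕ, IsPeriod (Real.pi ^ k * v),
    ∃ k : ℕ, RatInt (Real.pi ^ k * v), ∃ k : ℕ, RecInt (Real.pi ^ k * v)] := by
  tfae_have 1 → 3 := by
    rintro ⟨k, h⟩
    refine ⟨5 + k, ?_⟩
    rw [pow_add, mul_assoc]
    exact rec_of_isPeriod h
  tfae_have 3 → 2 := fun ⟨k, h⟩ => ⟨k, rat_of_rec h⟩
  tfae_have 2 → 1 := fun ⟨k, h⟩ => ⟨k, isPeriod_of_rat h⟩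
  tfae_finish

/-- Quotients of real periods. -/
theorem quotients (v : ℝ) : List.TFAE [∃ a b : ℝ, IsPeriod a ∧ IsPeriod b ∧ b ≠ 0 ∧ a / b = v,
    ∃ a b : ℝ, RatInt a ∧ RatInt b ∧ b ≠ 0 ∧ a / b = v,
    ∃ a b : ℝ, RecInt a ∧ RecInt b ∧ b ≠ 0 ∧ a / b = v] := by
  tfae_have 1 → 3 := by
    rintro ⟨a, b, ha, hb, h0, h⟩
    have hp : Real.pi ^ 5 ≠ 0 := pow_ne_zero _ Real.pi_ne_zero
    exact ⟨_, _, rec_of_isPeriod ha, rec_of_isPeriod hb, mul_ne_zero hp h0, by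
      rw [mul_div_mul_left _ _ hp, h]⟩
  tfae_have 3 → 2 := fun ⟨a, b, ha, hb, h0, h⟩ => ⟨a, b, rat_of_rec ha, rat_of_rec hb, h0, h⟩
  tfae_have 2 → 1 := fun ⟨a, b, ha, hb, h0, h⟩ =>
    ⟨a, b, isPeriod_of_rat ha, isPeriod_of_rat hb, h0, h⟩
  tfae_finish

end Pool.Agent.H652.PV.KZ
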