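import Pool.Agent.H652.PV.Cmp
import Pool.Agent.H652.PV.GadV

/-!
# Equality of periods and regions given by one polynomial inequality
-/

set_option autoImplicit false
set_option synthInstance.maxSize 2000

namespace Pool.Agent.H652.PV

open Pool.Agent.TH960.PE MeasureTheory

/-- The region `F > 0` in `ℝ ^ n`. -/
def reg (n : ℕ) (F : Poly) : Set (Fin n → ℝ) := {x | 0 < pev (ext x) F}

/-- `F` is a polynomial in `n` variables with integer coefficients, and the region `F > 0` has finite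
volume. -/
def Fine (n : ℕ) (F : Poly) : Prop := IsPoly n F ∧ IsInt F ∧ volume (reg n F) ≠ ⊤

/-- There is an algorithm which decides, for integer polynomials `F`, `G` such that `F > 0` and `G > 0`
have finite volume, whether these volumes are equal. -/
def EqualVolumes : Prop :=
  ∃ f : (ℕ × Poly × Poly) →. Bool, Partrec f ∧ ∀ (n : ℕ) (F G : Poly), Fine n F → Fine n G →
    ∃ b ∈ f (n, F, G), (b = true ↔ volume (reg n F) = volume (reg n G))

/-- There is an algorithm which decides, for an integer polynomial `F` such that `F > 0` has finite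
volume, whether the hyperplane `x_0 = 0` bisects the region `F > 0`. -/
def Bisected : Prop :=
  ∃ f : (ℕ × Poly) →. Bool, Partrec f ∧ ∀ (n : ℕ) (F : Poly), Fine (n + 1) F →
    ∃ b ∈ f (n, F), (b = true ↔
      volume {x | x ∈ reg (n + 1) F ∧ 0 < x 0} = volume {x | x ∈ reg (n + 1) F ∧ x 0 < 0})

/-- There is an algorithm which decides, for an integer polynomial `F` such that `F > 0` has finite
volume and `x_0` is integrable on it, whether the integral of `x_0` over `F > 0` is zero. -/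
def MomentZero : Prop :=
  ∃ f : (ℕ × Poly) →. Bool, Partrec f ∧ ∀ (n : ℕ) (F : Poly), Fine (n + 1) F →
    IntegrableOn (fun x : Fin (n + 1) → ℝ => x 0) (reg (n + 1) F) →
    ∃ b ∈ f (n, F), (b = true ↔ ∫ x in reg (n + 1) F, x 0 = 0)

lemma measurableSet_reg (n : ℕ) (F : Poly) : MeasurableSet (reg n F) :=
  measurableSet_lt measurable_const ((measurable_pev F).comp (measurable_ext n))

lemma lint_reg (n : ℕ) (F : Poly) (g : (Fin n → ℝ) → ENNReal) :
    ∫⁻ x in reg n F, g x = ∫⁻ x, chi F (ext x) * g x := by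
  classical
  rw [← lintegral_indicator (measurableSet_reg n F)]
  refine lintegral_congr fun x => ?_
  unfold chi
  by_cases h : 0 < pev (ext x) F
  · rw [Set.indicator_of_mem (by exact h), if_pos h, one_mul]
  · rw [Set.indicator_of_notMem (by exact h), if_neg h, zero_mul]

lemma vol_reg (n : ℕ) (F : Poly) : vol n [F] = volume (reg n F) := by
  rw [vol_eq]
  simp [reg]

lemma volume_reg (n : ℕ) (F : Poly) : volume (reg n F) = ∫⁻ x : Fin n → ℝ, chi F (ext x) * 1 := by
  rw [← lint_reg n F fun _ => 1]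
  simp

lemma volume_comb (m₁ : ℕ) (l₁ : List Poly) (h₁ : ∀ g ∈ l₁, IsPoly m₁ g) (m₂ : ℕ)
    (l₂ : List Poly) (h₂ : ∀ g ∈ l₂, IsPoly m₂ g) :
    volume (reg (comb m₁ l₁ m₂ l₂).1 (comb m₁ l₁ m₂ l₂).2) = vol m₁ l₁ + vol m₂ l₂ := by
  rw [volume_reg, lint_comb t_gad m₁ l₁ h₁ m₂ l₂ h₂ (fun _ => 1) measurable_const]
  simp

lemma volume_fold (L : ℕ) (l : List Poly) (hl : ∀ g ∈ l, IsPoly L g) :
    volume (reg (fold L l).1 (fold L l).2) = vol L l := by
  rw [volume_reg, lint_fold t_gad hl measurable_const (fun _ _ _ => rfl), vol]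
  simp

/-- the number of the variables of the combined region, minus one -/
def pre (c : ℕ × Poly) : ℕ × Poly := (c.1 - 1, c.2)

lemma pre_fst (m₁ : ℕ) (l₁ : List Poly) (m₂ : ℕ) (l₂ : List Poly) :
    (pre (comb m₁ l₁ m₂ l₂)).1 + 1 = (comb m₁ l₁ m₂ l₂).1 := by
  have := comb_fst m₁ l₁ m₂ l₂
  rw [pre]
  simp only
  omega

section

variable (m₁ : ℕ) (l₁ : List Poly) (h₁ : ∀ g ∈ l₁, IsPoly m₁ g ∧ IsInt g) (m₂ : ℕ)
  (l₂ : List Poly) (h₂ : ∀ g ∈ l₂, IsPoly m₂ g ∧ IsInt g)

include h₁ h₂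

lemma fine_comb (f₁ : vol m₁ l₁ ≠ ⊤) (f₂ : vol m₂ l₂ ≠ ⊤) :
    Fine (comb m₁ l₁ m₂ l₂).1 (comb m₁ l₁ m₂ l₂).2 := by
  refine ⟨isPoly_comb m₁ l₁ (fun g hg => (h₁ g hg).1) m₂ l₂ (fun g hg => (h₂ g hg).1),
    isInt_comb m₁ (fun g hg => (h₁ g hg).2) m₂ (fun g hg => (h₂ g hg).2), ?_⟩
  rw [volume_comb m₁ l₁ (fun g hg => (h₁ g hg).1) m₂ l₂ (fun g hg => (h₂ g hg).1)]
  exact ENNReal.add_ne_top.2 ⟨f₁, f₂⟩

/-- integrals over the combined region -/
lemma lint_pre (N : ℕ) (hN : N + 1 = (comb m₁ l₁ m₂ l₂).1) (f : ℝ → ENNReal) (hf : Measurable f) :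
    ∫⁻ x in reg (N + 1) (comb m₁ l₁ m₂ l₂).2, f (x 0) =
      vol m₁ l₁ * (∫⁻ t in Set.Ioo (0 : ℝ) 1, f t) +
        vol m₂ l₂ * ∫⁻ t in Set.Ioo (-1 : ℝ) 0, f t := by
  have h := lint_comb t_gad m₁ l₁ (fun g hg => (h₁ g hg).1) m₂ l₂ (fun g hg => (h₂ g hg).1) f hf
  rw [← h, lint_reg (N + 1) _ fun x => f (x 0)]
  rw [← hN]
  rfl

end

lemma moment_one : ∫⁻ t in Set.Ioo (0 : ℝ) 1, ENNReal.ofReal t = ENNReal.ofReal (1 / 2) := by
  rw [← ofReal_integral_eq_lintegral_ofReal]
  · rw [← integral_Ioc_eq_integral_Ioo, ← intervalIntegral.integral_of_le zero_le_one]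
    norm_num
  · exact (continuous_id.integrableOn_Icc (a := (0 : ℝ)) (b := 1)).mono_set Set.Ioo_subset_Icc_self
  · rw [Filter.EventuallyLE, ae_restrict_iff' measurableSet_Ioo]
    exact Filter.Eventually.of_forall fun t ht => ht.1.le

lemma moment_two : ∫⁻ t in Set.Ioo (-1 : ℝ) 0, ENNReal.ofReal (-t) = ENNReal.ofReal (1 / 2) := by
  rw [← ofReal_integral_eq_lintegral_ofReal]
  · rw [← integral_Ioc_eq_integral_Ioo, ← intervalIntegral.integral_of_le (by norm_num),
      intervalIntegral.integral_neg]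
    norm_num
  · exact (continuous_neg.integrableOn_Icc (a := (-1 : ℝ)) (b := 0)).mono_set
      Set.Ioo_subset_Icc_self
  · rw [Filter.EventuallyLE, ae_restrict_iff' measurableSet_Ioo]
    exact Filter.Eventually.of_forall fun t ht => by
      have := ht.2
      simp only [Pi.zero_apply]
      linarith

lemma moment_three : ∫⁻ t in Set.Ioo (0 : ℝ) 1, ENNReal.ofReal (-t) = 0 := by
  rw [setLIntegral_congr_fun (g := fun _ => 0) measurableSet_Ioo fun t ht => ?_]
  · simp
  · exact ENNReal.ofReal_of_nonpos (by linarith [ht.1])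

lemma moment_four : ∫⁻ t in Set.Ioo (-1 : ℝ) 0, ENNReal.ofReal t = 0 := by
  rw [setLIntegral_congr_fun (g := fun _ => 0) measurableSet_Ioo fun t ht => ?_]
  · simp
  · exact ENNReal.ofReal_of_nonpos (by linarith [ht.2])

section

variable (m₁ : ℕ) (l₁ : List Poly) (h₁ : ∀ g ∈ l₁, IsPoly m₁ g ∧ IsInt g) (m₂ : ℕ)
  (l₂ : List Poly) (h₂ : ∀ g ∈ l₂, IsPoly m₂ g ∧ IsInt g) (f₁ : vol m₁ l₁ ≠ ⊤) (f₂ : vol m₂ l₂ ≠ ⊤)

include h₁ h₂ f₁ f₂

/-- the first moment of the combined region -/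
lemma moment_comb (N : ℕ) (hN : N + 1 = (comb m₁ l₁ m₂ l₂).1) :
    IntegrableOn (fun x : Fin (N + 1) → ℝ => x 0) (reg (N + 1) (comb m₁ l₁ m₂ l₂).2) ∧
      ∫ x in reg (N + 1) (comb m₁ l₁ m₂ l₂).2, x 0 =
        ((vol m₁ l₁).toReal - (vol m₂ l₂).toReal) / 2 := by
  have e1 := lint_pre m₁ l₁ h₁ m₂ l₂ h₂ N hN (fun t => ENNReal.ofReal t) (by fun_prop)
  have e2 := lint_pre m₁ l₁ h₁ m₂ l₂ h₂ N hN (fun t => ENNReal.ofReal (-t)) (by fun_prop)
  rw [moment_one, moment_four, mul_zero, add_zero] at e1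
  rw [moment_two, moment_three, mul_zero, zero_add] at e2
  have hm : Measurable fun x : Fin (N + 1) → ℝ => x 0 := measurable_pi_apply 0
  have hi : IntegrableOn (fun x : Fin (N + 1) → ℝ => x 0) (reg (N + 1) (comb m₁ l₁ m₂ l₂).2) := by
    refine ⟨hm.aestronglyMeasurable, ?_⟩
    rw [hasFiniteIntegral_iff_norm]
    have h3 : ∀ x : Fin (N + 1) → ℝ, ENNReal.ofReal ‖x 0‖ =
        ENNReal.ofReal (x 0) + ENNReal.ofReal (-x 0) := by
      intro x
      rcases le_total 0 (x 0) with h | h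
      · rw [Real.norm_of_nonneg h, ENNReal.ofReal_of_nonpos (neg_nonpos.2 h), add_zero]
      · rw [Real.norm_of_nonpos h, ENNReal.ofReal_of_nonpos h, zero_add]
    simp only [h3]
    rw [lintegral_add_left (by fun_prop), e1, e2]
    exact ENNReal.add_lt_top.2 ⟨ENNReal.mul_lt_top f₁.lt_top ENNReal.ofReal_lt_top,
      ENNReal.mul_lt_top f₂.lt_top ENNReal.ofReal_lt_top⟩
  refine ⟨hi, ?_⟩
  rw [integral_eq_lintegral_pos_part_sub_lintegral_neg_part hi, e1, e2, ENNReal.toReal_mul,
    ENNReal.toReal_mul, ENNReal.toReal_ofReal (by norm_num)]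
  ring

omit f₁ f₂ in
/-- the two halves of the combined region -/
lemma halves_comb (N : ℕ) (hN : N + 1 = (comb m₁ l₁ m₂ l₂).1) :
    volume {x | x ∈ reg (N + 1) (comb m₁ l₁ m₂ l₂).2 ∧ 0 < x 0} = vol m₁ l₁ ∧
      volume {x | x ∈ reg (N + 1) (comb m₁ l₁ m₂ l₂).2 ∧ x 0 < 0} = vol m₂ l₂ := by
  have e1 := lint_pre m₁ l₁ h₁ m₂ l₂ h₂ N hN ((Set.Ioi (0 : ℝ)).indicator 1)
    (measurable_one.indicator measurableSet_Ioi)
  have e2 := lint_pre m₁ l₁ h₁ m₂ l₂ h₂ N hN ((Set.Iio (0 : ℝ)).indicator 1)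
    (measurable_one.indicator measurableSet_Iio)
  have hs : ∀ (S : Set ℝ), MeasurableSet S → ∀ R : Set (Fin (N + 1) → ℝ), MeasurableSet R →
      ∫⁻ x in R, S.indicator 1 (x 0) = volume {x | x ∈ R ∧ x 0 ∈ S} := by
    intro S hS R hR
    have hS' : MeasurableSet {x : Fin (N + 1) → ℝ | x 0 ∈ S} := (measurable_pi_apply 0) hS
    have : (fun x : Fin (N + 1) → ℝ => S.indicator (1 : ℝ → ENNReal) (x 0)) =
        {x : Fin (N + 1) → ℝ | x 0 ∈ S}.indicator 1 := rfl
    rw [this, lintegral_indicator_one hS', Measure.restrict_apply hS', Set.inter_comm]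
    rfl
  rw [hs _ measurableSet_Ioi _ (measurableSet_reg _ _)] at e1
  rw [hs _ measurableSet_Iio _ (measurableSet_reg _ _)] at e2
  have i1 : ∫⁻ t in Set.Ioo (0 : ℝ) 1, (Set.Ioi (0 : ℝ)).indicator (1 : ℝ → ENNReal) t = 1 := by
    rw [lintegral_indicator_one measurableSet_Ioi, Measure.restrict_apply measurableSet_Ioi,
      Set.inter_eq_right.2 fun t ht => ht.1]
    simp
  have i2 : ∫⁻ t in Set.Ioo (-1 : ℝ) 0, (Set.Ioi (0 : ℝ)).indicator (1 : ℝ → ENNReal) t = 0 := by
    rw [lintegral_indicator_one measurableSet_Ioi, Measure.restrict_apply measurableSet_Ioi,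
      show Set.Ioi (0 : ℝ) ∩ Set.Ioo (-1) 0 = ∅ from
        Set.eq_empty_iff_forall_notMem.2 fun t ht => absurd ht.1 (not_lt.2 ht.2.2.le)]
    simp
  have i3 : ∫⁻ t in Set.Ioo (0 : ℝ) 1, (Set.Iio (0 : ℝ)).indicator (1 : ℝ → ENNReal) t = 0 := by
    rw [lintegral_indicator_one measurableSet_Iio, Measure.restrict_apply measurableSet_Iio,
      show Set.Iio (0 : ℝ) ∩ Set.Ioo 0 1 = ∅ from
        Set.eq_empty_iff_forall_notMem.2 fun t ht => absurd ht.1 (not_lt.2 ht.2.1.le)]
    simp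
  have i4 : ∫⁻ t in Set.Ioo (-1 : ℝ) 0, (Set.Iio (0 : ℝ)).indicator (1 : ℝ → ENNReal) t = 1 := by
    rw [lintegral_indicator_one measurableSet_Iio, Measure.restrict_apply measurableSet_Iio,
      Set.inter_eq_right.2 fun t ht => ht.2]
    simp
  rw [i1, i2, mul_one, mul_zero, add_zero] at e1
  rw [i3, i4, mul_one, mul_zero, zero_add] at e2
  exact ⟨e1, e2⟩

end

lemma val_re (p : Pres) : (pval p).re = val p.1 := by simp [pval]

lemma val_im (p : Pres) : (pval p).im = val p.2 := by simp [pval]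

/-- **From equality of volumes to equality of periods.** -/
theorem decidable_of_volumes (h : EqualVolumes) : AlgDecidable (fun a b => a = b) := by
  obtain ⟨f, hf, hd⟩ := h
  let T : Code × Code → ℕ × Poly × Poly := fun p =>
    ((comb (1 + p.1.1) (regP p.1) (1 + p.2.1) (regN p.2)).1,
      (comb (1 + p.1.1) (regP p.1) (1 + p.2.1) (regN p.2)).2,
      (comb (1 + p.1.1) (regN p.1) (1 + p.2.1) (regP p.2)).2)
  have hT : Primrec T := by
    have n1 : Primrec fun p : Code × Code => 1 + p.1.1 :=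
      Primrec.nat_add.comp (Primrec.const 1) (Primrec.fst.comp Primrec.fst)
    have n2 : Primrec fun p : Code × Code => 1 + p.2.1 :=
      Primrec.nat_add.comp (Primrec.const 1) (Primrec.fst.comp Primrec.snd)
    have A := Cmp.comb_p n1 (Cmp.regP_p t_zero Primrec.fst) n2 (Cmp.regN_p t_zero Primrec.snd)
    have B := Cmp.comb_p n1 (Cmp.regN_p t_zero Primrec.fst) n2 (Cmp.regP_p t_zero Primrec.snd)
    exact Primrec.pair (Primrec.fst.comp A) (Primrec.pair (Primrec.snd.comp A)
      (Primrec.snd.comp B))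
  have key : ∀ c c' : Code, Adm c → Adm c' → ∃ b ∈ f (T (c, c')), (b = true ↔ val c = val c') := by
    intro c c' hc hc'
    have r := isPoly_reg hc
    have r' := isPoly_reg hc'
    have v := fin_reg c hc t_zero
    have v' := fin_reg c' hc' t_zero
    have F1 := fine_comb (1 + c.1) (regP c) r.1 (1 + c'.1) (regN c') r'.2 v.1 v'.2
    have F2 := fine_comb (1 + c.1) (regN c) r.2 (1 + c'.1) (regP c') r'.1 v.2 v'.1
    have hN : (comb (1 + c.1) (regN c) (1 + c'.1) (regP c')).1 =
        (comb (1 + c.1) (regP c) (1 + c'.1) (regN c')).1 := by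
      rw [comb_fst, comb_fst, length_reg c, length_reg c']
    have e1 := volume_comb (1 + c.1) (regP c) (fun g hg => (r.1 g hg).1) (1 + c'.1) (regN c')
      (fun g hg => (r'.2 g hg).1)
    have e2 := volume_comb (1 + c.1) (regN c) (fun g hg => (r.2 g hg).1) (1 + c'.1) (regP c')
      (fun g hg => (r'.1 g hg).1)
    rw [hN] at F2 e2
    obtain ⟨b, hb, h1⟩ := hd _ _ _ F1 F2
    refine ⟨b, hb, h1.trans ?_⟩
    rw [e1, e2, val_eq c hc t_zero, val_eq c' hc' t_zero]
    rw [← ENNReal.toReal_eq_toReal_iff' (ENNReal.add_ne_top.2 ⟨v.1, v'.2⟩)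
      (ENNReal.add_ne_top.2 ⟨v.2, v'.1⟩), ENNReal.toReal_add v.1 v'.2, ENNReal.toReal_add v.2 v'.1]
    constructor <;> intro h <;> linarith
  have hre : AlgDecidable (fun a b => a.re = b.re) := by
    refine ⟨fun x => f (T (x.1.1, x.2.1)), ?_, ?_⟩
    · exact hf.comp (hT.to_comp.comp ((Primrec.fst.comp Primrec.fst).pair
        (Primrec.fst.comp Primrec.snd)).to_comp)
    · intro p q hp hq
      obtain ⟨b, hb, h1⟩ := key p.1 q.1 hp.1 hq.1
      exact ⟨b, hb, h1.trans (by simp only [val_re])⟩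
  have him : AlgDecidable (fun a b => a.im = b.im) := by
    refine ⟨fun x => f (T (x.1.2, x.2.2)), ?_, ?_⟩
    · exact hf.comp (hT.to_comp.comp ((Primrec.snd.comp Primrec.fst).pair
        (Primrec.snd.comp Primrec.snd)).to_comp)
    · intro p q hp hq
      obtain ⟨b, hb, h1⟩ := key p.2 q.2 hp.2 hq.2
      exact ⟨b, hb, h1.trans (by simp only [val_im])⟩
  exact dec_congr _ _ (dec_and _ _ hre him) fun a b => (Complex.ext_iff).symm

lemma comb_one (n : ℕ) (F G : Poly) (hF : Fine n F) (hG : Fine n G) :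
    (∀ g ∈ [F], IsPoly n g ∧ IsInt g) ∧ (∀ g ∈ [G], IsPoly n g ∧ IsInt g) ∧
      vol n [F] ≠ ⊤ ∧ vol n [G] ≠ ⊤ := by
  refine ⟨?_, ?_, ?_, ?_⟩
  · intro g hg
    rw [List.mem_singleton.1 hg]
    exact ⟨hF.1, hF.2.1⟩
  · intro g hg
    rw [List.mem_singleton.1 hg]
    exact ⟨hG.1, hG.2.1⟩
  · rw [vol_reg]
    exact hF.2.2
  · rw [vol_reg]
    exact hG.2.2

/-- the combination of two regions -/
def two (p : ℕ × Poly × Poly) : ℕ × Poly := pre (comb p.1 [p.2.1] p.1 [p.2.2])

lemma two_prim : Primrec two := by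
  have n : Primrec fun p : ℕ × Poly × Poly => p.1 := Primrec.fst
  have F : Primrec fun p : ℕ × Poly × Poly => [p.2.1] :=
    Primrec.list_cons.comp (Primrec.fst.comp Primrec.snd) (Primrec.const [])
  have G : Primrec fun p : ℕ × Poly × Poly => [p.2.2] :=
    Primrec.list_cons.comp (Primrec.snd.comp Primrec.snd) (Primrec.const [])
  have h := Cmp.comb_p n F n G
  exact Primrec.pair (Primrec.nat_sub.comp (Primrec.fst.comp h) (Primrec.const 1))
    (Primrec.snd.comp h)

theorem volumes_of_bisected (h : Bisected) : EqualVolumes := by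
  obtain ⟨f, hf, hd⟩ := h
  refine ⟨fun p => f (two p), hf.comp two_prim.to_comp, fun n F G hF hG => ?_⟩
  obtain ⟨a, b, v, w⟩ := comb_one n F G hF hG
  have hN := pre_fst n [F] n [G]
  have hfine := fine_comb n [F] a n [G] b v w
  rw [← hN] at hfine
  obtain ⟨c, hc, h1⟩ := hd _ _ hfine
  refine ⟨c, hc, ?_⟩
  obtain ⟨e1, e2⟩ := halves_comb n [F] a n [G] b _ hN
  rw [h1, e1, e2, vol_reg, vol_reg]

theorem volumes_of_moment (h : MomentZero) : EqualVolumes := by
  obtain ⟨f, hf, hd⟩ := h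
  refine ⟨fun p => f (two p), hf.comp two_prim.to_comp, fun n F G hF hG => ?_⟩
  obtain ⟨a, b, v, w⟩ := comb_one n F G hF hG
  have hN := pre_fst n [F] n [G]
  have hfine := fine_comb n [F] a n [G] b v w
  rw [← hN] at hfine
  obtain ⟨e1, e2⟩ := moment_comb n [F] a n [G] b v w _ hN
  obtain ⟨c, hc, h1⟩ := hd _ _ hfine e1
  refine ⟨c, hc, ?_⟩
  rw [h1, e2, vol_reg, vol_reg]
  rw [← ENNReal.toReal_eq_toReal_iff' hF.2.2 hG.2.2]
  constructor <;> intro h <;> linarith

/-! ### Converse -/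

/-- the volume of a region as an explicit integral -/
def volCode (n : ℕ) (l : List Poly) : Code := (n, natP 1, natP 1, l.map fun g => (true, g))

lemma inDom_vol (l : List Poly) (X : ℕ → ℝ) :
    InDom X (l.map fun g => (true, g)) ↔ ∀ g ∈ l, 0 < pev X g := by
  unfold InDom Sat
  simp

lemma integrand_vol (n : ℕ) (l : List Poly) (x : Fin n → ℝ) :
    integrand (ext x) (volCode n l) =
      {x : Fin n → ℝ | ∀ g ∈ l, 0 < pev (ext x) g}.indicator (fun _ => (1 : ℝ)) x := by
  classical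
  unfold integrand volCode
  simp only [inDom_vol, pev_natP]
  by_cases h : ∀ g ∈ l, 0 < pev (ext x) g
  · rw [if_pos h, Set.indicator_of_mem (by exact h)]
    norm_num
  · rw [if_neg h, Set.indicator_of_notMem (by exact h)]

lemma measurableSet_list (n : ℕ) (l : List Poly) :
    MeasurableSet {x : Fin n → ℝ | ∀ g ∈ l, 0 < pev (ext x) g} := by
  classical
  have : {x : Fin n → ℝ | ∀ g ∈ l, 0 < pev (ext x) g} =
      ⋂ g ∈ l.toFinset, {x : Fin n → ℝ | 0 < pev (ext x) g} := by
    ext x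
    simp
  rw [this]
  exact Finset.measurableSet_biInter _ fun g _ => measurableSet_reg n g

lemma vol_code (n : ℕ) (l : List Poly) (hl : ∀ g ∈ l, IsPoly n g)
    (hv : volume {x : Fin n → ℝ | ∀ g ∈ l, 0 < pev (ext x) g} ≠ ⊤) :
    Adm (volCode n l) ∧
      val (volCode n l) = (volume {x : Fin n → ℝ | ∀ g ∈ l, 0 < pev (ext x) g}).toReal := by
  have hm := measurableSet_list n l
  have h1 : (fun x : Fin n → ℝ => integrand (ext x) (volCode n l)) =
      {x : Fin n → ℝ | ∀ g ∈ l, 0 < pev (ext x) g}.indicator (fun _ => (1 : ℝ)) :=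
    funext fun x => integrand_vol n l x
  refine ⟨⟨isPoly_natP _ _, isPoly_natP _ _, ?_, ⟨0, ?_⟩, ?_⟩, ?_⟩
  · intro g hg
    obtain ⟨g', hg', rfl⟩ := List.mem_map.1 hg
    exact hl g' hg'
  · change pev _ (natP 1) ≠ 0
    rw [pev_natP]
    norm_num
  · change Integrable (fun x : Fin n → ℝ => integrand (ext x) (volCode n l))
    rw [h1, integrable_indicator_iff hm]
    exact integrableOn_const hv
  · change ∫ x : Fin n → ℝ, integrand (ext x) (volCode n l) = _
    rw [h1, integral_indicator hm]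
    simp [Measure.real]

lemma volCode_p {α : Type*} [Primcodable α] {n : α → ℕ} {l : α → List Poly} (hn : Primrec n)
    (hl : Primrec l) : Primrec fun a => volCode (n a) (l a) := by
  have h : Primrec fun p : α × Poly => ((true, p.2) : Bool × Poly) :=
    Primrec.pair (Primrec.const true) Primrec.snd
  exact Primrec.pair hn (Primrec.pair (Primrec.const _) (Primrec.pair (Primrec.const _)
    (Primrec.list_map hl h.to₂)))

lemma list_one (n : ℕ) (F : Poly) :
    {x : Fin n → ℝ | ∀ g ∈ [F], 0 < pev (ext x) g} = reg n F := by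
  ext x
  simp [reg]

lemma pair_val (c c' : Code) (hc : Adm c) (hc' : Adm c') :
    PAdm (c, zeroCode) ∧ PAdm (c', zeroCode) ∧
      (pval (c, zeroCode) = pval (c', zeroCode) ↔ val c = val c') := by
  refine ⟨⟨hc, zero_code.1⟩, ⟨hc', zero_code.1⟩, ?_⟩
  simp [pval]

/-- **From equality of periods to equality of volumes.** -/
theorem volumes_of_decidable (h : AlgDecidable (fun a b => a = b)) : EqualVolumes := by
  obtain ⟨f, hf, hd⟩ := h
  refine ⟨fun p => f ((volCode p.1 [p.2.1], zeroCode), (volCode p.1 [p.2.2], zeroCode)),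
    hf.comp (Primrec.to_comp ?_), fun n F G hF hG => ?_⟩
  · have n : Primrec fun p : ℕ × Poly × Poly => p.1 := Primrec.fst
    have F : Primrec fun p : ℕ × Poly × Poly => [p.2.1] :=
      Primrec.list_cons.comp (Primrec.fst.comp Primrec.snd) (Primrec.const [])
    have G : Primrec fun p : ℕ × Poly × Poly => [p.2.2] :=
      Primrec.list_cons.comp (Primrec.snd.comp Primrec.snd) (Primrec.const [])
    exact Primrec.pair (Primrec.pair (volCode_p n F) (Primrec.const _))
      (Primrec.pair (volCode_p n G) (Primrec.const _))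
  · obtain ⟨a, b, v, w⟩ := comb_one n F G hF hG
    have c1 := vol_code n [F] (fun g hg => (a g hg).1) (by rw [list_one]; exact hF.2.2)
    have c2 := vol_code n [G] (fun g hg => (b g hg).1) (by rw [list_one]; exact hG.2.2)
    obtain ⟨p1, p2, p3⟩ := pair_val _ _ c1.1 c2.1
    obtain ⟨c, hc, h1⟩ := hd _ _ p1 p2
    refine ⟨c, hc, h1.trans (p3.trans ?_)⟩
    rw [c1.2, c2.2, list_one, list_one]
    exact ENNReal.toReal_eq_toReal_iff' hF.2.2 hG.2.2

theorem bisected_of_decidable (h : AlgDecidable (fun a b => a = b)) : Bisected := by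
  obtain ⟨f, hf, hd⟩ := h
  refine ⟨fun p => f ((volCode (p.1 + 1) [p.2, varP 0], zeroCode),
    (volCode (p.1 + 1) [p.2, negP (varP 0)], zeroCode)),
    hf.comp (Primrec.to_comp ?_), fun n F hF => ?_⟩
  · have n : Primrec fun p : ℕ × Poly => p.1 + 1 :=
      Primrec.nat_add.comp Primrec.fst (Primrec.const 1)
    have F : ∀ g : Poly, Primrec fun p : ℕ × Poly => [p.2, g] := fun g =>
      Primrec.list_cons.comp Primrec.snd (Primrec.const [g])
    exact Primrec.pair (Primrec.pair (volCode_p n (F _)) (Primrec.const _))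
      (Primrec.pair (volCode_p n (F _)) (Primrec.const _))
  · have hv : IsPoly (n + 1) (varP 0) := isPoly_varP (by omega)
    have s1 : {x : Fin (n + 1) → ℝ | ∀ g ∈ [F, varP 0], 0 < pev (ext x) g} =
        {x | x ∈ reg (n + 1) F ∧ 0 < x 0} := by
      ext x
      have : (ext x) 0 = x 0 := by simp [ext]
      simp [reg, pev_varP, this]
    have s2 : {x : Fin (n + 1) → ℝ | ∀ g ∈ [F, negP (varP 0)], 0 < pev (ext x) g} =
        {x | x ∈ reg (n + 1) F ∧ x 0 < 0} := by
      ext x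
      have : (ext x) 0 = x 0 := by simp [ext]
      simp [reg, pev_varP, pev_negP, this]
    have f1 : volume {x : Fin (n + 1) → ℝ | x ∈ reg (n + 1) F ∧ 0 < x 0} ≠ ⊤ :=
      ((measure_mono fun x hx => hx.1).trans_lt hF.2.2.lt_top).ne
    have f2 : volume {x : Fin (n + 1) → ℝ | x ∈ reg (n + 1) F ∧ x 0 < 0} ≠ ⊤ :=
      ((measure_mono fun x hx => hx.1).trans_lt hF.2.2.lt_top).ne
    have c1 := vol_code (n + 1) [F, varP 0] (by simpa using ⟨hF.1, hv⟩) (by rw [s1]; exact f1)
    have c2 := vol_code (n + 1) [F, negP (varP 0)] (by simpa using ⟨hF.1, isPoly_negP hv⟩)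
      (by rw [s2]; exact f2)
    obtain ⟨p1, p2, p3⟩ := pair_val _ _ c1.1 c2.1
    obtain ⟨c, hc, h1⟩ := hd _ _ p1 p2
    refine ⟨c, hc, h1.trans (p3.trans ?_)⟩
    rw [c1.2, c2.2, s1, s2]
    exact ENNReal.toReal_eq_toReal_iff' f1 f2

/-- the first moment as an explicit integral -/
def momCode (n : ℕ) (F : Poly) : Code := (n, varP 0, natP 1, [(true, F)])

theorem moment_of_decidable (h : AlgDecidable (fun a b => a = b)) : MomentZero := by
  classical
  obtain ⟨f, hf, hd⟩ := h
  refine ⟨fun p => f ((momCode (p.1 + 1) p.2, zeroCode), (zeroCode, zeroCode)),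
    hf.comp (Primrec.to_comp ?_), fun n F hF hI => ?_⟩
  · have n : Primrec fun p : ℕ × Poly => p.1 + 1 :=
      Primrec.nat_add.comp Primrec.fst (Primrec.const 1)
    have F : Primrec fun p : ℕ × Poly => [((true, p.2) : Bool × Poly)] :=
      Primrec.list_cons.comp (Primrec.pair (Primrec.const true) Primrec.snd) (Primrec.const [])
    exact Primrec.pair (Primrec.pair (Primrec.pair n (Primrec.pair (Primrec.const _)
      (Primrec.pair (Primrec.const _) F))) (Primrec.const _)) (Primrec.const _)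
  · have hm := measurableSet_reg (n + 1) F
    have h1 : (fun x : Fin (n + 1) → ℝ => integrand (ext x) (momCode (n + 1) F)) =
        (reg (n + 1) F).indicator (fun x => x 0) := by
      funext x
      have h2 : (ext x) 0 = x 0 := by simp [ext]
      have h3 : InDom (ext x) [(true, F)] ↔ 0 < pev (ext x) F := by
        have := inDom_vol [F] (ext x)
        simpa using this
      unfold integrand momCode
      simp only [h3, pev_natP, pev_varP, h2]
      by_cases h : 0 < pev (ext x) F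
      · rw [if_pos h, Set.indicator_of_mem (by exact h)]
        norm_num
      · rw [if_neg h, Set.indicator_of_notMem (by exact h)]
    have hA : Adm (momCode (n + 1) F) := by
      refine ⟨isPoly_varP (by change 0 < n + 1; omega), isPoly_natP _ _, ?_, ⟨0, ?_⟩, ?_⟩
      · intro g hg
        rw [List.mem_singleton.1 hg]
        exact hF.1
      · change pev _ (natP 1) ≠ 0
        rw [pev_natP]
        norm_num
      · change Integrable (fun x : Fin (n + 1) → ℝ => integrand (ext x) (momCode (n + 1) F))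
        rw [h1, integrable_indicator_iff hm]
        exact hI
    have hV : val (momCode (n + 1) F) = ∫ x in reg (n + 1) F, x 0 := by
      change ∫ x : Fin (n + 1) → ℝ, integrand (ext x) (momCode (n + 1) F) = _
      rw [h1, integral_indicator hm]
    obtain ⟨p1, p2, p3⟩ := pair_val _ _ hA zero_code.1
    obtain ⟨c, hc, h2⟩ := hd _ _ p1 p2
    refine ⟨c, hc, h2.trans (p3.trans ?_)⟩
    rw [hV, zero_code.2]

/-! ### Normal forms -/

/-- **A real period as a difference of two volumes.** -/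
theorem normal_volumes : ∃ R : Code → ℕ × Poly × Poly, Primrec R ∧ ∀ c, Adm c →
    Fine (R c).1 (R c).2.1 ∧ Fine (R c).1 (R c).2.2 ∧
      val c = (volume (reg (R c).1 (R c).2.1)).toReal - (volume (reg (R c).1 (R c).2.2)).toReal := by
  refine ⟨fun c => ((fold (1 + c.1) (regP c)).1, (fold (1 + c.1) (regP c)).2,
    (fold (1 + c.1) (regN c)).2), ?_, fun c hc => ?_⟩
  · have n : Primrec fun c : Code => 1 + c.1 := Primrec.nat_add.comp (Primrec.const 1) Primrec.fst
    have A := PrimT.fold_p n (Cmp.regP_p t_zero Primrec.id)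
    have B := PrimT.fold_p n (Cmp.regN_p t_zero Primrec.id)
    exact Primrec.pair (Primrec.fst.comp A) (Primrec.pair (Primrec.snd.comp A)
      (Primrec.snd.comp B))
  · have r := isPoly_reg hc
    have v := fin_reg c hc t_zero
    have hN : (fold (1 + c.1) (regN c)).1 = (fold (1 + c.1) (regP c)).1 := by
      rw [fold_fst, fold_fst, length_reg]
    have e1 := volume_fold (1 + c.1) (regP c) fun g hg => (r.1 g hg).1
    have e2 := volume_fold (1 + c.1) (regN c) fun g hg => (r.2 g hg).1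
    have q1 : IsPoly (fold (1 + c.1) (regP c)).1 (fold (1 + c.1) (regP c)).2 :=
      isPoly_foldF _ (1 + c.1, natP 1) (isPoly_natP _ _) fun g hg => (r.1 g hg).1
    have q2 : IsPoly (fold (1 + c.1) (regN c)).1 (fold (1 + c.1) (regN c)).2 :=
      isPoly_foldF _ (1 + c.1, natP 1) (isPoly_natP _ _) fun g hg => (r.2 g hg).1
    rw [hN] at e2 q2
    refine ⟨⟨q1, isInt_fold fun g hg => (r.1 g hg).2, ?_⟩,
      ⟨q2, isInt_fold fun g hg => (r.2 g hg).2, ?_⟩, ?_⟩
    · rw [e1]
      exact v.1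
    · rw [e2]
      exact v.2
    · rw [e1, e2, val_eq c hc t_zero]

/-- **A real period as a first moment.** -/
theorem normal_moment : ∃ R : Code → ℕ × Poly, Primrec R ∧ ∀ c, Adm c →
    Fine ((R c).1 + 1) (R c).2 ∧
      IntegrableOn (fun x : Fin ((R c).1 + 1) → ℝ => x 0) (reg ((R c).1 + 1) (R c).2) ∧
      val c = 2 * ∫ x in reg ((R c).1 + 1) (R c).2, x 0 := by
  refine ⟨fun c => pre (comb (1 + c.1) (regP c) (1 + c.1) (regN c)), ?_, fun c hc => ?_⟩
  · have n : Primrec fun c : Code => 1 + c.1 := Primrec.nat_add.comp (Primrec.const 1) Primrec.fst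
    have h := Cmp.comb_p n (Cmp.regP_p t_zero Primrec.id) n (Cmp.regN_p t_zero Primrec.id)
    exact Primrec.pair (Primrec.nat_sub.comp (Primrec.fst.comp h) (Primrec.const 1))
      (Primrec.snd.comp h)
  · have r := isPoly_reg hc
    have v := fin_reg c hc t_zero
    have hN := pre_fst (1 + c.1) (regP c) (1 + c.1) (regN c)
    have hfine := fine_comb (1 + c.1) (regP c) r.1 (1 + c.1) (regN c) r.2 v.1 v.2
    rw [← hN] at hfine
    obtain ⟨e1, e2⟩ := moment_comb (1 + c.1) (regP c) r.1 (1 + c.1) (regN c) r.2 v.1 v.2 _ hN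
    refine ⟨hfine, e1, ?_⟩
    change val c = 2 * ∫ x in reg _ (comb (1 + c.1) (regP c) (1 + c.1) (regN c)).2, x 0
    rw [e2, val_eq c hc t_zero]
    ring

end Pool.Agent.H652.PV
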