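import Pool.Agent.H652.PV.Quar

/-!
# Equality of periods and regions given by one quartic inequality
-/

set_option autoImplicit false
set_option synthInstance.maxSize 2000

namespace Pool.Agent.H652.PV

open Pool.Agent.TH960.PE MeasureTheory

/-- `F` is a polynomial in `n` variables with integer coefficients and of degree at most four, and the
region `F > 0` has finite volume. -/
def Fine4 (n : ℕ) (F : Poly) : Prop := Fine n F ∧ Deg 4 F

/-- There is an algorithm which decides, for integer polynomials `F`, `G` of degree at most four such that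
`F > 0` and `G > 0` have finite volume, whether these volumes are equal. -/
def EqualVolumes4 : Prop :=
  ∃ f : (ℕ × Poly × Poly) →. Bool, Partrec f ∧ ∀ (n : ℕ) (F G : Poly), Fine4 n F → Fine4 n G →
    ∃ b ∈ f (n, F, G), (b = true ↔ volume (reg n F) = volume (reg n G))

theorem volumes4_of_volumes (h : EqualVolumes) : EqualVolumes4 := by
  obtain ⟨f, hf, hd⟩ := h
  exact ⟨f, hf, fun n F G hF hG => hd n F G hF.1 hG.1⟩

/-- three regions -/
def q3 (p : ℕ × Poly × Poly × Poly) : ℕ × Poly × Poly × Poly :=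
  ((quar p.1 (2 * (dg p.2.1 + (dg p.2.2.1 + dg p.2.2.2)))
      (kk p.1 (2 * (dg p.2.1 + (dg p.2.2.1 + dg p.2.2.2)))
        (asum p.2.1 + (asum p.2.2.1 + asum p.2.2.2))) p.2.1).1,
    (quar p.1 (2 * (dg p.2.1 + (dg p.2.2.1 + dg p.2.2.2)))
      (kk p.1 (2 * (dg p.2.1 + (dg p.2.2.1 + dg p.2.2.2)))
        (asum p.2.1 + (asum p.2.2.1 + asum p.2.2.2))) p.2.1).2,
    (quar p.1 (2 * (dg p.2.1 + (dg p.2.2.1 + dg p.2.2.2)))
      (kk p.1 (2 * (dg p.2.1 + (dg p.2.2.1 + dg p.2.2.2)))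
        (asum p.2.1 + (asum p.2.2.1 + asum p.2.2.2))) p.2.2.1).2,
    (quar p.1 (2 * (dg p.2.1 + (dg p.2.2.1 + dg p.2.2.2)))
      (kk p.1 (2 * (dg p.2.1 + (dg p.2.2.1 + dg p.2.2.2)))
        (asum p.2.1 + (asum p.2.2.1 + asum p.2.2.2))) p.2.2.2).2)

lemma q3_p (hP : S_qprim) : Primrec q3 := by
  obtain ⟨h1, h2, h3, h4⟩ := hP
  have n : Primrec fun p : ℕ × Poly × Poly × Poly => p.1 := Primrec.fst
  have a : Primrec fun p : ℕ × Poly × Poly × Poly => p.2.1 := Primrec.fst.comp Primrec.snd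
  have b : Primrec fun p : ℕ × Poly × Poly × Poly => p.2.2.1 :=
    Primrec.fst.comp (Primrec.snd.comp Primrec.snd)
  have c : Primrec fun p : ℕ × Poly × Poly × Poly => p.2.2.2 :=
    Primrec.snd.comp (Primrec.snd.comp Primrec.snd)
  have d : Primrec fun p : ℕ × Poly × Poly × Poly =>
      2 * (dg p.2.1 + (dg p.2.2.1 + dg p.2.2.2)) :=
    Primrec.nat_mul.comp (Primrec.const 2) (Primrec.nat_add.comp (h4.comp a)
      (Primrec.nat_add.comp (h4.comp b) (h4.comp c)))
  have B : Primrec fun p : ℕ × Poly × Poly × Poly =>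
      asum p.2.1 + (asum p.2.2.1 + asum p.2.2.2) :=
    Primrec.nat_add.comp (h3.comp a) (Primrec.nat_add.comp (h3.comp b) (h3.comp c))
  have K := h2.comp (n.pair (d.pair B))
  have q : ∀ F : ℕ × Poly × Poly × Poly → Poly, Primrec F → Primrec fun p =>
      quar p.1 (2 * (dg p.2.1 + (dg p.2.2.1 + dg p.2.2.2)))
        (kk p.1 (2 * (dg p.2.1 + (dg p.2.2.1 + dg p.2.2.2)))
          (asum p.2.1 + (asum p.2.2.1 + asum p.2.2.2))) (F p) :=
    fun F hF => h1.comp ((n.pair d).pair (K.pair hF))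
  exact (Primrec.fst.comp (q _ a)).pair ((Primrec.snd.comp (q _ a)).pair
    ((Primrec.snd.comp (q _ b)).pair (Primrec.snd.comp (q _ c))))

section

variable (hJ : S_jl) (hR : S_rot) (hT : S_tree) (hI : S_inn) (hC : S_cst) (hB : S_base)
  (hV : S_qval)

include hJ hR hT hI hC hB hV

lemma fine4_quar (n d B : ℕ) (F : Poly) (hF : Fine n F) (hd : dg F ≤ d) (he : Even d)
    (hs : asum F ≤ B) :
    Fine4 (quar n d (kk n d B) F).1 (quar n d (kk n d B) F).2 := by
  have hv := volume_quar hJ hR hT hI hB hV n d B F hF.1 hd he hs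
  obtain ⟨t1, t2, -⟩ := hT (kk n d B) n (varP (2 * n + 2)) d (hom n d F) (2 * n + 6)
    (isPoly_varP (by omega)) (by omega) (hV.2.2.1 n d F hF.1 hd)
  refine ⟨⟨?_, hV.2.2.2.2 _ _ _ _ hF.2.1, ?_⟩, hV.2.2.2.1 _ _ _ _⟩
  · exact SChain.isPoly_oneP (isPoly_mulS (isPoly_natP _ _) (SChain.isPoly_append
      (isPoly_mono (Nat.le_add_right _ _) (Quar.isPoly_quarB n _))
      (SChain.isPoly_append t1 (isPoly_sqP (SChain.isPoly_oneP t2)))))
  · rw [hv]
    exact ENNReal.mul_ne_top (hC n d B).2 hF.2.2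

/-- the volumes of the three regions -/
lemma q3_spec (n : ℕ) (F G H : Poly) (hF : Fine n F) (hG : Fine n G) (hH : Fine n H) :
    Fine4 (q3 (n, F, G, H)).1 (q3 (n, F, G, H)).2.1 ∧
      Fine4 (q3 (n, F, G, H)).1 (q3 (n, F, G, H)).2.2.1 ∧
        Fine4 (q3 (n, F, G, H)).1 (q3 (n, F, G, H)).2.2.2 ∧
    ∃ C : ENNReal, C ≠ 0 ∧ C ≠ ⊤ ∧
      volume (reg (q3 (n, F, G, H)).1 (q3 (n, F, G, H)).2.1) = C * volume (reg n F) ∧
      volume (reg (q3 (n, F, G, H)).1 (q3 (n, F, G, H)).2.2.1) = C * volume (reg n G) ∧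
      volume (reg (q3 (n, F, G, H)).1 (q3 (n, F, G, H)).2.2.2) = C * volume (reg n H) := by
  have he : Even (2 * (dg F + (dg G + dg H))) := even_two_mul _
  have d1 : dg F ≤ 2 * (dg F + (dg G + dg H)) := by omega
  have d2 : dg G ≤ 2 * (dg F + (dg G + dg H)) := by omega
  have d3 : dg H ≤ 2 * (dg F + (dg G + dg H)) := by omega
  have s1 : asum F ≤ asum F + (asum G + asum H) := by omega
  have s2 : asum G ≤ asum F + (asum G + asum H) := by omega
  have s3 : asum H ≤ asum F + (asum G + asum H) := by omega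
  refine ⟨fine4_quar hJ hR hT hI hC hB hV n _ _ F hF d1 he s1,
    fine4_quar hJ hR hT hI hC hB hV n _ _ G hG d2 he s2,
    fine4_quar hJ hR hT hI hC hB hV n _ _ H hH d3 he s3, _, (hC n _ _).1, (hC n _ _).2,
    volume_quar hJ hR hT hI hB hV n _ _ F hF.1 d1 he s1,
    volume_quar hJ hR hT hI hB hV n _ _ G hG.1 d2 he s2,
    volume_quar hJ hR hT hI hB hV n _ _ H hH.1 d3 he s3⟩

lemma fine_nil (n : ℕ) : Fine n [] := by
  refine ⟨fun m hm => absurd hm List.not_mem_nil, fun m hm => absurd hm List.not_mem_nil, ?_⟩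
  have : reg n [] = ∅ := by
    ext x
    simp [reg, pev]
  rw [this]
  simp

theorem volumes_of_volumes4 (hP : S_qprim) (h : EqualVolumes4) : EqualVolumes := by
  obtain ⟨f, hf, hd⟩ := h
  have hq : Primrec fun p : ℕ × Poly × Poly => q3 (p.1, p.2.1, p.2.2, []) :=
    (q3_p hP).comp (Primrec.fst.pair ((Primrec.fst.comp Primrec.snd).pair
      ((Primrec.snd.comp Primrec.snd).pair (Primrec.const []))))
  have hq' : Primrec fun p : ℕ × Poly × Poly => (((q3 (p.1, p.2.1, p.2.2, [])).1,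
      (q3 (p.1, p.2.1, p.2.2, [])).2.1, (q3 (p.1, p.2.1, p.2.2, [])).2.2.1) : ℕ × Poly × Poly) :=
    (Primrec.fst.comp hq).pair ((Primrec.fst.comp (Primrec.snd.comp hq)).pair
      (Primrec.fst.comp (Primrec.snd.comp (Primrec.snd.comp hq))))
  refine ⟨fun p => f ((q3 (p.1, p.2.1, p.2.2, [])).1,
      (q3 (p.1, p.2.1, p.2.2, [])).2.1, (q3 (p.1, p.2.1, p.2.2, [])).2.2.1),
    hf.comp hq'.to_comp, fun n F G hF hG => ?_⟩
  obtain ⟨a, b, -, C, c0, c1, e1, e2, -⟩ := q3_spec hJ hR hT hI hC hB hV n F G [] hF hG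
    (fine_nil hJ hR hT hI hC hB hV n)
  obtain ⟨r, hr, h1⟩ := hd _ _ _ a b
  refine ⟨r, hr, h1.trans ?_⟩
  rw [e1, e2]
  exact ENNReal.mul_right_inj c0 c1

/-- **A real period as a quotient.** -/
theorem normal_quartics (hP : S_qprim) : ∃ R : Code → ℕ × Poly × Poly × Poly, Primrec R ∧
    ∀ c, Adm c → Fine4 (R c).1 (R c).2.1 ∧ Fine4 (R c).1 (R c).2.2.1 ∧
      Fine4 (R c).1 (R c).2.2.2 ∧ volume (reg (R c).1 (R c).2.2.2) ≠ 0 ∧
        val c = ((volume (reg (R c).1 (R c).2.1)).toReal -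
          (volume (reg (R c).1 (R c).2.2.1)).toReal) /
            (volume (reg (R c).1 (R c).2.2.2)).toReal := by
  let A : Code → List Poly := fun c => regP c ++ List.replicate (1 + c.1) (natP 1)
  let B : Code → List Poly := fun c => regN c ++ List.replicate (1 + c.1) (natP 1)
  let D : Code → List Poly := fun c =>
    cube (1 + c.1) ++ List.replicate (regP c).length (natP 1)
  have n : Primrec fun c : Code => 1 + c.1 := Primrec.nat_add.comp (Primrec.const 1) Primrec.fst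
  have pA : Primrec A := Primrec.list_append.comp (Cmp.regP_p t_zero Primrec.id) (Cmp.rep_p n)
  have pB : Primrec B := Primrec.list_append.comp (Cmp.regN_p t_zero Primrec.id) (Cmp.rep_p n)
  have pD : Primrec D := Primrec.list_append.comp (Cmp.cube_p n)
    (Cmp.rep_p (Primrec.list_length.comp (Cmp.regP_p t_zero Primrec.id)))
  have fA := PrimT.fold_p n pA
  have fB := PrimT.fold_p n pB
  have fD := PrimT.fold_p n pD
  refine ⟨fun c => q3 ((fold (1 + c.1) (A c)).1, (fold (1 + c.1) (A c)).2,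
    (fold (1 + c.1) (B c)).2, (fold (1 + c.1) (D c)).2), (q3_p hP).comp
      ((Primrec.fst.comp fA).pair ((Primrec.snd.comp fA).pair ((Primrec.snd.comp fB).pair
        (Primrec.snd.comp fD)))), fun c hc => ?_⟩
  have r := isPoly_reg hc
  have v := fin_reg c hc t_zero
  have hone : ∀ k : ℕ, ∀ g ∈ List.replicate k (natP 1), IsPoly (1 + c.1) g ∧ IsInt g := by
    intro k g hg
    rw [List.eq_of_mem_replicate hg]
    exact ⟨isPoly_natP _ _, isInt_natP _⟩
  have rA : ∀ g ∈ A c, IsPoly (1 + c.1) g ∧ IsInt g := by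
    intro g hg
    rcases List.mem_append.1 hg with h | h
    · exact r.1 g h
    · exact hone _ g h
  have rB : ∀ g ∈ B c, IsPoly (1 + c.1) g ∧ IsInt g := by
    intro g hg
    rcases List.mem_append.1 hg with h | h
    · exact r.2 g h
    · exact hone _ g h
  have rD : ∀ g ∈ D c, IsPoly (1 + c.1) g ∧ IsInt g := by
    intro g hg
    rcases List.mem_append.1 hg with h | h
    · refine ⟨isPoly_cube g h, ?_⟩
      obtain ⟨i, -, rfl⟩ := List.mem_map.1 h
      exact isInt_subP (isInt_natP _) (isInt_mulS (isInt_natP _) (isInt_sqP (isInt_varP _)))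
    · exact hone _ g h
  have hvol : ∀ (l : List Poly) (k : ℕ), vol (1 + c.1) (l ++ List.replicate k (natP 1)) =
      vol (1 + c.1) l := by
    intro l k
    unfold vol
    refine lintegral_congr fun x => ?_
    rw [chis_append, chis_ones, mul_one]
  have lA : (A c).length = (regP c).length + (1 + c.1) := by simp [A]
  have lB : (B c).length = (regP c).length + (1 + c.1) := by simp [B, length_reg]
  have lD : (D c).length = (regP c).length + (1 + c.1) := by simp [D, cube]; ring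
  have nB : (fold (1 + c.1) (B c)).1 = (fold (1 + c.1) (A c)).1 := by
    rw [fold_fst, fold_fst, lA, lB]
  have nD : (fold (1 + c.1) (D c)).1 = (fold (1 + c.1) (A c)).1 := by
    rw [fold_fst, fold_fst, lA, lD]
  have hfine : ∀ l : List Poly, (∀ g ∈ l, IsPoly (1 + c.1) g ∧ IsInt g) → vol (1 + c.1) l ≠ ⊤ →
      Fine (fold (1 + c.1) l).1 (fold (1 + c.1) l).2 ∧
        volume (reg (fold (1 + c.1) l).1 (fold (1 + c.1) l).2) = vol (1 + c.1) l := by
    intro l hl hv
    have e := volume_fold (1 + c.1) l fun g hg => (hl g hg).1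
    refine ⟨⟨isPoly_foldF _ (1 + c.1, natP 1) (isPoly_natP _ _) fun g hg => (hl g hg).1,
      isInt_fold fun g hg => (hl g hg).2, ?_⟩, e⟩
    rw [e]
    exact hv
  have vA : vol (1 + c.1) (A c) = vol (1 + c.1) (regP c) := hvol _ _
  have vB : vol (1 + c.1) (B c) = vol (1 + c.1) (regN c) := hvol _ _
  have vD : vol (1 + c.1) (D c) = 1 := (hvol _ _).trans (vol_cube _)
  obtain ⟨gA, eA⟩ := hfine (A c) rA (by rw [vA]; exact v.1)
  obtain ⟨gB, eB⟩ := hfine (B c) rB (by rw [vB]; exact v.2)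
  obtain ⟨gD, eD⟩ := hfine (D c) rD (by rw [vD]; exact ENNReal.one_ne_top)
  rw [nB] at gB eB
  rw [nD] at gD eD
  rw [vA] at eA
  rw [vB] at eB
  rw [vD] at eD
  obtain ⟨a, b, e, C, c0, c1, e1, e2, e3⟩ := q3_spec hJ hR hT hI hC hB hV _ _ _ _ gA gB gD
  rw [eA] at e1
  rw [eB] at e2
  rw [eD, mul_one] at e3
  refine ⟨a, b, e, ?_, ?_⟩
  · change volume (reg (q3 _).1 (q3 _).2.2.2) ≠ 0
    rw [e3]
    exact c0
  · change val c = ((volume (reg (q3 _).1 (q3 _).2.1)).toReal -
      (volume (reg (q3 _).1 (q3 _).2.2.1)).toReal) / (volume (reg (q3 _).1 (q3 _).2.2.2)).toReal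
    rw [e1, e2, e3, val_eq c hc t_zero, ENNReal.toReal_mul, ENNReal.toReal_mul, ← mul_sub,
      mul_div_cancel_left₀ _ (ENNReal.toReal_ne_zero.2 ⟨c0, c1⟩)]

end

end Pool.Agent.H652.PV
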