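import Pool.Agent.H652.PV.Qdefs

/-!
# Quartics with a sign coordinate: definitions

`quas n d K F` is a polynomial of degree four with a coordinate `y` such that the parts `y > 0` and `y < 0`
of the region where it is positive correspond to the parts `x_0 > 0` and `x_0 < 0` of the region `F > 0`.
-/

set_option autoImplicit false
set_option synthInstance.maxSize 2000

namespace Pool.Agent.H652.PV

open Pool.Agent.TH960.PE MeasureTheory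

/-- The energy of the sign coordinate `y = x_(N+2)`; the other new variables are `u = x_N`, `x_(N+1)`,
`x_(N+3)`, `x_(N+4)`. -/
def sgB (K N : ℕ) : Poly :=
  sqP (mulS (varP (N + 1)) (varP N)) ++ (sqP (oneP (sqP (varP (N + 2)))) ++
    mulS (natP K) (sqP (subP (mulS (varP (N + 2)) (varP N))
      (sqP (varP (N + 3)) ++ sqP (varP (N + 4))))))

/-- the word `x_0 x_n` -/
def wrd (n : ℕ) : Poly := [((1, 0, 0), [0, n])]

/-- the tree for the sign coordinate -/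
def quasT (n K N : ℕ) : Poly × Poly := tree K n (varP N) 2 (wrd n) (N + 5)

/-- **The polynomial of degree four with a sign coordinate**, which is the coordinate
`2 n + 6 + nod n d + 2`. -/
def quas (n d K : ℕ) (F : Poly) : ℕ × Poly :=
  (2 * n + 6 + nod n d + 5 + nod n 2, oneP (mulS (natP 4)
    ((quarB n K ++ ((quarT n d K F).1 ++ sqP (oneP (quarT n d K F).2))) ++
      (sgB K (2 * n + 6 + nod n d) ++ ((quasT n K (2 * n + 6 + nod n d)).1 ++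
        sqP (oneP (quasT n K (2 * n + 6 + nod n d)).2))))))

/-! ### Integrals -/

/-- the integral over the errors -/
noncomputable def kef (f : ℝ → ENNReal) (n d K : ℕ) (ρ t v : ℝ) : ENNReal :=
  JL K ((cof n d).map fun a => a (pt n ρ)) (fun t v => f (t + (1 - v) ^ 2)) t v

noncomputable def inf4 (f : ℝ → ENNReal) (n d K : ℕ) (t ρ A : ℝ) : ENNReal := ∫⁻ y : Fin 4 → ℝ,
  kef f n d K ρ (t + ((y 1 * y 0) ^ 2 + K * (y 0 - (y 2 ^ 2 + y 3 ^ 2)) ^ 2)) (y 0 * A)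

noncomputable def inf3 (f : ℝ → ENNReal) (n d K : ℕ) (t ρ : ℝ) : ENNReal := ∫⁻ y : Fin 3 → ℝ,
  ENNReal.ofReal (Real.pi / |y 0|) * kef f n d K ρ (t + (y 1 ^ 2 + K * y 2 ^ 2)) (y 0)

/-- the integral over the five variables of the sign coordinate -/
noncomputable def sg5 (h : ℝ → ENNReal) (n K : ℕ) (t ρ A : ℝ) : ENNReal := ∫⁻ y : Fin 5 → ℝ,
  h (y 2) * ker n 2 K ρ (t + ((y 1 * y 0) ^ 2 + ((1 - y 2 ^ 2) ^ 2 +
    K * (y 2 * y 0 - (y 3 ^ 2 + y 4 ^ 2)) ^ 2))) (y 0 * A)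

noncomputable def sg4 (h : ℝ → ENNReal) (n K : ℕ) (t ρ : ℝ) : ENNReal := ∫⁻ y : Fin 4 → ℝ,
  h (y 2) * (ENNReal.ofReal (Real.pi / |y 0|) *
    ker n 2 K ρ (t + (y 1 ^ 2 + ((1 - y 2 ^ 2) ^ 2 + K * y 3 ^ 2))) (y 0))

/-- the constant -/
noncomputable def cstf (f : ℝ → ℝ → ENNReal) (n d K : ℕ) : ENNReal := ∫⁻ y : Fin (n + 2) → ℝ,
  ENNReal.ofReal (1 / |y 0|) * inf3 (f |y 0|) n d K
    ((1 - y 0 ^ 2) ^ 2 + ∑ j ∈ Finset.range (n + 1), ext y (1 + j) ^ 2) |y 0|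

/-! ### Statements -/

/-- R1: generalization of `S_inn` -/
def S_innf : Prop :=
  ∀ (f : ℝ → ENNReal), Measurable f → (∀ t, 1 / 4 ≤ t → f t = 0) →
    ∀ (n d B K : ℕ) (t ρ A : ℝ), kk n d B ≤ K → (1 - ρ ^ 2) ^ 2 ≤ t →
      (t < 1 / 4 → |A| ≤ B * 2 ^ d) →
    (0 < A → inf4 f n d K t ρ A = inf3 f n d K t ρ) ∧ (¬ 0 < A → inf4 f n d K t ρ A = 0)

/-- R2: the sign coordinate -/
def S_sg : Prop :=
  ∀ (h : ℝ → ENNReal), Measurable h → (∀ y, y ≤ 0 → h y = 0) →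
    ∀ (n K : ℕ) (t ρ A : ℝ), kk n 2 1 ≤ K → (1 - ρ ^ 2) ^ 2 ≤ t → (t < 1 / 4 → |A| ≤ 4) →
    ((0 < A → sg5 h n K t ρ A = sg4 h n K t ρ) ∧ (¬ 0 < A → sg5 h n K t ρ A = 0)) ∧
      sg5 (fun y => h (-y)) n K t ρ A = sg5 h n K t ρ (-A)

/-- R3: the function `sg4` -/
def S_sg4 : Prop :=
  ∀ (h : ℝ → ENNReal), Measurable h → (∀ y, y ≤ 0 → h y = 0) → (∀ y, 0 < y → h y ≠ 0) →
    (∀ y, y ≤ 2 → h y ≤ 2) → ∀ (n K : ℕ), kk n 2 1 ≤ K →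
    (Measurable fun p : ℝ × ℝ => sg4 h n K p.1 p.2) ∧
    (∀ t ρ, 1 / 4 ≤ t → sg4 h n K t ρ = 0) ∧
    (∀ t ρ, t < 1 / 4 → sg4 h n K t ρ ≠ 0) ∧
    ∃ M : ENNReal, M ≠ ⊤ ∧ ∀ t ρ, 0 ≤ t → (1 - ρ ^ 2) ^ 2 < 1 / 4 → sg4 h n K t ρ ≤ M

/-- R4: the constant -/
def S_cstf : Prop :=
  ∀ (f : ℝ → ℝ → ENNReal), Measurable (Function.uncurry f) → (∀ ρ t, 1 / 4 ≤ t → f ρ t = 0) →
    (∀ ρ t, t < 1 / 4 → f ρ t ≠ 0) →
    (∃ M : ENNReal, M ≠ ⊤ ∧ ∀ ρ t, 0 ≤ t → (1 - ρ ^ 2) ^ 2 < 1 / 4 → f ρ t ≤ M) →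
    ∀ (n d B K : ℕ), kk n d B ≤ K → cstf f n d K ≠ 0 ∧ cstf f n d K ≠ ⊤

/-- R5: degree, integer coefficients, computability -/
def S_rcode : Prop :=
  (∀ (n d K : ℕ) (F : Poly), Deg 4 (quas n d K F).2) ∧
  (∀ (n d K : ℕ) (F : Poly), IsInt F → IsInt (quas n d K F).2) ∧
  Primrec (fun p : (ℕ × ℕ) × (ℕ × Poly) => quas p.1.1 p.1.2 p.2.1 p.2.2) ∧
  (∀ n : ℕ, ∀ m ∈ wrd n, m.2.length = 2 ∧ ∀ j ∈ m.2, j ≤ n) ∧
  (∀ (n : ℕ) (Y : ℕ → ℝ), wev Y (wrd n) = Y 0 * Y n)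

end Pool.Agent.H652.PV
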