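import Pool.Agent.H652.PV.Main4
import Pool.Agent.H652.PV.Rdefs

/-!
# The quartic with a sign coordinate
-/

set_option autoImplicit false
set_option synthInstance.maxSize 2000

namespace Pool.Agent.H652.PV

open Pool.Agent.TH960.PE MeasureTheory

namespace Quas

lemma JL_congr (K : ℕ) (l : List ℝ) (f g : ℝ → ℝ → ENNReal) (h : ∀ t v, f t v = g t v) (t v : ℝ) :
    JL K l f t v = JL K l g t v := by
  rw [funext fun t => funext fun v => h t v]

lemma JL_zero (K : ℕ) (l : List ℝ) : ∀ t v : ℝ, JL K l (fun _ _ => 0) t v = 0 := by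
  induction l with
  | nil => intro t v; rfl
  | cons a l ih =>
    intro t v
    simp only [JL, ih, lintegral_zero]

lemma JL_mul (hJ : S_jl) (K : ℕ) (l : List ℝ) (f : ℝ → ℝ → ENNReal)
    (hf : Measurable fun p : ℝ × ℝ => f p.1 p.2) (c : ENNReal) :
    ∀ t v : ℝ, JL K l (fun t v => f t v * c) t v = JL K l f t v * c := by
  induction l with
  | nil => intro t v; rfl
  | cons a l ih =>
    intro t v
    simp only [JL, ih]
    refine lintegral_mul_const _ ?_
    have h := hJ.1 K Unit (l.map fun b _ => b) (fun _ => f)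
      (by intro a ha; obtain ⟨b, -, rfl⟩ := List.mem_map.1 ha; exact measurable_const)
      (hf.comp measurable_snd)
    simp only [List.map_map, Function.comp_def, List.map_id'] at h
    have h2 : Measurable fun z : ℝ => (((), t + K * z ^ 2, v + a * z) : Unit × ℝ × ℝ) := by
      fun_prop
    exact h.comp h2

lemma chi_quas (n d K : ℕ) (F : Poly) (X : ℕ → ℝ) : chi (quas n d K F).2 X =
    f1 ((pev X (quarB n K ++ ((quarT n d K F).1 ++ sqP (oneP (quarT n d K F).2))) +
      pev X (sgB K (2 * n + 6 + nod n d))) + pev X (quasT n K (2 * n + 6 + nod n d)).1)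
        (pev X (quasT n K (2 * n + 6 + nod n d)).2) := by
  unfold chi f1 quas
  simp only [SChain.pev_oneP, pev_mulS, pev_natP, pev_append, pev_sqP]
  congr 1
  apply propext
  push_cast
  constructor <;> intro h <;> linarith

lemma pev_sgB (K N : ℕ) (X : ℕ → ℝ) : pev X (sgB K N) =
    (X (N + 1) * X N) ^ 2 + ((1 - X (N + 2) ^ 2) ^ 2 +
      K * (X (N + 2) * X N - (X (N + 3) ^ 2 + X (N + 4) ^ 2)) ^ 2) := by
  unfold sgB
  simp only [pev_append, pev_sqP, SChain.pev_oneP, pev_mulS, pev_subP, pev_varP, pev_natP]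

lemma isPoly_sgB (K N : ℕ) : IsPoly (N + 5) (sgB K N) := by
  unfold sgB
  exact SChain.isPoly_append (isPoly_sqP (isPoly_mulS (isPoly_varP (by omega))
    (isPoly_varP (by omega)))) (SChain.isPoly_append (isPoly_sqP (SChain.isPoly_oneP
    (isPoly_sqP (isPoly_varP (by omega))))) (isPoly_mulS (isPoly_natP _ _) (isPoly_sqP
    (isPoly_subP (isPoly_mulS (isPoly_varP (by omega)) (isPoly_varP (by omega)))
      (SChain.isPoly_append (isPoly_sqP (isPoly_varP (by omega)))
        (isPoly_sqP (isPoly_varP (by omega))))))))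

lemma tree_nonneg (K n : ℕ) (u : Poly) (X : ℕ → ℝ) : ∀ (d : ℕ) (G : Poly) (N : ℕ),
    0 ≤ pev X (tree K n u d G N).1 := by
  intro d
  induction d with
  | zero => intro G N; simp [tree, pev]
  | succ d ih =>
    intro G N
    simp only [tree, pev_append, pev_mulS, pev_natP, pev_sqP, Quar.pev_flat]
    refine add_nonneg (Finset.sum_nonneg fun j _ => ih _ _) ?_
    positivity

lemma energy_ge (n d K : ℕ) (F : Poly) (X : ℕ → ℝ) :
    (1 - ∑ j ∈ Finset.range (n + 1), X j ^ 2) ^ 2 ≤
      pev X (quarB n K ++ ((quarT n d K F).1 ++ sqP (oneP (quarT n d K F).2))) := by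
  simp only [pev_append, pev_sqP]
  rw [Quar.pev_quarB]
  have h1 := tree_nonneg K n (varP (2 * n + 2)) X d (hom n d F) (2 * n + 6)
  have h2 : 0 ≤ ∑ j ∈ Finset.range (n + 1), (X n * X (n + 1 + j)) ^ 2 :=
    Finset.sum_nonneg fun j _ => sq_nonneg _
  have h3 : (0 : ℝ) ≤ K * (X (2 * n + 2) - (X (2 * n + 4) ^ 2 + X (2 * n + 5) ^ 2)) ^ 2 := by
    positivity
  change _ ≤ _ + (pev X (quarT n d K F).1 + _)
  unfold quarT
  nlinarith [sq_nonneg (X (2 * n + 3) * X (2 * n + 2)),
    sq_nonneg (pev X (oneP (tree K n (varP (2 * n + 2)) d (hom n d F) (2 * n + 6)).2))]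

/-- the square of the norm of the first `n + 1` coordinates -/
noncomputable def nrm (n : ℕ) (X : ℕ → ℝ) : ℝ := √(∑ j ∈ Finset.range (n + 1), X j ^ 2)

lemma nrm_sq (n : ℕ) (X : ℕ → ℝ) : nrm n X ^ 2 = ∑ j ∈ Finset.range (n + 1), X j ^ 2 :=
  Real.sq_sqrt (Finset.sum_nonneg fun j _ => sq_nonneg _)

lemma measurable_nrm (n : ℕ) : Measurable (nrm n) := by
  unfold nrm
  exact (Finset.measurable_sum _ fun j _ => (measurable_pi_apply j).pow_const 2).sqrt

lemma nrm_congr (n : ℕ) (X Y : ℕ → ℝ) (h : ∀ j ≤ n, X j = Y j) : nrm n X = nrm n Y := by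
  unfold nrm
  congr 1
  exact Finset.sum_congr rfl fun j hj => by
    rw [h j (by have := Finset.mem_range.1 hj; omega)]

lemma measurable_wev (G : Poly) : Measurable fun X : ℕ → ℝ => wev X G := by
  unfold wev
  induction G with
  | nil => simp
  | cons m G ih =>
    simp only [List.map_cons, List.sum_cons]
    exact ((SChain.measurable_map_prod m.2).const_mul _).add ih

/-- the kernel depends only on the norm of the point -/
lemma JL_eq_kef (hJ : S_jl) (hR : S_rot) (f : ℝ → ENNReal) (hf : Measurable f) (n d K : ℕ)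
    (Y : ℕ → ℝ) (t v : ℝ) :
    JL K ((cof n d).map fun a => a Y) (fun t v => f (t + (1 - v) ^ 2)) t v =
      kef f n d K (nrm n Y) t v := by
  unfold kef
  have hf' : Measurable (Function.uncurry fun t v : ℝ => f (t + (1 - v) ^ 2)) :=
    hf.comp (show Measurable fun p : ℝ × ℝ => p.1 + (1 - p.2) ^ 2 by fun_prop)
  refine hR K _ _ _ hf' (by simp) ?_ t v
  simp only [List.map_map, Function.comp_def]
  refine hJ.2.2.2.2.2.2 n d _ _ ?_
  rw [Quar.sum_pt, nrm_sq]

lemma measurable_kef (hJ : S_jl) (f : ℝ → ℝ → ENNReal) (hf : Measurable (Function.uncurry f))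
    (n d K : ℕ) : Measurable fun p : ℝ × ℝ × ℝ => kef (f p.1) n d K p.1 p.2.1 p.2.2 := by
  have h := hJ.1 K ℝ ((cof n d).map fun a ρ => a (pt n ρ))
    (fun ρ t v => f ρ (t + (1 - v) ^ 2)) (by
    intro a ha
    obtain ⟨b, hb, rfl⟩ := List.mem_map.1 ha
    exact (hJ.2.2.2.2.1 n d b hb).comp (Quar.measurable_pt n)) (by
      have : Measurable fun p : ℝ × ℝ × ℝ => ((p.1, p.2.1 + (1 - p.2.2) ^ 2) : ℝ × ℝ) := by
        fun_prop
      exact hf.comp this)
  simp only [List.map_map, Function.comp_def] at h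
  exact h

lemma measurable_inf3 (hJ : S_jl) (f : ℝ → ℝ → ENNReal) (hf : Measurable (Function.uncurry f))
    (n d K : ℕ) : Measurable fun p : ℝ × ℝ => inf3 (f p.2) n d K p.1 p.2 := by
  unfold inf3
  have hk := measurable_kef hJ f hf n d K
  have h : Measurable fun q : (ℝ × ℝ) × (Fin 3 → ℝ) => ENNReal.ofReal (Real.pi / |q.2 0|) *
      kef (f q.1.2) n d K q.1.2 (q.1.1 + (q.2 1 ^ 2 + K * q.2 2 ^ 2)) (q.2 0) := by
    refine Measurable.mul (by fun_prop) ?_
    have : Measurable fun q : (ℝ × ℝ) × (Fin 3 → ℝ) =>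
        ((q.1.2, q.1.1 + (q.2 1 ^ 2 + K * q.2 2 ^ 2), q.2 0) : ℝ × ℝ × ℝ) := by fun_prop
    exact hk.comp this
  exact h.lintegral_prod_right'

open Classical in
/-- the indicator function of `0 < s * X 0` -/
noncomputable def ind (s : ℝ) (a : ℝ) : ENNReal := if 0 < s * a then 1 else 0

lemma measurable_ind (s : ℝ) : Measurable (ind s) := by
  unfold ind
  exact Measurable.ite (measurableSet_lt measurable_const (by fun_prop)) measurable_const
    measurable_const

end Quas

open Quas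

section

variable (hJ : S_jl) (hR : S_rot) (hT : S_tree) (hI : S_innf) (hG : S_sg) (hG4 : S_sg4)
  (hB : S_base) (hV : S_qval) (hC : S_rcode)

include hJ hR hT hI hG hG4 hB hV hC

/-- **Integrals over the quartic region with a sign coordinate.** -/
theorem lint_quas (n d B K : ℕ) (F : Poly) (hn : 0 < n) (hF : IsPoly n F) (hd : dg F ≤ d)
    (he : Even d) (hs : asum F ≤ B) (hK : kk n d B ≤ K) (hK2 : kk n 2 1 ≤ K) (s : ℝ)
    (hs1 : s = 1 ∨ s = -1) (h : ℝ → ENNReal) (hm : Measurable h) (h0 : ∀ y, y ≤ 0 → h y = 0)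
    (hp : ∀ y, 0 < y → h y ≠ 0) (hb : ∀ y, y ≤ 2 → h y ≤ 2) :
    ∫⁻ X : Fin (quas n d K F).1 → ℝ,
        chi (quas n d K F).2 (ext X) * h (s * ext X (2 * n + 6 + nod n d + 2)) =
      cstf (fun ρ t => sg4 h n K t ρ) n d K *
        ∫⁻ x : Fin n → ℝ, chi F (ext x) * ind s (ext x 0) := by
  classical
  obtain ⟨v1, v2, v3, -, -⟩ := hV
  have w3 := v3 n d F hF hd
  obtain ⟨gm, gz, -, -⟩ := hG4 h hm h0 hp hb n K hK2
  set N2 := 2 * n + 6 + nod n d with hN2
  set E1 : Poly := quarB n K ++ ((quarT n d K F).1 ++ sqP (oneP (quarT n d K F).2)) with hE1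
  obtain ⟨p1, p2, ht1⟩ := hT K n (varP (2 * n + 2)) d (hom n d F) (2 * n + 6)
    (isPoly_varP (by omega)) (by omega) w3
  have hE1p : IsPoly N2 E1 :=
    SChain.isPoly_append (isPoly_mono (Nat.le_add_right _ _) (Quar.isPoly_quarB n _))
      (SChain.isPoly_append p1 (isPoly_sqP (SChain.isPoly_oneP p2)))
  -- the second tree
  obtain ⟨-, -, ht2⟩ := hT K n (varP N2) 2 (wrd n) (N2 + 5) (isPoly_varP (by omega)) (by omega)
    (hC.2.2.2.1 n)
  have e1 := ht2 (fun t v X => f1 t v * h (s * X (N2 + 2)))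
    (fun X => pev X E1 + pev X (sgB K N2))
    ((Quar.measurable_f1.comp (measurable_fst.prodMk (measurable_fst.comp measurable_snd))).mul
      (hm.comp (by fun_prop)))
    (fun t v X Y hXY => by simp only; rw [hXY (N2 + 2) (by omega)])
    ((measurable_pev _).add (measurable_pev _))
    (fun X Y hXY => by
      simp only
      rw [pev_congr (N2 + 5) E1 (isPoly_mono (by omega) hE1p) X Y hXY,
        pev_congr (N2 + 5) _ (isPoly_sgB K N2) X Y hXY])
  have e2 : ∫⁻ X : Fin (quas n d K F).1 → ℝ,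
        chi (quas n d K F).2 (ext X) * h (s * ext X (N2 + 2)) =
      ∫⁻ X : Fin (N2 + 5 + nod n 2) → ℝ, f1 (pev (ext X) E1 + pev (ext X) (sgB K N2) +
        pev (ext X) (tree K n (varP N2) 2 (wrd n) (N2 + 5)).1)
        (pev (ext X) (tree K n (varP N2) 2 (wrd n) (N2 + 5)).2) *
          h (s * ext X (N2 + 2)) :=
    lintegral_congr fun X => by rw [chi_quas]; rfl
  rw [e2, e1]
  -- the function of the first `N2 + 5` variables
  have f1e : ∀ t v : ℝ, f1 t v = f0 (t + (1 - v) ^ 2) := fun t v => rfl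
  set Ψ : (ℕ → ℝ) → ENNReal := fun X => ker n 2 K (nrm n X)
    (pev X E1 + pev X (sgB K N2)) (X N2 * (X 0 * X n)) * h (s * X (N2 + 2)) with hΨ
  have hΨm : Measurable Ψ := by
    refine Measurable.mul ?_ (hm.comp (by fun_prop))
    have : Measurable fun X : ℕ → ℝ => ((nrm n X,
        pev X E1 + pev X (sgB K N2), X N2 * (X 0 * X n)) : ℝ × ℝ × ℝ) :=
      (measurable_nrm n).prodMk (((measurable_pev _).add (measurable_pev _)).prodMk (by fun_prop))
    exact (Quar.measurable_ker hJ n 2 K).comp this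
  have e3 : ∀ x : Fin (N2 + 5) → ℝ, JL K ((cof n 2).map fun a => a (ext x))
      (fun t v => f1 t v * h (s * ext x (N2 + 2)))
      (pev (ext x) E1 + pev (ext x) (sgB K N2)) (pev (ext x) (varP N2) * wev (ext x) (wrd n)) =
        Ψ (ext x) := by
    intro x
    rw [JL_mul hJ K _ f1 Quar.measurable_f1, Quar.JL_eq_ker hJ hR, pev_varP, hC.2.2.2.2]
    rfl
  simp only [e3]
  have e4 : ∫⁻ x : Fin (N2 + 5) → ℝ, Ψ (ext x) =
      ∫⁻ x : Fin N2 → ℝ, ∫⁻ y : Fin 5 → ℝ, Ψ (glue N2 (ext x) (ext y)) :=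
    lint_split N2 5 Ψ hΨm
  rw [e4]
  -- the integral over the variables of the sign coordinate
  set J : ℝ → (ℕ → ℝ) → ENNReal := fun t X => ind s (X 0 * X n) * sg4 h n K t (nrm n X) with hJd
  have e5 : ∀ x : Fin N2 → ℝ, ∫⁻ y : Fin 5 → ℝ, Ψ (glue N2 (ext x) (ext y)) =
      J (pev (ext x) E1) (ext x) := by
    intro x
    have e6 : ∀ y : Fin 5 → ℝ, Ψ (glue N2 (ext x) (ext y)) =
        h (s * y 2) * ker n 2 K (nrm n (ext x)) (pev (ext x) E1 + ((y 1 * y 0) ^ 2 +
          ((1 - y 2 ^ 2) ^ 2 + K * (y 2 * y 0 - (y 3 ^ 2 + y 4 ^ 2)) ^ 2)))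
          (y 0 * (ext x 0 * ext x n)) := by
      intro y
      set X := glue N2 (ext x) (ext y) with hX
      have g1 : ∀ j, j < N2 → X j = ext x j := fun j hj => by
        rw [hX]
        simp [glue, hj]
      have g2 : ∀ j, X (N2 + j) = ext y j := fun j => by
        rw [hX]
        simp [glue]
      have k0 := g2 0
      have k1 := g2 1
      have k2 := g2 2
      have k3 := g2 3
      have k4 := g2 4
      rw [show ext y 0 = y 0 by simp [ext], add_zero] at k0
      rw [show ext y 1 = y 1 by simp [ext]] at k1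
      rw [show ext y 2 = y 2 by simp [ext]] at k2
      rw [show ext y 3 = y 3 by simp [ext]] at k3
      rw [show ext y 4 = y 4 by simp [ext]] at k4
      rw [hΨ]
      simp only
      rw [pev_sgB, k0, k1, k2, k3, k4, g1 0 (by omega), g1 n (by omega),
        nrm_congr n X (ext x) fun j hj => g1 j (by omega),
        pev_congr N2 E1 hE1p X (ext x) g1, mul_comm]
    have hR0 := energy_ge n d K F (ext x)
    rw [← nrm_sq] at hR0
    have hA : pev (ext x) E1 < 1 / 4 → |s * (ext x 0 * ext x n)| ≤ 4 := by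
      intro hlt
      have hle : (1 - ∑ j ∈ Finset.range (n + 1), ext x j ^ 2) ^ 2 + 0 < 1 / 4 := by
        rw [add_zero, ← nrm_sq]
        exact lt_of_le_of_lt hR0 hlt
      have hs2 := Quar.small n (ext x) 0 le_rfl hle
      have a0 := hs2 0 (by omega)
      have an := hs2 n le_rfl
      have hs3 : |s| = 1 := by
        rcases hs1 with rfl | rfl <;> simp
      rw [abs_mul, hs3, one_mul, abs_mul]
      nlinarith [abs_nonneg (ext x 0), abs_nonneg (ext x n)]
    rw [lintegral_congr e6]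
    have key : ∫⁻ y : Fin 5 → ℝ, h (s * y 2) * ker n 2 K (nrm n (ext x))
        (pev (ext x) E1 + ((y 1 * y 0) ^ 2 +
          ((1 - y 2 ^ 2) ^ 2 + K * (y 2 * y 0 - (y 3 ^ 2 + y 4 ^ 2)) ^ 2)))
          (y 0 * (ext x 0 * ext x n)) =
        sg5 h n K (pev (ext x) E1) (nrm n (ext x)) (s * (ext x 0 * ext x n)) := by
      rcases hs1 with rfl | rfl
      · simp only [one_mul]
        rfl
      · have hh := (hG h hm h0 n K (pev (ext x) E1) (nrm n (ext x)) (ext x 0 * ext x n) hK2 hR0
          (by simpa using hA)).2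
        rw [neg_one_mul, ← hh]
        unfold sg5
        simp only [neg_one_mul]
    rw [key]
    obtain ⟨⟨i1, i2⟩, -⟩ := hG h hm h0 n K (pev (ext x) E1) (nrm n (ext x))
      (s * (ext x 0 * ext x n)) hK2 hR0 hA
    rw [hJd]
    simp only [ind]
    by_cases hc : 0 < s * (ext x 0 * ext x n)
    · rw [i1 hc, if_pos hc, one_mul]
    · rw [i2 hc, if_neg hc, zero_mul]
  simp only [e5]
  -- the first tree
  have hJm : Measurable fun p : ℝ × (ℕ → ℝ) => J p.1 p.2 := by
    rw [hJd]
    refine Measurable.mul ((measurable_ind s).comp (by fun_prop)) ?_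
    exact gm.comp (measurable_fst.prodMk ((measurable_nrm n).comp measurable_snd))
  have hJdep : ∀ t, Dep (2 * n + 2) (J t) := by
    intro t X Y hXY
    rw [hJd]
    simp only
    rw [hXY 0 (by omega), hXY n (by omega), nrm_congr n X Y fun j hj => hXY j (by omega)]
  have e7 := ht1 (fun t v X => J (t + (1 - v) ^ 2) X) (fun X => pev X (quarB n K))
    (by
      have : Measurable fun p : ℝ × ℝ × (ℕ → ℝ) =>
          ((p.1 + (1 - p.2.1) ^ 2, p.2.2) : ℝ × (ℕ → ℝ)) := by fun_prop
      exact hJm.comp this)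
    (fun t v => (hJdep _).mono (by omega)) (measurable_pev _) (dep_pev (Quar.isPoly_quarB n K))
  have e8 : ∫⁻ x : Fin N2 → ℝ, J (pev (ext x) E1) (ext x) =
      ∫⁻ X : Fin (2 * n + 6 + nod n d) → ℝ, J (pev (ext X) (quarB n K) +
        pev (ext X) (tree K n (varP (2 * n + 2)) d (hom n d F) (2 * n + 6)).1 +
        (1 - pev (ext X) (tree K n (varP (2 * n + 2)) d (hom n d F) (2 * n + 6)).2) ^ 2)
          (ext X) := by
    refine lintegral_congr fun x => ?_
    rw [hE1, pev_append, pev_append, pev_sqP, SChain.pev_oneP, ← add_assoc]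
    rfl
  rw [e8, e7]
  -- the function of the first `2 n + 6` variables
  set Φ : (ℕ → ℝ) → ENNReal := fun X => ind s (X 0 * X n) *
    kef (fun t => sg4 h n K t (nrm n X)) n d K (nrm n X)
      (pev X (quarB n K)) (X (2 * n + 2) * wev X (hom n d F)) with hΦ
  have gm' : Measurable (Function.uncurry fun ρ t => sg4 h n K t ρ) := gm.comp measurable_swap
  have hΦm : Measurable Φ := by
    refine Measurable.mul ((measurable_ind s).comp (by fun_prop)) ?_
    have : Measurable fun X : ℕ → ℝ => ((nrm n X, pev X (quarB n K),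
        X (2 * n + 2) * wev X (hom n d F)) : ℝ × ℝ × ℝ) :=
      (measurable_nrm n).prodMk ((measurable_pev _).prodMk
        ((measurable_pi_apply _).mul (measurable_wev _)))
    exact (measurable_kef hJ (fun ρ t => sg4 h n K t ρ) gm' n d K).comp this
  have e9 : ∀ x : Fin (2 * n + 6) → ℝ, JL K ((cof n d).map fun a => a (ext x))
      (fun t v => J (t + (1 - v) ^ 2) (ext x)) (pev (ext x) (quarB n K))
      (pev (ext x) (varP (2 * n + 2)) * wev (ext x) (hom n d F)) = Φ (ext x) := by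
    intro x
    have hg : Measurable fun t => sg4 h n K t (nrm n (ext x)) :=
      gm.comp (measurable_id.prodMk measurable_const)
    rw [hJd, hΦ]
    simp only
    rw [← JL_eq_kef hJ hR _ hg, pev_varP]
    have hg' : Measurable fun p : ℝ × ℝ => sg4 h n K (p.1 + (1 - p.2) ^ 2) (nrm n (ext x)) :=
      hg.comp (show Measurable fun p : ℝ × ℝ => p.1 + (1 - p.2) ^ 2 by fun_prop)
    have hml := JL_mul hJ K ((cof n d).map fun a => a (ext x))
      (fun t v => sg4 h n K (t + (1 - v) ^ 2) (nrm n (ext x))) hg' (ind s (ext x 0 * ext x n))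
      (pev (ext x) (quarB n K)) (ext x (2 * n + 2) * wev (ext x) (hom n d F))
    rw [mul_comm (ind s (ext x 0 * ext x n)) (JL K _ _ _ _), ← hml]
    exact JL_congr _ _ _ _ (fun t v => mul_comm _ _) _ _
  simp only [e9]
  have e10 : ∫⁻ x : Fin (2 * n + 6) → ℝ, Φ (ext x) =
      ∫⁻ x : Fin (2 * n + 2) → ℝ, ∫⁻ y : Fin 4 → ℝ, Φ (glue (2 * n + 2) (ext x) (ext y)) :=
    lint_split (2 * n + 2) 4 Φ hΦm
  rw [e10]
  have e11 : ∀ᵐ x : Fin (2 * n + 2) → ℝ, ∫⁻ y : Fin 4 → ℝ, Φ (glue (2 * n + 2) (ext x) (ext y)) =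
      (chi F (fun i => ext x i / ext x n) * ind s (ext x 0 / ext x n)) *
        inf3 (fun t => sg4 h n K t (√(∑ j ∈ Finset.range (n + 1), ext x j ^ 2))) n d K
          ((1 - ∑ j ∈ Finset.range (n + 1), ext x j ^ 2) ^ 2 +
          ∑ j ∈ Finset.range (n + 1), (ext x n * ext x (n + 1 + j)) ^ 2)
          (√(∑ j ∈ Finset.range (n + 1), ext x j ^ 2)) := by
    filter_upwards [SChain.ae_ne (n := 2 * n + 2) n (by omega)] with x hx
    set R := ∑ j ∈ Finset.range (n + 1), ext x j ^ 2 with hRdef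
    set q := ∑ j ∈ Finset.range (n + 1), (ext x n * ext x (n + 1 + j)) ^ 2 with hq
    have hR0 : 0 ≤ R := Finset.sum_nonneg fun j _ => sq_nonneg _
    have hq0 : 0 ≤ q := Finset.sum_nonneg fun j _ => sq_nonneg _
    have hnR : nrm n (ext x) = √R := rfl
    set A := wev (ext x) (hom n d F) with hA
    have hval := v1 n d F (ext x) hF hd hx
    have e12 : ∀ y : Fin 4 → ℝ, Φ (glue (2 * n + 2) (ext x) (ext y)) =
        ind s (ext x 0 * ext x n) * kef (fun t => sg4 h n K t (√R)) n d K (√R)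
          (((1 - R) ^ 2 + q) + ((y 1 * y 0) ^ 2 +
          K * (y 0 - (y 2 ^ 2 + y 3 ^ 2)) ^ 2)) (y 0 * A) := by
      intro y
      set X := glue (2 * n + 2) (ext x) (ext y) with hX
      have g1 : ∀ j, j < 2 * n + 2 → X j = ext x j := fun j hj => by
        rw [hX]
        simp [glue, hj]
      have g2 : ∀ j, X (2 * n + 2 + j) = ext y j := fun j => by
        rw [hX]
        simp [glue]
      have h1 : ∑ j ∈ Finset.range (n + 1), X j ^ 2 = R :=
        Finset.sum_congr rfl fun j hj => by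
          rw [g1 j (by have := Finset.mem_range.1 hj; omega)]
      have h2 : ∑ j ∈ Finset.range (n + 1), (X n * X (n + 1 + j)) ^ 2 = q :=
        Finset.sum_congr rfl fun j hj => by
          rw [g1 _ (by omega), g1 _ (by have := Finset.mem_range.1 hj; omega)]
      have h3 : wev X (hom n d F) = A :=
        Quar.wev_congr n (fun m hm => (w3 m hm).2) _ _ fun j hj => g1 j (by omega)
      have h4 : nrm n X = √R := (nrm_congr n X (ext x) fun j hj => g1 j (by omega)).trans hnR
      have k0 := g2 0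
      have k1 := g2 1
      have k2 := g2 2
      have k3 := g2 3
      rw [show ext y 0 = y 0 by simp [ext], add_zero] at k0
      rw [show ext y 1 = y 1 by simp [ext], show 2 * n + 2 + 1 = 2 * n + 3 by ring] at k1
      rw [show ext y 2 = y 2 by simp [ext], show 2 * n + 2 + 2 = 2 * n + 4 by ring] at k2
      rw [show ext y 3 = y 3 by simp [ext], show 2 * n + 2 + 3 = 2 * n + 5 by ring] at k3
      rw [hΦ]
      simp only
      rw [Quar.pev_quarB, h1, h2, h3, h4, k0, k1, k2, k3, g1 0 (by omega), g1 n (by omega),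
        ← add_assoc ((1 - R) ^ 2)]
    have hkm : Measurable fun y : Fin 4 → ℝ => kef (fun t => sg4 h n K t (√R)) n d K (√R)
          (((1 - R) ^ 2 + q) + ((y 1 * y 0) ^ 2 +
          K * (y 0 - (y 2 ^ 2 + y 3 ^ 2)) ^ 2)) (y 0 * A) := by
      have : Measurable fun y : Fin 4 → ℝ => ((√R, ((1 - R) ^ 2 + q) + ((y 1 * y 0) ^ 2 +
          K * (y 0 - (y 2 ^ 2 + y 3 ^ 2)) ^ 2), y 0 * A) : ℝ × ℝ × ℝ) := by fun_prop
      exact (measurable_kef hJ (fun ρ t => sg4 h n K t ρ) gm' n d K).comp this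
    have e13 : ∫⁻ y : Fin 4 → ℝ, Φ (glue (2 * n + 2) (ext x) (ext y)) =
        ind s (ext x 0 * ext x n) *
          inf4 (fun t => sg4 h n K t (√R)) n d K ((1 - R) ^ 2 + q) (√R) A := by
      unfold inf4
      rw [← lintegral_const_mul _ hkm]
      exact lintegral_congr e12
    rw [e13]
    have hbd : (1 - R) ^ 2 + q < 1 / 4 → |A| ≤ (B : ℝ) * 2 ^ d := fun hh => by
      refine (v2 n d F (ext x) hF hd (Quar.small n (ext x) q hq0 hh)).trans ?_
      gcongr
    obtain ⟨i1, i2⟩ := hI (fun t => sg4 h n K t (√R))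
      (gm.comp (measurable_id.prodMk measurable_const)) (fun t ht => gz t _ ht) n d B K
      ((1 - R) ^ 2 + q) (√R) A hK (by rw [Real.sq_sqrt hR0]; linarith) hbd
    have hpos : 0 < ext x n ^ d := he.pow_pos hx
    have hiff : 0 < A ↔ 0 < pev (fun i => ext x i / ext x n) F := by
      rw [hA, hval]
      exact mul_pos_iff_of_pos_left hpos
    have hind : ind s (ext x 0 * ext x n) = ind s (ext x 0 / ext x n) := by
      unfold ind
      have hx2 : 0 < ext x n ^ 2 := by positivity
      have : s * (ext x 0 * ext x n) = ext x n ^ 2 * (s * (ext x 0 / ext x n)) := by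
        field_simp
      rw [this]
      simp only [mul_pos_iff_of_pos_left hx2]
    rw [hind]
    unfold chi
    by_cases hc : 0 < A
    · rw [i1 hc, if_pos (hiff.1 hc), one_mul]
    · rw [i2 hc, if_neg (fun h' => hc (hiff.2 h')), mul_zero, zero_mul, zero_mul]
  rw [lintegral_congr_ae e11]
  have hWm : Measurable (Function.uncurry fun R q : ℝ =>
      inf3 (fun t => sg4 h n K t (√R)) n d K ((1 - R) ^ 2 + q) (√R)) := by
    have : Measurable fun p : ℝ × ℝ => (((1 - p.1) ^ 2 + p.2, √p.1) : ℝ × ℝ) := by fun_prop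
    exact (measurable_inf3 hJ (fun ρ t => sg4 h n K t ρ) gm' n d K).comp this
  have e14 := hB n (fun X => chi F X * ind s (X 0))
    (fun R q => inf3 (fun t => sg4 h n K t (√R)) n d K ((1 - R) ^ 2 + q) (√R))
    ((measurable_chi F).mul ((measurable_ind s).comp (measurable_pi_apply 0)))
    (fun X Y hXY => by
      simp only
      rw [dep_chi hF X Y hXY, hXY 0 hn]) hWm
  rw [e14, mul_comm (cstf _ n d K)]
  congr 1
  unfold cstf
  refine lintegral_congr fun y => ?_
  rw [Real.sqrt_sq_eq_abs]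

end

end Pool.Agent.H652.PV
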