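import Pool.Agent.H652.PV.Rdefs
import Pool.Agent.H652.PV.QVal
import Pool.Agent.H652.PV.QPrim

/-!
# Quartics with a sign coordinate: degrees, integer coefficients, computability (statement R5)
-/

set_option autoImplicit false
set_option synthInstance.maxSize 2000

namespace Pool.Agent.H652.PV

open Pool.Agent.TH960.PE MeasureTheory

namespace RCode

/-! ### Degrees -/

theorem deg_sgB (K N : ℕ) : Deg 4 (sgB K N) := by
  unfold sgB
  refine SCode.deg_append ?_ (SCode.deg_append ?_ ?_)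
  · exact SCode.deg_sqP (SCode.deg_mulS (SCode.deg_varP _) (SCode.deg_varP _))
  · exact SCode.deg_sqP (SCode.deg_oneP (SCode.deg_sqP (SCode.deg_varP _)))
  · exact SCode.deg_mono (by norm_num) (SCode.deg_mulS (SCode.deg_natP K) (SCode.deg_sqP
      (SCode.deg_subP (SCode.deg_mulS (SCode.deg_varP _) (SCode.deg_varP _))
        (SCode.deg_append (SCode.deg_sqP (SCode.deg_varP _)) (SCode.deg_sqP (SCode.deg_varP _))))))

theorem deg_quas (n d K : ℕ) (F : Poly) : Deg 4 (quas n d K F).2 := by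
  obtain ⟨h1, h2⟩ := QVal.deg_tree K n (SCode.deg_varP (2 * n + 2)) d (hom n d F) (2 * n + 6)
  obtain ⟨h3, h4⟩ := QVal.deg_tree K n (SCode.deg_varP (2 * n + 6 + nod n d)) 2 (wrd n)
    (2 * n + 6 + nod n d + 5)
  refine SCode.deg_oneP (SCode.deg_mono (by norm_num) (SCode.deg_mulS (SCode.deg_natP 4)
    (SCode.deg_append (SCode.deg_append (QVal.deg_quarB n K) (SCode.deg_append h1 ?_))
      (SCode.deg_append (deg_sgB K _) (SCode.deg_append h3 ?_)))))
  · exact SCode.deg_mono (by norm_num) (SCode.deg_sqP (SCode.deg_oneP h2))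
  · exact SCode.deg_mono (by norm_num) (SCode.deg_sqP (SCode.deg_oneP h4))

/-! ### Integer coefficients -/

theorem isInt_sgB (K N : ℕ) : IsInt (sgB K N) := by
  unfold sgB
  refine isInt_append ?_ (isInt_append ?_ ?_)
  · exact isInt_sqP (isInt_mulS (isInt_varP _) (isInt_varP _))
  · exact isInt_sqP (SCode.isInt_oneP (isInt_sqP (isInt_varP _)))
  · exact isInt_mulS (isInt_natP K) (isInt_sqP (isInt_subP (isInt_mulS (isInt_varP _) (isInt_varP _))
      (isInt_append (isInt_sqP (isInt_varP _)) (isInt_sqP (isInt_varP _)))))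

theorem isInt_wrd (n : ℕ) : IsInt (wrd n) := by
  intro m hm
  have h : m = ((1, 0, 0), [0, n]) := List.mem_singleton.1 hm
  rw [h]

theorem isInt_quas (n d K : ℕ) {F : Poly} (hF : IsInt F) : IsInt (quas n d K F).2 := by
  obtain ⟨h1, h2⟩ := QVal.isInt_tree K n (isInt_varP (2 * n + 2)) d (hom n d F) (2 * n + 6)
    (QVal.isInt_hom n d hF)
  obtain ⟨h3, h4⟩ := QVal.isInt_tree K n (isInt_varP (2 * n + 6 + nod n d)) 2 (wrd n)
    (2 * n + 6 + nod n d + 5) (isInt_wrd n)
  exact SCode.isInt_oneP (isInt_mulS (isInt_natP 4)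
    (isInt_append (isInt_append (QVal.isInt_quarB n K) (isInt_append h1
      (isInt_sqP (SCode.isInt_oneP h2)))) (isInt_append (isInt_sgB K _) (isInt_append h3
        (isInt_sqP (SCode.isInt_oneP h4))))))

/-! ### Computability -/

section

open PrimT SCode QPrim

variable {α : Type*} [Primcodable α]

theorem sgB_p {K N : α → ℕ} (hK : Primrec K) (hN : Primrec N) :
    Primrec fun a => sgB (K a) (N a) := by
  have v0 := varP_p hN
  have v1 := varP_p (add_p hN 1)
  have v2 := varP_p (add_p hN 2)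
  have v3 := varP_p (add_p hN 3)
  have v4 := varP_p (add_p hN 4)
  exact app_p (sqP_p (mulS_p v1 v0)) (app_p (sqP_p (oneP_p (sqP_p v2)))
    (mulS_p (natP_p hK) (sqP_p (subP_p (mulS_p v2 v0) (app_p (sqP_p v3) (sqP_p v4))))))

theorem wrd_p {n : α → ℕ} (hn : Primrec n) : Primrec fun a => wrd (n a) := by
  have h1 : Primrec fun a => ([0, n a] : List ℕ) :=
    Primrec.list_cons.comp (Primrec.const 0) (Primrec.list_cons.comp hn (Primrec.const []))
  have h2 : Primrec fun a => (((1, 0, 0), [0, n a]) : Mono) :=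
    Primrec.pair (Primrec.const (1, 0, 0)) h1
  exact Primrec.list_cons.comp h2 (Primrec.const ([] : Poly))

theorem quas_p {n d K : α → ℕ} {F : α → Poly} (hn : Primrec n) (hd : Primrec d) (hK : Primrec K)
    (hF : Primrec F) : Primrec fun a => quas (n a) (d a) (K a) (F a) := by
  have h2n : Primrec fun a => 2 * n a := Primrec.nat_mul.comp (Primrec.const 2) hn
  have hT : Primrec fun a => quarT (n a) (d a) (K a) (F a) :=
    tree_p hK hn (varP_p (add_p h2n 2)) hd (hom_p hn hd hF) (add_p h2n 6)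
  have hN : Primrec fun a => 2 * n a + 6 + nod (n a) (d a) :=
    Primrec.nat_add.comp (add_p h2n 6) (nod_p hn hd)
  have hS : Primrec fun a => quasT (n a) (K a) (2 * n a + 6 + nod (n a) (d a)) :=
    tree_p hK hn (varP_p hN) (Primrec.const 2) (wrd_p hn) (add_p hN 5)
  have hnum : Primrec fun a => 2 * n a + 6 + nod (n a) (d a) + 5 + nod (n a) 2 :=
    Primrec.nat_add.comp (add_p hN 5) (nod_p hn (Primrec.const 2))
  exact Primrec.pair hnum (oneP_p (mulS_p (Primrec.const (natP 4)) (app_p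
    (app_p (quarB_p hn hK) (app_p (Primrec.fst.comp hT) (sqP_p (oneP_p (Primrec.snd.comp hT)))))
    (app_p (sgB_p hK hN) (app_p (Primrec.fst.comp hS)
      (sqP_p (oneP_p (Primrec.snd.comp hS))))))))

end

/-! ### The word -/

theorem mem_wrd (n : ℕ) : ∀ m ∈ wrd n, m.2.length = 2 ∧ ∀ j ∈ m.2, j ≤ n := by
  intro m hm
  have h : m = ((1, 0, 0), [0, n]) := List.mem_singleton.1 hm
  rw [h]
  refine ⟨rfl, ?_⟩
  intro j hj
  simp only [List.mem_cons, List.not_mem_nil, or_false] at hj
  rcases hj with e | e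
  · omega
  · omega

theorem wev_wrd (n : ℕ) (Y : ℕ → ℝ) : wev Y (wrd n) = Y 0 * Y n := by
  simp [wev, wrd, cv]

end RCode

theorem t_rcode : S_rcode :=
  ⟨RCode.deg_quas, fun n d K _ hF => RCode.isInt_quas n d K hF,
    RCode.quas_p (Primrec.fst.comp Primrec.fst) (Primrec.snd.comp Primrec.fst)
      (Primrec.fst.comp Primrec.snd) (Primrec.snd.comp Primrec.snd),
    RCode.mem_wrd, RCode.wev_wrd⟩

end Pool.Agent.H652.PV
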