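import Pool.Agent.H652.PV.Rdefs
import Pool.Agent.H652.PV.QCst

/-!
# R4: the constant with a general kernel is positive and finite (helper720)
-/

set_option autoImplicit false
set_option synthInstance.maxSize 2000

namespace Pool.Agent.H652.PV

open Pool.Agent.TH960.PE MeasureTheory

namespace RCstf

open SBnd QCst

/-- the kernel -/
noncomputable def gg (f : ℝ → ENNReal) (t v : ℝ) : ENNReal := f (t + (1 - v) ^ 2)

theorem gg_ne {f : ℝ → ENNReal} (hf : ∀ t, 1 / 4 ≤ t → f t = 0) {t v : ℝ} (h : gg f t v ≠ 0) :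
    t + (1 - v) ^ 2 < 1 / 4 := by
  by_contra hc
  exact h (hf _ (not_lt.1 hc))

theorem gg_meas {f : ℝ → ENNReal} (hf : Measurable f) :
    Measurable fun p : ℝ × ℝ => gg f p.1 p.2 :=
  hf.comp (by fun_prop : Measurable fun p : ℝ × ℝ => p.1 + (1 - p.2) ^ 2)

/-! ### The kernel -/

theorem JL_supp {f : ℝ → ENNReal} (hf : ∀ t, 1 / 4 ≤ t → f t = 0) {K : ℕ} {w : ℝ} (hw : 0 < w)
    (hK : (K : ℝ) * w ^ 2 = 1 / 4) (l : List ℝ) :
    ∀ t v : ℝ, 0 ≤ t → JL K l (gg f) t v ≠ 0 →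
      t < 1 / 4 ∧ |1 - v| ≤ 1 / 2 + (l.map fun a => |a|).sum * w := by
  induction l with
  | nil =>
    intro t v ht h
    have h1 := gg_ne hf (h : gg f t v ≠ 0)
    refine ⟨by have := sq_nonneg (1 - v); linarith, ?_⟩
    have h2 := abs_half (x := 1 - v) (by linarith)
    simpa using h2
  | cons a l ih =>
    intro t v ht h
    obtain ⟨z, hz⟩ := lint_ne1 (h : ∫⁻ z : ℝ, JL K l (gg f) (t + K * z ^ 2) (v + a * z) ≠ 0)
    have hz0 : 0 ≤ (K : ℝ) * z ^ 2 := by positivity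
    obtain ⟨h1, h2⟩ := ih _ _ (by linarith) hz
    have h3 : |z| ≤ w := abs_w hw hK (by linarith)
    refine ⟨by linarith, ?_⟩
    have h4 : |1 - v| ≤ |1 - (v + a * z)| + |a| * |z| := by
      have h5 : 1 - v = (1 - (v + a * z)) + a * z := by ring
      calc |1 - v| = |(1 - (v + a * z)) + a * z| := by rw [← h5]
        _ ≤ |1 - (v + a * z)| + |a * z| := abs_add_le _ _
        _ = _ := by rw [abs_mul]
    have h6 : |a| * |z| ≤ |a| * w := mul_le_mul_of_nonneg_left h3 (abs_nonneg a)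
    rw [List.map_cons, List.sum_cons, add_mul]
    linarith

theorem JL_le {f : ℝ → ENNReal} (hf : ∀ t, 1 / 4 ≤ t → f t = 0) {M : ENNReal}
    (hM : ∀ t, 0 ≤ t → f t ≤ M) {K : ℕ} {w : ℝ} (hw : 0 < w)
    (hK : (K : ℝ) * w ^ 2 = 1 / 4) (l : List ℝ) :
    ∀ t v : ℝ, 0 ≤ t → JL K l (gg f) t v ≤ M * (volume (Set.Icc (-w) w)) ^ l.length := by
  induction l with
  | nil =>
    intro t v ht
    have h1 : gg f t v ≤ M := hM _ (by positivity)
    exact h1.trans (by simp)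
  | cons a l ih =>
    intro t v ht
    have h1 := lint_box1 (g := fun z : ℝ => JL K l (gg f) (t + K * z ^ 2) (v + a * z)) w
      (M * (volume (Set.Icc (-w) w)) ^ l.length)
      (fun z => ih _ _ (by positivity)) (fun z hz => by
        have hz0 : 0 ≤ (K : ℝ) * z ^ 2 := by positivity
        have h2 := (JL_supp hf hw hK l _ _ (by linarith) hz).1
        exact abs_w hw hK (by linarith))
    rw [List.length_cons, pow_succ, ← mul_assoc]
    exact h1

/-- the half width of the support of the errors -/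
noncomputable def wk (K : ℕ) : ℝ := 1 / (2 * Real.sqrt K)

theorem kk_pos (n d B : ℕ) : 0 < kk n d B := by
  unfold kk
  have h3 : 0 < (2 * n + 3) ^ d := Nat.pow_pos (by omega)
  positivity

theorem wk_pos {K : ℕ} (hK : 0 < K) : 0 < wk K := by
  have h : (0 : ℝ) < K := by exact_mod_cast hK
  have h1 := Real.sqrt_pos.2 h
  unfold wk
  positivity

theorem wk_K {K : ℕ} (hK : 0 < K) : (K : ℝ) * wk K ^ 2 = 1 / 4 := by
  have h : (0 : ℝ) < K := by exact_mod_cast hK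
  have h1 := Real.sqrt_pos.2 h
  have h2 := Real.sq_sqrt h.le
  unfold wk
  rw [div_pow, mul_pow, h2]
  field_simp
  norm_num

theorem wk_le {n d B K : ℕ} (h : kk n d B ≤ K) : wk K ≤ ww n d B := by
  have hK : 0 < K := (kk_pos n d B).trans_le h
  have h1 := wk_K hK
  have h2 := ww_K n d B
  have h3 : ((kk n d B : ℕ) : ℝ) ≤ K := by exact_mod_cast h
  have h4 : (0 : ℝ) < kk n d B := by exact_mod_cast kk_pos n d B
  have h5 : (K : ℝ) * wk K ^ 2 ≤ K * ww n d B ^ 2 := by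
    rw [h1, ← h2]
    exact mul_le_mul_of_nonneg_right h3 (sq_nonneg _)
  have h6 : wk K ^ 2 ≤ ww n d B ^ 2 := le_of_mul_le_mul_left h5 (h4.trans_le h3)
  exact (pow_le_pow_iff_left₀ (wk_pos hK).le (ww_pos n d B).le two_ne_zero).1 h6

theorem kef_supp {f : ℝ → ENNReal} (hf : ∀ t, 1 / 4 ≤ t → f t = 0) {n d B K : ℕ}
    (hk : kk n d B ≤ K) (ρ t v : ℝ) (hρ : |ρ| ≤ 2) (ht : 0 ≤ t)
    (h : kef f n d K ρ t v ≠ 0) : |1 - v| ≤ 5 / 8 := by
  have hK : 0 < K := (kk_pos n d B).trans_le hk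
  have h1 := (JL_supp hf (wk_pos hK) (wk_K hK) _ t v ht h).2
  rw [List.map_map] at h1
  have h2 := cof_sum n (pt n ρ) (pt_le n ρ hρ) d
  have h3 : ((cof n d).map ((fun a : ℝ => |a|) ∘ fun a => a (pt n ρ))).sum * wk K ≤ 1 / 8 := by
    have h4 : ((cof n d).map ((fun a : ℝ => |a|) ∘ fun a => a (pt n ρ))).sum ≤
        (2 * (n : ℝ) + 3) ^ d := h2
    have h5 : (2 * (n : ℝ) + 3) ^ d ≤ (2 * (n : ℝ) + 3) ^ d + B * 2 ^ d := by
      have h4 : (0 : ℝ) ≤ B * 2 ^ d := by positivity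
      linarith
    have hq := qq_pos n d B
    have h6 : ((cof n d).map ((fun a : ℝ => |a|) ∘ fun a => a (pt n ρ))).sum * wk K ≤
        ((2 * (n : ℝ) + 3) ^ d + B * 2 ^ d) * ww n d B :=
      mul_le_mul (h4.trans h5) (wk_le hk) (wk_pos hK).le (by linarith)
    have h7 : ((2 * (n : ℝ) + 3) ^ d + B * 2 ^ d) * ww n d B = 1 / 8 := by
      have h0 : (2 * (n : ℝ) + 3) ^ d + B * 2 ^ d ≠ 0 := by positivity
      unfold ww
      field_simp
    linarith
  linarith

theorem kef_small {f : ℝ → ENNReal} (hf : ∀ t, 1 / 4 ≤ t → f t = 0) {n d K : ℕ} (hK : 0 < K)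
    (ρ t v : ℝ) (ht : 0 ≤ t) (h : kef f n d K ρ t v ≠ 0) : t < 1 / 4 :=
  (JL_supp hf (wk_pos hK) (wk_K hK) _ t v ht h).1

/-- the bound of the kernel -/
noncomputable def kb (M : ENNReal) (n d K : ℕ) : ENNReal :=
  M * (volume (Set.Icc (-(wk K)) (wk K))) ^ (cof n d).length

theorem kb_fin {M : ENNReal} (hM : M ≠ ⊤) (n d K : ℕ) : kb M n d K ≠ ⊤ :=
  ENNReal.mul_ne_top hM (ENNReal.pow_ne_top (isCompact_Icc.measure_lt_top.ne))

theorem kef_le {f : ℝ → ENNReal} (hf : ∀ t, 1 / 4 ≤ t → f t = 0) {M : ENNReal}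
    (hM : ∀ t, 0 ≤ t → f t ≤ M) {n d K : ℕ} (hK : 0 < K) (ρ t v : ℝ) (ht : 0 ≤ t) :
    kef f n d K ρ t v ≤ kb M n d K := by
  have h1 := JL_le hf hM (wk_pos hK) (wk_K hK) ((cof n d).map fun a => a (pt n ρ)) t v ht
  rw [List.length_map] at h1
  exact h1

/-! ### The second integral -/

theorem inf3_small {f : ℝ → ENNReal} (hf : ∀ t, 1 / 4 ≤ t → f t = 0) {n d K : ℕ} (hK : 0 < K)
    (ρ t : ℝ) (ht : 0 ≤ t) (h : inf3 f n d K t ρ ≠ 0) : t < 1 / 4 := by
  obtain ⟨y, hy⟩ := lint_ne h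
  have h1 := right_ne_zero_of_mul hy
  have h0 : 0 ≤ y 1 ^ 2 + (K : ℝ) * y 2 ^ 2 := by positivity
  have h2 := kef_small hf hK ρ _ _ (by linarith) h1
  linarith

/-- the bound of the second integral -/
noncomputable def ib (M : ENNReal) (n d K : ℕ) : ENNReal :=
  ENNReal.ofReal (8 * Real.pi / 3) * kb M n d K *
    volume (Set.Icc (fun _ : Fin 3 => -(2 : ℝ)) (fun _ => 2))

theorem ib_fin {M : ENNReal} (hM : M ≠ ⊤) (n d K : ℕ) : ib M n d K ≠ ⊤ :=
  ENNReal.mul_ne_top (ENNReal.mul_ne_top ENNReal.ofReal_ne_top (kb_fin hM n d K)) (box_fin 2)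

theorem inf3_le {f : ℝ → ENNReal} (hf : ∀ t, 1 / 4 ≤ t → f t = 0) {M : ENNReal}
    (hM : ∀ t, 0 ≤ t → f t ≤ M) {n d B K : ℕ} (hk : kk n d B ≤ K) (ρ t : ℝ) (hρ : |ρ| ≤ 2)
    (ht : 0 ≤ t) : inf3 f n d K t ρ ≤ ib M n d K := by
  have hK : 0 < K := (kk_pos n d B).trans_le hk
  refine lint_box 2 _ (fun y => ?_) (fun y hy => ?_)
  · by_cases h : kef f n d K ρ (t + (y 1 ^ 2 + (K : ℝ) * y 2 ^ 2)) (y 0) = 0
    · rw [h, mul_zero]
      exact zero_le
    · have h0 : 0 ≤ t + (y 1 ^ 2 + (K : ℝ) * y 2 ^ 2) := by positivity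
      have h1 := abs_le.mp (kef_supp hf hk ρ _ _ hρ h0 h)
      have h2 : 3 / 8 ≤ |y 0| := by
        have : 3 / 8 ≤ y 0 := by linarith [h1.2]
        exact this.trans (le_abs_self _)
      refine mul_le_mul' (ENNReal.ofReal_le_ofReal ?_) (kef_le hf hM hK ρ _ _ h0)
      rw [div_le_div_iff₀ (by linarith) (by norm_num)]
      have := Real.pi_pos
      nlinarith
  · have h := right_ne_zero_of_mul hy
    have h0 : 0 ≤ t + (y 1 ^ 2 + (K : ℝ) * y 2 ^ 2) := by positivity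
    have h1 := abs_le.mp (kef_supp hf hk ρ _ _ hρ h0 h)
    have h2 := kef_small hf hK ρ _ _ h0 h
    have h3 : 0 ≤ (K : ℝ) * y 2 ^ 2 := by positivity
    have h4 : 0 ≤ y 1 ^ 2 := sq_nonneg _
    have h5 : |y 1| ≤ 1 / 2 := abs_half (by linarith)
    have h6 : |y 2| ≤ wk K := abs_w (wk_pos hK) (wk_K hK) (by linarith)
    have h7 := ww_le n d B
    have h8 := wk_le hk
    intro i
    fin_cases i
    · show |y 0| ≤ 2
      rw [abs_le]
      constructor <;> linarith [h1.1, h1.2]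
    · show |y 1| ≤ 2
      linarith
    · show |y 2| ≤ 2
      linarith

/-! ### Measurability -/

theorem JL_meas (hJ : S_jl) {f : ℝ → ENNReal} (hf : Measurable f) (K : ℕ) (l : List ℝ) :
    Measurable fun p : ℝ × ℝ => JL K l (gg f) p.1 p.2 := by
  have h1 := hJ.1 K Unit (l.map fun a _ => a) (fun _ => gg f)
    (fun a ha => by
      obtain ⟨b, _, rfl⟩ := List.mem_map.1 ha
      exact measurable_const)
    ((gg_meas hf).comp (by fun_prop : Measurable fun p : Unit × ℝ × ℝ => (p.2.1, p.2.2)))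
  have h2 := h1.comp (by fun_prop : Measurable fun q : ℝ × ℝ => (((), q) : Unit × ℝ × ℝ))
  have h3 : ∀ u : Unit, (l.map fun (a : ℝ) (_ : Unit) => a).map (fun a => a u) = l := by
    intro u
    rw [List.map_map]
    exact List.map_id l
  have h4 : (fun q : ℝ × ℝ => JL K ((l.map fun (a : ℝ) (_ : Unit) => a).map fun a => a ()) (gg f)
      q.1 q.2) = fun p : ℝ × ℝ => JL K l (gg f) p.1 p.2 := by
    funext q
    rw [h3]
  rw [← h4]
  exact h2

theorem kef_meas (hJ : S_jl) {f : ℝ → ℝ → ENNReal} (hf : Measurable (Function.uncurry f))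
    (n d K : ℕ) : Measurable fun p : ℝ × ℝ × ℝ => kef (f p.1) n d K p.1 p.2.1 p.2.2 := by
  have h0 : Measurable fun p : ℝ × ℝ × ℝ => gg (f p.1) p.2.1 p.2.2 :=
    hf.comp (by fun_prop : Measurable fun p : ℝ × ℝ × ℝ => (p.1, p.2.1 + (1 - p.2.2) ^ 2))
  have h1 := hJ.1 K ℝ ((cof n d).map fun a ρ => a (pt n ρ)) (fun ρ => gg (f ρ))
    (fun a ha => by
      obtain ⟨b, hb, rfl⟩ := List.mem_map.1 ha
      exact (hJ.2.2.2.2.1 n d b hb).comp (pt_meas n))
    h0
  have h4 : (fun p : ℝ × ℝ × ℝ => JL K (((cof n d).map fun a ρ => a (pt n ρ)).map fun a => a p.1)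
      (gg (f p.1)) p.2.1 p.2.2) =
      fun p : ℝ × ℝ × ℝ => kef (f p.1) n d K p.1 p.2.1 p.2.2 := by
    funext q
    rw [List.map_map]
    rfl
  rw [← h4]
  exact h1

theorem inf3_meas (hJ : S_jl) {f : ℝ → ℝ → ENNReal} (hf : Measurable (Function.uncurry f))
    (n d K : ℕ) : Measurable fun q : ℝ × ℝ => inf3 (f q.2) n d K q.1 q.2 := by
  have h1 : Measurable fun q : (ℝ × ℝ) × (Fin 3 → ℝ) =>
      ((q.1.2, q.1.1 + (q.2 1 ^ 2 + K * q.2 2 ^ 2), q.2 0) : ℝ × ℝ × ℝ) := by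
    fun_prop
  have h2 : Measurable fun q : (ℝ × ℝ) × (Fin 3 → ℝ) => ENNReal.ofReal (Real.pi / |q.2 0|) := by
    fun_prop
  exact (h2.mul ((kef_meas hJ hf n d K).comp h1)).lintegral_prod_right'

/-! ### Positivity -/

theorem JL_pos (hJ : S_jl) {f : ℝ → ENNReal} (hf : Measurable f) (hp : ∀ t, t < 1 / 4 → f t ≠ 0)
    (K : ℕ) (l : List ℝ) :
    ∀ t v : ℝ, t + (1 - v) ^ 2 < 1 / 4 → JL K l (gg f) t v ≠ 0 := by
  induction l with
  | nil => exact fun t v h => hp _ h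
  | cons a l ih =>
    intro t v h
    have h1 : Measurable fun z : ℝ => JL K l (gg f) (t + K * z ^ 2) (v + a * z) :=
      (JL_meas hJ hf K l).comp (by fun_prop : Measurable fun z : ℝ => (t + K * z ^ 2, v + a * z))
    exact lint_pos1 h1 (fun z => t + K * z ^ 2 + (1 - (v + a * z)) ^ 2) (by fun_prop)
      (fun z hz => ih _ _ hz) 0 (by simpa using h)

theorem inf3_pos (hJ : S_jl) {f : ℝ → ℝ → ENNReal} (hf : Measurable (Function.uncurry f))
    (hp : ∀ ρ t, t < 1 / 4 → f ρ t ≠ 0) (n d K : ℕ) (t ρ : ℝ) (ht : 0 ≤ t) (h : t < 1 / 4) :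
    inf3 (f ρ) n d K t ρ ≠ 0 := by
  have h1 : Measurable fun y : Fin 3 → ℝ => ENNReal.ofReal (Real.pi / |y 0|) *
      kef (f ρ) n d K ρ (t + (y 1 ^ 2 + K * y 2 ^ 2)) (y 0) := by
    have h2 : Measurable fun y : Fin 3 → ℝ =>
        ((ρ, t + (y 1 ^ 2 + K * y 2 ^ 2), y 0) : ℝ × ℝ × ℝ) := by
      fun_prop
    have h3 : Measurable fun y : Fin 3 → ℝ => ENNReal.ofReal (Real.pi / |y 0|) := by
      fun_prop
    exact h3.mul ((kef_meas hJ hf n d K).comp h2)
  refine lint_pos h1 (fun y => t + (y 1 ^ 2 + K * y 2 ^ 2) + (1 - y 0) ^ 2) (by fun_prop)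
    (fun y hy => ?_) (fun i => if i = 0 then 1 else 0) (by simpa using h)
  have h0 : 0 ≤ y 1 ^ 2 + (K : ℝ) * y 2 ^ 2 := by positivity
  have hy' : t + (y 1 ^ 2 + (K : ℝ) * y 2 ^ 2) + (1 - y 0) ^ 2 < 1 / 4 := hy
  have h2 := abs_le.mp (abs_half (x := 1 - y 0) (by linarith))
  have h3 : 0 < y 0 := by linarith [h2.2]
  have h4 : Measurable (f ρ) := hf.comp (by fun_prop : Measurable fun t : ℝ => (ρ, t))
  refine mul_ne_zero ?_ (JL_pos hJ h4 (hp ρ) K _ _ _ hy')
  rw [abs_of_pos h3]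
  have := Real.pi_pos
  exact (ENNReal.ofReal_pos.2 (by positivity)).ne'

end RCstf

open RCstf QCst SBnd in
theorem t_cstf (hJ : S_jl) : S_cstf := by
  intro f hf hf0 hfp hfM n d B K hk
  obtain ⟨M, hM, hfM⟩ := hfM
  have hK : 0 < K := (RCstf.kk_pos n d B).trans_le hk
  have hm : Measurable fun y : Fin (n + 2) → ℝ => ENNReal.ofReal (1 / |y 0|) *
      inf3 (f |y 0|) n d K (tt n y) |y 0| := by
    have h1 : Measurable fun y : Fin (n + 2) → ℝ => ((tt n y, |y 0|) : ℝ × ℝ) :=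
      (tt_cont n).measurable.prodMk (by fun_prop)
    have h2 : Measurable fun y : Fin (n + 2) → ℝ => ENNReal.ofReal (1 / |y 0|) := by
      fun_prop
    exact h2.mul ((RCstf.inf3_meas hJ hf n d K).comp h1)
  constructor
  · refine lint_pos hm (tt n) (tt_cont n) (fun y hy => ?_) (fun i => if i = 0 then 1 else 0) ?_
    · have h1 := (tt_zero hy).1
      refine mul_ne_zero ?_ (RCstf.inf3_pos hJ hf hfp n d _ _ _ (tt_nonneg n y) hy)
      exact (ENNReal.ofReal_pos.2 (by positivity)).ne'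
    · have h1 : ∀ j ∈ Finset.range (n + 1),
          ext (fun i : Fin (n + 2) => if i = 0 then (1 : ℝ) else 0) (1 + j) ^ 2 = 0 := by
        intro j hj
        have h2 : 1 + j < n + 2 := by
          have := Finset.mem_range.1 hj
          omega
        unfold ext
        rw [dif_pos h2]
        have h3 : (⟨1 + j, h2⟩ : Fin (n + 2)) ≠ 0 := by
          intro h4
          have h5 := congrArg Fin.val h4
          simp only [Fin.val_zero] at h5
          omega
        show (if (⟨1 + j, h2⟩ : Fin (n + 2)) = 0 then (1 : ℝ) else 0) ^ 2 = 0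
        rw [if_neg h3]
        norm_num
      unfold tt
      rw [Finset.sum_eq_zero h1]
      norm_num
  · have h1 := lint_box (n := n + 2) (g := fun y => ENNReal.ofReal (1 / |y 0|) *
      inf3 (f |y 0|) n d K (tt n y) |y 0|) 2 (ENNReal.ofReal 2 * RCstf.ib M n d K) (fun y => ?_)
      (fun y hy => ?_)
    · refine ne_of_lt (lt_of_le_of_lt h1 ?_)
      exact (ENNReal.mul_ne_top (ENNReal.mul_ne_top ENNReal.ofReal_ne_top (RCstf.ib_fin hM n d K))
        (box_fin 2)).lt_top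
    · by_cases h : inf3 (f |y 0|) n d K (tt n y) |y 0| = 0
      · rw [h, mul_zero]
        exact zero_le
      · have h0 := RCstf.inf3_small (hf0 |y 0|) hK _ _ (tt_nonneg n y) h
        have h2 := tt_zero h0
        have h3 : (1 - |y 0| ^ 2) ^ 2 < 1 / 4 := by
          have h4 : 0 ≤ ∑ j ∈ Finset.range (n + 1), ext y (1 + j) ^ 2 :=
            Finset.sum_nonneg fun _ _ => sq_nonneg _
          rw [sq_abs]
          unfold tt at h0
          linarith
        refine mul_le_mul' (ENNReal.ofReal_le_ofReal ?_)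
          (RCstf.inf3_le (hf0 |y 0|) (fun t ht => hfM _ t ht h3) hk _ _
            (by rw [abs_abs]; exact h2.2) (tt_nonneg n y))
        rw [div_le_iff₀ (by linarith [h2.1])]
        linarith [h2.1]
    · exact tt_box (RCstf.inf3_small (hf0 |y 0|) hK _ _ (tt_nonneg n y)
        (right_ne_zero_of_mul hy))

end Pool.Agent.H652.PV
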