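import Pool.Agent.H652.PV.Rdefs

/-!
# R1: the integral over `u` and three other variables, general kernel (adapted from `QInn.lean`)
-/

set_option autoImplicit false
set_option synthInstance.maxSize 2000

namespace Pool.Agent.H652.PV

open Pool.Agent.TH960.PE MeasureTheory

namespace RInnf

/-- Fubini for the first coordinate -/
lemma lint_cons {n : ℕ} (F : (Fin (n + 1) → ℝ) → ENNReal) (hF : Measurable F) :
    ∫⁻ y : Fin (n + 1) → ℝ, F y = ∫⁻ a : ℝ, ∫⁻ z : Fin n → ℝ, F (Fin.cons a z) := by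
  have h := (volume_preserving_piFinSuccAbove (fun _ : Fin (n + 1) => ℝ) 0).symm
  have h1 := h.lintegral_comp hF
  have hm : Measurable fun p : ℝ × (Fin n → ℝ) =>
      F ((MeasurableEquiv.piFinSuccAbove (fun _ : Fin (n + 1) => ℝ) 0).symm p) :=
    hF.comp h.measurable
  rw [← h1, Measure.volume_eq_prod, lintegral_prod _ hm.aemeasurable]
  refine lintegral_congr fun a => lintegral_congr fun z => congrArg F ?_
  show Fin.insertNth (α := fun _ => ℝ) 0 a z = _
  rw [Fin.insertNth_zero']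

/-- scaling -/
lemma lint_mul (c : ℝ) (hc : c ≠ 0) (f : ℝ → ENNReal) :
    ∫⁻ x, f x = ENNReal.ofReal |c| * ∫⁻ x, f (c * x) := by
  conv_lhs => rw [← Real.smul_map_volume_mul_left hc]
  rw [lintegral_smul_measure, smul_eq_mul]
  exact congrArg _ (lintegral_map_equiv f (MeasurableEquiv.mulLeft₀ c hc))

/-- the area of discs -/
lemma lint_disc (φ : ℝ → ENNReal) (hφ : Measurable φ) :
    ∫⁻ p : ℝ × ℝ, φ (p.1 ^ 2 + p.2 ^ 2) =
      ENNReal.ofReal Real.pi * ∫⁻ h in Set.Ioi (0 : ℝ), φ h := by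
  have h1 : ∫⁻ h in Set.Ioi (0 : ℝ), φ h =
      ∫⁻ r in Set.Ioi (0 : ℝ), ENNReal.ofReal |2 * r| * φ (r ^ 2) := by
    have himg : (fun r : ℝ => r ^ 2) '' Set.Ioi 0 = Set.Ioi 0 := by
      ext x
      constructor
      · rintro ⟨r, hr, rfl⟩
        exact pow_pos (show (0 : ℝ) < r from hr) 2
      · intro hx
        exact ⟨Real.sqrt x, Real.sqrt_pos.2 hx, Real.sq_sqrt (le_of_lt hx)⟩
    conv_lhs => rw [← himg]
    refine lintegral_image_eq_lintegral_abs_deriv_mul measurableSet_Ioi (fun x _ => ?_) ?_ φ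
    · have := (hasDerivAt_pow 2 x).hasDerivWithinAt (s := Set.Ioi 0)
      simpa using this
    · intro a ha b hb hab
      exact (pow_left_inj₀ (le_of_lt ha) (le_of_lt hb) two_ne_zero).1 hab
  have h2 : ∀ p ∈ polarCoord.target, ENNReal.ofReal p.1 •
      φ ((polarCoord.symm p).1 ^ 2 + (polarCoord.symm p).2 ^ 2) =
        (ENNReal.ofReal p.1 * φ (p.1 ^ 2)) * 1 := by
    intro p _
    have : (polarCoord.symm p).1 ^ 2 + (polarCoord.symm p).2 ^ 2 = p.1 ^ 2 := by
      rw [polarCoord_symm_apply]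
      show (p.1 * Real.cos p.2) ^ 2 + (p.1 * Real.sin p.2) ^ 2 = p.1 ^ 2
      nlinarith [Real.sin_sq_add_cos_sq p.2]
    rw [this, mul_one, smul_eq_mul]
  have hm : Measurable fun r : ℝ => ENNReal.ofReal r * φ (r ^ 2) :=
    ENNReal.measurable_ofReal.mul (hφ.comp (measurable_id.pow_const 2))
  rw [← lintegral_comp_polarCoord_symm, setLIntegral_congr_fun polarCoord.open_target.measurableSet h2,
    polarCoord_target, Measure.volume_eq_prod, ← Measure.prod_restrict,
    lintegral_prod_mul hm.aemeasurable measurable_const.aemeasurable, h1, lintegral_const, one_mul,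
    Measure.restrict_apply MeasurableSet.univ, Set.univ_inter, Real.volume_Ioo]
  have h3 : ∀ r ∈ Set.Ioi (0 : ℝ), ENNReal.ofReal |2 * r| * φ (r ^ 2) =
      ENNReal.ofReal 2 * (ENNReal.ofReal r * φ (r ^ 2)) := by
    intro r hr
    have hr' : (0 : ℝ) < r := hr
    rw [abs_of_pos (by positivity), ENNReal.ofReal_mul (by norm_num), mul_assoc]
  rw [setLIntegral_congr_fun measurableSet_Ioi h3, lintegral_const_mul _ hm, ← mul_assoc,
    ← ENNReal.ofReal_mul Real.pi_pos.le, mul_comm]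
  congr 2
  ring

/-- the support of `JL` -/
lemma jl_supp (f : ℝ → ENNReal) (hf : ∀ t, 1 / 4 ≤ t → f t = 0) (K : ℕ) (w : ℝ) (hw : 0 < w)
    (hK : 1 / 4 ≤ K * w ^ 2) (l : List ℝ) :
    ∀ t v : ℝ, JL K l (fun t v => f (t + (1 - v) ^ 2)) t v ≠ 0 → t < 1 / 4 ∧
      (0 ≤ t → |1 - v| ≤ 1 / 2 + (l.map fun a => |a|).sum * w) := by
  classical
  induction l with
  | nil =>
    intro t v h
    have h1 : t + (1 - v) ^ 2 < 1 / 4 := by
      by_contra h2
      exact h (hf _ (not_lt.1 h2))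
    refine ⟨by nlinarith [sq_nonneg (1 - v)], fun ht => ?_⟩
    simp only [List.map_nil, List.sum_nil, zero_mul, add_zero]
    refine abs_le_of_sq_le_sq' ?_ (by norm_num) |> fun h => abs_le.2 h
    nlinarith
  | cons a l ih =>
    intro t v h
    have h1 : ∃ z : ℝ, JL K l (fun t v => f (t + (1 - v) ^ 2)) (t + K * z ^ 2) (v + a * z) ≠ 0 := by
      by_contra h2
      push Not at h2
      apply h
      show ∫⁻ z : ℝ, JL K l (fun t v => f (t + (1 - v) ^ 2)) (t + K * z ^ 2) (v + a * z) = 0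
      simp only [h2, lintegral_zero]
    obtain ⟨z, hz⟩ := h1
    obtain ⟨h3, h4⟩ := ih _ _ hz
    have hKz : 0 ≤ (K : ℝ) * z ^ 2 := by positivity
    refine ⟨by linarith, fun ht => ?_⟩
    have h5 := h4 (by linarith)
    have hK0 : 0 < (K : ℝ) := by
      by_contra hneg
      have : (K : ℝ) * w ^ 2 ≤ 0 := mul_nonpos_of_nonpos_of_nonneg (not_lt.1 hneg) (by positivity)
      linarith
    have hzw : z ^ 2 ≤ w ^ 2 := by
      have : (K : ℝ) * z ^ 2 ≤ K * w ^ 2 := by linarith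
      exact le_of_mul_le_mul_left this hK0
    have hzw' : |z| ≤ w := abs_le_of_sq_le_sq hzw hw.le
    simp only [List.map_cons, List.sum_cons]
    have h6 : |1 - v| ≤ |1 - (v + a * z)| + |a * z| := by
      have h8 := abs_add_le (1 - (v + a * z)) (a * z)
      have h9 : 1 - (v + a * z) + a * z = 1 - v := by ring
      rwa [h9] at h8
    have h7 : |a * z| ≤ |a| * w := by
      rw [abs_mul]
      exact mul_le_mul_of_nonneg_left hzw' (abs_nonneg a)
    linarith

/-- the sum of the coefficients -/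
lemma cof_sum (n : ℕ) (Y : ℕ → ℝ) (hY : ∀ j, |Y j| ≤ 2) (d : ℕ) :
    ((cof n d).map fun a => |a Y|).sum ≤ ((2 * n + 3) ^ d : ℕ) := by
  induction d with
  | zero => simp [cof]
  | succ d ih =>
    have h1 : ((cof n (d + 1)).map fun a => |a Y|).sum =
        ((List.range (n + 1)).map fun j => |Y j| * ((cof n d).map fun a => |a Y|).sum).sum + 1 := by
      simp only [cof, List.map_append, List.sum_append, List.map_cons, List.map_nil, List.sum_cons,
        List.sum_nil, abs_one, add_zero]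
      congr 1
      generalize List.range (n + 1) = L
      induction L with
      | nil => simp
      | cons j L ihL =>
        rw [List.flatMap_cons, List.map_append, List.sum_append, ihL, List.map_cons, List.sum_cons]
        congr 1
        rw [List.map_map, ← List.sum_map_mul_left]
        congr 1
        refine List.map_congr_left fun a _ => ?_
        simp [abs_mul]
    have hS0 : 0 ≤ ((cof n d).map fun a => |a Y|).sum := by
      refine List.sum_nonneg fun x hx => ?_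
      obtain ⟨a, _, rfl⟩ := List.mem_map.1 hx
      exact abs_nonneg _
    have h2 : ((List.range (n + 1)).map fun j => |Y j| * ((cof n d).map fun a => |a Y|).sum).sum ≤
        (n + 1) * (2 * ((2 * n + 3) ^ d : ℕ)) := by
      have h3 : ∀ x ∈ ((List.range (n + 1)).map fun j =>
          |Y j| * ((cof n d).map fun a => |a Y|).sum), x ≤ 2 * (((2 * n + 3) ^ d : ℕ) : ℝ) := by
        intro x hx
        obtain ⟨j, _, rfl⟩ := List.mem_map.1 hx
        exact mul_le_mul (hY j) ih hS0 (by norm_num)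
      have h4 := List.sum_le_card_nsmul _ _ h3
      rw [List.length_map, List.length_range, nsmul_eq_mul] at h4
      push_cast at h4 ⊢
      exact h4
    rw [h1]
    have h5 : (1 : ℝ) ≤ (((2 * n + 3) ^ d : ℕ) : ℝ) := by
      exact_mod_cast Nat.one_le_pow _ _ (by omega)
    rw [pow_succ]
    push_cast at h2 h5 ⊢
    nlinarith

/-- measurability of the kernel -/
lemma measurable_ker (hJ : S_jl) (f : ℝ → ENNReal) (hf : Measurable f) (n d K : ℕ) (ρ : ℝ) :
    Measurable fun p : ℝ × ℝ => kef f n d K ρ p.1 p.2 := by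
  have h := hJ.1 K Unit ((cof n d).map fun a _ => a (pt n ρ))
    (fun _ t v => f (t + (1 - v) ^ 2)) (by
    intro a ha
    obtain ⟨b, _, rfl⟩ := List.mem_map.1 ha
    exact measurable_const) (by
    exact hf.comp (f := fun p : Unit × ℝ × ℝ => p.2.1 + (1 - p.2.2) ^ 2) (by fun_prop))
  have h2 : Measurable fun p : ℝ × ℝ => (((), p.1, p.2) : Unit × ℝ × ℝ) := by fun_prop
  have h3 := h.comp h2
  simp only [List.map_map] at h3
  exact h3

lemma kk_cast (n d B : ℕ) : ((kk n d B : ℕ) : ℝ) =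
    (4 * ((((2 * n + 3) ^ d : ℕ) : ℝ) + B * 2 ^ d)) ^ 2 := by
  unfold kk
  push_cast
  ring

/-- the support of the kernel -/
lemma ker_supp (f : ℝ → ENNReal) (hf : ∀ t, 1 / 4 ≤ t → f t = 0) {n d B K : ℕ} {ρ t v : ℝ}
    (hKB : kk n d B ≤ K) (ht : (1 - ρ ^ 2) ^ 2 ≤ t)
    (h : kef f n d K ρ t v ≠ 0) : t < 1 / 4 ∧ 3 / 8 ≤ v := by
  have hS : (1 : ℝ) ≤ (((2 * n + 3) ^ d : ℕ) : ℝ) := by
    exact_mod_cast Nat.one_le_pow _ _ (by omega)
  have hM : (0 : ℝ) ≤ (B : ℝ) * 2 ^ d := by positivity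
  set S : ℝ := (((2 * n + 3) ^ d : ℕ) : ℝ) with hSd
  set M : ℝ := (B : ℝ) * 2 ^ d with hMd
  have hSM : 0 < S + M := by linarith
  have hw : 0 < 1 / (8 * (S + M)) := by positivity
  have hK1 : ((kk n d B : ℕ) : ℝ) * (1 / (8 * (S + M))) ^ 2 = 1 / 4 := by
    rw [kk_cast]
    field_simp
    ring
  have hK : 1 / 4 ≤ (K : ℝ) * (1 / (8 * (S + M))) ^ 2 := by
    rw [← hK1]
    exact mul_le_mul_of_nonneg_right (by exact_mod_cast hKB) (sq_nonneg _)
  obtain ⟨h1, h2⟩ := jl_supp f hf K (1 / (8 * (S + M))) hw hK _ t v h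
  refine ⟨h1, ?_⟩
  have ht0 : 0 ≤ t := (sq_nonneg _).trans ht
  have h3 := h2 ht0
  have hρ : |ρ| ≤ 2 := by
    have : ρ ^ 2 ≤ 2 ^ 2 := by nlinarith
    exact abs_le_of_sq_le_sq this (by norm_num)
  have hY : ∀ j, |pt n ρ j| ≤ 2 := by
    intro j
    unfold pt
    split_ifs
    · exact hρ
    · simp
  have h4 := cof_sum n (pt n ρ) hY d
  rw [List.map_map] at h3
  have h5 : ((cof n d).map ((fun a => |a|) ∘ fun a => a (pt n ρ))).sum * (1 / (8 * (S + M))) ≤
      1 / 8 := by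
    have h6 : ((cof n d).map ((fun a => |a|) ∘ fun a => a (pt n ρ))).sum ≤ S := h4
    have h7 := mul_le_mul_of_nonneg_right h6 hw.le
    refine h7.trans ?_
    rw [mul_one_div, div_le_iff₀ (by positivity)]
    linarith
  have h8 := (abs_le.1 (h3.trans (add_le_add le_rfl h5))).2
  linarith

end RInnf

open RInnf

theorem t_innf (hJ : S_jl) : S_innf := by
  intro f hf hf0 n d B K t ρ A hKB ht hA
  have hKc := kk_cast n d B
  have hKB' : ((kk n d B : ℕ) : ℝ) ≤ K := by exact_mod_cast hKB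
  have hS : (1 : ℝ) ≤ (((2 * n + 3) ^ d : ℕ) : ℝ) := by
    exact_mod_cast Nat.one_le_pow _ _ (by omega)
  have hM : (0 : ℝ) ≤ (B : ℝ) * 2 ^ d := by positivity
  -- a number which occurs twice
  have hbig : ∀ y x : ℝ, t < 1 / 4 → 3 / 8 ≤ y * A → y ^ 2 ≤ x → ¬ (K : ℝ) * x < 1 / 4 := by
    intro y x ht4 hy hx hlt
    have hA' := hA ht4
    have h1 : 9 / 64 ≤ (y * A) ^ 2 := by nlinarith
    have h2 : A ^ 2 ≤ ((B : ℝ) * 2 ^ d) ^ 2 := by
      rw [← sq_abs A]
      exact pow_le_pow_left₀ (abs_nonneg A) hA' 2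
    have h3 : 16 * A ^ 2 ≤ (K : ℝ) := by
      refine le_trans ?_ hKB'
      rw [hKc]
      nlinarith
    have h4 : 16 * A ^ 2 * y ^ 2 ≤ K * x :=
      mul_le_mul h3 hx (sq_nonneg y) (by positivity)
    nlinarith
  have hsq : 0 ≤ (K : ℝ) := Nat.cast_nonneg K
  refine ⟨fun hA0 => ?_, fun hA0 => ?_⟩
  · rcases le_or_gt (1 / 4) t with ht4 | ht4
    · -- both sides are zero
      have hz : ∀ x v : ℝ, 0 ≤ x → kef f n d K ρ (t + x) v = 0 := by
        intro x v hx
        by_contra hne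
        have := (ker_supp f hf0 hKB (ht.trans (by linarith)) hne).1
        linarith
      unfold inf4 inf3
      have h1 : ∀ y : Fin 4 → ℝ, kef f n d K ρ (t + ((y 1 * y 0) ^ 2 +
          K * (y 0 - (y 2 ^ 2 + y 3 ^ 2)) ^ 2)) (y 0 * A) = 0 := fun y => hz _ _ (by positivity)
      have h2 : ∀ y : Fin 3 → ℝ, ENNReal.ofReal (Real.pi / |y 0|) *
          kef f n d K ρ (t + (y 1 ^ 2 + K * y 2 ^ 2)) (y 0) = 0 := fun y => by
        rw [hz _ _ (by positivity), mul_zero]
      simp only [h1, h2, lintegral_zero]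
    · have hGm := measurable_ker hJ f hf n d K ρ
      obtain ⟨G, hGd⟩ : ∃ G : ℝ → ℝ → ENNReal, G = kef f n d K ρ := ⟨_, rfl⟩
      have hsupp : ∀ x v : ℝ, 0 ≤ x → G (t + x) v ≠ 0 → t + x < 1 / 4 ∧ 3 / 8 ≤ v := by
        intro x v hx hne
        rw [hGd] at hne
        exact ker_supp f hf0 hKB (ht.trans (by linarith)) hne
      unfold inf4 inf3
      rw [← hGd] at hGm ⊢
      -- the left hand side
      have hL : ∫⁻ y : Fin 4 → ℝ, G (t + ((y 1 * y 0) ^ 2 +
          K * (y 0 - (y 2 ^ 2 + y 3 ^ 2)) ^ 2)) (y 0 * A) =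
          ∫⁻ a : ℝ, ∫⁻ b : ℝ, ENNReal.ofReal Real.pi *
            ∫⁻ h : ℝ, G (t + ((b * a) ^ 2 + K * h ^ 2)) (a * A) := by
        have hm4 : Measurable fun y : Fin 4 → ℝ => G (t + ((y 1 * y 0) ^ 2 +
            K * (y 0 - (y 2 ^ 2 + y 3 ^ 2)) ^ 2)) (y 0 * A) :=
          hGm.comp (f := fun y : Fin 4 → ℝ => (t + ((y 1 * y 0) ^ 2 +
            K * (y 0 - (y 2 ^ 2 + y 3 ^ 2)) ^ 2), y 0 * A)) (by fun_prop)
        rw [lint_cons (n := 3) _ hm4]
        refine lintegral_congr fun a => ?_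
        have e1 : ∀ z : Fin 3 → ℝ, G (t + (((Fin.cons a z : Fin 4 → ℝ) 1 *
            (Fin.cons a z : Fin 4 → ℝ) 0) ^ 2 + K * ((Fin.cons a z : Fin 4 → ℝ) 0 -
              ((Fin.cons a z : Fin 4 → ℝ) 2 ^ 2 + (Fin.cons a z : Fin 4 → ℝ) 3 ^ 2)) ^ 2))
            ((Fin.cons a z : Fin 4 → ℝ) 0 * A) =
            G (t + ((z 0 * a) ^ 2 + K * (a - (z 1 ^ 2 + z 2 ^ 2)) ^ 2)) (a * A) := fun z => rfl
        simp only [e1]
        have hm3 : Measurable fun z : Fin 3 → ℝ => G (t + ((z 0 * a) ^ 2 +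
            K * (a - (z 1 ^ 2 + z 2 ^ 2)) ^ 2)) (a * A) :=
          hGm.comp (f := fun z : Fin 3 → ℝ => (t + ((z 0 * a) ^ 2 +
            K * (a - (z 1 ^ 2 + z 2 ^ 2)) ^ 2), a * A)) (by fun_prop)
        rw [lint_cons (n := 2) _ hm3]
        refine lintegral_congr fun b => ?_
        have e2 : ∀ z : Fin 2 → ℝ, G (t + (((Fin.cons b z : Fin 3 → ℝ) 0 * a) ^ 2 +
            K * (a - ((Fin.cons b z : Fin 3 → ℝ) 1 ^ 2 + (Fin.cons b z : Fin 3 → ℝ) 2 ^ 2)) ^ 2))
              (a * A) =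
            G (t + ((b * a) ^ 2 + K * (a - (z 0 ^ 2 + z 1 ^ 2)) ^ 2)) (a * A) := fun z => rfl
        simp only [e2]
        obtain ⟨φ, hφ⟩ : ∃ φ : ℝ → ENNReal, φ = fun h =>
          G (t + ((b * a) ^ 2 + K * (a - h) ^ 2)) (a * A) := ⟨_, rfl⟩
        have hφm : Measurable φ := by
          rw [hφ]
          exact hGm.comp (f := fun h : ℝ => (t + ((b * a) ^ 2 + K * (a - h) ^ 2), a * A))
            (by fun_prop)
        have e3 : ∀ z : Fin 2 → ℝ, G (t + ((b * a) ^ 2 + K * (a - (z 0 ^ 2 + z 1 ^ 2)) ^ 2))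
            (a * A) = (fun p : ℝ × ℝ => φ (p.1 ^ 2 + p.2 ^ 2)) (MeasurableEquiv.finTwoArrow z) := by
          intro z
          rw [hφ]
          rfl
        simp only [e3]
        have hm2 : Measurable fun p : ℝ × ℝ => φ (p.1 ^ 2 + p.2 ^ 2) :=
          hφm.comp (by fun_prop)
        rw [(volume_preserving_finTwoArrow ℝ).lintegral_comp hm2, lint_disc φ hφm]
        congr 1
        have e4 : ∫⁻ h in Set.Ioi (0 : ℝ), φ h = ∫⁻ h : ℝ, φ h := by
          rw [← lintegral_indicator measurableSet_Ioi]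
          refine lintegral_congr fun h => ?_
          by_cases hh : 0 < h
          · exact Set.indicator_of_mem (show h ∈ Set.Ioi (0 : ℝ) from hh) _
          · rw [Set.indicator_of_notMem (show h ∉ Set.Ioi (0 : ℝ) from hh)]
            by_contra hne
            have hne' : G (t + ((b * a) ^ 2 + K * (a - h) ^ 2)) (a * A) ≠ 0 := by
              rw [hφ] at hne
              exact fun h0 => hne h0.symm
            obtain ⟨h2, h3⟩ := hsupp _ _ (by positivity) hne'
            have ha : 0 < a := by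
              by_contra ha
              have := mul_nonpos_of_nonpos_of_nonneg (not_lt.1 ha) hA0.le
              linarith
            have hh' : h ≤ 0 := not_lt.1 hh
            have h4 := sq_nonneg (b * a)
            have h5 : a ^ 2 ≤ (a - h) ^ 2 := by nlinarith
            have ht0 : 0 ≤ t := (sq_nonneg _).trans ht
            exact hbig a _ ht4 h3 h5 (by linarith)
        rw [e4]
        have e5 := lintegral_sub_left_eq_self
          (fun h : ℝ => G (t + ((b * a) ^ 2 + K * h ^ 2)) (a * A)) a (μ := volume)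
        rw [← e5, hφ]
      -- the right hand side
      have hR : ∫⁻ y : Fin 3 → ℝ, ENNReal.ofReal (Real.pi / |y 0|) *
          G (t + (y 1 ^ 2 + K * y 2 ^ 2)) (y 0) =
          ∫⁻ v : ℝ, ENNReal.ofReal (Real.pi / |v|) *
            ∫⁻ k : ℝ, ∫⁻ h : ℝ, G (t + (k ^ 2 + K * h ^ 2)) v := by
        have hm3 : Measurable fun y : Fin 3 → ℝ => ENNReal.ofReal (Real.pi / |y 0|) *
            G (t + (y 1 ^ 2 + K * y 2 ^ 2)) (y 0) := by
          refine Measurable.mul (by fun_prop) ?_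
          exact hGm.comp (f := fun y : Fin 3 → ℝ => (t + (y 1 ^ 2 + K * y 2 ^ 2), y 0))
            (by fun_prop)
        rw [lint_cons (n := 2) _ hm3]
        refine lintegral_congr fun v => ?_
        have e1 : ∀ z : Fin 2 → ℝ, ENNReal.ofReal (Real.pi / |(Fin.cons v z : Fin 3 → ℝ) 0|) *
            G (t + ((Fin.cons v z : Fin 3 → ℝ) 1 ^ 2 + K * (Fin.cons v z : Fin 3 → ℝ) 2 ^ 2))
              ((Fin.cons v z : Fin 3 → ℝ) 0) =
            ENNReal.ofReal (Real.pi / |v|) * G (t + (z 0 ^ 2 + K * z 1 ^ 2)) v := fun z => rfl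
        simp only [e1]
        rw [lintegral_const_mul' _ _ ENNReal.ofReal_ne_top]
        congr 1
        have e2 : ∀ z : Fin 2 → ℝ, G (t + (z 0 ^ 2 + K * z 1 ^ 2)) v =
            (fun p : ℝ × ℝ => G (t + (p.1 ^ 2 + K * p.2 ^ 2)) v) (MeasurableEquiv.finTwoArrow z) :=
          fun z => rfl
        have hm2 : Measurable fun p : ℝ × ℝ => G (t + (p.1 ^ 2 + K * p.2 ^ 2)) v :=
          hGm.comp (f := fun p : ℝ × ℝ => (t + (p.1 ^ 2 + K * p.2 ^ 2), v)) (by fun_prop)
        simp only [e2]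
        rw [(volume_preserving_finTwoArrow ℝ).lintegral_comp hm2, Measure.volume_eq_prod,
          lintegral_prod _ hm2.aemeasurable]
      rw [hL, hR, lint_mul A⁻¹ (inv_ne_zero hA0.ne'),
        ← lintegral_const_mul' _ _ ENNReal.ofReal_ne_top]
      refine lintegral_congr_ae ?_
      have hae : ∀ᵐ v : ℝ, v ≠ 0 := by
        rw [ae_iff]
        simp
      filter_upwards [hae] with v hv
      have hc : (A⁻¹ * v)⁻¹ ≠ 0 := inv_ne_zero (mul_ne_zero (inv_ne_zero hA0.ne') hv)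
      have e1 : ∫⁻ b : ℝ, ENNReal.ofReal Real.pi *
            ∫⁻ h : ℝ, G (t + ((b * (A⁻¹ * v)) ^ 2 + K * h ^ 2)) (A⁻¹ * v * A) =
          ENNReal.ofReal |(A⁻¹ * v)⁻¹| * (ENNReal.ofReal Real.pi *
            ∫⁻ k : ℝ, ∫⁻ h : ℝ, G (t + (k ^ 2 + K * h ^ 2)) v) := by
        have e0 : ENNReal.ofReal Real.pi *
            ∫⁻ k : ℝ, ∫⁻ h : ℝ, G (t + (k ^ 2 + K * h ^ 2)) v =
            ∫⁻ k : ℝ, ENNReal.ofReal Real.pi * ∫⁻ h : ℝ, G (t + (k ^ 2 + K * h ^ 2)) v :=
          (lintegral_const_mul' _ _ ENNReal.ofReal_ne_top).symm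
        rw [e0, lint_mul (A⁻¹ * v)⁻¹ hc]
        congr 1
        refine lintegral_congr fun k => ?_
        congr 1
        refine lintegral_congr fun h => ?_
        have e2 : (A⁻¹ * v)⁻¹ * k * (A⁻¹ * v) = k := by
          have hA00 := hA0.ne'
          field_simp
        have e3 : A⁻¹ * v * A = v := by
          have hA00 := hA0.ne'
          field_simp
        rw [e2, e3]
      rw [e1, ← mul_assoc, ← mul_assoc]
      congr 1
      rw [← ENNReal.ofReal_mul (abs_nonneg _), ← ENNReal.ofReal_mul (by positivity)]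
      congr 1
      rw [← abs_mul]
      have e4 : A⁻¹ * (A⁻¹ * v)⁻¹ = v⁻¹ := by
        have hA00 := hA0.ne'
        field_simp
      rw [e4, abs_inv]
      ring
  · unfold inf4
    have h1 : ∀ y : Fin 4 → ℝ, kef f n d K ρ (t + ((y 1 * y 0) ^ 2 +
        K * (y 0 - (y 2 ^ 2 + y 3 ^ 2)) ^ 2)) (y 0 * A) = 0 := by
      intro y
      by_contra hne
      have hpos : 0 ≤ (y 1 * y 0) ^ 2 + (K : ℝ) * (y 0 - (y 2 ^ 2 + y 3 ^ 2)) ^ 2 := by
        positivity
      obtain ⟨h2, h3⟩ := ker_supp f hf0 hKB (ht.trans (by linarith)) hne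
      have ht0 : 0 ≤ t := (sq_nonneg _).trans ht
      have hy0 : y 0 < 0 := by
        by_contra hy
        have := mul_nonpos_of_nonneg_of_nonpos (not_lt.1 hy) (not_lt.1 hA0)
        linarith
      have hy1 : y 0 ^ 2 ≤ (y 0 - (y 2 ^ 2 + y 3 ^ 2)) ^ 2 := by
        have := sq_nonneg (y 2)
        have := sq_nonneg (y 3)
        nlinarith
      have h4 := sq_nonneg (y 1 * y 0)
      have h5 : 0 ≤ (K : ℝ) * (y 0 - (y 2 ^ 2 + y 3 ^ 2)) ^ 2 := by positivity
      exact hbig (y 0) _ (by linarith) h3 hy1 (by linarith)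
    simp only [h1, lintegral_zero]

end Pool.Agent.H652.PV
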