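import Pool.Agent.H652.PV.Rdefs

/-!
# R2: the sign coordinate
-/

set_option autoImplicit false
set_option synthInstance.maxSize 2000

namespace Pool.Agent.H652.PV

open Pool.Agent.TH960.PE MeasureTheory

namespace RSg

/-- Fubini for the first coordinate -/
lemma lint_cons {n : ℕ} (F : (Fin (n + 1) → ℝ) → ENNReal) (hF : Measurable F) :
    ∫⁻ y : Fin (n + 1) → ℝ, F y = ∫⁻ a : ℝ, ∫⁻ z : Fin n → ℝ, F (Fin.cons a z) := by
  have h := (volume_preserving_piFinSuccAbove (fun _ : Fin (n + 1) => ℝ) 0).symm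
  have h1 := h.lintegral_comp hF
  have hm : Measurable fun p : ℝ × (Fin n → ℝ) =>
      F ((MeasurableEquiv.piFinSuccAbove (fun _ : Fin (n + 1) => ℝ) 0).symm p) :=
    hF.comp h.measurable
  rw [← h1, Measure.volume_eq_prod, lintegral_prod _ hm.aemeasurable]
  refine lintegral_congr fun a => lintegral_congr fun z => congrArg F ?_
  show Fin.insertNth (α := fun _ => ℝ) 0 a z = _
  rw [Fin.insertNth_zero']

/-- scaling -/
lemma lint_mul (c : ℝ) (hc : c ≠ 0) (f : ℝ → ENNReal) :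
    ∫⁻ x, f x = ENNReal.ofReal |c| * ∫⁻ x, f (c * x) := by
  conv_lhs => rw [← Real.smul_map_volume_mul_left hc]
  rw [lintegral_smul_measure, smul_eq_mul]
  exact congrArg _ (lintegral_map_equiv f (MeasurableEquiv.mulLeft₀ c hc))

/-- the area of discs -/
lemma lint_disc (φ : ℝ → ENNReal) (hφ : Measurable φ) :
    ∫⁻ p : ℝ × ℝ, φ (p.1 ^ 2 + p.2 ^ 2) =
      ENNReal.ofReal Real.pi * ∫⁻ h in Set.Ioi (0 : ℝ), φ h := by
  have h1 : ∫⁻ h in Set.Ioi (0 : ℝ), φ h =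
      ∫⁻ r in Set.Ioi (0 : ℝ), ENNReal.ofReal |2 * r| * φ (r ^ 2) := by
    have himg : (fun r : ℝ => r ^ 2) '' Set.Ioi 0 = Set.Ioi 0 := by
      ext x
      constructor
      · rintro ⟨r, hr, rfl⟩
        exact pow_pos (show (0 : ℝ) < r from hr) 2
      · intro hx
        exact ⟨Real.sqrt x, Real.sqrt_pos.2 hx, Real.sq_sqrt (le_of_lt hx)⟩
    conv_lhs => rw [← himg]
    refine lintegral_image_eq_lintegral_abs_deriv_mul measurableSet_Ioi (fun x _ => ?_) ?_ φ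
    · have := (hasDerivAt_pow 2 x).hasDerivWithinAt (s := Set.Ioi 0)
      simpa using this
    · intro a ha b hb hab
      exact (pow_left_inj₀ (le_of_lt ha) (le_of_lt hb) two_ne_zero).1 hab
  have h2 : ∀ p ∈ polarCoord.target, ENNReal.ofReal p.1 •
      φ ((polarCoord.symm p).1 ^ 2 + (polarCoord.symm p).2 ^ 2) =
        (ENNReal.ofReal p.1 * φ (p.1 ^ 2)) * 1 := by
    intro p _
    have : (polarCoord.symm p).1 ^ 2 + (polarCoord.symm p).2 ^ 2 = p.1 ^ 2 := by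
      rw [polarCoord_symm_apply]
      show (p.1 * Real.cos p.2) ^ 2 + (p.1 * Real.sin p.2) ^ 2 = p.1 ^ 2
      nlinarith [Real.sin_sq_add_cos_sq p.2]
    rw [this, mul_one, smul_eq_mul]
  have hm : Measurable fun r : ℝ => ENNReal.ofReal r * φ (r ^ 2) :=
    ENNReal.measurable_ofReal.mul (hφ.comp (measurable_id.pow_const 2))
  rw [← lintegral_comp_polarCoord_symm, setLIntegral_congr_fun polarCoord.open_target.measurableSet h2,
    polarCoord_target, Measure.volume_eq_prod, ← Measure.prod_restrict,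
    lintegral_prod_mul hm.aemeasurable measurable_const.aemeasurable, h1, lintegral_const, one_mul,
    Measure.restrict_apply MeasurableSet.univ, Set.univ_inter, Real.volume_Ioo]
  have h3 : ∀ r ∈ Set.Ioi (0 : ℝ), ENNReal.ofReal |2 * r| * φ (r ^ 2) =
      ENNReal.ofReal 2 * (ENNReal.ofReal r * φ (r ^ 2)) := by
    intro r hr
    have hr' : (0 : ℝ) < r := hr
    rw [abs_of_pos (by positivity), ENNReal.ofReal_mul (by norm_num), mul_assoc]
  rw [setLIntegral_congr_fun measurableSet_Ioi h3, lintegral_const_mul _ hm, ← mul_assoc,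
    ← ENNReal.ofReal_mul Real.pi_pos.le, mul_comm]
  congr 2
  ring

/-- the support of `JL` -/
lemma jl_supp (K : ℕ) (w : ℝ) (hw : 0 < w) (hK : K * w ^ 2 = 1 / 4) (l : List ℝ) :
    ∀ t v : ℝ, JL K l f1 t v ≠ 0 → t < 1 / 4 ∧
      (0 ≤ t → |1 - v| ≤ 1 / 2 + (l.map fun a => |a|).sum * w) := by
  classical
  induction l with
  | nil =>
    intro t v h
    have h1 : t + (1 - v) ^ 2 < 1 / 4 := by
      by_contra h2
      apply h
      show f1 t v = 0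
      unfold f1
      rw [if_neg h2]
    refine ⟨by nlinarith [sq_nonneg (1 - v)], fun ht => ?_⟩
    simp only [List.map_nil, List.sum_nil, zero_mul, add_zero]
    refine abs_le_of_sq_le_sq' ?_ (by norm_num) |> fun h => abs_le.2 h
    nlinarith
  | cons a l ih =>
    intro t v h
    have h1 : ∃ z : ℝ, JL K l f1 (t + K * z ^ 2) (v + a * z) ≠ 0 := by
      by_contra h2
      push Not at h2
      apply h
      show ∫⁻ z : ℝ, JL K l f1 (t + K * z ^ 2) (v + a * z) = 0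
      simp only [h2, lintegral_zero]
    obtain ⟨z, hz⟩ := h1
    obtain ⟨h3, h4⟩ := ih _ _ hz
    have hKz : 0 ≤ (K : ℝ) * z ^ 2 := by positivity
    refine ⟨by linarith, fun ht => ?_⟩
    have h5 := h4 (by linarith)
    have hK0 : 0 < (K : ℝ) := by
      by_contra hneg
      have : (K : ℝ) * w ^ 2 ≤ 0 := mul_nonpos_of_nonpos_of_nonneg (not_lt.1 hneg) (by positivity)
      linarith
    have hzw : z ^ 2 ≤ w ^ 2 := by
      have : (K : ℝ) * z ^ 2 ≤ K * w ^ 2 := by linarith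
      exact le_of_mul_le_mul_left this hK0
    have hzw' : |z| ≤ w := abs_le_of_sq_le_sq hzw hw.le
    simp only [List.map_cons, List.sum_cons]
    have h6 : |1 - v| ≤ |1 - (v + a * z)| + |a * z| := by
      have h8 := abs_add_le (1 - (v + a * z)) (a * z)
      have h9 : 1 - (v + a * z) + a * z = 1 - v := by ring
      rwa [h9] at h8
    have h7 : |a * z| ≤ |a| * w := by
      rw [abs_mul]
      exact mul_le_mul_of_nonneg_left hzw' (abs_nonneg a)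
    linarith

/-- the sum of the coefficients -/
lemma cof_sum (n : ℕ) (Y : ℕ → ℝ) (hY : ∀ j, |Y j| ≤ 2) (d : ℕ) :
    ((cof n d).map fun a => |a Y|).sum ≤ ((2 * n + 3) ^ d : ℕ) := by
  induction d with
  | zero => simp [cof]
  | succ d ih =>
    have h1 : ((cof n (d + 1)).map fun a => |a Y|).sum =
        ((List.range (n + 1)).map fun j => |Y j| * ((cof n d).map fun a => |a Y|).sum).sum + 1 := by
      simp only [cof, List.map_append, List.sum_append, List.map_cons, List.map_nil, List.sum_cons,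
        List.sum_nil, abs_one, add_zero]
      congr 1
      generalize List.range (n + 1) = L
      induction L with
      | nil => simp
      | cons j L ihL =>
        rw [List.flatMap_cons, List.map_append, List.sum_append, ihL, List.map_cons, List.sum_cons]
        congr 1
        rw [List.map_map, ← List.sum_map_mul_left]
        congr 1
        refine List.map_congr_left fun a _ => ?_
        simp [abs_mul]
    have hS0 : 0 ≤ ((cof n d).map fun a => |a Y|).sum := by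
      refine List.sum_nonneg fun x hx => ?_
      obtain ⟨a, _, rfl⟩ := List.mem_map.1 hx
      exact abs_nonneg _
    have h2 : ((List.range (n + 1)).map fun j => |Y j| * ((cof n d).map fun a => |a Y|).sum).sum ≤
        (n + 1) * (2 * ((2 * n + 3) ^ d : ℕ)) := by
      have h3 : ∀ x ∈ ((List.range (n + 1)).map fun j =>
          |Y j| * ((cof n d).map fun a => |a Y|).sum), x ≤ 2 * (((2 * n + 3) ^ d : ℕ) : ℝ) := by
        intro x hx
        obtain ⟨j, _, rfl⟩ := List.mem_map.1 hx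
        exact mul_le_mul (hY j) ih hS0 (by norm_num)
      have h4 := List.sum_le_card_nsmul _ _ h3
      rw [List.length_map, List.length_range, nsmul_eq_mul] at h4
      push_cast at h4 ⊢
      exact h4
    rw [h1]
    have h5 : (1 : ℝ) ≤ (((2 * n + 3) ^ d : ℕ) : ℝ) := by
      exact_mod_cast Nat.one_le_pow _ _ (by omega)
    rw [pow_succ]
    push_cast at h2 h5 ⊢
    nlinarith

/-- measurability of the kernel -/
lemma measurable_ker (hJ : S_jl) (n d K : ℕ) (ρ : ℝ) :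
    Measurable fun p : ℝ × ℝ => ker n d K ρ p.1 p.2 := by
  classical
  have h := hJ.1 K Unit ((cof n d).map fun a _ => a (pt n ρ)) (fun _ => f1) (by
    intro a ha
    obtain ⟨b, _, rfl⟩ := List.mem_map.1 ha
    exact measurable_const) (by
    unfold f1
    exact Measurable.ite (measurableSet_lt (by fun_prop) measurable_const) measurable_const
      measurable_const)
  have h2 : Measurable fun p : ℝ × ℝ => (((), p.1, p.2) : Unit × ℝ × ℝ) := by fun_prop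
  have h3 := h.comp h2
  simp only [List.map_map] at h3
  exact h3

lemma kk_cast (n d B : ℕ) : ((kk n d B : ℕ) : ℝ) =
    (4 * ((((2 * n + 3) ^ d : ℕ) : ℝ) + B * 2 ^ d)) ^ 2 := by
  unfold kk
  push_cast
  ring

lemma kk_ge {n K : ℕ} (hK : kk n 2 1 ≤ K) :
    (4 * ((((2 * n + 3) ^ 2 : ℕ) : ℝ) + 4)) ^ 2 ≤ (K : ℝ) := by
  have h1 : ((kk n 2 1 : ℕ) : ℝ) ≤ K := by exact_mod_cast hK
  rw [kk_cast] at h1
  have e : (4 * ((((2 * n + 3) ^ 2 : ℕ) : ℝ) + ((1 : ℕ) : ℝ) * 2 ^ 2)) ^ 2 =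
      (4 * ((((2 * n + 3) ^ 2 : ℕ) : ℝ) + 4)) ^ 2 := by
    push_cast
    ring
  rw [← e]
  exact h1

lemma S_ge (n : ℕ) : (9 : ℝ) ≤ (((2 * n + 3) ^ 2 : ℕ) : ℝ) := by
  have h : 9 ≤ (2 * n + 3) ^ 2 := by nlinarith [Nat.zero_le n]
  exact_mod_cast h

lemma K_ge {n K : ℕ} (hK : kk n 2 1 ≤ K) : (2704 : ℝ) ≤ (K : ℝ) := by
  have h1 := kk_ge hK
  have h2 := S_ge n
  nlinarith

lemma big {n K : ℕ} (hK : kk n 2 1 ≤ K) {x : ℝ} (hx : 9 / 4096 ≤ x) : ¬ (K : ℝ) * x < 1 / 4 := by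
  have h1 := K_ge hK
  intro h
  nlinarith

/-- the support of the kernel -/
lemma ker_supp {n K : ℕ} (hK : kk n 2 1 ≤ K) {ρ t v : ℝ} (ht : (1 - ρ ^ 2) ^ 2 ≤ t)
    (h : ker n 2 K ρ t v ≠ 0) : t < 1 / 4 ∧ 3 / 8 ≤ v := by
  have hK1 := kk_ge hK
  have hS := S_ge n
  have hK0 : (0 : ℝ) < K := by linarith [K_ge hK]
  have hcs := fun Y hY => cof_sum n Y hY 2
  set S : ℝ := (((2 * n + 3) ^ 2 : ℕ) : ℝ) with hSd
  set r : ℝ := Real.sqrt K with hrd
  have hr0 : 0 < r := Real.sqrt_pos.2 hK0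
  have hr2 : r ^ 2 = K := Real.sq_sqrt hK0.le
  have hr : 4 * (S + 4) ≤ r := Real.le_sqrt_of_sq_le hK1
  have hw : 0 < 1 / (2 * r) := by positivity
  have hKw : (K : ℝ) * (1 / (2 * r)) ^ 2 = 1 / 4 := by
    rw [← hr2]
    field_simp
    norm_num
  obtain ⟨h1, h2⟩ := jl_supp K (1 / (2 * r)) hw hKw _ t v h
  refine ⟨h1, ?_⟩
  have ht0 : 0 ≤ t := (sq_nonneg _).trans ht
  have h3 := h2 ht0
  have hρ : |ρ| ≤ 2 := by
    have : ρ ^ 2 ≤ 2 ^ 2 := by nlinarith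
    exact abs_le_of_sq_le_sq this (by norm_num)
  have hY : ∀ j, |pt n ρ j| ≤ 2 := by
    intro j
    unfold pt
    split_ifs
    · exact hρ
    · simp
  have h4 := hcs (pt n ρ) hY
  rw [List.map_map] at h3
  have h5 : ((cof n 2).map ((fun a => |a|) ∘ fun a => a (pt n ρ))).sum * (1 / (2 * r)) ≤
      1 / 8 := by
    have h6 : ((cof n 2).map ((fun a => |a|) ∘ fun a => a (pt n ρ))).sum ≤ S := h4
    have h7 := mul_le_mul_of_nonneg_right h6 hw.le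
    refine h7.trans ?_
    rw [mul_one_div, div_le_iff₀ (by positivity)]
    linarith
  have h8 := (abs_le.1 (h3.trans (add_le_add le_rfl h5))).2
  linarith

/-- the substitution -/
lemma scale {A : ℝ} (hA0 : 0 < A) (H : ℝ → ℝ → ENNReal) :
    ∫⁻ a : ℝ, ∫⁻ b : ℝ, ENNReal.ofReal Real.pi * H (b * a) (a * A) =
      ∫⁻ v : ℝ, ENNReal.ofReal (Real.pi / |v|) * ∫⁻ k : ℝ, H k v := by
  rw [lint_mul A⁻¹ (inv_ne_zero hA0.ne'), ← lintegral_const_mul' _ _ ENNReal.ofReal_ne_top]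
  refine lintegral_congr_ae ?_
  have hae : ∀ᵐ v : ℝ, v ≠ 0 := by
    rw [ae_iff]
    simp
  filter_upwards [hae] with v hv
  have hc : (A⁻¹ * v)⁻¹ ≠ 0 := inv_ne_zero (mul_ne_zero (inv_ne_zero hA0.ne') hv)
  have e1 : ∫⁻ b : ℝ, ENNReal.ofReal Real.pi * H (b * (A⁻¹ * v)) (A⁻¹ * v * A) =
      ENNReal.ofReal |(A⁻¹ * v)⁻¹| * (ENNReal.ofReal Real.pi * ∫⁻ k : ℝ, H k v) := by
    have e0 : ENNReal.ofReal Real.pi * ∫⁻ k : ℝ, H k v =
        ∫⁻ k : ℝ, ENNReal.ofReal Real.pi * H k v :=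
      (lintegral_const_mul' _ _ ENNReal.ofReal_ne_top).symm
    rw [e0, lint_mul (A⁻¹ * v)⁻¹ hc]
    congr 1
    refine lintegral_congr fun k => ?_
    congr 1
    have e2 : (A⁻¹ * v)⁻¹ * k * (A⁻¹ * v) = k := by
      have hA00 := hA0.ne'
      field_simp
    have e3 : A⁻¹ * v * A = v := by
      have hA00 := hA0.ne'
      field_simp
    rw [e2, e3]
  rw [e1, ← mul_assoc, ← mul_assoc]
  congr 1
  rw [← ENNReal.ofReal_mul (abs_nonneg _), ← ENNReal.ofReal_mul (by positivity)]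
  congr 1
  rw [← abs_mul]
  have e4 : A⁻¹ * (A⁻¹ * v)⁻¹ = v⁻¹ := by
    have hA00 := hA0.ne'
    field_simp
  rw [e4, abs_inv]
  ring

/-- integral over two variables -/
lemma lint_two (g : ℝ → ℝ → ENNReal) (hg : Measurable (Function.uncurry g)) :
    ∫⁻ z : Fin 2 → ℝ, g (z 0) (z 1) = ∫⁻ a : ℝ, ∫⁻ b : ℝ, g a b := by
  have e : ∀ z : Fin 2 → ℝ, g (z 0) (z 1) =
      (fun p : ℝ × ℝ => g p.1 p.2) (MeasurableEquiv.finTwoArrow z) := fun z => rfl
  simp only [e]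
  have hm2 : Measurable fun p : ℝ × ℝ => g p.1 p.2 := hg
  rw [(volume_preserving_finTwoArrow ℝ).lintegral_comp hm2, Measure.volume_eq_prod,
    lintegral_prod _ hm2.aemeasurable]

/-- the inner function -/
noncomputable def HH (h : ℝ → ENNReal) (G : ℝ → ℝ → ENNReal) (K : ℕ) (t k v : ℝ) : ENNReal :=
  ∫⁻ y : ℝ, h y * ∫⁻ s : ℝ, G (t + (k ^ 2 + ((1 - y ^ 2) ^ 2 + K * s ^ 2))) v

/-- the left side -/
lemma left_side (h : ℝ → ENNReal) (hh : Measurable h) (h0 : ∀ y, y ≤ 0 → h y = 0)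
    (G : ℝ → ℝ → ENNReal) (hGm : Measurable fun p : ℝ × ℝ => G p.1 p.2) {n K : ℕ}
    (hK : kk n 2 1 ≤ K) {t A : ℝ} (ht0 : 0 ≤ t) (hA0 : 0 < A) (hA : A ≤ 4)
    (hsupp : ∀ x v : ℝ, 0 ≤ x → G (t + x) v ≠ 0 → t + x < 1 / 4 ∧ 3 / 8 ≤ v) :
    ∫⁻ y : Fin 5 → ℝ, h (y 2) * G (t + ((y 1 * y 0) ^ 2 + ((1 - y 2 ^ 2) ^ 2 +
      K * (y 2 * y 0 - (y 3 ^ 2 + y 4 ^ 2)) ^ 2))) (y 0 * A) =
    ∫⁻ a : ℝ, ∫⁻ b : ℝ, ENNReal.ofReal Real.pi * HH h G K t (b * a) (a * A) := by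
  have hm5 : Measurable fun y : Fin 5 → ℝ => h (y 2) * G (t + ((y 1 * y 0) ^ 2 +
      ((1 - y 2 ^ 2) ^ 2 + K * (y 2 * y 0 - (y 3 ^ 2 + y 4 ^ 2)) ^ 2))) (y 0 * A) := by
    refine Measurable.mul (hh.comp (measurable_pi_apply 2)) ?_
    exact hGm.comp (f := fun y : Fin 5 → ℝ => (t + ((y 1 * y 0) ^ 2 + ((1 - y 2 ^ 2) ^ 2 +
      K * (y 2 * y 0 - (y 3 ^ 2 + y 4 ^ 2)) ^ 2)), y 0 * A)) (by fun_prop)
  rw [lint_cons (n := 4) _ hm5]
  refine lintegral_congr fun a => ?_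
  have e1 : ∀ z : Fin 4 → ℝ, h ((Fin.cons a z : Fin 5 → ℝ) 2) *
      G (t + (((Fin.cons a z : Fin 5 → ℝ) 1 * (Fin.cons a z : Fin 5 → ℝ) 0) ^ 2 +
        ((1 - (Fin.cons a z : Fin 5 → ℝ) 2 ^ 2) ^ 2 + K * ((Fin.cons a z : Fin 5 → ℝ) 2 *
          (Fin.cons a z : Fin 5 → ℝ) 0 - ((Fin.cons a z : Fin 5 → ℝ) 3 ^ 2 +
            (Fin.cons a z : Fin 5 → ℝ) 4 ^ 2)) ^ 2))) ((Fin.cons a z : Fin 5 → ℝ) 0 * A) =
      h (z 1) * G (t + ((z 0 * a) ^ 2 + ((1 - z 1 ^ 2) ^ 2 +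
        K * (z 1 * a - (z 2 ^ 2 + z 3 ^ 2)) ^ 2))) (a * A) := fun z => rfl
  simp only [e1]
  have hm4 : Measurable fun z : Fin 4 → ℝ => h (z 1) * G (t + ((z 0 * a) ^ 2 +
      ((1 - z 1 ^ 2) ^ 2 + K * (z 1 * a - (z 2 ^ 2 + z 3 ^ 2)) ^ 2))) (a * A) := by
    refine Measurable.mul (hh.comp (measurable_pi_apply 1)) ?_
    exact hGm.comp (f := fun z : Fin 4 → ℝ => (t + ((z 0 * a) ^ 2 + ((1 - z 1 ^ 2) ^ 2 +
      K * (z 1 * a - (z 2 ^ 2 + z 3 ^ 2)) ^ 2)), a * A)) (by fun_prop)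
  rw [lint_cons (n := 3) _ hm4]
  refine lintegral_congr fun b => ?_
  have e2 : ∀ z : Fin 3 → ℝ, h ((Fin.cons b z : Fin 4 → ℝ) 1) *
      G (t + (((Fin.cons b z : Fin 4 → ℝ) 0 * a) ^ 2 + ((1 - (Fin.cons b z : Fin 4 → ℝ) 1 ^ 2) ^ 2 +
        K * ((Fin.cons b z : Fin 4 → ℝ) 1 * a - ((Fin.cons b z : Fin 4 → ℝ) 2 ^ 2 +
          (Fin.cons b z : Fin 4 → ℝ) 3 ^ 2)) ^ 2))) (a * A) =
      h (z 0) * G (t + ((b * a) ^ 2 + ((1 - z 0 ^ 2) ^ 2 +
        K * (z 0 * a - (z 1 ^ 2 + z 2 ^ 2)) ^ 2))) (a * A) := fun z => rfl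
  simp only [e2]
  have hm3 : Measurable fun z : Fin 3 → ℝ => h (z 0) * G (t + ((b * a) ^ 2 +
      ((1 - z 0 ^ 2) ^ 2 + K * (z 0 * a - (z 1 ^ 2 + z 2 ^ 2)) ^ 2))) (a * A) := by
    refine Measurable.mul (hh.comp (measurable_pi_apply 0)) ?_
    exact hGm.comp (f := fun z : Fin 3 → ℝ => (t + ((b * a) ^ 2 + ((1 - z 0 ^ 2) ^ 2 +
      K * (z 0 * a - (z 1 ^ 2 + z 2 ^ 2)) ^ 2)), a * A)) (by fun_prop)
  rw [lint_cons (n := 2) _ hm3]
  unfold HH
  rw [← lintegral_const_mul' _ _ ENNReal.ofReal_ne_top]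
  refine lintegral_congr fun y => ?_
  have e3 : ∀ z : Fin 2 → ℝ, h ((Fin.cons y z : Fin 3 → ℝ) 0) *
      G (t + ((b * a) ^ 2 + ((1 - (Fin.cons y z : Fin 3 → ℝ) 0 ^ 2) ^ 2 +
        K * ((Fin.cons y z : Fin 3 → ℝ) 0 * a - ((Fin.cons y z : Fin 3 → ℝ) 1 ^ 2 +
          (Fin.cons y z : Fin 3 → ℝ) 2 ^ 2)) ^ 2))) (a * A) =
      h y * G (t + ((b * a) ^ 2 + ((1 - y ^ 2) ^ 2 +
        K * (y * a - (z 0 ^ 2 + z 1 ^ 2)) ^ 2))) (a * A) := fun z => rfl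
  simp only [e3]
  rcases le_or_gt y 0 with hy | hy
  · rw [h0 y hy]
    simp
  obtain ⟨φ, hφ⟩ : ∃ φ : ℝ → ENNReal, φ = fun s =>
    G (t + ((b * a) ^ 2 + ((1 - y ^ 2) ^ 2 + K * (y * a - s) ^ 2))) (a * A) := ⟨_, rfl⟩
  have hφm : Measurable φ := by
    rw [hφ]
    exact hGm.comp (f := fun s : ℝ => (t + ((b * a) ^ 2 + ((1 - y ^ 2) ^ 2 +
      K * (y * a - s) ^ 2)), a * A)) (by fun_prop)
  have e4 : ∀ z : Fin 2 → ℝ, G (t + ((b * a) ^ 2 + ((1 - y ^ 2) ^ 2 +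
      K * (y * a - (z 0 ^ 2 + z 1 ^ 2)) ^ 2))) (a * A) =
      (fun p : ℝ × ℝ => φ (p.1 ^ 2 + p.2 ^ 2)) (MeasurableEquiv.finTwoArrow z) := by
    intro z
    rw [hφ]
    rfl
  simp only [e4]
  have hm2 : Measurable fun p : ℝ × ℝ => φ (p.1 ^ 2 + p.2 ^ 2) := hφm.comp (by fun_prop)
  have hm2' : Measurable fun z : Fin 2 → ℝ =>
      (fun p : ℝ × ℝ => φ (p.1 ^ 2 + p.2 ^ 2)) (MeasurableEquiv.finTwoArrow z) :=
    hm2.comp MeasurableEquiv.finTwoArrow.measurable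
  rw [lintegral_const_mul _ hm2', (volume_preserving_finTwoArrow ℝ).lintegral_comp hm2,
    lint_disc φ hφm]
  have e5 : ∫⁻ s in Set.Ioi (0 : ℝ), φ s = ∫⁻ s : ℝ, φ s := by
    rw [← lintegral_indicator measurableSet_Ioi]
    refine lintegral_congr fun s => ?_
    by_cases hs : 0 < s
    · exact Set.indicator_of_mem (show s ∈ Set.Ioi (0 : ℝ) from hs) _
    · rw [Set.indicator_of_notMem (show s ∉ Set.Ioi (0 : ℝ) from hs)]
      by_contra hne
      have hne' : G (t + ((b * a) ^ 2 + ((1 - y ^ 2) ^ 2 + K * (y * a - s) ^ 2))) (a * A) ≠ 0 := by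
        rw [hφ] at hne
        exact fun h0 => hne h0.symm
      obtain ⟨h2, h3⟩ := hsupp _ _ (by positivity) hne'
      have hs' : s ≤ 0 := not_lt.1 hs
      have p1 : 0 ≤ (b * a) ^ 2 := sq_nonneg _
      have p2 : 0 ≤ (1 - y ^ 2) ^ 2 := sq_nonneg _
      have p3 : 0 ≤ (K : ℝ) * (y * a - s) ^ 2 := by positivity
      have ha : 3 / 32 ≤ a := by
        by_contra ha
        have ha' := not_le.1 ha
        nlinarith
      have hy2 : 1 / 2 ≤ y := by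
        by_contra hy2
        have hy2' := not_le.1 hy2
        have q1 : y ^ 2 ≤ 1 / 4 := by nlinarith
        have q2 : (1 - y ^ 2) ^ 2 < 1 / 4 := by linarith
        nlinarith
      have hya : 3 / 64 ≤ y * a := by nlinarith
      have hys : 9 / 4096 ≤ (y * a - s) ^ 2 := by nlinarith
      exact big hK hys (by linarith)
  rw [e5]
  have e6 := lintegral_sub_left_eq_self
    (fun s : ℝ => G (t + ((b * a) ^ 2 + ((1 - y ^ 2) ^ 2 + K * s ^ 2))) (a * A)) (y * a)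
    (μ := volume)
  rw [← e6, hφ]
  ring

/-- the right side -/
lemma right_side (h : ℝ → ENNReal) (hh : Measurable h) (G : ℝ → ℝ → ENNReal)
    (hGm : Measurable fun p : ℝ × ℝ => G p.1 p.2) (K : ℕ) (t : ℝ) :
    ∫⁻ y : Fin 4 → ℝ, h (y 2) * (ENNReal.ofReal (Real.pi / |y 0|) *
      G (t + (y 1 ^ 2 + ((1 - y 2 ^ 2) ^ 2 + K * y 3 ^ 2))) (y 0)) =
    ∫⁻ v : ℝ, ENNReal.ofReal (Real.pi / |v|) * ∫⁻ k : ℝ, HH h G K t k v := by
  have hm4 : Measurable fun y : Fin 4 → ℝ => h (y 2) * (ENNReal.ofReal (Real.pi / |y 0|) *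
      G (t + (y 1 ^ 2 + ((1 - y 2 ^ 2) ^ 2 + K * y 3 ^ 2))) (y 0)) := by
    refine Measurable.mul (hh.comp (measurable_pi_apply 2)) (Measurable.mul (by fun_prop) ?_)
    exact hGm.comp (f := fun y : Fin 4 → ℝ => (t + (y 1 ^ 2 + ((1 - y 2 ^ 2) ^ 2 +
      K * y 3 ^ 2)), y 0)) (by fun_prop)
  rw [lint_cons (n := 3) _ hm4]
  refine lintegral_congr fun v => ?_
  rw [← lintegral_const_mul' _ _ ENNReal.ofReal_ne_top]
  have e1 : ∀ z : Fin 3 → ℝ, h ((Fin.cons v z : Fin 4 → ℝ) 2) *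
      (ENNReal.ofReal (Real.pi / |(Fin.cons v z : Fin 4 → ℝ) 0|) *
        G (t + ((Fin.cons v z : Fin 4 → ℝ) 1 ^ 2 + ((1 - (Fin.cons v z : Fin 4 → ℝ) 2 ^ 2) ^ 2 +
          K * (Fin.cons v z : Fin 4 → ℝ) 3 ^ 2))) ((Fin.cons v z : Fin 4 → ℝ) 0)) =
      h (z 1) * (ENNReal.ofReal (Real.pi / |v|) *
        G (t + (z 0 ^ 2 + ((1 - z 1 ^ 2) ^ 2 + K * z 2 ^ 2))) v) := fun z => rfl
  simp only [e1]
  have hm3 : Measurable fun z : Fin 3 → ℝ => h (z 1) * (ENNReal.ofReal (Real.pi / |v|) *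
      G (t + (z 0 ^ 2 + ((1 - z 1 ^ 2) ^ 2 + K * z 2 ^ 2))) v) := by
    refine Measurable.mul (hh.comp (measurable_pi_apply 1)) (Measurable.mul (by fun_prop) ?_)
    exact hGm.comp (f := fun z : Fin 3 → ℝ => (t + (z 0 ^ 2 + ((1 - z 1 ^ 2) ^ 2 +
      K * z 2 ^ 2)), v)) (by fun_prop)
  rw [lint_cons (n := 2) _ hm3]
  refine lintegral_congr fun k => ?_
  have e2 : ∀ z : Fin 2 → ℝ, h ((Fin.cons k z : Fin 3 → ℝ) 1) *
      (ENNReal.ofReal (Real.pi / |v|) *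
        G (t + ((Fin.cons k z : Fin 3 → ℝ) 0 ^ 2 + ((1 - (Fin.cons k z : Fin 3 → ℝ) 1 ^ 2) ^ 2 +
          K * (Fin.cons k z : Fin 3 → ℝ) 2 ^ 2))) v) =
      (fun y s : ℝ => h y * (ENNReal.ofReal (Real.pi / |v|) *
        G (t + (k ^ 2 + ((1 - y ^ 2) ^ 2 + K * s ^ 2))) v)) (z 0) (z 1) := fun z => rfl
  simp only [e2]
  have hGk : Measurable fun p : ℝ × ℝ =>
      G (t + (k ^ 2 + ((1 - p.1 ^ 2) ^ 2 + K * p.2 ^ 2))) v :=
    hGm.comp (f := fun p : ℝ × ℝ => (t + (k ^ 2 + ((1 - p.1 ^ 2) ^ 2 + K * p.2 ^ 2)), v))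
      (by fun_prop)
  have hm2 : Measurable (Function.uncurry fun y s : ℝ => h y * (ENNReal.ofReal (Real.pi / |v|) *
      G (t + (k ^ 2 + ((1 - y ^ 2) ^ 2 + K * s ^ 2))) v)) :=
    Measurable.mul (hh.comp measurable_fst) (Measurable.mul measurable_const hGk)
  rw [lint_two (fun y s : ℝ => h y * (ENNReal.ofReal (Real.pi / |v|) *
      G (t + (k ^ 2 + ((1 - y ^ 2) ^ 2 + K * s ^ 2))) v)) hm2]
  unfold HH
  rw [← lintegral_const_mul' _ _ ENNReal.ofReal_ne_top]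
  refine lintegral_congr fun y => ?_
  have hGy : Measurable fun s : ℝ => G (t + (k ^ 2 + ((1 - y ^ 2) ^ 2 + K * s ^ 2))) v :=
    hGm.comp (f := fun s : ℝ => (t + (k ^ 2 + ((1 - y ^ 2) ^ 2 + K * s ^ 2)), v)) (by fun_prop)
  show ∫⁻ s : ℝ, h y * (ENNReal.ofReal (Real.pi / |v|) *
      G (t + (k ^ 2 + ((1 - y ^ 2) ^ 2 + K * s ^ 2))) v) = _
  rw [lintegral_const_mul _ (hGy.const_mul _), lintegral_const_mul _ hGy]
  ring

end RSg

open RSg

theorem t_sg (hJ : S_jl) : S_sg := by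
  intro h hh h0 n K t ρ A hK ht hA
  have ht0 : 0 ≤ t := (sq_nonneg _).trans ht
  have hGm := measurable_ker hJ n 2 K ρ
  refine ⟨⟨fun hA0 => ?_, fun hA0 => ?_⟩, ?_⟩
  · rcases le_or_gt (1 / 4) t with ht4 | ht4
    · have hz : ∀ x v : ℝ, 0 ≤ x → ker n 2 K ρ (t + x) v = 0 := by
        intro x v hx
        by_contra hne
        have := (ker_supp hK (ht.trans (by linarith)) hne).1
        linarith
      unfold sg5 sg4
      have h1 : ∀ y : Fin 5 → ℝ, h (y 2) * ker n 2 K ρ (t + ((y 1 * y 0) ^ 2 +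
          ((1 - y 2 ^ 2) ^ 2 + K * (y 2 * y 0 - (y 3 ^ 2 + y 4 ^ 2)) ^ 2))) (y 0 * A) = 0 :=
        fun y => by rw [hz _ _ (by positivity), mul_zero]
      have h2 : ∀ y : Fin 4 → ℝ, h (y 2) * (ENNReal.ofReal (Real.pi / |y 0|) *
          ker n 2 K ρ (t + (y 1 ^ 2 + ((1 - y 2 ^ 2) ^ 2 + K * y 3 ^ 2))) (y 0)) = 0 :=
        fun y => by rw [hz _ _ (by positivity), mul_zero, mul_zero]
      simp only [h1, h2, lintegral_zero]
    · have hsupp : ∀ x v : ℝ, 0 ≤ x → ker n 2 K ρ (t + x) v ≠ 0 → t + x < 1 / 4 ∧ 3 / 8 ≤ v :=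
        fun x v hx hne => ker_supp hK (ht.trans (by linarith)) hne
      unfold sg5 sg4
      rw [left_side h hh h0 (ker n 2 K ρ) hGm hK ht0 hA0 ((le_abs_self A).trans (hA ht4)) hsupp,
        right_side h hh (ker n 2 K ρ) hGm K t, scale hA0]
  · unfold sg5
    have h1 : ∀ y : Fin 5 → ℝ, h (y 2) * ker n 2 K ρ (t + ((y 1 * y 0) ^ 2 +
        ((1 - y 2 ^ 2) ^ 2 + K * (y 2 * y 0 - (y 3 ^ 2 + y 4 ^ 2)) ^ 2))) (y 0 * A) = 0 := by
      intro y
      by_contra hne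
      have hne1 : h (y 2) ≠ 0 := fun e => hne (by rw [e, zero_mul])
      have hne2 : ker n 2 K ρ (t + ((y 1 * y 0) ^ 2 + ((1 - y 2 ^ 2) ^ 2 +
          K * (y 2 * y 0 - (y 3 ^ 2 + y 4 ^ 2)) ^ 2))) (y 0 * A) ≠ 0 :=
        fun e => hne (by rw [e, mul_zero])
      have hy2 : 0 < y 2 := by
        by_contra hy
        exact hne1 (h0 _ (not_lt.1 hy))
      have p1 : 0 ≤ (y 1 * y 0) ^ 2 := sq_nonneg _
      have p2 : 0 ≤ (1 - y 2 ^ 2) ^ 2 := sq_nonneg _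
      have p3 : 0 ≤ (K : ℝ) * (y 2 * y 0 - (y 3 ^ 2 + y 4 ^ 2)) ^ 2 := by positivity
      obtain ⟨h2, h3⟩ := ker_supp hK (ht.trans (by linarith)) hne2
      have hA4 : |A| ≤ 4 := hA (by linarith)
      have hA4' : -4 ≤ A := (abs_le.1 hA4).1
      have hA0' : A ≤ 0 := not_lt.1 hA0
      have hy0 : y 0 ≤ -(3 / 32) := by
        by_contra hy
        have hy' := not_le.1 hy
        rcases le_or_gt 0 (y 0) with hp | hp
        · have := mul_nonpos_of_nonneg_of_nonpos hp hA0'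
          linarith
        · have q1 : -(y 0) * -A ≤ -(y 0) * 4 :=
            mul_le_mul_of_nonneg_left (by linarith) (by linarith)
          have q2 : -(y 0) * -A = y 0 * A := by ring
          linarith
      have hy2' : 1 / 2 ≤ y 2 := by
        by_contra hy
        have hy' := not_le.1 hy
        have q1 : y 2 ^ 2 ≤ 1 / 4 := by nlinarith
        have q2 : (1 - y 2 ^ 2) ^ 2 < 1 / 4 := by linarith
        nlinarith
      have hya : y 2 * y 0 ≤ -(3 / 64) := by nlinarith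
      have q3 := sq_nonneg (y 3)
      have q4 := sq_nonneg (y 4)
      have hys : 9 / 4096 ≤ (y 2 * y 0 - (y 3 ^ 2 + y 4 ^ 2)) ^ 2 := by nlinarith
      exact big hK hys (by linarith)
    simp only [h1, lintegral_zero]
  · unfold sg5
    have hm5 : Measurable fun y : Fin 5 → ℝ => h (y 2) * ker n 2 K ρ (t + ((y 1 * y 0) ^ 2 +
        ((1 - y 2 ^ 2) ^ 2 + K * (y 2 * y 0 - (y 3 ^ 2 + y 4 ^ 2)) ^ 2))) (y 0 * -A) := by
      refine Measurable.mul (hh.comp (measurable_pi_apply 2)) ?_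
      exact hGm.comp (f := fun y : Fin 5 → ℝ => (t + ((y 1 * y 0) ^ 2 + ((1 - y 2 ^ 2) ^ 2 +
        K * (y 2 * y 0 - (y 3 ^ 2 + y 4 ^ 2)) ^ 2)), y 0 * -A)) (by fun_prop)
    have hc : ∀ i, (![-1, 1, -1, 1, 1] : Fin 5 → ℝ) i ≠ 0 := by
      intro i
      fin_cases i
      · show (-1 : ℝ) ≠ 0
        norm_num
      · show (1 : ℝ) ≠ 0
        norm_num
      · show (-1 : ℝ) ≠ 0
        norm_num
      · show (1 : ℝ) ≠ 0
        norm_num
      · show (1 : ℝ) ≠ 0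
        norm_num
    have hd := lint_diag (![-1, 1, -1, 1, 1] : Fin 5 → ℝ) (fun _ => 0) hc _ hm5
    have hp : |∏ i : Fin 5, (![-1, 1, -1, 1, 1] : Fin 5 → ℝ) i| = 1 := by
      have : ∏ i : Fin 5, (![-1, 1, -1, 1, 1] : Fin 5 → ℝ) i = 1 := by
        simp only [Fin.prod_univ_five]
        show (-1 : ℝ) * 1 * -1 * 1 * 1 = 1
        norm_num
      rw [this]
      simp
    rw [hp, ENNReal.ofReal_one, one_mul] at hd
    rw [hd]
    refine lintegral_congr fun y => ?_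
    show h (-(y 2)) * ker n 2 K ρ (t + ((y 1 * y 0) ^ 2 +
        ((1 - y 2 ^ 2) ^ 2 + K * (y 2 * y 0 - (y 3 ^ 2 + y 4 ^ 2)) ^ 2))) (y 0 * A) =
      h (-1 * y 2 + 0) * ker n 2 K ρ (t + (((1 * y 1 + 0) * (-1 * y 0 + 0)) ^ 2 +
        ((1 - (-1 * y 2 + 0) ^ 2) ^ 2 + K * ((-1 * y 2 + 0) * (-1 * y 0 + 0) -
          ((1 * y 3 + 0) ^ 2 + (1 * y 4 + 0) ^ 2)) ^ 2))) ((-1 * y 0 + 0) * -A)
    congr 2
    · ring
    · ring
    · ring

end Pool.Agent.H652.PV
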