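import Pool.Agent.H652.PV.Rdefs
import Pool.Agent.H652.PV.QCst

/-!
# R3: the function `sg4` (helper218)
-/

set_option autoImplicit false
set_option synthInstance.maxSize 2000

namespace Pool.Agent.H652.PV

open Pool.Agent.TH960.PE MeasureTheory

namespace RSg4

open SBnd QCst

/-- the half width of the support of the errors -/
noncomputable def wK (K : ℕ) : ℝ := 1 / (2 * Real.sqrt K)

theorem kk_pos (n d B : ℕ) : 0 < kk n d B := by
  unfold kk
  have h : 0 < (2 * n + 3) ^ d := by positivity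
  positivity

theorem wK_pos {K : ℕ} (hK : 0 < K) : 0 < wK K := by
  unfold wK
  have : (0 : ℝ) < K := by exact_mod_cast hK
  positivity

theorem wK_K {K : ℕ} (hK : 0 < K) : (K : ℝ) * wK K ^ 2 = 1 / 4 := by
  have h0 : (0 : ℝ) < K := by exact_mod_cast hK
  unfold wK
  rw [div_pow, mul_pow, Real.sq_sqrt h0.le]
  field_simp
  norm_num

theorem wK_le {n d B K : ℕ} (h : kk n d B ≤ K) : wK K ≤ ww n d B := by
  have hk := kk_pos n d B
  have hK : 0 < K := lt_of_lt_of_le hk h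
  have h1 := wK_K hK
  have h2 := ww_K n d B
  have h3 : (kk n d B : ℝ) ≤ K := by exact_mod_cast h
  have h4 : (0 : ℝ) < kk n d B := by exact_mod_cast hk
  have h5 : (0 : ℝ) < K := by exact_mod_cast hK
  have h6 : wK K ^ 2 ≤ ww n d B ^ 2 := by
    by_contra hc
    push Not at hc
    have h7 : (K : ℝ) * ww n d B ^ 2 < K * wK K ^ 2 := mul_lt_mul_of_pos_left hc h5
    have h8 : (kk n d B : ℝ) * ww n d B ^ 2 ≤ K * ww n d B ^ 2 :=
      mul_le_mul_of_nonneg_right h3 (sq_nonneg _)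
    linarith
  exact (pow_le_pow_iff_left₀ (wK_pos hK).le (ww_pos n d B).le two_ne_zero).1 h6

theorem kerK_supp {n d B K : ℕ} (hK : kk n d B ≤ K) (ρ t v : ℝ) (hρ : |ρ| ≤ 2) (ht : 0 ≤ t)
    (h : ker n d K ρ t v ≠ 0) : |1 - v| ≤ 5 / 8 := by
  have hK0 : 0 < K := lt_of_lt_of_le (kk_pos n d B) hK
  have h1 := (JL_supp (wK_pos hK0) (wK_K hK0) _ t v ht h).2
  rw [List.map_map] at h1
  have h2 := cof_sum n (pt n ρ) (pt_le n ρ hρ) d
  have h3 : ((cof n d).map ((fun a : ℝ => |a|) ∘ fun a => a (pt n ρ))).sum * wK K ≤ 1 / 8 := by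
    have h4 : ((cof n d).map ((fun a : ℝ => |a|) ∘ fun a => a (pt n ρ))).sum ≤
        (2 * (n : ℝ) + 3) ^ d := h2
    have h5 : (2 * (n : ℝ) + 3) ^ d ≤ (2 * (n : ℝ) + 3) ^ d + B * 2 ^ d := by
      have h4 : (0 : ℝ) ≤ B * 2 ^ d := by positivity
      linarith
    have hq := qq_pos n d B
    have h6 : ((cof n d).map ((fun a : ℝ => |a|) ∘ fun a => a (pt n ρ))).sum * wK K ≤
        ((2 * (n : ℝ) + 3) ^ d + B * 2 ^ d) * ww n d B :=
      (mul_le_mul_of_nonneg_right (h4.trans h5) (wK_pos hK0).le).trans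
        (mul_le_mul_of_nonneg_left (wK_le hK) (by linarith))
    have h7 : ((2 * (n : ℝ) + 3) ^ d + B * 2 ^ d) * ww n d B = 1 / 8 := by
      have h0 : (2 * (n : ℝ) + 3) ^ d + B * 2 ^ d ≠ 0 := by positivity
      unfold ww
      field_simp
    linarith
  linarith

theorem kerK_small {n d K : ℕ} (hK : 0 < K) (ρ t v : ℝ) (ht : 0 ≤ t)
    (h : ker n d K ρ t v ≠ 0) : t < 1 / 4 :=
  (JL_supp (wK_pos hK) (wK_K hK) _ t v ht h).1

/-- the bound of the kernel -/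
noncomputable def kbK (n d K : ℕ) : ENNReal :=
  (volume (Set.Icc (-(wK K)) (wK K))) ^ (cof n d).length

theorem kbK_fin (n d K : ℕ) : kbK n d K ≠ ⊤ :=
  ENNReal.pow_ne_top (isCompact_Icc.measure_lt_top.ne)

theorem kerK_le {n d K : ℕ} (hK : 0 < K) (ρ t v : ℝ) (ht : 0 ≤ t) :
    ker n d K ρ t v ≤ kbK n d K := by
  have h1 := JL_le (wK_pos hK) (wK_K hK) ((cof n d).map fun a => a (pt n ρ)) t v ht
  rw [List.length_map] at h1
  exact h1

theorem sg4_meas (hJ : S_jl) {h : ℝ → ENNReal} (hh : Measurable h) (n K : ℕ) :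
    Measurable fun q : ℝ × ℝ => sg4 h n K q.1 q.2 := by
  have h1 : Measurable fun q : (ℝ × ℝ) × (Fin 4 → ℝ) =>
      ((q.1.2, q.1.1 + (q.2 1 ^ 2 + ((1 - q.2 2 ^ 2) ^ 2 + K * q.2 3 ^ 2)), q.2 0) :
        ℝ × ℝ × ℝ) := by
    fun_prop
  have h2 : Measurable fun q : (ℝ × ℝ) × (Fin 4 → ℝ) => ENNReal.ofReal (Real.pi / |q.2 0|) := by
    fun_prop
  have h3 : Measurable fun q : (ℝ × ℝ) × (Fin 4 → ℝ) => h (q.2 2) :=
    hh.comp (by fun_prop)
  exact (h3.mul (h2.mul ((ker_meas hJ n 2 K).comp h1))).lintegral_prod_right'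

theorem sg4_pos (hJ : S_jl) {h : ℝ → ENNReal} (hh : Measurable h) (hp : ∀ y, 0 < y → h y ≠ 0)
    (n K : ℕ) (t ρ : ℝ) (ht : t < 1 / 4) : sg4 h n K t ρ ≠ 0 := by
  have h1 : Measurable fun y : Fin 4 → ℝ => h (y 2) * (ENNReal.ofReal (Real.pi / |y 0|) *
      ker n 2 K ρ (t + (y 1 ^ 2 + ((1 - y 2 ^ 2) ^ 2 + K * y 3 ^ 2))) (y 0)) := by
    have h2 : Measurable fun y : Fin 4 → ℝ =>
        ((ρ, t + (y 1 ^ 2 + ((1 - y 2 ^ 2) ^ 2 + K * y 3 ^ 2)), y 0) : ℝ × ℝ × ℝ) := by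
      fun_prop
    have h3 : Measurable fun y : Fin 4 → ℝ => ENNReal.ofReal (Real.pi / |y 0|) := by
      fun_prop
    have h4 : Measurable fun y : Fin 4 → ℝ => h (y 2) := hh.comp (by fun_prop)
    exact h4.mul (h3.mul ((ker_meas hJ n 2 K).comp h2))
  refine lint_pos h1 (fun y => max (t + (y 1 ^ 2 + ((1 - y 2 ^ 2) ^ 2 + K * y 3 ^ 2)) + (1 - y 0) ^ 2)
    (max (1 / 4 - y 2) (1 / 4 - y 0))) (by fun_prop) (fun y hy => ?_)
    (fun i => if i = 0 then 1 else if i = 2 then 1 else 0) ?_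
  · have hy' := max_lt_iff.1 hy
    have hy2 := max_lt_iff.1 hy'.2
    have h3 : 0 < y 0 := by linarith [hy2.2]
    have h4 : 0 < y 2 := by linarith [hy2.1]
    refine mul_ne_zero (hp _ h4) (mul_ne_zero ?_ (JL_pos hJ K _ _ _ hy'.1))
    rw [abs_of_pos h3]
    have := Real.pi_pos
    exact (ENNReal.ofReal_pos.2 (by positivity)).ne'
  · simp
    norm_num
    exact ht

end RSg4

open RSg4 QCst SBnd in
theorem t_sg4 (hJ : S_jl) : S_sg4 := by
  intro h hh h0 hp h2 n K hK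
  have hK0 : 0 < K := lt_of_lt_of_le (kk_pos n 2 1) hK
  refine ⟨sg4_meas hJ hh n K, ?_, fun t ρ ht => sg4_pos hJ hh hp n K t ρ ht, ?_⟩
  · intro t ρ ht
    by_contra hne
    obtain ⟨y, hy⟩ := lint_ne hne
    have h3 := right_ne_zero_of_mul (right_ne_zero_of_mul hy)
    have h4 : 0 ≤ y 1 ^ 2 + ((1 - y 2 ^ 2) ^ 2 + (K : ℝ) * y 3 ^ 2) := by positivity
    have h5 := kerK_small hK0 ρ _ _ (by linarith) h3
    linarith
  · refine ⟨2 * (ENNReal.ofReal (8 * Real.pi / 3) * kbK n 2 K) *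
      volume (Set.Icc (fun _ : Fin 4 => -(2 : ℝ)) (fun _ => 2)),
      ENNReal.mul_ne_top (ENNReal.mul_ne_top (by simp) (ENNReal.mul_ne_top ENNReal.ofReal_ne_top
        (kbK_fin n 2 K))) (box_fin 2), fun t ρ ht hρ => ?_⟩
    have hρ2 : |ρ| ≤ 2 := by
      have h3 := abs_le.mp (abs_half hρ)
      have h4 : |ρ| ^ 2 = ρ ^ 2 := sq_abs _
      have h5 := abs_nonneg ρ
      nlinarith [h3.1, h3.2]
    have hbox : ∀ y : Fin 4 → ℝ,
        ker n 2 K ρ (t + (y 1 ^ 2 + ((1 - y 2 ^ 2) ^ 2 + K * y 3 ^ 2))) (y 0) ≠ 0 →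
        3 / 8 ≤ |y 0| ∧ ∀ i, |y i| ≤ 2 := by
      intro y hy
      have h3 : 0 ≤ y 1 ^ 2 := sq_nonneg _
      have h4 : 0 ≤ (1 - y 2 ^ 2) ^ 2 := sq_nonneg _
      have h5 : 0 ≤ (K : ℝ) * y 3 ^ 2 := by positivity
      have h6 := abs_le.mp (kerK_supp hK ρ _ _ hρ2 (by linarith) hy)
      have h7 := kerK_small hK0 ρ _ _ (by linarith) hy
      have h8 : |y 1| ≤ 1 / 2 := abs_half (by linarith)
      have h9 : |y 3| ≤ wK K := abs_w (wK_pos hK0) (wK_K hK0) (by linarith)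
      have h10 : wK K ≤ 1 := (wK_le hK).trans (ww_le n 2 1)
      have h11 : |y 2| ≤ 2 := by
        have k3 := abs_le.mp (abs_half (x := 1 - y 2 ^ 2) (by linarith))
        have k4 : |y 2| ^ 2 = y 2 ^ 2 := sq_abs _
        have k5 := abs_nonneg (y 2)
        nlinarith [k3.1, k3.2]
      refine ⟨?_, fun i => ?_⟩
      · have : 3 / 8 ≤ y 0 := by linarith [h6.2]
        exact this.trans (le_abs_self _)
      · fin_cases i
        · show |y 0| ≤ 2
          rw [abs_le]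
          constructor <;> linarith [h6.1, h6.2]
        · show |y 1| ≤ 2
          linarith
        · exact h11
        · show |y 3| ≤ 2
          linarith
    refine lint_box 2 _ (fun y => ?_) (fun y hy =>
      (hbox y (right_ne_zero_of_mul (right_ne_zero_of_mul hy))).2)
    by_cases hk : ker n 2 K ρ (t + (y 1 ^ 2 + ((1 - y 2 ^ 2) ^ 2 + (K : ℝ) * y 3 ^ 2))) (y 0) = 0
    · rw [hk, mul_zero, mul_zero]
      exact zero_le
    · obtain ⟨h3, h4⟩ := hbox y hk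
      have h5 : 0 ≤ t + (y 1 ^ 2 + ((1 - y 2 ^ 2) ^ 2 + (K : ℝ) * y 3 ^ 2)) := by positivity
      refine mul_le_mul' (h2 _ ((le_abs_self _).trans (h4 2))) (mul_le_mul'
        (ENNReal.ofReal_le_ofReal ?_) (kerK_le hK0 ρ _ _ h5))
      rw [div_le_div_iff₀ (by linarith) (by norm_num)]
      have := Real.pi_pos
      nlinarith

end Pool.Agent.H652.PV
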