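import Pool.Agent.H652.PV.All4
import Pool.Agent.H652.PV.Quas
import Pool.Agent.H652.PV.RSg
import Pool.Agent.H652.PV.RSg4
import Pool.Agent.H652.PV.RCstf
import Pool.Agent.H652.PV.RCode
import Pool.Agent.H652.PV.RInnf

/-!
# Equality of periods and one region given by a quartic inequality
-/

set_option autoImplicit false
set_option synthInstance.maxSize 2000

namespace Pool.Agent.H652.PV

open Pool.Agent.TH960.PE MeasureTheory

/-- There is an algorithm which decides, for an integer polynomial `F` of degree at most four in `n`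
variables such that `F > 0` has finite volume, and for `k < n`, whether the hyperplane `x_k = 0` bisects
the region `F > 0`. -/
def Bisected4 : Prop :=
  ∃ f : (ℕ × ℕ × Poly) →. Bool, Partrec f ∧ ∀ (n k : ℕ) (F : Poly), k < n → Fine4 n F →
    ∃ b ∈ f (n, k, F), (b = true ↔
      volume {x | x ∈ reg n F ∧ 0 < ext x k} = volume {x | x ∈ reg n F ∧ ext x k < 0})

/-- There is an algorithm which decides, for an integer polynomial `F` of degree at most four in `n`
variables such that `F > 0` has finite volume, and for `k < n` such that `x_k` is integrable on this region,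
whether the integral of `x_k` over `F > 0` is zero. -/
def MomentZero4 : Prop :=
  ∃ f : (ℕ × ℕ × Poly) →. Bool, Partrec f ∧ ∀ (n k : ℕ) (F : Poly), k < n → Fine4 n F →
    IntegrableOn (fun x : Fin n → ℝ => ext x k) (reg n F) →
    ∃ b ∈ f (n, k, F), (b = true ↔ ∫ x in reg n F, ext x k = 0)

/-! ### Converse -/

theorem bisected4_of_decidable (h : AlgDecidable (fun a b => a = b)) : Bisected4 := by
  obtain ⟨f, hf, hd⟩ := h
  refine ⟨fun p => f ((volCode p.1 [p.2.2, varP p.2.1], zeroCode),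
    (volCode p.1 [p.2.2, negP (varP p.2.1)], zeroCode)),
    hf.comp (Primrec.to_comp ?_), fun n k F hk hF => ?_⟩
  · have n : Primrec fun p : ℕ × ℕ × Poly => p.1 := Primrec.fst
    have k : Primrec fun p : ℕ × ℕ × Poly => p.2.1 := Primrec.fst.comp Primrec.snd
    have F : ∀ g : ℕ × ℕ × Poly → Poly, Primrec g →
        Primrec fun p : ℕ × ℕ × Poly => [p.2.2, g p] := fun g hg =>
      Primrec.list_cons.comp (Primrec.snd.comp Primrec.snd)
        (Primrec.list_cons.comp hg (Primrec.const []))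
    exact Primrec.pair (Primrec.pair (volCode_p n (F _ (PrimT.varP_p k))) (Primrec.const _))
      (Primrec.pair (volCode_p n (F _ (PrimT.negP_p (PrimT.varP_p k)))) (Primrec.const _))
  · have hv : IsPoly n (varP k) := isPoly_varP hk
    have s1 : {x : Fin n → ℝ | ∀ g ∈ [F, varP k], 0 < pev (ext x) g} =
        {x | x ∈ reg n F ∧ 0 < ext x k} := by
      ext x
      simp [reg, pev_varP]
    have s2 : {x : Fin n → ℝ | ∀ g ∈ [F, negP (varP k)], 0 < pev (ext x) g} =
        {x | x ∈ reg n F ∧ ext x k < 0} := by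
      ext x
      simp [reg, pev_varP, pev_negP]
    have f1 : volume {x : Fin n → ℝ | x ∈ reg n F ∧ 0 < ext x k} ≠ ⊤ :=
      ((measure_mono fun x hx => hx.1).trans_lt hF.1.2.2.lt_top).ne
    have f2 : volume {x : Fin n → ℝ | x ∈ reg n F ∧ ext x k < 0} ≠ ⊤ :=
      ((measure_mono fun x hx => hx.1).trans_lt hF.1.2.2.lt_top).ne
    have c1 := vol_code n [F, varP k] (by simpa using ⟨hF.1.1, hv⟩) (by rw [s1]; exact f1)
    have c2 := vol_code n [F, negP (varP k)] (by simpa using ⟨hF.1.1, isPoly_negP hv⟩)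
      (by rw [s2]; exact f2)
    obtain ⟨p1, p2, p3⟩ := pair_val _ _ c1.1 c2.1
    obtain ⟨c, hc, h1⟩ := hd _ _ p1 p2
    refine ⟨c, hc, h1.trans (p3.trans ?_)⟩
    rw [c1.2, c2.2, s1, s2]
    exact ENNReal.toReal_eq_toReal_iff' f1 f2

/-- the first moment as an explicit integral -/
def momCode' (n k : ℕ) (F : Poly) : Code := (n, varP k, natP 1, [(true, F)])

theorem moment4_of_decidable (h : AlgDecidable (fun a b => a = b)) : MomentZero4 := by
  classical
  obtain ⟨f, hf, hd⟩ := h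
  refine ⟨fun p => f ((momCode' p.1 p.2.1 p.2.2, zeroCode), (zeroCode, zeroCode)),
    hf.comp (Primrec.to_comp ?_), fun n k F hk hF hI => ?_⟩
  · have n : Primrec fun p : ℕ × ℕ × Poly => p.1 := Primrec.fst
    have k : Primrec fun p : ℕ × ℕ × Poly => varP p.2.1 :=
      PrimT.varP_p (Primrec.fst.comp Primrec.snd)
    have F : Primrec fun p : ℕ × ℕ × Poly => [((true, p.2.2) : Bool × Poly)] :=
      Primrec.list_cons.comp (Primrec.pair (Primrec.const true) (Primrec.snd.comp Primrec.snd))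
        (Primrec.const [])
    exact Primrec.pair (Primrec.pair (Primrec.pair n (Primrec.pair k
      (Primrec.pair (Primrec.const _) F))) (Primrec.const _)) (Primrec.const _)
  · have hm := measurableSet_reg n F
    have h1 : (fun x : Fin n → ℝ => integrand (ext x) (momCode' n k F)) =
        (reg n F).indicator (fun x => ext x k) := by
      funext x
      have h3 : InDom (ext x) [(true, F)] ↔ 0 < pev (ext x) F := by
        have := inDom_vol [F] (ext x)
        simpa using this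
      unfold integrand momCode'
      simp only [h3, pev_natP, pev_varP]
      by_cases h : 0 < pev (ext x) F
      · rw [if_pos h, Set.indicator_of_mem (by exact h)]
        norm_num
      · rw [if_neg h, Set.indicator_of_notMem (by exact h)]
    have hA : Adm (momCode' n k F) := by
      refine ⟨isPoly_varP hk, isPoly_natP _ _, ?_, ⟨0, ?_⟩, ?_⟩
      · intro g hg
        rw [List.mem_singleton.1 hg]
        exact hF.1.1
      · change pev _ (natP 1) ≠ 0
        rw [pev_natP]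
        norm_num
      · change Integrable (fun x : Fin n → ℝ => integrand (ext x) (momCode' n k F))
        rw [h1, integrable_indicator_iff hm]
        exact hI
    have hV : val (momCode' n k F) = ∫ x in reg n F, ext x k := by
      change ∫ x : Fin n → ℝ, integrand (ext x) (momCode' n k F) = _
      rw [h1, integral_indicator hm]
    obtain ⟨p1, p2, p3⟩ := pair_val _ _ hA zero_code.1
    obtain ⟨c, hc, h2⟩ := hd _ _ p1 p2
    refine ⟨c, hc, h2.trans (p3.trans ?_)⟩
    rw [hV, zero_code.2]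

/-! ### The quartic with a sign coordinate -/

/-- the number of the variables, the index of the sign coordinate and the polynomial -/
def qs (c : ℕ × Poly) : ℕ × ℕ × Poly :=
  ((quas c.1 (2 * (dg c.2 + 1)) (kk c.1 (2 * (dg c.2 + 1)) (asum c.2 + 1)) c.2).1,
    2 * c.1 + 6 + nod c.1 (2 * (dg c.2 + 1)) + 2,
    (quas c.1 (2 * (dg c.2 + 1)) (kk c.1 (2 * (dg c.2 + 1)) (asum c.2 + 1)) c.2).2)

lemma qs_p : Primrec qs := by
  have n : Primrec fun c : ℕ × Poly => c.1 := Primrec.fst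
  have d : Primrec fun c : ℕ × Poly => 2 * (dg c.2 + 1) :=
    Primrec.nat_mul.comp (Primrec.const 2) (Primrec.nat_add.comp
      (QPrim.dg_p.comp Primrec.snd) (Primrec.const 1))
  have B : Primrec fun c : ℕ × Poly => asum c.2 + 1 :=
    Primrec.nat_add.comp (QPrim.asum_p.comp Primrec.snd) (Primrec.const 1)
  have Q := RCode.quas_p n d (QPrim.kk_p n d B) Primrec.snd
  exact (Primrec.fst.comp Q).pair ((Primrec.nat_add.comp (Primrec.nat_add.comp
    (Primrec.nat_add.comp (Primrec.nat_mul.comp (Primrec.const 2) n) (Primrec.const 6))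
      (QPrim.nod_p n d)) (Primrec.const 2)).pair (Primrec.snd.comp Q))

lemma kk_le (n d B : ℕ) (hd : 2 ≤ d) (hB : 1 ≤ B) : kk n 2 1 ≤ kk n d B := by
  unfold kk
  have h1 : (2 * n + 3) ^ 2 ≤ (2 * n + 3) ^ d := Nat.pow_le_pow_right (by omega) hd
  have h2 : 1 * 2 ^ 2 ≤ B * 2 ^ d := Nat.mul_le_mul hB (Nat.pow_le_pow_right (by omega) hd)
  gcongr

open Classical in
/-- the indicator function of `0 < y` -/
noncomputable def pos (y : ℝ) : ENNReal := if 0 < y then 1 else 0

lemma measurable_pos : Measurable pos := by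
  unfold pos
  exact Measurable.ite (measurableSet_lt measurable_const measurable_id) measurable_const
    measurable_const

lemma lint_pos (n k : ℕ) (F : Poly) (s : ℝ) :
    ∫⁻ x : Fin n → ℝ, chi F (ext x) * pos (s * ext x k) =
      volume {x : Fin n → ℝ | x ∈ reg n F ∧ 0 < s * ext x k} := by
  classical
  have hm : MeasurableSet {x : Fin n → ℝ | x ∈ reg n F ∧ 0 < s * ext x k} :=
    (measurableSet_reg n F).inter (measurableSet_lt measurable_const
      (((measurable_pi_apply k).comp (measurable_ext n)).const_mul s))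
  rw [← lintegral_indicator_one hm]
  refine lintegral_congr fun x => ?_
  unfold chi pos
  by_cases h1 : 0 < pev (ext x) F
  · by_cases h2 : 0 < s * ext x k
    · rw [if_pos h1, if_pos h2, Set.indicator_of_mem (by exact ⟨h1, h2⟩), one_mul]
      rfl
    · rw [if_neg h2, mul_zero, Set.indicator_of_notMem (by exact fun h => h2 h.2)]
  · rw [if_neg h1, zero_mul, Set.indicator_of_notMem (by exact fun h => h1 h.1)]

/-- the constants -/
lemma cst_sg4 (h : ℝ → ENNReal) (hm : Measurable h) (h0 : ∀ y, y ≤ 0 → h y = 0)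
    (hp : ∀ y, 0 < y → h y ≠ 0) (hb : ∀ y, y ≤ 2 → h y ≤ 2) (n d B K : ℕ) (hK : kk n d B ≤ K)
    (hK2 : kk n 2 1 ≤ K) :
    cstf (fun ρ t => sg4 h n K t ρ) n d K ≠ 0 ∧ cstf (fun ρ t => sg4 h n K t ρ) n d K ≠ ⊤ := by
  obtain ⟨a, b, c, M, hM, e⟩ := t_sg4 t_jl h hm h0 hp hb n K hK2
  exact t_cstf t_jl (fun ρ t => sg4 h n K t ρ) (a.comp measurable_swap) (fun ρ t ht => b t ρ ht)
    (fun ρ t ht => c t ρ ht) ⟨M, hM, fun ρ t ht hr => e t ρ ht hr⟩ n d B K hK

/-- the parts of the quartic region -/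
theorem qs_spec (n : ℕ) (F : Poly) (hF : Fine (n + 1) F) :
    (qs (n + 1, F)).2.1 < (qs (n + 1, F)).1 ∧ Fine4 (qs (n + 1, F)).1 (qs (n + 1, F)).2.2 ∧
    (∃ C : ENNReal, C ≠ 0 ∧ C ≠ ⊤ ∧
      volume {x | x ∈ reg (qs (n + 1, F)).1 (qs (n + 1, F)).2.2 ∧
        0 < ext x (qs (n + 1, F)).2.1} = C * volume {x | x ∈ reg (n + 1) F ∧ 0 < x 0} ∧
      volume {x | x ∈ reg (qs (n + 1, F)).1 (qs (n + 1, F)).2.2 ∧
        ext x (qs (n + 1, F)).2.1 < 0} = C * volume {x | x ∈ reg (n + 1) F ∧ x 0 < 0}) ∧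
    ∃ C : ENNReal, C ≠ 0 ∧ C ≠ ⊤ ∧
      (∫⁻ x : Fin (qs (n + 1, F)).1 → ℝ, chi (qs (n + 1, F)).2.2 (ext x) *
        ENNReal.ofReal (ext x (qs (n + 1, F)).2.1) =
          C * volume {x | x ∈ reg (n + 1) F ∧ 0 < x 0}) ∧
      ∫⁻ x : Fin (qs (n + 1, F)).1 → ℝ, chi (qs (n + 1, F)).2.2 (ext x) *
        ENNReal.ofReal (-ext x (qs (n + 1, F)).2.1) =
          C * volume {x | x ∈ reg (n + 1) F ∧ x 0 < 0} := by
  classical
  set d := 2 * (dg F + 1) with hd
  set K := kk (n + 1) d (asum F + 1) with hK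
  set Q := quas (n + 1) d K F with hQ
  set k := 2 * (n + 1) + 6 + nod (n + 1) d + 2 with hk
  have hq : qs (n + 1, F) = (Q.1, k, Q.2) := rfl
  rw [hq]
  simp only
  have he : Even d := even_two_mul _
  have hdF : dg F ≤ d := by omega
  have hs : asum F ≤ asum F + 1 := by omega
  have hK2 : kk (n + 1) 2 1 ≤ K := kk_le _ _ _ (by omega) (by omega)
  have hkN : k < Q.1 := by
    change k < 2 * (n + 1) + 6 + nod (n + 1) d + 5 + nod (n + 1) 2
    omega
  -- the integrals
  have main : ∀ (s : ℝ), s = 1 ∨ s = -1 → ∀ h : ℝ → ENNReal, Measurable h →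
      (∀ y, y ≤ 0 → h y = 0) → (∀ y, 0 < y → h y ≠ 0) → (∀ y, y ≤ 2 → h y ≤ 2) →
      ∫⁻ X : Fin Q.1 → ℝ, chi Q.2 (ext X) * h (s * ext X k) =
        cstf (fun ρ t => sg4 h (n + 1) K t ρ) (n + 1) d K *
          volume {x : Fin (n + 1) → ℝ | x ∈ reg (n + 1) F ∧ 0 < s * x 0} := by
    intro s hs1 h hm h0 hp hb
    have e := lint_quas t_jl t_rot (t_tree t_jl) (t_innf t_jl) (t_sg t_jl) (t_sg4 t_jl) t_base
      t_qval t_rcode (n + 1) d (asum F + 1) K F (by omega) hF.1 hdF he hs le_rfl hK2 s hs1 h hm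
      h0 hp hb
    rw [e]
    congr 1
    exact lint_pos (n + 1) 0 F s
  have a0 : ∀ y : ℝ, y ≤ 0 → pos y = 0 := fun y hy => if_neg (not_lt.2 hy)
  have a1 : ∀ y : ℝ, 0 < y → pos y ≠ 0 := fun y hy => by
    unfold pos
    rw [if_pos hy]
    exact one_ne_zero
  have a2 : ∀ y : ℝ, y ≤ 2 → pos y ≤ 2 := fun y _ => by
    unfold pos
    split_ifs
    · exact one_le_two
    · exact zero_le
  have b0 : ∀ y : ℝ, y ≤ 0 → ENNReal.ofReal y = 0 := fun y hy => ENNReal.ofReal_of_nonpos hy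
  have b1 : ∀ y : ℝ, 0 < y → ENNReal.ofReal y ≠ 0 := fun y hy =>
    (ENNReal.ofReal_pos.2 hy).ne'
  have b2 : ∀ y : ℝ, y ≤ 2 → ENNReal.ofReal y ≤ 2 := fun y hy => by
    rw [← ENNReal.ofReal_ofNat 2]
    exact ENNReal.ofReal_le_ofReal hy
  have m1 := main 1 (Or.inl rfl) pos measurable_pos a0 a1 a2
  have m2 := main (-1) (Or.inr rfl) pos measurable_pos a0 a1 a2
  have m3 := main 1 (Or.inl rfl) ENNReal.ofReal ENNReal.measurable_ofReal b0 b1 b2
  have m4 := main (-1) (Or.inr rfl) ENNReal.ofReal ENNReal.measurable_ofReal b0 b1 b2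
  obtain ⟨c1, c2⟩ := cst_sg4 pos measurable_pos a0 a1 a2 (n + 1) d (asum F + 1) K le_rfl hK2
  obtain ⟨c3, c4⟩ := cst_sg4 ENNReal.ofReal ENNReal.measurable_ofReal b0 b1 b2 (n + 1) d
    (asum F + 1) K le_rfl hK2
  rw [lint_pos] at m1 m2
  simp only [one_mul, neg_mul, Left.neg_pos_iff] at m1 m2 m3 m4
  set P := volume {x : Fin (n + 1) → ℝ | x ∈ reg (n + 1) F ∧ 0 < x 0} with hP
  set M := volume {x : Fin (n + 1) → ℝ | x ∈ reg (n + 1) F ∧ x 0 < 0} with hM
  have fP : P ≠ ⊤ := ((measure_mono fun x hx => hx.1).trans_lt hF.2.2.lt_top).ne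
  have fM : M ≠ ⊤ := ((measure_mono fun x hx => hx.1).trans_lt hF.2.2.lt_top).ne
  refine ⟨hkN, ⟨⟨?_, t_rcode.2.1 _ _ _ _ hF.2.1, ?_⟩, t_rcode.1 _ _ _ _⟩,
    ⟨_, c1, c2, m1, m2⟩, ⟨_, c3, c4, m3, m4⟩⟩
  · -- the number of the variables
    obtain ⟨p1, p2, -⟩ := t_tree t_jl K (n + 1) (varP (2 * (n + 1) + 2)) d (hom (n + 1) d F)
      (2 * (n + 1) + 6) (isPoly_varP (by omega)) (by omega) (t_qval.2.2.1 (n + 1) d F hF.1 hdF)
    obtain ⟨q1, q2, -⟩ := t_tree t_jl K (n + 1) (varP (2 * (n + 1) + 6 + nod (n + 1) d)) 2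
      (wrd (n + 1)) (2 * (n + 1) + 6 + nod (n + 1) d + 5) (isPoly_varP (by omega)) (by omega)
      (t_rcode.2.2.2.1 (n + 1))
    refine SChain.isPoly_oneP (isPoly_mulS (isPoly_natP _ _) (SChain.isPoly_append ?_ ?_))
    · refine isPoly_mono (m := 2 * (n + 1) + 6 + nod (n + 1) d) ?_
        (SChain.isPoly_append (isPoly_mono (Nat.le_add_right _ _) (Quar.isPoly_quarB _ _))
          (SChain.isPoly_append p1 (isPoly_sqP (SChain.isPoly_oneP p2))))
      change _ ≤ 2 * (n + 1) + 6 + nod (n + 1) d + 5 + nod (n + 1) 2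
      omega
    · exact SChain.isPoly_append (isPoly_mono (Nat.le_add_right _ _) (Quas.isPoly_sgB _ _))
        (SChain.isPoly_append q1 (isPoly_sqP (SChain.isPoly_oneP q2)))
  · -- the volume
    have hae : ∀ᵐ x : Fin Q.1 → ℝ, ext x k ≠ 0 := SChain.ae_ne k hkN
    have hsub : volume (reg Q.1 Q.2) ≤ volume {x : Fin Q.1 → ℝ | x ∈ reg Q.1 Q.2 ∧
        0 < ext x k} + volume {x : Fin Q.1 → ℝ | x ∈ reg Q.1 Q.2 ∧ ext x k < 0} := by
      have h1 : volume (reg Q.1 Q.2) ≤ volume ({x : Fin Q.1 → ℝ | x ∈ reg Q.1 Q.2 ∧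
          0 < ext x k} ∪ {x : Fin Q.1 → ℝ | x ∈ reg Q.1 Q.2 ∧ ext x k < 0}) := by
        refine measure_mono_ae ?_
        filter_upwards [hae] with x hx hxr
        rcases lt_or_gt_of_ne hx with h | h
        · exact Or.inr ⟨hxr, h⟩
        · exact Or.inl ⟨hxr, h⟩
      exact h1.trans (measure_union_le _ _)
    refine (hsub.trans_lt ?_).ne
    rw [m1, m2]
    exact ENNReal.add_lt_top.2 ⟨ENNReal.mul_lt_top c2.lt_top fP.lt_top,
      ENNReal.mul_lt_top c2.lt_top fM.lt_top⟩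

/-- the first moment of the quartic region -/
lemma qs_moment (N k : ℕ) (Q : Poly) (C P M : ENNReal) (hC : C ≠ ⊤) (fP : P ≠ ⊤) (fM : M ≠ ⊤)
    (h1 : ∫⁻ x : Fin N → ℝ, chi Q (ext x) * ENNReal.ofReal (ext x k) = C * P)
    (h2 : ∫⁻ x : Fin N → ℝ, chi Q (ext x) * ENNReal.ofReal (-ext x k) = C * M) :
    IntegrableOn (fun x : Fin N → ℝ => ext x k) (reg N Q) ∧
      ∫ x in reg N Q, ext x k = C.toReal * (P.toReal - M.toReal) := by
  have hm : Measurable fun x : Fin N → ℝ => ext x k :=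
    (measurable_pi_apply k).comp (measurable_ext N)
  rw [← lint_reg N Q fun x => ENNReal.ofReal (ext x k)] at h1
  rw [← lint_reg N Q fun x => ENNReal.ofReal (-ext x k)] at h2
  have hi : IntegrableOn (fun x : Fin N → ℝ => ext x k) (reg N Q) := by
    refine ⟨hm.aestronglyMeasurable, ?_⟩
    rw [hasFiniteIntegral_iff_norm]
    have h3 : ∀ x : Fin N → ℝ, ENNReal.ofReal ‖ext x k‖ =
        ENNReal.ofReal (ext x k) + ENNReal.ofReal (-ext x k) := by
      intro x
      rcases le_total 0 (ext x k) with h | h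
      · rw [Real.norm_of_nonneg h, ENNReal.ofReal_of_nonpos (neg_nonpos.2 h), add_zero]
      · rw [Real.norm_of_nonpos h, ENNReal.ofReal_of_nonpos h, zero_add]
    simp only [h3]
    rw [lintegral_add_left hm.ennreal_ofReal, h1, h2]
    exact ENNReal.add_lt_top.2 ⟨ENNReal.mul_lt_top hC.lt_top fP.lt_top,
      ENNReal.mul_lt_top hC.lt_top fM.lt_top⟩
  refine ⟨hi, ?_⟩
  rw [integral_eq_lintegral_pos_part_sub_lintegral_neg_part hi, h1, h2, ENNReal.toReal_mul,
    ENNReal.toReal_mul]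
  ring

/-- the region for two regions -/
def two4 (p : ℕ × Poly × Poly) : ℕ × ℕ × Poly := qs (comb p.1 [p.2.1] p.1 [p.2.2])

lemma two4_p : Primrec two4 := by
  have n : Primrec fun p : ℕ × Poly × Poly => p.1 := Primrec.fst
  have F : Primrec fun p : ℕ × Poly × Poly => [p.2.1] :=
    Primrec.list_cons.comp (Primrec.fst.comp Primrec.snd) (Primrec.const [])
  have G : Primrec fun p : ℕ × Poly × Poly => [p.2.2] :=
    Primrec.list_cons.comp (Primrec.snd.comp Primrec.snd) (Primrec.const [])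
  exact qs_p.comp (Cmp.comb_p n F n G)

/-- the quartic region for two regions -/
theorem two4_spec (n : ℕ) (F G : Poly) (hF : Fine n F) (hG : Fine n G) :
    (two4 (n, F, G)).2.1 < (two4 (n, F, G)).1 ∧ Fine4 (two4 (n, F, G)).1 (two4 (n, F, G)).2.2 ∧
    (∃ C : ENNReal, C ≠ 0 ∧ C ≠ ⊤ ∧
      volume {x | x ∈ reg (two4 (n, F, G)).1 (two4 (n, F, G)).2.2 ∧
        0 < ext x (two4 (n, F, G)).2.1} = C * volume (reg n F) ∧
      volume {x | x ∈ reg (two4 (n, F, G)).1 (two4 (n, F, G)).2.2 ∧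
        ext x (two4 (n, F, G)).2.1 < 0} = C * volume (reg n G)) ∧
    IntegrableOn (fun x : Fin (two4 (n, F, G)).1 → ℝ => ext x (two4 (n, F, G)).2.1)
      (reg (two4 (n, F, G)).1 (two4 (n, F, G)).2.2) ∧
    ∃ C : ℝ, 0 < C ∧ ∫ x in reg (two4 (n, F, G)).1 (two4 (n, F, G)).2.2,
      ext x (two4 (n, F, G)).2.1 = C * ((volume (reg n F)).toReal - (volume (reg n G)).toReal) := by
  obtain ⟨a, b, v, w⟩ := comb_one n F G hF hG
  have hN := pre_fst n [F] n [G]
  have hfine := fine_comb n [F] a n [G] b v w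
  obtain ⟨e1, e2⟩ := halves_comb n [F] a n [G] b _ hN
  rw [vol_reg] at e1 e2
  have hc : two4 (n, F, G) = qs ((pre (comb n [F] n [G])).1 + 1, (comb n [F] n [G]).2) := by
    rw [hN]
    rfl
  rw [← hN] at hfine
  obtain ⟨h1, h2, ⟨C, c0, c1, h3, h4⟩, ⟨D, d0, d1, h5, h6⟩⟩ := qs_spec _ _ hfine
  rw [← hc, e1] at h3 h5
  rw [← hc, e2] at h4 h6
  rw [← hc] at h1 h2
  obtain ⟨i1, i2⟩ := qs_moment _ _ _ D _ _ d1 hF.2.2 hG.2.2 h5 h6
  exact ⟨h1, h2, ⟨C, c0, c1, h3, h4⟩, i1, D.toReal, ENNReal.toReal_pos d0 d1, i2⟩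

theorem volumes_of_bisected4 (h : Bisected4) : EqualVolumes := by
  obtain ⟨f, hf, hd⟩ := h
  refine ⟨fun p => f (two4 p), hf.comp two4_p.to_comp, fun n F G hF hG => ?_⟩
  obtain ⟨h1, h2, ⟨C, c0, c1, h3, h4⟩, -⟩ := two4_spec n F G hF hG
  obtain ⟨c, hc, h⟩ := hd _ _ _ h1 h2
  refine ⟨c, hc, h.trans ?_⟩
  rw [h3, h4]
  exact ENNReal.mul_right_inj c0 c1

theorem volumes_of_moment4 (h : MomentZero4) : EqualVolumes := by
  obtain ⟨f, hf, hd⟩ := h
  refine ⟨fun p => f (two4 p), hf.comp two4_p.to_comp, fun n F G hF hG => ?_⟩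
  obtain ⟨h1, h2, -, h5, C, c0, h6⟩ := two4_spec n F G hF hG
  obtain ⟨c, hc, h⟩ := hd _ _ _ h1 h2 h5
  refine ⟨c, hc, h.trans ?_⟩
  rw [h6, ← ENNReal.toReal_eq_toReal_iff' hF.2.2 hG.2.2, mul_eq_zero, sub_eq_zero]
  constructor
  · rintro (h | h)
    · exact absurd h c0.ne'
    · exact h
  · exact Or.inr

end Pool.Agent.H652.PV
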