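import Pool.Agent.H652.PV.Udefs

/-!
# Change of variables in the integral of a polynomial over an ellipsoid region in triangular form
-/

set_option autoImplicit false
set_option synthInstance.maxSize 2000

namespace Pool.Agent.H652.PV

open Pool.Agent.TH960.PE MeasureTheory

namespace UChg

/-- the substitution `x_i ↦ x_i + l_i` in the first `n` coordinates -/
noncomputable def sub (l : ℕ → Poly) (n : ℕ) (X : ℕ → ℝ) : ℕ → ℝ :=
  fun i => if i < n then X i + pev X (l i) else X i

theorem measurable_sub (l : ℕ → Poly) (n : ℕ) : Measurable (sub l n) := by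
  refine measurable_pi_lambda _ fun i => ?_
  by_cases h : i < n
  · simp only [sub, h, if_true]
    exact (measurable_pi_apply i).add (measurable_pev (l i))
  · simp only [sub, h, if_false]
    exact measurable_pi_apply i

/-- the substitution on `Fin n → ℝ` -/
noncomputable def tr (l : ℕ → Poly) (n : ℕ) (x : Fin n → ℝ) : Fin n → ℝ :=
  fun i => x i + pev (ext x) (l i)

theorem measurable_tr (l : ℕ → Poly) (n : ℕ) : Measurable (tr l n) := by
  refine measurable_pi_lambda _ fun i => ?_
  exact (measurable_pi_apply i).add ((measurable_pev (l i)).comp (measurable_ext n))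

theorem ext_of_lt {n : ℕ} (x : Fin n → ℝ) {i : ℕ} (h : i < n) : ext x i = x ⟨i, h⟩ := dif_pos h

theorem ext_of_ge {n : ℕ} (x : Fin n → ℝ) {i : ℕ} (h : ¬ i < n) : ext x i = 0 := dif_neg h

theorem ext_tr (l : ℕ → Poly) (n : ℕ) (x : Fin n → ℝ) : ext (tr l n x) = sub l n (ext x) := by
  funext i
  by_cases h : i < n
  · rw [ext_of_lt _ h]
    simp only [sub, h, if_true]
    rw [ext_of_lt _ h]
    rfl
  · rw [ext_of_ge _ h]
    simp only [sub, h, if_false]
    rw [ext_of_ge _ h]

theorem sub_glue (l : ℕ → Poly) (n : ℕ) (hl : ∀ i < n + 1, IsPoly i (l i)) (x : Fin n → ℝ)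
    (y : Fin 1 → ℝ) : sub l (n + 1) (glue n (ext x) (ext y)) =
      glue n (sub l n (ext x)) (ext (y + fun _ => pev (ext x) (l n))) := by
  funext i
  by_cases h : i < n
  · have h1 : i < n + 1 := by omega
    simp only [sub, glue, h, h1, if_true]
    congr 1
    refine pev_congr i _ (hl i h1) _ _ fun j hj => ?_
    have hjn : j < n := by omega
    exact if_pos hjn
  · by_cases h2 : i = n
    · subst h2
      have e1 : glue i (ext x) (ext y) i = y 0 := by
        simp [glue, Pool.Agent.TH960.PE.ext]
      have e2 : pev (glue i (ext x) (ext y)) (l i) = pev (ext x) (l i) :=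
        (dep_pev (hl i (by omega))).glue _ _
      have e3 : sub l (i + 1) (glue i (ext x) (ext y)) i =
          glue i (ext x) (ext y) i + pev (glue i (ext x) (ext y)) (l i) := if_pos (by omega)
      rw [e3, e1, e2]
      simp [glue, Pool.Agent.TH960.PE.ext]
    · have h1 : ¬ i < n + 1 := by omega
      have h3 : ¬ i - n < 1 := by omega
      have e3 : sub l (n + 1) (glue n (ext x) (ext y)) i = glue n (ext x) (ext y) i := if_neg h1
      rw [e3]
      simp only [glue, h, if_false]
      rw [ext_of_ge _ h3, ext_of_ge _ h3]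

/-- the substitution preserves integrals -/
theorem lint_sub (l : ℕ → Poly) : ∀ n : ℕ, (∀ i < n, IsPoly i (l i)) →
    ∀ g : (ℕ → ℝ) → ENNReal, Measurable g →
    ∫⁻ x : Fin n → ℝ, g (sub l n (ext x)) = ∫⁻ x : Fin n → ℝ, g (ext x) := by
  intro n
  induction n with
  | zero =>
    intro _ g _
    refine lintegral_congr fun x => ?_
    congr 1
  | succ n ih =>
    intro hl g hg
    rw [lint_split n 1 (fun X => g (sub l (n + 1) X)) (hg.comp (measurable_sub l (n + 1))),
      lint_split n 1 g hg]
    have h1 : ∀ x : Fin n → ℝ,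
        ∫⁻ y : Fin 1 → ℝ, g (sub l (n + 1) (glue n (ext x) (ext y))) =
          ∫⁻ y : Fin 1 → ℝ, g (glue n (sub l n (ext x)) (ext y)) := by
      intro x
      simp only [sub_glue l n hl x]
      exact lintegral_add_right_eq_self
        (fun y : Fin 1 → ℝ => g (glue n (sub l n (ext x)) (ext y))) _
    simp only [h1]
    have hG : Measurable fun X : ℕ → ℝ => ∫⁻ y : Fin 1 → ℝ, g (glue n X (ext y)) := by
      have hm : Measurable fun p : (ℕ → ℝ) × (Fin 1 → ℝ) => g (glue n p.1 (ext p.2)) :=
        hg.comp ((measurable_glue n).comp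
          (measurable_fst.prodMk ((measurable_ext 1).comp measurable_snd)))
      exact hm.lintegral_prod_right'
    exact ih (fun i hi => hl i (by omega)) _ hG

theorem map_tr (l : ℕ → Poly) (n : ℕ) (hl : ∀ i < n, IsPoly i (l i)) :
    Measure.map (tr l n) volume = volume := by
  refine Measure.ext fun A hA => ?_
  rw [Measure.map_apply (measurable_tr l n) hA]
  rw [← lintegral_indicator_one hA, ← lintegral_indicator_one (measurable_tr l n hA)]
  have hr : Measurable fun X : ℕ → ℝ => fun i : Fin n => X i :=
    measurable_pi_lambda _ fun i => measurable_pi_apply _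
  have hg : Measurable fun X : ℕ → ℝ =>
      Set.indicator A (1 : (Fin n → ℝ) → ENNReal) (fun i : Fin n => X i) :=
    (measurable_one.indicator hA).comp hr
  have h := lint_sub l n hl _ hg
  have e : ∀ x : Fin n → ℝ, (fun i : Fin n => ext x i) = x := by
    intro x
    funext i
    exact ext_of_lt x i.2
  simp only [← ext_tr, e] at h
  exact h

end UChg

open UChg in
/-- U3: change of variables -/
theorem t_chg (h1 : S_cmpP) (h2 : S_invP) : S_chg := by
  rintro n F r ds P ⟨hn, -, -, hl, hF⟩ hP
  have hmap := map_tr (fun i => (ent ds i).2) n hl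
  have hA : MeasurableSet {x : Fin n → ℝ | 0 < pev (ext x) F} :=
    measurableSet_lt measurable_const ((measurable_pev F).comp (measurable_ext n))
  have hB : MeasurableSet {z : Fin n → ℝ |
      ∑ i ∈ Finset.range n, cv (ent ds i).1 * ext z i ^ 2 < cv r} := by
    refine measurableSet_lt ?_ measurable_const
    refine Finset.measurable_sum _ fun i _ => ?_
    exact (((measurable_pi_apply i).comp (measurable_ext n)).pow_const 2).const_mul _
  have hH : Measurable (Set.indicator {z : Fin n → ℝ |
      ∑ i ∈ Finset.range n, cv (ent ds i).1 * ext z i ^ 2 < cv r}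
        fun z => pev (ext z) (cmpP (invP ds) P)) :=
    ((measurable_pev _).comp (measurable_ext n)).indicator hB
  rw [← integral_indicator hA, ← integral_indicator hB]
  conv_rhs => rw [← hmap]
  rw [integral_map (measurable_tr _ n).aemeasurable hH.aestronglyMeasurable]
  refine integral_congr_ae (Filter.Eventually.of_forall fun x => ?_)
  -- the value of the substitution
  have hZ : ∀ i < n, ext (tr (fun i => (ent ds i).2) n x) i =
      ext x i + pev (ext x) (ent ds i).2 := by
    intro i hi
    rw [ext_tr]
    exact if_pos hi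
  have hX : ∀ i, i < n →
      pev (ext (tr (fun i => (ent ds i).2) n x)) ((invP ds).getD i []) = ext x i := by
    intro i
    induction i using Nat.strong_induction_on with
    | _ i ih =>
      intro hi
      have h3 := h2.2.2.1 ds (ext (tr (fun i => (ent ds i).2) n x))
        (fun j hj => hl j (by omega)) i (by omega)
      rw [hZ i hi] at h3
      have h4 : pev (fun j => pev (ext (tr (fun i => (ent ds i).2) n x))
          ((invP ds).getD j [])) (ent ds i).2 = pev (ext x) (ent ds i).2 :=
        pev_congr i _ (hl i hi) _ _ fun j hj => ih j hj (by omega)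
      rw [h4] at h3
      linarith
  have hval : pev (ext (tr (fun i => (ent ds i).2) n x)) (cmpP (invP ds) P) = pev (ext x) P := by
    rw [h1.1]
    exact pev_congr n P hP _ _ hX
  have hmem : (x ∈ {x : Fin n → ℝ | 0 < pev (ext x) F}) ↔
      tr (fun i => (ent ds i).2) n x ∈ {z : Fin n → ℝ |
        ∑ i ∈ Finset.range n, cv (ent ds i).1 * ext z i ^ 2 < cv r} := by
    have e : ∑ i ∈ Finset.range n,
        cv (ent ds i).1 * ext (tr (fun i => (ent ds i).2) n x) i ^ 2 =
        ∑ i ∈ Finset.range n, cv (ent ds i).1 * (ext x i + pev (ext x) (ent ds i).2) ^ 2 :=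
      Finset.sum_congr rfl fun i hi => by rw [hZ i (Finset.mem_range.1 hi)]
    simp only [Set.mem_ofPred_eq]
    rw [e, hF]
    exact sub_pos
  by_cases hx : x ∈ {x : Fin n → ℝ | 0 < pev (ext x) F}
  · simp only []
    rw [Set.indicator_of_mem hx, Set.indicator_of_mem (hmem.1 hx), hval]
  · simp only []
    rw [Set.indicator_of_notMem hx, Set.indicator_of_notMem (fun h => hx (hmem.2 h))]

end Pool.Agent.H652.PV
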