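import Pool.Agent.H652.PV.Sdefs

/-!
# Polynomials of degree six: degrees, integer coefficients, computability (statement E4), by helper358
-/

set_option autoImplicit false
set_option synthInstance.maxSize 2000

namespace Pool.Agent.H652.PV

open Pool.Agent.TH960.PE MeasureTheory

namespace SCode

/-! ### The variables of a monomial -/

theorem mem_idx {e : List ℕ} {i : ℕ} (h : i ∈ idx e) : i < e.length := by
  unfold idx at h
  simp only [List.mem_flatMap, List.mem_range, List.mem_replicate] at h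
  obtain ⟨j, hj, _, rfl⟩ := h
  exact hj

theorem prod_idx (X : ℕ → ℝ) (g : ℕ → ℕ) (N : ℕ) :
    (((List.range N).flatMap fun i => List.replicate (g i) i).map X).prod =
      ∏ i ∈ Finset.range N, X i ^ g i := by
  induction N with
  | zero => simp
  | succ N ih =>
    rw [List.range_succ, List.flatMap_append, List.map_append, List.prod_append, ih,
      Finset.prod_range_succ]
    simp

theorem mev_idx (X : ℕ → ℝ) (e : List ℕ) : mev X e = ((idx e).map X).prod := by
  rw [mev_eq_prod e e.length le_rfl X, idx, prod_idx]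

/-! ### Degrees -/

theorem sum_eq (e : List ℕ) : ∀ N : ℕ, e.length ≤ N → e.sum = ∑ i ∈ Finset.range N, e.getD i 0 := by
  induction e with
  | nil => intro N _; simp
  | cons a e ih =>
    intro N hN
    obtain ⟨M, rfl⟩ : ∃ M, N = M + 1 := ⟨N - 1, by simp at hN; omega⟩
    rw [Finset.sum_range_succ', List.sum_cons, ih M (by simpa using hN), add_comm]
    simp

theorem sum_ladd (e e' : List ℕ) : (ladd e e').sum = e.sum + e'.sum := by
  rw [sum_eq _ (max e.length e'.length) (by rw [length_ladd]),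
    sum_eq e (max e.length e'.length) (le_max_left _ _),
    sum_eq e' (max e.length e'.length) (le_max_right _ _), ← Finset.sum_add_distrib]
  refine Finset.sum_congr rfl fun i _ => ?_
  rw [getD_ladd]

theorem deg_mono {d d' : ℕ} (h : d ≤ d') {A : Poly} (hA : Deg d A) : Deg d' A :=
  fun m hm => (hA m hm).trans h

theorem deg_mulS {d d' : ℕ} {A B : Poly} (hA : Deg d A) (hB : Deg d' B) :
    Deg (d + d') (mulS A B) := by
  intro m hm
  obtain ⟨a, ha, h1⟩ := List.mem_flatMap.1 hm
  obtain ⟨b, hb, rfl⟩ := List.mem_map.1 h1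
  simp only [mulM, sum_ladd]
  exact add_le_add (hA a ha) (hB b hb)

theorem deg_append {d : ℕ} {A B : Poly} (hA : Deg d A) (hB : Deg d B) : Deg d (A ++ B) := by
  intro m hm
  rcases List.mem_append.1 hm with h | h
  · exact hA m h
  · exact hB m h

theorem deg_negP {d : ℕ} {A : Poly} (hA : Deg d A) : Deg d (negP A) := by
  intro m hm
  obtain ⟨a, ha, rfl⟩ := List.mem_map.1 hm
  exact hA a ha

theorem deg_subP {d : ℕ} {A B : Poly} (hA : Deg d A) (hB : Deg d B) : Deg d (subP A B) :=
  deg_append hA (deg_negP hB)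

theorem deg_sqP {d : ℕ} {A : Poly} (hA : Deg d A) : Deg (d + d) (sqP A) := deg_mulS hA hA

theorem deg_varP (i : ℕ) : Deg 1 (varP i) := by
  intro m hm
  simp only [varP, List.mem_singleton] at hm
  subst hm
  simp

theorem deg_natP (a : ℕ) : Deg 0 (natP a) := by
  intro m hm
  simp only [natP, List.mem_singleton] at hm
  subst hm
  simp

theorem deg_nil (d : ℕ) : Deg d [] := fun _ hm => absurd hm (List.not_mem_nil)

theorem deg_oneP {d : ℕ} {A : Poly} (hA : Deg d A) : Deg d (oneP A) :=
  deg_subP (deg_mono (Nat.zero_le _) (deg_natP 1)) hA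

theorem deg_coef (d : ℕ) (c : Coef) : Deg d [(c, [])] := by
  intro m hm
  simp only [List.mem_singleton] at hm
  subst hm
  simp

/-- the invariant -/
def Inv (st : ℕ × Poly × Poly × Poly) : Prop := Deg 6 st.2.1 ∧ Deg 1 st.2.2.1 ∧ Deg 1 st.2.2.2

theorem inv_cstep (K : ℕ) (st : ℕ × Poly × Poly × Poly) (i : ℕ) (h : Inv st) :
    Inv (cstep K st i) := by
  obtain ⟨hE, hρ, hz⟩ := h
  have h1 : Deg 6 (mulS (natP K) (sqP (mulS st.2.2.1 (subP (mulS (varP i) (varP st.1))
      st.2.2.2)))) :=
    deg_mulS (deg_natP K) (deg_sqP (deg_mulS hρ (deg_subP (deg_mulS (deg_varP i) (deg_varP _))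
      (deg_mono (by norm_num) hz))))
  have h2 : Deg 6 (sqP (oneP (mulS (varP (st.1 + 2)) (varP (st.1 + 1))))) :=
    deg_mono (by norm_num) (deg_sqP (deg_oneP (deg_mulS (deg_varP _) (deg_varP _))))
  have h3 : Deg 6 (sqP (oneP (mulS (varP (st.1 + 2)) (mulS (varP i) st.2.2.1)))) :=
    deg_sqP (deg_oneP (deg_mulS (deg_varP _) (deg_mulS (deg_varP _) hρ)))
  have h4 : Deg 6 (sqP (mulS (varP (st.1 + 3)) (varP (st.1 + 2)))) :=
    deg_mono (by norm_num) (deg_sqP (deg_mulS (deg_varP _) (deg_varP _)))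
  exact ⟨deg_append hE (deg_append h1 (deg_append h2 (deg_append h3 h4))), deg_varP _, deg_varP _⟩

theorem inv_foldl (K : ℕ) (L : List ℕ) : ∀ st : ℕ × Poly × Poly × Poly, Inv st →
    Inv (L.foldl (cstep K) st) := by
  induction L with
  | nil => intro st h; exact h
  | cons i L ih => intro st h; exact ih _ (inv_cstep K st i h)

theorem deg_chainP (K : ℕ) (c : Coef) (L : List ℕ) (st : ℕ × Poly × Poly × Poly) (h : Inv st) :
    Deg 6 (chainP K c L st).2 := by
  obtain ⟨hE, hρ, hz⟩ := inv_foldl K L st h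
  exact deg_append hE (deg_mono (by norm_num) (deg_mulS (deg_natP K)
    (deg_sqP (deg_mulS hρ (deg_subP (deg_coef 1 c) hz)))))

/-- the invariant -/
def Inv2 (st : ℕ × Poly × Poly) : Prop := Deg 6 st.2.1 ∧ Deg 1 st.2.2

theorem inv_mstep (K : ℕ) {u : Poly} (hu : Deg 1 u) (st : ℕ × Poly × Poly) (m : Mono)
    (h : Inv2 st) : Inv2 (mstep K u st m) := by
  obtain ⟨hE, hz⟩ := h
  have h1 : Deg 6 (sqP (oneP (mulS (varP (st.1 + 1)) u))) :=
    deg_mono (by norm_num) (deg_sqP (deg_oneP (deg_mulS (deg_varP _) hu)))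
  have h2 : ∀ i j : ℕ, Deg 6 (sqP (mulS (varP i) (varP j))) := fun i j =>
    deg_mono (by norm_num) (deg_sqP (deg_mulS (deg_varP _) (deg_varP _)))
  exact ⟨deg_chainP _ _ _ _ ⟨deg_append hE (deg_append h1 (deg_append (h2 _ _) (h2 _ _))), hu,
    deg_varP _⟩, deg_subP hz (deg_varP _)⟩

theorem inv_foldl2 (K : ℕ) {u : Poly} (hu : Deg 1 u) (F : Poly) : ∀ st : ℕ × Poly × Poly,
    Inv2 st → Inv2 (F.foldl (mstep K u) st) := by
  induction F with
  | nil => intro st h; exact h
  | cons m F ih => intro st h; exact ih _ (inv_mstep K hu st m h)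

theorem deg_sumP (K : ℕ) {u : Poly} (hu : Deg 1 u) (F : Poly) (st : ℕ × Poly × Poly)
    (h : Inv2 st) : Deg 6 (sumP K u F st).2 := by
  obtain ⟨hE, hz⟩ := inv_foldl2 K hu F st h
  exact deg_append hE (deg_mono (by norm_num) (deg_mulS (deg_natP K)
    (deg_sqP (deg_mulS hu (deg_subP (deg_nil 1) hz)))))

theorem deg_sextE (n : ℕ) (F : Poly) : Deg 6 (sextE n F).2 := by
  have h1 : Deg 6 (sqP (oneP (mulS (varP n) (sqP (varP (n + 1)))))) :=
    deg_sqP (deg_oneP (deg_mulS (deg_varP _) (deg_sqP (deg_varP _))))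
  have h2 : Deg 6 (sqP (mulS (varP (n + 2)) (mulS (varP n) (varP (n + 1))))) :=
    deg_sqP (deg_mulS (deg_varP _) (deg_mulS (deg_varP _) (deg_varP _)))
  have h3 : Deg 6 (sqP (oneP (mulS (varP n) (varP (n + 3))))) :=
    deg_mono (by norm_num) (deg_sqP (deg_oneP (deg_mulS (deg_varP _) (deg_varP _))))
  have h4 : Deg 6 (sqP (mulS (varP (n + 4)) (varP (n + 3)))) :=
    deg_mono (by norm_num) (deg_sqP (deg_mulS (deg_varP _) (deg_varP _)))
  exact deg_sumP _ (deg_varP n) F _ ⟨deg_append h1 (deg_append h2 (deg_append h3 h4)), deg_varP _⟩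

/-! ### Integer coefficients -/

theorem isInt_nil : IsInt [] := fun _ hm => absurd hm (List.not_mem_nil)

theorem isInt_oneP {A : Poly} (hA : IsInt A) : IsInt (oneP A) :=
  isInt_subP (isInt_natP 1) hA

theorem isInt_coef {c : Coef} (hc : c.2.2 = 0) : IsInt [(c, [])] := by
  intro m hm
  simp only [List.mem_singleton] at hm
  subst hm
  exact hc

/-- the invariant -/
def Jnv (st : ℕ × Poly × Poly × Poly) : Prop := IsInt st.2.1 ∧ IsInt st.2.2.1 ∧ IsInt st.2.2.2

theorem jnv_cstep (K : ℕ) (st : ℕ × Poly × Poly × Poly) (i : ℕ) (h : Jnv st) :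
    Jnv (cstep K st i) := by
  obtain ⟨hE, hρ, hz⟩ := h
  exact ⟨isInt_append hE (isInt_append (isInt_mulS (isInt_natP K) (isInt_sqP (isInt_mulS hρ
    (isInt_subP (isInt_mulS (isInt_varP i) (isInt_varP _)) hz)))) (isInt_append
    (isInt_sqP (isInt_oneP (isInt_mulS (isInt_varP _) (isInt_varP _)))) (isInt_append
    (isInt_sqP (isInt_oneP (isInt_mulS (isInt_varP _) (isInt_mulS (isInt_varP _) hρ))))
    (isInt_sqP (isInt_mulS (isInt_varP _) (isInt_varP _)))))), isInt_varP _, isInt_varP _⟩

theorem jnv_foldl (K : ℕ) (L : List ℕ) : ∀ st : ℕ × Poly × Poly × Poly, Jnv st →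
    Jnv (L.foldl (cstep K) st) := by
  induction L with
  | nil => intro st h; exact h
  | cons i L ih => intro st h; exact ih _ (jnv_cstep K st i h)

theorem isInt_chainP (K : ℕ) {c : Coef} (hc : c.2.2 = 0) (L : List ℕ)
    (st : ℕ × Poly × Poly × Poly) (h : Jnv st) : IsInt (chainP K c L st).2 := by
  obtain ⟨hE, hρ, hz⟩ := jnv_foldl K L st h
  exact isInt_append hE (isInt_mulS (isInt_natP K)
    (isInt_sqP (isInt_mulS hρ (isInt_subP (isInt_coef hc) hz))))

/-- the invariant -/
def Jnv2 (st : ℕ × Poly × Poly) : Prop := IsInt st.2.1 ∧ IsInt st.2.2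

theorem jnv_mstep (K : ℕ) {u : Poly} (hu : IsInt u) (st : ℕ × Poly × Poly) (m : Mono)
    (hm : m.1.2.2 = 0) (h : Jnv2 st) : Jnv2 (mstep K u st m) := by
  obtain ⟨hE, hz⟩ := h
  exact ⟨isInt_chainP _ hm _ _ ⟨isInt_append hE (isInt_append
    (isInt_sqP (isInt_oneP (isInt_mulS (isInt_varP _) hu)))
    (isInt_append (isInt_sqP (isInt_mulS (isInt_varP _) (isInt_varP _)))
      (isInt_sqP (isInt_mulS (isInt_varP _) (isInt_varP _))))), hu,
    isInt_varP _⟩, isInt_subP hz (isInt_varP _)⟩

theorem jnv_foldl2 (K : ℕ) {u : Poly} (hu : IsInt u) (F : Poly) (hF : IsInt F) :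
    ∀ st : ℕ × Poly × Poly, Jnv2 st → Jnv2 (F.foldl (mstep K u) st) := by
  induction F with
  | nil => intro st h; exact h
  | cons m F ih =>
    intro st h
    exact ih (fun m' hm' => hF m' (List.mem_cons_of_mem _ hm')) _
      (jnv_mstep K hu st m (hF m List.mem_cons_self) h)

theorem isInt_sumP (K : ℕ) {u : Poly} (hu : IsInt u) (F : Poly) (hF : IsInt F)
    (st : ℕ × Poly × Poly) (h : Jnv2 st) : IsInt (sumP K u F st).2 := by
  obtain ⟨hE, hz⟩ := jnv_foldl2 K hu F hF st h
  exact isInt_append hE (isInt_mulS (isInt_natP K)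
    (isInt_sqP (isInt_mulS hu (isInt_subP isInt_nil hz))))

theorem isInt_sextE (n : ℕ) {F : Poly} (hF : IsInt F) : IsInt (sextE n F).2 := by
  refine isInt_sumP _ (isInt_varP n) F hF _ ⟨isInt_append ?_ (isInt_append ?_
    (isInt_append ?_ ?_)), isInt_varP _⟩
  · exact isInt_sqP (isInt_oneP (isInt_mulS (isInt_varP _) (isInt_sqP (isInt_varP _))))
  · exact isInt_sqP (isInt_mulS (isInt_varP _) (isInt_mulS (isInt_varP _) (isInt_varP _)))
  · exact isInt_sqP (isInt_oneP (isInt_mulS (isInt_varP _) (isInt_varP _)))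
  · exact isInt_sqP (isInt_mulS (isInt_varP _) (isInt_varP _))

/-! ### Computability -/

section prim

open PrimT

variable {α : Type*} [Primcodable α]

theorem natP_p {f : α → ℕ} (hf : Primrec f) : Primrec fun a => natP (f a) := by
  have h2 : Primrec fun a => (((f a, 0, 0), []) : Mono) :=
    Primrec.pair (Primrec.pair hf (Primrec.const ((0, 0) : ℕ × ℕ))) (Primrec.const ([] : List ℕ))
  exact Primrec.list_cons.comp h2 (Primrec.const ([] : Poly))

theorem coef_p {f : α → Coef} (hf : Primrec f) : Primrec fun a => ([(f a, [])] : Poly) := by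
  have h2 : Primrec fun a => ((f a, []) : Mono) :=
    Primrec.pair hf (Primrec.const ([] : List ℕ))
  exact Primrec.list_cons.comp h2 (Primrec.const ([] : Poly))

theorem oneP_p {f : α → Poly} (hf : Primrec f) : Primrec fun a => oneP (f a) :=
  subP_p (Primrec.const (natP 1)) hf

theorem add_p {f : α → ℕ} (hf : Primrec f) (k : ℕ) : Primrec fun a => f a + k :=
  Primrec.nat_add.comp hf (Primrec.const k)

theorem app_p {f g : α → Poly} (hf : Primrec f) (hg : Primrec g) :
    Primrec fun a => f a ++ g a :=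
  Primrec.list_append.comp hf hg

theorem idx_p {f : α → List ℕ} (hf : Primrec f) : Primrec fun a => idx (f a) := by
  have h1 : Primrec fun p : ℕ × ℕ => List.replicate p.1 p.2 := by
    have h2 : Primrec fun p : ℕ × ℕ => (List.range p.1).map fun _ => p.2 := by
      have h3 : Primrec₂ fun (p : ℕ × ℕ) (_ : ℕ) => p.2 := by
        have h4 : Primrec fun q : (ℕ × ℕ) × ℕ => q.1.2 := Primrec.snd.comp Primrec.fst
        exact h4.to₂
      exact Primrec.list_map (Primrec.list_range.comp Primrec.fst) h3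
    refine h2.of_eq fun p => ?_
    simp [List.map_const']
  have h5 : Primrec fun p : α × ℕ => List.replicate ((f p.1).getD p.2 0) p.2 :=
    h1.comp (Primrec.pair ((Primrec.list_getD 0).comp (hf.comp Primrec.fst) Primrec.snd)
      Primrec.snd)
  exact Primrec.list_flatMap (Primrec.list_range.comp (Primrec.list_length.comp hf)) h5.to₂

/-- the state of a chain -/
abbrev St := ℕ × Poly × Poly × Poly

/-- the state of a sum -/
abbrev St2 := ℕ × Poly × Poly

theorem cstep_p {K : α → ℕ} {st : α → St} {i : α → ℕ} (hK : Primrec K) (hst : Primrec st)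
    (hi : Primrec i) : Primrec fun a => cstep (K a) (st a) (i a) := by
  have n0 : Primrec fun a => (st a).1 := Primrec.fst.comp hst
  have hE : Primrec fun a => (st a).2.1 := Primrec.fst.comp (Primrec.snd.comp hst)
  have hρ : Primrec fun a => (st a).2.2.1 :=
    Primrec.fst.comp (Primrec.snd.comp (Primrec.snd.comp hst))
  have hz : Primrec fun a => (st a).2.2.2 :=
    Primrec.snd.comp (Primrec.snd.comp (Primrec.snd.comp hst))
  have v0 := varP_p n0
  have v1 := varP_p (add_p n0 1)
  have v2 := varP_p (add_p n0 2)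
  have v3 := varP_p (add_p n0 3)
  have vi := varP_p hi
  have e1 := mulS_p (natP_p hK) (sqP_p (mulS_p hρ (subP_p (mulS_p vi v0) hz)))
  have e2 := sqP_p (oneP_p (mulS_p v2 v1))
  have e3 := sqP_p (oneP_p (mulS_p v2 (mulS_p vi hρ)))
  have e4 := sqP_p (mulS_p v3 v2)
  exact Primrec.pair (add_p n0 4) (Primrec.pair (app_p hE (app_p e1 (app_p e2 (app_p e3 e4))))
    (Primrec.pair v1 v0))

theorem cend_p {K : α → ℕ} {c : α → Coef} {st : α → St} (hK : Primrec K) (hc : Primrec c)
    (hst : Primrec st) : Primrec fun a => cend (K a) (c a) (st a) := by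
  have n0 : Primrec fun a => (st a).1 := Primrec.fst.comp hst
  have hE : Primrec fun a => (st a).2.1 := Primrec.fst.comp (Primrec.snd.comp hst)
  have hρ : Primrec fun a => (st a).2.2.1 :=
    Primrec.fst.comp (Primrec.snd.comp (Primrec.snd.comp hst))
  have hz : Primrec fun a => (st a).2.2.2 :=
    Primrec.snd.comp (Primrec.snd.comp (Primrec.snd.comp hst))
  exact Primrec.pair n0 (app_p hE (mulS_p (natP_p hK)
    (sqP_p (mulS_p hρ (subP_p (coef_p hc) hz)))))

theorem cfold_p {K : α → ℕ} {L : α → List ℕ} {st : α → St} (hK : Primrec K) (hL : Primrec L)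
    (hst : Primrec st) : Primrec fun a => (L a).foldl (cstep (K a)) (st a) := by
  have h : Primrec₂ fun (a : α) (q : St × ℕ) => cstep (K a) q.1 q.2 := by
    have h1 : Primrec fun p : α × (St × ℕ) => cstep (K p.1) p.2.1 p.2.2 :=
      cstep_p (hK.comp Primrec.fst) (Primrec.fst.comp Primrec.snd)
        (Primrec.snd.comp Primrec.snd)
    exact h1.to₂
  exact Primrec.list_foldl hL hst h

theorem chainP_p {K : α → ℕ} {c : α → Coef} {L : α → List ℕ} {st : α → St} (hK : Primrec K)
    (hc : Primrec c) (hL : Primrec L) (hst : Primrec st) :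
    Primrec fun a => chainP (K a) (c a) (L a) (st a) :=
  cend_p hK hc (cfold_p hK hL hst)

theorem mstep_p {K : α → ℕ} {u : α → Poly} {st : α → St2} {m : α → Mono} (hK : Primrec K)
    (hu : Primrec u) (hst : Primrec st) (hm : Primrec m) :
    Primrec fun a => mstep (K a) (u a) (st a) (m a) := by
  have n0 : Primrec fun a => (st a).1 := Primrec.fst.comp hst
  have hE : Primrec fun a => (st a).2.1 := Primrec.fst.comp (Primrec.snd.comp hst)
  have hz : Primrec fun a => (st a).2.2 := Primrec.snd.comp (Primrec.snd.comp hst)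
  have v0 := varP_p n0
  have v1 := varP_p (add_p n0 1)
  have v2 := varP_p (add_p n0 2)
  have v3 := varP_p (add_p n0 3)
  have e1 := sqP_p (oneP_p (mulS_p v1 hu))
  have e2 := sqP_p (mulS_p v2 v1)
  have e3 := sqP_p (mulS_p v3 v1)
  have s : Primrec fun a => (((st a).1 + 4,
      (st a).2.1 ++ (sqP (oneP (mulS (varP ((st a).1 + 1)) (u a))) ++
        (sqP (mulS (varP ((st a).1 + 2)) (varP ((st a).1 + 1))) ++
          sqP (mulS (varP ((st a).1 + 3)) (varP ((st a).1 + 1))))), u a, varP (st a).1) : St) :=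
    Primrec.pair (add_p n0 4) (Primrec.pair (app_p hE (app_p e1 (app_p e2 e3)))
      (Primrec.pair hu v0))
  have ch := chainP_p hK (Primrec.fst.comp hm) (idx_p (Primrec.snd.comp hm)) s
  exact Primrec.pair (Primrec.fst.comp ch) (Primrec.pair (Primrec.snd.comp ch) (subP_p hz v0))

theorem send_p {K : α → ℕ} {u : α → Poly} {st : α → St2} (hK : Primrec K) (hu : Primrec u)
    (hst : Primrec st) : Primrec fun a => send (K a) (u a) (st a) := by
  have n0 : Primrec fun a => (st a).1 := Primrec.fst.comp hst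
  have hE : Primrec fun a => (st a).2.1 := Primrec.fst.comp (Primrec.snd.comp hst)
  have hz : Primrec fun a => (st a).2.2 := Primrec.snd.comp (Primrec.snd.comp hst)
  exact Primrec.pair n0 (app_p hE (mulS_p (natP_p hK)
    (sqP_p (mulS_p hu (subP_p (Primrec.const []) hz)))))

theorem mfold_p {K : α → ℕ} {u : α → Poly} {F : α → Poly} {st : α → St2} (hK : Primrec K)
    (hu : Primrec u) (hF : Primrec F) (hst : Primrec st) :
    Primrec fun a => (F a).foldl (mstep (K a) (u a)) (st a) := by
  have h : Primrec₂ fun (a : α) (q : St2 × Mono) => mstep (K a) (u a) q.1 q.2 := by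
    have h1 : Primrec fun p : α × (St2 × Mono) => mstep (K p.1) (u p.1) p.2.1 p.2.2 :=
      mstep_p (hK.comp Primrec.fst) (hu.comp Primrec.fst) (Primrec.fst.comp Primrec.snd)
        (Primrec.snd.comp Primrec.snd)
    exact h1.to₂
  exact Primrec.list_foldl hF hst h

theorem sumP_p {K : α → ℕ} {u : α → Poly} {F : α → Poly} {st : α → St2} (hK : Primrec K)
    (hu : Primrec u) (hF : Primrec F) (hst : Primrec st) :
    Primrec fun a => sumP (K a) (u a) (F a) (st a) :=
  send_p hK hu (mfold_p hK hu hF hst)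

theorem lens_p {F : α → Poly} (hF : Primrec F) : Primrec fun a => lens (F a) := by
  have h : Primrec fun p : α × Mono => (idx p.2.2).length :=
    Primrec.list_length.comp (idx_p (Primrec.snd.comp Primrec.snd))
  exact Primrec.list_map hF h.to₂

theorem pow_p {f g : α → ℕ} (hf : Primrec f) (hg : Primrec g) : Primrec fun a => f a ^ g a := by
  have h : Primrec₂ ((· ^ ·) : ℕ → ℕ → ℕ) := Primrec₂.unpaired'.1 Nat.Primrec.pow
  exact h.comp hf hg

theorem bnd_p {Ls : α → List ℕ} (hL : Primrec Ls) : Primrec fun a => bnd (Ls a) := by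
  have h : Primrec₂ fun (_ : α) (q : ℕ × ℕ) => 4 ^ (q.1 + 1) + q.2 := by
    have h1 : Primrec fun q : ℕ × ℕ => 4 ^ (q.1 + 1) + q.2 :=
      Primrec.nat_add.comp (pow_p (Primrec.const 4) (add_p Primrec.fst 1)) Primrec.snd
    exact h1.comp₂ Primrec₂.right
  exact Primrec.list_foldr hL (Primrec.const 1) h

theorem sextE_p {n : α → ℕ} {f : α → Poly} (hn : Primrec n) (hf : Primrec f) :
    Primrec fun a => sextE (n a) (f a) := by
  have v0 := varP_p hn
  have v1 := varP_p (add_p hn 1)
  have v2 := varP_p (add_p hn 2)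
  have v3 := varP_p (add_p hn 3)
  have v4 := varP_p (add_p hn 4)
  have e1 := sqP_p (oneP_p (mulS_p v0 (sqP_p v1)))
  have e2 := sqP_p (mulS_p v2 (mulS_p v0 v1))
  have e3 := sqP_p (oneP_p (mulS_p v0 v3))
  have e4 := sqP_p (mulS_p v4 v3)
  have hK : Primrec fun a => (4 * bnd (lens (f a))) ^ 2 :=
    pow_p (Primrec.nat_mul.comp (Primrec.const 4) (bnd_p (lens_p hf))) (Primrec.const 2)
  exact sumP_p hK v0 hf (Primrec.pair (add_p hn 5)
    (Primrec.pair (app_p e1 (app_p e2 (app_p e3 e4))) v3))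

end prim

end SCode

theorem deg_sext (n : ℕ) (F : Poly) : Deg 6 (sext n F).2 :=
  SCode.deg_oneP (SCode.deg_mono (by norm_num)
    (SCode.deg_mulS (SCode.deg_natP 4) (SCode.deg_sextE n F)))

theorem isInt_sext (n : ℕ) {F : Poly} (hF : IsInt F) : IsInt (sext n F).2 :=
  SCode.isInt_oneP (isInt_mulS (isInt_natP 4) (SCode.isInt_sextE n hF))

theorem sext_p {α : Type*} [Primcodable α] {n : α → ℕ} {f : α → Poly} (hn : Primrec n)
    (hf : Primrec f) : Primrec fun a => sext (n a) (f a) := by
  have h := SCode.sextE_p hn hf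
  exact Primrec.pair (Primrec.fst.comp h)
    (SCode.oneP_p (PrimT.mulS_p (Primrec.const (natP 4)) (Primrec.snd.comp h)))

theorem t_code : S_code :=
  ⟨SCode.mev_idx, fun _ _ h => SCode.mem_idx h, deg_sext, fun n _ hF => isInt_sext n hF,
    sext_p Primrec.fst Primrec.snd⟩

end Pool.Agent.H652.PV
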