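import Pool.Agent.H652.PV.Udefs
import Pool.Agent.H652.PV.SCode

/-!
# Substitution of polynomials into a polynomial (statement U1), by helper550
-/

set_option autoImplicit false
set_option synthInstance.maxSize 2000

namespace Pool.Agent.H652.PV

open Pool.Agent.TH960.PE MeasureTheory

namespace UCmp

/-! ### Values -/

theorem pev_powP (Z : ℕ → ℝ) (A : Poly) (k : ℕ) : pev Z (powP A k) = pev Z A ^ k := by
  induction k with
  | zero => rw [powP, pev_natP]; simp
  | succ k ih => rw [powP, pev_mulS, ih, pow_succ, mul_comm]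

theorem getD_tail (Xs : List Poly) (i : ℕ) : Xs.tail.getD i [] = Xs.getD (i + 1) [] := by
  cases Xs with
  | nil => simp
  | cons A Xs => simp

theorem getD_zero (Xs : List Poly) : Xs.headD [] = Xs.getD 0 [] := by
  cases Xs with
  | nil => simp
  | cons A Xs => simp

theorem pev_monP (Z : ℕ → ℝ) (e : List ℕ) : ∀ Xs : List Poly,
    pev Z (monP Xs e) = mev (fun i => pev Z (Xs.getD i [])) e := by
  induction e with
  | nil => intro Xs; rw [monP, pev_natP, mev]; simp
  | cons a e ih =>
    intro Xs
    rw [monP, pev_mulS, ih, pev_powP, mev, getD_zero]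
    simp only [getD_tail]

theorem cmpP_cons (Xs : List Poly) (m : Mono) (P : Poly) :
    cmpP Xs (m :: P) = mulS [(m.1, [])] (monP Xs m.2) ++ cmpP Xs P := by
  simp [cmpP]

theorem pev_cmpP (Z : ℕ → ℝ) (Xs : List Poly) (P : Poly) :
    pev Z (cmpP Xs P) = pev (fun i => pev Z (Xs.getD i [])) P := by
  induction P with
  | nil => simp [cmpP, pev]
  | cons m P ih =>
    rw [cmpP_cons, pev_append, ih, pev_cons, pev_mulS, pev_monP]
    congr 2
    rw [pev_cons]
    simp [pev, mev]

/-! ### The number of variables -/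

theorem isPoly_powP {n : ℕ} {A : Poly} (hA : IsPoly n A) (k : ℕ) : IsPoly n (powP A k) := by
  induction k with
  | zero => exact isPoly_natP n 1
  | succ k ih => exact isPoly_mulS hA ih

theorem isPoly_monP {n : ℕ} (e : List ℕ) : ∀ Xs : List Poly, (∀ A ∈ Xs, IsPoly n A) →
    IsPoly n (monP Xs e) := by
  induction e with
  | nil => intro Xs _; exact isPoly_natP n 1
  | cons a e ih =>
    intro Xs hX
    refine isPoly_mulS (isPoly_powP ?_ a) (ih _ fun A hA => hX A (List.mem_of_mem_tail hA))
    cases Xs with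
    | nil => intro m hm; exact absurd hm (List.not_mem_nil)
    | cons A Xs => exact hX A List.mem_cons_self

theorem isPoly_cmpP {n : ℕ} (Xs : List Poly) (P : Poly) (hX : ∀ A ∈ Xs, IsPoly n A) :
    IsPoly n (cmpP Xs P) := by
  intro x hx
  obtain ⟨m, -, h1⟩ := List.mem_flatMap.1 hx
  refine isPoly_mulS (n := n) ?_ (isPoly_monP m.2 Xs hX) x h1
  intro y hy
  simp only [List.mem_singleton] at hy
  subst hy
  simp

/-! ### Computability -/

theorem powP_rec (A : Poly) (k : ℕ) :
    powP A k = Nat.rec (motive := fun _ => Poly) (natP 1) (fun _ ih => mulS A ih) k := by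
  induction k with
  | zero => rfl
  | succ k ih => rw [powP, ih]

theorem powP_p {α : Type*} [Primcodable α] {f : α → Poly} {g : α → ℕ} (hf : Primrec f)
    (hg : Primrec g) : Primrec fun a => powP (f a) (g a) := by
  have h1 : Primrec₂ fun (A : Poly) (q : ℕ × Poly) => mulS A q.2 := by
    have h2 : Primrec fun p : Poly × (ℕ × Poly) => mulS p.1 p.2.2 :=
      PrimT.mulS_p Primrec.fst (Primrec.snd.comp Primrec.snd)
    exact h2.to₂
  have h3 : Primrec₂ fun (A : Poly) (k : ℕ) =>
      Nat.rec (motive := fun _ => Poly) (natP 1) (fun n ih => mulS A (n, ih).2) k :=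
    Primrec.nat_rec (Primrec.const (natP 1)) h1
  have h4 : Primrec fun a => Nat.rec (motive := fun _ => Poly) (natP 1)
      (fun n ih => mulS (f a) (n, ih).2) (g a) := h3.comp hf hg
  exact h4.of_eq fun a => (powP_rec (f a) (g a)).symm

theorem monP_foldr (e : List ℕ) : ∀ Xs : List Poly, monP Xs e =
    (List.range e.length).foldr (fun i s => mulS (powP (Xs.getD i []) (e.getD i 0)) s)
      (natP 1) := by
  induction e with
  | nil => intro Xs; rfl
  | cons a e ih =>
    intro Xs
    rw [monP, ih, List.length_cons, List.range_succ_eq_map, List.foldr_cons, List.foldr_map,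
      getD_zero]
    simp only [getD_tail, List.getD_cons_zero, List.getD_cons_succ, Nat.succ_eq_add_one]

theorem monP_p {α : Type*} [Primcodable α] {f : α → List Poly} {g : α → List ℕ} (hf : Primrec f)
    (hg : Primrec g) : Primrec fun a => monP (f a) (g a) := by
  have h1 : Primrec fun p : α × (ℕ × Poly) => (f p.1).getD p.2.1 [] :=
    (Primrec.list_getD ([] : Poly)).comp (hf.comp Primrec.fst) (Primrec.fst.comp Primrec.snd)
  have h2 : Primrec fun p : α × (ℕ × Poly) => (g p.1).getD p.2.1 0 :=
    (Primrec.list_getD 0).comp (hg.comp Primrec.fst) (Primrec.fst.comp Primrec.snd)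
  have h3 : Primrec₂ fun (a : α) (q : ℕ × Poly) =>
      mulS (powP ((f a).getD q.1 []) ((g a).getD q.1 0)) q.2 := by
    have h4 : Primrec fun p : α × (ℕ × Poly) =>
        mulS (powP ((f p.1).getD p.2.1 []) ((g p.1).getD p.2.1 0)) p.2.2 :=
      PrimT.mulS_p (powP_p h1 h2) (Primrec.snd.comp Primrec.snd)
    exact h4.to₂
  have h5 : Primrec fun a => (List.range (g a).length).foldr
      (fun i s => mulS (powP ((f a).getD (i, s).1 []) ((g a).getD (i, s).1 0)) (i, s).2)
      (natP 1) :=
    Primrec.list_foldr (Primrec.list_range.comp (Primrec.list_length.comp hg))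
      (Primrec.const (natP 1)) h3
  exact h5.of_eq fun a => (monP_foldr (g a) (f a)).symm

theorem cmpP_p : Primrec (fun p : List Poly × Poly => cmpP p.1 p.2) := by
  have h1 : Primrec₂ fun (p : List Poly × Poly) (m : Mono) =>
      mulS [(m.1, [])] (monP p.1 m.2) := by
    have h2 : Primrec fun q : (List Poly × Poly) × Mono =>
        mulS [(q.2.1, [])] (monP q.1.1 q.2.2) :=
      PrimT.mulS_p (SCode.coef_p (Primrec.fst.comp Primrec.snd))
        (monP_p (Primrec.fst.comp Primrec.fst) (Primrec.snd.comp Primrec.snd))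
    exact h2.to₂
  exact Primrec.list_flatMap Primrec.snd h1

end UCmp

/-- U1 -/
theorem t_cmpP : S_cmpP :=
  ⟨UCmp.pev_cmpP, fun _ Xs P hX => UCmp.isPoly_cmpP Xs P hX, UCmp.cmpP_p⟩

end Pool.Agent.H652.PV
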