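import Pool.Agent.H652.PV.Udefs
import Pool.Agent.H652.PV.TTri
import Pool.Agent.H652.PV.TCub
import Pool.Agent.H652.PV.TVol

/-!
# A hyperplane and an ellipsoid: halves and first moment (task U7; helper51)
-/

set_option autoImplicit false
set_option synthInstance.maxSize 2000

namespace Pool.Agent.H652.PV

open Pool.Agent.TH960.PE MeasureTheory

namespace UHalf

/-! ### Polynomials along a line -/

theorem mev_line (e : List ℕ) : ∀ X H : ℕ → ℝ, ∃ p : Polynomial ℝ, p.natDegree ≤ e.sum ∧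
    ∀ t : ℝ, mev (fun i => X i + t * H i) e = p.eval t := by
  induction e with
  | nil =>
    intro X H
    exact ⟨1, by simp, fun t => by simp [mev]⟩
  | cons a e ih =>
    intro X H
    obtain ⟨p, hp, hp'⟩ := ih (fun i => X (i + 1)) (fun i => H (i + 1))
    refine ⟨(Polynomial.C (X 0) + Polynomial.C (H 0) * Polynomial.X) ^ a * p, ?_, fun t => ?_⟩
    · refine Polynomial.natDegree_mul_le.trans ?_
      rw [List.sum_cons]
      refine add_le_add ?_ hp
      refine Polynomial.natDegree_pow_le.trans ?_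
      have h1 : (Polynomial.C (X 0) + Polynomial.C (H 0) * Polynomial.X).natDegree ≤ 1 := by
        compute_degree
      calc a * _ ≤ a * 1 := Nat.mul_le_mul_left a h1
        _ = a := mul_one a
    · rw [mev, hp' t, Polynomial.eval_mul, Polynomial.eval_pow, Polynomial.eval_add,
        Polynomial.eval_mul, Polynomial.eval_C, Polynomial.eval_C, Polynomial.eval_X,
        mul_comm (H 0) t]

theorem pev_line (F : Poly) (d : ℕ) (hF : Deg d F) (X H : ℕ → ℝ) :
    ∃ p : Polynomial ℝ, p.natDegree ≤ d ∧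
      ∀ t : ℝ, pev (fun i => X i + t * H i) F = p.eval t := by
  induction F with
  | nil => exact ⟨0, by simp, fun t => by simp [pev]⟩
  | cons m F ih =>
    obtain ⟨p, hp, hp'⟩ := ih (fun x hx => hF x (List.mem_cons_of_mem _ hx))
    obtain ⟨q, hq, hq'⟩ := mev_line m.2 X H
    refine ⟨Polynomial.C (cv m.1) * q + p, ?_, fun t => ?_⟩
    · refine (Polynomial.natDegree_add_le _ _).trans (max_le ?_ hp)
      exact (Polynomial.natDegree_C_mul_le _ _).trans (hq.trans (hF m List.mem_cons_self))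
    · rw [pev_cons, hp', hq', Polynomial.eval_add, Polynomial.eval_mul, Polynomial.eval_C]

theorem sym_of_max (F : Poly) (hF : Deg 2 F) (X H : ℕ → ℝ) (hmax : ∀ Y, pev Y F ≤ pev X F) :
    pev (fun i => X i + H i) F = pev (fun i => X i - H i) F := by
  obtain ⟨p, hp, hp'⟩ := pev_line F 2 hF X H
  have hev : ∀ t, p.eval t = p.coeff 0 + p.coeff 1 * t + p.coeff 2 * t ^ 2 := by
    intro t
    rw [Polynomial.eval_eq_sum_range' (Nat.lt_succ_of_le hp)]
    simp [Finset.sum_range_succ]
  obtain ⟨a, ha⟩ : ∃ a, a = p.coeff 0 := ⟨_, rfl⟩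
  obtain ⟨b, hb⟩ : ∃ b, b = p.coeff 1 := ⟨_, rfl⟩
  obtain ⟨e, he⟩ : ∃ e, e = p.coeff 2 := ⟨_, rfl⟩
  rw [← ha, ← hb, ← he] at hev
  have h0 : pev X F = a := by
    have h1 := hp' 0
    rw [hev] at h1
    have h2 : (fun i => X i + 0 * H i) = X := by
      funext i
      ring
    rw [h2] at h1
    rw [h1]
    ring
  have hb0 : b = 0 := by
    have he0 : 0 < 1 + |e| := by positivity
    have h := hmax (fun i => X i + (b / (1 + |e|)) * H i)
    rw [hp', hev, h0] at h
    have h1 : b * (b / (1 + |e|)) + e * (b / (1 + |e|)) ^ 2 =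
        (b / (1 + |e|)) ^ 2 * (1 + |e| + e) := by
      field_simp
    have h2 : 0 < 1 + |e| + e := by
      have := neg_abs_le e
      linarith
    have h3 : (b / (1 + |e|)) ^ 2 * (1 + |e| + e) ≤ 0 := by linarith
    have h4 : (b / (1 + |e|)) ^ 2 ≤ 0 := by
      by_contra h5
      push Not at h5
      have := mul_pos h5 h2
      linarith
    have h5 : b / (1 + |e|) = 0 := by
      have := sq_nonneg (b / (1 + |e|))
      exact pow_eq_zero_iff (two_ne_zero) |>.1 (le_antisymm h4 this)
    rcases div_eq_zero_iff.1 h5 with h6 | h6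
    · exact h6
    · exact absurd h6 he0.ne'
  have h1 := hp' 1
  have h2 := hp' (-1)
  rw [hev, hb0] at h1 h2
  have e1 : (fun i => X i + 1 * H i) = fun i => X i + H i := by
    funext i
    ring
  have e2 : (fun i => X i + -1 * H i) = fun i => X i - H i := by
    funext i
    ring
  rw [e1] at h1
  rw [e2] at h2
  rw [h1, h2]
  ring

/-! ### Symmetric sets -/

theorem strict {n : ℕ} {E : Set (Fin n → ℝ)} (hE : IsOpen E) (hV : volume E ≠ ⊤)
    (c : Fin n → ℝ) (hc : c ∈ E) (hs : ∀ x, x ∈ E → (2 : ℝ) • c - x ∈ E) (k : Fin n) (σ : ℝ)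
    (hσ : 0 < σ * c k) :
    volume {x | x ∈ E ∧ σ * x k < 0} < volume {x | x ∈ E ∧ 0 < σ * x k} := by
  have hmk : Continuous fun x : Fin n → ℝ => σ * x k := by fun_prop
  have hA : MeasurableSet {x | x ∈ E ∧ σ * x k < 0} :=
    (hE.inter (isOpen_lt hmk continuous_const)).measurableSet
  have hB : IsOpen {x | x ∈ E ∧ (0 < σ * x k ∧ σ * x k < 2 * (σ * c k))} :=
    hE.inter ((isOpen_lt continuous_const hmk).inter (isOpen_lt hmk continuous_const))
  have hC : MeasurableSet {x | x ∈ E ∧ 2 * (σ * c k) < σ * x k} :=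
    (hE.inter (isOpen_lt continuous_const hmk)).measurableSet
  have hmp : MeasurePreserving (fun x : Fin n → ℝ => (2 : ℝ) • c - x) volume volume :=
    Measure.measurePreserving_sub_left volume ((2 : ℝ) • c)
  have h1 : volume {x | x ∈ E ∧ σ * x k < 0} =
      volume {x | x ∈ E ∧ 2 * (σ * c k) < σ * x k} := by
    rw [← hmp.measure_preimage hA.nullMeasurableSet]
    congr 1
    ext x
    have e1 : σ * ((2 : ℝ) • c - x) k = 2 * (σ * c k) - σ * x k := by
      rw [Pi.sub_apply, Pi.smul_apply, smul_eq_mul]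
      ring
    constructor
    · rintro ⟨h2, h3⟩
      have h4 := hs _ h2
      rw [sub_sub_cancel] at h4
      refine ⟨h4, ?_⟩
      rw [e1] at h3
      linarith
    · rintro ⟨h2, h3⟩
      refine ⟨hs x h2, ?_⟩
      change σ * ((2 : ℝ) • c - x) k < 0
      rw [e1]
      linarith
  have hfin : volume {x | x ∈ E ∧ σ * x k < 0} ≠ ⊤ :=
    ne_top_of_le_ne_top hV (measure_mono fun x hx => hx.1)
  have hpos : volume {x | x ∈ E ∧ (0 < σ * x k ∧ σ * x k < 2 * (σ * c k))} ≠ 0 :=
    (hB.measure_pos volume ⟨c, hc, hσ, by linarith⟩).ne'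
  have hdis : Disjoint {x | x ∈ E ∧ 2 * (σ * c k) < σ * x k}
      {x | x ∈ E ∧ (0 < σ * x k ∧ σ * x k < 2 * (σ * c k))} := by
    rw [Set.disjoint_left]
    rintro x ⟨-, h2⟩ ⟨-, -, h3⟩
    linarith
  calc volume {x | x ∈ E ∧ σ * x k < 0}
      < volume {x | x ∈ E ∧ σ * x k < 0} +
        volume {x | x ∈ E ∧ (0 < σ * x k ∧ σ * x k < 2 * (σ * c k))} :=
        ENNReal.lt_add_right hfin hpos
    _ = volume ({x | x ∈ E ∧ 2 * (σ * c k) < σ * x k} ∪
        {x | x ∈ E ∧ (0 < σ * x k ∧ σ * x k < 2 * (σ * c k))}) := by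
        rw [measure_union hdis hB.measurableSet, h1]
    _ ≤ volume {x | x ∈ E ∧ 0 < σ * x k} := by
        refine measure_mono ?_
        rintro x (⟨h2, h3⟩ | ⟨h2, h3, -⟩)
        · exact ⟨h2, by linarith⟩
        · exact ⟨h2, h3⟩

theorem equal {n : ℕ} {E : Set (Fin n → ℝ)} (hE : IsOpen E)
    (c : Fin n → ℝ) (hs : ∀ x, x ∈ E → (2 : ℝ) • c - x ∈ E) (k : Fin n)
    (h0 : c k = 0) :
    volume {x | x ∈ E ∧ x k < 0} = volume {x | x ∈ E ∧ 0 < x k} := by
  have hmk : Continuous fun x : Fin n → ℝ => x k := by fun_prop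
  have hA : MeasurableSet {x | x ∈ E ∧ x k < 0} :=
    (hE.inter (isOpen_lt hmk continuous_const)).measurableSet
  have hmp : MeasurePreserving (fun x : Fin n → ℝ => (2 : ℝ) • c - x) volume volume :=
    Measure.measurePreserving_sub_left volume ((2 : ℝ) • c)
  rw [← hmp.measure_preimage hA.nullMeasurableSet]
  congr 1
  ext x
  have e1 : ((2 : ℝ) • c - x) k = - x k := by
    rw [Pi.sub_apply, Pi.smul_apply, smul_eq_mul, h0]
    ring
  constructor
  · rintro ⟨h2, h3⟩
    have h4 := hs _ h2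
    rw [sub_sub_cancel] at h4
    refine ⟨h4, ?_⟩
    have h5 : ((2 : ℝ) • c - x) k < 0 := h3
    rw [e1] at h5
    linarith
  · rintro ⟨h2, h3⟩
    refine ⟨hs x h2, ?_⟩
    change ((2 : ℝ) • c - x) k < 0
    rw [e1]
    linarith

theorem moment {n : ℕ} {E : Set (Fin n → ℝ)} (hE : IsOpen E) (hV : volume E ≠ ⊤)
    (hB : ∃ B : ℝ, ∀ x ∈ E, ‖x‖ ≤ B)
    (c : Fin n → ℝ) (hs : ∀ x, x ∈ E → (2 : ℝ) • c - x ∈ E) (k : Fin n) :
    ∫ x in E, x k = c k * (volume E).toReal := by
  obtain ⟨B, hB⟩ := hB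
  have hmk : Continuous fun x : Fin n → ℝ => x k := by fun_prop
  have hint : IntegrableOn (fun x : Fin n → ℝ => x k) E := by
    refine Measure.integrableOn_of_bounded (M := B) hV hmk.aestronglyMeasurable ?_
    rw [ae_restrict_iff' hE.measurableSet]
    exact Filter.Eventually.of_forall fun x hx => (norm_le_pi_norm x k).trans (hB x hx)
  have hmp : MeasurePreserving (fun x : Fin n → ℝ => (2 : ℝ) • c - x) volume volume :=
    Measure.measurePreserving_sub_left volume ((2 : ℝ) • c)
  have hme : MeasurableEmbedding (fun x : Fin n → ℝ => (2 : ℝ) • c - x) :=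
    (MeasurableEquiv.subLeft ((2 : ℝ) • c)).measurableEmbedding
  have h1 := hmp.setIntegral_preimage_emb hme (fun x : Fin n → ℝ => x k) E
  have h2 : (fun x : Fin n → ℝ => (2 : ℝ) • c - x) ⁻¹' E = E := by
    ext x
    constructor
    · intro h
      have h4 := hs _ h
      rw [sub_sub_cancel] at h4
      exact h4
    · intro h
      exact hs x h
  rw [h2] at h1
  have h3 : ∀ x : Fin n → ℝ, ((2 : ℝ) • c - x) k = 2 * c k - x k := by
    intro x
    rw [Pi.sub_apply, Pi.smul_apply, smul_eq_mul]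
  simp only [h3] at h1
  have hconst : IntegrableOn (fun _ : Fin n → ℝ => 2 * c k) E := integrableOn_const hV
  rw [integral_sub hconst.integrable hint.integrable, setIntegral_const, smul_eq_mul] at h1
  have h4 : volume.real E = (volume E).toReal := rfl
  rw [h4] at h1
  linarith

/-! ### The region of an ellipsoid in triangular form -/

theorem ext_apply {n : ℕ} (x : Fin n → ℝ) (i : ℕ) (h : i < n) : ext x i = x ⟨i, h⟩ := dif_pos h

theorem bounded {n : ℕ} {F : Poly} {r : Coef} {ds : List (Coef × Poly)} (h : IsPos n F r ds) :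
    ∃ B : ℝ, ∀ x ∈ {x : Fin n → ℝ | 0 < pev (ext x) F}, ‖x‖ ≤ B := by
  obtain ⟨-, hr, hd, hp, hv⟩ := h
  have key : ∀ i ≤ n, ∃ B : ℝ, 0 ≤ B ∧ ∀ x : Fin n → ℝ, 0 < pev (ext x) F →
      ∀ j < i, |ext x j| ≤ B := by
    intro i
    induction i with
    | zero => intro _; exact ⟨0, le_rfl, fun x _ j hj => absurd hj (Nat.not_lt_zero _)⟩
    | succ i ih =>
      intro hi
      obtain ⟨B, hB0, hB⟩ := ih (by omega)
      have hdi := hd i (by omega)
      obtain ⟨M, hM⟩ := (isCompact_closedBall (0 : Fin i → ℝ) B).exists_bound_of_continuousOn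
        (f := fun y : Fin i → ℝ => pev (ext y) (ent ds i).2) (TTri.cont_pev i _).continuousOn
      refine ⟨max B (√(cv r / cv (ent ds i).1) + M), le_max_of_le_left hB0, fun x hx j hj => ?_⟩
      rcases Nat.lt_succ_iff_lt_or_eq.1 hj with hj | rfl
      · exact (hB x hx j hj).trans (le_max_left _ _)
      · refine le_trans ?_ (le_max_right _ _)
        have h1 : cv (ent ds j).1 * (ext x j + pev (ext x) (ent ds j).2) ^ 2 ≤ cv r := by
          have h2 : cv (ent ds j).1 * (ext x j + pev (ext x) (ent ds j).2) ^ 2 ≤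
              ∑ i ∈ Finset.range n, cv (ent ds i).1 * (ext x i + pev (ext x) (ent ds i).2) ^ 2 :=
            Finset.single_le_sum (f := fun i => cv (ent ds i).1 *
              (ext x i + pev (ext x) (ent ds i).2) ^ 2)
              (fun i hi => mul_nonneg (hd i (Finset.mem_range.1 hi)).le (sq_nonneg _))
              (Finset.mem_range.2 (by omega))
          rw [hv] at hx
          linarith
        have h3 : |ext x j + pev (ext x) (ent ds j).2| ≤ √(cv r / cv (ent ds j).1) := by
          refine Real.abs_le_sqrt ?_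
          rw [le_div_iff₀ hdi]
          linarith
        have h4 : pev (ext x) (ent ds j).2 =
            pev (ext fun i : Fin j => ext x i) (ent ds j).2 := by
          refine pev_congr j _ (hp j (by omega)) _ _ fun i hi => ?_
          rw [ext_apply (fun i : Fin j => ext x i) i hi]
        have h5 : |pev (ext x) (ent ds j).2| ≤ M := by
          rw [h4]
          refine hM _ ?_
          rw [mem_closedBall_zero_iff, pi_norm_le_iff_of_nonneg hB0]
          intro i
          exact hB x hx i i.2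
        have h6 : |ext x j| ≤ |ext x j + pev (ext x) (ent ds j).2| +
            |pev (ext x) (ent ds j).2| := by
          have := abs_sub (ext x j + pev (ext x) (ent ds j).2) (pev (ext x) (ent ds j).2)
          rwa [add_sub_cancel_right] at this
        linarith
  obtain ⟨B, hB0, hB⟩ := key n le_rfl
  refine ⟨B, fun x hx => ?_⟩
  rw [pi_norm_le_iff_of_nonneg hB0]
  intro i
  have := hB x hx i i.2
  rwa [ext_apply x i i.2] at this

theorem main_pos (n k : ℕ) (F : Poly) (hk : k < n) (hF : IsPoly n F) (hF2 : Deg 2 F)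
    (r : Coef) (ds : List (Coef × Poly)) (h : IsPos n F r ds)
    (hV : volume {x : Fin n → ℝ | 0 < pev (ext x) F} ≠ ⊤) :
    (∫ x in {x : Fin n → ℝ | 0 < pev (ext x) F}, ext x k ≤ 0 ↔
      volume {x : Fin n → ℝ | 0 < pev (ext x) F ∧ 0 < ext x k} ≤
        volume {x : Fin n → ℝ | 0 < pev (ext x) F ∧ ext x k < 0}) ∧
    (0 ≤ ∫ x in {x : Fin n → ℝ | 0 < pev (ext x) F}, ext x k ↔
      volume {x : Fin n → ℝ | 0 < pev (ext x) F ∧ ext x k < 0} ≤
        volume {x : Fin n → ℝ | 0 < pev (ext x) F ∧ 0 < ext x k}) := by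
  have hb := bounded h
  obtain ⟨-, hr, hd, hp, hv⟩ := h
  obtain ⟨X, hX⟩ := TTri.exists_pt hp n le_rfl
  obtain ⟨c, hc⟩ : ∃ c : Fin n → ℝ, c = fun i : Fin n => X (i : ℕ) := ⟨_, rfl⟩
  have hcX : pev (ext c) F = pev X F := by
    refine pev_congr n F hF _ _ fun i hi => ?_
    rw [ext_apply c i hi, hc]
  have hXr : pev X F = cv r := by
    rw [hv, Finset.sum_eq_zero, sub_zero]
    intro i hi
    rw [hX i (Finset.mem_range.1 hi)]
    ring
  have hmax : ∀ Y, pev Y F ≤ pev (ext c) F := by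
    intro Y
    rw [hcX, hXr, hv]
    have : 0 ≤ ∑ i ∈ Finset.range n, cv (ent ds i).1 * (Y i + pev Y (ent ds i).2) ^ 2 :=
      Finset.sum_nonneg fun i hi => mul_nonneg (hd i (Finset.mem_range.1 hi)).le (sq_nonneg _)
    linarith
  obtain ⟨E, hEd⟩ : ∃ E : Set (Fin n → ℝ), E = {x : Fin n → ℝ | 0 < pev (ext x) F} := ⟨_, rfl⟩
  have hE : IsOpen E := by
    rw [hEd]
    exact isOpen_lt continuous_const (TTri.cont_pev n F)
  have hcE : c ∈ E := by
    rw [hEd]
    change 0 < pev (ext c) F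
    rw [hcX, hXr]
    exact hr
  have hs : ∀ x, x ∈ E → (2 : ℝ) • c - x ∈ E := by
    intro x hx
    rw [hEd] at hx ⊢
    change 0 < pev (ext ((2 : ℝ) • c - x)) F
    have h1 := sym_of_max F hF2 (ext c) (fun i => ext x i - ext c i) hmax
    have e1 : (fun i => ext c i + (ext x i - ext c i)) = ext x := by
      funext i
      ring
    have e2 : pev (ext ((2 : ℝ) • c - x)) F =
        pev (fun i => ext c i - (ext x i - ext c i)) F := by
      refine pev_congr n F hF _ _ fun i hi => ?_
      rw [ext_apply _ i hi, ext_apply _ i hi, ext_apply _ i hi, Pi.sub_apply, Pi.smul_apply,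
        smul_eq_mul]
      ring
    rw [e1] at h1
    rw [e2, ← h1]
    exact hx
  rw [← hEd] at hV hb
  have hmom := moment hE hV hb c hs ⟨k, hk⟩
  have hVpos : 0 < (volume E).toReal :=
    ENNReal.toReal_pos (hE.measure_pos volume ⟨c, hcE⟩).ne' hV
  have ek : ∀ x : Fin n → ℝ, ext x k = x ⟨k, hk⟩ := fun x => ext_apply x k hk
  have eE : ∀ x : Fin n → ℝ, 0 < pev (ext x) F ↔ x ∈ E := by
    intro x
    rw [hEd]
    rfl
  simp only [ek, eE, Set.ofPred_mem_eq]
  rw [hmom]
  rcases lt_trichotomy (c ⟨k, hk⟩) 0 with h0 | h0 | h0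
  · have h1 := strict hE hV c hcE hs ⟨k, hk⟩ (-1) (by linarith)
    have e1 : ∀ x : Fin n → ℝ, (-1 * x ⟨k, hk⟩ < 0 ↔ 0 < x ⟨k, hk⟩) := fun x => by
      constructor <;> intro h <;> linarith
    have e2 : ∀ x : Fin n → ℝ, (0 < -1 * x ⟨k, hk⟩ ↔ x ⟨k, hk⟩ < 0) := fun x => by
      constructor <;> intro h <;> linarith
    simp only [e1, e2] at h1
    have h2 : c ⟨k, hk⟩ * (volume E).toReal < 0 := mul_neg_of_neg_of_pos h0 hVpos
    exact ⟨iff_of_true h2.le h1.le, iff_of_false (not_le.2 h2) (not_le.2 h1)⟩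
  · have h1 := equal hE c hs ⟨k, hk⟩ h0
    rw [h0, zero_mul]
    exact ⟨iff_of_true le_rfl h1.ge, iff_of_true le_rfl h1.le⟩
  · have h1 := strict hE hV c hcE hs ⟨k, hk⟩ 1 (by linarith)
    simp only [one_mul] at h1
    have h2 : 0 < c ⟨k, hk⟩ * (volume E).toReal := mul_pos h0 hVpos
    exact ⟨iff_of_false (not_le.2 h2) (not_le.2 h1), iff_of_true h2.le h1.le⟩

end UHalf

open UHalf in
/-- **A hyperplane and an ellipsoid: halves and first moment.** -/
theorem t_half3 : S_half3 := by
  intro n k F hk hF hF3 hV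
  have hlow := t_cub n F hF hF3 hV
  have hP : IsPoly n (low F) := fun m hm => hF m (List.mem_of_mem_filter hm)
  have hD : Deg 2 (low F) := by
    intro m hm
    have h1 := (List.mem_filter.1 hm).2
    simpa using h1
  simp only [hlow] at hV ⊢
  rcases t_tri n (low F) hP hD with ⟨r, ds, h⟩ | ⟨e, ds, he, hds, hv⟩ | ⟨ε, hε, hv⟩
  · exact main_pos n k (low F) hk hP hD r ds h hV
  · have hneg : ∀ X : ℕ → ℝ, ¬ 0 < pev X (low F) := by
      intro X
      rw [hv, not_lt]
      have : 0 ≤ (ds.map fun p => cv p.1 * pev X p.2 ^ 2).sum := by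
        refine List.sum_nonneg fun y hy => ?_
        obtain ⟨p, hp, rfl⟩ := List.mem_map.1 hy
        exact mul_nonneg (hds p hp).1 (sq_nonneg _)
      linarith
    simp only [hneg, false_and]
    simp
  · exfalso
    refine hV (measure_mono_top (fun x hx => ?_) hv)
    have h1 : ε < pev (ext x) (low F) := hx
    exact lt_trans hε h1

end Pool.Agent.H652.PV
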