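import Pool.Agent.H652.PV.Stm

/-!
# The values of the operations with polynomials
-/

set_option autoImplicit false
set_option synthInstance.maxSize 2000

namespace Pool.Agent.H652.PV

open Pool.Agent.TH960.PE MeasureTheory

lemma cv_cadd (a b : Coef) : cv (cadd a b) = cv a + cv b := by
  unfold cv cadd
  have h1 : (a.2.2 : ℝ) + 1 ≠ 0 := by positivity
  have h2 : (b.2.2 : ℝ) + 1 ≠ 0 := by positivity
  have h3 : ((a.2.2 * b.2.2 + a.2.2 + b.2.2 : ℕ) : ℝ) + 1 =
      ((a.2.2 : ℝ) + 1) * ((b.2.2 : ℝ) + 1) := by push_cast; ring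
  rw [h3]
  push_cast
  field_simp
  ring

lemma mev_eq_prod (e : List ℕ) : ∀ (N : ℕ), e.length ≤ N → ∀ X : ℕ → ℝ,
    mev X e = ∏ i ∈ Finset.range N, X i ^ e.getD i 0 := by
  induction e with
  | nil => intro N _ X; simp [mev]
  | cons a e ih =>
    intro N hN X
    obtain ⟨M, rfl⟩ : ∃ M, N = M + 1 := ⟨N - 1, by simp at hN; omega⟩
    rw [Finset.prod_range_succ', mev, ih M (by simpa using hN), mul_comm]
    simp

lemma getD_ladd (e e' : List ℕ) (i : ℕ) : (ladd e e').getD i 0 = e.getD i 0 + e'.getD i 0 := by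
  unfold ladd
  by_cases hi : i < max e.length e'.length
  · rw [List.getD_eq_getElem _ _ (by simpa using hi)]
    simp
  · have h1 : e.length ≤ i := by omega
    have h2 : e'.length ≤ i := by omega
    rw [List.getD_eq_default _ _ (by simpa using ⟨h1, h2⟩), List.getD_eq_default _ _ h1,
      List.getD_eq_default _ _ h2]

lemma length_ladd (e e' : List ℕ) : (ladd e e').length = max e.length e'.length := by
  simp [ladd]

lemma mev_ladd (X : ℕ → ℝ) (e e' : List ℕ) : mev X (ladd e e') = mev X e * mev X e' := by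
  set N := max e.length e'.length with hN
  rw [mev_eq_prod _ N (by rw [length_ladd]), mev_eq_prod e N (le_max_left _ _),
    mev_eq_prod e' N (le_max_right _ _), ← Finset.prod_mul_distrib]
  refine Finset.prod_congr rfl fun i _ => ?_
  rw [getD_ladd, pow_add]

lemma pev_map_mulM (X : ℕ → ℝ) (a : Mono) (B : Poly) :
    pev X (B.map fun b => mulM a b) = cv a.1 * mev X a.2 * pev X B := by
  induction B with
  | nil => simp [pev]
  | cons b B ih =>
    rw [List.map_cons, pev_cons, ih, pev_cons]
    simp only [mulM]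
    rw [cv_cmul, mev_ladd]
    ring

lemma pev_mulS (X : ℕ → ℝ) (A B : Poly) : pev X (mulS A B) = pev X A * pev X B := by
  induction A with
  | nil => simp [mulS, pev]
  | cons a A ih =>
    have h : mulS (a :: A) B = (B.map fun b => mulM a b) ++ mulS A B := by
      simp [mulS]
    rw [h, pev_append, pev_map_mulM, ih, pev_cons]
    ring

lemma pev_negP (X : ℕ → ℝ) (A : Poly) : pev X (negP A) = - pev X A := by
  induction A with
  | nil => simp [negP, pev]
  | cons a A ih =>
    have h : negP (a :: A) = ((a.1.2.1, a.1.1, a.1.2.2), a.2) :: negP A := rfl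
    rw [h, pev_cons, ih, pev_cons]
    have h2 : cv (a.1.2.1, a.1.1, a.1.2.2) = - cv a.1 := by
      unfold cv
      ring
    rw [h2]
    ring

lemma pev_subP (X : ℕ → ℝ) (A B : Poly) : pev X (subP A B) = pev X A - pev X B := by
  rw [subP, pev_append, pev_negP]
  ring

lemma pev_sqP (X : ℕ → ℝ) (A : Poly) : pev X (sqP A) = pev X A ^ 2 := by
  rw [sqP, pev_mulS, sq]

lemma pev_varP (X : ℕ → ℝ) (i : ℕ) : pev X (varP i) = X i := by
  rw [varP, pev_cons]
  simp only [mev_append, mev_replicate]
  simp [pev, cv, mev]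

lemma pev_natP (X : ℕ → ℝ) (a : ℕ) : pev X (natP a) = a := by
  simp [natP, pev, cv, mev]

lemma pev_gadP (X : ℕ → ℝ) (N : ℕ) (A B : Poly) : pev X (gadP N A B) =
    gad (pev X A) (pev X B) (X N) (X (N + 1)) (X (N + 2)) := by
  simp only [gadP, pev_subP, pev_mulS, pev_sqP, pev_varP, pev_natP, gad]
  push_cast
  ring

lemma isPoly_mono {m n : ℕ} (h : m ≤ n) {A : Poly} (hA : IsPoly m A) : IsPoly n A :=
  fun x hx => (hA x hx).trans h

lemma isPoly_mulS {n : ℕ} {A B : Poly} (hA : IsPoly n A) (hB : IsPoly n B) :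
    IsPoly n (mulS A B) := by
  intro m hm
  obtain ⟨a, ha, h1⟩ := List.mem_flatMap.1 hm
  obtain ⟨b, hb, rfl⟩ := List.mem_map.1 h1
  simp only [mulM, length_ladd]
  exact max_le (hA a ha) (hB b hb)

lemma isPoly_negP {n : ℕ} {A : Poly} (hA : IsPoly n A) : IsPoly n (negP A) := by
  intro m hm
  obtain ⟨a, ha, rfl⟩ := List.mem_map.1 hm
  exact hA a ha

lemma isPoly_subP {n : ℕ} {A B : Poly} (hA : IsPoly n A) (hB : IsPoly n B) :
    IsPoly n (subP A B) := by
  intro m hm
  rcases List.mem_append.1 hm with h | h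
  · exact hA m h
  · exact isPoly_negP hB m h

lemma isPoly_sqP {n : ℕ} {A : Poly} (hA : IsPoly n A) : IsPoly n (sqP A) := isPoly_mulS hA hA

lemma isPoly_varP {n i : ℕ} (h : i < n) : IsPoly n (varP i) := by
  intro m hm
  simp only [varP, List.mem_singleton] at hm
  subst hm
  simp
  omega

lemma isPoly_natP (n a : ℕ) : IsPoly n (natP a) := by
  intro m hm
  simp only [natP, List.mem_singleton] at hm
  subst hm
  simp

lemma isPoly_gadP {N : ℕ} {A B : Poly} (hA : IsPoly N A) (hB : IsPoly N B) :
    IsPoly (N + 3) (gadP N A B) := by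
  have a := isPoly_mono (Nat.le_add_right N 3) hA
  have b := isPoly_mono (Nat.le_add_right N 3) hB
  have s : IsPoly (N + 3) (varP N) := isPoly_varP (by omega)
  have w : IsPoly (N + 3) (varP (N + 1)) := isPoly_varP (by omega)
  have r : IsPoly (N + 3) (varP (N + 2)) := isPoly_varP (by omega)
  have P := isPoly_mulS a b
  have u := isPoly_subP a (isPoly_sqP s)
  have v := isPoly_subP b (isPoly_sqP w)
  exact isPoly_subP
    (isPoly_mulS (isPoly_natP _ _) (isPoly_mulS (isPoly_sqP (isPoly_mulS s u))
      (isPoly_mulS (isPoly_sqP (isPoly_mulS w v))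
        (isPoly_subP (isPoly_subP (isPoly_sqP P) (isPoly_sqP (isPoly_mulS u b)))
          (isPoly_sqP (isPoly_mulS v a))))))
    (isPoly_mulS (isPoly_natP _ _) (isPoly_mulS (isPoly_mulS (isPoly_sqP P)
      (isPoly_sqP (isPoly_sqP P))) (isPoly_sqP r)))

lemma measurable_mev (e : List ℕ) : Measurable fun X : ℕ → ℝ => mev X e := by
  have h : (fun X : ℕ → ℝ => mev X e) =
      fun X : ℕ → ℝ => ∏ i ∈ Finset.range e.length, X i ^ e.getD i 0 := by
    funext X
    exact mev_eq_prod e e.length le_rfl X
  rw [h]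
  exact Finset.measurable_prod _ fun i _ => (measurable_pi_apply i).pow_const _

lemma measurable_pev (P : Poly) : Measurable fun X : ℕ → ℝ => pev X P := by
  induction P with
  | nil => simp only [pev, List.map_nil, List.sum_nil]; exact measurable_const
  | cons a P ih =>
    simp only [pev_cons]
    exact ((measurable_mev a.2).const_mul _).add ih

lemma measurable_ext (n : ℕ) : Measurable fun x : Fin n → ℝ => ext x := by
  refine measurable_pi_lambda _ fun i => ?_
  by_cases h : i < n
  · simp only [ext, h, dif_pos]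
    exact measurable_pi_apply _
  · simp only [ext, h, dif_neg, not_false_iff]
    exact measurable_const

end Pool.Agent.H652.PV
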