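import Pool.Agent.H652.PV.Udefs
import Pool.Agent.H652.PV.Val
import Pool.Agent.H652.PV.PrimT

/-!
# The inverse of a triangular substitution (by helper120)
-/

set_option autoImplicit false
set_option synthInstance.maxSize 2000

namespace Pool.Agent.H652.PV

open Pool.Agent.TH960.PE MeasureTheory

namespace UInv

theorem invP_snoc (ds : List (Coef × Poly)) (p : Coef × Poly) :
    invP (ds ++ [p]) = invP ds ++ [subP (varP (invP ds).length) (cmpP (invP ds) p.2)] := by
  unfold invP
  rw [List.foldl_append]
  rfl

theorem length_invP (ds : List (Coef × Poly)) : (invP ds).length = ds.length := by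
  induction ds using List.reverseRecOn with
  | nil => rfl
  | append_singleton ds p ih =>
    rw [invP_snoc, List.length_append, List.length_append, ih]
    rfl

theorem getD_old {α : Type*} (l : List α) (a d : α) (i : ℕ) (hi : i < l.length) :
    (l ++ [a]).getD i d = l.getD i d := List.getD_append _ _ _ _ hi

theorem getD_new {α : Type*} (l : List α) (a d : α) : (l ++ [a]).getD l.length d = a := by
  rw [List.getD_append_right _ _ _ _ le_rfl, Nat.sub_self]
  rfl

theorem ent_old (ds : List (Coef × Poly)) (p : Coef × Poly) (i : ℕ) (hi : i < ds.length) :
    ent (ds ++ [p]) i = ent ds i := getD_old _ _ _ _ hi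

theorem ent_new (ds : List (Coef × Poly)) (p : Coef × Poly) :
    ent (ds ++ [p]) ds.length = p := getD_new _ _ _

end UInv

open UInv

theorem t_invP (h : S_cmpP) : S_invP := by
  obtain ⟨hc1, hc2, hc3⟩ := h
  refine ⟨length_invP, ?_, ?_, ?_⟩
  · intro ds
    induction ds using List.reverseRecOn with
    | nil => intro i hi; exact absurd hi (Nat.not_lt_zero _)
    | append_singleton ds p ih =>
      intro i hi
      have hl := length_invP ds
      rw [List.length_append] at hi
      rcases Nat.lt_or_ge i ds.length with h1 | h1
      · rw [invP_snoc, getD_old _ _ _ _ (by rw [hl]; exact h1)]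
        exact ih i h1
      · have h2 : i = (invP ds).length := by
          rw [hl]
          simp only [List.length_cons, List.length_nil] at hi
          omega
        rw [invP_snoc, h2, getD_new]
        refine isPoly_subP (isPoly_varP (by omega)) (isPoly_mono (Nat.le_succ _) (hc2 _ _ _ ?_))
        intro A hA
        obtain ⟨j, hj, rfl⟩ := List.mem_iff_getElem.1 hA
        have h3 := ih j (by rw [← hl]; exact hj)
        rw [List.getD_eq_getElem _ _ hj] at h3
        exact isPoly_mono hj h3
  · intro ds Z
    induction ds using List.reverseRecOn with
    | nil => intro _ i hi; exact absurd hi (Nat.not_lt_zero _)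
    | append_singleton ds p ih =>
      intro hP i hi
      have hl := length_invP ds
      rw [List.length_append] at hi
      have hlen : (ds ++ [p]).length = ds.length + 1 := by
        rw [List.length_append]
        rfl
      have hP' : ∀ i < ds.length, IsPoly i (ent ds i).2 := by
        intro j hj
        have h1 := hP j (by rw [hlen]; omega)
        rwa [ent_old _ _ _ hj] at h1
      have hold : ∀ j < ds.length, (invP (ds ++ [p])).getD j [] = (invP ds).getD j [] := by
        intro j hj
        rw [invP_snoc, getD_old _ _ _ _ (by rw [hl]; exact hj)]
      rcases Nat.lt_or_ge i ds.length with h1 | h1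
      · rw [hold i h1, ent_old _ _ _ h1]
        rw [pev_congr i _ (hP' i h1) (fun j => pev Z ((invP (ds ++ [p])).getD j []))
          (fun j => pev Z ((invP ds).getD j [])) (fun j hj => by rw [hold j (by omega)])]
        exact ih hP' i h1
      · have h2 : i = ds.length := by
          simp only [List.length_cons, List.length_nil] at hi
          omega
        subst h2
        have hp : IsPoly ds.length p.2 := by
          have h3 := hP ds.length (by rw [hlen]; omega)
          rwa [ent_new] at h3
        rw [ent_new]
        rw [pev_congr ds.length _ hp (fun j => pev Z ((invP (ds ++ [p])).getD j []))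
          (fun j => pev Z ((invP ds).getD j [])) (fun j hj => by rw [hold j hj])]
        have h4 : (invP (ds ++ [p])).getD ds.length [] =
            subP (varP (invP ds).length) (cmpP (invP ds) p.2) := by
          rw [invP_snoc, ← hl, getD_new]
        rw [h4, pev_subP, pev_varP, hc1, hl]
        ring
  · have h3 : Primrec fun q : List Poly × (Coef × Poly) =>
        q.1 ++ [subP (varP q.1.length) (cmpP q.1 q.2.2)] := by
      have a1 : Primrec fun q : List Poly × (Coef × Poly) => q.1 := Primrec.fst
      have a2 : Primrec fun q : List Poly × (Coef × Poly) => q.2.2 :=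
        Primrec.snd.comp Primrec.snd
      have a3 : Primrec fun q : List Poly × (Coef × Poly) => cmpP q.1 q.2.2 :=
        hc3.comp (Primrec.pair a1 a2)
      have a4 : Primrec fun q : List Poly × (Coef × Poly) => varP q.1.length :=
        PrimT.varP_p (Primrec.list_length.comp a1)
      exact Primrec.list_append.comp a1
        (Primrec.list_cons.comp (PrimT.subP_p a4 a3) (Primrec.const ([] : List Poly)))
    have h5 : Primrec₂ fun (_ : List (Coef × Poly)) (q : List Poly × (Coef × Poly)) =>
        q.1 ++ [subP (varP q.1.length) (cmpP q.1 q.2.2)] := h3.comp₂ Primrec₂.right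
    exact Primrec.list_foldl (Primrec.id (α := List (Coef × Poly)))
      (Primrec.const ([] : List Poly)) h5

end Pool.Agent.H652.PV
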