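import Pool.Agent.H652.PV.Udefs

/-! Project h652, part U5: values of rational numbers coded by triples (helper539). -/

set_option autoImplicit false
set_option synthInstance.maxSize 2000

namespace Pool.Agent.H652.PV

open Pool.Agent.TH960.PE MeasureTheory

namespace UKeyC

theorem cv_cmul' (a b : Coef) : cv (cmul a b) = cv a * cv b := by
  unfold cv cmul
  rw [div_mul_div_comm]
  push_cast
  congr 1 <;> ring

theorem cv_cadd' (a b : Coef) : cv (cadd a b) = cv a + cv b := by
  unfold cv cadd
  rw [div_add_div _ _ (by positivity) (by positivity)]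
  push_cast
  congr 1 <;> ring

theorem cv_one : cv (1, 0, 0) = 1 := by
  unfold cv
  norm_num

theorem cv_zero : cv (0, 0, 0) = 0 := by
  unfold cv
  norm_num

theorem cv_nat (k : ℕ) : cv (k, 0, 0) = k := by
  unfold cv
  norm_num

theorem cv_inv_nat (k : ℕ) (hk : 0 < k) : cv (1, 0, k - 1) = 1 / k := by
  unfold cv
  obtain ⟨m, rfl⟩ := Nat.exists_eq_succ_of_ne_zero hk.ne'
  simp

theorem cv_cinv {a : Coef} (ha : 0 < cv a) : cv (cinv a) = 1 / cv a := by
  unfold cv at ha
  have h1 : (a.2.1 : ℝ) < a.1 := by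
    by_contra hcon
    rw [not_lt] at hcon
    have h2 : ((a.1 : ℝ) - a.2.1) / ((a.2.2 : ℝ) + 1) ≤ 0 :=
      div_nonpos_of_nonpos_of_nonneg (by linarith) (by positivity)
    linarith
  have h2 : a.2.1 < a.1 := by exact_mod_cast h1
  unfold cinv cv
  rw [one_div_div]
  have h3 : ((a.1 - a.2.1 - 1 : ℕ) : ℝ) + 1 = a.1 - a.2.1 := by
    obtain ⟨m, hm⟩ := Nat.exists_eq_add_of_lt h2
    have h4 : a.1 - a.2.1 - 1 = m := by omega
    rw [h4, hm]
    push_cast
    ring
  show (((a.2.2 + 1 : ℕ) : ℝ) - ((0 : ℕ) : ℝ)) / (((a.1 - a.2.1 - 1 : ℕ) : ℝ) + 1) = _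
  rw [h3]
  push_cast
  rw [sub_zero]

theorem cv_cpo (a : Coef) (k : ℕ) : cv (cpo a k) = cv a ^ k := by
  induction k with
  | zero => rw [cpo, cv_one, pow_zero]
  | succ k ih => rw [cpo, cv_cmul', ih, pow_succ, mul_comm]

theorem cv_foldr' (g : ℕ → Coef) (l : List ℕ) :
    cv (l.foldr (fun i s => cmul (g i) s) (1, 0, 0)) = (l.map fun i => cv (g i)).prod := by
  induction l with
  | nil => rw [List.foldr_nil, cv_one, List.map_nil, List.prod_nil]
  | cons i l ih => rw [List.foldr_cons, cv_cmul', ih, List.map_cons, List.prod_cons]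

theorem prod_range_map' {M : Type} [CommMonoid M] (f : ℕ → M) (n : ℕ) :
    ((List.range n).map f).prod = ∏ i ∈ Finset.range n, f i := by
  induction n with
  | zero => rw [List.range_zero, List.map_nil, List.prod_nil, Finset.range_zero, Finset.prod_empty]
  | succ n ih =>
    rw [List.range_succ, List.map_append, List.prod_append, ih, Finset.prod_range_succ,
      List.map_cons, List.map_nil, List.prod_cons, List.prod_nil, mul_one]

theorem foldr_nat (g : ℕ → ℕ) (l : List ℕ) :
    l.foldr (fun i s => g i * s) 1 = (l.map g).prod := by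
  induction l with
  | nil => rfl
  | cons i l ih => rw [List.foldr_cons, ih, List.map_cons, List.prod_cons]

theorem dfa_eq (a : ℕ) (ha : a % 2 = 0) : dfa a = Nat.doubleFactorial (a - 1) := by
  obtain ⟨m, rfl⟩ : ∃ m, a = 2 * m := ⟨a / 2, by omega⟩
  unfold dfa
  rw [foldr_nat (fun i => 2 * i + 1), prod_range_map', Nat.mul_div_cancel_left _ (by norm_num)]
  induction m with
  | zero => rfl
  | succ m ih =>
    rw [Finset.prod_range_succ, ih (by omega)]
    rcases m with _ | k
    · rfl
    · have h1 : 2 * (k + 1 + 1) - 1 = (2 * (k + 1) - 1) + 2 := by omega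
      rw [h1, Nat.doubleFactorial_add_two]
      have h2 : 2 * (k + 1) - 1 + 2 = 2 * (k + 1) + 1 := by omega
      rw [h2, mul_comm]

theorem qC_eq (n : ℕ) (r : Coef) (ds : List (Coef × Poly)) (e : List ℕ)
    (hd : ∀ i < n, 0 < cv (ent ds i).1) :
    cv (qC n r ds e) = qR n (cv r) (fun i => cv (ent ds i).1) e := by
  unfold qC qR
  by_cases he : (e.all fun a => a % 2 == 0) = true
  · rw [if_pos he, if_pos he]
    have heven : ∀ i, e.getD i 0 % 2 = 0 := by
      intro i
      by_cases hi : i < e.length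
      · rw [List.getD_eq_getElem _ _ hi]
        rw [List.all_eq_true] at he
        exact beq_iff_eq.1 (he _ (List.getElem_mem hi))
      · rw [List.getD_eq_default _ _ (by omega)]
    rw [cv_cmul', cv_cmul', cv_cpo, cv_foldr' (fun i => cmul (dfa (e.getD i 0), 0, 0)
      (cpo (cinv (ent ds i).1) (e.getD i 0 / 2))), prod_range_map',
      foldr_nat (fun k => n + 2 + 2 * k), prod_range_map', cv_inv_nat _
        (Finset.prod_pos fun k _ => by positivity)]
    have h1 : ∀ i ∈ Finset.range n, cv (cmul (dfa (e.getD i 0), 0, 0)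
        (cpo (cinv (ent ds i).1) (e.getD i 0 / 2))) =
        ((Nat.doubleFactorial (e.getD i 0 - 1) : ℕ) : ℝ) *
          (1 / cv (ent ds i).1) ^ (e.getD i 0 / 2) := by
      intro i hi
      rw [Finset.mem_range] at hi
      rw [cv_cmul', cv_nat, cv_cpo, cv_cinv (hd i hi), dfa_eq _ (heven i)]
    rw [Finset.prod_congr rfl h1]
    push_cast
    rw [mul_div_assoc, mul_one_div]
  · rw [if_neg he, if_neg he, cv_zero]

end UKeyC

open UKeyC

/-- **U5.** -/
theorem t_keyC : S_keyC := by
  refine ⟨fun n r ds e _ hd => qC_eq n r ds e hd, fun n r ds P => ?_, fun n r ds _ hd => ?_,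
    fun a => ?_, fun a b => ?_⟩
  · unfold qS
    induction P with
    | nil => rw [List.foldr_nil, cv_zero, List.map_nil, List.sum_nil]
    | cons m P ih => rw [List.foldr_cons, cv_cadd', cv_cmul', ih, List.map_cons, List.sum_cons]
  · unfold aC
    rw [cv_cmul', cv_cpo, cv_foldr' (fun i => cinv (ent ds i).1), prod_range_map',
      Finset.prod_congr rfl fun i hi => cv_cinv (hd i (Finset.mem_range.1 hi)),
      Finset.prod_div_distrib, Finset.prod_const_one, mul_one_div]
  · unfold cabs
    split_ifs with h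
    · have h1 : (a.2.1 : ℝ) ≤ a.1 := by exact_mod_cast h
      rw [abs_of_nonneg]
      unfold cv
      exact div_nonneg (by linarith) (by positivity)
    · have h1 : (a.1 : ℝ) ≤ a.2.1 := by exact_mod_cast (not_le.1 h).le
      rw [abs_of_nonpos]
      · unfold cv
        rw [← neg_div, neg_sub]
      · unfold cv
        exact div_nonpos_of_nonpos_of_nonneg (by linarith) (by positivity)
  · unfold cle cv
    rw [decide_eq_true_iff, div_le_div_iff₀ (by positivity) (by positivity)]
    constructor
    · intro h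
      have h1 : ((a.1 * (b.2.2 + 1) + b.2.1 * (a.2.2 + 1) : ℕ) : ℝ) ≤
          ((b.1 * (a.2.2 + 1) + a.2.1 * (b.2.2 + 1) : ℕ) : ℝ) := by exact_mod_cast h
      push_cast at h1
      linarith
    · intro h
      have h1 : ((a.1 * (b.2.2 + 1) + b.2.1 * (a.2.2 + 1) : ℕ) : ℝ) ≤
          ((b.1 * (a.2.2 + 1) + a.2.1 * (b.2.2 + 1) : ℕ) : ℝ) := by
        push_cast
        linarith
      exact_mod_cast h1

end Pool.Agent.H652.PV
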