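import Pool.Agent.H652.PV.Udefs
import Pool.Agent.H652.PV.TChk

/-!
# The key is primitive recursive
-/

set_option autoImplicit false
set_option synthInstance.maxSize 2000

namespace Pool.Agent.H652.PV

open Pool.Agent.TH960.PE MeasureTheory

namespace UKeyP

open PrimT

variable {α : Type*} [Primcodable α]

theorem mk_p {f g h : α → ℕ} (hf : Primrec f) (hg : Primrec g) (hh : Primrec h) :
    Primrec fun a => ((f a, g a, h a) : Coef) :=
  Primrec.pair hf (Primrec.pair hg hh)

theorem c1 {f : α → Coef} (hf : Primrec f) : Primrec fun a => (f a).1 := Primrec.fst.comp hf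

theorem c2 {f : α → Coef} (hf : Primrec f) : Primrec fun a => (f a).2.1 :=
  Primrec.fst.comp (Primrec.snd.comp hf)

theorem c3 {f : α → Coef} (hf : Primrec f) : Primrec fun a => (f a).2.2 :=
  Primrec.snd.comp (Primrec.snd.comp hf)

theorem add_p {f g : α → ℕ} (hf : Primrec f) (hg : Primrec g) : Primrec fun a => f a + g a :=
  Primrec.nat_add.comp hf hg

theorem mul_p {f g : α → ℕ} (hf : Primrec f) (hg : Primrec g) : Primrec fun a => f a * g a :=
  Primrec.nat_mul.comp hf hg

theorem sub_p {f g : α → ℕ} (hf : Primrec f) (hg : Primrec g) : Primrec fun a => f a - g a :=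
  Primrec.nat_sub.comp hf hg

theorem half_p {f : α → ℕ} (hf : Primrec f) : Primrec fun a => f a / 2 :=
  Primrec.nat_div.comp hf (Primrec.const 2)

theorem cadd_p {f g : α → Coef} (hf : Primrec f) (hg : Primrec g) :
    Primrec fun a => cadd (f a) (g a) :=
  mk_p (add_p (mul_p (c1 hf) (add_p (c3 hg) (Primrec.const 1)))
      (mul_p (c1 hg) (add_p (c3 hf) (Primrec.const 1))))
    (add_p (mul_p (c2 hf) (add_p (c3 hg) (Primrec.const 1)))
      (mul_p (c2 hg) (add_p (c3 hf) (Primrec.const 1))))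
    (add_p (add_p (mul_p (c3 hf) (c3 hg)) (c3 hf)) (c3 hg))

theorem cinv_p {f : α → Coef} (hf : Primrec f) : Primrec fun a => cinv (f a) :=
  mk_p (add_p (c3 hf) (Primrec.const 1)) (Primrec.const 0)
    (sub_p (sub_p (c1 hf) (c2 hf)) (Primrec.const 1))

theorem cpo_eq (a : Coef) (k : ℕ) :
    (Nat.rec (motive := fun _ => Coef) ((1, 0, 0) : Coef) (fun _ s => cmul a s) k : Coef) =
      cpo a k := by
  induction k with
  | zero => rfl
  | succ k ih =>
    show cmul a _ = cmul a _
    rw [ih]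

theorem cpo_p {f : α → Coef} {k : α → ℕ} (hf : Primrec f) (hk : Primrec k) :
    Primrec fun a => cpo (f a) (k a) := by
  have h : Primrec₂ fun (a : α) (q : ℕ × Coef) => cmul (f a) q.2 := by
    have h1 : Primrec fun x : α × (ℕ × Coef) => cmul (f x.1) x.2.2 :=
      cmul_p (hf.comp Primrec.fst) (Primrec.snd.comp Primrec.snd)
    exact h1.to₂
  exact (Primrec.nat_rec' hk (Primrec.const ((1, 0, 0) : Coef)) h).of_eq fun a => cpo_eq _ _

theorem fold_p {β σ : Type*} [Primcodable β] [Primcodable σ] {f : α → List β} {g : α → σ}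
    {h : α → β → σ → σ} (hf : Primrec f) (hg : Primrec g)
    (hh : Primrec fun x : α × (β × σ) => h x.1 x.2.1 x.2.2) :
    Primrec fun a => (f a).foldr (h a) (g a) := by
  have h2 : Primrec₂ fun (a : α) (q : β × σ) => h a q.1 q.2 := hh.to₂
  exact Primrec.list_foldr hf hg h2

theorem dfa_p {f : α → ℕ} (hf : Primrec f) : Primrec fun a => dfa (f a) := by
  have hh : Primrec fun x : α × (ℕ × ℕ) => (2 * x.2.1 + 1) * x.2.2 :=
    mul_p (add_p (mul_p (Primrec.const 2) (Primrec.fst.comp Primrec.snd)) (Primrec.const 1))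
      (Primrec.snd.comp Primrec.snd)
  exact fold_p (h := fun _ i s => (2 * i + 1) * s) (Primrec.list_range.comp (half_p hf))
    (Primrec.const 1) hh

theorem sum_p {f : α → List ℕ} (hf : Primrec f) : Primrec fun a => (f a).sum := by
  have hh : Primrec fun x : α × (ℕ × ℕ) => x.2.1 + x.2.2 :=
    add_p (Primrec.fst.comp Primrec.snd) (Primrec.snd.comp Primrec.snd)
  exact (fold_p (h := fun _ i s => i + s) hf (Primrec.const 0) hh).of_eq fun a => rfl

theorem even_p {f : α → List ℕ} (hf : Primrec f) :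
    Primrec fun a => (f a).all (fun b => b % 2 == 0) := by
  have h : Primrec₂ fun (_ : α) (b : ℕ) => (b % 2 == 0) := by
    have h1 : Primrec fun x : α × ℕ => (x.2 % 2 == 0) :=
      Primrec.beq.comp (Primrec.nat_mod.comp Primrec.snd (Primrec.const 2)) (Primrec.const 0)
    exact h1.to₂
  exact TChk.all_p hf h

theorem getD_p {f : α → List ℕ} {i : α → ℕ} (hf : Primrec f) (hi : Primrec i) :
    Primrec fun a => (f a).getD (i a) 0 :=
  (Primrec.list_getD 0).comp hf hi

/-- the first product in `qC` -/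
def q1 (n : ℕ) (ds : List (Coef × Poly)) (e : List ℕ) : Coef :=
  (List.range n).foldr (fun i s =>
    cmul (cmul (dfa (e.getD i 0), 0, 0) (cpo (cinv (ent ds i).1) (e.getD i 0 / 2))) s) (1, 0, 0)

/-- the second product in `qC` -/
def q2 (n : ℕ) (e : List ℕ) : ℕ :=
  (List.range (e.sum / 2)).foldr (fun k s => (n + 2 + 2 * k) * s) 1

theorem q1_p {n : α → ℕ} {ds : α → List (Coef × Poly)} {e : α → List ℕ} (hn : Primrec n)
    (hd : Primrec ds) (he : Primrec e) : Primrec fun a => q1 (n a) (ds a) (e a) := by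
  have hi : Primrec fun x : α × (ℕ × Coef) => x.2.1 := Primrec.fst.comp Primrec.snd
  have hs : Primrec fun x : α × (ℕ × Coef) => x.2.2 := Primrec.snd.comp Primrec.snd
  have hg : Primrec fun x : α × (ℕ × Coef) => (e x.1).getD x.2.1 0 :=
    getD_p (he.comp Primrec.fst) hi
  have hc : Primrec fun x : α × (ℕ × Coef) => cinv (ent (ds x.1) x.2.1).1 :=
    cinv_p (Primrec.fst.comp (TChk.ent_p (hd.comp Primrec.fst) hi))
  have hh : Primrec fun x : α × (ℕ × Coef) =>
      cmul (cmul (dfa ((e x.1).getD x.2.1 0), 0, 0)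
        (cpo (cinv (ent (ds x.1) x.2.1).1) ((e x.1).getD x.2.1 0 / 2))) x.2.2 :=
    cmul_p (cmul_p (mk_p (dfa_p hg) (Primrec.const 0) (Primrec.const 0))
      (cpo_p hc (half_p hg))) hs
  exact fold_p (h := fun a i s =>
    cmul (cmul (dfa ((e a).getD i 0), 0, 0) (cpo (cinv (ent (ds a) i).1) ((e a).getD i 0 / 2))) s)
    (Primrec.list_range.comp hn) (Primrec.const ((1, 0, 0) : Coef)) hh

theorem q2_p {n : α → ℕ} {e : α → List ℕ} (hn : Primrec n) (he : Primrec e) :
    Primrec fun a => q2 (n a) (e a) := by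
  have hh : Primrec fun x : α × (ℕ × ℕ) => (n x.1 + 2 + 2 * x.2.1) * x.2.2 :=
    mul_p (add_p (add_p (hn.comp Primrec.fst) (Primrec.const 2))
      (mul_p (Primrec.const 2) (Primrec.fst.comp Primrec.snd))) (Primrec.snd.comp Primrec.snd)
  exact fold_p (h := fun a k s => (n a + 2 + 2 * k) * s)
    (Primrec.list_range.comp (half_p (sum_p he))) (Primrec.const 1) hh

theorem qC_eq (n : ℕ) (r : Coef) (ds : List (Coef × Poly)) (e : List ℕ) :
    (bif e.all (fun a => a % 2 == 0) then
      cmul (q1 n ds e) (cmul (cpo r (e.sum / 2)) (1, 0, q2 n e - 1)) else (0, 0, 0)) =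
      qC n r ds e := by
  unfold qC q1 q2
  rw [Bool.cond_eq_ite]

theorem qC_p {n : α → ℕ} {r : α → Coef} {ds : α → List (Coef × Poly)} {e : α → List ℕ}
    (hn : Primrec n) (hr : Primrec r) (hd : Primrec ds) (he : Primrec e) :
    Primrec fun a => qC (n a) (r a) (ds a) (e a) := by
  have h1 : Primrec fun a => cmul (q1 (n a) (ds a) (e a))
      (cmul (cpo (r a) ((e a).sum / 2)) (1, 0, q2 (n a) (e a) - 1)) :=
    cmul_p (q1_p hn hd he) (cmul_p (cpo_p hr (half_p (sum_p he)))
      (mk_p (Primrec.const 1) (Primrec.const 0) (sub_p (q2_p hn he) (Primrec.const 1))))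
  exact (Primrec.cond (even_p he) h1 (Primrec.const ((0, 0, 0) : Coef))).of_eq fun a =>
    qC_eq _ _ _ _

theorem qS_p {n : α → ℕ} {r : α → Coef} {ds : α → List (Coef × Poly)} {P : α → Poly}
    (hn : Primrec n) (hr : Primrec r) (hd : Primrec ds) (hP : Primrec P) :
    Primrec fun a => qS (n a) (r a) (ds a) (P a) := by
  have hm : Primrec fun x : α × (Mono × Coef) => x.2.1 := Primrec.fst.comp Primrec.snd
  have hh : Primrec fun x : α × (Mono × Coef) =>
      cadd (cmul x.2.1.1 (qC (n x.1) (r x.1) (ds x.1) x.2.1.2)) x.2.2 :=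
    cadd_p (cmul_p (Primrec.fst.comp hm) (qC_p (hn.comp Primrec.fst) (hr.comp Primrec.fst)
      (hd.comp Primrec.fst) (Primrec.snd.comp hm))) (Primrec.snd.comp Primrec.snd)
  exact fold_p (h := fun a (m : Mono) s => cadd (cmul m.1 (qC (n a) (r a) (ds a) m.2)) s) hP
    (Primrec.const ((0, 0, 0) : Coef)) hh

theorem aC_p {n : α → ℕ} {r : α → Coef} {ds : α → List (Coef × Poly)}
    (hn : Primrec n) (hr : Primrec r) (hd : Primrec ds) :
    Primrec fun a => aC (n a) (r a) (ds a) := by
  have hh : Primrec fun x : α × (ℕ × Coef) => cmul (cinv (ent (ds x.1) x.2.1).1) x.2.2 :=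
    cmul_p (cinv_p (Primrec.fst.comp (TChk.ent_p (hd.comp Primrec.fst)
      (Primrec.fst.comp Primrec.snd)))) (Primrec.snd.comp Primrec.snd)
  have h1 : Primrec fun a => (List.range (n a)).foldr
      (fun i s => cmul (cinv (ent (ds a) i).1) s) ((1, 0, 0) : Coef) :=
    fold_p (h := fun a i s => cmul (cinv (ent (ds a) i).1) s)
      (Primrec.list_range.comp hn) (Primrec.const ((1, 0, 0) : Coef)) hh
  exact cmul_p (cpo_p hr hn) h1

theorem cabs_p {f : α → Coef} (hf : Primrec f) : Primrec fun a => cabs (f a) :=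
  Primrec.ite (Primrec.nat_le.comp (c2 hf) (c1 hf)) hf (mk_p (c2 hf) (c1 hf) (c3 hf))

theorem keyC_p {n : α → ℕ} {r : α → Coef} {ds : α → List (Coef × Poly)} {P : α → Poly}
    (h1 : Primrec (fun p : List Poly × Poly => cmpP p.1 p.2)) (h2 : Primrec invP)
    (hn : Primrec n) (hr : Primrec r) (hd : Primrec ds) (hP : Primrec P) :
    Primrec fun a => keyC (n a) (r a) (ds a) (P a) := by
  have h3 : Primrec fun a => cmpP (invP (ds a)) (P a) :=
    h1.comp (Primrec.pair (h2.comp hd) hP)
  have h4 : Primrec fun a => qS (n a) (r a) (ds a) (cmpP (invP (ds a)) (P a)) :=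
    qS_p hn hr hd h3
  exact cmul_p (cmul_p h4 (cabs_p h4)) (aC_p hn hr hd)

theorem cle_p {f g : α → Coef} (hf : Primrec f) (hg : Primrec g) :
    Primrec fun a => cle (f a) (g a) :=
  TChk.le_p
    (add_p (mul_p (c1 hf) (add_p (c3 hg) (Primrec.const 1)))
      (mul_p (c2 hg) (add_p (c3 hf) (Primrec.const 1))))
    (add_p (mul_p (c1 hg) (add_p (c3 hf) (Primrec.const 1)))
      (mul_p (c2 hf) (add_p (c3 hg) (Primrec.const 1))))

end UKeyP

theorem t_keyP : S_keyP := by
  intro h1 h2
  refine ⟨?_, UKeyP.cle_p Primrec.fst Primrec.snd⟩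
  exact UKeyP.keyC_p h1 h2 (Primrec.fst.comp Primrec.fst) (Primrec.snd.comp Primrec.fst)
    (Primrec.fst.comp Primrec.snd) (Primrec.snd.comp Primrec.snd)

end Pool.Agent.H652.PV
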