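import Pool.Agent.H652.PV.Udefs

/-!
# Integrals of monomials over an ellipsoid (proved by helper218)
-/

set_option autoImplicit false
set_option synthInstance.maxSize 2000

namespace Pool.Agent.H652.PV

open Pool.Agent.TH960.PE MeasureTheory

namespace UMono

open Finset

/-- the even monomial -/
noncomputable def w {n : ℕ} (b : Fin n → ℕ) (z : Fin n → ℝ) : ℝ := ∏ i, z i ^ (2 * b i)

theorem w_nonneg {n : ℕ} (b : Fin n → ℕ) (z : Fin n → ℝ) : 0 ≤ w b z :=
  prod_nonneg fun i _ => by rw [pow_mul]; positivity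

theorem w_meas {n : ℕ} (b : Fin n → ℕ) : Measurable (w b) := by
  unfold w
  fun_prop

/-- the integral over the ball -/
noncomputable def K {n : ℕ} (b : Fin n → ℕ) (t : ℝ) : ENNReal :=
  ∫⁻ z in {z : Fin n → ℝ | ∑ i, z i ^ 2 < t}, ENNReal.ofReal (w b z)

theorem ell_meas {n : ℕ} (d : Fin n → ℝ) (r : ℝ) :
    MeasurableSet {z : Fin n → ℝ | ∑ i, d i * z i ^ 2 < r} :=
  measurableSet_lt (by fun_prop) measurable_const

theorem ball_meas {n : ℕ} (r : ℝ) : MeasurableSet {z : Fin n → ℝ | ∑ i, z i ^ 2 < r} :=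
  measurableSet_lt (by fun_prop) measurable_const

/-- the substitution -/
theorem scale {n : ℕ} (b : Fin n → ℕ) (d : Fin n → ℝ) (hd : ∀ i, 0 < d i) {r : ℝ} (hr : 0 < r) :
    ∫⁻ z in {z : Fin n → ℝ | ∑ i, d i * z i ^ 2 < r}, ENNReal.ofReal (w b z) =
      ENNReal.ofReal ((∏ i, √(r / d i)) * ∏ i, (r / d i) ^ b i) * K b 1 := by
  classical
  have hc : ∀ i, 0 < √(r / d i) := fun i => Real.sqrt_pos.2 (div_pos hr (hd i))
  unfold K
  rw [← lintegral_indicator (ell_meas d r), ← lintegral_indicator (ball_meas 1)]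
  rw [lint_diag (fun i => √(r / d i)) (fun _ => 0) (fun i => (hc i).ne') _
    ((w_meas b).ennreal_ofReal.indicator (ell_meas d r))]
  rw [abs_of_pos (prod_pos fun i _ => hc i), ENNReal.ofReal_mul (prod_nonneg fun i _ => (hc i).le),
    mul_assoc]
  congr 1
  rw [← lintegral_const_mul _ ((w_meas b).ennreal_ofReal.indicator (ball_meas 1))]
  refine lintegral_congr fun y => ?_
  have hsq : ∀ i, √(r / d i) ^ 2 = r / d i := fun i => Real.sq_sqrt (div_pos hr (hd i)).le
  have e1 : ∑ i, d i * (√(r / d i) * y i + 0) ^ 2 = r * ∑ i, y i ^ 2 := by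
    rw [mul_sum]
    refine sum_congr rfl fun i _ => ?_
    rw [add_zero, mul_pow, hsq]
    have := (hd i).ne'
    field_simp
  have e2 : (∑ i, d i * (√(r / d i) * y i + 0) ^ 2 < r) ↔ ∑ i, y i ^ 2 < 1 := by
    rw [e1]
    constructor
    · intro h
      by_contra hcon
      push Not at hcon
      have := mul_le_mul_of_nonneg_left hcon hr.le
      linarith
    · intro h
      have := mul_lt_mul_of_pos_left h hr
      linarith
  have e3 : w b (fun i => √(r / d i) * y i + 0) = (∏ i, (r / d i) ^ b i) * w b y := by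
    unfold w
    rw [← prod_mul_distrib]
    refine prod_congr rfl fun i _ => ?_
    show (√(r / d i) * y i + 0) ^ (2 * b i) = (r / d i) ^ b i * y i ^ (2 * b i)
    rw [add_zero, mul_pow, pow_mul (√(r / d i)), hsq]
  by_cases h : ∑ i, y i ^ 2 < 1
  · rw [Set.indicator_of_mem (show (fun i => √(r / d i) * y i + 0) ∈
      {z : Fin n → ℝ | ∑ i, d i * z i ^ 2 < r} from e2.2 h),
      Set.indicator_of_mem (show y ∈ {z : Fin n → ℝ | ∑ i, z i ^ 2 < 1} from h), e3,
      ENNReal.ofReal_mul (prod_nonneg fun i _ => by have := div_pos hr (hd i); positivity)]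
  · rw [Set.indicator_of_notMem (show (fun i => √(r / d i) * y i + 0) ∉
      {z : Fin n → ℝ | ∑ i, d i * z i ^ 2 < r} from fun h' => h (e2.1 h')),
      Set.indicator_of_notMem (show y ∉ {z : Fin n → ℝ | ∑ i, z i ^ 2 < 1} from h), mul_zero]

theorem K_scale {n : ℕ} (b : Fin n → ℕ) {t : ℝ} (ht : 0 < t) :
    K b t = ENNReal.ofReal (t ^ ((n : ℝ) / 2 + (∑ i, b i : ℕ))) * K b 1 := by
  have h := scale b (fun _ => 1) (fun _ => one_pos) ht
  have e : {z : Fin n → ℝ | ∑ i, (1 : ℝ) * z i ^ 2 < t} = {z : Fin n → ℝ | ∑ i, z i ^ 2 < t} := by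
    simp only [one_mul]
  rw [e] at h
  unfold K at h ⊢
  rw [h]
  congr 2
  simp only [div_one, prod_const, card_univ, Fintype.card_fin]
  rw [prod_pow_eq_pow_sum, Real.rpow_add ht, Real.rpow_natCast, Real.sqrt_eq_rpow,
    ← Real.rpow_natCast (t ^ (1 / 2 : ℝ)) n, ← Real.rpow_mul ht.le]
  congr 2
  ring

/-- one-dimensional integrals -/
theorem one_dim (k : ℕ) : Integrable (fun x : ℝ => x ^ (2 * k) * Real.exp (-x ^ 2)) ∧
    ∫ x : ℝ, x ^ (2 * k) * Real.exp (-x ^ 2) = Real.Gamma (k + 1 / 2) := by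
  constructor
  · have h := integrable_rpow_mul_exp_neg_mul_sq (b := 1) one_pos (s := ((2 * k : ℕ) : ℝ))
      (by have : (0 : ℝ) ≤ ((2 * k : ℕ) : ℝ) := Nat.cast_nonneg _
          linarith)
    refine h.congr (Filter.Eventually.of_forall fun x => ?_)
    simp only [Real.rpow_natCast, neg_mul, one_mul]
  · have h1 : ∫ x : ℝ, x ^ (2 * k) * Real.exp (-x ^ 2) =
        ∫ x : ℝ, (fun y : ℝ => y ^ (2 * k) * Real.exp (-y ^ 2)) |x| := by
      refine integral_congr_ae (Filter.Eventually.of_forall fun x => ?_)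
      show x ^ (2 * k) * Real.exp (-x ^ 2) = |x| ^ (2 * k) * Real.exp (-|x| ^ 2)
      rw [pow_mul, pow_mul, sq_abs]
    rw [h1, integral_comp_abs (f := fun y : ℝ => y ^ (2 * k) * Real.exp (-y ^ 2))]
    have h2 : ∫ x in Set.Ioi (0 : ℝ), x ^ (2 * k) * Real.exp (-x ^ 2) =
        ∫ x in Set.Ioi (0 : ℝ), x ^ ((2 * k : ℕ) : ℝ) * Real.exp (-x ^ (2 : ℝ)) := by
      refine setIntegral_congr_fun measurableSet_Ioi fun x _ => ?_
      simp only [Real.rpow_natCast, Real.rpow_two]
    rw [h2, integral_rpow_mul_exp_neg_rpow two_pos (by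
      have : (0 : ℝ) ≤ ((2 * k : ℕ) : ℝ) := Nat.cast_nonneg _
      linarith)]
    have e : (((2 * k : ℕ) : ℝ) + 1) / 2 = k + 1 / 2 := by push_cast; ring
    rw [e]
    ring

/-- the Gaussian integral as a product -/
theorem gauss {n : ℕ} (b : Fin n → ℕ) :
    ∫⁻ z : Fin n → ℝ, ENNReal.ofReal (w b z) * ENNReal.ofReal (Real.exp (-∑ i, z i ^ 2)) =
      ENNReal.ofReal (∏ i, Real.Gamma (b i + 1 / 2)) := by
  have h1 : ∀ z : Fin n → ℝ, ENNReal.ofReal (w b z) * ENNReal.ofReal (Real.exp (-∑ i, z i ^ 2)) =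
      ENNReal.ofReal (∏ i, z i ^ (2 * b i) * Real.exp (-z i ^ 2)) := by
    intro z
    rw [← ENNReal.ofReal_mul (w_nonneg b z), prod_mul_distrib, ← Real.exp_sum, sum_neg_distrib]
    rfl
  simp_rw [h1]
  have h2 : Integrable (fun z : Fin n → ℝ => ∏ i, z i ^ (2 * b i) * Real.exp (-z i ^ 2)) :=
    Integrable.fintype_prod_dep (f := fun i (x : ℝ) => x ^ (2 * b i) * Real.exp (-x ^ 2))
      fun i => (one_dim (b i)).1
  rw [← ofReal_integral_eq_lintegral_ofReal h2 (Filter.Eventually.of_forall fun z =>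
    prod_nonneg fun i _ => by rw [pow_mul]; positivity)]
  congr 1
  rw [integral_fintype_prod_volume_eq_prod (fun i (x : ℝ) => x ^ (2 * b i) * Real.exp (-x ^ 2))]
  exact prod_congr rfl fun i _ => (one_dim (b i)).2

/-- the tail of the exponential function -/
theorem exp_tail (s : ℝ) :
    ENNReal.ofReal (Real.exp (-s)) = ∫⁻ t in Set.Ioi s, ENNReal.ofReal (Real.exp (-t)) := by
  rw [← ofReal_integral_eq_lintegral_ofReal (integrableOn_exp_neg_Ioi s)
    (Filter.Eventually.of_forall fun t => (Real.exp_pos _).le), integral_exp_neg_Ioi]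

/-- the Gaussian integral by layers -/
theorem layer {n : ℕ} (b : Fin n → ℕ) :
    ∫⁻ z : Fin n → ℝ, ENNReal.ofReal (w b z) * ENNReal.ofReal (Real.exp (-∑ i, z i ^ 2)) =
      ENNReal.ofReal (Real.Gamma ((n : ℝ) / 2 + 1 + (∑ i, b i : ℕ))) * K b 1 := by
  classical
  have hs : Measurable fun z : Fin n → ℝ => ∑ i, z i ^ 2 := by fun_prop
  have h1 : ∀ z : Fin n → ℝ, ENNReal.ofReal (w b z) * ENNReal.ofReal (Real.exp (-∑ i, z i ^ 2)) =
      ∫⁻ t : ℝ, {p : (Fin n → ℝ) × ℝ | ∑ i, p.1 i ^ 2 < p.2}.indicator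
        (fun p => ENNReal.ofReal (w b p.1) * ENNReal.ofReal (Real.exp (-p.2))) (z, t) := by
    intro z
    rw [exp_tail, ← lintegral_const_mul _ (by fun_prop), ← lintegral_indicator measurableSet_Ioi]
    rfl
  simp_rw [h1]
  have hm : Measurable fun p : (Fin n → ℝ) × ℝ => {p : (Fin n → ℝ) × ℝ | ∑ i, p.1 i ^ 2 < p.2}.indicator
        (fun p => ENNReal.ofReal (w b p.1) * ENNReal.ofReal (Real.exp (-p.2))) p := by
    refine Measurable.indicator ?_ ?_
    · exact ((w_meas b).comp measurable_fst).ennreal_ofReal.mul (by fun_prop)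
    · exact measurableSet_lt (hs.comp measurable_fst) measurable_snd
  rw [lintegral_lintegral_swap hm.aemeasurable]
  have h2 : ∀ t : ℝ, ∫⁻ z : Fin n → ℝ, {p : (Fin n → ℝ) × ℝ | ∑ i, p.1 i ^ 2 < p.2}.indicator
        (fun p => ENNReal.ofReal (w b p.1) * ENNReal.ofReal (Real.exp (-p.2))) (z, t) =
      (Set.Ioi (0 : ℝ)).indicator (fun t => ENNReal.ofReal (Real.exp (-t) *
        t ^ ((n : ℝ) / 2 + 1 + (∑ i, b i : ℕ) - 1)) * K b 1) t := by
    intro t
    have h3 : ∫⁻ z : Fin n → ℝ, {p : (Fin n → ℝ) × ℝ | ∑ i, p.1 i ^ 2 < p.2}.indicator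
        (fun p => ENNReal.ofReal (w b p.1) * ENNReal.ofReal (Real.exp (-p.2))) (z, t) =
        K b t * ENNReal.ofReal (Real.exp (-t)) := by
      unfold K
      rw [← lintegral_mul_const _ (w_meas b).ennreal_ofReal, ← lintegral_indicator (ball_meas t)]
      rfl
    rw [h3]
    by_cases ht : 0 < t
    · rw [Set.indicator_of_mem (show t ∈ Set.Ioi (0 : ℝ) from ht), K_scale b ht,
        ENNReal.ofReal_mul (Real.exp_pos _).le]
      have e : (n : ℝ) / 2 + 1 + (∑ i, b i : ℕ) - 1 = (n : ℝ) / 2 + (∑ i, b i : ℕ) := by ring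
      rw [e]
      ring
    · rw [Set.indicator_of_notMem (show t ∉ Set.Ioi (0 : ℝ) from ht)]
      have h4 : K b t = 0 := by
        unfold K
        have e : {z : Fin n → ℝ | ∑ i, z i ^ 2 < t} = ∅ := by
          apply Set.eq_empty_of_forall_notMem
          intro z hz
          have hz' : ∑ i, z i ^ 2 < t := hz
          have := sum_nonneg (s := univ) (f := fun i => z i ^ 2) fun i _ => sq_nonneg _
          linarith [not_lt.1 ht]
        rw [e, Measure.restrict_empty, lintegral_zero_measure]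
      rw [h4, zero_mul]
  simp_rw [h2]
  rw [lintegral_indicator measurableSet_Ioi, lintegral_mul_const _ (by fun_prop)]
  congr 1
  have hpos : (0 : ℝ) < (n : ℝ) / 2 + 1 + (∑ i, b i : ℕ) := by positivity
  rw [Real.Gamma_eq_integral hpos, ofReal_integral_eq_lintegral_ofReal
    (Real.GammaIntegral_convergent hpos)]
  exact (ae_restrict_iff' measurableSet_Ioi).2 (Filter.Eventually.of_forall fun t ht =>
    mul_nonneg (Real.exp_pos _).le (Real.rpow_nonneg (le_of_lt ht) _))

theorem K_zero (n : ℕ) : K (n := n) (fun _ => 0) 1 = bal n := by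
  unfold K bal w
  simp

/-- the integral over the unit ball -/
theorem K_toReal {n : ℕ} (b : Fin n → ℕ) :
    (K b 1).toReal * Real.Gamma ((n : ℝ) / 2 + 1 + (∑ i, b i : ℕ)) =
      ∏ i, Real.Gamma (b i + 1 / 2) := by
  have h := (gauss b).symm.trans (layer b)
  have hpos : (0 : ℝ) < (n : ℝ) / 2 + 1 + (∑ i, b i : ℕ) := by positivity
  have h2 := congrArg ENNReal.toReal h
  rw [ENNReal.toReal_mul, ENNReal.toReal_ofReal (Real.Gamma_pos_of_pos hpos).le,
    ENNReal.toReal_ofReal (prod_nonneg fun i _ => (Real.Gamma_pos_of_pos (by positivity)).le)] at h2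
  rw [h2, mul_comm]

theorem Gamma_asc (x : ℝ) (hx : 0 < x) (B : ℕ) :
    Real.Gamma (x + B) = Real.Gamma x * ∏ k ∈ range B, (x + k) := by
  induction B with
  | zero => simp
  | succ B ih =>
    rw [prod_range_succ, ← mul_assoc, ← ih]
    push_cast
    rw [← add_assoc, Real.Gamma_add_one (by positivity)]
    ring

open Nat in
/-- the integral over the unit ball, divided by the volume -/
theorem K_formula {n : ℕ} (b : Fin n → ℕ) :
    (K b 1).toReal = (∏ i, (((2 * b i - 1)‼ : ℕ) : ℝ)) /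
      (∏ k ∈ range (∑ i, b i), ((n : ℝ) + 2 + 2 * k)) * (bal n).toReal := by
  set B := ∑ i, b i with hB
  set x : ℝ := (n : ℝ) / 2 + 1 with hx
  have hx0 : 0 < x := by positivity
  have hG : 0 < Real.Gamma x := Real.Gamma_pos_of_pos hx0
  have h1 := K_toReal b
  rw [← hB, ← hx, Gamma_asc x hx0] at h1
  have e1 : ∏ i, Real.Gamma ((b i : ℝ) + 1 / 2) =
      (∏ i, (((2 * b i - 1)‼ : ℕ) : ℝ)) * √Real.pi ^ n / 2 ^ B := by
    rw [hB, ← prod_pow_eq_pow_sum]
    have : ∏ i, Real.Gamma ((b i : ℝ) + 1 / 2) =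
        ∏ i, ((((2 * b i - 1)‼ : ℕ) : ℝ) * √Real.pi / 2 ^ b i) :=
      prod_congr rfl fun i _ => Real.Gamma_nat_add_half (b i)
    rw [this, prod_div_distrib, prod_mul_distrib, prod_const, Finset.card_univ, Fintype.card_fin]
  rw [e1] at h1
  have h2 := K_toReal (n := n) (fun _ => 0)
  rw [K_zero] at h2
  have e2 : ∏ i : Fin n, Real.Gamma (((0 : ℕ) : ℝ) + 1 / 2) = √Real.pi ^ n := by
    rw [Nat.cast_zero, zero_add, Real.Gamma_one_half_eq, prod_const, Finset.card_univ, Fintype.card_fin]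
  rw [e2, sum_const_zero, Nat.cast_zero, add_zero, ← hx] at h2
  have h3 : ∏ k ∈ range B, ((n : ℝ) + 2 + 2 * k) = 2 ^ B * ∏ k ∈ range B, (x + k) := by
    have : (2 : ℝ) ^ B = ∏ _k ∈ range B, (2 : ℝ) := by rw [prod_const, card_range]
    rw [this, ← prod_mul_distrib]
    refine prod_congr rfl fun k _ => ?_
    rw [hx]
    ring
  have hP : 0 < ∏ k ∈ range B, ((n : ℝ) + 2 + 2 * k) := prod_pos fun k _ => by positivity
  rw [div_mul_eq_mul_div, eq_div_iff hP.ne', h3]
  apply mul_right_cancel₀ hG.ne'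
  have h4 : (K b 1).toReal * (Real.Gamma x * ∏ k ∈ range B, (x + k)) * 2 ^ B =
      (∏ i, (((2 * b i - 1)‼ : ℕ) : ℝ)) * ((bal n).toReal * Real.Gamma x) := by
    rw [h1, h2]
    field_simp
  linear_combination h4

/-- odd exponents -/
theorem odd_zero {n : ℕ} (d : Fin n → ℝ) (r : ℝ) (a : Fin n → ℕ) (i0 : Fin n) (h : Odd (a i0)) :
    ∫ z in {z : Fin n → ℝ | ∑ i, d i * z i ^ 2 < r}, ∏ i, z i ^ a i = 0 := by
  classical
  obtain ⟨s, hs⟩ : ∃ s : Fin n → ℝ, ∀ j, s j = if j = i0 then -1 else 1 := ⟨_, fun _ => rfl⟩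
  have hs2 : ∀ j, s j * s j = 1 := by
    intro j
    rw [hs]
    split_ifs <;> norm_num
  obtain ⟨R, hR⟩ : ∃ R : (Fin n → ℝ) → (Fin n → ℝ), R = fun z j => s j * z j := ⟨_, rfl⟩
  have hmp : MeasurePreserving R volume volume := by
    rw [hR]
    refine volume_preserving_pi (f := fun j x => s j * x) fun j => ?_
    by_cases hj : j = i0
    · have : (fun x : ℝ => s j * x) = fun x => -x := by
        funext x
        rw [hs, if_pos hj, neg_one_mul]
      show MeasurePreserving (fun x : ℝ => s j * x) volume volume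
      rw [this]
      exact Measure.measurePreserving_neg volume
    · have : (fun x : ℝ => s j * x) = id := by
        funext x
        rw [hs, if_neg hj, one_mul]
        rfl
      show MeasurePreserving (fun x : ℝ => s j * x) volume volume
      rw [this]
      exact MeasurePreserving.id volume
  have hinv : Function.Involutive R := by
    intro z
    rw [hR]
    funext j
    show s j * (s j * z j) = z j
    rw [← mul_assoc, hs2, one_mul]
  have hME : MeasurableEmbedding R :=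
    (MeasurableEquiv.ofInvolutive R hinv hmp.measurable).measurableEmbedding
  obtain ⟨G, hG⟩ : ∃ G : (Fin n → ℝ) → ℝ, G = Set.indicator
    {z : Fin n → ℝ | ∑ i, d i * z i ^ 2 < r} fun z => ∏ i, z i ^ a i := ⟨_, rfl⟩
  have hGR : ∀ z, G (R z) = - G z := by
    intro z
    have e1 : ∑ i, d i * (R z) i ^ 2 = ∑ i, d i * z i ^ 2 := by
      refine sum_congr rfl fun i _ => ?_
      rw [hR]
      show d i * (s i * z i) ^ 2 = d i * z i ^ 2
      rw [mul_pow, sq (s i), hs2, one_mul]
    have e2 : ∏ i, (R z) i ^ a i = - ∏ i, z i ^ a i := by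
      have e3 : ∏ i, (R z) i ^ a i = (∏ i, s i ^ a i) * ∏ i, z i ^ a i := by
        rw [← prod_mul_distrib]
        refine prod_congr rfl fun i _ => ?_
        rw [hR]
        show (s i * z i) ^ a i = s i ^ a i * z i ^ a i
        rw [mul_pow]
      have e4 : ∏ i, s i ^ a i = -1 := by
        rw [prod_eq_single i0]
        · rw [hs, if_pos rfl, h.neg_one_pow]
        · intro j _ hj
          rw [hs, if_neg hj, one_pow]
        · intro hj
          exact absurd (mem_univ i0) hj
      rw [e3, e4, neg_one_mul]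
    rw [hG]
    by_cases hz : ∑ i, d i * z i ^ 2 < r
    · rw [Set.indicator_of_mem (show R z ∈ {z : Fin n → ℝ | ∑ i, d i * z i ^ 2 < r} from
        (by show ∑ i, d i * (R z) i ^ 2 < r; rw [e1]; exact hz)),
        Set.indicator_of_mem (show z ∈ {z : Fin n → ℝ | ∑ i, d i * z i ^ 2 < r} from hz), e2]
    · rw [Set.indicator_of_notMem (show R z ∉ {z : Fin n → ℝ | ∑ i, d i * z i ^ 2 < r} from
        (by show ¬ ∑ i, d i * (R z) i ^ 2 < r; rw [e1]; exact hz)),
        Set.indicator_of_notMem (show z ∉ {z : Fin n → ℝ | ∑ i, d i * z i ^ 2 < r} from hz), neg_zero]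
  rw [← integral_indicator (ell_meas d r), ← hG]
  have h5 := hmp.integral_comp hME G
  simp_rw [hGR] at h5
  rw [integral_neg] at h5
  linarith

theorem integ {n : ℕ} (d : Fin n → ℝ) (hd : ∀ i, 0 < d i) {r : ℝ} (hr : 0 < r) (a : Fin n → ℕ) :
    IntegrableOn (fun z : Fin n → ℝ => ∏ i, z i ^ a i) {z : Fin n → ℝ | ∑ i, d i * z i ^ 2 < r} := by
  have hc : Continuous fun z : Fin n → ℝ => ∏ i, z i ^ a i := by fun_prop
  set C : ℝ := ∑ i, √(r / d i) with hC
  have hC0 : 0 ≤ C := sum_nonneg fun i _ => Real.sqrt_nonneg _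
  refine (hc.continuousOn.integrableOn_compact
    (isCompact_closedBall (0 : Fin n → ℝ) C)).mono_set fun z hz => ?_
  have hz' : ∑ i, d i * z i ^ 2 < r := hz
  rw [mem_closedBall_zero_iff, pi_norm_le_iff_of_nonneg hC0]
  intro i
  have h1 : d i * z i ^ 2 ≤ ∑ i, d i * z i ^ 2 :=
    single_le_sum (f := fun i => d i * z i ^ 2)
      (fun j _ => mul_nonneg (hd j).le (sq_nonneg _)) (mem_univ i)
  have h2 : z i ^ 2 ≤ r / d i := by
    rw [le_div_iff₀ (hd i)]
    linarith
  have h3 : |z i| ≤ √(r / d i) := Real.abs_le_sqrt h2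
  have h4 : √(r / d i) ≤ C :=
    single_le_sum (f := fun i => √(r / d i)) (fun j _ => Real.sqrt_nonneg _) (mem_univ i)
  rw [Real.norm_eq_abs]
  linarith

theorem sum_getD (e : List ℕ) : ∀ N : ℕ, e.length ≤ N → e.sum = ∑ i ∈ range N, e.getD i 0 := by
  induction e with
  | nil => intro N _; simp
  | cons a e ih =>
    intro N hN
    obtain ⟨M, rfl⟩ : ∃ M, N = M + 1 := ⟨N - 1, by simp at hN; omega⟩
    rw [sum_range_succ', List.sum_cons, ih M (by simpa using hN), add_comm]
    simp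

theorem all_iff (e : List ℕ) (n : ℕ) (he : e.length ≤ n) :
    e.all (fun a => a % 2 == 0) = true ↔ ∀ i : Fin n, e.getD i 0 % 2 = 0 := by
  rw [List.all_eq_true]
  constructor
  · intro h i
    by_cases hi : (i : ℕ) < e.length
    · rw [List.getD_eq_getElem _ _ hi]
      have := h _ (List.getElem_mem hi)
      simpa using this
    · rw [List.getD_eq_default _ _ (not_lt.1 hi)]
  · intro h x hx
    obtain ⟨k, hk, rfl⟩ := List.getElem_of_mem hx
    have := h ⟨k, by omega⟩
    simp only at this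
    rw [List.getD_eq_getElem _ _ hk] at this
    simpa using this

end UMono

open UMono Nat in
theorem t_mono : S_mono := by
  intro n r d e hr hd he
  have hmev : ∀ z : Fin n → ℝ, mev (ext z) e = ∏ i : Fin n, z i ^ e.getD i 0 := by
    intro z
    rw [mev_eq_prod e n he, Finset.prod_range]
    refine Finset.prod_congr rfl fun i _ => ?_
    have : ext z (i : ℕ) = z i := dif_pos i.2
    rw [this]
  have hset : {z : Fin n → ℝ | ∑ i ∈ Finset.range n, d i * ext z i ^ 2 < r} =
      {z : Fin n → ℝ | ∑ i : Fin n, d i * z i ^ 2 < r} := by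
    ext z
    have : ∑ i ∈ Finset.range n, d i * ext z i ^ 2 = ∑ i : Fin n, d i * z i ^ 2 := by
      rw [Finset.sum_range]
      refine Finset.sum_congr rfl fun i _ => ?_
      have : ext z (i : ℕ) = z i := dif_pos i.2
      rw [this]
    show (∑ i ∈ Finset.range n, d i * ext z i ^ 2 < r) ↔ (∑ i : Fin n, d i * z i ^ 2 < r)
    rw [this]
  have hd' : ∀ i : Fin n, 0 < d i := fun i => hd i i.2
  rw [hset]
  simp_rw [hmev]
  refine ⟨integ (fun i : Fin n => d i) hd' hr fun i : Fin n => e.getD i 0, ?_⟩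
  by_cases hall : ∀ i : Fin n, e.getD i 0 % 2 = 0
  · obtain ⟨b, hb⟩ : ∃ b : Fin n → ℕ, ∀ i : Fin n, b i = e.getD i 0 / 2 := ⟨_, fun _ => rfl⟩
    have hb2 : ∀ i : Fin n, e.getD i 0 = 2 * b i := by
      intro i
      have := hall i
      rw [hb]
      omega
    have hsum : e.sum / 2 = ∑ i, b i := by
      rw [sum_getD e n he, Finset.sum_range]
      have : ∑ i : Fin n, e.getD i 0 = 2 * ∑ i, b i := by
        rw [Finset.mul_sum]
        exact Finset.sum_congr rfl fun i _ => hb2 i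
      rw [this]
      omega
    have hint : ∫ z in {z : Fin n → ℝ | ∑ i : Fin n, d i * z i ^ 2 < r},
        ∏ i : Fin n, z i ^ e.getD i 0 =
        ((∏ i : Fin n, √(r / d i)) * ∏ i : Fin n, (r / d i) ^ b i) * (K b 1).toReal := by
      have h1 : ∀ z : Fin n → ℝ, ∏ i : Fin n, z i ^ e.getD i 0 = w b z := fun z =>
        Finset.prod_congr rfl fun i _ => by rw [hb2]
      simp_rw [h1]
      rw [integral_eq_lintegral_of_nonneg_ae (Filter.Eventually.of_forall fun z => w_nonneg b z)
        (w_meas b).aestronglyMeasurable, scale b (fun i : Fin n => d i) hd' hr, ENNReal.toReal_mul,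
        ENNReal.toReal_ofReal]
      exact mul_nonneg (Finset.prod_nonneg fun i _ => Real.sqrt_nonneg _)
        (Finset.prod_nonneg fun i _ => pow_nonneg (div_pos hr (hd' i)).le _)
    rw [hint, K_formula, qR, if_pos ((all_iff e n he).2 hall), hsum]
    have e1 : √(r ^ n / ∏ i ∈ Finset.range n, d i) = ∏ i : Fin n, √(r / d i) := by
      rw [Finset.prod_range, ← Real.sqrt_prod _ fun i _ => (div_pos hr (hd' i)).le, Finset.prod_div_distrib,
        Finset.prod_const, Finset.card_univ, Fintype.card_fin]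
    have e2 : ∏ i : Fin n, (r / d i) ^ b i = r ^ (∑ i, b i) * ∏ i : Fin n, (1 / d i) ^ b i := by
      rw [← Finset.prod_pow_eq_pow_sum, ← Finset.prod_mul_distrib]
      refine Finset.prod_congr rfl fun i _ => ?_
      rw [← mul_pow]
      ring
    have e3 : ∏ i ∈ Finset.range n, ((((e.getD i 0 - 1)‼ : ℕ) : ℝ) * (1 / d i) ^ (e.getD i 0 / 2)) =
        (∏ i : Fin n, (((2 * b i - 1)‼ : ℕ) : ℝ)) * ∏ i : Fin n, (1 / d i) ^ b i := by
      rw [Finset.prod_range, ← Finset.prod_mul_distrib]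
      refine Finset.prod_congr rfl fun i _ => ?_
      rw [← hb, hb2]
    rw [e1, e2, e3]
    ring
  · have hq : qR n r d e = 0 := by
      rw [qR, if_neg fun h => hall ((all_iff e n he).1 h)]
    rw [hq, zero_mul]
    push Not at hall
    obtain ⟨i0, hi0⟩ := hall
    exact odd_zero (fun i : Fin n => d i) r (fun i : Fin n => e.getD i 0) i0
      (Nat.odd_iff.2 (by omega))

end Pool.Agent.H652.PV
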