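import Pool.Agent.H652.PV.UMain
import Pool.Agent.H652.PV.UCmp
import Pool.Agent.H652.PV.UInv
import Pool.Agent.H652.PV.UChg
import Pool.Agent.H652.PV.UMono
import Pool.Agent.H652.PV.UKeyC
import Pool.Agent.H652.PV.UKeyP
import Pool.Agent.H652.PV.UHalf

/-!
# Regions of degree at most three: conclusion
-/

set_option autoImplicit false
set_option synthInstance.maxSize 2000

namespace Pool.Agent.H652.PV

open Pool.Agent.TH960.PE MeasureTheory

namespace UFin

theorem keyC_p : Primrec (fun p : (ℕ × Coef) × (List (Coef × Poly) × Poly) =>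
    keyC p.1.1 p.1.2 p.2.1 p.2.2) :=
  (t_keyP t_cmpP.2.2 (t_invP t_cmpP).2.2.2).1

theorem cle_p : Primrec (fun p : Coef × Coef => cle p.1 p.2) :=
  (t_keyP t_cmpP.2.2 (t_invP t_cmpP).2.2.2).2

theorem int3 (R : ℝ → ℝ → Prop) (t : Coef × Coef → Bool)
    (ht : Primrec t) (hR : ∀ (k k' : Coef) (x y β : ℝ), 0 < β → cv k = x * |x| →
      cv k' = y * |y| → (t (k, k') = true ↔ R (x * β) (y * β))) : IntDec R 3 :=
  UMain.intDec3 t_cmpP (t_invP t_cmpP) (t_chg t_cmpP (t_invP t_cmpP))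
    t_mono t_keyC keyC_p R t ht hR

/-- Integrals over regions of degree at most three can be compared. -/
theorem intLe3 : IntDec (· ≤ ·) 3 :=
  int3 _ _ cle_p fun k k' x y β hβ h h' => UMain.rel_le t_keyC k k' x y β hβ h h'

/-- Equality of integrals over regions of degree at most three is decidable. -/
theorem intEq3 : IntDec (· = ·) 3 := by
  refine int3 _ (fun p => cle p.1 p.2 && cle p.2 p.1)
    (Primrec.and.comp cle_p (cle_p.comp (Primrec.snd.pair Primrec.fst)))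
    fun k k' x y β hβ h h' => ?_
  have h1 := UMain.rel_le t_keyC k k' x y β hβ h h'
  have h2 := UMain.rel_le t_keyC k' k y x β hβ h' h
  simp only [Bool.and_eq_true, h1, h2]
  exact ⟨fun h => le_antisymm h.1 h.2, fun h => ⟨h.le, h.ge⟩⟩

/-! ### Consequences -/

lemma isInt_natP (k : ℕ) : IsInt (natP k) := by
  intro m hm
  rw [show natP k = [((k, 0, 0), [])] from rfl, List.mem_singleton] at hm
  rw [hm]

lemma isInt_varP (k : ℕ) : IsInt (varP k) := by
  intro m hm
  unfold varP at hm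
  rw [List.mem_singleton] at hm
  rw [hm]

theorem vol_of_int {R : ℝ → ℝ → Prop} {Q : ENNReal → ENNReal → Prop}
    (hRQ : ∀ a b : ENNReal, a ≠ ⊤ → b ≠ ⊤ → (R a.toReal b.toReal ↔ Q a b)) {d : ℕ}
    (h : IntDec R d) : VolDec Q d := by
  obtain ⟨f, hf, hd⟩ := h
  refine ⟨fun p => f ((p.1, (p.2.1, natP 1)), (p.2.2, natP 1)), hf.comp (Primrec.to_comp ?_),
    fun n F G hF dF hG dG => ?_⟩
  · exact (Primrec.fst.pair ((Primrec.fst.comp Primrec.snd).pair (Primrec.const _))).pair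
      ((Primrec.snd.comp Primrec.snd).pair (Primrec.const _))
  · obtain ⟨b, hb, h1⟩ := hd n F G (natP 1) (natP 1) hF dF hG dG (isPoly_natP _ _) (isInt_natP 1)
      (isPoly_natP _ _) (isInt_natP 1)
    refine ⟨b, hb, h1.trans ?_⟩
    rw [← hRQ _ _ hF.2.2 hG.2.2]
    have e : ∀ H : Poly, ∫ x in reg n H, pev (ext x) (natP 1) = (volume (reg n H)).toReal := by
      intro H
      have : ∀ x : Fin n → ℝ, pev (ext x) (natP 1) = 1 := fun x => by
        rw [pev_natP]
        norm_num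
      simp only [this]
      simp [Measure.real]
    rw [e, e]

/-- a version without the assumption on integrability -/
theorem mom_of_int' {R : ℝ → ℝ → Prop} {d : ℕ} (h : IntDec R d) :
    ∃ f : (ℕ × ℕ × Poly) →. Bool, Partrec f ∧ ∀ (n k : ℕ) (F : Poly), k < n → Fine n F → Deg d F →
      ∃ b ∈ f (n, k, F), (b = true ↔ R (∫ x in reg n F, ext x k) 0) := by
  obtain ⟨f, hf, hd⟩ := h
  refine ⟨fun p => f ((p.1, (p.2.2, varP p.2.1)), (p.2.2, [])), hf.comp (Primrec.to_comp ?_),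
    fun n k F hk hF dF => ?_⟩
  · exact (Primrec.fst.pair ((Primrec.snd.comp Primrec.snd).pair
      (PrimT.varP_p (Primrec.fst.comp Primrec.snd)))).pair
      ((Primrec.snd.comp Primrec.snd).pair (Primrec.const _))
  · obtain ⟨b, hb, h1⟩ := hd n F F (varP k) [] hF dF hF dF (isPoly_varP hk) (isInt_varP k)
      (fun m hm => by simp at hm) (fun m hm => by simp at hm)
    refine ⟨b, hb, h1.trans ?_⟩
    have e1 : ∀ x : Fin n → ℝ, pev (ext x) (varP k) = ext x k := fun x => pev_varP _ _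
    have e2 : ∀ x : Fin n → ℝ, pev (ext x) [] = 0 := fun x => by simp [pev]
    simp only [e1, e2, integral_zero]

theorem mom_of_int {R : ℝ → ℝ → Prop} {d : ℕ} (h : IntDec R d) : MomDec R d := by
  obtain ⟨f, hf, hd⟩ := mom_of_int' h
  exact ⟨f, hf, fun n k F hk hF dF _ => hd n k F hk hF dF⟩

theorem volLe3 : VolDec (· ≤ ·) 3 :=
  vol_of_int (fun _ _ ha hb => ENNReal.toReal_le_toReal ha hb) intLe3

theorem volEq3 : VolDec (· = ·) 3 :=
  vol_of_int (fun _ _ ha hb => ENNReal.toReal_eq_toReal_iff' ha hb) intEq3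

theorem momLe3 : MomDec (· ≤ ·) 3 := mom_of_int intLe3

theorem momEq3 : MomDec (· = ·) 3 := mom_of_int intEq3

theorem halfLe3 : HalfDec (· ≤ ·) 3 := by
  obtain ⟨f, hf, hd⟩ := mom_of_int' intLe3
  refine ⟨f, hf, fun n k F hk hF dF => ?_⟩
  obtain ⟨b, hb, h1⟩ := hd n k F hk hF dF
  exact ⟨b, hb, h1.trans (t_half3 n k F hk hF.1 dF hF.2.2).1⟩

theorem halfEq3 : HalfDec (· = ·) 3 := by
  obtain ⟨f, hf, hd⟩ := mom_of_int' intEq3
  refine ⟨f, hf, fun n k F hk hF dF => ?_⟩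
  obtain ⟨b, hb, h1⟩ := hd n k F hk hF dF
  obtain ⟨h2, h3⟩ := t_half3 n k F hk hF.1 dF hF.2.2
  refine ⟨b, hb, h1.trans ⟨fun h => ?_, fun h => ?_⟩⟩
  · exact le_antisymm (h2.1 h.le) (h3.1 h.ge)
  · exact le_antisymm (h2.2 h.le) (h3.2 h.ge)

end UFin

end Pool.Agent.H652.PV
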