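import Pool.Agent.H652.PV.Sos
import Pool.Agent.H652.PV.UFin

/-!
# Comparison of periods and preimages of the unit ball under quadratic maps
-/

set_option autoImplicit false
set_option synthInstance.maxSize 2000

namespace Pool.Agent.H652.PV

open Pool.Agent.TH960.PE MeasureTheory

/-- The preimage of the open unit ball of `ℝ ^ m` under the map `x ↦ (q (x)), q ∈ Q` from `ℝ ^ n` to
`ℝ ^ m`, where `m` is the length of the list `Q`. -/
def ball (n : ℕ) (Q : List Poly) : Set (Fin n → ℝ) :=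
  {x | (Q.map fun q => pev (ext x) q ^ 2).sum < 1}

/-- `Q` is a list of integer polynomials of degree at most `d` in `n` variables, that is, a polynomial map
of degree at most `d` from `ℝ ^ n`, and the preimage of the unit ball has finite volume. -/
def FineMap (d n : ℕ) (Q : List Poly) : Prop :=
  (∀ q ∈ Q, IsPoly n q ∧ IsInt q ∧ Deg d q) ∧ volume (ball n Q) ≠ ⊤

/-- There is an algorithm which decides, for two polynomial maps of degree at most `d` from `ℝ ^ n` with
integer coefficients such that the preimages of the unit balls have finite volume, whether the relation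
`R` (for us `=` or `≤`) holds for these volumes. -/
def VolDecM (R : ENNReal → ENNReal → Prop) (d : ℕ) : Prop :=
  ∃ f : (ℕ × List Poly × List Poly) →. Bool, Partrec f ∧ ∀ (n : ℕ) (Q Q' : List Poly),
    FineMap d n Q → FineMap d n Q' →
    ∃ b ∈ f (n, Q, Q'), (b = true ↔ R (volume (ball n Q)) (volume (ball n Q')))

/-- There is an algorithm which decides, for a polynomial map of degree at most `d` from `ℝ ^ n` with
integer coefficients such that the preimage of the unit ball has finite volume, and for `k < n`, whether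
the relation `R` holds for the volumes of the parts `x_k > 0` and `x_k < 0` of this preimage. -/
def HalfDecM (R : ENNReal → ENNReal → Prop) (d : ℕ) : Prop :=
  ∃ f : (ℕ × ℕ × List Poly) →. Bool, Partrec f ∧ ∀ (n k : ℕ) (Q : List Poly), k < n →
    FineMap d n Q →
    ∃ b ∈ f (n, k, Q), (b = true ↔
      R (volume {x | x ∈ ball n Q ∧ 0 < ext x k}) (volume {x | x ∈ ball n Q ∧ ext x k < 0}))

/-- There is an algorithm which decides, for a polynomial map of degree at most `d` from `ℝ ^ n` with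
integer coefficients such that the preimage of the unit ball has finite volume, and for `k < n` such that
`x_k` is integrable on this preimage, whether the relation `R` holds for the integral of `x_k` over it and
zero. -/
def MomDecM (R : ℝ → ℝ → Prop) (d : ℕ) : Prop :=
  ∃ f : (ℕ × ℕ × List Poly) →. Bool, Partrec f ∧ ∀ (n k : ℕ) (Q : List Poly), k < n →
    FineMap d n Q → IntegrableOn (fun x : Fin n → ℝ => ext x k) (ball n Q) →
    ∃ b ∈ f (n, k, Q), (b = true ↔ R (∫ x in ball n Q, ext x k) 0)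

namespace Maps

/-! ### From regions to maps -/

/-- the polynomial `1 - ∑ q ^ 2` -/
def ballP (Q : List Poly) : Poly := oneP (Q.flatMap sqP)

lemma pev_ballP (X : ℕ → ℝ) (Q : List Poly) :
    pev X (ballP Q) = 1 - (Q.map fun q => pev X q ^ 2).sum := by
  unfold ballP
  rw [SChain.pev_oneP, TChk.pev_flatMap]
  simp only [pev_sqP]

lemma reg_ballP (n : ℕ) (Q : List Poly) : reg n (ballP Q) = ball n Q := by
  ext x
  change 0 < pev (ext x) (ballP Q) ↔ _ < (1 : ℝ)
  rw [pev_ballP, sub_pos]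

lemma fine_ballP {d n : ℕ} {Q : List Poly} (h : FineMap d n Q) :
    Fine n (ballP Q) ∧ Deg (d + d) (ballP Q) := by
  refine ⟨⟨?_, ?_, ?_⟩, ?_⟩
  · exact SChain.isPoly_oneP (TChk.isPoly_flatMap _ _ fun q hq => isPoly_sqP (h.1 q hq).1)
  · refine SCode.isInt_oneP fun m hm => ?_
    obtain ⟨q, hq, hm'⟩ := List.mem_flatMap.1 hm
    exact isInt_sqP (h.1 q hq).2.1 m hm'
  · rw [reg_ballP]
    exact h.2
  · refine SCode.deg_oneP fun m hm => ?_
    obtain ⟨q, hq, hm'⟩ := List.mem_flatMap.1 hm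
    exact SCode.deg_sqP (h.1 q hq).2.2 m hm'

lemma ballP_p : Primrec ballP := by
  have h : Primrec₂ fun (_ : List Poly) (q : Poly) => sqP q :=
    (PrimT.sqP_p (Primrec.snd : Primrec fun p : List Poly × Poly => p.2)).to₂
  exact SCode.oneP_p (Primrec.list_flatMap Primrec.id h)

theorem vol_map {R : ENNReal → ENNReal → Prop} {d e : ℕ} (hde : d + d ≤ e) (h : VolDec R e) :
    VolDecM R d := by
  obtain ⟨f, hf, hd⟩ := h
  refine ⟨fun p => f (p.1, ballP p.2.1, ballP p.2.2), hf.comp (Primrec.to_comp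
    (Primrec.fst.pair ((ballP_p.comp (Primrec.fst.comp Primrec.snd)).pair
      (ballP_p.comp (Primrec.snd.comp Primrec.snd))))), fun n Q Q' h1 h2 => ?_⟩
  obtain ⟨a, b⟩ := fine_ballP h1
  obtain ⟨a', b'⟩ := fine_ballP h2
  obtain ⟨r, hr, h3⟩ := hd n _ _ a (SCode.deg_mono hde b) a' (SCode.deg_mono hde b')
  refine ⟨r, hr, h3.trans ?_⟩
  rw [reg_ballP, reg_ballP]

theorem half_map {R : ENNReal → ENNReal → Prop} {d e : ℕ} (hde : d + d ≤ e) (h : HalfDec R e) :
    HalfDecM R d := by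
  obtain ⟨f, hf, hd⟩ := h
  refine ⟨fun p => f (p.1, p.2.1, ballP p.2.2), hf.comp (Primrec.to_comp
    (Primrec.fst.pair ((Primrec.fst.comp Primrec.snd).pair
      (ballP_p.comp (Primrec.snd.comp Primrec.snd))))), fun n k Q hk h1 => ?_⟩
  obtain ⟨a, b⟩ := fine_ballP h1
  obtain ⟨r, hr, h3⟩ := hd n k _ hk a (SCode.deg_mono hde b)
  refine ⟨r, hr, h3.trans ?_⟩
  rw [reg_ballP]

theorem mom_map {R : ℝ → ℝ → Prop} {d e : ℕ} (hde : d + d ≤ e) (h : MomDec R e) :
    MomDecM R d := by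
  obtain ⟨f, hf, hd⟩ := h
  refine ⟨fun p => f (p.1, p.2.1, ballP p.2.2), hf.comp (Primrec.to_comp
    (Primrec.fst.pair ((Primrec.fst.comp Primrec.snd).pair
      (ballP_p.comp (Primrec.snd.comp Primrec.snd))))), fun n k Q hk h1 hI => ?_⟩
  obtain ⟨a, b⟩ := fine_ballP h1
  obtain ⟨r, hr, h3⟩ := hd n k _ hk a (SCode.deg_mono hde b) (by rw [reg_ballP]; exact hI)
  refine ⟨r, hr, h3.trans ?_⟩
  rw [reg_ballP]

/-! ### Search for a quadratic map -/

/-- the test for a quadratic map -/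
def tst (z : (ℕ × Poly) × List Poly) : Bool :=
  z.2.all (fun q => TChk.lenB z.1.1 q && (q.all (fun m => decide (m.1.2.2 = 0)) &&
    q.all (fun m => decide (m.2.sum ≤ 2)))) && isZ z.1.1 (subP z.1.2 (ballP z.2))

lemma quad_iff (n : ℕ) (q : Poly) : (TChk.lenB n q && (q.all (fun m => decide (m.1.2.2 = 0)) &&
    q.all (fun m => decide (m.2.sum ≤ 2)))) = true ↔ Quad n q := by
  unfold Quad IsInt Deg
  rw [Bool.and_eq_true, Bool.and_eq_true, TChk.lenB_iff, List.all_eq_true, List.all_eq_true]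
  simp only [decide_eq_true_eq]

lemma tst_iff (n : ℕ) (F : Poly) (Q : List Poly) (hF : IsPoly n F) :
    tst ((n, F), Q) = true ↔ (∀ q ∈ Q, Quad n q) ∧
      ∀ X : ℕ → ℝ, pev X F = 1 - (Q.map fun q => pev X q ^ 2).sum := by
  unfold tst
  rw [Bool.and_eq_true, List.all_eq_true]
  simp only [quad_iff]
  refine and_congr_right fun h => ?_
  have h1 : IsPoly n (ballP Q) :=
    SChain.isPoly_oneP (TChk.isPoly_flatMap _ _ fun q hq => isPoly_sqP (h q hq).1)
  rw [TChk.isZ_iff (isPoly_subP hF h1)]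
  refine forall_congr' fun X => ?_
  rw [pev_subP, pev_ballP, sub_eq_zero]

lemma sum_p : Primrec (fun l : List ℕ => l.sum) := by
  have h : Primrec₂ fun (_ : List ℕ) (q : ℕ × ℕ) => q.1 + q.2 :=
    (Primrec.nat_add.comp (Primrec.fst.comp Primrec.snd) (Primrec.snd.comp Primrec.snd) :
      Primrec fun x : List ℕ × (ℕ × ℕ) => x.2.1 + x.2.2).to₂
  have h2 := Primrec.list_foldr (Primrec.id (α := List ℕ)) (Primrec.const 0) h
  refine h2.of_eq fun l => ?_
  induction l with
  | nil => rfl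
  | cons a l ih =>
    simp only [id, List.foldr_cons, List.sum_cons] at ih ⊢
    rw [ih]

lemma tst_p : Primrec tst := by
  have c1 : Primrec fun x : ((ℕ × Poly) × List Poly) × Poly => TChk.lenB x.1.1.1 x.2 :=
    TChk.lenB_p (Primrec.fst.comp (Primrec.fst.comp Primrec.fst)) Primrec.snd
  have c2 : Primrec fun x : ((ℕ × Poly) × List Poly) × Poly =>
      x.2.all (fun m => decide (m.1.2.2 = 0)) := by
    refine TChk.all_p Primrec.snd ?_
    have h1 : Primrec fun y : (((ℕ × Poly) × List Poly) × Poly) × Mono =>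
        decide (y.2.1.2.2 = 0) :=
      TChk.eq_p (Primrec.snd.comp (Primrec.snd.comp (Primrec.fst.comp Primrec.snd)))
        (Primrec.const 0)
    exact h1.to₂
  have c3 : Primrec fun x : ((ℕ × Poly) × List Poly) × Poly =>
      x.2.all (fun m => decide (m.2.sum ≤ 2)) := by
    refine TChk.all_p Primrec.snd ?_
    have h1 : Primrec fun y : (((ℕ × Poly) × List Poly) × Poly) × Mono =>
        decide (y.2.2.sum ≤ 2) :=
      TChk.le_p (sum_p.comp (Primrec.snd.comp Primrec.snd)) (Primrec.const 2)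
    exact h1.to₂
  have c4 : Primrec₂ fun (z : (ℕ × Poly) × List Poly) (q : Poly) =>
      (TChk.lenB z.1.1 q && (q.all (fun m => decide (m.1.2.2 = 0)) &&
        q.all (fun m => decide (m.2.sum ≤ 2)))) :=
    (Primrec.and.comp c1 (Primrec.and.comp c2 c3)).to₂
  have c5 : Primrec fun z : (ℕ × Poly) × List Poly => isZ z.1.1 (subP z.1.2 (ballP z.2)) :=
    TChk.isZ_p' (Primrec.fst.comp Primrec.fst)
      (PrimT.subP_p (Primrec.snd.comp Primrec.fst) (ballP_p.comp Primrec.snd))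
  exact Primrec.and.comp (TChk.all_p Primrec.snd c4) c5

/-- the search -/
def fnd (a : ℕ × Poly) : Part (List Poly) :=
  Nat.rfindOpt fun k => (Encodable.decode (α := List Poly) k).bind fun Q =>
    cond (tst (a, Q)) (some Q) none

lemma fnd_p : Partrec fnd := by
  refine Partrec.rfindOpt (Primrec.to_comp ?_)
  have g1 : Primrec fun p : (ℕ × Poly) × ℕ => (Encodable.decode p.2 : Option (List Poly)) :=
    Primrec.decode.comp Primrec.snd
  have g2 : Primrec₂ fun (p : (ℕ × Poly) × ℕ) (Q : List Poly) =>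
      cond (tst (p.1, Q)) (some Q) none := by
    have h1 : Primrec fun y : ((ℕ × Poly) × ℕ) × List Poly => tst (y.1.1, y.2) :=
      tst_p.comp ((Primrec.fst.comp Primrec.fst).pair Primrec.snd)
    exact (Primrec.cond h1 (Primrec.option_some.comp Primrec.snd) (Primrec.const none)).to₂
  exact Primrec.option_bind g1 g2

lemma fnd_spec (n : ℕ) (F : Poly) (hF : IsPoly n F) (hS : Sq n F) :
    ∃ Q ∈ fnd (n, F), (∀ q ∈ Q, Quad n q) ∧
      ∀ X : ℕ → ℝ, pev X F = 1 - (Q.map fun q => pev X q ^ 2).sum := by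
  obtain ⟨Q, hQ⟩ := hS
  have ht := (tst_iff n F Q hF).2 hQ
  have hdom : ∃ k b, b ∈ (Encodable.decode (α := List Poly) k).bind fun Q =>
      cond (tst ((n, F), Q)) (some Q) none := by
    refine ⟨Encodable.encode Q, Q, ?_⟩
    rw [Encodable.encodek, Option.bind_some, ht]
    rfl
  have hd := Nat.rfindOpt_dom.2 hdom
  refine ⟨(fnd (n, F)).get hd, Part.get_mem hd, ?_⟩
  obtain ⟨k, hk⟩ := Nat.rfindOpt_spec (Part.get_mem hd)
  rw [Option.mem_def, Option.bind_eq_some_iff] at hk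
  obtain ⟨d, -, hd2⟩ := hk
  change _ = some ((fnd (n, F)).get hd) at hd2
  generalize (fnd (n, F)).get hd = b at hd2
  cases e : tst ((n, F), d)
  · simp [e] at hd2
  · simp only [e, cond_true, Option.some.injEq] at hd2
    subst hd2
    exact (tst_iff n F d hF).1 e

lemma reg_eq_ball {n : ℕ} {F : Poly} {Q : List Poly}
    (h : ∀ X : ℕ → ℝ, pev X F = 1 - (Q.map fun q => pev X q ^ 2).sum) :
    ball n Q = reg n F := by
  ext x
  change _ < (1 : ℝ) ↔ 0 < pev (ext x) F
  rw [h, sub_pos]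

/-! ### From maps to regions -/

/-- comparison of volumes of all regions given by one polynomial -/
def GenVol (R : ENNReal → ENNReal → Prop) : Prop :=
  ∃ f : (ℕ × Poly × Poly) →. Bool, Partrec f ∧ ∀ (n : ℕ) (F G : Poly), Fine n F → Fine n G →
    ∃ b ∈ f (n, F, G), (b = true ↔ R (volume (reg n F)) (volume (reg n G)))

theorem gen_vol {R : ENNReal → ENNReal → Prop}
    (hR : ∀ C x y : ENNReal, C ≠ 0 → C ≠ ⊤ → (R (C * x) (C * y) ↔ R x y)) (h : VolDecM R 2) :
    GenVol R := by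
  obtain ⟨f, hf, hd⟩ := h
  have hq : Primrec fun p : ℕ × Poly × Poly => q3 (p.1, p.2.1, p.2.2, []) :=
    (q3_p t_qprim).comp (Primrec.fst.pair ((Primrec.fst.comp Primrec.snd).pair
      ((Primrec.snd.comp Primrec.snd).pair (Primrec.const []))))
  have a0 : Primrec fun p : ℕ × Poly × Poly => (q3 (p.1, p.2.1, p.2.2, [])).1 :=
    Primrec.fst.comp hq
  have a1 : Primrec fun p : ℕ × Poly × Poly => (q3 (p.1, p.2.1, p.2.2, [])).2.1 :=
    Primrec.fst.comp (Primrec.snd.comp hq)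
  have a2 : Primrec fun p : ℕ × Poly × Poly => (q3 (p.1, p.2.1, p.2.2, [])).2.2.1 :=
    Primrec.fst.comp (Primrec.snd.comp (Primrec.snd.comp hq))
  refine ⟨fun p => (fnd ((q3 (p.1, p.2.1, p.2.2, [])).1, (q3 (p.1, p.2.1, p.2.2, [])).2.1)).bind
    fun Q => (fnd ((q3 (p.1, p.2.1, p.2.2, [])).1, (q3 (p.1, p.2.1, p.2.2, [])).2.2.1)).bind
      fun Q' => f ((q3 (p.1, p.2.1, p.2.2, [])).1, Q, Q'), ?_, fun n F G hF hG => ?_⟩
  · refine Partrec.bind (fnd_p.comp (a0.pair a1).to_comp) ?_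
    refine Partrec.bind (fnd_p.comp ((a0.comp Primrec.fst).pair (a2.comp Primrec.fst)).to_comp) ?_
    exact hf.comp (((a0.comp (Primrec.fst.comp Primrec.fst)).pair
      ((Primrec.snd.comp Primrec.fst).pair Primrec.snd)).to_comp)
  · obtain ⟨a, b, -, C, c0, c1, e1, e2, -⟩ := q3_spec t_jl t_rot (t_tree t_jl) (t_inn t_jl)
      (t_cst t_jl) t_base t_qval n F G [] hF hG
      (fine_nil t_jl t_rot (t_tree t_jl) (t_inn t_jl) (t_cst t_jl) t_base t_qval n)
    have s1 : Sq (q3 (n, F, G, [])).1 (q3 (n, F, G, [])).2.1 := Sos.sq_quar _ _ _ hF.2.1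
    have s2 : Sq (q3 (n, F, G, [])).1 (q3 (n, F, G, [])).2.2.1 := Sos.sq_quar _ _ _ hG.2.1
    obtain ⟨Q, m1, g1, p1⟩ := fnd_spec _ _ a.1.1 s1
    obtain ⟨Q', m2, g2, p2⟩ := fnd_spec _ _ b.1.1 s2
    obtain ⟨r, hr, h1⟩ := hd _ Q Q' ⟨g1, by rw [reg_eq_ball p1]; exact a.1.2.2⟩
      ⟨g2, by rw [reg_eq_ball p2]; exact b.1.2.2⟩
    refine ⟨r, Part.mem_bind m1 (Part.mem_bind m2 hr), h1.trans ?_⟩
    rw [reg_eq_ball p1, reg_eq_ball p2, e1, e2]
    exact hR C _ _ c0 c1

lemma sq_two4 (n : ℕ) (F G : Poly) (hF : Fine n F) (hG : Fine n G) :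
    Sq (two4 (n, F, G)).1 (two4 (n, F, G)).2.2 := by
  obtain ⟨a, b, v, w⟩ := comb_one n F G hF hG
  exact Sos.sq_quas _ _ _ (fine_comb n [F] a n [G] b v w).2.1

/-- the algorithm for one region -/
def alg (f : (ℕ × ℕ × List Poly) →. Bool) (p : ℕ × Poly × Poly) : Part Bool :=
  (fnd ((two4 p).1, (two4 p).2.2)).bind fun Q => f ((two4 p).1, (two4 p).2.1, Q)

lemma alg_p {f : (ℕ × ℕ × List Poly) →. Bool} (hf : Partrec f) : Partrec (alg f) := by
  have a0 : Primrec fun p : ℕ × Poly × Poly => (two4 p).1 := Primrec.fst.comp two4_p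
  have a1 : Primrec fun p : ℕ × Poly × Poly => (two4 p).2.1 :=
    Primrec.fst.comp (Primrec.snd.comp two4_p)
  have a2 : Primrec fun p : ℕ × Poly × Poly => (two4 p).2.2 :=
    Primrec.snd.comp (Primrec.snd.comp two4_p)
  refine Partrec.bind (fnd_p.comp (a0.pair a2).to_comp) ?_
  exact hf.comp (((a0.comp Primrec.fst).pair ((a1.comp Primrec.fst).pair Primrec.snd)).to_comp)

theorem gen_half {R : ENNReal → ENNReal → Prop}
    (hR : ∀ C x y : ENNReal, C ≠ 0 → C ≠ ⊤ → (R (C * x) (C * y) ↔ R x y)) (h : HalfDecM R 2) :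
    GenVol R := by
  obtain ⟨f, hf, hd⟩ := h
  refine ⟨alg f, alg_p hf, fun n F G hF hG => ?_⟩
  obtain ⟨h1, h2, ⟨C, c0, c1, h3, h4⟩, -⟩ := two4_spec n F G hF hG
  obtain ⟨Q, m1, g1, p1⟩ := fnd_spec _ _ h2.1.1 (sq_two4 n F G hF hG)
  obtain ⟨r, hr, h5⟩ := hd _ _ Q h1 ⟨g1, by rw [reg_eq_ball p1]; exact h2.1.2.2⟩
  refine ⟨r, Part.mem_bind m1 hr, h5.trans ?_⟩
  rw [reg_eq_ball p1]
  rw [h3, h4]
  exact hR C _ _ c0 c1

theorem gen_mom {R : ENNReal → ENNReal → Prop} {R' : ℝ → ℝ → Prop}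
    (hR : ∀ (C : ℝ) (x y : ENNReal), 0 < C → x ≠ ⊤ → y ≠ ⊤ →
      (R' (C * (x.toReal - y.toReal)) 0 ↔ R x y)) (h : MomDecM R' 2) : GenVol R := by
  obtain ⟨f, hf, hd⟩ := h
  refine ⟨alg f, alg_p hf, fun n F G hF hG => ?_⟩
  obtain ⟨h1, h2, -, h5, C, c0, h6⟩ := two4_spec n F G hF hG
  obtain ⟨Q, m1, g1, p1⟩ := fnd_spec _ _ h2.1.1 (sq_two4 n F G hF hG)
  obtain ⟨r, hr, h7⟩ := hd _ _ Q h1 ⟨g1, by rw [reg_eq_ball p1]; exact h2.1.2.2⟩
    (by rw [reg_eq_ball p1]; exact h5)
  refine ⟨r, Part.mem_bind m1 hr, h7.trans ?_⟩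
  rw [reg_eq_ball p1, h6]
  exact hR C _ _ c0 hF.2.2 hG.2.2

end Maps

end Pool.Agent.H652.PV
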