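import Pool.Agent.H652.PV.Maps

/-!
# Comparison of periods and quadratic maps: conclusion
-/

set_option autoImplicit false
set_option synthInstance.maxSize 2000

namespace Pool.Agent.H652.PV

open Pool.Agent.TH960.PE MeasureTheory

/-- **A real period as a quotient.** -/
theorem normal_sq : ∃ R : Code → ℕ × Poly × Poly × Poly, Primrec R ∧
    ∀ c, Adm c → (Fine4 (R c).1 (R c).2.1 ∧ Sq (R c).1 (R c).2.1) ∧
      (Fine4 (R c).1 (R c).2.2.1 ∧ Sq (R c).1 (R c).2.2.1) ∧
      (Fine4 (R c).1 (R c).2.2.2 ∧ Sq (R c).1 (R c).2.2.2) ∧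
        volume (reg (R c).1 (R c).2.2.2) ≠ 0 ∧
        val c = ((volume (reg (R c).1 (R c).2.1)).toReal -
          (volume (reg (R c).1 (R c).2.2.1)).toReal) /
            (volume (reg (R c).1 (R c).2.2.2)).toReal := by
  let A : Code → List Poly := fun c => regP c ++ List.replicate (1 + c.1) (natP 1)
  let B : Code → List Poly := fun c => regN c ++ List.replicate (1 + c.1) (natP 1)
  let D : Code → List Poly := fun c =>
    cube (1 + c.1) ++ List.replicate (regP c).length (natP 1)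
  have n : Primrec fun c : Code => 1 + c.1 := Primrec.nat_add.comp (Primrec.const 1) Primrec.fst
  have pA : Primrec A := Primrec.list_append.comp (Cmp.regP_p t_zero Primrec.id) (Cmp.rep_p n)
  have pB : Primrec B := Primrec.list_append.comp (Cmp.regN_p t_zero Primrec.id) (Cmp.rep_p n)
  have pD : Primrec D := Primrec.list_append.comp (Cmp.cube_p n)
    (Cmp.rep_p (Primrec.list_length.comp (Cmp.regP_p t_zero Primrec.id)))
  have fA := PrimT.fold_p n pA
  have fB := PrimT.fold_p n pB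
  have fD := PrimT.fold_p n pD
  refine ⟨fun c => q3 ((fold (1 + c.1) (A c)).1, (fold (1 + c.1) (A c)).2,
    (fold (1 + c.1) (B c)).2, (fold (1 + c.1) (D c)).2), (q3_p t_qprim).comp
      ((Primrec.fst.comp fA).pair ((Primrec.snd.comp fA).pair ((Primrec.snd.comp fB).pair
        (Primrec.snd.comp fD)))), fun c hc => ?_⟩
  have r := isPoly_reg hc
  have v := fin_reg c hc t_zero
  have hone : ∀ k : ℕ, ∀ g ∈ List.replicate k (natP 1), IsPoly (1 + c.1) g ∧ IsInt g := by
    intro k g hg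
    rw [List.eq_of_mem_replicate hg]
    exact ⟨isPoly_natP _ _, isInt_natP _⟩
  have rA : ∀ g ∈ A c, IsPoly (1 + c.1) g ∧ IsInt g := by
    intro g hg
    rcases List.mem_append.1 hg with h | h
    · exact r.1 g h
    · exact hone _ g h
  have rB : ∀ g ∈ B c, IsPoly (1 + c.1) g ∧ IsInt g := by
    intro g hg
    rcases List.mem_append.1 hg with h | h
    · exact r.2 g h
    · exact hone _ g h
  have rD : ∀ g ∈ D c, IsPoly (1 + c.1) g ∧ IsInt g := by
    intro g hg
    rcases List.mem_append.1 hg with h | h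
    · refine ⟨isPoly_cube g h, ?_⟩
      obtain ⟨i, -, rfl⟩ := List.mem_map.1 h
      exact isInt_subP (isInt_natP _) (isInt_mulS (isInt_natP _) (isInt_sqP (isInt_varP _)))
    · exact hone _ g h
  have hvol : ∀ (l : List Poly) (k : ℕ), vol (1 + c.1) (l ++ List.replicate k (natP 1)) =
      vol (1 + c.1) l := by
    intro l k
    unfold vol
    refine lintegral_congr fun x => ?_
    rw [chis_append, chis_ones, mul_one]
  have lA : (A c).length = (regP c).length + (1 + c.1) := by simp [A]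
  have lB : (B c).length = (regP c).length + (1 + c.1) := by simp [B, length_reg]
  have lD : (D c).length = (regP c).length + (1 + c.1) := by simp [D, cube]; ring
  have nB : (fold (1 + c.1) (B c)).1 = (fold (1 + c.1) (A c)).1 := by
    rw [fold_fst, fold_fst, lA, lB]
  have nD : (fold (1 + c.1) (D c)).1 = (fold (1 + c.1) (A c)).1 := by
    rw [fold_fst, fold_fst, lA, lD]
  have hfine : ∀ l : List Poly, (∀ g ∈ l, IsPoly (1 + c.1) g ∧ IsInt g) → vol (1 + c.1) l ≠ ⊤ →
      Fine (fold (1 + c.1) l).1 (fold (1 + c.1) l).2 ∧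
        volume (reg (fold (1 + c.1) l).1 (fold (1 + c.1) l).2) = vol (1 + c.1) l := by
    intro l hl hv
    have e := volume_fold (1 + c.1) l fun g hg => (hl g hg).1
    refine ⟨⟨isPoly_foldF _ (1 + c.1, natP 1) (isPoly_natP _ _) fun g hg => (hl g hg).1,
      isInt_fold fun g hg => (hl g hg).2, ?_⟩, e⟩
    rw [e]
    exact hv
  have vA : vol (1 + c.1) (A c) = vol (1 + c.1) (regP c) := hvol _ _
  have vB : vol (1 + c.1) (B c) = vol (1 + c.1) (regN c) := hvol _ _
  have vD : vol (1 + c.1) (D c) = 1 := (hvol _ _).trans (vol_cube _)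
  obtain ⟨gA, eA⟩ := hfine (A c) rA (by rw [vA]; exact v.1)
  obtain ⟨gB, eB⟩ := hfine (B c) rB (by rw [vB]; exact v.2)
  obtain ⟨gD, eD⟩ := hfine (D c) rD (by rw [vD]; exact ENNReal.one_ne_top)
  rw [nB] at gB eB
  rw [nD] at gD eD
  rw [vA] at eA
  rw [vB] at eB
  rw [vD] at eD
  obtain ⟨a, b, e, C, c0, c1, e1, e2, e3⟩ := q3_spec t_jl t_rot (t_tree t_jl) (t_inn t_jl)
    (t_cst t_jl) t_base t_qval _ _ _ _ gA gB gD
  rw [eA] at e1
  rw [eB] at e2
  rw [eD, mul_one] at e3
  refine ⟨⟨a, Sos.sq_quar _ _ _ gA.2.1⟩, ⟨b, Sos.sq_quar _ _ _ gB.2.1⟩,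
    ⟨e, Sos.sq_quar _ _ _ gD.2.1⟩, ?_, ?_⟩
  · change volume (reg (q3 _).1 (q3 _).2.2.2) ≠ 0
    rw [e3]
    exact c0
  · change val c = ((volume (reg (q3 _).1 (q3 _).2.1)).toReal -
      (volume (reg (q3 _).1 (q3 _).2.2.1)).toReal) / (volume (reg (q3 _).1 (q3 _).2.2.2)).toReal
    rw [e1, e2, e3, val_eq c hc t_zero, ENNReal.toReal_mul, ENNReal.toReal_mul, ← mul_sub,
      mul_div_cancel_left₀ _ (ENNReal.toReal_ne_zero.2 ⟨c0, c1⟩)]

/-- **Equality.** -/
theorem tfae_eq : List.TFAE [AlgDecidable (fun a b => a = b),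
    VolDecM (· = ·) 2, HalfDecM (· = ·) 2, MomDecM (· = ·) 2,
    VolDec (· = ·) 4, HalfDec (· = ·) 4, MomDec (· = ·) 4] := by
  have hR : ∀ C x y : ENNReal, C ≠ 0 → C ≠ ⊤ → (C * x = C * y ↔ x = y) :=
    fun C x y h0 h1 => ENNReal.mul_right_inj h0 h1
  tfae_have 1 → 5 := fun h => volDec_eq.2 (volumes4_of_decidable h)
  tfae_have 1 → 6 := fun h => halfDec_eq.2 (bisected4_of_decidable h)
  tfae_have 1 → 7 := fun h => momDec_eq.2 (moment4_of_decidable h)
  tfae_have 5 → 2 := Maps.vol_map (by norm_num)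
  tfae_have 6 → 3 := Maps.half_map (by norm_num)
  tfae_have 7 → 4 := Maps.mom_map (by norm_num)
  tfae_have 2 → 1 := fun h => decidable_of_volumes (Maps.gen_vol hR h)
  tfae_have 3 → 1 := fun h => decidable_of_volumes (Maps.gen_half hR h)
  tfae_have 4 → 1 := fun h => by
    refine decidable_of_volumes (Maps.gen_mom (R' := (· = ·)) (fun C x y hC hx hy => ?_) h)
    rw [← ENNReal.toReal_eq_toReal_iff' hx hy, mul_eq_zero, sub_eq_zero]
    exact ⟨fun h => h.resolve_left hC.ne', Or.inr⟩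
  tfae_finish

/-- **Order.** -/
theorem tfae_le : List.TFAE [AlgDecidable (fun a b => a.re ≤ b.re),
    VolDecM (· ≤ ·) 2, HalfDecM (· ≤ ·) 2, MomDecM (· ≤ ·) 2,
    VolDec (· ≤ ·) 4, HalfDec (· ≤ ·) 4, MomDec (· ≤ ·) 4] := by
  have hR : ∀ C x y : ENNReal, C ≠ 0 → C ≠ ⊤ → (C * x ≤ C * y ↔ x ≤ y) :=
    fun C x y h0 h1 => ENNReal.mul_le_mul_iff_right h0 h1
  tfae_have 1 → 5 := order4.1.1
  tfae_have 1 → 6 := order4.2.1.1
  tfae_have 1 → 7 := order4.2.2.1
  tfae_have 5 → 2 := Maps.vol_map (by norm_num)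
  tfae_have 6 → 3 := Maps.half_map (by norm_num)
  tfae_have 7 → 4 := Maps.mom_map (by norm_num)
  tfae_have 2 → 1 := fun h => order_of_volumes (Maps.gen_vol hR h)
  tfae_have 3 → 1 := fun h => order_of_volumes (Maps.gen_half hR h)
  tfae_have 4 → 1 := fun h => by
    refine order_of_volumes (Maps.gen_mom (R' := (· ≤ ·)) (fun C x y hC hx hy => ?_) h)
    rw [← ENNReal.toReal_le_toReal hx hy]
    constructor
    · intro h
      by_contra h7
      have := mul_pos hC (sub_pos.2 (not_le.1 h7))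
      linarith
    · intro h
      have := mul_nonneg hC.le (sub_nonneg.2 h)
      nlinarith
  tfae_finish

end Pool.Agent.H652.PV
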