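import Pool.Agent.H652.PV.Xdefs
import Pool.Agent.H652.PV.Cmp

/-!
# The product of two explicit integrals is computable (statement X7)
-/

set_option autoImplicit false
set_option synthInstance.maxSize 2000

namespace Pool.Agent.H652.PV

open Pool.Agent.TH960.PE PrimT

namespace XMul

variable {α : Type*} [Primcodable α]

theorem pad_p {k : α → ℕ} {e : α → List ℕ} (hk : Primrec k) (he : Primrec e) :
    Primrec fun a => pad (k a) (e a) :=
  Primrec.list_append.comp he
    (replicate_p.comp (Primrec.nat_sub.comp hk (Primrec.list_length.comp he)))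

theorem mm_p {k : α → ℕ} {f g : α → Mono} (hk : Primrec k) (hf : Primrec f) (hg : Primrec g) :
    Primrec fun a => mm (k a) (f a) (g a) :=
  Primrec.pair (cmul_p (Primrec.fst.comp hf) (Primrec.fst.comp hg))
    (Primrec.list_append.comp (pad_p hk (Primrec.snd.comp hf)) (Primrec.snd.comp hg))

theorem mulP_eq (k : ℕ) (A B : Poly) : mulP k A B = A.flatMap (fun a => B.map (mm k a)) := by
  induction A with
  | nil => rfl
  | cons a A ih => rw [mulP, ih, List.flatMap_cons]

theorem mulP_p {k : α → ℕ} {f g : α → Poly} (hk : Primrec k) (hf : Primrec f) (hg : Primrec g) :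
    Primrec fun a => mulP (k a) (f a) (g a) := by
  have h1 : Primrec₂ fun (p : α × Mono) (b : Mono) => mm (k p.1) p.2 b := by
    have : Primrec fun q : (α × Mono) × Mono => mm (k q.1.1) q.1.2 q.2 :=
      mm_p (hk.comp (Primrec.fst.comp Primrec.fst)) (Primrec.snd.comp Primrec.fst) Primrec.snd
    exact this.to₂
  have h2 : Primrec₂ fun (a : α) (m : Mono) => (g a).map fun b => mm (k a) m b := by
    have : Primrec fun p : α × Mono => (g p.1).map fun b => mm (k p.1) p.2 b :=
      Primrec.list_map (hg.comp Primrec.fst) h1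
    exact this.to₂
  exact (Primrec.list_flatMap hf h2).of_eq fun a => (mulP_eq _ _ _).symm

theorem shL_p {k : α → ℕ} {l : α → Dom} (hk : Primrec k) (hl : Primrec l) :
    Primrec fun a => shL (k a) (l a) := by
  have h1 : Primrec fun p : α × (Bool × Poly) => ((p.2.1, shP (k p.1) p.2.2) : Bool × Poly) :=
    Primrec.pair (Primrec.fst.comp Primrec.snd)
      (Cmp.shP_p (hk.comp Primrec.fst) (Primrec.snd.comp Primrec.snd))
  exact Primrec.list_map hl h1.to₂

theorem mulD_p {k : α → ℕ} {l m : α → Dom} (hk : Primrec k) (hl : Primrec l) (hm : Primrec m) :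
    Primrec fun a => mulD (k a) (l a) (m a) :=
  Primrec.list_append.comp hl (shL_p hk hm)

theorem mulC_p {f g : α → Code} (hf : Primrec f) (hg : Primrec g) :
    Primrec fun a => mulC (f a) (g a) := by
  have f0 : Primrec fun a => (f a).1 := Primrec.fst.comp hf
  have f1 : Primrec fun a => (f a).2.1 := Primrec.fst.comp (Primrec.snd.comp hf)
  have f2 : Primrec fun a => (f a).2.2.1 :=
    Primrec.fst.comp (Primrec.snd.comp (Primrec.snd.comp hf))
  have f3 : Primrec fun a => (f a).2.2.2 :=
    Primrec.snd.comp (Primrec.snd.comp (Primrec.snd.comp hf))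
  have g0 : Primrec fun a => (g a).1 := Primrec.fst.comp hg
  have g1 : Primrec fun a => (g a).2.1 := Primrec.fst.comp (Primrec.snd.comp hg)
  have g2 : Primrec fun a => (g a).2.2.1 :=
    Primrec.fst.comp (Primrec.snd.comp (Primrec.snd.comp hg))
  have g3 : Primrec fun a => (g a).2.2.2 :=
    Primrec.snd.comp (Primrec.snd.comp (Primrec.snd.comp hg))
  exact Primrec.pair (Primrec.nat_add.comp f0 g0) (Primrec.pair (mulP_p f0 f1 g1)
    (Primrec.pair (mulP_p f0 f2 g2) (mulD_p f0 f3 g3)))

end XMul

theorem t_mulC : S_mulC := XMul.mulC_p Primrec.fst Primrec.snd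

end Pool.Agent.H652.PV
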