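import Pool.Agent.H652.PV.Pairs
import Pool.Agent.H652.PV.XMul

/-!
# Two complex periods: one explicit integral
-/

set_option autoImplicit false
set_option synthInstance.maxSize 2000

namespace Pool.Agent.H652.PV

open Pool.Agent.TH960.PE MeasureTheory

/-- `a = (n, F, G, H)`, where `F`, `G`, `H` are polynomials in `n` variables with integer coefficients, of
degree at most four and of the form `1 - ∑ q ^ 2` with integer polynomials `q` of degree at most two, with
regions `F > 0`, `G > 0`, `H > 0` of finite volume, the last one not zero, and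
`x = (vol (F > 0) - vol (G > 0)) / vol (H > 0)`. -/
def QuotForm (x : ℝ) (a : ℕ × Poly × Poly × Poly) : Prop :=
  (Fine4 a.1 a.2.1 ∧ Sq a.1 a.2.1) ∧ (Fine4 a.1 a.2.2.1 ∧ Sq a.1 a.2.2.1) ∧
    (Fine4 a.1 a.2.2.2 ∧ Sq a.1 a.2.2.2) ∧ volume (reg a.1 a.2.2.2) ≠ 0 ∧
      x = ((volume (reg a.1 a.2.1)).toReal - (volume (reg a.1 a.2.2.1)).toReal) /
        (volume (reg a.1 a.2.2.2)).toReal

namespace Pairs

/-- the square of the distance of two periods as an explicit integral -/
def dC (p : Pres × Pres) : Code := mulC twoC (hC (pp p))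

lemma dC_p : Primrec dC := (prim_mulC twoC).comp (hC_p.comp (pp_p t_mulC))

lemma hC_spec' (p : ℕ × Poly × Poly) (hF : Fine p.1 p.2.1) (hG : Fine p.1 p.2.2) :
    Adm (hC p) ∧ val (hC p) =
      ((volume (reg p.1 p.2.1)).toReal - (volume (reg p.1 p.2.2)).toReal) / 2 := by
  obtain ⟨n, F, G⟩ := p
  exact hC_spec n F G hF hG

lemma dC_spec (p q : Pres) (hp : PAdm p) (hq : PAdm q) :
    Adm (dC (p, q)) ∧ val (dC (p, q)) = ‖pval p - pval q‖ ^ 2 := by
  obtain ⟨hF, hG, hv⟩ := pp_spec p q hp hq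
  obtain ⟨a, b⟩ := hC_spec' _ hF hG
  obtain ⟨t1, t2⟩ := twoC_spec
  refine ⟨adm_mulC _ _ t1 a, ?_⟩
  unfold dC
  rw [val_mulC _ _ t1, t2, b, hv]
  ring

/-- **Normal form.** -/
theorem quot_normal : ∃ R : Code → ℕ × Poly × Poly × Poly, Primrec R ∧
    ∀ c, Adm c → QuotForm (val c) (R c) := normal_sq

/-- **Many-one reduction.** -/
theorem quot_pair : ∃ R : Pres × Pres → ℕ × Poly × Poly × Poly, Primrec R ∧
    ∀ p q, PAdm p → PAdm q → QuotForm (‖pval p - pval q‖ ^ 2) (R (p, q)) := by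
  obtain ⟨R, hR, h⟩ := quot_normal
  refine ⟨fun p => R (dC p), hR.comp dC_p, fun p q hp hq => ?_⟩
  obtain ⟨a, b⟩ := dC_spec p q hp hq
  rw [← b]
  exact h _ a

end Pairs

end Pool.Agent.H652.PV
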