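import Pool.Agent.H652.PV.SinFin
import Pool.Agent.H652.PV.PairQ

/-!
# Codes of polynomials and `MvPolynomial`
-/

set_option autoImplicit false
set_option synthInstance.maxSize 2000

namespace Pool.Agent.H652.PV

open Pool.Agent.TH960.PE MeasureTheory

namespace Mvp

lemma code_exists {n : ℕ} (f : MvPolynomial (Fin n) ℤ) : ∃ F : Poly, IsPoly n F ∧ IsInt F ∧
    ∀ x : Fin n → ℝ, pev (ext x) F = (MvPolynomial.aeval x f : ℝ) := by
  induction f using MvPolynomial.induction_on with
  | C a =>
    refine ⟨[((a.toNat, (-a).toNat, 0), [])], ?_, ?_, ?_⟩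
    · intro m hm
      rw [List.mem_singleton] at hm
      subst hm
      exact Nat.zero_le _
    · intro m hm
      rw [List.mem_singleton] at hm
      subst hm
      rfl
    · intro x
      have h : ((a.toNat : ℝ)) - ((-a).toNat : ℝ) = (a : ℝ) := by
        have := Int.toNat_sub_toNat_neg a
        exact_mod_cast this
      rw [SChain.pev_const, MvPolynomial.aeval_C]
      simp [cv, h]
  | add p q hp hq =>
    obtain ⟨P, p1, p2, p3⟩ := hp
    obtain ⟨Q, q1, q2, q3⟩ := hq
    exact ⟨P ++ Q, SChain.isPoly_append p1 q1, isInt_append p2 q2, fun x => by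
      rw [pev_append, p3, q3, map_add]⟩
  | mul_X p i hp =>
    obtain ⟨P, p1, p2, p3⟩ := hp
    refine ⟨mulS P (varP i), isPoly_mulS p1 (isPoly_varP i.2), isInt_mulS p2 (isInt_varP _),
      fun x => ?_⟩
    rw [pev_mulS, p3, map_mul, MvPolynomial.aeval_X, pev_varP]
    congr 1
    unfold ext
    rw [dif_pos i.2]

lemma mono_exists {n : ℕ} (e : List ℕ) : ∀ k, k + e.length ≤ n →
    ∃ g : MvPolynomial (Fin n) ℤ, g.totalDegree ≤ e.sum ∧
      ∀ x : Fin n → ℝ, (MvPolynomial.aeval x g : ℝ) = mev (fun i => ext x (i + k)) e := by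
  induction e with
  | nil => exact fun k _ => ⟨1, by simp, fun x => by simp [mev]⟩
  | cons a e ih =>
    intro k hk
    rw [List.length_cons] at hk
    obtain ⟨g, g1, g2⟩ := ih (k + 1) (by omega)
    refine ⟨MvPolynomial.X ⟨k, by omega⟩ ^ a * g, ?_, fun x => ?_⟩
    · refine (MvPolynomial.totalDegree_mul _ _).trans ?_
      rw [List.sum_cons]
      refine add_le_add ?_ g1
      exact (MvPolynomial.totalDegree_pow _ _).trans (by simp [MvPolynomial.totalDegree_X])
    · rw [map_mul, map_pow, MvPolynomial.aeval_X, g2]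
      have h1 : ext x (0 + k) = x ⟨k, by omega⟩ := by
        rw [Nat.zero_add]
        unfold ext
        rw [dif_pos (by omega)]
      change _ = ext x (0 + k) ^ a * mev (fun i => ext x (i + 1 + k)) e
      rw [h1]
      congr 3
      funext i
      congr 1
      omega

lemma poly_exists {n d : ℕ} (F : Poly) (h1 : IsPoly n F) (h2 : IsInt F) (h3 : Deg d F) :
    ∃ f : MvPolynomial (Fin n) ℤ, f.totalDegree ≤ d ∧
      ∀ x : Fin n → ℝ, (MvPolynomial.aeval x f : ℝ) = pev (ext x) F := by
  induction F with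
  | nil => exact ⟨0, by simp, fun x => by simp [pev]⟩
  | cons m F ih =>
    obtain ⟨f, f1, f2⟩ := ih (fun a ha => h1 a (List.mem_cons_of_mem _ ha))
      (fun a ha => h2 a (List.mem_cons_of_mem _ ha)) (fun a ha => h3 a (List.mem_cons_of_mem _ ha))
    obtain ⟨g, g1, g2⟩ := mono_exists (n := n) m.2 0 (by
      have := h1 m List.mem_cons_self
      omega)
    have hm : m.1.2.2 = 0 := h2 m List.mem_cons_self
    have hd : m.2.sum ≤ d := h3 m List.mem_cons_self
    refine ⟨MvPolynomial.C ((m.1.1 : ℤ) - m.1.2.1) * g + f, ?_, fun x => ?_⟩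
    · refine (MvPolynomial.totalDegree_add _ _).trans (max_le ?_ f1)
      refine (MvPolynomial.totalDegree_mul _ _).trans ?_
      rw [MvPolynomial.totalDegree_C, Nat.zero_add]
      exact g1.trans hd
    · rw [map_add, map_mul, f2, g2, pev_cons, MvPolynomial.aeval_C]
      unfold cv
      rw [hm]
      simp

lemma poly_exists' {n : ℕ} (F : Poly) (h1 : IsPoly n F) (h2 : IsInt F) :
    ∃ f : MvPolynomial (Fin n) ℤ, ∀ x : Fin n → ℝ, (MvPolynomial.aeval x f : ℝ) = pev (ext x) F := by
  obtain ⟨f, -, hf⟩ := poly_exists (d := (F.map fun m => m.2.sum).sum) F h1 h2 (fun m hm =>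
    List.single_le_sum (fun _ _ => Nat.zero_le _) _ (List.mem_map.2 ⟨m, hm, rfl⟩))
  exact ⟨f, hf⟩

end Mvp

end Pool.Agent.H652.PV
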