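import Pool.Agent.H652.PV.Main5

/-!
# Comparison of periods and regions given by a quartic inequality
-/

set_option autoImplicit false
set_option synthInstance.maxSize 2000

namespace Pool.Agent.H652.PV

open Pool.Agent.TH960.PE MeasureTheory

/-- There is an algorithm which decides, for integer polynomials `F`, `G` of degree at most `d` in `n`
variables such that `F > 0` and `G > 0` have finite volume, whether the relation `R` (for us `=` or `≤`)
holds for these volumes. -/
def VolDec (R : ENNReal → ENNReal → Prop) (d : ℕ) : Prop :=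
  ∃ f : (ℕ × Poly × Poly) →. Bool, Partrec f ∧ ∀ (n : ℕ) (F G : Poly), Fine n F → Deg d F →
    Fine n G → Deg d G →
    ∃ b ∈ f (n, F, G), (b = true ↔ R (volume (reg n F)) (volume (reg n G)))

/-- There is an algorithm which decides, for an integer polynomial `F` of degree at most `d` in `n`
variables such that `F > 0` has finite volume and for `k < n`, whether the relation `R` holds for the
volumes of the parts `x_k > 0` and `x_k < 0` of this region. -/
def HalfDec (R : ENNReal → ENNReal → Prop) (d : ℕ) : Prop :=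
  ∃ f : (ℕ × ℕ × Poly) →. Bool, Partrec f ∧ ∀ (n k : ℕ) (F : Poly), k < n → Fine n F → Deg d F →
    ∃ b ∈ f (n, k, F), (b = true ↔
      R (volume {x | x ∈ reg n F ∧ 0 < ext x k}) (volume {x | x ∈ reg n F ∧ ext x k < 0}))

/-- There is an algorithm which decides, for an integer polynomial `F` of degree at most `d` in `n`
variables such that `F > 0` has finite volume and for `k < n` such that `x_k` is integrable on this region,
whether the relation `R` holds for the integral of `x_k` over `F > 0` and zero. -/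
def MomDec (R : ℝ → ℝ → Prop) (d : ℕ) : Prop :=
  ∃ f : (ℕ × ℕ × Poly) →. Bool, Partrec f ∧ ∀ (n k : ℕ) (F : Poly), k < n → Fine n F → Deg d F →
    IntegrableOn (fun x : Fin n → ℝ => ext x k) (reg n F) →
    ∃ b ∈ f (n, k, F), (b = true ↔ R (∫ x in reg n F, ext x k) 0)

/-- There is an algorithm which decides, for integer polynomials `F`, `G` of degree at most `d` in `n`
variables such that `F > 0` and `G > 0` have finite volume, and for integer polynomials `P`, `Q` of ANY
degree in `n` variables, whether the relation `R` holds for the integrals of `P` over `F > 0` and of `Q`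
over `G > 0`. -/
def IntDec (R : ℝ → ℝ → Prop) (d : ℕ) : Prop :=
  ∃ f : ((ℕ × (Poly × Poly)) × (Poly × Poly)) →. Bool, Partrec f ∧
    ∀ (n : ℕ) (F G P Q : Poly), Fine n F → Deg d F → Fine n G → Deg d G →
      IsPoly n P → IsInt P → IsPoly n Q → IsInt Q →
    ∃ b ∈ f ((n, (F, P)), (G, Q)), (b = true ↔
      R (∫ x in reg n F, pev (ext x) P) (∫ x in reg n G, pev (ext x) Q))

/-! ### Equality -/

theorem volDec_eq : VolDec (· = ·) 4 ↔ EqualVolumes4 :=
  ⟨fun ⟨f, hf, hd⟩ => ⟨f, hf, fun n F G hF hG => hd n F G hF.1 hF.2 hG.1 hG.2⟩,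
    fun ⟨f, hf, hd⟩ => ⟨f, hf, fun n F G a b c d => hd n F G ⟨a, b⟩ ⟨c, d⟩⟩⟩

theorem halfDec_eq : HalfDec (· = ·) 4 ↔ Bisected4 :=
  ⟨fun ⟨f, hf, hd⟩ => ⟨f, hf, fun n k F hk hF => hd n k F hk hF.1 hF.2⟩,
    fun ⟨f, hf, hd⟩ => ⟨f, hf, fun n k F hk a b => hd n k F hk ⟨a, b⟩⟩⟩

theorem momDec_eq : MomDec (· = ·) 4 ↔ MomentZero4 :=
  ⟨fun ⟨f, hf, hd⟩ => ⟨f, hf, fun n k F hk hF => hd n k F hk hF.1 hF.2⟩,
    fun ⟨f, hf, hd⟩ => ⟨f, hf, fun n k F hk a b => hd n k F hk ⟨a, b⟩⟩⟩

/-! ### Order: from periods to regions -/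

/-- Two real periods. -/
lemma pair_le (c c' : Code) (hc : Adm c) (hc' : Adm c') :
    PAdm (c, zeroCode) ∧ PAdm (c', zeroCode) ∧
      ((pval (c, zeroCode)).re ≤ (pval (c', zeroCode)).re ↔ val c ≤ val c') := by
  refine ⟨⟨hc, zero_code.1⟩, ⟨hc', zero_code.1⟩, ?_⟩
  rw [val_re, val_re]

theorem volLe_of_order (h : AlgDecidable (fun a b => a.re ≤ b.re)) (d : ℕ) :
    VolDec (· ≤ ·) d := by
  obtain ⟨f, hf, hd⟩ := h
  refine ⟨fun p => f ((volCode p.1 [p.2.1], zeroCode), (volCode p.1 [p.2.2], zeroCode)),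
    hf.comp (Primrec.to_comp ?_), fun n F G hF _ hG _ => ?_⟩
  · have n : Primrec fun p : ℕ × Poly × Poly => p.1 := Primrec.fst
    have F : Primrec fun p : ℕ × Poly × Poly => [p.2.1] :=
      Primrec.list_cons.comp (Primrec.fst.comp Primrec.snd) (Primrec.const [])
    have G : Primrec fun p : ℕ × Poly × Poly => [p.2.2] :=
      Primrec.list_cons.comp (Primrec.snd.comp Primrec.snd) (Primrec.const [])
    exact Primrec.pair (Primrec.pair (volCode_p n F) (Primrec.const _))
      (Primrec.pair (volCode_p n G) (Primrec.const _))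
  · obtain ⟨a, b, v, w⟩ := comb_one n F G hF hG
    have c1 := vol_code n [F] (fun g hg => (a g hg).1) (by rw [list_one]; exact hF.2.2)
    have c2 := vol_code n [G] (fun g hg => (b g hg).1) (by rw [list_one]; exact hG.2.2)
    obtain ⟨p1, p2, p3⟩ := pair_le _ _ c1.1 c2.1
    obtain ⟨c, hc, h1⟩ := hd _ _ p1 p2
    refine ⟨c, hc, h1.trans (p3.trans ?_)⟩
    rw [c1.2, c2.2, list_one, list_one]
    exact ENNReal.toReal_le_toReal hF.2.2 hG.2.2

theorem halfLe_of_order (h : AlgDecidable (fun a b => a.re ≤ b.re)) (d : ℕ) :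
    HalfDec (· ≤ ·) d := by
  obtain ⟨f, hf, hd⟩ := h
  refine ⟨fun p => f ((volCode p.1 [p.2.2, varP p.2.1], zeroCode),
    (volCode p.1 [p.2.2, negP (varP p.2.1)], zeroCode)),
    hf.comp (Primrec.to_comp ?_), fun n k F hk hF _ => ?_⟩
  · have n : Primrec fun p : ℕ × ℕ × Poly => p.1 := Primrec.fst
    have k : Primrec fun p : ℕ × ℕ × Poly => p.2.1 := Primrec.fst.comp Primrec.snd
    have F : ∀ g : ℕ × ℕ × Poly → Poly, Primrec g →
        Primrec fun p : ℕ × ℕ × Poly => [p.2.2, g p] := fun g hg =>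
      Primrec.list_cons.comp (Primrec.snd.comp Primrec.snd)
        (Primrec.list_cons.comp hg (Primrec.const []))
    exact Primrec.pair (Primrec.pair (volCode_p n (F _ (PrimT.varP_p k))) (Primrec.const _))
      (Primrec.pair (volCode_p n (F _ (PrimT.negP_p (PrimT.varP_p k)))) (Primrec.const _))
  · have hv : IsPoly n (varP k) := isPoly_varP hk
    have s1 : {x : Fin n → ℝ | ∀ g ∈ [F, varP k], 0 < pev (ext x) g} =
        {x | x ∈ reg n F ∧ 0 < ext x k} := by
      ext x
      simp [reg, pev_varP]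
    have s2 : {x : Fin n → ℝ | ∀ g ∈ [F, negP (varP k)], 0 < pev (ext x) g} =
        {x | x ∈ reg n F ∧ ext x k < 0} := by
      ext x
      simp [reg, pev_varP, pev_negP]
    have f1 : volume {x : Fin n → ℝ | x ∈ reg n F ∧ 0 < ext x k} ≠ ⊤ :=
      ((measure_mono fun x hx => hx.1).trans_lt hF.2.2.lt_top).ne
    have f2 : volume {x : Fin n → ℝ | x ∈ reg n F ∧ ext x k < 0} ≠ ⊤ :=
      ((measure_mono fun x hx => hx.1).trans_lt hF.2.2.lt_top).ne
    have c1 := vol_code n [F, varP k] (by simpa using ⟨hF.1, hv⟩) (by rw [s1]; exact f1)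
    have c2 := vol_code n [F, negP (varP k)] (by simpa using ⟨hF.1, isPoly_negP hv⟩)
      (by rw [s2]; exact f2)
    obtain ⟨p1, p2, p3⟩ := pair_le _ _ c1.1 c2.1
    obtain ⟨c, hc, h1⟩ := hd _ _ p1 p2
    refine ⟨c, hc, h1.trans (p3.trans ?_)⟩
    rw [c1.2, c2.2, s1, s2]
    exact ENNReal.toReal_le_toReal f1 f2

lemma mom_code (n k : ℕ) (F : Poly) (hk : k < n) (hF : Fine n F)
    (hI : IntegrableOn (fun x : Fin n → ℝ => ext x k) (reg n F)) :
    Adm (momCode' n k F) ∧ val (momCode' n k F) = ∫ x in reg n F, ext x k := by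
  classical
  have hm := measurableSet_reg n F
  have h1 : (fun x : Fin n → ℝ => integrand (ext x) (momCode' n k F)) =
      (reg n F).indicator (fun x => ext x k) := by
    funext x
    have h3 : InDom (ext x) [(true, F)] ↔ 0 < pev (ext x) F := by
      have := inDom_vol [F] (ext x)
      simpa using this
    unfold integrand momCode'
    simp only [h3, pev_natP, pev_varP]
    by_cases h : 0 < pev (ext x) F
    · rw [if_pos h, Set.indicator_of_mem (by exact h)]
      norm_num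
    · rw [if_neg h, Set.indicator_of_notMem (by exact h)]
  constructor
  · refine ⟨isPoly_varP hk, isPoly_natP _ _, ?_, ⟨0, ?_⟩, ?_⟩
    · intro g hg
      rw [List.mem_singleton.1 hg]
      exact hF.1
    · change pev _ (natP 1) ≠ 0
      rw [pev_natP]
      norm_num
    · change Integrable (fun x : Fin n → ℝ => integrand (ext x) (momCode' n k F))
      rw [h1, integrable_indicator_iff hm]
      exact hI
  · change ∫ x : Fin n → ℝ, integrand (ext x) (momCode' n k F) = _
    rw [h1, integral_indicator hm]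

theorem momLe_of_order (h : AlgDecidable (fun a b => a.re ≤ b.re)) (d : ℕ) :
    MomDec (· ≤ ·) d := by
  obtain ⟨f, hf, hd⟩ := h
  refine ⟨fun p => f ((momCode' p.1 p.2.1 p.2.2, zeroCode), (zeroCode, zeroCode)),
    hf.comp (Primrec.to_comp ?_), fun n k F hk hF _ hI => ?_⟩
  · have n : Primrec fun p : ℕ × ℕ × Poly => p.1 := Primrec.fst
    have k : Primrec fun p : ℕ × ℕ × Poly => varP p.2.1 :=
      PrimT.varP_p (Primrec.fst.comp Primrec.snd)
    have F : Primrec fun p : ℕ × ℕ × Poly => [((true, p.2.2) : Bool × Poly)] :=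
      Primrec.list_cons.comp (Primrec.pair (Primrec.const true) (Primrec.snd.comp Primrec.snd))
        (Primrec.const [])
    exact Primrec.pair (Primrec.pair (Primrec.pair n (Primrec.pair k
      (Primrec.pair (Primrec.const _) F))) (Primrec.const _)) (Primrec.const _)
  · obtain ⟨hA, hV⟩ := mom_code n k F hk hF hI
    obtain ⟨p1, p2, p3⟩ := pair_le _ _ hA zero_code.1
    obtain ⟨c, hc, h2⟩ := hd _ _ p1 p2
    refine ⟨c, hc, h2.trans (p3.trans ?_)⟩
    rw [hV, zero_code.2]

/-! ### Order: from regions to periods -/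

/-- Comparison of the volumes of all regions given by one polynomial. -/
def LeVolumes : Prop :=
  ∃ f : (ℕ × Poly × Poly) →. Bool, Partrec f ∧ ∀ (n : ℕ) (F G : Poly), Fine n F → Fine n G →
    ∃ b ∈ f (n, F, G), (b = true ↔ volume (reg n F) ≤ volume (reg n G))

theorem order_of_volumes (h : LeVolumes) : AlgDecidable (fun a b => a.re ≤ b.re) := by
  obtain ⟨f, hf, hd⟩ := h
  let T : Code × Code → ℕ × Poly × Poly := fun p =>
    ((comb (1 + p.1.1) (regP p.1) (1 + p.2.1) (regN p.2)).1,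
      (comb (1 + p.1.1) (regP p.1) (1 + p.2.1) (regN p.2)).2,
      (comb (1 + p.1.1) (regN p.1) (1 + p.2.1) (regP p.2)).2)
  have hT : Primrec T := by
    have n1 : Primrec fun p : Code × Code => 1 + p.1.1 :=
      Primrec.nat_add.comp (Primrec.const 1) (Primrec.fst.comp Primrec.fst)
    have n2 : Primrec fun p : Code × Code => 1 + p.2.1 :=
      Primrec.nat_add.comp (Primrec.const 1) (Primrec.fst.comp Primrec.snd)
    have A := Cmp.comb_p n1 (Cmp.regP_p t_zero Primrec.fst) n2 (Cmp.regN_p t_zero Primrec.snd)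
    have B := Cmp.comb_p n1 (Cmp.regN_p t_zero Primrec.fst) n2 (Cmp.regP_p t_zero Primrec.snd)
    exact Primrec.pair (Primrec.fst.comp A) (Primrec.pair (Primrec.snd.comp A)
      (Primrec.snd.comp B))
  have key : ∀ c c' : Code, Adm c → Adm c' → ∃ b ∈ f (T (c, c')), (b = true ↔ val c ≤ val c') := by
    intro c c' hc hc'
    have r := isPoly_reg hc
    have r' := isPoly_reg hc'
    have v := fin_reg c hc t_zero
    have v' := fin_reg c' hc' t_zero
    have F1 := fine_comb (1 + c.1) (regP c) r.1 (1 + c'.1) (regN c') r'.2 v.1 v'.2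
    have F2 := fine_comb (1 + c.1) (regN c) r.2 (1 + c'.1) (regP c') r'.1 v.2 v'.1
    have hN : (comb (1 + c.1) (regN c) (1 + c'.1) (regP c')).1 =
        (comb (1 + c.1) (regP c) (1 + c'.1) (regN c')).1 := by
      rw [comb_fst, comb_fst, length_reg c, length_reg c']
    have e1 := volume_comb (1 + c.1) (regP c) (fun g hg => (r.1 g hg).1) (1 + c'.1) (regN c')
      (fun g hg => (r'.2 g hg).1)
    have e2 := volume_comb (1 + c.1) (regN c) (fun g hg => (r.2 g hg).1) (1 + c'.1) (regP c')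
      (fun g hg => (r'.1 g hg).1)
    rw [hN] at F2 e2
    obtain ⟨b, hb, h1⟩ := hd _ _ _ F1 F2
    refine ⟨b, hb, h1.trans ?_⟩
    rw [e1, e2, val_eq c hc t_zero, val_eq c' hc' t_zero]
    rw [← ENNReal.toReal_le_toReal (ENNReal.add_ne_top.2 ⟨v.1, v'.2⟩)
      (ENNReal.add_ne_top.2 ⟨v.2, v'.1⟩), ENNReal.toReal_add v.1 v'.2, ENNReal.toReal_add v.2 v'.1]
    constructor <;> intro h <;> linarith
  refine ⟨fun x => f (T (x.1.1, x.2.1)), ?_, ?_⟩
  · exact hf.comp (hT.to_comp.comp ((Primrec.fst.comp Primrec.fst).pair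
      (Primrec.fst.comp Primrec.snd)).to_comp)
  · intro p q hp hq
    obtain ⟨b, hb, h1⟩ := key p.1 q.1 hp.1 hq.1
    exact ⟨b, hb, h1.trans (by simp only [val_re])⟩

theorem leVolumes_of_four (h : VolDec (· ≤ ·) 4) : LeVolumes := by
  obtain ⟨f, hf, hd⟩ := h
  have hq : Primrec fun p : ℕ × Poly × Poly => q3 (p.1, p.2.1, p.2.2, []) :=
    (q3_p t_qprim).comp (Primrec.fst.pair ((Primrec.fst.comp Primrec.snd).pair
      ((Primrec.snd.comp Primrec.snd).pair (Primrec.const []))))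
  have hq' : Primrec fun p : ℕ × Poly × Poly => (((q3 (p.1, p.2.1, p.2.2, [])).1,
      (q3 (p.1, p.2.1, p.2.2, [])).2.1, (q3 (p.1, p.2.1, p.2.2, [])).2.2.1) : ℕ × Poly × Poly) :=
    (Primrec.fst.comp hq).pair ((Primrec.fst.comp (Primrec.snd.comp hq)).pair
      (Primrec.fst.comp (Primrec.snd.comp (Primrec.snd.comp hq))))
  refine ⟨fun p => f ((q3 (p.1, p.2.1, p.2.2, [])).1,
      (q3 (p.1, p.2.1, p.2.2, [])).2.1, (q3 (p.1, p.2.1, p.2.2, [])).2.2.1),
    hf.comp hq'.to_comp, fun n F G hF hG => ?_⟩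
  obtain ⟨a, b, -, C, c0, c1, e1, e2, -⟩ := q3_spec t_jl t_rot (t_tree t_jl) (t_inn t_jl)
    (t_cst t_jl) t_base t_qval n F G [] hF hG
    (fine_nil t_jl t_rot (t_tree t_jl) (t_inn t_jl) (t_cst t_jl) t_base t_qval n)
  obtain ⟨r, hr, h1⟩ := hd _ _ _ a.1 a.2 b.1 b.2
  refine ⟨r, hr, h1.trans ?_⟩
  change volume (reg (q3 _).1 (q3 _).2.1) ≤ volume (reg (q3 _).1 (q3 _).2.2.1) ↔ _
  rw [e1, e2]
  exact ENNReal.mul_le_mul_iff_right c0 c1

theorem leVolumes_of_half (h : HalfDec (· ≤ ·) 4) : LeVolumes := by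
  obtain ⟨f, hf, hd⟩ := h
  refine ⟨fun p => f (two4 p), hf.comp two4_p.to_comp, fun n F G hF hG => ?_⟩
  obtain ⟨h1, h2, ⟨C, c0, c1, h3, h4⟩, -⟩ := two4_spec n F G hF hG
  obtain ⟨c, hc, h⟩ := hd _ _ _ h1 h2.1 h2.2
  refine ⟨c, hc, h.trans ?_⟩
  change volume {x | x ∈ reg (two4 (n, F, G)).1 (two4 (n, F, G)).2.2 ∧
      0 < ext x (two4 (n, F, G)).2.1} ≤
    volume {x | x ∈ reg (two4 (n, F, G)).1 (two4 (n, F, G)).2.2 ∧
      ext x (two4 (n, F, G)).2.1 < 0} ↔ _
  rw [h3, h4]
  exact ENNReal.mul_le_mul_iff_right c0 c1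

theorem leVolumes_of_mom (h : MomDec (· ≤ ·) 4) : LeVolumes := by
  obtain ⟨f, hf, hd⟩ := h
  refine ⟨fun p => f (two4 p), hf.comp two4_p.to_comp, fun n F G hF hG => ?_⟩
  obtain ⟨h1, h2, -, h5, C, c0, h6⟩ := two4_spec n F G hF hG
  obtain ⟨c, hc, h⟩ := hd _ _ _ h1 h2.1 h2.2 h5
  refine ⟨c, hc, h.trans ?_⟩
  change ∫ x in reg (two4 (n, F, G)).1 (two4 (n, F, G)).2.2, ext x (two4 (n, F, G)).2.1 ≤ 0 ↔ _
  rw [h6, ← ENNReal.toReal_le_toReal hF.2.2 hG.2.2]
  constructor
  · intro h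
    by_contra h7
    have := mul_pos c0 (sub_pos.2 (not_le.1 h7))
    linarith
  · intro h
    have := mul_nonneg c0.le (sub_nonneg.2 h)
    nlinarith

/-- **Order of periods and regions of degree four.** -/
theorem order4 :
    (AlgDecidable (fun a b => a.re ≤ b.re) ↔ VolDec (· ≤ ·) 4) ∧
    (AlgDecidable (fun a b => a.re ≤ b.re) ↔ HalfDec (· ≤ ·) 4) ∧
    (AlgDecidable (fun a b => a.re ≤ b.re) ↔ MomDec (· ≤ ·) 4) :=
  ⟨⟨fun h => volLe_of_order h 4, fun h => order_of_volumes (leVolumes_of_four h)⟩,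
    ⟨fun h => halfLe_of_order h 4, fun h => order_of_volumes (leVolumes_of_half h)⟩,
    ⟨fun h => momLe_of_order h 4, fun h => order_of_volumes (leVolumes_of_mom h)⟩⟩

end Pool.Agent.H652.PV
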