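import Pool.Agent.H652.PV.Whole
import Pool.Agent.H652.PV.Maps2
import Pool.Agent.H652.PV.XItg

/-!
# Two regions for two complex periods
-/

set_option autoImplicit false
set_option synthInstance.maxSize 2000

namespace Pool.Agent.H652.PV

open Pool.Agent.TH960.PE MeasureTheory

namespace Pairs

/-- two regions for the difference of two real periods -/
def tt (p : Code × Code) : ℕ × Poly × Poly :=
  ((comb (1 + p.1.1) (regP p.1) (1 + p.2.1) (regN p.2)).1,
    (comb (1 + p.1.1) (regP p.1) (1 + p.2.1) (regN p.2)).2,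
    (comb (1 + p.1.1) (regN p.1) (1 + p.2.1) (regP p.2)).2)

lemma tt_p : Primrec tt := by
  have n1 : Primrec fun p : Code × Code => 1 + p.1.1 :=
    Primrec.nat_add.comp (Primrec.const 1) (Primrec.fst.comp Primrec.fst)
  have n2 : Primrec fun p : Code × Code => 1 + p.2.1 :=
    Primrec.nat_add.comp (Primrec.const 1) (Primrec.fst.comp Primrec.snd)
  have A := Cmp.comb_p n1 (Cmp.regP_p t_zero Primrec.fst) n2 (Cmp.regN_p t_zero Primrec.snd)
  have B := Cmp.comb_p n1 (Cmp.regN_p t_zero Primrec.fst) n2 (Cmp.regP_p t_zero Primrec.snd)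
  exact Primrec.pair (Primrec.fst.comp A) (Primrec.pair (Primrec.snd.comp A)
    (Primrec.snd.comp B))

lemma tt_spec (c c' : Code) (hc : Adm c) (hc' : Adm c') :
    Fine (tt (c, c')).1 (tt (c, c')).2.1 ∧ Fine (tt (c, c')).1 (tt (c, c')).2.2 ∧
      (volume (reg (tt (c, c')).1 (tt (c, c')).2.1)).toReal -
        (volume (reg (tt (c, c')).1 (tt (c, c')).2.2)).toReal = val c - val c' := by
  have r := isPoly_reg hc
  have r' := isPoly_reg hc'
  have v := fin_reg c hc t_zero
  have v' := fin_reg c' hc' t_zero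
  have F1 := fine_comb (1 + c.1) (regP c) r.1 (1 + c'.1) (regN c') r'.2 v.1 v'.2
  have F2 := fine_comb (1 + c.1) (regN c) r.2 (1 + c'.1) (regP c') r'.1 v.2 v'.1
  have hN : (comb (1 + c.1) (regN c) (1 + c'.1) (regP c')).1 =
      (comb (1 + c.1) (regP c) (1 + c'.1) (regN c')).1 := by
    rw [comb_fst, comb_fst, length_reg c, length_reg c']
  have e1 := volume_comb (1 + c.1) (regP c) (fun g hg => (r.1 g hg).1) (1 + c'.1) (regN c')
    (fun g hg => (r'.2 g hg).1)
  have e2 := volume_comb (1 + c.1) (regN c) (fun g hg => (r.2 g hg).1) (1 + c'.1) (regP c')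
    (fun g hg => (r'.1 g hg).1)
  rw [hN] at F2 e2
  refine ⟨F1, F2, ?_⟩
  change (volume (reg (comb (1 + c.1) (regP c) (1 + c'.1) (regN c')).1
    (comb (1 + c.1) (regP c) (1 + c'.1) (regN c')).2)).toReal -
    (volume (reg (comb (1 + c.1) (regP c) (1 + c'.1) (regN c')).1
      (comb (1 + c.1) (regN c) (1 + c'.1) (regP c')).2)).toReal = _
  rw [e1, e2, ENNReal.toReal_add v.1 v'.2, ENNReal.toReal_add v.2 v'.1, val_eq c hc t_zero,
    val_eq c' hc' t_zero]
  ring

/-- half the difference of two volumes as an explicit integral -/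
def hC (p : ℕ × Poly × Poly) : Code := momCode' ((two p).1 + 1) 0 (two p).2

lemma hC_p : Primrec hC := by
  have n : Primrec fun p : ℕ × Poly × Poly => (two p).1 + 1 :=
    Primrec.nat_add.comp (Primrec.fst.comp two_prim) (Primrec.const 1)
  have F : Primrec fun p : ℕ × Poly × Poly => [((true, (two p).2) : Bool × Poly)] :=
    Primrec.list_cons.comp (Primrec.pair (Primrec.const true) (Primrec.snd.comp two_prim))
      (Primrec.const [])
  exact Primrec.pair n (Primrec.pair (Primrec.const (varP 0))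
    (Primrec.pair (Primrec.const (natP 1)) F))

lemma hC_spec (n : ℕ) (F G : Poly) (hF : Fine n F) (hG : Fine n G) :
    Adm (hC (n, F, G)) ∧ val (hC (n, F, G)) =
      ((volume (reg n F)).toReal - (volume (reg n G)).toReal) / 2 := by
  obtain ⟨a, b, v, w⟩ := comb_one n F G hF hG
  have hN := pre_fst n [F] n [G]
  have hfine := fine_comb n [F] a n [G] b v w
  rw [← hN] at hfine
  obtain ⟨e1, e2⟩ := moment_comb n [F] a n [G] b v w _ hN
  have e0 : ∀ x : Fin ((pre (comb n [F] n [G])).1 + 1) → ℝ, ext x 0 = x 0 := fun x => by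
    simp [ext]
  obtain ⟨h1, h2⟩ := mom_code ((pre (comb n [F] n [G])).1 + 1) 0 _ (by omega) hfine
    (by simp only [e0]; exact e1)
  refine ⟨h1, ?_⟩
  change val (momCode' ((pre (comb n [F] n [G])).1 + 1) 0 (comb n [F] n [G]).2) = _
  rw [h2]
  simp only [e0]
  rw [e2, vol_reg, vol_reg]

/-- the number two -/
def twoC : Code := (0, natP 2, natP 1, [])

lemma twoC_spec : Adm twoC ∧ val twoC = 2 := by
  have h : RatFn 0 (natP 2) (natP 1) := by
    refine ⟨⟨isPoly_natP _ _, isInt_natP _⟩, ⟨isPoly_natP _ _, isInt_natP _⟩, fun X => ?_, ?_⟩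
    · rw [pev_natP]
      norm_num
    · simp only [pev_natP]
      exact integrable_const _
  obtain ⟨a, b⟩ := Whole.space_code 0 (natP 2) (natP 1) h
  refine ⟨a, ?_⟩
  change val (0, natP 2, natP 1, []) = 2
  rw [b]
  simp only [pev_natP]
  have h1 : (volume : Measure (Fin 0 → ℝ)) = Measure.dirac (fun i => i.elim0) := by
    rw [volume_pi]
    exact Measure.pi_of_empty _ _
  rw [h1, integral_dirac]
  norm_num

/-- the square of the difference of two real periods -/
def sqC (p : Code × Code) : Code := mulC (mulC twoC (hC (tt p))) (mulC twoC (hC (tt p)))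

lemma sqC_p (hM : S_mulC) : Primrec sqC := by
  have h1 : Primrec fun p : Code × Code => mulC twoC (hC (tt p)) :=
    (prim_mulC twoC).comp (hC_p.comp tt_p)
  exact (hM.comp (h1.pair h1)).of_eq fun p => rfl

lemma sqC_spec (c c' : Code) (hc : Adm c) (hc' : Adm c') :
    Adm (sqC (c, c')) ∧ val (sqC (c, c')) = (val c - val c') ^ 2 := by
  obtain ⟨a, b, e⟩ := tt_spec c c' hc hc'
  obtain ⟨h1, h2⟩ := hC_spec _ _ _ a b
  have h3 : Adm (hC (tt (c, c'))) := h1
  have h4 : val (hC (tt (c, c'))) = (val c - val c') / 2 := by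
    rw [← e]
    exact h2
  obtain ⟨t1, t2⟩ := twoC_spec
  have h5 := adm_mulC twoC (hC (tt (c, c'))) t1 h3
  refine ⟨adm_mulC _ _ h5 h5, ?_⟩
  unfold sqC
  rw [val_mulC _ _ h5, val_mulC _ _ t1, t2, h4]
  ring

/-- two regions for two complex periods -/
def pp (p : Pres × Pres) : ℕ × Poly × Poly :=
  tt (sqC (p.1.1, p.2.1), negC (sqC (p.1.2, p.2.2)))

lemma pp_p (hM : S_mulC) : Primrec pp := by
  have a : Primrec fun p : Pres × Pres => sqC (p.1.1, p.2.1) :=
    (sqC_p hM).comp ((Primrec.fst.comp Primrec.fst).pair (Primrec.fst.comp Primrec.snd))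
  have b : Primrec fun p : Pres × Pres => sqC (p.1.2, p.2.2) :=
    (sqC_p hM).comp ((Primrec.snd.comp Primrec.fst).pair (Primrec.snd.comp Primrec.snd))
  exact (tt_p.comp (a.pair (prim_negC.comp b))).of_eq fun p => rfl

/-- **The square of the distance of two periods as a difference of two volumes.** -/
theorem pp_spec (p q : Pres) (hp : PAdm p) (hq : PAdm q) :
    Fine (pp (p, q)).1 (pp (p, q)).2.1 ∧ Fine (pp (p, q)).1 (pp (p, q)).2.2 ∧
      (volume (reg (pp (p, q)).1 (pp (p, q)).2.1)).toReal -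
        (volume (reg (pp (p, q)).1 (pp (p, q)).2.2)).toReal = ‖pval p - pval q‖ ^ 2 := by
  obtain ⟨a1, a2⟩ := sqC_spec p.1 q.1 hp.1 hq.1
  obtain ⟨b1, b2⟩ := sqC_spec p.2 q.2 hp.2 hq.2
  obtain ⟨c1, c2, c3⟩ := tt_spec _ _ a1 (adm_negC _ b1)
  refine ⟨c1, c2, ?_⟩
  refine (c3.trans ?_)
  rw [a2, val_negC, b2, Complex.sq_norm, Complex.normSq_apply, Complex.sub_re, Complex.sub_im,
    val_re, val_re, val_im, val_im]
  ring

end Pairs

end Pool.Agent.H652.PV
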