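import Pool.Agent.H652.PV.SChain
import Pool.Agent.H652.PV.SCode

/-!
# Quartics: definitions

`quar n d K F` is a polynomial of degree four in more variables such that the volume of the region where it
is positive is the volume of the region `F > 0`, up to a constant which depends only on `n`, `d`, `K`.
-/

set_option autoImplicit false
set_option synthInstance.maxSize 2000

namespace Pool.Agent.H652.PV

open Pool.Agent.TH960.PE MeasureTheory

/-! ### The polynomial -/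

/-- the value of a sum of words in the letters `Y 0, Y 1, ...` -/
noncomputable def wev (Y : ℕ → ℝ) (G : Poly) : ℝ := (G.map fun m => cv m.1 * (m.2.map Y).prod).sum

/-- The homogenization: a monomial of `F` becomes a word of length `d` in the letters `0, ..., n`, where
`n` is the homogenizing letter. -/
def hom (n d : ℕ) (F : Poly) : Poly :=
  F.map fun m => (m.1, idx m.2 ++ List.replicate (d - (idx m.2).length) n)

/-- the words which begin with the letter `j`, without this letter -/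
def tl (j : ℕ) (G : Poly) : Poly :=
  G.flatMap fun m => if m.2.head? = some j then [(m.1, m.2.tail)] else []

/-- the number of the nodes of the tree -/
def nod (n : ℕ) : ℕ → ℕ
  | 0 => 0
  | d + 1 => (n + 1) * nod n d + 1

/-- The evaluation of `G` by a tree: the energy and the value. The new variables are `x_N, x_(N+1), ...`,
the letters are `x_0, ..., x_n`, and `u` is the scale. -/
def tree (K n : ℕ) (u : Poly) : ℕ → Poly → ℕ → Poly × Poly
  | 0, G, _ => ([], mulS u (G.map fun m => (m.1, [])))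
  | d + 1, G, N =>
    (((List.range (n + 1)).flatMap fun j => (tree K n u d (tl j G) (N + j * nod n d)).1) ++
      mulS (natP K) (sqP (subP (varP (N + (n + 1) * nod n d))
        ((List.range (n + 1)).flatMap fun j =>
          mulS (varP j) (tree K n u d (tl j G) (N + j * nod n d)).2))),
      varP (N + (n + 1) * nod n d))

/-- the energy of the coordinates `x_0, ..., x_(2n+5)` -/
def quarB (n K : ℕ) : Poly :=
  sqP (oneP ((List.range (n + 1)).flatMap fun j => sqP (varP j))) ++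
    (((List.range (n + 1)).flatMap fun j => sqP (mulS (varP n) (varP (n + 1 + j)))) ++
      (sqP (mulS (varP (2 * n + 3)) (varP (2 * n + 2))) ++
        mulS (natP K) (sqP (subP (varP (2 * n + 2))
          (sqP (varP (2 * n + 4)) ++ sqP (varP (2 * n + 5)))))))

/-- the tree of `quar` -/
def quarT (n d K : ℕ) (F : Poly) : Poly × Poly :=
  tree K n (varP (2 * n + 2)) d (hom n d F) (2 * n + 6)

/-- **The polynomial of degree four**, `1 - 4 E`, where `E` is a sum of squares of quadratic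
polynomials. -/
def quar (n d K : ℕ) (F : Poly) : ℕ × Poly :=
  (2 * n + 6 + nod n d, oneP (mulS (natP 4)
    (quarB n K ++ ((quarT n d K F).1 ++ sqP (oneP (quarT n d K F).2)))))

/-- the factor `K` -/
def kk (n d B : ℕ) : ℕ := (4 * ((2 * n + 3) ^ d + B * 2 ^ d)) ^ 2

/-- a bound for the sum of the absolute values of the coefficients -/
def asum (F : Poly) : ℕ := F.foldr (fun m s => m.1.1 + m.1.2.1 + s) 0

/-- a bound for the degree -/
def dg (F : Poly) : ℕ := F.foldr (fun m s => max (idx m.2).length s) 0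

/-! ### Integrals -/

/-- the coefficients of the errors -/
def cof (n : ℕ) : ℕ → List ((ℕ → ℝ) → ℝ)
  | 0 => []
  | d + 1 => ((List.range (n + 1)).flatMap fun j => (cof n d).map fun a Y => Y j * a Y) ++
      [fun _ => 1]

/-- the integral over the errors -/
noncomputable def JL (K : ℕ) : List ℝ → (ℝ → ℝ → ENNReal) → ℝ → ℝ → ENNReal
  | [], f, t, v => f t v
  | a :: l, f, t, v => ∫⁻ z : ℝ, JL K l f (t + K * z ^ 2) (v + a * z)

open Classical in
/-- the indicator function of `t + (1 - v) ^ 2 < 1 / 4` -/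
noncomputable def f1 (t v : ℝ) : ENNReal := if t + (1 - v) ^ 2 < 1 / 4 then 1 else 0

/-- the point `(0, ..., 0, ρ)` -/
def pt (n : ℕ) (ρ : ℝ) : ℕ → ℝ := fun j => if j = n then ρ else 0

/-- the integral over the errors -/
noncomputable def ker (n d K : ℕ) (ρ t v : ℝ) : ENNReal :=
  JL K ((cof n d).map fun a => a (pt n ρ)) f1 t v

noncomputable def inn (n d K : ℕ) (t ρ A : ℝ) : ENNReal := ∫⁻ y : Fin 4 → ℝ,
  ker n d K ρ (t + ((y 1 * y 0) ^ 2 + K * (y 0 - (y 2 ^ 2 + y 3 ^ 2)) ^ 2)) (y 0 * A)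

noncomputable def in2 (n d K : ℕ) (t ρ : ℝ) : ENNReal := ∫⁻ y : Fin 3 → ℝ,
  ENNReal.ofReal (Real.pi / |y 0|) * ker n d K ρ (t + (y 1 ^ 2 + K * y 2 ^ 2)) (y 0)

/-- the constant -/
noncomputable def cst (n d K : ℕ) : ENNReal := ∫⁻ y : Fin (n + 2) → ℝ,
  ENNReal.ofReal (1 / |y 0|) * in2 n d K
    ((1 - y 0 ^ 2) ^ 2 + ∑ j ∈ Finset.range (n + 1), ext y (1 + j) ^ 2) |y 0|

/-! ### Statements -/

/-- Q1: simple properties of `JL` and `cof` -/
def S_jl : Prop :=
  (∀ (K : ℕ) (α : Type) [MeasurableSpace α] (l : List (α → ℝ)) (f : α → ℝ → ℝ → ENNReal),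
    (∀ a ∈ l, Measurable a) → (Measurable fun p : α × ℝ × ℝ => f p.1 p.2.1 p.2.2) →
      Measurable fun p : α × ℝ × ℝ => JL K (l.map fun a => a p.1) (f p.1) p.2.1 p.2.2) ∧
  (∀ (K : ℕ) (l l' : List ℝ) (f : ℝ → ℝ → ENNReal) (t v : ℝ),
    JL K (l ++ l') f t v = JL K l (JL K l' f) t v) ∧
  (∀ (K : ℕ) (l : List ℝ) (f : ℝ → ℝ → ENNReal) (y t v w : ℝ),
    JL K (l.map fun a => y * a) f t (v + y * w) = JL K l (fun t w => f t (v + y * w)) t w) ∧
  (∀ n d : ℕ, (cof n d).length = nod n d) ∧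
  (∀ (n d : ℕ), ∀ a ∈ cof n d, Measurable a) ∧
  (∀ (n d : ℕ) (Y Y' : ℕ → ℝ), (∀ j ≤ n, Y j = Y' j) → ∀ a ∈ cof n d, a Y = a Y') ∧
  (∀ (n d : ℕ) (Y Y' : ℕ → ℝ),
    ∑ j ∈ Finset.range (n + 1), Y j ^ 2 = ∑ j ∈ Finset.range (n + 1), Y' j ^ 2 →
      ((cof n d).map fun a => a Y ^ 2).sum = ((cof n d).map fun a => a Y' ^ 2).sum)

/-- Q2: rotations -/
def S_rot : Prop :=
  ∀ (K : ℕ) (l l' : List ℝ) (f : ℝ → ℝ → ENNReal), Measurable (Function.uncurry f) →
    l.length = l'.length → (l.map fun a => a ^ 2).sum = (l'.map fun a => a ^ 2).sum →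
      ∀ t v : ℝ, JL K l f t v = JL K l' f t v

/-- Q3: the evaluation by a tree -/
def S_tree : Prop :=
  ∀ (K n : ℕ) (u : Poly) (d : ℕ) (G : Poly) (N : ℕ), IsPoly N u → n < N →
    (∀ m ∈ G, m.2.length = d ∧ ∀ j ∈ m.2, j ≤ n) →
    IsPoly (N + nod n d) (tree K n u d G N).1 ∧ IsPoly (N + nod n d) (tree K n u d G N).2 ∧
    ∀ (g : ℝ → ℝ → (ℕ → ℝ) → ENNReal) (E : (ℕ → ℝ) → ℝ),
      (Measurable fun p : ℝ × ℝ × (ℕ → ℝ) => g p.1 p.2.1 p.2.2) → (∀ t v, Dep N (g t v)) →
      Measurable E → Dep N E →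
      ∫⁻ X : Fin (N + nod n d) → ℝ,
          g (E (ext X) + pev (ext X) (tree K n u d G N).1) (pev (ext X) (tree K n u d G N).2)
            (ext X) =
        ∫⁻ x : Fin N → ℝ, JL K ((cof n d).map fun a => a (ext x)) (fun t v => g t v (ext x))
          (E (ext x)) (pev (ext x) u * wev (ext x) G)

/-- Q4: the integral over `u` and three other variables -/
def S_inn : Prop :=
  ∀ (n d B : ℕ) (t ρ A : ℝ), (1 - ρ ^ 2) ^ 2 ≤ t → (t < 1 / 4 → |A| ≤ B * 2 ^ d) →
    (0 < A → inn n d (kk n d B) t ρ A = in2 n d (kk n d B) t ρ) ∧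
      (¬ 0 < A → inn n d (kk n d B) t ρ A = 0)

/-- Q5: the constant -/
def S_cst : Prop := ∀ n d B : ℕ, cst n d (kk n d B) ≠ 0 ∧ cst n d (kk n d B) ≠ ⊤

/-- Q6: homogeneous coordinates -/
def S_base : Prop :=
  ∀ (n : ℕ) (h : (ℕ → ℝ) → ENNReal) (W : ℝ → ℝ → ENNReal), Measurable h → Dep n h →
    Measurable (Function.uncurry W) →
    ∫⁻ X : Fin (2 * n + 2) → ℝ, h (fun i => ext X i / ext X n) *
        W (∑ j ∈ Finset.range (n + 1), ext X j ^ 2)
          (∑ j ∈ Finset.range (n + 1), (ext X n * ext X (n + 1 + j)) ^ 2) =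
      (∫⁻ x : Fin n → ℝ, h (ext x)) * ∫⁻ y : Fin (n + 2) → ℝ, ENNReal.ofReal (1 / |y 0|) *
        W (y 0 ^ 2) (∑ j ∈ Finset.range (n + 1), ext y (1 + j) ^ 2)

/-- Q7: values, degrees, integer coefficients -/
def S_qval : Prop :=
  (∀ (n d : ℕ) (F : Poly) (Y : ℕ → ℝ), IsPoly n F → dg F ≤ d → Y n ≠ 0 →
    wev Y (hom n d F) = Y n ^ d * pev (fun i => Y i / Y n) F) ∧
  (∀ (n d : ℕ) (F : Poly) (Y : ℕ → ℝ), IsPoly n F → dg F ≤ d → (∀ j ≤ n, |Y j| ≤ 2) →
    |wev Y (hom n d F)| ≤ asum F * 2 ^ d) ∧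
  (∀ (n d : ℕ) (F : Poly), IsPoly n F → dg F ≤ d →
    ∀ m ∈ hom n d F, m.2.length = d ∧ ∀ j ∈ m.2, j ≤ n) ∧
  (∀ (n d K : ℕ) (F : Poly), Deg 4 (quar n d K F).2) ∧
  (∀ (n d K : ℕ) (F : Poly), IsInt F → IsInt (quar n d K F).2)

/-- Q8: computability -/
def S_qprim : Prop :=
  Primrec (fun p : (ℕ × ℕ) × (ℕ × Poly) => quar p.1.1 p.1.2 p.2.1 p.2.2) ∧
  Primrec (fun p : ℕ × ℕ × ℕ => kk p.1 p.2.1 p.2.2) ∧ Primrec asum ∧ Primrec dg

end Pool.Agent.H652.PV
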