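import Pool.Agent.H652.PV.Main
import Pool.Agent.H652.PV.Qdefs

/-!
# The volume of the region given by the quartic
-/

set_option autoImplicit false
set_option synthInstance.maxSize 2000

namespace Pool.Agent.H652.PV

open Pool.Agent.TH960.PE MeasureTheory

namespace Quar

lemma pev_flat (X : ℕ → ℝ) (m : ℕ) (f : ℕ → Poly) :
    pev X ((List.range m).flatMap f) = ∑ j ∈ Finset.range m, pev X (f j) := by
  induction m with
  | zero => simp [pev]
  | succ m ih =>
    rw [List.range_succ, List.flatMap_append, pev_append, ih, Finset.sum_range_succ]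
    simp

lemma pev_quarB (n K : ℕ) (X : ℕ → ℝ) : pev X (quarB n K) =
    (1 - ∑ j ∈ Finset.range (n + 1), X j ^ 2) ^ 2 +
      (∑ j ∈ Finset.range (n + 1), (X n * X (n + 1 + j)) ^ 2 +
        ((X (2 * n + 3) * X (2 * n + 2)) ^ 2 +
          K * (X (2 * n + 2) - (X (2 * n + 4) ^ 2 + X (2 * n + 5) ^ 2)) ^ 2)) := by
  unfold quarB
  simp only [pev_append, pev_sqP, SChain.pev_oneP, pev_flat, pev_mulS, pev_subP, pev_varP,
    pev_natP]

lemma chi_quar (n d K : ℕ) (F : Poly) (X : ℕ → ℝ) : chi (quar n d K F).2 X =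
    f1 (pev X (quarB n K) + pev X (quarT n d K F).1) (pev X (quarT n d K F).2) := by
  unfold chi f1 quar
  simp only [SChain.pev_oneP, pev_mulS, pev_natP, pev_append, pev_sqP]
  congr 1
  apply propext
  push_cast
  constructor <;> intro h <;> linarith

lemma isPoly_quarB (n K : ℕ) : IsPoly (2 * n + 6) (quarB n K) := by
  have hf : ∀ f : ℕ → Poly, (∀ j ≤ n, IsPoly (2 * n + 6) (f j)) →
      IsPoly (2 * n + 6) ((List.range (n + 1)).flatMap f) := by
    intro f hf m hm
    obtain ⟨j, hj, hm⟩ := List.mem_flatMap.1 hm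
    exact hf j (by have := List.mem_range.1 hj; omega) m hm
  unfold quarB
  refine SChain.isPoly_append (isPoly_sqP (SChain.isPoly_oneP (hf _ fun j hj => isPoly_sqP
    (isPoly_varP (by omega))))) (SChain.isPoly_append (hf _ fun j hj => isPoly_sqP (isPoly_mulS
    (isPoly_varP (by omega)) (isPoly_varP (by omega)))) (SChain.isPoly_append (isPoly_sqP
    (isPoly_mulS (isPoly_varP (by omega)) (isPoly_varP (by omega)))) (isPoly_mulS
    (isPoly_natP _ _) (isPoly_sqP (isPoly_subP (isPoly_varP (by omega)) (SChain.isPoly_append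
    (isPoly_sqP (isPoly_varP (by omega))) (isPoly_sqP (isPoly_varP (by omega)))))))))

lemma measurable_f1 : Measurable fun p : ℝ × ℝ => f1 p.1 p.2 := by
  unfold f1
  refine Measurable.ite ?_ measurable_const measurable_const
  exact measurableSet_lt (by fun_prop) measurable_const

lemma measurable_pt (n : ℕ) : Measurable fun ρ : ℝ => pt n ρ := by
  refine measurable_pi_lambda _ fun j => ?_
  unfold pt
  by_cases h : j = n
  · simp only [h, if_true]
    exact measurable_id
  · simp only [h, if_false]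
    exact measurable_const

lemma measurable_ker (hJ : S_jl) (n d K : ℕ) :
    Measurable fun p : ℝ × ℝ × ℝ => ker n d K p.1 p.2.1 p.2.2 := by
  have h := hJ.1 K ℝ ((cof n d).map fun a ρ => a (pt n ρ)) (fun _ => f1) (by
    intro a ha
    obtain ⟨b, hb, rfl⟩ := List.mem_map.1 ha
    exact (hJ.2.2.2.2.1 n d b hb).comp (measurable_pt n)) (measurable_f1.comp measurable_snd)
  simp only [List.map_map, Function.comp_def] at h
  exact h

lemma measurable_in2 (hJ : S_jl) (n d K : ℕ) :
    Measurable fun p : ℝ × ℝ => in2 n d K p.1 p.2 := by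
  unfold in2
  have hk := measurable_ker hJ n d K
  have h : Measurable fun q : (ℝ × ℝ) × (Fin 3 → ℝ) => ENNReal.ofReal (Real.pi / |q.2 0|) *
      ker n d K q.1.2 (q.1.1 + (q.2 1 ^ 2 + K * q.2 2 ^ 2)) (q.2 0) := by
    refine Measurable.mul (by fun_prop) ?_
    have : Measurable fun q : (ℝ × ℝ) × (Fin 3 → ℝ) =>
        ((q.1.2, q.1.1 + (q.2 1 ^ 2 + K * q.2 2 ^ 2), q.2 0) : ℝ × ℝ × ℝ) := by fun_prop
    exact hk.comp this
  exact h.lintegral_prod_right'

lemma sum_pt (n : ℕ) (ρ : ℝ) : ∑ j ∈ Finset.range (n + 1), pt n ρ j ^ 2 = ρ ^ 2 := by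
  rw [Finset.sum_range_succ, Finset.sum_eq_zero]
  · simp [pt]
  · intro j hj
    have := Finset.mem_range.1 hj
    have h : j ≠ n := by omega
    simp [pt, h]

/-- the kernel depends only on the norm of the point -/
lemma JL_eq_ker (hJ : S_jl) (hR : S_rot) (n d K : ℕ) (Y : ℕ → ℝ) (t v : ℝ) :
    JL K ((cof n d).map fun a => a Y) f1 t v =
      ker n d K (√(∑ j ∈ Finset.range (n + 1), Y j ^ 2)) t v := by
  unfold ker
  refine hR K _ _ f1 measurable_f1 (by simp) ?_ t v
  simp only [List.map_map, Function.comp_def]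
  refine hJ.2.2.2.2.2.2 n d _ _ ?_
  rw [sum_pt, Real.sq_sqrt (Finset.sum_nonneg fun j _ => sq_nonneg _)]

lemma wev_congr (n : ℕ) {G : Poly} (hG : ∀ m ∈ G, ∀ j ∈ m.2, j ≤ n) (Y Y' : ℕ → ℝ)
    (h : ∀ j ≤ n, Y j = Y' j) : wev Y G = wev Y' G := by
  unfold wev
  congr 1
  refine List.map_congr_left fun m hm => ?_
  congr 2
  exact List.map_congr_left fun j hj => h j (hG m hm j hj)

lemma small (n : ℕ) (Y : ℕ → ℝ) (q : ℝ) (hq : 0 ≤ q)
    (h : (1 - ∑ j ∈ Finset.range (n + 1), Y j ^ 2) ^ 2 + q < 1 / 4) : ∀ j ≤ n, |Y j| ≤ 2 := by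
  intro j hj
  have h1 : Y j ^ 2 ≤ ∑ j ∈ Finset.range (n + 1), Y j ^ 2 :=
    Finset.single_le_sum (f := fun j => Y j ^ 2) (fun i _ => sq_nonneg _)
      (Finset.mem_range.2 (by omega))
  have h2 : ∑ j ∈ Finset.range (n + 1), Y j ^ 2 ≤ 2 := by
    nlinarith [sq_nonneg (∑ j ∈ Finset.range (n + 1), Y j ^ 2)]
  exact abs_le_of_sq_le_sq (by nlinarith) (by norm_num)

end Quar

open Quar

/-- **The volume of the quartic region.** -/
theorem volume_quar (hJ : S_jl) (hR : S_rot) (hT : S_tree) (hI : S_inn) (hB : S_base)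
    (hV : S_qval) (n d B : ℕ) (F : Poly) (hF : IsPoly n F) (hd : dg F ≤ d) (he : Even d)
    (hs : asum F ≤ B) :
    volume (reg (quar n d (kk n d B) F).1 (quar n d (kk n d B) F).2) =
      cst n d (kk n d B) * volume (reg n F) := by
  classical
  set K := kk n d B with hK
  obtain ⟨v1, v2, v3, -, -⟩ := hV
  have w3 := v3 n d F hF hd
  rw [volume_reg, volume_reg]
  simp only [mul_one]
  obtain ⟨-, -, ht⟩ := hT K n (varP (2 * n + 2)) d (hom n d F) (2 * n + 6)
    (isPoly_varP (by omega)) (by omega) w3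
  have e1 := ht (fun t v _ => f1 t v) (fun X => pev X (quarB n K))
    (measurable_f1.comp (measurable_fst.prodMk (measurable_fst.comp measurable_snd)))
    (fun t v X Y _ => rfl) (measurable_pev _) (dep_pev (isPoly_quarB n K))
  have e2 : ∫⁻ X : Fin (quar n d K F).1 → ℝ, chi (quar n d K F).2 (ext X) =
      ∫⁻ X : Fin (2 * n + 6 + nod n d) → ℝ, f1 (pev (ext X) (quarB n K) +
        pev (ext X) (tree K n (varP (2 * n + 2)) d (hom n d F) (2 * n + 6)).1)
        (pev (ext X) (tree K n (varP (2 * n + 2)) d (hom n d F) (2 * n + 6)).2) :=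
    lintegral_congr fun X => chi_quar n d K F (ext X)
  rw [e2, e1]
  -- the function of the first `2 n + 6` variables
  set Ψ : (ℕ → ℝ) → ENNReal := fun X => ker n d K (√(∑ j ∈ Finset.range (n + 1), X j ^ 2))
    (pev X (quarB n K)) (X (2 * n + 2) * wev X (hom n d F)) with hΨ
  have hwm : Measurable fun X : ℕ → ℝ => wev X (hom n d F) := by
    unfold wev
    generalize hom n d F = G
    induction G with
    | nil => simp
    | cons m G ih =>
      simp only [List.map_cons, List.sum_cons]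
      exact ((SChain.measurable_map_prod m.2).const_mul _).add ih
  have hΨm : Measurable Ψ := by
    have : Measurable fun X : ℕ → ℝ => ((√(∑ j ∈ Finset.range (n + 1), X j ^ 2),
        pev X (quarB n K), X (2 * n + 2) * wev X (hom n d F)) : ℝ × ℝ × ℝ) := by
      refine Measurable.prodMk ?_ (Measurable.prodMk (measurable_pev _)
        ((measurable_pi_apply _).mul hwm))
      exact (Finset.measurable_sum _ fun j _ => (measurable_pi_apply j).pow_const 2).sqrt
    exact (measurable_ker hJ n d K).comp this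
  have e3 : ∀ x : Fin (2 * n + 6) → ℝ, JL K ((cof n d).map fun a => a (ext x)) f1
      (pev (ext x) (quarB n K)) (pev (ext x) (varP (2 * n + 2)) * wev (ext x) (hom n d F)) =
        Ψ (ext x) := by
    intro x
    rw [JL_eq_ker hJ hR, pev_varP]
  simp only [e3]
  have e4 : ∫⁻ x : Fin (2 * n + 6) → ℝ, Ψ (ext x) =
      ∫⁻ x : Fin (2 * n + 2) → ℝ, ∫⁻ y : Fin 4 → ℝ, Ψ (glue (2 * n + 2) (ext x) (ext y)) :=
    lint_split (2 * n + 2) 4 Ψ hΨm
  rw [e4]
  have e5 : ∀ᵐ x : Fin (2 * n + 2) → ℝ, ∫⁻ y : Fin 4 → ℝ, Ψ (glue (2 * n + 2) (ext x) (ext y)) =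
      chi F (fun i => ext x i / ext x n) *
        in2 n d K ((1 - ∑ j ∈ Finset.range (n + 1), ext x j ^ 2) ^ 2 +
          ∑ j ∈ Finset.range (n + 1), (ext x n * ext x (n + 1 + j)) ^ 2)
          (√(∑ j ∈ Finset.range (n + 1), ext x j ^ 2)) := by
    filter_upwards [SChain.ae_ne (n := 2 * n + 2) n (by omega)] with x hx
    set R := ∑ j ∈ Finset.range (n + 1), ext x j ^ 2 with hRdef
    set q := ∑ j ∈ Finset.range (n + 1), (ext x n * ext x (n + 1 + j)) ^ 2 with hq
    have hR0 : 0 ≤ R := Finset.sum_nonneg fun j _ => sq_nonneg _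
    have hq0 : 0 ≤ q := Finset.sum_nonneg fun j _ => sq_nonneg _
    set A := wev (ext x) (hom n d F) with hA
    have hval := v1 n d F (ext x) hF hd hx
    have e6 : ∀ y : Fin 4 → ℝ, Ψ (glue (2 * n + 2) (ext x) (ext y)) =
        ker n d K (√R) (((1 - R) ^ 2 + q) + ((y 1 * y 0) ^ 2 +
          K * (y 0 - (y 2 ^ 2 + y 3 ^ 2)) ^ 2)) (y 0 * A) := by
      intro y
      set X := glue (2 * n + 2) (ext x) (ext y) with hX
      have g1 : ∀ j, j < 2 * n + 2 → X j = ext x j := fun j hj => by
        rw [hX]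
        simp [glue, hj]
      have g2 : ∀ j, X (2 * n + 2 + j) = ext y j := fun j => by
        rw [hX]
        simp [glue]
      have y0 : ext y 0 = y 0 := by simp [ext]
      have y1 : ext y 1 = y 1 := by simp [ext]
      have y2 : ext y 2 = y 2 := by simp [ext]
      have y3 : ext y 3 = y 3 := by simp [ext]
      have h1 : ∑ j ∈ Finset.range (n + 1), X j ^ 2 = R :=
        Finset.sum_congr rfl fun j hj => by
          rw [g1 j (by have := Finset.mem_range.1 hj; omega)]
      have h2 : ∑ j ∈ Finset.range (n + 1), (X n * X (n + 1 + j)) ^ 2 = q :=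
        Finset.sum_congr rfl fun j hj => by
          rw [g1 _ (by omega), g1 _ (by have := Finset.mem_range.1 hj; omega)]
      have h3 : wev X (hom n d F) = A :=
        wev_congr n (fun m hm => (w3 m hm).2) _ _ fun j hj => g1 j (by omega)
      have k0 := g2 0
      have k1 := g2 1
      have k2 := g2 2
      have k3 := g2 3
      rw [y0] at k0
      rw [y1] at k1
      rw [y2] at k2
      rw [y3] at k3
      simp only [add_zero] at k0
      rw [show 2 * n + 2 + 1 = 2 * n + 3 by ring] at k1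
      rw [show 2 * n + 2 + 2 = 2 * n + 4 by ring] at k2
      rw [show 2 * n + 2 + 3 = 2 * n + 5 by ring] at k3
      rw [hΨ]
      simp only
      rw [pev_quarB, h1, h2, h3, k0, k1, k2, k3]
      congr 1
      ring
    have e7 : ∫⁻ y : Fin 4 → ℝ, Ψ (glue (2 * n + 2) (ext x) (ext y)) =
        inn n d K ((1 - R) ^ 2 + q) (√R) A := by
      unfold inn
      exact lintegral_congr e6
    rw [e7]
    have hb : (1 - R) ^ 2 + q < 1 / 4 → |A| ≤ (B : ℝ) * 2 ^ d := fun h => by
      refine (v2 n d F (ext x) hF hd (small n (ext x) q hq0 h)).trans ?_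
      gcongr
    obtain ⟨i1, i2⟩ := hI n d B ((1 - R) ^ 2 + q) (√R) A
      (by rw [Real.sq_sqrt hR0]; linarith) hb
    have hpos : 0 < ext x n ^ d := he.pow_pos hx
    have hiff : 0 < A ↔ 0 < pev (fun i => ext x i / ext x n) F := by
      rw [hA, hval]
      exact mul_pos_iff_of_pos_left hpos
    unfold chi
    by_cases h : 0 < A
    · rw [i1 h, if_pos (hiff.1 h), one_mul]
    · rw [i2 h, if_neg (fun h' => h (hiff.2 h')), zero_mul]
  rw [lintegral_congr_ae e5]
  have hWm : Measurable (Function.uncurry fun R q : ℝ => in2 n d K ((1 - R) ^ 2 + q) (√R)) := by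
    have : Measurable fun p : ℝ × ℝ => (((1 - p.1) ^ 2 + p.2, √p.1) : ℝ × ℝ) := by fun_prop
    exact (measurable_in2 hJ n d K).comp this
  have e8 := hB n (chi F) (fun R q => in2 n d K ((1 - R) ^ 2 + q) (√R)) (measurable_chi F)
    (dep_chi hF) hWm
  rw [e8, mul_comm (cst n d K)]
  congr 1
  unfold cst
  refine lintegral_congr fun y => ?_
  rw [Real.sqrt_sq_eq_abs]

end Pool.Agent.H652.PV
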