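import Pool.Agent.H652.PV.Xdefs

/-!
# Periods as sums of integrals of reciprocals of polynomials: the polynomials (statement X5), by helper740
-/

set_option autoImplicit false
set_option synthInstance.maxSize 2000

namespace Pool.Agent.H652.PV

open Pool.Agent.TH960.PE MeasureTheory

namespace XCod

/-! ### Values -/

theorem pev_vP (X : ℕ → ℝ) (n : ℕ) : pev X (vP n) = 1 + (X n ^ 2 + X (n + 1) ^ 2) := by
  rw [vP, pev_append, pev_natP, WCod.pev_sP]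
  push_cast
  ring

theorem pev_e1P (X : ℕ → ℝ) (n : ℕ) (A : Poly) :
    pev X (e1P n A) = 1 + 4 * ((X n ^ 2 + X (n + 1) ^ 2) - pev X A) ^ 4 := by
  rw [e1P, pev_append, pev_mulS, pev_sqP, pev_sqP, pev_subP, pev_natP, pev_natP, WCod.pev_sP]
  push_cast
  ring

theorem pev_e2P (X : ℕ → ℝ) (n : ℕ) (A : Poly) :
    pev X (e2P n A) = 4 * (1 + (X n ^ 2 + X (n + 1) ^ 2)) *
      (1 - 2 * (pev X A * (1 + (X n ^ 2 + X (n + 1) ^ 2))) +
        2 * (pev X A * (1 + (X n ^ 2 + X (n + 1) ^ 2))) ^ 2) := by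
  rw [e2P, pev_mulS, pev_mulS, pev_append, pev_subP, pev_mulS, pev_mulS, pev_sqP, pev_mulS,
    pev_natP, pev_natP, pev_natP, pev_vP]
  push_cast
  ring

theorem one_le_e1 (X : ℕ → ℝ) (n : ℕ) (A : Poly) : 1 ≤ pev X (e1P n A) := by
  rw [pev_e1P]
  have h : 0 ≤ ((X n ^ 2 + X (n + 1) ^ 2) - pev X A) ^ 4 := by positivity
  linarith

theorem one_le_e2 (X : ℕ → ℝ) (n : ℕ) (A : Poly) : 1 ≤ pev X (e2P n A) := by
  rw [pev_e2P]
  have h1 : (1 : ℝ) ≤ 1 + (X n ^ 2 + X (n + 1) ^ 2) := by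
    have : (0 : ℝ) ≤ X n ^ 2 + X (n + 1) ^ 2 := by positivity
    linarith
  obtain ⟨v, hv⟩ : ∃ v, v = 1 + (X n ^ 2 + X (n + 1) ^ 2) := ⟨_, rfl⟩
  rw [← hv] at h1 ⊢
  have h2 : (1 : ℝ) / 2 ≤ 1 - 2 * (pev X A * v) + 2 * (pev X A * v) ^ 2 := by
    nlinarith [sq_nonneg (2 * (pev X A * v) - 1)]
  nlinarith

/-! ### The number of variables -/

theorem isPoly_vP (n : ℕ) : IsPoly (n + 2) (vP n) :=
  SChain.isPoly_append (isPoly_natP _ 1) (WCod.isPoly_sP n)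

theorem isPoly_e1P {n : ℕ} {A : Poly} (hA : IsPoly (n + 2) A) : IsPoly (n + 2) (e1P n A) :=
  SChain.isPoly_append (isPoly_natP _ 1) (isPoly_mulS (isPoly_natP _ 4)
    (isPoly_sqP (isPoly_sqP (isPoly_subP (WCod.isPoly_sP n) hA))))

theorem isPoly_e2P {n : ℕ} {A : Poly} (hA : IsPoly (n + 2) A) : IsPoly (n + 2) (e2P n A) :=
  isPoly_mulS (isPoly_mulS (isPoly_natP _ 4) (isPoly_vP n))
    (SChain.isPoly_append (isPoly_natP _ 1)
      (isPoly_subP (isPoly_mulS (isPoly_natP _ 2) (isPoly_sqP (isPoly_mulS hA (isPoly_vP n))))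
        (isPoly_mulS (isPoly_natP _ 2) (isPoly_mulS hA (isPoly_vP n)))))

/-! ### Integer coefficients -/

theorem isInt_vP (n : ℕ) : IsInt (vP n) := isInt_append (isInt_natP 1) (WCod.isInt_sP n)

theorem isInt_e1P (n : ℕ) {A : Poly} (hA : IsInt A) : IsInt (e1P n A) :=
  isInt_append (isInt_natP 1) (isInt_mulS (isInt_natP 4)
    (isInt_sqP (isInt_sqP (isInt_subP (WCod.isInt_sP n) hA))))

theorem isInt_e2P (n : ℕ) {A : Poly} (hA : IsInt A) : IsInt (e2P n A) :=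
  isInt_mulS (isInt_mulS (isInt_natP 4) (isInt_vP n))
    (isInt_append (isInt_natP 1)
      (isInt_subP (isInt_mulS (isInt_natP 2) (isInt_sqP (isInt_mulS hA (isInt_vP n))))
        (isInt_mulS (isInt_natP 2) (isInt_mulS hA (isInt_vP n)))))

/-! ### Computability -/

section

variable {α : Type*} [Primcodable α]

theorem vP_p {f : α → ℕ} (hf : Primrec f) : Primrec fun a => vP (f a) :=
  SCode.app_p (Primrec.const (natP 1)) (WCod.sP_p hf)

theorem e1P_p {f : α → ℕ} {g : α → Poly} (hf : Primrec f) (hg : Primrec g) :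
    Primrec fun a => e1P (f a) (g a) :=
  SCode.app_p (Primrec.const (natP 1)) (PrimT.mulS_p (Primrec.const (natP 4))
    (PrimT.sqP_p (PrimT.sqP_p (PrimT.subP_p (WCod.sP_p hf) hg))))

theorem e2P_p {f : α → ℕ} {g : α → Poly} (hf : Primrec f) (hg : Primrec g) :
    Primrec fun a => e2P (f a) (g a) :=
  PrimT.mulS_p (PrimT.mulS_p (Primrec.const (natP 4)) (vP_p hf))
    (SCode.app_p (Primrec.const (natP 1))
      (PrimT.subP_p (PrimT.mulS_p (Primrec.const (natP 2)) (PrimT.sqP_p (PrimT.mulS_p hg (vP_p hf))))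
        (PrimT.mulS_p (Primrec.const (natP 2)) (PrimT.mulS_p hg (vP_p hf)))))

end

end XCod

/-- X5 -/
theorem t_cod2 : S_cod2 :=
  ⟨fun _ _ hA => ⟨XCod.isPoly_e1P hA, XCod.isPoly_e2P hA⟩,
    fun n _ hA => ⟨XCod.isInt_e1P n hA, XCod.isInt_e2P n hA⟩,
    fun n A X => ⟨XCod.one_le_e1 X n A, XCod.one_le_e2 X n A⟩,
    fun n A X => ⟨by rw [XCod.pev_e1P, K1], by rw [XCod.pev_e2P, K2]⟩,
    XCod.e1P_p Primrec.fst Primrec.snd, XCod.e2P_p Primrec.fst Primrec.snd⟩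

end Pool.Agent.H652.PV
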