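import Pool.Agent.H652.PV.Wreal

/-!
# Periods as sums of integrals of reciprocals of polynomials: real analysis
-/

set_option autoImplicit false

namespace Pool.Agent.H652.PV

open MeasureTheory

/-- the first kernel -/
noncomputable def K1 (A s : ℝ) : ℝ := 1 / (1 + 4 * (s - A) ^ 4)

/-- the second kernel -/
noncomputable def K2 (A s : ℝ) : ℝ :=
  1 / (4 * (1 + s) * (1 - 2 * (A * (1 + s)) + 2 * (A * (1 + s)) ^ 2))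

/-- X1: the bounds -/
def S_kb : Prop :=
  ∀ d : ℕ, 0 < d → ∃ C : ENNReal, C ≠ ⊤ ∧ ∀ A : ℝ, A ≠ 0 →
    ∫⁻ y : Fin 2 → ℝ, ‖K1 A (y 0 ^ 2 + y 1 ^ 2)‖ₑ ≤ C * ((if 0 < A then 1 else 0) + nrt d A) ∧
    ∫⁻ y : Fin 2 → ℝ, ‖K2 A (y 0 ^ 2 + y 1 ^ 2)‖ₑ ≤ C * nrt d A

/-- X2: an integral -/
def S_quart : Prop := Integrable (fun t : ℝ => 1 / (1 + 4 * t ^ 4)) ∧
  ∫ t : ℝ, 1 / (1 + 4 * t ^ 4) = Real.pi / 2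

/-- X3: the values -/
def S_kv : Prop :=
  ∀ A : ℝ, A ≠ 0 → (∫ y : Fin 2 → ℝ, K1 A (y 0 ^ 2 + y 1 ^ 2)) +
    (∫ y : Fin 2 → ℝ, K2 A (y 0 ^ 2 + y 1 ^ 2)) - (∫ y : Fin 2 → ℝ, K2 (-A) (y 0 ^ 2 + y 1 ^ 2)) =
      if 0 < A then Real.pi ^ 2 / 2 else 0

end Pool.Agent.H652.PV
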