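import Pool.Agent.H652.PV.WRho
import Pool.Agent.H652.PV.Xreal

/-!
# X1: bounds for the integrals of the kernels over the plane (helper840 for helper652)
-/

set_option autoImplicit false

namespace Pool.Agent.H652.PV

open MeasureTheory Filter Topology

namespace XKb

lemma pow_or {δ u : ℝ} (h0 : 0 < δ) (h1 : δ ≤ 1) (hu : 0 < u) :
    (u ≤ 1 ∧ u ^ (1 + δ) ≤ u) ∨ (1 ≤ u ∧ u ^ (1 + δ) ≤ u ^ 2) := by
  rcases le_total u 1 with h | h
  · refine Or.inl ⟨h, ?_⟩
    have := Real.rpow_le_rpow_of_exponent_ge hu h (show (1 : ℝ) ≤ 1 + δ by linarith)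
    rwa [Real.rpow_one] at this
  · refine Or.inr ⟨h, ?_⟩
    have := Real.rpow_le_rpow_of_exponent_le h (show 1 + δ ≤ (2 : ℝ) by linarith)
    rwa [Real.rpow_two] at this

lemma tail {δ p q : ℝ} (hδ : 0 < δ) (hp : 0 < p) (hq : 0 < q) :
    ∫⁻ s in Set.Ioi (0 : ℝ), ENNReal.ofReal (q * (p + q * s) ^ (-(1 + δ))) =
      ENNReal.ofReal (p ^ (-δ) / δ) := by
  have hd0 : ∀ s : ℝ, 0 ≤ s → HasDerivAt (fun s => -((p + q * s) ^ (-δ) / δ))
      (q * (p + q * s) ^ (-(1 + δ))) s := by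
    intro s hs
    have hs' : 0 < p + q * s := by positivity
    have h1 : HasDerivAt (fun s => p + q * s) q s := by
      simpa using ((hasDerivAt_id s).const_mul q).const_add p
    have h2 := ((h1.rpow_const (p := -δ) (Or.inl hs'.ne')).div_const δ).neg
    refine h2.congr_deriv ?_
    have e : -δ - 1 = -(1 + δ) := by ring
    rw [e]
    field_simp
  have hd : ∀ s ∈ Set.Ioi (0 : ℝ), HasDerivAt (fun s => -((p + q * s) ^ (-δ) / δ))
      (q * (p + q * s) ^ (-(1 + δ))) s := fun s hs => hd0 s (le_of_lt hs)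
  have hc : ContinuousWithinAt (fun s => -((p + q * s) ^ (-δ) / δ)) (Set.Ici 0) 0 :=
    (hd0 0 le_rfl).continuousAt.continuousWithinAt
  have ht : Tendsto (fun s => -((p + q * s) ^ (-δ) / δ)) atTop (𝓝 0) := by
    have h1 : Tendsto (fun s => p + q * s) atTop atTop :=
      tendsto_atTop_add_const_left _ _ (tendsto_id.const_mul_atTop hq)
    have h2 := (((tendsto_rpow_neg_atTop hδ).comp h1).div_const δ).neg
    simpa using h2
  have hnn : ∀ s ∈ Set.Ioi (0 : ℝ), 0 ≤ q * (p + q * s) ^ (-(1 + δ)) := by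
    intro s hs
    have : (0 : ℝ) < s := hs
    positivity
  have hi := integrableOn_Ioi_deriv_of_nonneg hc hd hnn ht
  have hv := integral_Ioi_of_hasDerivAt_of_nonneg hc hd hnn ht
  rw [← ofReal_integral_eq_lintegral_ofReal hi
    ((ae_restrict_iff' measurableSet_Ioi).2 (Eventually.of_forall hnn)), hv]
  congr 1
  rw [mul_zero, add_zero]
  ring

lemma nrt_eq {d : ℕ} {A : ℝ} (hA : A ≠ 0) :
    nrt d A = ENNReal.ofReal (|A| ^ (-(1 / (2 * d) : ℝ))) := by
  unfold nrt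
  have ha : 0 < |A| := abs_pos.2 hA
  rw [Real.enorm_eq_ofReal_abs, ENNReal.ofReal_rpow_of_pos ha,
    ← ENNReal.ofReal_inv_of_pos (Real.rpow_pos_of_pos ha _), Real.rpow_neg ha.le]

/-- the first kernel, `A < 0` -/
lemma k1_neg {δ a s : ℝ} (h0 : 0 < δ) (h1 : δ ≤ 1) (ha : 0 < a) (hs : 0 < s) :
    |K1 (-a) s| ≤ 1 * (a + 1 * s) ^ (-(1 + δ)) := by
  have hu : 0 < a + s := by positivity
  unfold K1
  rw [one_mul, one_mul, sub_neg_eq_add, add_comm s a, Real.rpow_neg hu.le,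
    abs_of_nonneg (by positivity), one_div]
  refine inv_anti₀ (by positivity) ?_
  rcases pow_or h0 h1 hu with ⟨h2, h3⟩ | ⟨h2, h3⟩
  · have : 0 ≤ (a + s) ^ 4 := by positivity
    linarith
  · refine h3.trans ?_
    nlinarith [sq_nonneg ((a + s) ^ 2 - 1), sq_nonneg ((a + s) ^ 2)]

/-- the second kernel -/
lemma k2_le {δ A s : ℝ} (h0 : 0 < δ) (h1 : δ ≤ 1) (hA : A ≠ 0) (hs : 0 < s) :
    |K2 A s| ≤ |A| * (|A| + |A| * s) ^ (-(1 + δ)) := by
  have ha : 0 < |A| := abs_pos.2 hA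
  have hu : 0 < |A| + |A| * s := by positivity
  set u := |A| + |A| * s with hudef
  have hs1 : 0 < 1 + s := by linarith
  have hAu : |A * (1 + s)| = u := by
    rw [abs_mul, abs_of_pos hs1, hudef]
    ring
  have hsq : (A * (1 + s)) ^ 2 = u ^ 2 := by
    rw [← hAu, sq_abs]
  have hle : A * (1 + s) ≤ u := hAu ▸ le_abs_self _
  have hq : 1 - 2 * u + 2 * u ^ 2 ≤ 1 - 2 * (A * (1 + s)) + 2 * (A * (1 + s)) ^ 2 := by
    rw [hsq]
    linarith
  have hq0 : 0 < 1 - 2 * u + 2 * u ^ 2 := by nlinarith [sq_nonneg (2 * u - 1)]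
  have hmain : u ^ (1 + δ) ≤ 4 * u * (1 - 2 * u + 2 * u ^ 2) := by
    rcases pow_or h0 h1 hu with ⟨h2, h3⟩ | ⟨h2, h3⟩
    · refine h3.trans ?_
      nlinarith [mul_nonneg hu.le (sq_nonneg (2 * u - 1))]
    · refine h3.trans ?_
      nlinarith [mul_nonneg hu.le (sq_nonneg (4 * u - 2)), mul_nonneg hu.le (sq_nonneg (u - 1))]
  have hK : |K2 A s| ≤ 1 / (4 * (1 + s) * (1 - 2 * u + 2 * u ^ 2)) := by
    unfold K2
    have h3 : 0 < 4 * (1 + s) * (1 - 2 * u + 2 * u ^ 2) := by positivity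
    have h4 : 4 * (1 + s) * (1 - 2 * u + 2 * u ^ 2) ≤
        4 * (1 + s) * (1 - 2 * (A * (1 + s)) + 2 * (A * (1 + s)) ^ 2) := by gcongr
    rw [abs_of_nonneg (one_div_nonneg.2 (h3.le.trans h4))]
    exact one_div_le_one_div_of_le h3 h4
  refine hK.trans ?_
  rw [Real.rpow_neg hu.le, ← div_eq_mul_inv, div_le_div_iff₀ (by positivity) (by positivity), one_mul]
  calc u ^ (1 + δ) ≤ 4 * u * (1 - 2 * u + 2 * u ^ 2) := hmain
    _ = |A| * (4 * (1 + s) * (1 - 2 * u + 2 * u ^ 2)) := by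
      have : u = |A| * (1 + s) := by rw [hudef]; ring
      rw [show 4 * u * (1 - 2 * u + 2 * u ^ 2) = u * (4 * (1 - 2 * u + 2 * u ^ 2)) by ring]
      conv_lhs => rw [this]
      conv_rhs => rw [this]
      ring

lemma measK1 (A : ℝ) : Measurable (K1 A) := by unfold K1; fun_prop

lemma measK2 (A : ℝ) : Measurable (K2 A) := by unfold K2; fun_prop

lemma k1_pos (A s : ℝ) : |K1 A s| ≤ 2 * WRho.f1 A s := by
  unfold K1 WRho.f1
  rw [abs_of_nonneg (by positivity), mul_one_div, div_le_div_iff₀ (by positivity) (by positivity)]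
  nlinarith [sq_nonneg (4 * (s - A) ^ 2 - 1), sq_nonneg ((s - A) ^ 2)]

end XKb

open XKb in
theorem t_kb : S_kb := by
  intro d hd
  set δ : ℝ := 1 / (2 * d) with hδdef
  have hd1 : (1 : ℝ) ≤ d := by exact_mod_cast hd
  have hδ0 : 0 < δ := by positivity
  have hδ1 : δ ≤ 1 := by
    rw [hδdef, div_le_one (by positivity)]
    linarith
  have hpi := Real.pi_pos
  refine ⟨ENNReal.ofReal (Real.pi * (2 * Real.pi) + Real.pi / δ), ENNReal.ofReal_ne_top, fun A hA => ?_⟩
  have ha : 0 < |A| := abs_pos.2 hA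
  have hn : nrt d A = ENNReal.ofReal (|A| ^ (-δ)) := nrt_eq hA
  have hC1 : ENNReal.ofReal (Real.pi * (|A| ^ (-δ) / δ)) ≤
      ENNReal.ofReal (Real.pi * (2 * Real.pi) + Real.pi / δ) * nrt d A := by
    rw [hn, ← ENNReal.ofReal_mul (by positivity)]
    apply ENNReal.ofReal_le_ofReal
    have h1 : 0 < |A| ^ (-δ) := by positivity
    have h2 : Real.pi * (|A| ^ (-δ) / δ) = Real.pi / δ * |A| ^ (-δ) := by ring
    rw [h2]
    gcongr
    have : 0 ≤ Real.pi * (2 * Real.pi) := by positivity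
    linarith
  have key : ∀ (K : ℝ → ℝ) (p q : ℝ), Measurable K → 0 < p → 0 < q → p = |A| →
      (∀ s, 0 < s → |K s| ≤ q * (p + q * s) ^ (-(1 + δ))) →
      ∫⁻ y : Fin 2 → ℝ, ‖K (y 0 ^ 2 + y 1 ^ 2)‖ₑ ≤
        ENNReal.ofReal (Real.pi * (2 * Real.pi) + Real.pi / δ) * nrt d A := by
    intro K p q hK hp hq hpA hb
    have h1 := WRho.plane (fun s => ‖K s‖ₑ) hK.enorm
    rw [h1]
    refine le_trans ?_ hC1
    rw [ENNReal.ofReal_mul hpi.le, ← hpA, ← tail hδ0 hp hq]
    gcongr ENNReal.ofReal Real.pi * ?_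
    refine setLIntegral_mono' measurableSet_Ioi fun s hs => ?_
    rw [Real.enorm_eq_ofReal_abs]
    exact ENNReal.ofReal_le_ofReal (hb s hs)
  constructor
  · rcases lt_or_gt_of_ne hA with h | h
    · rw [if_neg (not_lt.2 h.le), zero_add]
      refine key (K1 A) |A| 1 (measK1 A) ha one_pos rfl fun s hs => ?_
      have := k1_neg hδ0 hδ1 ha hs
      rwa [abs_of_neg h, neg_neg, ← abs_of_neg h] at this
    · rw [if_pos h, mul_add, mul_one]
      refine le_trans ?_ le_self_add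
      have h1 := WRho.plane (fun s => ‖K1 A s‖ₑ) (measK1 A).enorm
      rw [h1]
      have h2 : ∫⁻ s in Set.Ioi (0 : ℝ), ‖K1 A s‖ₑ ≤ ENNReal.ofReal (2 * Real.pi) := by
        calc ∫⁻ s in Set.Ioi (0 : ℝ), ‖K1 A s‖ₑ ≤
            ∫⁻ s in Set.Ioi (0 : ℝ), ENNReal.ofReal 2 * ENNReal.ofReal (WRho.f1 A s) := by
              refine lintegral_mono fun s => ?_
              rw [Real.enorm_eq_ofReal_abs, ← ENNReal.ofReal_mul (by norm_num)]
              exact ENNReal.ofReal_le_ofReal (k1_pos A s)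
          _ = ENNReal.ofReal 2 * ENNReal.ofReal (Real.pi / 2 + Real.arctan A) := by
              have hm : Measurable fun s => ENNReal.ofReal (WRho.f1 A s) :=
                ENNReal.measurable_ofReal.comp (WRho.meas1 A)
              rw [lintegral_const_mul _ hm, WRho.int1]
          _ ≤ ENNReal.ofReal (2 * Real.pi) := by
              rw [← ENNReal.ofReal_mul (by norm_num)]
              apply ENNReal.ofReal_le_ofReal
              have := Real.arctan_lt_pi_div_two A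
              linarith
      calc ENNReal.ofReal Real.pi * ∫⁻ s in Set.Ioi (0 : ℝ), ‖K1 A s‖ₑ ≤
          ENNReal.ofReal Real.pi * ENNReal.ofReal (2 * Real.pi) := by gcongr
        _ = ENNReal.ofReal (Real.pi * (2 * Real.pi)) := (ENNReal.ofReal_mul hpi.le).symm
        _ ≤ _ := by
          apply ENNReal.ofReal_le_ofReal
          have : 0 ≤ Real.pi / δ := by positivity
          linarith
  · exact key (K2 A) |A| |A| (measK2 A) ha ha rfl fun s hs => k2_le hδ0 hδ1 hA hs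

end Pool.Agent.H652.PV
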