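import Pool.Agent.H652.PV.Wreal

/-!
# W1: the integral of the kernel over the plane
-/

set_option autoImplicit false

namespace Pool.Agent.H652.PV

open MeasureTheory Filter Topology

namespace WRho

/-- the area of discs -/
lemma lint_disc (φ : ℝ → ENNReal) (hφ : Measurable φ) :
    ∫⁻ p : ℝ × ℝ, φ (p.1 ^ 2 + p.2 ^ 2) =
      ENNReal.ofReal Real.pi * ∫⁻ h in Set.Ioi (0 : ℝ), φ h := by
  have h1 : ∫⁻ h in Set.Ioi (0 : ℝ), φ h =
      ∫⁻ r in Set.Ioi (0 : ℝ), ENNReal.ofReal |2 * r| * φ (r ^ 2) := by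
    have himg : (fun r : ℝ => r ^ 2) '' Set.Ioi 0 = Set.Ioi 0 := by
      ext x
      constructor
      · rintro ⟨r, hr, rfl⟩
        exact pow_pos (show (0 : ℝ) < r from hr) 2
      · intro hx
        exact ⟨Real.sqrt x, Real.sqrt_pos.2 hx, Real.sq_sqrt (le_of_lt hx)⟩
    conv_lhs => rw [← himg]
    refine lintegral_image_eq_lintegral_abs_deriv_mul measurableSet_Ioi (fun x _ => ?_) ?_ φ
    · have := (hasDerivAt_pow 2 x).hasDerivWithinAt (s := Set.Ioi 0)
      simpa using this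
    · intro a ha b hb hab
      exact (pow_left_inj₀ (le_of_lt ha) (le_of_lt hb) two_ne_zero).1 hab
  have h2 : ∀ p ∈ polarCoord.target, ENNReal.ofReal p.1 •
      φ ((polarCoord.symm p).1 ^ 2 + (polarCoord.symm p).2 ^ 2) =
        (ENNReal.ofReal p.1 * φ (p.1 ^ 2)) * 1 := by
    intro p _
    have : (polarCoord.symm p).1 ^ 2 + (polarCoord.symm p).2 ^ 2 = p.1 ^ 2 := by
      rw [polarCoord_symm_apply]
      show (p.1 * Real.cos p.2) ^ 2 + (p.1 * Real.sin p.2) ^ 2 = p.1 ^ 2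
      nlinarith [Real.sin_sq_add_cos_sq p.2]
    rw [this, mul_one, smul_eq_mul]
  have hm : Measurable fun r : ℝ => ENNReal.ofReal r * φ (r ^ 2) :=
    ENNReal.measurable_ofReal.mul (hφ.comp (measurable_id.pow_const 2))
  rw [← lintegral_comp_polarCoord_symm, setLIntegral_congr_fun polarCoord.open_target.measurableSet h2,
    polarCoord_target, Measure.volume_eq_prod, ← Measure.prod_restrict,
    lintegral_prod_mul hm.aemeasurable measurable_const.aemeasurable, h1, lintegral_const, one_mul,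
    Measure.restrict_apply MeasurableSet.univ, Set.univ_inter, Real.volume_Ioo]
  have h3 : ∀ r ∈ Set.Ioi (0 : ℝ), ENNReal.ofReal |2 * r| * φ (r ^ 2) =
      ENNReal.ofReal 2 * (ENNReal.ofReal r * φ (r ^ 2)) := by
    intro r hr
    have hr' : (0 : ℝ) < r := hr
    rw [abs_of_pos (by positivity), ENNReal.ofReal_mul (by norm_num), mul_assoc]
  rw [setLIntegral_congr_fun measurableSet_Ioi h3, lintegral_const_mul _ hm, ← mul_assoc,
    ← ENNReal.ofReal_mul Real.pi_pos.le, mul_comm]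
  congr 2
  ring

lemma plane (φ : ℝ → ENNReal) (hφ : Measurable φ) :
    ∫⁻ y : Fin 2 → ℝ, φ (y 0 ^ 2 + y 1 ^ 2) =
      ENNReal.ofReal Real.pi * ∫⁻ h in Set.Ioi (0 : ℝ), φ h := by
  have e2 : ∀ z : Fin 2 → ℝ, φ (z 0 ^ 2 + z 1 ^ 2) =
      (fun p : ℝ × ℝ => φ (p.1 ^ 2 + p.2 ^ 2)) (MeasurableEquiv.finTwoArrow z) := fun z => rfl
  have hm2 : Measurable fun p : ℝ × ℝ => φ (p.1 ^ 2 + p.2 ^ 2) := hφ.comp (by fun_prop)
  simp only [e2]
  rw [(volume_preserving_finTwoArrow ℝ).lintegral_comp hm2, lint_disc φ hφ]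

/-- the two parts of the kernel -/
noncomputable def f1 (A s : ℝ) : ℝ := 1 / (1 + (s - A) ^ 2)

noncomputable def f2 (a s : ℝ) : ℝ := 1 / (1 + (a * (1 + s)) ^ 2) * a

lemma f1_nonneg (A s : ℝ) : 0 ≤ f1 A s := by unfold f1; positivity

lemma f2_nonneg {a : ℝ} (ha : 0 < a) (s : ℝ) : 0 ≤ f2 a s := by unfold f2; positivity

lemma meas1 (A : ℝ) : Measurable (f1 A) := by unfold f1; fun_prop

lemma meas2 (a : ℝ) : Measurable (f2 a) := by unfold f2; fun_prop

lemma int1 (A : ℝ) : ∫⁻ s in Set.Ioi (0 : ℝ), ENNReal.ofReal (f1 A s) =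
    ENNReal.ofReal (Real.pi / 2 + Real.arctan A) := by
  have hd : ∀ s ∈ Set.Ioi (0 : ℝ), HasDerivAt (fun s => Real.arctan (s - A)) (f1 A s) s := by
    intro s _
    have h := (((hasDerivAt_id s).sub_const A).arctan)
    simpa [f1] using h
  have hc : ContinuousWithinAt (fun s => Real.arctan (s - A)) (Set.Ici 0) 0 := by
    apply Continuous.continuousWithinAt
    fun_prop
  have ht : Tendsto (fun s => Real.arctan (s - A)) atTop (𝓝 (Real.pi / 2)) :=
    (tendsto_nhds_of_tendsto_nhdsWithin Real.tendsto_arctan_atTop).comp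
      (tendsto_atTop_add_const_right _ _ tendsto_id)
  have hi := integrableOn_Ioi_deriv_of_nonneg hc hd (fun s _ => f1_nonneg A s) ht
  have hv := integral_Ioi_of_hasDerivAt_of_nonneg hc hd (fun s _ => f1_nonneg A s) ht
  rw [← ofReal_integral_eq_lintegral_ofReal hi (Eventually.of_forall fun s => f1_nonneg A s), hv,
    zero_sub, Real.arctan_neg, sub_neg_eq_add]

lemma int2 {a : ℝ} (ha : 0 < a) : ∫⁻ s in Set.Ioi (0 : ℝ), ENNReal.ofReal (f2 a s) =
    ENNReal.ofReal (Real.pi / 2 - Real.arctan a) := by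
  have hd : ∀ s ∈ Set.Ioi (0 : ℝ), HasDerivAt (fun s => Real.arctan (a * (1 + s))) (f2 a s) s := by
    intro s _
    have h := ((((hasDerivAt_id s).const_add 1).const_mul a).arctan)
    simpa [f2] using h
  have hc : ContinuousWithinAt (fun s => Real.arctan (a * (1 + s))) (Set.Ici 0) 0 := by
    apply Continuous.continuousWithinAt
    fun_prop
  have ht : Tendsto (fun s => Real.arctan (a * (1 + s))) atTop (𝓝 (Real.pi / 2)) :=
    (tendsto_nhds_of_tendsto_nhdsWithin Real.tendsto_arctan_atTop).comp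
      ((tendsto_atTop_add_const_left _ _ tendsto_id).const_mul_atTop ha)
  have hi := integrableOn_Ioi_deriv_of_nonneg hc hd (fun s _ => f2_nonneg ha s) ht
  have hv := integral_Ioi_of_hasDerivAt_of_nonneg hc hd (fun s _ => f2_nonneg ha s) ht
  rw [← ofReal_integral_eq_lintegral_ofReal hi (Eventually.of_forall fun s => f2_nonneg ha s), hv,
    add_zero, mul_one]

lemma rho_eq (A s : ℝ) : rho A s = f1 A s + (if 0 < A then 1 else -1) * f2 |A| s := by
  unfold rho f1 f2
  have h : (|A| * (1 + s)) ^ 2 = (A * (1 + s)) ^ 2 := by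
    rw [mul_pow, mul_pow, sq_abs]
  rw [h]
  split_ifs with h0
  · rw [abs_of_pos h0]
    ring
  · rw [abs_of_nonpos (not_lt.1 h0)]
    ring

lemma real_int (f : ℝ → ℝ) (hf : Measurable f) (h0 : ∀ s, 0 ≤ f s) (c : ℝ) (hc : 0 ≤ c)
    (h : ∫⁻ s in Set.Ioi (0 : ℝ), ENNReal.ofReal (f s) = ENNReal.ofReal c) :
    Integrable (fun y : Fin 2 → ℝ => f (y 0 ^ 2 + y 1 ^ 2)) ∧
      ∫ y : Fin 2 → ℝ, f (y 0 ^ 2 + y 1 ^ 2) = Real.pi * c := by
  have hm : Measurable (fun y : Fin 2 → ℝ => f (y 0 ^ 2 + y 1 ^ 2)) := hf.comp (by fun_prop)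
  have h1 := plane (fun s => ENNReal.ofReal (f s)) (ENNReal.measurable_ofReal.comp hf)
  rw [h, ← ENNReal.ofReal_mul Real.pi_pos.le] at h1
  constructor
  · refine ⟨hm.aestronglyMeasurable, ?_⟩
    rw [hasFiniteIntegral_iff_ofReal (Eventually.of_forall fun y => h0 _), h1]
    exact ENNReal.ofReal_lt_top
  · rw [integral_eq_lintegral_of_nonneg_ae (Eventually.of_forall fun y => h0 _)
      hm.aestronglyMeasurable, h1, ENNReal.toReal_ofReal (by positivity)]

lemma pi_half_sub_nonneg (a : ℝ) : 0 ≤ Real.pi / 2 - Real.arctan a := by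
  have := Real.arctan_lt_pi_div_two a
  linarith

lemma pi_half_add_nonneg (a : ℝ) : 0 ≤ Real.pi / 2 + Real.arctan a := by
  have := Real.neg_pi_div_two_lt_arctan a
  linarith

lemma arctan_le {x : ℝ} (hx : 0 ≤ x) : Real.arctan x ≤ x := by
  have h1 := Real.arctan_nonneg.2 hx
  have h2 := Real.arctan_lt_pi_div_two x
  have h3 := Real.le_tan h1 h2
  rwa [Real.tan_arctan] at h3

end WRho

open WRho in
theorem t_rho : S_rho := by
  refine ⟨fun A hA => ?_, fun A hA => ?_⟩
  · have ha : 0 < |A| := abs_pos.2 hA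
    have hm1 : Measurable fun s => ENNReal.ofReal (f1 A s) + ENNReal.ofReal (f2 |A| s) :=
      (ENNReal.measurable_ofReal.comp (meas1 A)).add (ENNReal.measurable_ofReal.comp (meas2 |A|))
    have hb : ∀ s, ‖rho A s‖ₑ ≤ ENNReal.ofReal (f1 A s) + ENNReal.ofReal (f2 |A| s) := by
      intro s
      rw [← ENNReal.ofReal_add (f1_nonneg A s) (f2_nonneg ha s), Real.enorm_eq_ofReal_abs]
      apply ENNReal.ofReal_le_ofReal
      rw [rho_eq]
      refine (abs_add_le _ _).trans ?_
      rw [abs_of_nonneg (f1_nonneg A s), abs_mul, abs_of_nonneg (f2_nonneg ha s)]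
      have : |(if 0 < A then (1 : ℝ) else -1)| = 1 := by split_ifs <;> simp
      rw [this, one_mul]
    have h1 : ∫⁻ y : Fin 2 → ℝ, ‖rho A (y 0 ^ 2 + y 1 ^ 2)‖ₑ ≤
        ENNReal.ofReal (Real.pi * (Real.pi / 2 + Real.arctan A +
          (Real.pi / 2 - Real.arctan |A|))) := by
      have h2 : ∫⁻ y : Fin 2 → ℝ, ‖rho A (y 0 ^ 2 + y 1 ^ 2)‖ₑ ≤
          ∫⁻ y : Fin 2 → ℝ, (ENNReal.ofReal (f1 A (y 0 ^ 2 + y 1 ^ 2)) +
            ENNReal.ofReal (f2 |A| (y 0 ^ 2 + y 1 ^ 2))) :=
        lintegral_mono fun y => hb _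
      have h3 := plane (fun s => ENNReal.ofReal (f1 A s) + ENNReal.ofReal (f2 |A| s)) hm1
      have h4 : Measurable fun s => ENNReal.ofReal (f1 A s) :=
        ENNReal.measurable_ofReal.comp (meas1 A)
      refine h2.trans ?_
      rw [h3, lintegral_add_left h4, int1, int2 ha,
        ← ENNReal.ofReal_add (pi_half_add_nonneg A) (pi_half_sub_nonneg |A|),
        ← ENNReal.ofReal_mul Real.pi_pos.le]
    refine h1.trans ?_
    have hpi2 : Real.pi * Real.pi ≤ 20 := by
      have h2 := Real.pi_lt_d2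
      have h3 := Real.pi_pos
      nlinarith
    by_cases h0 : 0 < A
    · rw [if_pos h0, abs_of_pos h0]
      have e1 : Real.pi * (Real.pi / 2 + Real.arctan A + (Real.pi / 2 - Real.arctan A)) =
          Real.pi * Real.pi := by ring
      rw [e1]
      calc ENNReal.ofReal (Real.pi * Real.pi) ≤ ENNReal.ofReal 20 := ENNReal.ofReal_le_ofReal hpi2
        _ = 20 * 1 := by rw [mul_one]; exact ENNReal.ofReal_ofNat 20
        _ ≤ _ := by
          gcongr
          exact le_self_add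
    · have hneg : A < 0 := lt_of_le_of_ne (not_lt.1 h0) hA
      rw [if_neg h0, zero_add]
      have e0 : Real.arctan A = -Real.arctan |A| := by
        rw [abs_of_neg hneg, Real.arctan_neg, neg_neg]
      have e1 : Real.pi * (Real.pi / 2 + Real.arctan A + (Real.pi / 2 - Real.arctan |A|)) =
          2 * Real.pi * Real.arctan (|A|⁻¹) := by
        rw [e0, Real.arctan_inv_of_pos ha]
        ring
      rw [e1]
      have h2 : 2 * Real.pi * Real.arctan (|A|⁻¹) ≤ 20 := by
        have h3 := Real.arctan_lt_pi_div_two (|A|⁻¹)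
        have h4 := Real.pi_pos
        nlinarith
      have h3 : 2 * Real.pi * Real.arctan (|A|⁻¹) ≤ 20 * |A|⁻¹ := by
        have h4 := arctan_le (inv_pos.2 ha).le
        have h5 := Real.pi_lt_d2
        have h6 := Real.pi_pos
        have h7 : 0 < |A|⁻¹ := inv_pos.2 ha
        nlinarith
      have e2 : ‖A‖ₑ⁻¹ = ENNReal.ofReal (|A|⁻¹) := by
        rw [Real.enorm_eq_ofReal_abs, ENNReal.ofReal_inv_of_pos ha]
      have e3 : (20 : ENNReal) = ENNReal.ofReal 20 := (ENNReal.ofReal_ofNat 20).symm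
      rw [e2]
      rcases le_total (1 : ENNReal) (ENNReal.ofReal (|A|⁻¹)) with h4 | h4
      · rw [min_eq_left h4, mul_one, e3]
        exact ENNReal.ofReal_le_ofReal h2
      · rw [min_eq_right h4, e3, ← ENNReal.ofReal_mul (by norm_num)]
        exact ENNReal.ofReal_le_ofReal h3
  · have ha : 0 < |A| := abs_pos.2 hA
    obtain ⟨i1, v1⟩ := real_int (f1 A) (meas1 A) (f1_nonneg A) _ (pi_half_add_nonneg A) (int1 A)
    obtain ⟨i2, v2⟩ := real_int (f2 |A|) (meas2 |A|) (f2_nonneg ha) _ (pi_half_sub_nonneg |A|)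
      (int2 ha)
    simp only [rho_eq]
    rw [integral_add i1 (i2.const_mul _), integral_const_mul, v1, v2]
    by_cases h0 : 0 < A
    · rw [if_pos h0, if_pos h0, abs_of_pos h0]
      ring
    · have hneg : A < 0 := lt_of_le_of_ne (not_lt.1 h0) hA
      rw [if_neg h0, if_neg h0, abs_of_neg hneg, Real.arctan_neg]
      ring

end Pool.Agent.H652.PV
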