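import Pool.Agent.H652.PV.Xreal
import Pool.Agent.H652.PV.WRho

/-!
# X3: the values of the integrals over the plane
-/

set_option autoImplicit false

namespace Pool.Agent.H652.PV

open MeasureTheory Filter Topology

namespace XKv

/-- the quartic kernel -/
noncomputable def q (t : ℝ) : ℝ := 1 / (1 + 4 * t ^ 4)

lemma q_nonneg (t : ℝ) : 0 ≤ q t := by
  unfold q
  positivity

lemma q_neg (t : ℝ) : q (-t) = q t := by
  unfold q
  rw [Even.neg_pow (by decide)]

lemma q_abs (a s : ℝ) : q (a * (1 + s)) = q (|a| * (1 + s)) := by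
  rcases abs_choice a with h | h
  · rw [h]
  · rw [h, neg_mul, q_neg]

/-- the integral over a half line -/
noncomputable def J (a : ℝ) : ℝ := ∫ t in Set.Ioi a, q t

lemma J_nonneg (a : ℝ) : 0 ≤ J a := setIntegral_nonneg measurableSet_Ioi fun t _ => q_nonneg t

lemma shift (a : ℝ) : ∫ s in Set.Ioi (0 : ℝ), q (s - a) = J (-a) := by
  unfold J
  rw [← integral_indicator measurableSet_Ioi, ← integral_indicator measurableSet_Ioi,
    ← integral_sub_right_eq_self ((Set.Ioi (-a)).indicator q) a]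
  congr 1
  funext s
  by_cases h : 0 < s
  · rw [Set.indicator_of_mem (show s ∈ Set.Ioi (0 : ℝ) from h),
      Set.indicator_of_mem (show s - a ∈ Set.Ioi (-a) by
        rw [Set.mem_Ioi]
        linarith)]
  · rw [Set.indicator_of_notMem (show s ∉ Set.Ioi (0 : ℝ) from h),
      Set.indicator_of_notMem (show s - a ∉ Set.Ioi (-a) by
        rw [Set.mem_Ioi]
        intro h2
        exact h (by linarith))]

lemma scale {a : ℝ} (ha : 0 < a) : ∫ s in Set.Ioi (0 : ℝ), q (a * (1 + s)) = a⁻¹ * J a := by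
  have h1 := integral_comp_mul_left_Ioi (fun x => q (x - (-a))) 0 ha
  rw [mul_zero, shift, neg_neg, smul_eq_mul] at h1
  rw [← h1]
  refine integral_congr_ae (Eventually.of_forall fun s => ?_)
  show q (a * (1 + s)) = q (a * s - (-a))
  congr 1
  ring

lemma intq (hq : Integrable q) (A : ℝ) :
    Integrable (fun y : Fin 2 → ℝ => K1 A (y 0 ^ 2 + y 1 ^ 2)) ∧
      ∫ y : Fin 2 → ℝ, K1 A (y 0 ^ 2 + y 1 ^ 2) = Real.pi * J (-A) := by
  have e : K1 A = fun s => q (s - A) := rfl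
  refine WRho.real_int (K1 A) ?_ (fun s => ?_) _ (J_nonneg _) ?_
  · unfold K1
    fun_prop
  · rw [e]
    exact q_nonneg _
  · rw [← shift, e, ofReal_integral_eq_lintegral_ofReal]
    · exact (hq.comp_sub_right A).integrableOn
    · exact Eventually.of_forall fun s => q_nonneg _

lemma quad_pos (w : ℝ) : 0 < 1 - 2 * w + 2 * w ^ 2 := by
  nlinarith [sq_nonneg (w - 1), sq_nonneg w, sq_nonneg (2 * w - 1)]

lemma K2_nonneg (A : ℝ) {s : ℝ} (hs : 0 ≤ s) : 0 ≤ K2 A s := by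
  unfold K2
  have h1 := quad_pos (A * (1 + s))
  have h2 : 0 < 1 + s := by linarith
  positivity

lemma K2_meas (A : ℝ) : Measurable (K2 A) := by
  unfold K2
  fun_prop

lemma K2_le {A : ℝ} (hA : A ≠ 0) {s : ℝ} (hs : 0 ≤ s) :
    K2 A s ≤ 1 / (2 * A ^ 2) * (1 + s ^ 2)⁻¹ := by
  have hA2 : 0 < A ^ 2 := by positivity
  unfold K2
  rw [← one_div, one_div_mul_one_div]
  apply one_div_le_one_div_of_le (by positivity)
  have h1 : (A * (1 + s)) ^ 2 / 2 ≤ 1 - 2 * (A * (1 + s)) + 2 * (A * (1 + s)) ^ 2 := by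
    nlinarith [sq_nonneg (3 * (A * (1 + s)) - 2)]
  have h2 : 4 * (1 + s) * ((A * (1 + s)) ^ 2 / 2) ≤
      4 * (1 + s) * (1 - 2 * (A * (1 + s)) + 2 * (A * (1 + s)) ^ 2) :=
    mul_le_mul_of_nonneg_left h1 (by positivity)
  refine le_trans ?_ h2
  have h3 : 4 * (1 + s) * ((A * (1 + s)) ^ 2 / 2) = 2 * A ^ 2 * (1 + s) ^ 3 := by ring
  rw [h3]
  apply mul_le_mul_of_nonneg_left _ (by positivity)
  nlinarith [mul_nonneg hs hs, mul_nonneg hs (mul_nonneg hs hs)]

lemma K2_int {A : ℝ} (hA : A ≠ 0) : IntegrableOn (K2 A) (Set.Ioi 0) := by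
  refine Integrable.mono' ((integrable_inv_one_add_sq.const_mul (1 / (2 * A ^ 2))).integrableOn)
    (K2_meas A).aestronglyMeasurable ?_
  refine (ae_restrict_mem measurableSet_Ioi).mono fun s hs => ?_
  have hs' : 0 ≤ s := le_of_lt hs
  rw [Real.norm_of_nonneg (K2_nonneg A hs')]
  exact K2_le hA hs'

lemma K2_plane {A : ℝ} (hA : A ≠ 0) :
    ∫ y : Fin 2 → ℝ, K2 A (y 0 ^ 2 + y 1 ^ 2) = Real.pi * ∫ s in Set.Ioi (0 : ℝ), K2 A s := by
  have e1 : ∀ y : Fin 2 → ℝ, K2 A (y 0 ^ 2 + y 1 ^ 2) = (fun s => K2 A |s|) (y 0 ^ 2 + y 1 ^ 2) := by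
    intro y
    show K2 A (y 0 ^ 2 + y 1 ^ 2) = K2 A |y 0 ^ 2 + y 1 ^ 2|
    rw [abs_of_nonneg (by positivity)]
  simp only [e1]
  refine (WRho.real_int (fun s => K2 A |s|) ((K2_meas A).comp measurable_norm)
    (fun s => K2_nonneg A (abs_nonneg s)) _ ?_ ?_).2
  · exact setIntegral_nonneg measurableSet_Ioi fun s hs => K2_nonneg A (le_of_lt hs)
  · rw [ofReal_integral_eq_lintegral_ofReal (K2_int hA)
      ((ae_restrict_mem measurableSet_Ioi).mono fun s hs => K2_nonneg A (le_of_lt hs))]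
    refine setLIntegral_congr_fun measurableSet_Ioi fun s hs => ?_
    show ENNReal.ofReal (K2 A |s|) = ENNReal.ofReal (K2 A s)
    rw [abs_of_pos hs]

lemma K2_sub (A : ℝ) {s : ℝ} (hs : 0 < s) : K2 A s - K2 (-A) s = A * q (A * (1 + s)) := by
  unfold K2 q
  have h1 := quad_pos (A * (1 + s))
  have h2 := quad_pos (-A * (1 + s))
  have h3 : 0 < 1 + s := by linarith
  have h4 : 0 < 1 + 4 * (A * (1 + s)) ^ 4 := by positivity
  rw [div_sub_div _ _ (by positivity) (by positivity), mul_one_div, div_eq_div_iff (by positivity)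
    h4.ne']
  ring

end XKv

open XKv in
theorem t_kv (h : S_quart) : S_kv := by
  obtain ⟨h1, h2⟩ := h
  have hq : Integrable q := h1
  have hq2 : ∫ t, q t = Real.pi / 2 := h2
  intro A hA
  have hd : (∫ s in Set.Ioi (0 : ℝ), K2 A s) - ∫ s in Set.Ioi (0 : ℝ), K2 (-A) s =
      A * (|A|⁻¹ * J |A|) := by
    rw [← integral_sub (K2_int hA) (K2_int (neg_ne_zero.2 hA)), ← scale (abs_pos.2 hA),
      ← integral_const_mul]
    refine setIntegral_congr_fun measurableSet_Ioi fun s hs => ?_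
    show K2 A s - K2 (-A) s = A * q (|A| * (1 + s))
    rw [K2_sub A hs, q_abs]
  rw [(intq hq A).2, K2_plane hA, K2_plane (neg_ne_zero.2 hA)]
  have e : Real.pi * J (-A) + Real.pi * (∫ s in Set.Ioi (0 : ℝ), K2 A s) -
      Real.pi * (∫ s in Set.Ioi (0 : ℝ), K2 (-A) s) =
      Real.pi * (J (-A) + ((∫ s in Set.Ioi (0 : ℝ), K2 A s) -
        ∫ s in Set.Ioi (0 : ℝ), K2 (-A) s)) := by ring
  rw [e, hd]
  by_cases h0 : 0 < A
  · rw [if_pos h0, abs_of_pos h0, ← mul_assoc, mul_inv_cancel₀ h0.ne', one_mul]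
    have h3 : J A = ∫ t in Set.Iic (-A), q t := by
      rw [← integral_comp_neg_Ioi]
      unfold J
      exact setIntegral_congr_fun measurableSet_Ioi fun t _ => (q_neg t).symm
    have h4 : J (-A) + J A = Real.pi / 2 := by
      rw [h3, ← hq2, add_comm]
      exact intervalIntegral.integral_Iic_add_Ioi hq.integrableOn hq.integrableOn
    rw [h4]
    ring
  · have hneg : A < 0 := lt_of_le_of_ne (not_lt.1 h0) hA
    rw [if_neg h0, abs_of_neg hneg]
    have h5 : A * ((-A)⁻¹ * J (-A)) = -J (-A) := by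
      rw [← mul_assoc, inv_neg, mul_neg, mul_inv_cancel₀ hA]
      ring
    rw [h5]
    ring

end Pool.Agent.H652.PV
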