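import Pool.Agent.H652.PV.Xreal

/-! # X2: the integral of `1 / (1 + 4 t ^ 4)` (helper78) -/

set_option autoImplicit false

namespace Pool.Agent.H652.PV

open MeasureTheory Filter Topology

namespace XQuart

lemma p_pos (t : ℝ) : 0 < 1 + 2 * t + 2 * t ^ 2 := by nlinarith [sq_nonneg (1 + 2 * t)]

lemma m_pos (t : ℝ) : 0 < 1 - 2 * t + 2 * t ^ 2 := by nlinarith [sq_nonneg (1 - 2 * t)]

/-- the antiderivative -/
noncomputable def G (t : ℝ) : ℝ :=
  (1 / 8) * (Real.log (1 + 2 * t + 2 * t ^ 2) - Real.log (1 - 2 * t + 2 * t ^ 2)) +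
    (1 / 4) * (Real.arctan (2 * t - 1) + Real.arctan (2 * t + 1))

lemma deriv_G (t : ℝ) : HasDerivAt G (1 / (1 + 4 * t ^ 4)) t := by
  have hp := p_pos t
  have hm := m_pos t
  have h1 : HasDerivAt (fun t : ℝ => 1 + 2 * t + 2 * t ^ 2) (2 + 4 * t) t := by
    have h := (((hasDerivAt_id t).const_mul 2).const_add 1).add ((hasDerivAt_pow 2 t).const_mul 2)
    refine h.congr_deriv ?_
    simp only [Nat.cast_ofNat]
    ring
  have h2 : HasDerivAt (fun t : ℝ => 1 - 2 * t + 2 * t ^ 2) (-2 + 4 * t) t := by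
    have h := (((hasDerivAt_id t).const_mul 2).const_sub 1).add ((hasDerivAt_pow 2 t).const_mul 2)
    refine h.congr_deriv ?_
    simp only [Nat.cast_ofNat]
    ring
  have h3 : HasDerivAt (fun t : ℝ => 2 * t - 1) 2 t := by
    have h := ((hasDerivAt_id t).const_mul 2).sub_const 1
    refine h.congr_deriv ?_
    ring
  have h4 : HasDerivAt (fun t : ℝ => 2 * t + 1) 2 t := by
    have h := ((hasDerivAt_id t).const_mul 2).add_const 1
    refine h.congr_deriv ?_
    ring
  have h5 := (((h1.log hp.ne').sub (h2.log hm.ne')).const_mul (1 / 8)).add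
    ((h3.arctan.add h4.arctan).const_mul (1 / 4))
  refine h5.congr_deriv ?_
  have e1 : 1 + (2 * t - 1) ^ 2 = 2 * (1 - 2 * t + 2 * t ^ 2) := by ring
  have e2 : 1 + (2 * t + 1) ^ 2 = 2 * (1 + 2 * t + 2 * t ^ 2) := by ring
  have e3 : 1 + 4 * t ^ 4 = (1 + 2 * t + 2 * t ^ 2) * (1 - 2 * t + 2 * t ^ 2) := by ring
  rw [e1, e2, e3]
  have hp' := hp.ne'
  have hm' := hm.ne'
  field_simp
  ring

lemma G_neg (t : ℝ) : G (-t) = -G t := by
  unfold G
  have e1 : 1 + 2 * -t + 2 * (-t) ^ 2 = 1 - 2 * t + 2 * t ^ 2 := by ring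
  have e2 : 1 - 2 * -t + 2 * (-t) ^ 2 = 1 + 2 * t + 2 * t ^ 2 := by ring
  have e3 : 2 * -t - 1 = -(2 * t + 1) := by ring
  have e4 : 2 * -t + 1 = -(2 * t - 1) := by ring
  rw [e1, e2, e3, e4, Real.arctan_neg, Real.arctan_neg]
  ring

lemma tendsto_log : Tendsto (fun t : ℝ => Real.log (1 + 2 * t + 2 * t ^ 2) -
    Real.log (1 - 2 * t + 2 * t ^ 2)) atTop (𝓝 0) := by
  have h1 : Tendsto (fun t : ℝ => 4 * t / (1 - 2 * t + 2 * t ^ 2)) atTop (𝓝 0) := by
    have h2 : Tendsto (fun t : ℝ => 4 / t) atTop (𝓝 0) := tendsto_const_nhds.div_atTop tendsto_id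
    refine squeeze_zero' ?_ ?_ h2
    · filter_upwards [eventually_ge_atTop 1] with t ht
      have := m_pos t
      positivity
    · filter_upwards [eventually_ge_atTop 1] with t ht
      rw [div_le_div_iff₀ (m_pos t) (by linarith)]
      nlinarith [sq_nonneg (t - 1)]
  have h2 : Tendsto (fun t : ℝ => 1 + 4 * t / (1 - 2 * t + 2 * t ^ 2)) atTop (𝓝 1) := by
    have := h1.const_add 1
    rwa [add_zero] at this
  have h3 := (Real.continuousAt_log one_ne_zero).tendsto.comp h2
  rw [Real.log_one] at h3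
  refine h3.congr fun t => ?_
  rw [Function.comp_apply, ← Real.log_div (p_pos t).ne' (m_pos t).ne']
  congr 1
  have := (m_pos t).ne'
  rw [eq_div_iff this, add_mul, div_mul_cancel₀ _ this]
  ring

lemma tendsto_top : Tendsto G atTop (𝓝 (Real.pi / 4)) := by
  have ha : Tendsto (fun t : ℝ => 2 * t) atTop atTop :=
    tendsto_id.const_mul_atTop (by norm_num)
  have h1 : Tendsto (fun t : ℝ => Real.arctan (2 * t - 1)) atTop (𝓝 (Real.pi / 2)) :=
    (Real.tendsto_arctan_atTop.mono_right nhdsWithin_le_nhds).comp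
      (tendsto_atTop_add_const_right _ (-1) ha)
  have h2 : Tendsto (fun t : ℝ => Real.arctan (2 * t + 1)) atTop (𝓝 (Real.pi / 2)) :=
    (Real.tendsto_arctan_atTop.mono_right nhdsWithin_le_nhds).comp
      (tendsto_atTop_add_const_right _ 1 ha)
  have h3 := (tendsto_log.const_mul (1 / 8)).add ((h1.add h2).const_mul (1 / 4))
  have e : (1 / 8 : ℝ) * 0 + 1 / 4 * (Real.pi / 2 + Real.pi / 2) = Real.pi / 4 := by ring
  rw [e] at h3
  exact h3

lemma tendsto_bot : Tendsto G atBot (𝓝 (-(Real.pi / 4))) := by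
  have h := (tendsto_top.comp tendsto_neg_atBot_atTop).neg
  refine h.congr fun t => ?_
  rw [Function.comp_apply, G_neg, neg_neg]

lemma integrable : Integrable (fun t : ℝ => 1 / (1 + 4 * t ^ 4)) := by
  refine (integrable_inv_one_add_sq.const_mul 2).mono' ?_ (Eventually.of_forall fun t => ?_)
  · exact (Measurable.aestronglyMeasurable (by fun_prop))
  · have h : 0 < 1 + 4 * t ^ 4 := by positivity
    rw [Real.norm_of_nonneg (by positivity), ← div_eq_mul_inv,
      div_le_div_iff₀ h (by positivity)]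
    nlinarith [sq_nonneg (4 * t ^ 2 - 1), sq_nonneg (t ^ 2)]

end XQuart

open XQuart in
/-- X2 -/
theorem t_quart : S_quart := by
  refine ⟨XQuart.integrable, ?_⟩
  rw [integral_of_hasDerivAt_of_tendsto deriv_G XQuart.integrable tendsto_bot tendsto_top]
  ring

end Pool.Agent.H652.PV
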