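import Pool.Agent.H652.PV.Recip
import Pool.Agent.H652.PV.XKb
import Pool.Agent.H652.PV.XKv
import Pool.Agent.H652.PV.XQuart
import Pool.Agent.H652.PV.XCod
import Pool.Agent.H652.PV.XMul

/-!
# Periods as sums of integrals of reciprocals of polynomials: conclusion
-/

set_option autoImplicit false
set_option synthInstance.maxSize 2000

namespace Pool.Agent.H652.PV

open Pool.Agent.TH960.PE MeasureTheory

namespace Recip

open Whole

/-! ### The sum of reciprocals as a rational function -/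

/-- numerator and denominator of the sum of the `1 / p` -/
def fr (P : List Poly) : Poly × Poly :=
  P.foldr (fun p s => (s.2 ++ mulS p s.1, mulS p s.2)) ([], natP 1)

lemma fr_p : Primrec fr := by
  have h : Primrec₂ fun (_ : List Poly) (q : Poly × (Poly × Poly)) =>
      ((q.2.2 ++ mulS q.1 q.2.1, mulS q.1 q.2.2) : Poly × Poly) := by
    have a : Primrec fun x : List Poly × (Poly × (Poly × Poly)) => x.2.1 :=
      Primrec.fst.comp Primrec.snd
    have b : Primrec fun x : List Poly × (Poly × (Poly × Poly)) => x.2.2.1 :=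
      Primrec.fst.comp (Primrec.snd.comp Primrec.snd)
    have c : Primrec fun x : List Poly × (Poly × (Poly × Poly)) => x.2.2.2 :=
      Primrec.snd.comp (Primrec.snd.comp Primrec.snd)
    exact ((Primrec.list_append.comp c (PrimT.mulS_p a b)).pair (PrimT.mulS_p a c)).to₂
  exact Primrec.list_foldr Primrec.id (Primrec.const _) h

lemma fr_spec (n : ℕ) (P : List Poly) (hP : ∀ p ∈ P, Rcp n p) :
    RatFn n (fr P).1 (fr P).2 ∧
      ∫ x : Fin n → ℝ, pev (ext x) (fr P).1 / pev (ext x) (fr P).2 = rint n P := by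
  induction P with
  | nil =>
    have e : ∀ X : ℕ → ℝ, pev X (fr []).1 / pev X (fr []).2 = 0 := fun X => by
      simp [fr, pev]
    refine ⟨⟨⟨fun m hm => by simp [fr] at hm, fun m hm => by simp [fr] at hm⟩,
      ⟨isPoly_natP _ _, isInt_natP 1⟩, fun X => ?_, ?_⟩, ?_⟩
    · change 1 ≤ pev X (natP 1)
      rw [pev_natP]
      norm_num
    · simp only [e]
      exact integrable_zero _ _ _
    · simp only [e, rint, integral_zero, List.map_nil, List.sum_nil]
  | cons p P ih =>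
    obtain ⟨⟨⟨a1, a2⟩, ⟨b1, b2⟩, c, d⟩, e⟩ := ih fun q hq => hP q (List.mem_cons_of_mem _ hq)
    obtain ⟨p1, p2, p3, p4⟩ := hP p List.mem_cons_self
    have hv : ∀ X : ℕ → ℝ, pev X (fr (p :: P)).1 / pev X (fr (p :: P)).2 =
        1 / pev X p + pev X (fr P).1 / pev X (fr P).2 := by
      intro X
      have h1 : pev X p ≠ 0 := (lt_of_lt_of_le one_pos (p3 X)).ne'
      have h2 : pev X (fr P).2 ≠ 0 := (lt_of_lt_of_le one_pos (c X)).ne'
      change pev X ((fr P).2 ++ mulS p (fr P).1) / pev X (mulS p (fr P).2) = _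
      rw [pev_append, pev_mulS, pev_mulS, div_add_div _ _ h1 h2]
      ring
    refine ⟨⟨⟨?_, ?_⟩, ⟨?_, ?_⟩, fun X => ?_, ?_⟩, ?_⟩
    · exact SChain.isPoly_append b1 (isPoly_mulS p1 a1)
    · exact isInt_append b2 (isInt_mulS p2 a2)
    · exact isPoly_mulS p1 b1
    · exact isInt_mulS p2 b2
    · change 1 ≤ pev X (mulS p (fr P).2)
      rw [pev_mulS]
      exact one_le_mul_of_one_le_of_one_le (p3 X) (c X)
    · simp only [hv]
      exact p4.add d
    · simp only [hv]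
      rw [integral_add p4 d, e]
      simp [rint]

lemma code2_p : Primrec fun p : ℕ × List Poly => ((p.1, (fr p.2).1, (fr p.2).2, []) : Code) :=
  (Primrec.fst.pair ((Primrec.fst.comp (fr_p.comp Primrec.snd)).pair
    ((Primrec.snd.comp (fr_p.comp Primrec.snd)).pair (Primrec.const []))) :
      Primrec fun p : ℕ × List Poly => ((p.1, (fr p.2).1, (fr p.2).2, []) : Code))

lemma code3_p : Primrec fun p : ℕ × List Poly × List Poly =>
    ((((p.1, (fr p.2.1).1, (fr p.2.1).2, []), zeroCode),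
      ((p.1, (fr p.2.2).1, (fr p.2.2).2, []), zeroCode)) : Pres × Pres) :=
  (((code2_p.comp (Primrec.fst.pair (Primrec.fst.comp Primrec.snd))).pair
    (Primrec.const zeroCode)).pair ((code2_p.comp (Primrec.fst.pair
      (Primrec.snd.comp Primrec.snd))).pair (Primrec.const zeroCode))).of_eq fun p => rfl

theorem rcp_of_eq (h : AlgDecidable (fun a b => a = b)) : RcpDec (· = ·) := by
  obtain ⟨f, hf, hd⟩ := h
  refine ⟨fun p => f (((p.1, (fr p.2.1).1, (fr p.2.1).2, []), zeroCode),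
    ((p.1, (fr p.2.2).1, (fr p.2.2).2, []), zeroCode)), hf.comp code3_p.to_comp,
    fun n P Q _ _ hP hQ => ?_⟩
  obtain ⟨a1, a2⟩ := fr_spec n P hP
  obtain ⟨b1, b2⟩ := fr_spec n Q hQ
  obtain ⟨c1, c2⟩ := space_code n _ _ a1
  obtain ⟨d1, d2⟩ := space_code n _ _ b1
  obtain ⟨p1, p2, p3⟩ := pair_val _ _ c1 d1
  obtain ⟨c, hc, h1⟩ := hd _ _ p1 p2
  refine ⟨c, hc, h1.trans (p3.trans ?_)⟩
  rw [c2, d2, a2, b2]

theorem rcp_of_le (h : AlgDecidable (fun a b => a.re ≤ b.re)) : RcpDec (· ≤ ·) := by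
  obtain ⟨f, hf, hd⟩ := h
  refine ⟨fun p => f (((p.1, (fr p.2.1).1, (fr p.2.1).2, []), zeroCode),
    ((p.1, (fr p.2.2).1, (fr p.2.2).2, []), zeroCode)), hf.comp code3_p.to_comp,
    fun n P Q _ _ hP hQ => ?_⟩
  obtain ⟨a1, a2⟩ := fr_spec n P hP
  obtain ⟨b1, b2⟩ := fr_spec n Q hQ
  obtain ⟨c1, c2⟩ := space_code n _ _ a1
  obtain ⟨d1, d2⟩ := space_code n _ _ b1
  obtain ⟨p1, p2, p3⟩ := pair_le _ _ c1 d1
  obtain ⟨c, hc, h1⟩ := hd _ _ p1 p2
  refine ⟨c, hc, h1.trans (p3.trans ?_)⟩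
  rw [c2, d2, a2, b2]

theorem gen_rcp {R : ENNReal → ENNReal → Prop} {R' : ℝ → ℝ → Prop}
    (hR : ∀ (C u v : ℝ) (x y : ENNReal), 0 < C → x ≠ ⊤ → y ≠ ⊤ →
      u - v = C * (x.toReal - y.toReal) → (R' u v ↔ R x y)) (h : RcpDec R') :
    Maps.GenVol R := by
  obtain ⟨f, hf, hd⟩ := h
  have h4 : S_itg2 := t_itg2 (t_all t_one) t_mv
  refine ⟨fun p => f (rc p), hf.comp (rc_p t_cod2).to_comp, fun n F G hF hG => ?_⟩
  obtain ⟨⟨a1, a2, a3, a4⟩, b⟩ := rc_spec t_kb (t_kv t_quart) t_cod2 h4 n F G hF hG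
  obtain ⟨r, hr, h5⟩ := hd _ _ _ a1 a2 a3 a4
  exact ⟨r, hr, h5.trans (hR _ _ _ _ _ (by positivity) hF.2.2 hG.2.2 b)⟩

/-- **Equality.** -/
theorem recip_eq : List.TFAE [AlgDecidable (fun a b => a = b), SpaceDec (· = ·),
    RcpDec (· = ·)] := by
  tfae_have 1 ↔ 2 := space_eq
  tfae_have 1 → 3 := rcp_of_eq
  tfae_have 3 → 1 := fun h => decidable_of_volumes (gen_rcp (R' := (· = ·))
    (fun C u v x y hC hx hy e => by
      rw [← ENNReal.toReal_eq_toReal_iff' hx hy, ← sub_eq_zero, e, mul_eq_zero, sub_eq_zero]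
      exact ⟨fun h => h.resolve_left hC.ne', Or.inr⟩) h)
  tfae_finish

/-- **Order.** -/
theorem recip_le : List.TFAE [AlgDecidable (fun a b => a.re ≤ b.re), SpaceDec (· ≤ ·),
    RcpDec (· ≤ ·)] := by
  tfae_have 1 ↔ 2 := space_le
  tfae_have 1 → 3 := rcp_of_le
  tfae_have 3 → 1 := fun h => order_of_volumes (gen_rcp (R' := (· ≤ ·))
    (fun C u v x y hC hx hy e => by
      rw [← ENNReal.toReal_le_toReal hx hy, ← sub_nonpos, e]
      constructor
      · intro h
        by_contra h7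
        have := mul_pos hC (sub_pos.2 (not_le.1 h7))
        linarith
      · intro h
        have := mul_nonneg hC.le (sub_nonneg.2 h)
        nlinarith) h)
  tfae_finish

/-- **Normal form.** -/
theorem recip_normal : ∃ R : Code → ℕ × List Poly × List Poly, Primrec R ∧
    ∀ c, Adm c → Good (R c) ∧
      rint (R c).1 (R c).2.1 - rint (R c).1 (R c).2.2 = Real.pi ^ 2 / 2 * val c :=
  normal_recip t_kb (t_kv t_quart) t_cod2 (t_itg2 (t_all t_one) t_mv)

/-- **Many-one reduction.** -/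
theorem recip_pair : ∃ R : Pres × Pres → ℕ × List Poly × List Poly, Primrec R ∧
    ∀ p q, PAdm p → PAdm q → Good (R (p, q)) ∧
      rint (R (p, q)).1 (R (p, q)).2.1 - rint (R (p, q)).1 (R (p, q)).2.2 =
        Real.pi ^ 2 / 2 * ‖pval p - pval q‖ ^ 2 :=
  pair_recip t_kb (t_kv t_quart) t_cod2 (t_itg2 (t_all t_one) t_mv) t_mulC

theorem sp_spec' (p : ℕ × Poly × Poly) (hF : Fine p.1 p.2.1) (hG : Fine p.1 p.2.2) :
    RatFn (sp p).1 (sp p).2.1 (sp p).2.2 ∧
      ∫ x : Fin (sp p).1 → ℝ, pev (ext x) (sp p).2.1 / pev (ext x) (sp p).2.2 =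
        Real.pi ^ 2 * ((volume (reg p.1 p.2.1)).toReal - (volume (reg p.1 p.2.2)).toReal) := by
  obtain ⟨n, F, G⟩ := p
  exact sp_spec t_rho t_itg' t_cod n F G hF hG

/-- **Many-one reduction to one rational function.** -/
theorem space_pair : ∃ R : Pres × Pres → ℕ × Poly × Poly, Primrec R ∧
    ∀ p q, PAdm p → PAdm q → RatFn (R (p, q)).1 (R (p, q)).2.1 (R (p, q)).2.2 ∧
      ∫ x : Fin (R (p, q)).1 → ℝ, pev (ext x) (R (p, q)).2.1 / pev (ext x) (R (p, q)).2.2 =
        Real.pi ^ 2 * ‖pval p - pval q‖ ^ 2 := by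
  refine ⟨fun c => sp (Pairs.pp c), (sp_p t_cod).comp (Pairs.pp_p t_mulC), fun p q hp hq => ?_⟩
  obtain ⟨hF, hG, hv⟩ := Pairs.pp_spec p q hp hq
  obtain ⟨a, b⟩ := sp_spec' _ hF hG
  refine ⟨a, ?_⟩
  rw [← hv]
  exact b

end Recip

end Pool.Agent.H652.PV
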