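import Pool.Agent.H652.PV.Wreal

set_option autoImplicit false

/-! (W3) polynomials in several variables, by induction (helper142). -/

namespace Pool.Agent.H652.PV

open MeasureTheory

namespace WAll

theorem nrt_zero {d : ℕ} (hd : 0 < d) : nrt d 0 = ⊤ := by
  unfold nrt
  have h : (0 : ℝ) < 1 / (2 * d) := by positivity
  rw [enorm_zero, ENNReal.zero_rpow_of_pos h, ENNReal.inv_zero]

theorem nrt_ne_top {d : ℕ} {t : ℝ} (ht : t ≠ 0) : nrt d t ≠ ⊤ := by
  unfold nrt
  rw [Ne, ENNReal.inv_eq_top]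
  exact (ENNReal.rpow_pos (enorm_pos.2 ht) enorm_ne_top).ne'

theorem nrt_meas (d : ℕ) : Measurable (nrt d) := by
  unfold nrt
  exact (measurable_enorm.pow_const _).inv

/-- the weight in one variable -/
noncomputable def w (y : ℝ) : ENNReal := ENNReal.ofReal (1 / (1 + y ^ 2))

theorem w_meas : Measurable w := by
  unfold w
  fun_prop

theorem fun_meas (d n : ℕ) (p : MvPolynomial (Fin n) ℝ) :
    Measurable fun x : Fin n → ℝ => nrt d (MvPolynomial.eval x p) * ∏ i, w (x i) := by
  refine Measurable.mul ((nrt_meas d).comp (MvPolynomial.continuous_eval p).measurable) ?_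
  exact Finset.measurable_prod _ fun i _ => w_meas.comp (measurable_pi_apply i)

theorem inner {d : ℕ} (hd : 0 < d) {C : ENNReal} (hC : ∀ p : Polynomial ℝ, p ≠ 0 → p.natDegree ≤ d →
    ∫⁻ y : ℝ, nrt d (p.eval y) * w y ≤ C * nrt d p.leadingCoeff) {n : ℕ}
    (P : Polynomial (MvPolynomial (Fin n) ℝ)) (hP : P.natDegree ≤ d) (s : Fin n → ℝ) :
    ∫⁻ y : ℝ, nrt d ((P.map (MvPolynomial.eval s)).eval y) * w y ≤
      (C + 1) * nrt d (MvPolynomial.eval s P.leadingCoeff) := by
  by_cases ha : MvPolynomial.eval s P.leadingCoeff = 0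
  · rw [ha, nrt_zero hd, ENNReal.mul_top]
    · exact le_top
    · simp
  · have h1 := Polynomial.leadingCoeff_map_of_leadingCoeff_ne_zero (MvPolynomial.eval s) ha
    have h2 : P.map (MvPolynomial.eval s) ≠ 0 := by
      intro h3
      rw [h3, Polynomial.leadingCoeff_zero] at h1
      exact ha h1.symm
    have h4 := hC _ h2 ((Polynomial.natDegree_map_le).trans hP)
    rw [h1] at h4
    exact h4.trans (mul_le_mul_left (le_self_add) _)

theorem main {d : ℕ} (hd : 0 < d) {C : ENNReal} (hCt : C ≠ ⊤)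
    (hC : ∀ p : Polynomial ℝ, p ≠ 0 → p.natDegree ≤ d →
      ∫⁻ y : ℝ, nrt d (p.eval y) * w y ≤ C * nrt d p.leadingCoeff) (n : ℕ) :
    ∀ p : MvPolynomial (Fin n) ℝ, p ≠ 0 → p.totalDegree ≤ d →
      ∫⁻ x : Fin n → ℝ, nrt d (MvPolynomial.eval x p) * ∏ i, w (x i) ≠ ⊤ := by
  induction n with
  | zero =>
    intro p hp _
    have h0 : p = MvPolynomial.C (MvPolynomial.coeff 0 p) := MvPolynomial.eq_C_of_isEmpty p
    have h1 : MvPolynomial.coeff 0 p ≠ 0 := by
      intro h
      rw [h, map_zero] at h0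
      exact hp h0
    rw [Measure.volume_pi_eq_dirac (0 : Fin 0 → ℝ), lintegral_dirac, h0, MvPolynomial.eval_C,
      Finset.univ_eq_empty, Finset.prod_empty, mul_one]
    exact nrt_ne_top h1
  | succ n ih =>
    intro p hp hpd
    have hP : MvPolynomial.finSuccEquiv ℝ n p ≠ 0 := by
      intro h
      exact hp ((MvPolynomial.finSuccEquiv ℝ n).injective (by rw [h, map_zero]))
    have ha : (MvPolynomial.finSuccEquiv ℝ n p).leadingCoeff ≠ 0 :=
      Polynomial.leadingCoeff_ne_zero.2 hP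
    have hdeg := MvPolynomial.totalDegree_coeff_finSuccEquiv_add_le p
      (MvPolynomial.finSuccEquiv ℝ n p).natDegree ha
    have hPd : (MvPolynomial.finSuccEquiv ℝ n p).natDegree ≤ d := by omega
    have had : (MvPolynomial.finSuccEquiv ℝ n p).leadingCoeff.totalDegree ≤ d := by
      unfold Polynomial.leadingCoeff
      omega
    have hih := ih _ ha had
    set P := MvPolynomial.finSuccEquiv ℝ n p with hPdef
    have hmp := (volume_preserving_piFinSuccAbove (fun _ : Fin (n + 1) => ℝ) 0).symm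
    have hm : Measurable fun z : ℝ × (Fin n → ℝ) =>
        nrt d (MvPolynomial.eval ((MeasurableEquiv.piFinSuccAbove (fun _ : Fin (n + 1) => ℝ) 0).symm z) p) *
          ∏ i, w ((MeasurableEquiv.piFinSuccAbove (fun _ : Fin (n + 1) => ℝ) 0).symm z i) :=
      (fun_meas d (n + 1) p).comp (MeasurableEquiv.measurable _)
    rw [MeasurePreserving.lintegral_map_equiv _ _ hmp, Measure.volume_eq_prod,
      lintegral_prod_symm' _ hm]
    have e1 : ∀ (s : Fin n → ℝ) (y : ℝ),
        nrt d (MvPolynomial.eval ((MeasurableEquiv.piFinSuccAbove (fun _ : Fin (n + 1) => ℝ) 0).symm (y, s)) p) *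
          ∏ i, w ((MeasurableEquiv.piFinSuccAbove (fun _ : Fin (n + 1) => ℝ) 0).symm (y, s) i) =
        (nrt d ((P.map (MvPolynomial.eval s)).eval y) * w y) * ∏ i, w (s i) := by
      intro s y
      have e2 : (MeasurableEquiv.piFinSuccAbove (fun _ : Fin (n + 1) => ℝ) 0).symm (y, s) =
          (Fin.cons y s : Fin (n + 1) → ℝ) := by
        exact Fin.insertNth_zero' y s
      rw [e2, MvPolynomial.eval_eq_eval_mv_eval', Fin.prod_univ_succ, Fin.cons_zero, mul_assoc]
      rfl
    have hfin : ∀ s : Fin n → ℝ, ∏ i, w (s i) ≠ ⊤ := fun s =>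
      ENNReal.prod_ne_top fun i _ => ENNReal.ofReal_ne_top
    have h5 : ∫⁻ s : Fin n → ℝ, ∫⁻ y : ℝ,
        nrt d (MvPolynomial.eval ((MeasurableEquiv.piFinSuccAbove (fun _ : Fin (n + 1) => ℝ) 0).symm (y, s)) p) *
          ∏ i, w ((MeasurableEquiv.piFinSuccAbove (fun _ : Fin (n + 1) => ℝ) 0).symm (y, s) i) ≤
        (C + 1) * ∫⁻ s : Fin n → ℝ, nrt d (MvPolynomial.eval s P.leadingCoeff) * ∏ i, w (s i) := by
      rw [← lintegral_const_mul' _ _ (ENNReal.add_ne_top.2 ⟨hCt, ENNReal.one_ne_top⟩)]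
      refine lintegral_mono fun s => ?_
      simp_rw [e1]
      rw [lintegral_mul_const' _ _ (hfin s), ← mul_assoc]
      exact mul_le_mul_left (inner hd hC P hPd s) _
    exact ne_top_of_le_ne_top
      (ENNReal.mul_ne_top (ENNReal.add_ne_top.2 ⟨hCt, ENNReal.one_ne_top⟩) hih) h5

end WAll

theorem t_all (h : S_one) : S_all := by
  intro d hd n p hp hpd
  obtain ⟨C, hCt, hC⟩ := h d hd
  exact WAll.main hd hCt hC n p hp hpd

end Pool.Agent.H652.PV
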