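import Pool.Agent.H652.PV.Wdefs
import Pool.Agent.H652.PV.UCmp
import Pool.Agent.H652.PV.QPrim

/-!
# Periods as integrals of rational functions: the rational functions (statement W6), by helper663
-/

set_option autoImplicit false
set_option synthInstance.maxSize 2000

namespace Pool.Agent.H652.PV

open Pool.Agent.TH960.PE MeasureTheory

namespace WCod

/-! ### Values -/

theorem pev_wP (X : ℕ → ℝ) (n : ℕ) :
    pev X (wP n) = ∏ i ∈ Finset.range n, (1 + X i ^ 2) := by
  induction n with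
  | zero => rw [wP, pev_natP]; simp
  | succ n ih =>
    rw [wP, pev_mulS, ih, pev_append, pev_natP, pev_sqP, pev_varP, Finset.prod_range_succ]
    push_cast
    ring

theorem pev_aP (X : ℕ → ℝ) (n : ℕ) (F : Poly) :
    pev X (aP n F) = pev X F * (∏ i ∈ Finset.range n, (1 + X i ^ 2)) ^ (2 * (dg F + 1)) := by
  rw [aP, pev_mulS, UCmp.pev_powP, pev_wP]

theorem pev_sP (X : ℕ → ℝ) (n : ℕ) : pev X (sP n) = X n ^ 2 + X (n + 1) ^ 2 := by
  rw [sP, pev_append, pev_sqP, pev_sqP, pev_varP, pev_varP]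

theorem pev_d1P (X : ℕ → ℝ) (n : ℕ) (F : Poly) :
    pev X (d1P n F) = (pev X (sP n) - pev X (aP n F)) ^ 2 + 1 := by
  rw [d1P, pev_append, pev_sqP, pev_subP, pev_natP]
  push_cast
  ring

theorem pev_d2P (X : ℕ → ℝ) (n : ℕ) (F : Poly) :
    pev X (d2P n F) = 1 + (pev X (aP n F) * (1 + pev X (sP n))) ^ 2 := by
  rw [d2P, pev_append, pev_sqP, pev_mulS, pev_append, pev_natP]
  push_cast
  ring

theorem pev_nuP (X : ℕ → ℝ) (n : ℕ) (F : Poly) :
    pev X (nuP n F) = pev X (d2P n F) + pev X (aP n F) * pev X (d1P n F) := by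
  rw [nuP, pev_append, pev_mulS]

theorem pev_deP (X : ℕ → ℝ) (n : ℕ) (F : Poly) :
    pev X (deP n F) = pev X (d1P n F) * pev X (d2P n F) := by
  rw [deP, pev_mulS]

theorem one_le_d1 (X : ℕ → ℝ) (n : ℕ) (F : Poly) : 1 ≤ pev X (d1P n F) := by
  rw [pev_d1P]
  nlinarith [sq_nonneg (pev X (sP n) - pev X (aP n F))]

theorem one_le_d2 (X : ℕ → ℝ) (n : ℕ) (F : Poly) : 1 ≤ pev X (d2P n F) := by
  rw [pev_d2P]
  nlinarith [sq_nonneg (pev X (aP n F) * (1 + pev X (sP n)))]

theorem one_le_de (X : ℕ → ℝ) (n : ℕ) (F : Poly) : 1 ≤ pev X (deP n F) := by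
  rw [pev_deP]
  have h1 := one_le_d1 X n F
  have h2 := one_le_d2 X n F
  nlinarith

theorem quot (X : ℕ → ℝ) (n : ℕ) (F : Poly) : pev X (nuP n F) / pev X (deP n F) =
    rho (pev X F * (∏ i ∈ Finset.range n, (1 + X i ^ 2)) ^ (2 * (dg F + 1)))
      (X n ^ 2 + X (n + 1) ^ 2) := by
  have h1 : pev X (d1P n F) ≠ 0 := by
    have := one_le_d1 X n F
    intro h
    rw [h] at this
    linarith
  have h2 : pev X (d2P n F) ≠ 0 := by
    have := one_le_d2 X n F
    intro h
    rw [h] at this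
    linarith
  have h3 : pev X (nuP n F) / pev X (deP n F) =
      1 / pev X (d1P n F) + pev X (aP n F) / pev X (d2P n F) := by
    rw [pev_nuP, pev_deP, div_add_div _ _ h1 h2]
    congr 1
    ring
  rw [h3, pev_d1P, pev_d2P, pev_sP, pev_aP, rho]

/-! ### The number of variables -/

theorem isPoly_wP (n : ℕ) : IsPoly n (wP n) := by
  induction n with
  | zero => exact isPoly_natP 0 1
  | succ n ih =>
    exact isPoly_mulS (SChain.isPoly_append (isPoly_natP _ 1) (isPoly_sqP (isPoly_varP (Nat.lt_succ_self n))))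
      (isPoly_mono (Nat.le_succ n) ih)

theorem isPoly_aP {n : ℕ} {F : Poly} (hF : IsPoly n F) : IsPoly (n + 2) (aP n F) :=
  isPoly_mono (Nat.le_add_right n 2) (isPoly_mulS hF (UCmp.isPoly_powP (isPoly_wP n) _))

theorem isPoly_sP (n : ℕ) : IsPoly (n + 2) (sP n) :=
  SChain.isPoly_append (isPoly_sqP (isPoly_varP (by omega))) (isPoly_sqP (isPoly_varP (by omega)))

theorem isPoly_d1P {n : ℕ} {F : Poly} (hF : IsPoly n F) : IsPoly (n + 2) (d1P n F) :=
  SChain.isPoly_append (isPoly_sqP (isPoly_subP (isPoly_sP n) (isPoly_aP hF))) (isPoly_natP _ 1)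

theorem isPoly_d2P {n : ℕ} {F : Poly} (hF : IsPoly n F) : IsPoly (n + 2) (d2P n F) :=
  SChain.isPoly_append (isPoly_natP _ 1) (isPoly_sqP (isPoly_mulS (isPoly_aP hF)
    (SChain.isPoly_append (isPoly_natP _ 1) (isPoly_sP n))))

theorem isPoly_nuP {n : ℕ} {F : Poly} (hF : IsPoly n F) : IsPoly (n + 2) (nuP n F) :=
  SChain.isPoly_append (isPoly_d2P hF) (isPoly_mulS (isPoly_aP hF) (isPoly_d1P hF))

theorem isPoly_deP {n : ℕ} {F : Poly} (hF : IsPoly n F) : IsPoly (n + 2) (deP n F) :=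
  isPoly_mulS (isPoly_d1P hF) (isPoly_d2P hF)

/-! ### Integer coefficients -/

theorem isInt_wP (n : ℕ) : IsInt (wP n) := by
  induction n with
  | zero => exact isInt_natP 1
  | succ n ih =>
    exact isInt_mulS (isInt_append (isInt_natP 1) (isInt_sqP (isInt_varP n))) ih

theorem isInt_powP {A : Poly} (hA : IsInt A) (k : ℕ) : IsInt (powP A k) := by
  induction k with
  | zero => exact isInt_natP 1
  | succ k ih => exact isInt_mulS hA ih

theorem isInt_aP (n : ℕ) {F : Poly} (hF : IsInt F) : IsInt (aP n F) :=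
  isInt_mulS hF (isInt_powP (isInt_wP n) _)

theorem isInt_sP (n : ℕ) : IsInt (sP n) :=
  isInt_append (isInt_sqP (isInt_varP _)) (isInt_sqP (isInt_varP _))

theorem isInt_d1P (n : ℕ) {F : Poly} (hF : IsInt F) : IsInt (d1P n F) :=
  isInt_append (isInt_sqP (isInt_subP (isInt_sP n) (isInt_aP n hF))) (isInt_natP 1)

theorem isInt_d2P (n : ℕ) {F : Poly} (hF : IsInt F) : IsInt (d2P n F) :=
  isInt_append (isInt_natP 1) (isInt_sqP (isInt_mulS (isInt_aP n hF)
    (isInt_append (isInt_natP 1) (isInt_sP n))))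

theorem isInt_nuP (n : ℕ) {F : Poly} (hF : IsInt F) : IsInt (nuP n F) :=
  isInt_append (isInt_d2P n hF) (isInt_mulS (isInt_aP n hF) (isInt_d1P n hF))

theorem isInt_deP (n : ℕ) {F : Poly} (hF : IsInt F) : IsInt (deP n F) :=
  isInt_mulS (isInt_d1P n hF) (isInt_d2P n hF)

/-! ### Computability -/

theorem wP_rec (n : ℕ) : wP n = Nat.rec (motive := fun _ => Poly) (natP 1)
    (fun i ih => mulS (natP 1 ++ sqP (varP i)) ih) n := by
  induction n with
  | zero => rfl
  | succ n ih => rw [wP, ih]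

section

variable {α : Type*} [Primcodable α]

theorem wP_p {f : α → ℕ} (hf : Primrec f) : Primrec fun a => wP (f a) := by
  have h1 : Primrec₂ fun (i : ℕ) (s : Poly) => mulS (natP 1 ++ sqP (varP i)) s := by
    have h2 : Primrec fun p : ℕ × Poly => mulS (natP 1 ++ sqP (varP p.1)) p.2 :=
      PrimT.mulS_p (SCode.app_p (Primrec.const (natP 1)) (PrimT.sqP_p (PrimT.varP_p Primrec.fst)))
        Primrec.snd
    exact h2.to₂
  have h3 : Primrec fun n : ℕ => Nat.rec (motive := fun _ => Poly) (natP 1)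
      (fun i ih => mulS (natP 1 ++ sqP (varP i)) ih) n := Primrec.nat_rec₁ (natP 1) h1
  have h4 : Primrec wP := h3.of_eq fun n => (wP_rec n).symm
  exact h4.comp hf

theorem aP_p {f : α → ℕ} {g : α → Poly} (hf : Primrec f) (hg : Primrec g) :
    Primrec fun a => aP (f a) (g a) := by
  have h1 : Primrec fun a => dg (g a) := QPrim.dg_p.comp hg
  have h2 : Primrec fun a => 2 * (dg (g a) + 1) :=
    Primrec.nat_mul.comp (Primrec.const 2) (Primrec.nat_add.comp h1 (Primrec.const 1))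
  exact PrimT.mulS_p hg (UCmp.powP_p (wP_p hf) h2)

theorem sP_p {f : α → ℕ} (hf : Primrec f) : Primrec fun a => sP (f a) :=
  SCode.app_p (PrimT.sqP_p (PrimT.varP_p hf)) (PrimT.sqP_p (PrimT.varP_p (SCode.add_p hf 1)))

theorem d1P_p {f : α → ℕ} {g : α → Poly} (hf : Primrec f) (hg : Primrec g) :
    Primrec fun a => d1P (f a) (g a) :=
  SCode.app_p (PrimT.sqP_p (PrimT.subP_p (sP_p hf) (aP_p hf hg))) (Primrec.const (natP 1))

theorem d2P_p {f : α → ℕ} {g : α → Poly} (hf : Primrec f) (hg : Primrec g) :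
    Primrec fun a => d2P (f a) (g a) :=
  SCode.app_p (Primrec.const (natP 1)) (PrimT.sqP_p (PrimT.mulS_p (aP_p hf hg)
    (SCode.app_p (Primrec.const (natP 1)) (sP_p hf))))

theorem nuP_p {f : α → ℕ} {g : α → Poly} (hf : Primrec f) (hg : Primrec g) :
    Primrec fun a => nuP (f a) (g a) :=
  SCode.app_p (d2P_p hf hg) (PrimT.mulS_p (aP_p hf hg) (d1P_p hf hg))

theorem deP_p {f : α → ℕ} {g : α → Poly} (hf : Primrec f) (hg : Primrec g) :
    Primrec fun a => deP (f a) (g a) :=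
  PrimT.mulS_p (d1P_p hf hg) (d2P_p hf hg)

end

theorem rfP_p : Primrec (fun p : ℕ × Poly × Poly => rfP p.1 p.2.1 p.2.2) := by
  have a1 : Primrec fun p : ℕ × Poly × Poly => p.1 := Primrec.fst
  have a2 : Primrec fun p : ℕ × Poly × Poly => p.2.1 := Primrec.fst.comp Primrec.snd
  have a3 : Primrec fun p : ℕ × Poly × Poly => p.2.2 := Primrec.snd.comp Primrec.snd
  exact Primrec.pair
    (PrimT.subP_p (PrimT.mulS_p (nuP_p a1 a2) (deP_p a1 a3))
      (PrimT.mulS_p (nuP_p a1 a3) (deP_p a1 a2)))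
    (PrimT.mulS_p (deP_p a1 a2) (deP_p a1 a3))

end WCod

/-- W6 -/
theorem t_cod : S_cod :=
  ⟨fun _ _ hF => ⟨WCod.isPoly_nuP hF, WCod.isPoly_deP hF⟩,
    fun n _ hF => ⟨WCod.isInt_nuP n hF, WCod.isInt_deP n hF⟩,
    fun n F X => WCod.one_le_de X n F, fun n F X => WCod.quot X n F, WCod.rfP_p⟩

end Pool.Agent.H652.PV
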