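import Pool.Agent.H652.PV.Wdefs

/-!
# Integrability of the minimum of one and the inverse of a polynomial
-/

set_option autoImplicit false
set_option synthInstance.maxSize 2000

namespace Pool.Agent.H652.PV

open Pool.Agent.TH960.PE MeasureTheory

namespace WItg

lemma min_le (a : ENNReal) (δ : ℝ) (h0 : 0 < δ) (h1 : δ ≤ 1) : min 1 a⁻¹ ≤ (a ^ δ)⁻¹ := by
  rcases le_total a 1 with h | h
  · refine (min_le_left _ _).trans ?_
    rw [ENNReal.one_le_inv]
    exact ENNReal.rpow_le_one h h0.le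
  · refine (min_le_right _ _).trans ?_
    rw [ENNReal.inv_le_inv]
    calc a ^ δ ≤ a ^ (1 : ℝ) := ENNReal.rpow_le_rpow_of_exponent_le h h1
      _ = a := ENNReal.rpow_one a

lemma main (d : ℕ) (hd : 0 < d) (t w : ℝ) (hw : 1 ≤ w) :
    min 1 ‖t * w ^ (2 * d)‖ₑ⁻¹ ≤ nrt d t * ENNReal.ofReal (1 / w) := by
  have hd' : (0 : ℝ) < 2 * d := by positivity
  have hδ : (0 : ℝ) < 1 / (2 * d) := by positivity
  have h1 : (1 / (2 * d) : ℝ) ≤ 1 := by
    rw [div_le_one hd']
    have : (1 : ℝ) ≤ d := by exact_mod_cast hd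
    linarith
  refine (min_le _ _ hδ h1).trans (le_of_eq ?_)
  have hw0 : 0 < w := by linarith
  have e1 : ‖w ^ (2 * d)‖ₑ ^ (1 / (2 * d) : ℝ) = ENNReal.ofReal w := by
    rw [enorm_pow, Real.enorm_of_nonneg hw0.le, ← ENNReal.rpow_natCast, ← ENNReal.rpow_mul]
    have : ((2 * d : ℕ) : ℝ) * (1 / (2 * d)) = 1 := by
      push_cast
      field_simp
    rw [this, ENNReal.rpow_one]
  rw [enorm_mul, ENNReal.mul_rpow_of_nonneg _ _ hδ.le, e1, nrt, ENNReal.mul_inv
    (Or.inr ENNReal.ofReal_ne_top) (Or.inr (ENNReal.ofReal_pos.2 hw0).ne'),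
    ← ENNReal.ofReal_inv_of_pos hw0, one_div w]

end WItg

theorem t_itg (h1 : S_all) (h2 : S_mv) : S_itg := by
  intro n F hF hx
  obtain ⟨p, hp, he⟩ := h2 n F hF
  have hp0 : p ≠ 0 := by
    rintro rfl
    obtain ⟨x, hx⟩ := hx
    apply hx
    rw [← he x, map_zero]
  have h3 := h1 (dg F + 1) (Nat.succ_pos _) n p hp0 (by omega)
  refine ne_top_of_le_ne_top h3 (lintegral_mono fun x => ?_)
  have hw : ∀ i : Fin n, 1 ≤ 1 + x i ^ 2 := fun i => by nlinarith [sq_nonneg (x i)]
  have e1 : ∏ i ∈ Finset.range n, (1 + ext x i ^ 2) = ∏ i : Fin n, (1 + x i ^ 2) := by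
    rw [Finset.prod_range]
    refine Finset.prod_congr rfl fun i _ => ?_
    have : ext x (i : ℕ) = x i := by
      unfold ext
      rw [dif_pos i.2]
    rw [this]
  have hprod : 1 ≤ ∏ i : Fin n, (1 + x i ^ 2) := by
    have h := Finset.prod_le_prod (s := Finset.univ) (f := fun _ : Fin n => (1 : ℝ))
      (g := fun i => 1 + x i ^ 2) (fun i _ => zero_le_one) (fun i _ => hw i)
    simpa using h
  have h4 := WItg.main (dg F + 1) (Nat.succ_pos _) (pev (ext x) F) _ hprod
  refine (le_of_eq ?_).trans (h4.trans (le_of_eq ?_))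
  · simp only [e1]
  · simp only [he]
    congr 1
    rw [one_div, ← Finset.prod_inv_distrib, ENNReal.ofReal_prod_of_nonneg]
    · exact Finset.prod_congr rfl fun i _ => by rw [one_div]
    · intro i _
      exact inv_nonneg.2 (by linarith [hw i])

end Pool.Agent.H652.PV
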