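import Pool.Agent.H652.PV.Wdefs

/-!
# Polynomials as elements of `MvPolynomial` (statement W4), by helper769
-/

set_option autoImplicit false

namespace Pool.Agent.H652.PV

open Pool.Agent.TH960.PE

namespace WMv

/-- the variable `x_i`, zero for `n ≤ i` -/
noncomputable def xv (n i : ℕ) : MvPolynomial (Fin n) ℝ :=
  if h : i < n then MvPolynomial.X ⟨i, h⟩ else 0

theorem deg_xv (n i : ℕ) : (xv n i).totalDegree ≤ 1 := by
  unfold xv
  split
  · exact (MvPolynomial.totalDegree_X _).le
  · rw [MvPolynomial.totalDegree_zero]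
    exact Nat.zero_le _

theorem eval_xv (n i : ℕ) (x : Fin n → ℝ) : MvPolynomial.eval x (xv n i) = ext x i := by
  unfold xv ext
  split
  · rw [MvPolynomial.eval_X]
  · rw [map_zero]

theorem deg_list (n : ℕ) (l : List ℕ) : ((l.map (xv n)).prod).totalDegree ≤ l.length := by
  induction l with
  | nil =>
    rw [List.map_nil, List.prod_nil, MvPolynomial.totalDegree_one]
    exact Nat.zero_le _
  | cons i l ih =>
    rw [List.map_cons, List.prod_cons, List.length_cons]
    refine (MvPolynomial.totalDegree_mul _ _).trans ?_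
    have := deg_xv n i
    omega

theorem eval_list (n : ℕ) (l : List ℕ) (x : Fin n → ℝ) :
    MvPolynomial.eval x ((l.map (xv n)).prod) = (l.map (ext x)).prod := by
  induction l with
  | nil => rw [List.map_nil, List.prod_nil, map_one, List.map_nil, List.prod_nil]
  | cons i l ih =>
    rw [List.map_cons, List.prod_cons, map_mul, ih, eval_xv, List.map_cons, List.prod_cons]

theorem exists_mv (n : ℕ) (F : Poly) : ∃ p : MvPolynomial (Fin n) ℝ, p.totalDegree ≤ dg F ∧
    ∀ x : Fin n → ℝ, MvPolynomial.eval x p = pev (ext x) F := by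
  induction F with
  | nil =>
    refine ⟨0, ?_, fun x => ?_⟩
    · rw [MvPolynomial.totalDegree_zero]
      exact Nat.zero_le _
    · rw [map_zero]
      rfl
  | cons m F ih =>
    obtain ⟨p, hp, hx⟩ := ih
    refine ⟨MvPolynomial.C (cv m.1) * ((idx m.2).map (xv n)).prod + p, ?_, fun x => ?_⟩
    · have e : dg (m :: F) = max (idx m.2).length (dg F) := rfl
      rw [e]
      refine (MvPolynomial.totalDegree_add _ _).trans (max_le_max ?_ hp)
      refine (MvPolynomial.totalDegree_mul _ _).trans ?_
      rw [MvPolynomial.totalDegree_C, zero_add]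
      exact deg_list n _
    · have e : pev (ext x) (m :: F) = cv m.1 * mev (ext x) m.2 + pev (ext x) F := rfl
      rw [map_add, map_mul, MvPolynomial.eval_C, eval_list, hx, e, SCode.mev_idx]

end WMv

/-- W4 -/
theorem t_mv : S_mv := fun n F _ => WMv.exists_mv n F

end Pool.Agent.H652.PV
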