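import Mathlib

/-!
# Periods as integrals of rational functions over the whole space: real analysis
-/

set_option autoImplicit false

namespace Pool.Agent.H652.PV

open MeasureTheory

/-- the kernel: its integral over the plane, `s = a ^ 2 + b ^ 2`, is `π ^ 2` if `A > 0` and zero if
`A < 0` -/
noncomputable def rho (A s : ℝ) : ℝ :=
  1 / ((s - A) ^ 2 + 1) + A / (1 + (A * (1 + s)) ^ 2)

/-- `|t| ^ (-1 / (2 d))` -/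
noncomputable def nrt (d : ℕ) (t : ℝ) : ENNReal := (‖t‖ₑ ^ (1 / (2 * d) : ℝ))⁻¹

/-- W1: the kernel -/
def S_rho : Prop :=
  (∀ A : ℝ, A ≠ 0 → ∫⁻ y : Fin 2 → ℝ, ‖rho A (y 0 ^ 2 + y 1 ^ 2)‖ₑ ≤
    20 * ((if 0 < A then 1 else 0) + min 1 ‖A‖ₑ⁻¹)) ∧
  (∀ A : ℝ, A ≠ 0 → ∫ y : Fin 2 → ℝ, rho A (y 0 ^ 2 + y 1 ^ 2) =
    if 0 < A then Real.pi ^ 2 else 0)

/-- W2: polynomials in one variable -/
def S_one : Prop :=
  ∀ d : ℕ, 0 < d → ∃ C : ENNReal, C ≠ ⊤ ∧ ∀ p : Polynomial ℝ, p ≠ 0 → p.natDegree ≤ d →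
    ∫⁻ y : ℝ, nrt d (p.eval y) * ENNReal.ofReal (1 / (1 + y ^ 2)) ≤ C * nrt d p.leadingCoeff

/-- W3: polynomials in several variables -/
def S_all : Prop :=
  ∀ d : ℕ, 0 < d → ∀ (n : ℕ) (p : MvPolynomial (Fin n) ℝ), p ≠ 0 → p.totalDegree ≤ d →
    ∫⁻ x : Fin n → ℝ, nrt d (MvPolynomial.eval x p) * ∏ i, ENNReal.ofReal (1 / (1 + x i ^ 2)) ≠ ⊤

end Pool.Agent.H652.PV
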