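import Mathlib
import Pool.Agent.H652.PV.Wreal

/-!
# Integrals of the negative powers of polynomials in one real variable
-/

set_option autoImplicit false

namespace Pool.Agent.H652.PV

open MeasureTheory

namespace WOne

/-- the weight -/
noncomputable def w (y : ℝ) : ENNReal := ENNReal.ofReal (1 / (1 + y ^ 2))

/-- one half of the singularity -/
noncomputable def G : ℝ → ENNReal :=
  Set.indicator (Set.Ioo (0 : ℝ) 1) fun t => ENNReal.ofReal (t ^ (-(1 / 2) : ℝ))

/-- the singularity -/
noncomputable def sg (b y : ℝ) : ENNReal := (‖y - b‖ₑ⁻¹) ^ (1 / 2 : ℝ)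

lemma w_meas : Measurable w := by
  unfold w
  fun_prop

lemma G_meas : Measurable G := by
  unfold G
  refine Measurable.indicator ?_ measurableSet_Ioo
  fun_prop

lemma sg_meas (b : ℝ) : Measurable (sg b) := by
  unfold sg
  fun_prop

lemma w_fin : ∫⁻ y, w y ≠ ⊤ := by
  have h := (integrable_inv_one_add_sq).lintegral_lt_top
  unfold w
  simp only [one_div]
  exact h.ne

lemma G_fin : ∫⁻ y, G y ≠ ⊤ := by
  unfold G
  rw [lintegral_indicator measurableSet_Ioo]
  have h1 : IntervalIntegrable (fun x : ℝ => x ^ (-(1 / 2) : ℝ)) volume 0 1 :=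
    intervalIntegral.intervalIntegrable_rpow' (by norm_num)
  rw [intervalIntegrable_iff_integrableOn_Ioo_of_le zero_le_one] at h1
  exact h1.lintegral_lt_top.ne

lemma w_le_one (y : ℝ) : w y ≤ 1 := by
  unfold w
  rw [ENNReal.ofReal_le_one]
  rw [div_le_one (by positivity)]
  nlinarith [sq_nonneg y]

lemma enorm_eq (t : ℝ) : ‖t‖ₑ = ENNReal.ofReal |t| := by
  rw [← ofReal_norm, Real.norm_eq_abs]

lemma sg_le {b y : ℝ} (h : y ≠ b) : sg b y * w y ≤ G (y - b) + G (b - y) + w y := by
  have ht : y - b ≠ 0 := sub_ne_zero.2 h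
  have h0 : 0 < |y - b| := abs_pos.2 ht
  by_cases h1 : |y - b| < 1
  · have h2 : sg b y * w y ≤ sg b y := by
      calc sg b y * w y ≤ sg b y * 1 := by gcongr; exact w_le_one y
        _ = sg b y := mul_one _
    have h3 : sg b y = ENNReal.ofReal (|y - b| ^ (-(1 / 2) : ℝ)) := by
      unfold sg
      rw [enorm_eq, ENNReal.inv_rpow, ENNReal.ofReal_rpow_of_pos h0, ← ENNReal.ofReal_inv_of_pos
        (Real.rpow_pos_of_pos h0 _), Real.rpow_neg h0.le]
    have h4 : sg b y ≤ G (y - b) + G (b - y) := by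
      rw [h3]
      rcases lt_or_gt_of_ne ht with h5 | h5
      · rw [abs_of_neg h5, neg_sub] at h1 ⊢
        have h6 : G (b - y) = ENNReal.ofReal ((b - y) ^ (-(1 / 2) : ℝ)) := by
          unfold G
          rw [Set.indicator_of_mem]
          exact ⟨by linarith, h1⟩
        rw [h6]
        exact le_add_self
      · rw [abs_of_pos h5] at h1 ⊢
        have h6 : G (y - b) = ENNReal.ofReal ((y - b) ^ (-(1 / 2) : ℝ)) := by
          unfold G
          rw [Set.indicator_of_mem]
          exact ⟨h5, h1⟩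
        rw [h6]
        exact le_self_add
    exact (h2.trans h4).trans le_self_add
  · push Not at h1
    have h2 : sg b y ≤ 1 := by
      unfold sg
      refine ENNReal.rpow_le_one ?_ (by norm_num)
      rw [ENNReal.inv_le_one, enorm_eq]
      rw [← ENNReal.ofReal_one]
      exact ENNReal.ofReal_le_ofReal h1
    calc sg b y * w y ≤ 1 * w y := by gcongr
      _ = w y := one_mul _
      _ ≤ _ := le_add_self

/-- the constant -/
noncomputable def K' : ENNReal := (∫⁻ y, G y) + (∫⁻ y, G y) + ∫⁻ y, w y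

lemma K_fin : K' ≠ ⊤ := by
  unfold K'
  exact ENNReal.add_ne_top.2 ⟨ENNReal.add_ne_top.2 ⟨G_fin, G_fin⟩, w_fin⟩

lemma sg_int (b : ℝ) : ∫⁻ y, sg b y * w y ≤ K' := by
  have h1 : ∫⁻ y, sg b y * w y ≤ ∫⁻ y, (G (y - b) + G (b - y) + w y) := by
    refine lintegral_mono_ae ?_
    have h2 : ∀ᵐ y : ℝ, y ≠ b := by
      simp [ae_iff, measure_singleton]
    filter_upwards [h2] with y hy
    exact sg_le hy
  refine h1.trans ?_
  have e1 : Measurable fun y : ℝ => G (y - b) := G_meas.comp (by fun_prop)
  have e2 : Measurable fun y : ℝ => G (b - y) := G_meas.comp (by fun_prop)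
  have e3 : Measurable fun y : ℝ => G (y - b) + G (b - y) := e1.add e2
  rw [lintegral_add_left e3, lintegral_add_left e1,
    lintegral_sub_right_eq_self G b, lintegral_sub_left_eq_self G b]
  exact le_rfl

/-- products and sums -/
lemma exists_max (s : Multiset ENNReal) : ∃ M : ENNReal, 1 ≤ M ∧ (∀ x ∈ s, x ≤ M) ∧
    M ^ (1 / 2 : ℝ) ≤ 1 + (s.map fun x => x ^ (1 / 2 : ℝ)).sum := by
  induction s using Multiset.induction_on with
  | empty => exact ⟨1, le_rfl, by simp, by simp⟩
  | cons a s ih =>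
    obtain ⟨M, h1, h2, h3⟩ := ih
    rcases le_total a M with h | h
    · refine ⟨M, h1, ?_, ?_⟩
      · intro x hx
        rcases Multiset.mem_cons.1 hx with rfl | hx
        · exact h
        · exact h2 x hx
      · rw [Multiset.map_cons, Multiset.sum_cons]
        refine h3.trans ?_
        gcongr
        exact le_add_self
    · refine ⟨a, h1.trans h, ?_, ?_⟩
      · intro x hx
        rcases Multiset.mem_cons.1 hx with rfl | hx
        · exact le_rfl
        · exact (h2 x hx).trans h
      · rw [Multiset.map_cons, Multiset.sum_cons]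
        exact le_self_add.trans le_add_self

lemma prod_le (e : ℝ) (he : 0 ≤ e) (M : ENNReal) (s : Multiset ENNReal) (h : ∀ x ∈ s, x ≤ M) :
    (s.map fun x => x ^ e).prod ≤ (M ^ e) ^ (Multiset.card s) := by
  induction s using Multiset.induction_on with
  | empty => simp
  | cons a s ih =>
    rw [Multiset.map_cons, Multiset.prod_cons, Multiset.card_cons, pow_succ']
    refine mul_le_mul' ?_ (ih fun x hx => h x (Multiset.mem_cons_of_mem hx))
    exact ENNReal.rpow_le_rpow (h a (Multiset.mem_cons_self a s)) he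

lemma prod_sum {d : ℕ} (hd : 0 < d) (s : Multiset ENNReal) (hs : Multiset.card s ≤ d) :
    (s.map fun x => x ^ (1 / (2 * d) : ℝ)).prod ≤ 1 + (s.map fun x => x ^ (1 / 2 : ℝ)).sum := by
  obtain ⟨M, h1, h2, h3⟩ := exists_max s
  have hd' : (0 : ℝ) < d := by exact_mod_cast hd
  refine (prod_le _ (by positivity) M s h2).trans (le_trans ?_ h3)
  have h4 : (M ^ (1 / (2 * d) : ℝ)) ^ (Multiset.card s) ≤ (M ^ (1 / (2 * d) : ℝ)) ^ d := by
    refine pow_le_pow_right₀ ?_ hs
    exact ENNReal.one_le_rpow h1 (by positivity)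
  refine h4.trans ?_
  rw [← ENNReal.rpow_natCast, ← ENNReal.rpow_mul]
  have h5 : (1 / (2 * d) : ℝ) * d = 1 / 2 := by field_simp
  rw [h5]

/-- the sum of the singularities -/
noncomputable def F (s : Multiset ℝ) (y : ℝ) : ENNReal := 1 + (s.map fun b => sg b y).sum

lemma F_int (s : Multiset ℝ) : ∫⁻ y, F s y * w y ≤ (Multiset.card s + 1) * K' := by
  induction s using Multiset.induction_on with
  | empty =>
    simp only [F, Multiset.map_zero, Multiset.sum_zero, add_zero, one_mul, Multiset.card_zero,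
      Nat.cast_zero, zero_add]
    unfold K'
    exact le_add_self
  | cons a s ih =>
    have h1 : ∀ y, F (a ::ₘ s) y * w y = sg a y * w y + F s y * w y := by
      intro y
      unfold F
      rw [Multiset.map_cons, Multiset.sum_cons]
      ring
    simp only [h1]
    have h2 : Measurable fun y : ℝ => sg a y * w y := (sg_meas a).mul w_meas
    rw [lintegral_add_left h2]
    refine (add_le_add (sg_int a) ih).trans ?_
    rw [Multiset.card_cons]
    push_cast
    have : (Multiset.card s + 1 + 1 : ENNReal) * K' = K' + (Multiset.card s + 1) * K' := by ring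
    rw [this]

lemma prod_ge (y : ℝ) (t : Multiset ℂ) :
    ((t.map Complex.re).map fun b => ‖y - b‖ₑ).prod ≤ ‖(t.map fun z => (y : ℂ) - z).prod‖ₑ := by
  induction t using Multiset.induction_on with
  | empty => simp
  | cons a t ih =>
    simp only [Multiset.map_cons, Multiset.prod_cons, enorm_mul]
    refine mul_le_mul' ?_ ih
    rw [← ofReal_norm, ← ofReal_norm]
    refine ENNReal.ofReal_le_ofReal ?_
    have h := Complex.abs_re_le_norm ((y : ℂ) - a)
    rwa [Complex.sub_re, Complex.ofReal_re] at h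

lemma prod_fin (y : ℝ) (s : Multiset ℝ) : (s.map fun b => ‖y - b‖ₑ).prod ≠ ⊤ := by
  induction s using Multiset.induction_on with
  | empty => simp
  | cons a s ih =>
    simp only [Multiset.map_cons, Multiset.prod_cons]
    exact ENNReal.mul_ne_top enorm_ne_top ih

lemma prod_inv (y e : ℝ) (he : 0 < e) (s : Multiset ℝ) :
    (((s.map fun b => ‖y - b‖ₑ).prod) ^ e)⁻¹ =
      ((s.map fun b => ‖y - b‖ₑ⁻¹).map fun x => x ^ e).prod := by
  induction s using Multiset.induction_on with
  | empty => simp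
  | cons a s ih =>
    simp only [Multiset.map_cons, Multiset.prod_cons]
    rw [ENNReal.mul_rpow_of_nonneg _ _ he.le, ENNReal.mul_inv, ih, ENNReal.inv_rpow]
    · right
      exact ENNReal.rpow_ne_top_of_nonneg he.le (prod_fin y s)
    · left
      exact ENNReal.rpow_ne_top_of_nonneg he.le enorm_ne_top

end WOne

open WOne

theorem t_one : S_one := by
  intro d hd
  refine ⟨(d + 1) * K', ?_, ?_⟩
  · refine ENNReal.mul_ne_top ?_ K_fin
    exact_mod_cast ENNReal.natCast_ne_top (d + 1)
  intro p hp hpd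
  have hd' : (0 : ℝ) < d := by exact_mod_cast hd
  set e : ℝ := 1 / (2 * d) with he
  have he0 : 0 < e := by positivity
  set s : Multiset ℝ := (p.aroots ℂ).map Complex.re with hs
  have hcard : Multiset.card s ≤ d := by
    rw [hs, Multiset.card_map]
    refine le_trans ?_ hpd
    have h := Polynomial.card_roots' (p.map (algebraMap ℝ ℂ))
    rwa [Polynomial.natDegree_map] at h
  have hlc : p.leadingCoeff ≠ 0 := Polynomial.leadingCoeff_ne_zero.2 hp
  have hfin : nrt d p.leadingCoeff ≠ ⊤ := by
    unfold nrt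
    rw [ENNReal.inv_ne_top]
    exact (ENNReal.rpow_pos (by simpa using hlc) enorm_ne_top).ne'
  have hpt : ∀ y : ℝ, nrt d (p.eval y) * w y ≤ nrt d p.leadingCoeff * (F s y * w y) := by
    intro y
    rw [← mul_assoc]
    refine mul_le_mul' ?_ le_rfl
    have h1 : ((p.eval y : ℝ) : ℂ) =
        ((p.leadingCoeff : ℝ) : ℂ) * ((p.aroots ℂ).map fun z => (y : ℂ) - z).prod := by
      have h := Polynomial.Splits.aeval_eq_prod_aroots (f := p) (S := ℂ)
        (IsAlgClosed.splits _) (y : ℂ)
      rw [← Complex.coe_algebraMap, ← Polynomial.aeval_algebraMap_apply_eq_algebraMap_eval]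
      exact h
    have h2 : ‖p.eval y‖ₑ = ‖p.leadingCoeff‖ₑ * ‖((p.aroots ℂ).map fun z => (y : ℂ) - z).prod‖ₑ := by
      have h := congrArg (fun z : ℂ => ‖z‖ₑ) h1
      simp only [enorm_mul] at h
      have h3 : ∀ r : ℝ, ‖(r : ℂ)‖ₑ = ‖r‖ₑ := by
        intro r
        rw [← ofReal_norm, ← ofReal_norm, Complex.norm_real]
      rw [h3, h3] at h
      exact h
    have h3 : ‖p.leadingCoeff‖ₑ * (s.map fun b => ‖y - b‖ₑ).prod ≤ ‖p.eval y‖ₑ := by
      rw [h2]
      exact mul_le_mul' le_rfl (prod_ge y _)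
    have h4 : nrt d (p.eval y) ≤
        nrt d p.leadingCoeff * (((s.map fun b => ‖y - b‖ₑ).prod) ^ e)⁻¹ := by
      unfold nrt
      rw [← he, ← ENNReal.mul_inv, ← ENNReal.mul_rpow_of_nonneg _ _ he0.le]
      · exact ENNReal.inv_le_inv.2 (ENNReal.rpow_le_rpow h3 he0.le)
      · right
        exact ENNReal.rpow_ne_top_of_nonneg he0.le (prod_fin y s)
      · left
        exact ENNReal.rpow_ne_top_of_nonneg he0.le enorm_ne_top
    refine h4.trans (mul_le_mul' le_rfl ?_)
    rw [prod_inv y e he0]
    have h5 := prod_sum hd (s.map fun b => ‖y - b‖ₑ⁻¹) (by rwa [Multiset.card_map])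
    refine h5.trans ?_
    unfold F sg
    rw [Multiset.map_map]
    exact le_rfl
  calc ∫⁻ y : ℝ, nrt d (p.eval y) * ENNReal.ofReal (1 / (1 + y ^ 2))
      ≤ ∫⁻ y : ℝ, nrt d p.leadingCoeff * (F s y * w y) := lintegral_mono hpt
    _ = nrt d p.leadingCoeff * ∫⁻ y : ℝ, F s y * w y := lintegral_const_mul' _ _ hfin
    _ ≤ nrt d p.leadingCoeff * ((Multiset.card s + 1) * K') := by
        gcongr
        exact F_int s
    _ ≤ nrt d p.leadingCoeff * ((d + 1) * K') := by
        gcongr
    _ = _ := mul_comm _ _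

end Pool.Agent.H652.PV
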