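import Pool.Agent.H652.PV.Whole
import Pool.Agent.H652.PV.WRho
import Pool.Agent.H652.PV.WOne
import Pool.Agent.H652.PV.WAll
import Pool.Agent.H652.PV.WMv
import Pool.Agent.H652.PV.WItg
import Pool.Agent.H652.PV.WCod

/-!
# Periods as integrals of rational functions over the whole space: conclusion
-/

set_option autoImplicit false
set_option synthInstance.maxSize 2000

namespace Pool.Agent.H652.PV

open Pool.Agent.TH960.PE MeasureTheory

namespace Whole

theorem t_itg' : S_itg := t_itg (t_all t_one) t_mv

theorem space_normal : ∃ R : Code → ℕ × Poly × Poly, Primrec R ∧ ∀ c, Adm c →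
    RatFn (R c).1 (R c).2.1 (R c).2.2 ∧
      ∫ x : Fin (R c).1 → ℝ, pev (ext x) (R c).2.1 / pev (ext x) (R c).2.2 =
        Real.pi ^ 2 * val c :=
  normal_space t_rho t_itg' t_cod

theorem space_eq : AlgDecidable (fun a b => a = b) ↔ SpaceDec (· = ·) := eq_iff t_rho t_itg' t_cod

theorem space_le : AlgDecidable (fun a b => a.re ≤ b.re) ↔ SpaceDec (· ≤ ·) :=
  le_iff t_rho t_itg' t_cod

end Whole

end Pool.Agent.H652.PV
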