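import Pool.Agent.H652.PV.Pairs
import Pool.Agent.H652.PV.WFin

/-!
# Periods as sums of integrals of reciprocals of polynomials over the whole space
-/

set_option autoImplicit false
set_option synthInstance.maxSize 2000

namespace Pool.Agent.H652.PV

open Pool.Agent.TH960.PE MeasureTheory

/-- `p` is an integer polynomial in `n` variables, `p ≥ 1` everywhere, and `1 / p` is integrable over
`ℝ ^ n`. -/
def Rcp (n : ℕ) (p : Poly) : Prop :=
  IsPoly n p ∧ IsInt p ∧ (∀ X : ℕ → ℝ, 1 ≤ pev X p) ∧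
    Integrable fun x : Fin n → ℝ => 1 / pev (ext x) p

/-- the sum of the integrals of `1 / p` over `ℝ ^ n`, for `p` in the list `P` -/
noncomputable def rint (n : ℕ) (P : List Poly) : ℝ :=
  (P.map fun p => ∫ x : Fin n → ℝ, 1 / pev (ext x) p).sum

/-- There is an algorithm which decides, for two triples `P`, `Q` of integer polynomials `p ≥ 1` in `n`
variables with integrable `1 / p`, whether the relation `R` holds for the sum of the integrals of the
`1 / p`, `p ∈ P`, and the sum of the integrals of the `1 / q`, `q ∈ Q`. -/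
def RcpDec (R : ℝ → ℝ → Prop) : Prop :=
  ∃ f : (ℕ × List Poly × List Poly) →. Bool, Partrec f ∧ ∀ (n : ℕ) (P Q : List Poly),
    P.length = 3 → Q.length = 3 → (∀ p ∈ P, Rcp n p) → (∀ q ∈ Q, Rcp n q) →
    ∃ b ∈ f (n, P, Q), (b = true ↔ R (rint n P) (rint n Q))

namespace Recip

open Whole

/-- integration over the plane -/
lemma gen (h4 : S_itg2) (n : ℕ) (F : Poly) (hF : Fine n F)
    (h : ∃ x : Fin n → ℝ, pev (ext x) F ≠ 0) (k : ℝ → ℝ → ℝ)
    (hk : Measurable fun p : ℝ × ℝ => k p.1 p.2) (C : ENNReal) (hC : C ≠ ⊤)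
    (hb : ∀ A : ℝ, A ≠ 0 → ∫⁻ y : Fin 2 → ℝ, ‖k A (y 0 ^ 2 + y 1 ^ 2)‖ₑ ≤
      C * ((if 0 < A then 1 else 0) + nrt (dg F + 1) A)) :
    Integrable (fun z : Fin (n + 2) → ℝ =>
      k (arg n F (ext z)) (ext z n ^ 2 + ext z (n + 1) ^ 2)) ∧
    Integrable (fun x : Fin n → ℝ => ∫ y : Fin 2 → ℝ, k (arg n F (ext x)) (y 0 ^ 2 + y 1 ^ 2)) ∧
    ∫ z : Fin (n + 2) → ℝ, k (arg n F (ext z)) (ext z n ^ 2 + ext z (n + 1) ^ 2) =
      ∫ x : Fin n → ℝ, ∫ y : Fin 2 → ℝ, k (arg n F (ext x)) (y 0 ^ 2 + y 1 ^ 2) := by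
  classical
  let g : (ℕ → ℝ) → ℝ := fun X => k (arg n F X) (X n ^ 2 + X (n + 1) ^ 2)
  have s : Measurable fun X : ℕ → ℝ => X n ^ 2 + X (n + 1) ^ 2 :=
    ((measurable_pi_apply n).pow_const 2).add ((measurable_pi_apply (n + 1)).pow_const 2)
  have hm : Measurable g := hk.comp ((measurable_arg n F).prodMk s)
  have hg : ∀ (X : ℕ → ℝ) (y : Fin 2 → ℝ), g (glue n X (ext y)) =
      k (arg n F X) (y 0 ^ 2 + y 1 ^ 2) := by
    intro X y
    change k (arg n F (glue n X (ext y))) _ = _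
    rw [arg_congr n F hF.1 (glue n X (ext y)) X fun i hi => by rw [glue, if_pos hi]]
    have e0 : glue n X (ext y) n = y 0 := by
      rw [glue, if_neg (lt_irrefl n), Nat.sub_self]
      rfl
    have e1 : glue n X (ext y) (n + 1) = y 1 := by
      rw [glue, if_neg (by omega), show n + 1 - n = 1 by omega]
      rfl
    rw [e0, e1]
  have hae := ae_ne n F hF.1 h
  have hI : Integrable (fun z : Fin (n + 2) → ℝ => g (ext z)) := by
    refine ⟨(hm.comp (measurable_ext (n + 2))).aestronglyMeasurable, ?_⟩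
    rw [hasFiniteIntegral_iff_enorm, lint_split n 2 (fun X => ‖g X‖ₑ) hm.enorm]
    have h3 : ∫⁻ x : Fin n → ℝ, ∫⁻ y : Fin 2 → ℝ, ‖g (glue n (ext x) (ext y))‖ₑ ≤
        ∫⁻ x : Fin n → ℝ, C * ((reg n F).indicator 1 x + nrt (dg F + 1) (arg n F (ext x))) := by
      refine lintegral_mono_ae ?_
      filter_upwards [hae] with x hx
      simp only [hg]
      refine (hb _ (arg_ne n F _ hx)).trans (mul_le_mul_right (add_le_add ?_ le_rfl) _)
      by_cases h4 : 0 < pev (ext x) F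
      · rw [if_pos ((arg_pos n F _).2 h4), Set.indicator_of_mem (by exact h4)]
        exact le_rfl
      · rw [if_neg fun h5 => h4 ((arg_pos n F _).1 h5)]
        simp
    refine h3.trans_lt ?_
    have hr : MeasurableSet (reg n F) := measurableSet_reg n F
    have m0 : Measurable fun x : Fin n → ℝ => (reg n F).indicator (1 : (Fin n → ℝ) → ENNReal) x :=
      measurable_one.indicator hr
    rw [lintegral_const_mul' _ _ hC, lintegral_add_left m0, lintegral_indicator_one hr]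
    exact ENNReal.mul_lt_top hC.lt_top (ENNReal.add_lt_top.2 ⟨hF.2.2.lt_top,
      (h4 n F hF.1 h).lt_top⟩)
  have e1 := (eqv_mp n 2).integral_comp (eqv n 2).measurableEmbedding
    (fun z : Fin (n + 2) → ℝ => g (ext z))
  have i1 := (eqv_mp n 2).integrable_comp_emb (eqv n 2).measurableEmbedding
    (g := fun z : Fin (n + 2) → ℝ => g (ext z))
  have i2 := i1.2 hI
  have i3 : Integrable (fun p : (Fin n → ℝ) × (Fin 2 → ℝ) => g (ext (eqv n 2 p)))
      (volume.prod volume) := i2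
  have e2 : ∫ p : (Fin n → ℝ) × (Fin 2 → ℝ), g (ext (eqv n 2 p)) =
      ∫ x : Fin n → ℝ, ∫ y : Fin 2 → ℝ, g (ext (eqv n 2 (x, y))) :=
    integral_prod _ i3
  have i4 : Integrable (fun x : Fin n → ℝ => ∫ y : Fin 2 → ℝ, g (ext (eqv n 2 (x, y)))) :=
    i3.integral_prod_left
  simp only [ext_eqv, hg] at e2 i4
  refine ⟨hI, i4, ?_⟩
  change ∫ z : Fin (n + 2) → ℝ, g (ext z) = _
  rw [← e1, ← e2]
  simp only [ext_eqv, hg]

lemma measurable_K1 : Measurable fun p : ℝ × ℝ => K1 p.1 p.2 := by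
  unfold K1
  fun_prop

lemma measurable_K2 : Measurable fun p : ℝ × ℝ => K2 p.1 p.2 := by
  unfold K2
  fun_prop

lemma measurable_K3 : Measurable fun p : ℝ × ℝ => K2 (-p.1) p.2 := by
  unfold K2
  fun_prop

lemma nrt_neg (d : ℕ) (t : ℝ) : nrt d (-t) = nrt d t := by
  unfold nrt
  rw [enorm_neg]

/-- the three polynomials for a region -/
def e1 (n : ℕ) (F : Poly) : Poly := e1P n (aP n F)
def e2 (n : ℕ) (F : Poly) : Poly := e2P n (aP n F)
def e3 (n : ℕ) (F : Poly) : Poly := e2P n (negP (aP n F))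

theorem three (h1 : S_kb) (h2 : S_kv) (h3 : S_cod2) (h4 : S_itg2) (n : ℕ) (F : Poly)
    (hF : Fine n F) (h : ∃ x : Fin n → ℝ, pev (ext x) F ≠ 0) :
    Rcp (n + 2) (e1 n F) ∧ Rcp (n + 2) (e2 n F) ∧ Rcp (n + 2) (e3 n F) ∧
    (∫ x : Fin (n + 2) → ℝ, 1 / pev (ext x) (e1 n F)) +
      (∫ x : Fin (n + 2) → ℝ, 1 / pev (ext x) (e2 n F)) -
      (∫ x : Fin (n + 2) → ℝ, 1 / pev (ext x) (e3 n F)) =
        Real.pi ^ 2 / 2 * (volume (reg n F)).toReal := by
  classical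
  obtain ⟨c1, c2, c3, c4, -⟩ := h3
  have pA : IsPoly (n + 2) (aP n F) := WCod.isPoly_aP hF.1
  have pN : IsPoly (n + 2) (negP (aP n F)) := isPoly_negP pA
  have iA : IsInt (aP n F) := WCod.isInt_aP n hF.2.1
  have iN : IsInt (negP (aP n F)) := isInt_negP iA
  have v : ∀ X : ℕ → ℝ, pev X (aP n F) = arg n F X := fun X => WCod.pev_aP X n F
  have v1 : ∀ X : ℕ → ℝ, 1 / pev X (e1 n F) = K1 (arg n F X) (X n ^ 2 + X (n + 1) ^ 2) :=
    fun X => by rw [← v X]; exact (c4 n (aP n F) X).1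
  have v2 : ∀ X : ℕ → ℝ, 1 / pev X (e2 n F) = K2 (arg n F X) (X n ^ 2 + X (n + 1) ^ 2) :=
    fun X => by rw [← v X]; exact (c4 n (aP n F) X).2
  have v3 : ∀ X : ℕ → ℝ, 1 / pev X (e3 n F) = K2 (-arg n F X) (X n ^ 2 + X (n + 1) ^ 2) :=
    fun X => by
      rw [← v X, ← pev_negP]
      exact (c4 n (negP (aP n F)) X).2
  obtain ⟨C, hC, hb⟩ := h1 (dg F + 1) (Nat.succ_pos _)
  obtain ⟨a1, a2, a3⟩ := gen h4 n F hF h K1 measurable_K1 C hC fun A hA => (hb A hA).1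
  obtain ⟨b1, b2, b3⟩ := gen h4 n F hF h K2 measurable_K2 C hC fun A hA =>
    (hb A hA).2.trans (mul_le_mul_right le_add_self _)
  obtain ⟨d1, d2, d3⟩ := gen h4 n F hF h (fun A s => K2 (-A) s) measurable_K3 C hC fun A hA =>
    (hb (-A) (neg_ne_zero.2 hA)).2.trans (by
      rw [nrt_neg]
      exact mul_le_mul_right le_add_self _)
  refine ⟨⟨(c1 n _ pA).1, (c2 n _ iA).1, fun X => (c3 n _ X).1, ?_⟩,
    ⟨(c1 n _ pA).2, (c2 n _ iA).2, fun X => (c3 n _ X).2, ?_⟩,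
    ⟨(c1 n _ pN).2, (c2 n _ iN).2, fun X => (c3 n _ X).2, ?_⟩, ?_⟩
  · simp only [v1]
    exact a1
  · simp only [v2]
    exact b1
  · simp only [v3]
    exact d1
  simp only [v1, v2, v3]
  have i12 : Integrable fun x : Fin n → ℝ =>
      (∫ y : Fin 2 → ℝ, K1 (arg n F (ext x)) (y 0 ^ 2 + y 1 ^ 2)) +
      (∫ y : Fin 2 → ℝ, K2 (arg n F (ext x)) (y 0 ^ 2 + y 1 ^ 2)) := a2.add b2
  rw [a3, b3, d3, ← integral_add a2 b2, ← integral_sub i12 d2]
  have e4 : ∫ x : Fin n → ℝ, ((∫ y : Fin 2 → ℝ, K1 (arg n F (ext x)) (y 0 ^ 2 + y 1 ^ 2)) +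
      (∫ y : Fin 2 → ℝ, K2 (arg n F (ext x)) (y 0 ^ 2 + y 1 ^ 2)) -
      (∫ y : Fin 2 → ℝ, K2 (-arg n F (ext x)) (y 0 ^ 2 + y 1 ^ 2))) =
        ∫ x : Fin n → ℝ, (reg n F).indicator (fun _ => Real.pi ^ 2 / 2) x := by
    refine integral_congr_ae ?_
    filter_upwards [ae_ne n F hF.1 h] with x hx
    rw [h2 _ (arg_ne n F _ hx)]
    by_cases h4 : 0 < pev (ext x) F
    · rw [if_pos ((arg_pos n F _).2 h4), Set.indicator_of_mem (by exact h4)]
    · rw [if_neg fun h5 => h4 ((arg_pos n F _).1 h5), Set.indicator_of_notMem (by exact h4)]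
  refine Eq.trans e4 ?_
  rw [integral_indicator (measurableSet_reg n F), setIntegral_const, smul_eq_mul, mul_comm]
  rfl

/-- the polynomials for two regions -/
def rc (p : ℕ × Poly × Poly) : ℕ × List Poly × List Poly :=
  (p.1 + 2, [e1 p.1 (nzP p.1 p.2.1), e2 p.1 (nzP p.1 p.2.1), e3 p.1 (nzP p.1 p.2.2)],
    [e1 p.1 (nzP p.1 p.2.2), e2 p.1 (nzP p.1 p.2.2), e3 p.1 (nzP p.1 p.2.1)])

section

attribute [local irreducible] nzP e1 e2 e3 e1P e2P aP

lemma e1_p (h3 : S_cod2) : Primrec fun p : ℕ × Poly => e1 p.1 p.2 := by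
  obtain ⟨-, -, -, -, h, -⟩ := h3
  have a : Primrec fun p : ℕ × Poly => aP p.1 p.2 := WCod.aP_p Primrec.fst Primrec.snd
  refine (h.comp (Primrec.fst.pair a)).of_eq fun p => ?_
  unfold e1
  rfl

lemma e2_p (h3 : S_cod2) : Primrec fun p : ℕ × Poly => e2 p.1 p.2 := by
  obtain ⟨-, -, -, -, -, h⟩ := h3
  have a : Primrec fun p : ℕ × Poly => aP p.1 p.2 := WCod.aP_p Primrec.fst Primrec.snd
  refine (h.comp (Primrec.fst.pair a)).of_eq fun p => ?_
  unfold e2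
  rfl

lemma e3_p (h3 : S_cod2) : Primrec fun p : ℕ × Poly => e3 p.1 p.2 := by
  obtain ⟨-, -, -, -, -, h⟩ := h3
  have a : Primrec fun p : ℕ × Poly => negP (aP p.1 p.2) :=
    PrimT.negP_p (WCod.aP_p Primrec.fst Primrec.snd)
  refine (h.comp (Primrec.fst.pair a)).of_eq fun p => ?_
  unfold e3
  rfl

lemma rc_p (h3 : S_cod2) : Primrec rc := by
  have n : Primrec fun p : ℕ × Poly × Poly => p.1 := Primrec.fst
  have F : Primrec fun p : ℕ × Poly × Poly => (p.1, nzP p.1 p.2.1) :=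
    n.pair (nzP_p.comp (n.pair (Primrec.fst.comp Primrec.snd)))
  have G : Primrec fun p : ℕ × Poly × Poly => (p.1, nzP p.1 p.2.2) :=
    n.pair (nzP_p.comp (n.pair (Primrec.snd.comp Primrec.snd)))
  have l : ∀ f g h : ℕ × Poly × Poly → Poly, Primrec f → Primrec g → Primrec h →
      Primrec fun p => [f p, g p, h p] := fun f g h hf hg hh =>
    Primrec.list_cons.comp hf (Primrec.list_cons.comp hg (Primrec.list_cons.comp hh
      (Primrec.const [])))
  have n2 : Primrec fun p : ℕ × Poly × Poly => p.1 + 2 :=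
    Primrec.nat_add.comp n (Primrec.const 2)
  have f1 : Primrec fun p : ℕ × Poly × Poly => e1 p.1 (nzP p.1 p.2.1) := (e1_p h3).comp F
  have f2 : Primrec fun p : ℕ × Poly × Poly => e2 p.1 (nzP p.1 p.2.1) := (e2_p h3).comp F
  have f3 : Primrec fun p : ℕ × Poly × Poly => e3 p.1 (nzP p.1 p.2.1) := (e3_p h3).comp F
  have g1 : Primrec fun p : ℕ × Poly × Poly => e1 p.1 (nzP p.1 p.2.2) := (e1_p h3).comp G
  have g2 : Primrec fun p : ℕ × Poly × Poly => e2 p.1 (nzP p.1 p.2.2) := (e2_p h3).comp G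
  have g3 : Primrec fun p : ℕ × Poly × Poly => e3 p.1 (nzP p.1 p.2.2) := (e3_p h3).comp G
  exact (n2.pair ((l _ _ _ f1 f2 g3).pair (l _ _ _ g1 g2 f3))).of_eq fun p => rfl

end

/-- all conditions on the output -/
def Good (a : ℕ × List Poly × List Poly) : Prop :=
  a.2.1.length = 3 ∧ a.2.2.length = 3 ∧ (∀ p ∈ a.2.1, Rcp a.1 p) ∧ ∀ q ∈ a.2.2, Rcp a.1 q

theorem rc_spec (h1 : S_kb) (h2 : S_kv) (h3 : S_cod2) (h4 : S_itg2) (n : ℕ) (F G : Poly)
    (hF : Fine n F) (hG : Fine n G) : Good (rc (n, F, G)) ∧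
      rint (rc (n, F, G)).1 (rc (n, F, G)).2.1 - rint (rc (n, F, G)).1 (rc (n, F, G)).2.2 =
        Real.pi ^ 2 / 2 * ((volume (reg n F)).toReal - (volume (reg n G)).toReal) := by
  obtain ⟨a1, a2, a3⟩ := nzP_spec n F hF
  obtain ⟨b1, b2, b3⟩ := nzP_spec n G hG
  obtain ⟨p1, p2, p3, p4⟩ := three h1 h2 h3 h4 n _ a1 a2
  obtain ⟨q1, q2, q3, q4⟩ := three h1 h2 h3 h4 n _ b1 b2
  rw [a3] at p4
  rw [b3] at q4
  refine ⟨⟨rfl, rfl, ?_, ?_⟩, ?_⟩
  · intro p hp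
    change p ∈ [e1 n (nzP n F), e2 n (nzP n F), e3 n (nzP n G)] at hp
    simp only [List.mem_cons, List.not_mem_nil, or_false] at hp
    rcases hp with rfl | rfl | rfl
    · exact p1
    · exact p2
    · exact q3
  · intro p hp
    change p ∈ [e1 n (nzP n G), e2 n (nzP n G), e3 n (nzP n F)] at hp
    simp only [List.mem_cons, List.not_mem_nil, or_false] at hp
    rcases hp with rfl | rfl | rfl
    · exact q1
    · exact q2
    · exact p3
  · change rint (n + 2) [e1 n (nzP n F), e2 n (nzP n F), e3 n (nzP n G)] -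
      rint (n + 2) [e1 n (nzP n G), e2 n (nzP n G), e3 n (nzP n F)] = _
    unfold rint
    simp only [List.map_cons, List.map_nil, List.sum_cons, List.sum_nil]
    linarith

theorem rc_spec' (h1 : S_kb) (h2 : S_kv) (h3 : S_cod2) (h4 : S_itg2) (p : ℕ × Poly × Poly)
    (hF : Fine p.1 p.2.1) (hG : Fine p.1 p.2.2) : Good (rc p) ∧
      rint (rc p).1 (rc p).2.1 - rint (rc p).1 (rc p).2.2 =
        Real.pi ^ 2 / 2 * ((volume (reg p.1 p.2.1)).toReal - (volume (reg p.1 p.2.2)).toReal) := by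
  obtain ⟨n, F, G⟩ := p
  exact rc_spec h1 h2 h3 h4 n F G hF hG

/-- **Normal form.** -/
theorem normal_recip (h1 : S_kb) (h2 : S_kv) (h3 : S_cod2) (h4 : S_itg2) :
    ∃ R : Code → ℕ × List Poly × List Poly, Primrec R ∧ ∀ c, Adm c → Good (R c) ∧
      rint (R c).1 (R c).2.1 - rint (R c).1 (R c).2.2 = Real.pi ^ 2 / 2 * val c := by
  obtain ⟨R, hR, h⟩ := normal_volumes
  refine ⟨fun c => rc (R c), (rc_p h3).comp hR, fun c hc => ?_⟩
  obtain ⟨hF, hG, hv⟩ := h c hc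
  obtain ⟨a, b⟩ := rc_spec' h1 h2 h3 h4 (R c) hF hG
  refine ⟨a, ?_⟩
  rw [hv]
  exact b

/-- **Many-one reduction.** -/
theorem pair_recip (h1 : S_kb) (h2 : S_kv) (h3 : S_cod2) (h4 : S_itg2) (hM : S_mulC) :
    ∃ R : Pres × Pres → ℕ × List Poly × List Poly, Primrec R ∧ ∀ p q, PAdm p → PAdm q →
      Good (R (p, q)) ∧ rint (R (p, q)).1 (R (p, q)).2.1 - rint (R (p, q)).1 (R (p, q)).2.2 =
        Real.pi ^ 2 / 2 * ‖pval p - pval q‖ ^ 2 := by
  refine ⟨fun c => rc (Pairs.pp c), (rc_p h3).comp (Pairs.pp_p hM), fun p q hp hq => ?_⟩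
  obtain ⟨hF, hG, hv⟩ := Pairs.pp_spec p q hp hq
  obtain ⟨a, b⟩ := rc_spec' h1 h2 h3 h4 _ hF hG
  refine ⟨a, ?_⟩
  rw [← hv]
  exact b

/-! ### Converse -/

end Recip

end Pool.Agent.H652.PV
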