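import Pool.Agent.H652.PV.Comb
import Pool.Agent.H652.PV.ZeroT

/-!
# The regions of an explicit integral
-/

set_option autoImplicit false
set_option synthInstance.maxSize 2000

namespace Pool.Agent.H652.PV

open Pool.Agent.TH960.PE MeasureTheory

/-! ### Integer coefficients -/

/-- a common denominator -/
def den (g : Poly) : ℕ := g.foldr (fun m s => (m.1.2.2 + 1) * s) 1

/-- multiplication with a natural number which is a multiple of the denominators -/
def clrD (D : ℕ) (g : Poly) : Poly :=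
  g.map fun m => ((m.1.1 * (D / (m.1.2.2 + 1)), m.1.2.1 * (D / (m.1.2.2 + 1)), 0), m.2)

/-- clearing the denominators -/
def clr (g : Poly) : Poly := clrD (den g) g

/-- integer coefficients -/
def IsInt (g : Poly) : Prop := ∀ m ∈ g, m.1.2.2 = 0

lemma den_pos (g : Poly) : 0 < den g := by
  induction g with
  | nil => simp [den]
  | cons m g ih =>
    have : den (m :: g) = (m.1.2.2 + 1) * den g := rfl
    rw [this]
    positivity

lemma dvd_den {g : Poly} {m : Mono} (hm : m ∈ g) : m.1.2.2 + 1 ∣ den g := by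
  induction g with
  | nil => simp at hm
  | cons a g ih =>
    have : den (a :: g) = (a.1.2.2 + 1) * den g := rfl
    rw [this]
    rcases List.mem_cons.1 hm with rfl | h
    · exact dvd_mul_right _ _
    · exact (ih h).mul_left _

lemma pev_clrD (D : ℕ) (g : Poly) (h : ∀ m ∈ g, m.1.2.2 + 1 ∣ D) (X : ℕ → ℝ) :
    pev X (clrD D g) = D * pev X g := by
  induction g with
  | nil => simp [clrD, pev]
  | cons m g ih =>
    have e : clrD D (m :: g) =
        ((m.1.1 * (D / (m.1.2.2 + 1)), m.1.2.1 * (D / (m.1.2.2 + 1)), 0), m.2) :: clrD D g := rfl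
    rw [e, pev_cons, ih fun m' hm' => h m' (by simp [hm']), pev_cons]
    obtain ⟨k, hk⟩ := h m (by simp)
    have h1 : D / (m.1.2.2 + 1) = k := by
      rw [hk]
      exact Nat.mul_div_cancel_left k (Nat.succ_pos _)
    have h2 : cv (m.1.1 * (D / (m.1.2.2 + 1)), m.1.2.1 * (D / (m.1.2.2 + 1)), 0) = D * cv m.1 := by
      rw [h1, hk]
      unfold cv
      have : (m.1.2.2 : ℝ) + 1 ≠ 0 := by positivity
      push_cast
      field_simp
      ring
    rw [h2]
    ring

lemma pev_clr (g : Poly) (X : ℕ → ℝ) : pev X (clr g) = den g * pev X g :=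
  pev_clrD _ _ (fun _ hm => dvd_den hm) X

lemma clr_pos (g : Poly) (X : ℕ → ℝ) : 0 < pev X (clr g) ↔ 0 < pev X g := by
  rw [pev_clr]
  have : (0 : ℝ) < den g := by exact_mod_cast den_pos g
  exact mul_pos_iff_of_pos_left this

lemma isInt_clr (g : Poly) : IsInt (clr g) := by
  intro m hm
  obtain ⟨a, _, rfl⟩ := List.mem_map.1 hm
  rfl

lemma isPoly_clr {n : ℕ} {g : Poly} (hg : IsPoly n g) : IsPoly n (clr g) := by
  intro m hm
  obtain ⟨a, ha, rfl⟩ := List.mem_map.1 hm
  exact hg a ha

lemma isInt_mulS {A B : Poly} (hA : IsInt A) (hB : IsInt B) : IsInt (mulS A B) := by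
  intro m hm
  obtain ⟨a, ha, h1⟩ := List.mem_flatMap.1 hm
  obtain ⟨b, hb, rfl⟩ := List.mem_map.1 h1
  simp [mulM, cmul, hA a ha, hB b hb]

lemma isInt_negP {A : Poly} (hA : IsInt A) : IsInt (negP A) := by
  intro m hm
  obtain ⟨a, ha, rfl⟩ := List.mem_map.1 hm
  exact hA a ha

lemma isInt_append {A B : Poly} (hA : IsInt A) (hB : IsInt B) : IsInt (A ++ B) := by
  intro m hm
  rcases List.mem_append.1 hm with h | h
  · exact hA m h
  · exact hB m h

lemma isInt_subP {A B : Poly} (hA : IsInt A) (hB : IsInt B) : IsInt (subP A B) :=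
  isInt_append hA (isInt_negP hB)

lemma isInt_sqP {A : Poly} (hA : IsInt A) : IsInt (sqP A) := isInt_mulS hA hA

lemma isInt_varP (i : ℕ) : IsInt (varP i) := by
  intro m hm
  simp only [varP, List.mem_singleton] at hm
  subst hm
  rfl

lemma isInt_natP (a : ℕ) : IsInt (natP a) := by
  intro m hm
  simp only [natP, List.mem_singleton] at hm
  subst hm
  rfl

lemma isInt_shP {k : ℕ} {A : Poly} (hA : IsInt A) : IsInt (shP k A) := by
  intro m hm
  obtain ⟨a, ha, rfl⟩ := List.mem_map.1 hm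
  exact hA a ha

lemma isInt_gadP {N : ℕ} {A B : Poly} (a : IsInt A) (b : IsInt B) : IsInt (gadP N A B) := by
  have P := isInt_mulS a b
  have u := isInt_subP a (isInt_sqP (isInt_varP N))
  have v := isInt_subP b (isInt_sqP (isInt_varP (N + 1)))
  exact isInt_subP
    (isInt_mulS (isInt_natP _) (isInt_mulS (isInt_sqP (isInt_mulS (isInt_varP N) u))
      (isInt_mulS (isInt_sqP (isInt_mulS (isInt_varP (N + 1)) v))
        (isInt_subP (isInt_subP (isInt_sqP P) (isInt_sqP (isInt_mulS u b)))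
          (isInt_sqP (isInt_mulS v a))))))
    (isInt_mulS (isInt_natP _) (isInt_mulS (isInt_mulS (isInt_sqP P)
      (isInt_sqP (isInt_sqP P))) (isInt_sqP (isInt_varP (N + 2)))))

lemma isInt_foldF (l : List Poly) : ∀ st : ℕ × Poly, IsInt st.2 → (∀ g ∈ l, IsInt g) →
    IsInt (foldF st l).2 := by
  induction l with
  | nil => intro st h _; exact h
  | cons g l ih =>
    intro st h hl
    exact ih (st.1 + 3, gadP st.1 st.2 g) (isInt_gadP h (hl g (by simp)))
      fun g' hg' => hl g' (by simp [hg'])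

lemma isInt_fold {L : ℕ} {l : List Poly} (hl : ∀ g ∈ l, IsInt g) : IsInt (fold L l).2 :=
  isInt_foldF l (L, natP 1) (isInt_natP 1) hl

lemma isInt_side {z : Poly} (hz : IsInt z) {m : ℕ} {l : List Poly} (hl : ∀ g ∈ l, IsInt g)
    (m' o : ℕ) : ∀ g ∈ side z m l m' o, IsInt g := by
  intro g hg
  rw [side] at hg
  rcases List.mem_append.1 hg with h | h
  · rcases List.mem_cons.1 h with rfl | h
    · exact hz
    · obtain ⟨g', hg', rfl⟩ := List.mem_map.1 h
      exact isInt_shP (hl g' hg')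
  · rcases List.mem_append.1 h with h | h
    · obtain ⟨g', hg', rfl⟩ := List.mem_map.1 h
      obtain ⟨i, _, rfl⟩ := List.mem_map.1 hg'
      exact isInt_shP (isInt_subP (isInt_natP _) (isInt_mulS (isInt_natP _)
        (isInt_sqP (isInt_varP _))))
    · rw [List.eq_of_mem_replicate h]
      exact isInt_natP _

lemma isInt_comb (m₁ : ℕ) {l₁ : List Poly} (h₁ : ∀ g ∈ l₁, IsInt g) (m₂ : ℕ)
    {l₂ : List Poly} (h₂ : ∀ g ∈ l₂, IsInt g) : IsInt (comb m₁ l₁ m₂ l₂).2 := by
  have one : ∀ {l : List Poly}, (∀ g ∈ l, IsInt g) → ∀ g ∈ l ++ [natP 1], IsInt g := by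
    intro l hl g hg
    rcases List.mem_append.1 hg with h | h
    · exact hl g h
    · rw [List.mem_singleton.1 h]
      exact isInt_natP _
  refine isInt_negP (isInt_mulS (isInt_fold (one (isInt_side ?_ h₁ _ _)))
    (isInt_fold (one (isInt_side ?_ h₂ _ _))))
  · exact isInt_mulS (isInt_varP _) (isInt_subP (isInt_natP _) (isInt_varP _))
  · exact isInt_negP (isInt_mulS (isInt_varP _) (isInt_append (isInt_natP _) (isInt_varP _)))

/-! ### The regions of an explicit integral -/

/-- a strict inequality which is equivalent almost everywhere -/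
def zf (n : ℕ) (g : Bool × Poly) : Poly := if g.1 || ! isZ n g.2 then g.2 else natP 1

/-- The region between the graph of `P / Q` and zero (the coordinate `x_0` is the height). -/
def regP (c : Code) : List Poly :=
  (varP 0 :: mulS (shP 1 c.2.2.1) (subP (shP 1 c.2.1) (mulS (varP 0) (shP 1 c.2.2.1))) ::
    (c.2.2.2.map (zf c.1)).map (shP 1)).map clr

/-- The region below zero, reflected. -/
def regN (c : Code) : List Poly :=
  (varP 0 :: mulS (shP 1 c.2.2.1) (subP (negP (shP 1 c.2.1)) (mulS (varP 0) (shP 1 c.2.2.1))) ::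
    (c.2.2.2.map (zf c.1)).map (shP 1)).map clr

lemma chi_clr (g : Poly) (X : ℕ → ℝ) : chi (clr g) X = chi g X := by
  unfold chi
  simp only [clr_pos]

lemma chis_clr (l : List Poly) (X : ℕ → ℝ) : chis (l.map clr) X = chis l X := by
  induction l with
  | nil => rfl
  | cons g l ih => rw [List.map_cons, chis_cons, chis_cons, ih, chi_clr]

lemma dom_ae (n : ℕ) (D : Dom) (hD : ∀ g ∈ D, IsPoly n g.2) (hZ : S_zero) :
    ∀ᵐ x : Fin n → ℝ, InDom (ext x) D ↔ ∀ g ∈ D.map (zf n), 0 < pev (ext x) g := by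
  induction D with
  | nil => exact Filter.Eventually.of_forall fun x => by simp [InDom]
  | cons g D ih =>
    have h1 : ∀ᵐ x : Fin n → ℝ, Sat (ext x) g ↔ 0 < pev (ext x) (zf n g) := by
      have hg : IsPoly n g.2 := hD g (by simp)
      rcases hb : g.1 with _ | _
      · rcases hz : isZ n g.2 with _ | _
        · have h2 := hZ.2.1 n g.2 hg hz
          have h3 : ∀ᵐ x : Fin n → ℝ, pev (ext x) g.2 ≠ 0 := by
            rw [ae_iff]
            simpa using h2
          filter_upwards [h3] with x hx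
          simp only [Sat, zf, hb, hz]
          simp only [Bool.false_eq_true, false_and, true_and, false_or, Bool.not_false,
            Bool.or_true, if_true]
          exact ⟨fun h => lt_of_le_of_ne h (Ne.symm hx), le_of_lt⟩
        · refine Filter.Eventually.of_forall fun x => ?_
          simp only [Sat, zf, hb, hz]
          simp [hZ.1 n g.2 hg hz, pev_natP]
      · refine Filter.Eventually.of_forall fun x => ?_
        simp [Sat, zf, hb]
    filter_upwards [h1, ih fun g' hg' => hD g' (by simp [hg'])] with x h2 h3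
    rw [List.map_cons, List.forall_mem_cons, ← h2, ← h3]
    simp [InDom]

lemma height (p q t : ℝ) (hq : q ≠ 0) : (0 < t ∧ 0 < q * (p - t * q)) ↔ t ∈ Set.Ioo 0 (p / q) := by
  rw [Set.mem_Ioo]
  refine and_congr_right fun _ => ?_
  rcases lt_or_gt_of_ne hq with h | h
  · rw [lt_div_iff_of_neg h]
    constructor
    · intro h1
      nlinarith
    · intro h1
      exact mul_pos_of_neg_of_neg h (by linarith)
  · rw [lt_div_iff₀ h]
    constructor
    · intro h1
      nlinarith
    · intro h1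
      exact mul_pos h (by linarith)

/-- the volume of a region under a graph -/
lemma vol_graph (n : ℕ) (P Q : Poly) (l : List Poly) (P' : Poly)
    (hP' : ∀ X : ℕ → ℝ, pev X P' = pev X (shP 1 P))
    (hQ : ∀ᵐ x : Fin n → ℝ, pev (ext x) Q ≠ 0) :
    vol (1 + n) ((varP 0 :: mulS (shP 1 Q) (subP P' (mulS (varP 0) (shP 1 Q))) ::
      l.map (shP 1)).map clr) =
      ∫⁻ x : Fin n → ℝ, chis l (ext x) * ENNReal.ofReal (pev (ext x) P / pev (ext x) Q) := by
  classical
  rw [vol]
  simp only [chis_clr]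
  set l' : List Poly := varP 0 :: mulS (shP 1 Q) (subP P' (mulS (varP 0) (shP 1 Q))) ::
      l.map (shP 1) with hl'
  rw [lint_split 1 n (chis l') (measurable_chis l')]
  have hm : Measurable fun p : (Fin 1 → ℝ) × (Fin n → ℝ) => chis l' (glue 1 (ext p.1) (ext p.2)) :=
    (measurable_chis l').comp ((measurable_glue 1).comp
      (((measurable_ext 1).comp measurable_fst).prodMk ((measurable_ext n).comp measurable_snd)))
  rw [lintegral_lintegral_swap hm.aemeasurable]
  refine lintegral_congr_ae ?_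
  filter_upwards [hQ] with x hx
  have h1 : ∀ t : Fin 1 → ℝ, chis l' (glue 1 (ext t) (ext x)) =
      (Set.Ioo 0 (pev (ext x) P / pev (ext x) Q)).indicator (fun _ => chis l (ext x)) (ext t 0) := by
    intro t
    have e0 : (glue 1 (ext t) (ext x)) 0 = ext t 0 := rfl
    have e1 : sh 1 (glue 1 (ext t) (ext x)) = ext x := sh_glue _ _ _
    rw [hl', chis_cons, chis_cons, chis_shP, e1]
    have h2 : chi (varP 0) (glue 1 (ext t) (ext x)) *
        chi (mulS (shP 1 Q) (subP P' (mulS (varP 0) (shP 1 Q)))) (glue 1 (ext t) (ext x)) =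
        (Set.Ioo 0 (pev (ext x) P / pev (ext x) Q)).indicator (fun _ => 1) (ext t 0) := by
      unfold chi
      simp only [pev_mulS, pev_subP, pev_varP, hP', pev_shP, e0, e1]
      have hh := height (pev (ext x) P) (pev (ext x) Q) (ext t 0) hx
      by_cases h5 : ext t 0 ∈ Set.Ioo 0 (pev (ext x) P / pev (ext x) Q)
      · obtain ⟨h3, h4⟩ := hh.2 h5
        rw [Set.indicator_of_mem h5, if_pos h3, if_pos h4, one_mul]
      · rw [Set.indicator_of_notMem h5]
        by_cases h3 : 0 < ext t 0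
        · rw [if_neg fun h4 => h5 (hh.1 ⟨h3, h4⟩), mul_zero]
        · rw [if_neg h3, zero_mul]
    rw [← mul_assoc, h2]
    by_cases h5 : ext t 0 ∈ Set.Ioo 0 (pev (ext x) P / pev (ext x) Q) <;> simp [h5]
  simp only [h1]
  rw [lint_one fun t => (Set.Ioo 0 (pev (ext x) P / pev (ext x) Q)).indicator
    (fun _ => chis l (ext x)) t, lintegral_indicator measurableSet_Ioo, lintegral_const]
  simp

lemma q_ne (c : Code) (hc : Adm c) (hZ : S_zero) : ∀ᵐ x : Fin c.1 → ℝ, pev (ext x) c.2.2.1 ≠ 0 := by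
  obtain ⟨x0, hx0⟩ := hc.2.2.2.1
  have h1 : isZ c.1 c.2.2.1 = false := by
    rcases h : isZ c.1 c.2.2.1 with _ | _
    · rfl
    · exact absurd (hZ.1 c.1 c.2.2.1 hc.2.1 h (ext x0)) hx0
  have h2 := hZ.2.1 c.1 c.2.2.1 hc.2.1 h1
  rw [ae_iff]
  simpa using h2

lemma vol_regP (c : Code) (hc : Adm c) (hZ : S_zero) :
    vol (1 + c.1) (regP c) = ∫⁻ x : Fin c.1 → ℝ, ENNReal.ofReal (integrand (ext x) c) := by
  classical
  rw [regP, vol_graph c.1 c.2.1 c.2.2.1 (c.2.2.2.map (zf c.1)) _ (fun _ => rfl) (q_ne c hc hZ)]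
  refine lintegral_congr_ae ?_
  filter_upwards [dom_ae c.1 c.2.2.2 hc.2.2.1 hZ] with x hx
  unfold integrand
  by_cases h : InDom (ext x) c.2.2.2
  · rw [if_pos h, chis_one (hx.1 h), one_mul]
  · rw [if_neg h, chis_zero fun h1 => h (hx.2 h1), zero_mul, ENNReal.ofReal_zero]

lemma vol_regN (c : Code) (hc : Adm c) (hZ : S_zero) :
    vol (1 + c.1) (regN c) = ∫⁻ x : Fin c.1 → ℝ, ENNReal.ofReal (-integrand (ext x) c) := by
  classical
  rw [regN, vol_graph c.1 (negP c.2.1) c.2.2.1 (c.2.2.2.map (zf c.1)) _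
    (fun X => by rw [pev_negP, pev_shP, pev_shP, pev_negP]) (q_ne c hc hZ)]
  refine lintegral_congr_ae ?_
  filter_upwards [dom_ae c.1 c.2.2.2 hc.2.2.1 hZ] with x hx
  unfold integrand
  by_cases h : InDom (ext x) c.2.2.2
  · rw [if_pos h, chis_one (hx.1 h), one_mul, pev_negP, neg_div]
  · rw [if_neg h, chis_zero fun h1 => h (hx.2 h1), zero_mul, neg_zero, ENNReal.ofReal_zero]

lemma fin_reg (c : Code) (hc : Adm c) (hZ : S_zero) :
    vol (1 + c.1) (regP c) ≠ ⊤ ∧ vol (1 + c.1) (regN c) ≠ ⊤ := by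
  rw [vol_regP c hc hZ, vol_regN c hc hZ]
  have h := hc.2.2.2.2
  constructor
  · exact h.lintegral_lt_top.ne
  · exact h.neg.lintegral_lt_top.ne

/-- **The value of an explicit integral.** -/
lemma val_eq (c : Code) (hc : Adm c) (hZ : S_zero) :
    val c = (vol (1 + c.1) (regP c)).toReal - (vol (1 + c.1) (regN c)).toReal := by
  rw [vol_regP c hc hZ, vol_regN c hc hZ, val]
  exact integral_eq_lintegral_pos_part_sub_lintegral_neg_part hc.2.2.2.2

lemma isPoly_zf {n : ℕ} {g : Bool × Poly} (hg : IsPoly n g.2) : IsPoly n (zf n g) := by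
  unfold zf
  split_ifs
  · exact hg
  · exact isPoly_natP _ _

lemma isPoly_reg {c : Code} (hc : Adm c) :
    (∀ g ∈ regP c, IsPoly (1 + c.1) g ∧ IsInt g) ∧ ∀ g ∈ regN c, IsPoly (1 + c.1) g ∧ IsInt g := by
  have hD : ∀ g ∈ (c.2.2.2.map (zf c.1)).map (shP 1), IsPoly (1 + c.1) g := by
    intro g hg
    obtain ⟨g', hg', rfl⟩ := List.mem_map.1 hg
    obtain ⟨g'', hg'', rfl⟩ := List.mem_map.1 hg'
    exact isPoly_shP' _ (isPoly_zf (hc.2.2.1 g'' hg''))
  have hv : IsPoly (1 + c.1) (varP 0) := isPoly_varP (by omega)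
  have hP : IsPoly (1 + c.1) (shP 1 c.2.1) := isPoly_shP' _ hc.1
  have hQ : IsPoly (1 + c.1) (shP 1 c.2.2.1) := isPoly_shP' _ hc.2.1
  constructor
  · intro g hg
    obtain ⟨g', hg', rfl⟩ := List.mem_map.1 hg
    refine ⟨isPoly_clr ?_, isInt_clr _⟩
    rcases List.mem_cons.1 hg' with rfl | hg'
    · exact hv
    rcases List.mem_cons.1 hg' with rfl | hg'
    · exact isPoly_mulS hQ (isPoly_subP hP (isPoly_mulS hv hQ))
    · exact hD _ hg'
  · intro g hg
    obtain ⟨g', hg', rfl⟩ := List.mem_map.1 hg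
    refine ⟨isPoly_clr ?_, isInt_clr _⟩
    rcases List.mem_cons.1 hg' with rfl | hg'
    · exact hv
    rcases List.mem_cons.1 hg' with rfl | hg'
    · exact isPoly_mulS hQ (isPoly_subP (isPoly_negP hP) (isPoly_mulS hv hQ))
    · exact hD _ hg'

lemma length_reg (c : Code) : (regP c).length = (regN c).length := by
  simp [regP, regN]

end Pool.Agent.H652.PV
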