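import Pool.Agent.H652.PV.Sdefs

/-!
# The chain of multiplications
-/

set_option autoImplicit false
set_option synthInstance.maxSize 2000

namespace Pool.Agent.H652.PV

open Pool.Agent.TH960.PE MeasureTheory

/-- A substitution of the form `y_i ↦ c_i y_i + v_i`. -/
theorem lint_diag {n : ℕ} (c v : Fin n → ℝ) (hc : ∀ i, c i ≠ 0) (F : (Fin n → ℝ) → ENNReal)
    (hF : Measurable F) :
    ∫⁻ y : Fin n → ℝ, F y =
      ENNReal.ofReal |∏ i, c i| * ∫⁻ y : Fin n → ℝ, F (fun i => c i * y i + v i) := by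
  classical
  have hdet : (Matrix.diagonal c).det ≠ 0 := by
    rw [Matrix.det_diagonal]
    exact Finset.prod_ne_zero_iff.2 fun i _ => hc i
  have h1 := Real.smul_map_diagonal_volume_pi hdet
  rw [Matrix.det_diagonal] at h1
  have h2 : ∫⁻ y : Fin n → ℝ, F y = ∫⁻ y : Fin n → ℝ, F (y + v) :=
    (lintegral_add_right_eq_self F v).symm
  have hG : Measurable fun y : Fin n → ℝ => F (y + v) := hF.comp (measurable_id.add_const v)
  have hT : Measurable (Matrix.toLin' (Matrix.diagonal c)) :=
    (LinearMap.continuous_on_pi _).measurable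
  rw [h2]
  conv_lhs => rw [← h1]
  rw [lintegral_smul_measure, lintegral_map hG hT, smul_eq_mul]
  refine congrArg _ (lintegral_congr fun y => ?_)
  refine congrArg F (funext fun i => ?_)
  rw [Pi.add_apply, Matrix.toLin'_apply, Matrix.mulVec_diagonal]

namespace SChain

lemma isPoly_append {n : ℕ} {A B : Poly} (hA : IsPoly n A) (hB : IsPoly n B) :
    IsPoly n (A ++ B) := by
  intro m hm
  rcases List.mem_append.1 hm with h | h
  · exact hA m h
  · exact hB m h

lemma isPoly_const (n : ℕ) (c : Coef) : IsPoly n [(c, [])] := by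
  intro m hm
  simp only [List.mem_singleton] at hm
  subst hm
  simp

lemma isPoly_oneP {n : ℕ} {A : Poly} (hA : IsPoly n A) : IsPoly n (oneP A) :=
  isPoly_subP (isPoly_natP _ _) hA

lemma pev_const (X : ℕ → ℝ) (c : Coef) : pev X [(c, [])] = cv c := by
  simp [pev, mev]

lemma pev_oneP (X : ℕ → ℝ) (A : Poly) : pev X (oneP A) = 1 - pev X A := by
  rw [oneP, pev_subP, pev_natP, Nat.cast_one]

lemma measurable_map_prod (L : List ℕ) : Measurable fun X : ℕ → ℝ => (L.map X).prod := by
  induction L with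
  | nil => simp only [List.map_nil, List.prod_nil]; exact measurable_const
  | cons i L ih =>
    simp only [List.map_cons, List.prod_cons]
    exact (measurable_pi_apply i).mul ih

lemma ae_ne {n : ℕ} (i : ℕ) (hi : i < n) : ∀ᵐ x : Fin n → ℝ, ext x i ≠ 0 := by
  have h := Measure.ae_eval_ne (μ := fun _ : Fin n => (volume : Measure ℝ)) ⟨i, hi⟩ (0 : ℝ)
  rw [volume_pi]
  filter_upwards [h] with x hx
  unfold ext
  rw [dif_pos hi]
  exact hx

/-- the energy after one step -/
lemma pev_step (K i N : ℕ) (E ρ z : Poly) (X : ℕ → ℝ) :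
    pev X (cstep K (N, E, ρ, z) i).2.1 = pev X E + (K * (pev X ρ * (X i * X N - pev X z)) ^ 2 +
      ((1 - X (N + 2) * X (N + 1)) ^ 2 + ((1 - X (N + 2) * (X i * pev X ρ)) ^ 2 +
        (X (N + 3) * X (N + 2)) ^ 2))) := by
  simp only [cstep, pev_append, pev_mulS, pev_natP, pev_sqP, pev_subP, pev_varP, pev_oneP]

lemma isPoly_step {K i N : ℕ} {E ρ z : Poly} (hE : IsPoly N E) (hρ : IsPoly N ρ)
    (hz : IsPoly N z) (hi : i < N) : IsPoly (N + 4) (cstep K (N, E, ρ, z) i).2.1 := by
  have e := isPoly_mono (Nat.le_add_right N 4) hE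
  have r := isPoly_mono (Nat.le_add_right N 4) hρ
  have s := isPoly_mono (Nat.le_add_right N 4) hz
  have vi : IsPoly (N + 4) (varP i) := isPoly_varP (by omega)
  have v0 : IsPoly (N + 4) (varP N) := isPoly_varP (by omega)
  have v1 : IsPoly (N + 4) (varP (N + 1)) := isPoly_varP (by omega)
  have v2 : IsPoly (N + 4) (varP (N + 2)) := isPoly_varP (by omega)
  have v3 : IsPoly (N + 4) (varP (N + 3)) := isPoly_varP (by omega)
  exact isPoly_append e (isPoly_append
    (isPoly_mulS (isPoly_natP _ _) (isPoly_sqP (isPoly_mulS r (isPoly_subP (isPoly_mulS vi v0) s))))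
    (isPoly_append (isPoly_sqP (isPoly_oneP (isPoly_mulS v2 v1)))
      (isPoly_append (isPoly_sqP (isPoly_oneP (isPoly_mulS v2 (isPoly_mulS vi r))))
        (isPoly_sqP (isPoly_mulS v3 v2)))))

/-- the substitution -/
lemma subst4 (a V : ℝ) (ha : a ≠ 0) (F : (Fin 4 → ℝ) → ENNReal) (hF : Measurable F) :
    ∫⁻ y : Fin 4 → ℝ, F y = ∫⁻ y : Fin 4 → ℝ, F ![V - y 0 / a, a * y 1, y 2 / a, a * y 3] := by
  have hc : ∀ i : Fin 4, (![-a⁻¹, a, a⁻¹, a] : Fin 4 → ℝ) i ≠ 0 := by
    intro i
    fin_cases i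
    · exact neg_ne_zero.2 (inv_ne_zero ha)
    · exact ha
    · exact inv_ne_zero ha
    · exact ha
  have h := lint_diag (![-a⁻¹, a, a⁻¹, a] : Fin 4 → ℝ) ![V, 0, 0, 0] hc F hF
  have hp : |∏ i : Fin 4, (![-a⁻¹, a, a⁻¹, a] : Fin 4 → ℝ) i| = 1 := by
    have : ∏ i : Fin 4, (![-a⁻¹, a, a⁻¹, a] : Fin 4 → ℝ) i = -1 := by
      simp only [Fin.prod_univ_four]
      show -a⁻¹ * a * a⁻¹ * a = -1
      field_simp
    rw [this]
    simp
  rw [hp, ENNReal.ofReal_one, one_mul] at h
  rw [h]
  refine lintegral_congr fun y => congrArg F (funext fun i => ?_)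
  fin_cases i
  · show -a⁻¹ * y 0 + V = V - y 0 / a
    ring
  · show a * y 1 + 0 = a * y 1
    ring
  · show a⁻¹ * y 2 + 0 = y 2 / a
    ring
  · show a * y 3 + 0 = a * y 3
    ring

end SChain

open SChain

theorem t_chain (hM : S_meas) : S_chain := by
  intro K c L
  induction L with
  | nil =>
    intro N E ρ z hE hρ hz _ _
    refine ⟨isPoly_append hE (isPoly_mulS (isPoly_natP _ _) (isPoly_sqP (isPoly_mulS hρ
      (isPoly_subP (isPoly_const _ c) hz)))), le_rfl, ?_⟩
    intro g hg hd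
    refine lintegral_congr fun x => ?_
    show g (pev (ext x) (E ++ mulS (natP K) (sqP (mulS ρ (subP [(c, [])] z))))) (ext x) =
      g (pev (ext x) E + K * (pev (ext x) ρ * (cv c * (List.map (ext x) []).prod -
        pev (ext x) z)) ^ 2) (ext x)
    rw [pev_append, pev_mulS, pev_natP, pev_sqP, pev_mulS, pev_subP, pev_const]
    simp
  | cons i L ih =>
    intro N E ρ z hE hρ hz hL hne
    have hi : i < N := hL i (by simp)
    obtain ⟨h1, h2, h3⟩ := ih (N + 4) (cstep K (N, E, ρ, z) i).2.1 (varP (N + 1)) (varP N)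
      (isPoly_step hE hρ hz hi) (isPoly_varP (by omega)) (isPoly_varP (by omega))
      (fun j hj => (hL j (by simp [hj])).trans_le (by omega))
      ((ae_ne (N + 1) (by omega)).mono fun x hx => by rw [pev_varP]; exact hx)
    refine ⟨h1, (Nat.le_add_right N 4).trans h2, ?_⟩
    intro g hg hd
    refine (h3 g hg fun t => (hd t).mono (Nat.le_add_right N 4)).trans ?_
    -- the integrand as a function of the sequence of the coordinates
    obtain ⟨f, hf⟩ : ∃ f : (ℕ → ℝ) → ENNReal, ∀ X, f X = kc K L.length (fun t => g t X)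
        (pev X (cstep K (N, E, ρ, z) i).2.1) (X (N + 1) * (cv c * (L.map X).prod - X N)) :=
      ⟨_, fun _ => rfl⟩
    have hfm : Measurable f := by
      have hfe : f = fun X => kc K L.length (fun t => g t X)
          (pev X (cstep K (N, E, ρ, z) i).2.1) (X (N + 1) * (cv c * (L.map X).prod - X N)) :=
        funext hf
      rw [hfe]
      have hm := hM.1 K L.length (ℕ → ℝ) (fun X t => g t X) (hg.comp measurable_swap)
      have hm2 : Measurable fun X : ℕ → ℝ => (X, pev X (cstep K (N, E, ρ, z) i).2.1,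
          X (N + 1) * (cv c * (L.map X).prod - X N)) := by
        refine measurable_id.prodMk ((measurable_pev _).prodMk ?_)
        exact (measurable_pi_apply _).mul
          (((measurable_map_prod L).const_mul _).sub (measurable_pi_apply _))
      exact hm.comp hm2
    have hl : ∫⁻ x : Fin (N + 4) → ℝ, kc K L.length (fun t => g t (ext x))
        (pev (ext x) (cstep K (N, E, ρ, z) i).2.1)
        (pev (ext x) (varP (N + 1)) * (cv c * (L.map (ext x)).prod - pev (ext x) (varP N))) =
        ∫⁻ x : Fin (N + 4) → ℝ, f (ext x) := by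
      refine lintegral_congr fun x => ?_
      rw [hf, pev_varP, pev_varP]
    rw [hl, lint_split N 4 f hfm]
    refine lintegral_congr_ae ?_
    filter_upwards [hne, ae_ne i hi] with x hr hx
    -- the substitution
    obtain ⟨r, hr'⟩ : ∃ r, r = pev (ext x) ρ := ⟨_, rfl⟩
    obtain ⟨xi, hxi⟩ : ∃ xi, xi = ext x i := ⟨_, rfl⟩
    obtain ⟨t0, ht0⟩ : ∃ t0, t0 = pev (ext x) E := ⟨_, rfl⟩
    obtain ⟨z0, hz0⟩ : ∃ z0, z0 = pev (ext x) z := ⟨_, rfl⟩
    obtain ⟨V, hV⟩ : ∃ V, V = cv c * (L.map (ext x)).prod := ⟨_, rfl⟩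
    have ha : xi * r ≠ 0 := mul_ne_zero (by rw [hxi]; exact hx) (by rw [hr']; exact hr)
    have hxi0 : xi ≠ 0 := left_ne_zero_of_mul ha
    have hr0 : r ≠ 0 := right_ne_zero_of_mul ha
    have key : ∀ y : Fin 4 → ℝ, f (glue N (ext x) (ext y)) = kc K L.length
        (fun t => g t (ext x)) (t0 + (K * (r * (xi * y 0 - z0)) ^ 2 +
          ((1 - y 2 * y 1) ^ 2 + ((1 - y 2 * (xi * r)) ^ 2 + (y 3 * y 2) ^ 2))))
        (y 1 * (V - y 0)) := by
      intro y
      have g0 : glue N (ext x) (ext y) N = y 0 := by simp [glue, ext]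
      have g1 : glue N (ext x) (ext y) (N + 1) = y 1 := by simp [glue, ext]
      have g2 : glue N (ext x) (ext y) (N + 2) = y 2 := by simp [glue, ext]
      have g3 : glue N (ext x) (ext y) (N + 3) = y 3 := by simp [glue, ext]
      have gi : glue N (ext x) (ext y) i = xi := by rw [glue, if_pos hi, hxi]
      have gg : (fun t => g t (glue N (ext x) (ext y))) = fun t => g t (ext x) :=
        funext fun t => (hd t).glue _ _
      have gL : L.map (glue N (ext x) (ext y)) = L.map (ext x) :=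
        List.map_congr_left fun j hj => by
          rw [glue, if_pos (hL j (by simp [hj]))]
      rw [hf, pev_step, g0, g1, g2, g3, gi, gg, gL, (dep_pev hE).glue, (dep_pev hρ).glue,
        (dep_pev hz).glue, ← hr', ← ht0, ← hz0, ← hV]
    have hmF : Measurable fun y : Fin 4 → ℝ => f (glue N (ext x) (ext y)) :=
      hfm.comp ((measurable_glue N).comp (measurable_const.prodMk (measurable_ext 4)))
    rw [subst4 (xi * r) V ha _ hmF]
    show _ = ∫⁻ y : Fin 4 → ℝ, kc K L.length (fun t => g t (ext x))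
      (pev (ext x) E + (K * (pev (ext x) ρ * (cv c * ((i :: L).map (ext x)).prod -
        pev (ext x) z) - y 0) ^ 2 + ((1 - y 2 * y 1) ^ 2 + ((1 - y 2) ^ 2 + (y 3 * y 2) ^ 2))))
        (y 1 * y 0)
    refine lintegral_congr fun y => ?_
    rw [key]
    have e0 : (![V - y 0 / (xi * r), xi * r * y 1, y 2 / (xi * r), xi * r * y 3] : Fin 4 → ℝ) 0 =
        V - y 0 / (xi * r) := rfl
    have e1 : (![V - y 0 / (xi * r), xi * r * y 1, y 2 / (xi * r), xi * r * y 3] : Fin 4 → ℝ) 1 =
        xi * r * y 1 := rfl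
    have e2 : (![V - y 0 / (xi * r), xi * r * y 1, y 2 / (xi * r), xi * r * y 3] : Fin 4 → ℝ) 2 =
        y 2 / (xi * r) := rfl
    have e3 : (![V - y 0 / (xi * r), xi * r * y 1, y 2 / (xi * r), xi * r * y 3] : Fin 4 → ℝ) 3 =
        xi * r * y 3 := rfl
    rw [e0, e1, e2, e3, List.map_cons, List.prod_cons, ← hr', ← ht0, ← hz0, ← hxi]
    have k1 : r * (xi * (V - y 0 / (xi * r)) - z0) =
        r * (cv c * (xi * (L.map (ext x)).prod) - z0) - y 0 := by
      rw [hV]
      field_simp
      ring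
    have k2 : y 2 / (xi * r) * (xi * r * y 1) = y 2 * y 1 := by
      field_simp
    have k3 : y 2 / (xi * r) * (xi * r) = y 2 := by
      field_simp
    have k4 : xi * r * y 3 * (y 2 / (xi * r)) = y 3 * y 2 := by
      field_simp
    have k5 : xi * r * y 1 * (V - (V - y 0 / (xi * r))) = y 1 * y 0 := by
      field_simp
      ring
    rw [k1, k2, k3, k4, k5]

end Pool.Agent.H652.PV
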