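import Pool.Agent.H652.PV.Sdefs

/-!
# Measurability of the kernels (helper396)
-/

set_option autoImplicit false
set_option synthInstance.maxSize 2000

namespace Pool.Agent.H652.PV

open Pool.Agent.TH960.PE MeasureTheory

namespace SMeas

theorem meas_kc (K : ℕ) (α : Type) [MeasurableSpace α] (f : α → ℝ → ENNReal)
    (hf : Measurable (Function.uncurry f)) (L : ℕ) :
    Measurable fun p : α × ℝ × ℝ => kc K L (f p.1) p.2.1 p.2.2 := by
  induction L with
  | zero =>
    have h1 : Measurable fun p : α × ℝ × ℝ => ((p.1, p.2.1 + K * p.2.2 ^ 2) : α × ℝ) := by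
      fun_prop
    exact hf.comp h1
  | succ L ih =>
    have h1 : Measurable fun q : (α × ℝ × ℝ) × (Fin 4 → ℝ) => ((q.1.1,
        q.1.2.1 + (K * (q.1.2.2 - q.2 0) ^ 2 +
          ((1 - q.2 2 * q.2 1) ^ 2 + ((1 - q.2 2) ^ 2 + (q.2 3 * q.2 2) ^ 2))),
        q.2 1 * q.2 0) : α × ℝ × ℝ) := by
      fun_prop
    exact (ih.comp h1).lintegral_prod_right'

theorem meas_ks (K : ℕ) (Ls : List ℕ) : ∀ (α : Type) [MeasurableSpace α] (f : α → ℝ → ENNReal),
    Measurable (Function.uncurry f) →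
      Measurable fun p : α × ℝ × ℝ => ks K Ls (f p.1) p.2.1 p.2.2 := by
  induction Ls with
  | nil =>
    intro α _ f hf
    have h1 : Measurable fun p : α × ℝ × ℝ => ((p.1, p.2.1 + K * p.2.2 ^ 2) : α × ℝ) := by
      fun_prop
    exact hf.comp h1
  | cons L Ls ih =>
    intro α _ f hf
    have h2 : Measurable fun r : (α × ℝ) × ℝ => ((r.1.1, r.2, r.1.2) : α × ℝ × ℝ) := by
      fun_prop
    have h3 : Measurable (Function.uncurry fun (a : α × ℝ) (t : ℝ) => ks K Ls (f a.1) t a.2) :=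
      (ih α f hf).comp h2
    have h4 := meas_kc K (α × ℝ) (fun a t => ks K Ls (f a.1) t a.2) h3 L
    have h1 : Measurable fun q : (α × ℝ × ℝ) × (Fin 4 → ℝ) => (((q.1.1, q.1.2.2 - q.2 0),
        q.1.2.1 + ((1 - q.2 1) ^ 2 + ((q.2 2 * q.2 1) ^ 2 + (q.2 3 * q.2 1) ^ 2)),
        q.2 0) : (α × ℝ) × ℝ × ℝ) := by
      fun_prop
    exact (h4.comp h1).lintegral_prod_right'

end SMeas

theorem t_meas : S_meas :=
  ⟨fun K L α _ f hf => SMeas.meas_kc K α f hf L, fun K Ls α _ f hf => SMeas.meas_ks K Ls α f hf⟩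

end Pool.Agent.H652.PV
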