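import Pool.Agent.H652.PV.Cmp

/-!
# Polynomials of degree six: definitions

`sext n F` is a polynomial of degree six in more variables such that the integrals over the region where it
is positive are the integrals over the region `F > 0`, up to a constant which depends only on the exponents
of `F`.
-/

set_option autoImplicit false
set_option synthInstance.maxSize 2000

namespace Pool.Agent.H652.PV

open Pool.Agent.TH960.PE MeasureTheory

/-- the degree is at most `d` -/
def Deg (d : ℕ) (F : Poly) : Prop := ∀ m ∈ F, m.2.sum ≤ d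

/-- `1 - A` -/
def oneP (A : Poly) : Poly := subP (natP 1) A

/-- the variables of a monomial, with multiplicities -/
def idx (e : List ℕ) : List ℕ :=
  (List.range e.length).flatMap fun i => List.replicate (e.getD i 0) i

/-- One multiplication. The state `(N, E, ρ, z)`: the number of the variables, the energy, the scale and
the value. -/
def cstep (K : ℕ) (st : ℕ × Poly × Poly × Poly) (i : ℕ) : ℕ × Poly × Poly × Poly :=
  (st.1 + 4,
    st.2.1 ++ (mulS (natP K) (sqP (mulS st.2.2.1 (subP (mulS (varP i) (varP st.1)) st.2.2.2))) ++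
      (sqP (oneP (mulS (varP (st.1 + 2)) (varP (st.1 + 1)))) ++
        (sqP (oneP (mulS (varP (st.1 + 2)) (mulS (varP i) st.2.2.1))) ++
          sqP (mulS (varP (st.1 + 3)) (varP (st.1 + 2)))))),
    varP (st.1 + 1), varP st.1)

/-- The end of a chain of multiplications. -/
def cend (K : ℕ) (c : Coef) (st : ℕ × Poly × Poly × Poly) : ℕ × Poly :=
  (st.1, st.2.1 ++ mulS (natP K) (sqP (mulS st.2.2.1 (subP [(c, [])] st.2.2.2))))

/-- A monomial with the coefficient `c` and the variables `L`. -/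
def chainP (K : ℕ) (c : Coef) (L : List ℕ) (st : ℕ × Poly × Poly × Poly) : ℕ × Poly :=
  cend K c (L.foldl (cstep K) st)

/-- One summand. The state `(N, E, z)`: the number of the variables, the energy and the value; `u` is the
scale. -/
def mstep (K : ℕ) (u : Poly) (st : ℕ × Poly × Poly) (m : Mono) : ℕ × Poly × Poly :=
  ((chainP K m.1 (idx m.2) (st.1 + 4,
      st.2.1 ++ (sqP (oneP (mulS (varP (st.1 + 1)) u)) ++
        (sqP (mulS (varP (st.1 + 2)) (varP (st.1 + 1))) ++
          sqP (mulS (varP (st.1 + 3)) (varP (st.1 + 1))))), u, varP st.1)).1,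
    (chainP K m.1 (idx m.2) (st.1 + 4,
      st.2.1 ++ (sqP (oneP (mulS (varP (st.1 + 1)) u)) ++
        (sqP (mulS (varP (st.1 + 2)) (varP (st.1 + 1))) ++
          sqP (mulS (varP (st.1 + 3)) (varP (st.1 + 1))))), u, varP st.1)).2,
    subP st.2.2 (varP st.1))

/-- The end of a sum. -/
def send (K : ℕ) (u : Poly) (st : ℕ × Poly × Poly) : ℕ × Poly :=
  (st.1, st.2.1 ++ mulS (natP K) (sqP (mulS u (subP [] st.2.2))))

/-- A sum of monomials. -/
def sumP (K : ℕ) (u : Poly) (F : Poly) (st : ℕ × Poly × Poly) : ℕ × Poly :=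
  send K u (F.foldl (mstep K u) st)

/-- the degrees of the monomials -/
def lens (F : Poly) : List ℕ := F.map fun m => (idx m.2).length

/-- a bound for the accumulated errors -/
def bnd (Ls : List ℕ) : ℕ := Ls.foldr (fun L acc => 4 ^ (L + 1) + acc) 1

/-- the energy -/
def sextE (n : ℕ) (F : Poly) : ℕ × Poly :=
  sumP ((4 * bnd (lens F)) ^ 2) (varP n) F
    (n + 5, sqP (oneP (mulS (varP n) (sqP (varP (n + 1))))) ++
      (sqP (mulS (varP (n + 2)) (mulS (varP n) (varP (n + 1)))) ++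
        (sqP (oneP (mulS (varP n) (varP (n + 3)))) ++ sqP (mulS (varP (n + 4)) (varP (n + 3))))),
      varP (n + 3))

/-- **The polynomial of degree six**, `1 - 4 E`. -/
def sext (n : ℕ) (F : Poly) : ℕ × Poly :=
  ((sextE n F).1, oneP (mulS (natP 4) (sextE n F).2))

/-! ### Kernels -/

/-- the kernel of a chain of `L` multiplications -/
noncomputable def kc (K : ℕ) : ℕ → (ℝ → ENNReal) → ℝ → ℝ → ENNReal
  | 0, f, t, δ => f (t + K * δ ^ 2)
  | L + 1, f, t, δ => ∫⁻ y : Fin 4 → ℝ,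
      kc K L f (t + (K * (δ - y 0) ^ 2 + ((1 - y 2 * y 1) ^ 2 + ((1 - y 2) ^ 2 + (y 3 * y 2) ^ 2))))
        (y 1 * y 0)

/-- the kernel of a sum -/
noncomputable def ks (K : ℕ) : List ℕ → (ℝ → ENNReal) → ℝ → ℝ → ENNReal
  | [], f, t, δ => f (t + K * δ ^ 2)
  | L :: Ls, f, t, δ => ∫⁻ y : Fin 4 → ℝ,
      kc K L (fun t' => ks K Ls f t' (δ - y 0))
        (t + ((1 - y 1) ^ 2 + ((y 2 * y 1) ^ 2 + (y 3 * y 1) ^ 2))) (y 0)

open Classical in
/-- the indicator function of `t < 1 / 4` -/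
noncomputable def f0 (t : ℝ) : ENNReal := if t < 1 / 4 then 1 else 0

/-- the constant -/
noncomputable def kst (K : ℕ) (Ls : List ℕ) : ENNReal := ∫⁻ y : Fin 5 → ℝ,
  ks K Ls f0 ((1 - y 0 * y 1 ^ 2) ^ 2 + ((y 2 * (y 0 * y 1)) ^ 2 + ((1 - y 0 * y 3) ^ 2 +
    (y 4 * y 3) ^ 2))) (y 0 * (1 - y 3))

/-! ### Statements -/

/-- E1: measurability of the kernels, with parameters -/
def S_meas : Prop :=
  (∀ (K L : ℕ) (α : Type) [MeasurableSpace α] (f : α → ℝ → ENNReal),
    Measurable (Function.uncurry f) →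
      Measurable fun p : α × ℝ × ℝ => kc K L (f p.1) p.2.1 p.2.2) ∧
  (∀ (K : ℕ) (Ls : List ℕ) (α : Type) [MeasurableSpace α] (f : α → ℝ → ENNReal),
    Measurable (Function.uncurry f) →
      Measurable fun p : α × ℝ × ℝ => ks K Ls (f p.1) p.2.1 p.2.2)

/-- E2: support of the kernels, and the constant is positive and finite -/
def S_bnd : Prop :=
  ∀ (Ls : List ℕ) (K : ℕ), K = (4 * bnd Ls) ^ 2 →
    (∀ t δ : ℝ, 0 ≤ t → ks K Ls f0 t δ ≠ 0 → t < 1 / 4 ∧ |δ| ≤ 1 / 8) ∧
    kst K Ls ≠ 0 ∧ kst K Ls ≠ ⊤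

/-- E3: the chain of multiplications -/
def S_chain : Prop :=
  ∀ (K : ℕ) (c : Coef) (L : List ℕ) (N : ℕ) (E ρ z : Poly), IsPoly N E → IsPoly N ρ → IsPoly N z →
    (∀ i ∈ L, i < N) → (∀ᵐ x : Fin N → ℝ, pev (ext x) ρ ≠ 0) →
    IsPoly (chainP K c L (N, E, ρ, z)).1 (chainP K c L (N, E, ρ, z)).2 ∧
    N ≤ (chainP K c L (N, E, ρ, z)).1 ∧
    ∀ g : ℝ → (ℕ → ℝ) → ENNReal, Measurable (Function.uncurry g) → (∀ t, Dep N (g t)) →
      ∫⁻ X : Fin (chainP K c L (N, E, ρ, z)).1 → ℝ,
          g (pev (ext X) (chainP K c L (N, E, ρ, z)).2) (ext X) =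
        ∫⁻ x : Fin N → ℝ, kc K L.length (fun t => g t (ext x)) (pev (ext x) E)
          (pev (ext x) ρ * (cv c * (L.map (ext x)).prod - pev (ext x) z))

/-- E4: degrees, integer coefficients, computability -/
def S_code : Prop :=
  (∀ (X : ℕ → ℝ) (e : List ℕ), mev X e = ((idx e).map X).prod) ∧
  (∀ (e : List ℕ) (i : ℕ), i ∈ idx e → i < e.length) ∧
  (∀ (n : ℕ) (F : Poly), Deg 6 (sext n F).2) ∧
  (∀ (n : ℕ) (F : Poly), IsInt F → IsInt (sext n F).2) ∧
  Primrec (fun p : ℕ × Poly => sext p.1 p.2)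

end Pool.Agent.H652.PV
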