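import Pool.Agent.H652.PV.Ydefs

/-!
# Rational functions as differences of integrals of reciprocals: the polynomial (statement Y3), by helper549
-/

set_option autoImplicit false
set_option synthInstance.maxSize 2000

namespace Pool.Agent.H652.PV

open Pool.Agent.TH960.PE MeasureTheory

namespace YCod

/-! ### Values -/

theorem pev_s4P (X : ℕ → ℝ) (n : ℕ) :
    pev X (s4P n) = X n ^ 2 + X (n + 1) ^ 2 + X (n + 2) ^ 2 + X (n + 3) ^ 2 := by
  rw [s4P, pev_append, pev_append, pev_append, pev_sqP, pev_sqP, pev_sqP, pev_sqP, pev_varP,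
    pev_varP, pev_varP, pev_varP]
  ring

theorem pev_y1P (X : ℕ → ℝ) (n : ℕ) (P Q : Poly) : pev X (y1P n P Q) =
    pev X Q * (∏ i ∈ Finset.range n, (1 + X i ^ 2)) *
      (1 + (X n ^ 2 + X (n + 1) ^ 2 + X (n + 2) ^ 2 + X (n + 3) ^ 2 -
        pev X P * ∏ i ∈ Finset.range n, (1 + X i ^ 2)) ^ 2) ^ 2 := by
  rw [y1P, pev_mulS, pev_mulS, pev_sqP, pev_append, pev_natP, pev_sqP, pev_subP, pev_s4P,
    pev_mulS, WCod.pev_wP, Nat.cast_one]

/-! ### The number of variables -/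

theorem isPoly_s4P (n : ℕ) : IsPoly (n + 4) (s4P n) :=
  SChain.isPoly_append (isPoly_sqP (isPoly_varP (by omega)))
    (SChain.isPoly_append (isPoly_sqP (isPoly_varP (by omega)))
      (SChain.isPoly_append (isPoly_sqP (isPoly_varP (by omega)))
        (isPoly_sqP (isPoly_varP (by omega)))))

theorem isPoly_y1P {n : ℕ} {P Q : Poly} (hP : IsPoly n P) (hQ : IsPoly n Q) :
    IsPoly (n + 4) (y1P n P Q) :=
  isPoly_mulS (isPoly_mono (Nat.le_add_right n 4) (isPoly_mulS hQ (WCod.isPoly_wP n)))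
    (isPoly_sqP (SChain.isPoly_append (isPoly_natP _ 1)
      (isPoly_sqP (isPoly_subP (isPoly_s4P n)
        (isPoly_mono (Nat.le_add_right n 4) (isPoly_mulS hP (WCod.isPoly_wP n)))))))

/-! ### Integer coefficients -/

theorem isInt_s4P (n : ℕ) : IsInt (s4P n) :=
  isInt_append (isInt_sqP (isInt_varP _)) (isInt_append (isInt_sqP (isInt_varP _))
    (isInt_append (isInt_sqP (isInt_varP _)) (isInt_sqP (isInt_varP _))))

theorem isInt_y1P (n : ℕ) {P Q : Poly} (hP : IsInt P) (hQ : IsInt Q) : IsInt (y1P n P Q) :=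
  isInt_mulS (isInt_mulS hQ (WCod.isInt_wP n))
    (isInt_sqP (isInt_append (isInt_natP 1)
      (isInt_sqP (isInt_subP (isInt_s4P n) (isInt_mulS hP (WCod.isInt_wP n))))))

/-! ### Computability -/

section

variable {α : Type*} [Primcodable α]

theorem s4P_p {f : α → ℕ} (hf : Primrec f) : Primrec fun a => s4P (f a) :=
  SCode.app_p (PrimT.sqP_p (PrimT.varP_p hf))
    (SCode.app_p (PrimT.sqP_p (PrimT.varP_p (SCode.add_p hf 1)))
      (SCode.app_p (PrimT.sqP_p (PrimT.varP_p (SCode.add_p hf 2)))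
        (PrimT.sqP_p (PrimT.varP_p (SCode.add_p hf 3)))))

theorem y1P_p {f : α → ℕ} {g h : α → Poly} (hf : Primrec f) (hg : Primrec g) (hh : Primrec h) :
    Primrec fun a => y1P (f a) (g a) (h a) :=
  PrimT.mulS_p (PrimT.mulS_p hh (WCod.wP_p hf))
    (PrimT.sqP_p (SCode.app_p (Primrec.const (natP 1))
      (PrimT.sqP_p (PrimT.subP_p (s4P_p hf) (PrimT.mulS_p hg (WCod.wP_p hf))))))

end

end YCod

/-- Y3 -/
theorem t_ycod : S_ycod :=
  ⟨fun _ _ _ hP hQ => YCod.isPoly_y1P hP hQ, fun n _ _ hP hQ => YCod.isInt_y1P n hP hQ,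
    fun n P Q X => YCod.pev_y1P X n P Q,
    YCod.y1P_p Primrec.fst (Primrec.fst.comp Primrec.snd) (Primrec.snd.comp Primrec.snd)⟩

end Pool.Agent.H652.PV
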