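import Pool.Agent.H652.PV.Yreal

/-!
# Y2: an integral over the half line
-/

set_option autoImplicit false

namespace Pool.Agent.H652.PV

open MeasureTheory Filter Topology

namespace YLin

/-- the integrand -/
noncomputable def g (P s : ℝ) : ℝ := s * (1 / (1 + (s - P) ^ 2) ^ 2)

/-- its antiderivative -/
noncomputable def G (P s : ℝ) : ℝ :=
  -(1 / (2 * (1 + (s - P) ^ 2))) +
    P * (Real.arctan (s - P) / 2 + (s - P) / (2 * (1 + (s - P) ^ 2)))

lemma hasDeriv (P s : ℝ) : HasDerivAt (G P) (g P s) s := by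
  have h0 : (1 + (s - P) ^ 2 : ℝ) ≠ 0 := by positivity
  have hu : HasDerivAt (fun s : ℝ => s - P) 1 s := (hasDerivAt_id s).sub_const P
  have hq : HasDerivAt (fun s : ℝ => 2 * (1 + (s - P) ^ 2)) (4 * (s - P)) s := by
    have h1 := ((hu.pow 2).const_add 1).const_mul (2 : ℝ)
    refine h1.congr_deriv ?_
    push_cast
    ring
  have h2 : (2 * (1 + (s - P) ^ 2) : ℝ) ≠ 0 := by positivity
  have ha := hq.inv h2
  have hb := (hu.arctan).div_const 2
  have hc := hu.div hq h2
  have hd := ha.neg.add ((hb.add hc).const_mul P)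
  have he : G P = fun s : ℝ => -(2 * (1 + (s - P) ^ 2))⁻¹ +
      P * (Real.arctan (s - P) / 2 + (s - P) / (2 * (1 + (s - P) ^ 2))) := by
    funext t
    unfold G
    rw [one_div]
  rw [he]
  refine hd.congr_deriv ?_
  unfold g
  field_simp
  ring

lemma lim0 (P : ℝ) : Tendsto (fun s : ℝ => s - P) atTop atTop :=
  tendsto_atTop_add_const_right _ _ tendsto_id

lemma lim1 (P : ℝ) : Tendsto (fun s : ℝ => (s - P) / (2 * (1 + (s - P) ^ 2))) atTop (𝓝 0) := by
  have h1 : Tendsto (fun s : ℝ => (s - P)⁻¹) atTop (𝓝 0) := tendsto_inv_atTop_zero.comp (lim0 P)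
  refine squeeze_zero' ?_ ?_ h1
  · filter_upwards [eventually_gt_atTop P] with s hs
    have : 0 < s - P := by linarith
    positivity
  · filter_upwards [eventually_gt_atTop P] with s hs
    have h2 : 0 < s - P := by linarith
    rw [div_le_iff₀ (by positivity), inv_mul_eq_div, le_div_iff₀ h2]
    nlinarith

lemma lim2 (P : ℝ) : Tendsto (fun s : ℝ => 1 / (2 * (1 + (s - P) ^ 2))) atTop (𝓝 0) := by
  have h1 : Tendsto (fun s : ℝ => (s - P)⁻¹) atTop (𝓝 0) := tendsto_inv_atTop_zero.comp (lim0 P)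
  refine squeeze_zero' ?_ ?_ h1
  · filter_upwards with s
    positivity
  · filter_upwards [eventually_gt_atTop P] with s hs
    have h2 : 0 < s - P := by linarith
    rw [div_le_iff₀ (by positivity), inv_mul_eq_div, le_div_iff₀ h2]
    nlinarith [sq_nonneg (s - P - 1)]

lemma lim (P : ℝ) : Tendsto (G P) atTop (𝓝 (P * (Real.pi / 4))) := by
  have h3 : Tendsto (fun s : ℝ => Real.arctan (s - P)) atTop (𝓝 (Real.pi / 2)) :=
    (tendsto_nhds_of_tendsto_nhdsWithin Real.tendsto_arctan_atTop).comp (lim0 P)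
  have h4 := (lim2 P).neg.add (((h3.div_const 2).add (lim1 P)).const_mul P)
  have h5 : -0 + P * (Real.pi / 2 / 2 + 0) = P * (Real.pi / 4) := by ring
  rw [h5] at h4
  exact h4

lemma G0 (P : ℝ) : P * (Real.pi / 4) - G P 0 = 1 / 2 + Real.pi / 4 * P + P * Real.arctan P / 2 := by
  unfold G
  rw [zero_sub, Real.arctan_neg, neg_sq]
  have h0 : (1 + P ^ 2 : ℝ) ≠ 0 := by positivity
  field_simp
  ring

end YLin

open YLin in
theorem t_lin : S_lin := by
  intro P
  have hpos : ∀ s ∈ Set.Ioi (0 : ℝ), 0 ≤ g P s := by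
    intro s hs
    have hs' : (0 : ℝ) < s := hs
    unfold g
    positivity
  have hc : ContinuousWithinAt (G P) (Set.Ici 0) 0 :=
    (hasDeriv P 0).continuousAt.continuousWithinAt
  have hi := integrableOn_Ioi_deriv_of_nonneg hc (fun s _ => hasDeriv P s) hpos (lim P)
  have hv := integral_Ioi_of_hasDerivAt_of_nonneg hc (fun s _ => hasDeriv P s) hpos (lim P)
  have h1 : ∫⁻ s in Set.Ioi (0 : ℝ), ENNReal.ofReal s *
      ENNReal.ofReal (1 / (1 + (s - P) ^ 2) ^ 2) =
      ∫⁻ s in Set.Ioi (0 : ℝ), ENNReal.ofReal (g P s) := by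
    refine setLIntegral_congr_fun measurableSet_Ioi fun s hs => ?_
    have hs' : (0 : ℝ) < s := hs
    show ENNReal.ofReal s * ENNReal.ofReal (1 / (1 + (s - P) ^ 2) ^ 2) = ENNReal.ofReal (g P s)
    unfold g
    rw [ENNReal.ofReal_mul hs'.le]
  rw [h1, ← ofReal_integral_eq_lintegral_ofReal hi
    ((ae_restrict_iff' measurableSet_Ioi).2 (Eventually.of_forall hpos)), hv, G0]

end Pool.Agent.H652.PV
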