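import Pool.Agent.H652.PV.Yreal
import Pool.Agent.H652.PV.WRho

/-!
# Y1: the integral of a radial function over the four dimensional space
-/

set_option autoImplicit false

namespace Pool.Agent.H652.PV

open MeasureTheory Filter Topology

namespace YRad

/-- the map from `ℝ ^ 2 × ℝ ^ 2` to `ℝ ^ 4` -/
noncomputable def glue (p : (Fin 2 → ℝ) × (Fin 2 → ℝ)) : Fin 4 → ℝ :=
  MeasurableEquiv.piCongrLeft (fun _ : Fin 4 => ℝ) (finSumFinEquiv (m := 2) (n := 2))
    ((MeasurableEquiv.sumPiEquivProdPi (fun _ : Fin 2 ⊕ Fin 2 => ℝ)).symm p)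

lemma glue_mp : MeasurePreserving glue := by
  have h1 := volume_measurePreserving_sumPiEquivProdPi_symm (fun _ : Fin 2 ⊕ Fin 2 => ℝ)
  have h2 := volume_measurePreserving_piCongrLeft (fun _ : Fin 4 => ℝ)
    (finSumFinEquiv (m := 2) (n := 2))
  exact h2.comp h1

lemma glue_inl (p : (Fin 2 → ℝ) × (Fin 2 → ℝ)) (i : Fin 2) :
    glue p (finSumFinEquiv (m := 2) (n := 2) (Sum.inl i)) = p.1 i := by
  unfold glue
  exact Equiv.piCongrLeft_apply_apply (fun _ : Fin 4 => ℝ) (finSumFinEquiv (m := 2) (n := 2))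
    ((MeasurableEquiv.sumPiEquivProdPi (fun _ : Fin 2 ⊕ Fin 2 => ℝ)).symm p) (Sum.inl i)

lemma glue_inr (p : (Fin 2 → ℝ) × (Fin 2 → ℝ)) (i : Fin 2) :
    glue p (finSumFinEquiv (m := 2) (n := 2) (Sum.inr i)) = p.2 i := by
  unfold glue
  exact Equiv.piCongrLeft_apply_apply (fun _ : Fin 4 => ℝ) (finSumFinEquiv (m := 2) (n := 2))
    ((MeasurableEquiv.sumPiEquivProdPi (fun _ : Fin 2 ⊕ Fin 2 => ℝ)).symm p) (Sum.inr i)

lemma shift (φ : ℝ → ENNReal) (a : ℝ) :
    ∫⁻ h in Set.Ioi (0 : ℝ), φ (a + h) = ∫⁻ s, (Set.Ioi a).indicator φ s := by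
  rw [← lintegral_indicator measurableSet_Ioi,
    ← lintegral_add_left_eq_self (fun s => (Set.Ioi a).indicator φ s) a]
  refine lintegral_congr fun h => ?_
  by_cases h0 : 0 < h
  · rw [Set.indicator_of_mem (show h ∈ Set.Ioi (0 : ℝ) from h0),
      Set.indicator_of_mem (show a + h ∈ Set.Ioi a by simpa using h0)]
  · rw [Set.indicator_of_notMem (show h ∉ Set.Ioi (0 : ℝ) from h0),
      Set.indicator_of_notMem (show a + h ∉ Set.Ioi a by simpa using h0)]

lemma dbl (φ : ℝ → ENNReal) (hφ : Measurable φ) :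
    ∫⁻ a in Set.Ioi (0 : ℝ), ∫⁻ h in Set.Ioi (0 : ℝ), φ (a + h) =
      ∫⁻ s in Set.Ioi (0 : ℝ), ENNReal.ofReal s * φ s := by
  simp only [shift]
  have hm : Measurable (Function.uncurry fun a s : ℝ => (Set.Ioi a).indicator φ s) := by
    have : (Function.uncurry fun a s : ℝ => (Set.Ioi a).indicator φ s) =
        {p : ℝ × ℝ | p.1 < p.2}.indicator fun p => φ p.2 := by
      funext p
      rfl
    rw [this]
    exact (hφ.comp measurable_snd).indicator (measurableSet_lt measurable_fst measurable_snd)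
  rw [lintegral_lintegral_swap hm.aemeasurable, ← lintegral_indicator measurableSet_Ioi]
  refine lintegral_congr fun s => ?_
  have h1 : ∀ a : ℝ, (Set.Ioi a).indicator φ s = (Set.Iio s).indicator (fun _ => φ s) a := by
    intro a
    by_cases h : a < s
    · rw [Set.indicator_of_mem (show s ∈ Set.Ioi a from h),
        Set.indicator_of_mem (show a ∈ Set.Iio s from h)]
    · rw [Set.indicator_of_notMem (show s ∉ Set.Ioi a from h),
        Set.indicator_of_notMem (show a ∉ Set.Iio s from h)]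
  simp only [h1]
  rw [lintegral_indicator measurableSet_Iio, lintegral_const, Measure.restrict_restrict
    measurableSet_Iio, Measure.restrict_apply MeasurableSet.univ, Set.univ_inter,
    Set.Iio_inter_Ioi, Real.volume_Ioo, sub_zero]
  by_cases h0 : 0 < s
  · rw [Set.indicator_of_mem (show s ∈ Set.Ioi (0 : ℝ) from h0), mul_comm]
  · rw [Set.indicator_of_notMem (show s ∉ Set.Ioi (0 : ℝ) from h0),
      ENNReal.ofReal_of_nonpos (not_lt.1 h0), mul_zero]

end YRad

open YRad in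
theorem t_rad : S_rad := by
  intro φ hφ
  have hF : Measurable fun w : Fin 4 → ℝ => φ (w 0 ^ 2 + w 1 ^ 2 + w 2 ^ 2 + w 3 ^ 2) :=
    hφ.comp (by fun_prop)
  rw [← glue_mp.lintegral_comp hF]
  have hg : ∀ p : (Fin 2 → ℝ) × (Fin 2 → ℝ),
      φ (glue p 0 ^ 2 + glue p 1 ^ 2 + glue p 2 ^ 2 + glue p 3 ^ 2) =
        φ ((p.1 0 ^ 2 + p.1 1 ^ 2) + (p.2 0 ^ 2 + p.2 1 ^ 2)) := by
    intro p
    have e0 : glue p 0 = p.1 0 := glue_inl p 0
    have e1 : glue p 1 = p.1 1 := glue_inl p 1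
    have e2 : glue p 2 = p.2 0 := glue_inr p 0
    have e3 : glue p 3 = p.2 1 := glue_inr p 1
    rw [e0, e1, e2, e3]
    congr 1
    ring
  simp only [hg]
  have hG : Measurable fun p : (Fin 2 → ℝ) × (Fin 2 → ℝ) =>
      φ ((p.1 0 ^ 2 + p.1 1 ^ 2) + (p.2 0 ^ 2 + p.2 1 ^ 2)) := hφ.comp (by fun_prop)
  rw [Measure.volume_eq_prod, lintegral_prod _ hG.aemeasurable]
  have hi : ∀ a : ℝ, ∫⁻ y : Fin 2 → ℝ, φ (a + (y 0 ^ 2 + y 1 ^ 2)) =
      ENNReal.ofReal Real.pi * ∫⁻ h in Set.Ioi (0 : ℝ), φ (a + h) := fun a =>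
    WRho.plane (fun h => φ (a + h)) (hφ.comp (by fun_prop))
  simp only [hi]
  have hψ : Measurable fun a : ℝ =>
      ENNReal.ofReal Real.pi * ∫⁻ h in Set.Ioi (0 : ℝ), φ (a + h) := by
    refine Measurable.const_mul ?_ _
    have : Measurable (Function.uncurry fun a h : ℝ => φ (a + h)) :=
      hφ.comp (measurable_fst.add measurable_snd)
    exact Measurable.lintegral_prod_right this
  rw [WRho.plane (fun a => ENNReal.ofReal Real.pi * ∫⁻ h in Set.Ioi (0 : ℝ), φ (a + h)) hψ]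
  have hψ' : Measurable fun a : ℝ => ∫⁻ h in Set.Ioi (0 : ℝ), φ (a + h) := by
    have : Measurable (Function.uncurry fun a h : ℝ => φ (a + h)) :=
      hφ.comp (measurable_fst.add measurable_snd)
    exact Measurable.lintegral_prod_right this
  rw [lintegral_const_mul _ hψ', dbl φ hφ, ← mul_assoc, ← ENNReal.ofReal_mul Real.pi_pos.le, ← sq]

end Pool.Agent.H652.PV
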