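import Pool.Agent.H652.PV.Single
import Pool.Agent.H652.PV.YRad
import Pool.Agent.H652.PV.YLin
import Pool.Agent.H652.PV.YCod

/-!
# Periods as differences of two integrals of reciprocals of polynomials: conclusion
-/

set_option autoImplicit false
set_option synthInstance.maxSize 2000

namespace Pool.Agent.H652.PV

open Pool.Agent.TH960.PE MeasureTheory

namespace Single

open Whole

lemma rec_ratfn (n : ℕ) (p : Poly) (h : Rcp n p) : RatFn n (natP 1) p ∧
    ∫ x : Fin n → ℝ, pev (ext x) (natP 1) / pev (ext x) p =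
      ∫ x : Fin n → ℝ, 1 / pev (ext x) p := by
  obtain ⟨p1, p2, p3, p4⟩ := h
  have e : ∀ X : ℕ → ℝ, pev X (natP 1) / pev X p = 1 / pev X p := fun X => by
    rw [pev_natP, Nat.cast_one]
  refine ⟨⟨⟨isPoly_natP _ _, isInt_natP 1⟩, ⟨p1, p2⟩, p3, ?_⟩, ?_⟩
  · simp only [e]
    exact p4
  · simp only [e]

lemma code1_p : Primrec fun p : ℕ × Poly => ((p.1, natP 1, p.2, []) : Code) :=
  (Primrec.fst.pair ((Primrec.const (natP 1)).pair (Primrec.snd.pair (Primrec.const []))) :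
      Primrec fun p : ℕ × Poly => ((p.1, natP 1, p.2, []) : Code))

lemma code4_p : Primrec fun p : ℕ × Poly × Poly =>
    ((((p.1, natP 1, p.2.1, []), zeroCode), ((p.1, natP 1, p.2.2, []), zeroCode)) : Pres × Pres) :=
  (((code1_p.comp (Primrec.fst.pair (Primrec.fst.comp Primrec.snd))).pair
    (Primrec.const zeroCode)).pair ((code1_p.comp (Primrec.fst.pair
      (Primrec.snd.comp Primrec.snd))).pair (Primrec.const zeroCode))).of_eq fun p => rfl

theorem rec_of_eq (h : AlgDecidable (fun a b => a = b)) : RecDec (· = ·) := by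
  obtain ⟨f, hf, hd⟩ := h
  refine ⟨fun p => f (((p.1, natP 1, p.2.1, []), zeroCode), ((p.1, natP 1, p.2.2, []), zeroCode)),
    hf.comp code4_p.to_comp, fun n p q hp hq => ?_⟩
  obtain ⟨a1, a2⟩ := rec_ratfn n p hp
  obtain ⟨b1, b2⟩ := rec_ratfn n q hq
  obtain ⟨c1, c2⟩ := space_code n _ _ a1
  obtain ⟨d1, d2⟩ := space_code n _ _ b1
  obtain ⟨p1, p2, p3⟩ := pair_val _ _ c1 d1
  obtain ⟨c, hc, h1⟩ := hd _ _ p1 p2
  refine ⟨c, hc, h1.trans (p3.trans ?_)⟩
  rw [c2, d2, a2, b2]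

theorem rec_of_le (h : AlgDecidable (fun a b => a.re ≤ b.re)) : RecDec (· ≤ ·) := by
  obtain ⟨f, hf, hd⟩ := h
  refine ⟨fun p => f (((p.1, natP 1, p.2.1, []), zeroCode), ((p.1, natP 1, p.2.2, []), zeroCode)),
    hf.comp code4_p.to_comp, fun n p q hp hq => ?_⟩
  obtain ⟨a1, a2⟩ := rec_ratfn n p hp
  obtain ⟨b1, b2⟩ := rec_ratfn n q hq
  obtain ⟨c1, c2⟩ := space_code n _ _ a1
  obtain ⟨d1, d2⟩ := space_code n _ _ b1
  obtain ⟨p1, p2, p3⟩ := pair_le _ _ c1 d1
  obtain ⟨c, hc, h1⟩ := hd _ _ p1 p2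
  refine ⟨c, hc, h1.trans (p3.trans ?_)⟩
  rw [c2, d2, a2, b2]

/-- the reduction from two volumes -/
def yv (p : ℕ × Poly × Poly) : ℕ × Poly × Poly := yy (sp p)

lemma yv_p : Primrec yv := (yy_p t_ycod).comp (sp_p t_cod)

lemma yv_spec (p : ℕ × Poly × Poly) (hF : Fine p.1 p.2.1) (hG : Fine p.1 p.2.2) :
    RecForm (Real.pi ^ 5 / 2 * ((volume (reg p.1 p.2.1)).toReal - (volume (reg p.1 p.2.2)).toReal))
      (yv p) := by
  obtain ⟨a, b⟩ := Recip.sp_spec' p hF hG
  exact form t_rad t_lin t_ycod (sp p) a b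

theorem gen_rec {R : ENNReal → ENNReal → Prop} {R' : ℝ → ℝ → Prop}
    (hR : ∀ (C u v : ℝ) (x y : ENNReal), 0 < C → x ≠ ⊤ → y ≠ ⊤ →
      u - v = C * (x.toReal - y.toReal) → (R' u v ↔ R x y)) (h : RecDec R') :
    Maps.GenVol R := by
  obtain ⟨f, hf, hd⟩ := h
  refine ⟨fun p => f (yv p), hf.comp yv_p.to_comp, fun n F G hF hG => ?_⟩
  obtain ⟨a1, a2, a3⟩ := yv_spec (n, F, G) hF hG
  obtain ⟨r, hr, h5⟩ := hd _ _ _ a1 a2
  exact ⟨r, hr, h5.trans (hR _ _ _ _ _ (by positivity) hF.2.2 hG.2.2 a3)⟩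

/-- **Equality.** -/
theorem single_eq : List.TFAE [AlgDecidable (fun a b => a = b), SpaceDec (· = ·),
    RecDec (· = ·)] := by
  tfae_have 1 ↔ 2 := space_eq
  tfae_have 1 → 3 := rec_of_eq
  tfae_have 3 → 1 := fun h => decidable_of_volumes (gen_rec (R' := (· = ·))
    (fun C u v x y hC hx hy e => by
      rw [← ENNReal.toReal_eq_toReal_iff' hx hy, ← sub_eq_zero, e, mul_eq_zero, sub_eq_zero]
      exact ⟨fun h => h.resolve_left hC.ne', Or.inr⟩) h)
  tfae_finish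

/-- **Order.** -/
theorem single_le : List.TFAE [AlgDecidable (fun a b => a.re ≤ b.re), SpaceDec (· ≤ ·),
    RecDec (· ≤ ·)] := by
  tfae_have 1 ↔ 2 := space_le
  tfae_have 1 → 3 := rec_of_le
  tfae_have 3 → 1 := fun h => order_of_volumes (gen_rec (R' := (· ≤ ·))
    (fun C u v x y hC hx hy e => by
      rw [← ENNReal.toReal_le_toReal hx hy, ← sub_nonpos, e]
      constructor
      · intro h
        by_contra h7
        have := mul_pos hC (sub_pos.2 (not_le.1 h7))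
        linarith
      · intro h
        have := mul_nonneg hC.le (sub_nonneg.2 h)
        nlinarith) h)
  tfae_finish

/-- **Normal form.** -/
theorem single_normal : ∃ R : Code → ℕ × Poly × Poly, Primrec R ∧
    ∀ c, Adm c → RecForm (Real.pi ^ 5 / 2 * val c) (R c) := normal_rec t_rad t_lin t_ycod

/-- **Many-one reduction.** -/
theorem single_pair : ∃ R : Pres × Pres → ℕ × Poly × Poly, Primrec R ∧
    ∀ p q, PAdm p → PAdm q → RecForm (Real.pi ^ 5 / 2 * ‖pval p - pval q‖ ^ 2) (R (p, q)) :=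
  pair_rec t_rad t_lin t_ycod

end Single

end Pool.Agent.H652.PV
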