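import Pool.Agent.H652.PV.Wreal

/-!
# Rational functions as differences of integrals of reciprocals: real analysis
-/

set_option autoImplicit false

namespace Pool.Agent.H652.PV

open MeasureTheory

/-- Y1: radial functions on `ℝ ^ 4` -/
def S_rad : Prop :=
  ∀ φ : ℝ → ENNReal, Measurable φ →
    ∫⁻ w : Fin 4 → ℝ, φ (w 0 ^ 2 + w 1 ^ 2 + w 2 ^ 2 + w 3 ^ 2) =
      ENNReal.ofReal (Real.pi ^ 2) * ∫⁻ s in Set.Ioi (0 : ℝ), ENNReal.ofReal s * φ s

/-- Y2: an integral -/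
def S_lin : Prop :=
  ∀ P : ℝ, ∫⁻ s in Set.Ioi (0 : ℝ), ENNReal.ofReal s *
      ENNReal.ofReal (1 / (1 + (s - P) ^ 2) ^ 2) =
    ENNReal.ofReal (1 / 2 + Real.pi / 4 * P + P * Real.arctan P / 2)

end Pool.Agent.H652.PV
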