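import Pool.Agent.H652.PV.WCod
import Pool.Agent.H652.PV.Yreal

/-!
# Rational functions as differences of integrals of reciprocals: definitions
-/

set_option autoImplicit false
set_option synthInstance.maxSize 2000

namespace Pool.Agent.H652.PV

open Pool.Agent.TH960.PE MeasureTheory

/-- `x_n ^ 2 + x_(n+1) ^ 2 + x_(n+2) ^ 2 + x_(n+3) ^ 2` -/
def s4P (n : ℕ) : Poly :=
  sqP (varP n) ++ (sqP (varP (n + 1)) ++ (sqP (varP (n + 2)) ++ sqP (varP (n + 3))))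

/-- the polynomial `Q ∏ (1 + x_i ^ 2) (1 + (s - P ∏ (1 + x_i ^ 2)) ^ 2) ^ 2` -/
def y1P (n : ℕ) (P Q : Poly) : Poly :=
  mulS (mulS Q (wP n)) (sqP (natP 1 ++ sqP (subP (s4P n) (mulS P (wP n)))))

/-- Y3: the polynomial -/
def S_ycod : Prop :=
  (∀ (n : ℕ) (P Q : Poly), IsPoly n P → IsPoly n Q → IsPoly (n + 4) (y1P n P Q)) ∧
  (∀ (n : ℕ) (P Q : Poly), IsInt P → IsInt Q → IsInt (y1P n P Q)) ∧
  (∀ (n : ℕ) (P Q : Poly) (X : ℕ → ℝ), pev X (y1P n P Q) =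
    pev X Q * (∏ i ∈ Finset.range n, (1 + X i ^ 2)) *
      (1 + (X n ^ 2 + X (n + 1) ^ 2 + X (n + 2) ^ 2 + X (n + 3) ^ 2 -
        pev X P * ∏ i ∈ Finset.range n, (1 + X i ^ 2)) ^ 2) ^ 2) ∧
  Primrec (fun p : ℕ × Poly × Poly => y1P p.1 p.2.1 p.2.2)

end Pool.Agent.H652.PV
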