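import Pool.Agent.H652.PV.RecFin
import Pool.Agent.H652.PV.Ydefs

/-!
# Periods as differences of two integrals of reciprocals of polynomials
-/

set_option autoImplicit false
set_option synthInstance.maxSize 2000

namespace Pool.Agent.H652.PV

open Pool.Agent.TH960.PE MeasureTheory

/-- There is an algorithm which decides, for two integer polynomials `p ≥ 1`, `q ≥ 1` in `n` variables
such that `1 / p` and `1 / q` are integrable over `ℝ ^ n`, whether the relation `R` holds for the integrals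
of `1 / p` and of `1 / q` over `ℝ ^ n`. -/
def RecDec (R : ℝ → ℝ → Prop) : Prop :=
  ∃ f : (ℕ × Poly × Poly) →. Bool, Partrec f ∧ ∀ (n : ℕ) (p q : Poly), Rcp n p → Rcp n q →
    ∃ b ∈ f (n, p, q), (b = true ↔
      R (∫ x : Fin n → ℝ, 1 / pev (ext x) p) (∫ x : Fin n → ℝ, 1 / pev (ext x) q))

namespace Single

/-- the value of the integral over `ℝ ^ 4`, divided by `π ^ 2` -/
noncomputable def LL (P : ℝ) : ℝ := 1 / 2 + Real.pi / 4 * P + P * Real.arctan P / 2

lemma LL_nonneg (P : ℝ) : 0 ≤ LL P := by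
  unfold LL
  rcases le_or_gt 0 P with h | h
  · have h1 : 0 ≤ Real.arctan P := Real.arctan_nonneg.2 h
    have := Real.pi_pos
    positivity
  · have h1 : 0 < -P := by linarith
    have h2 := Real.arctan_inv_of_pos h1
    have h3 : Real.arctan (-P)⁻¹ ≤ (-P)⁻¹ := WRho.arctan_le (inv_nonneg.2 h1.le)
    rw [h2, Real.arctan_neg] at h3
    have h4 : (Real.pi / 2 + Real.arctan P) * (-P) ≤ 1 := by
      have h5 := mul_le_mul_of_nonneg_right h3 h1.le
      rw [inv_mul_cancel₀ h1.ne'] at h5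
      linarith
    nlinarith

lemma LL_le (P : ℝ) : LL P ≤ 1 / 2 + Real.pi / 2 * |P| := by
  unfold LL
  have h1 := Real.arctan_lt_pi_div_two P
  have h2 := Real.neg_pi_div_two_lt_arctan P
  have hp := Real.pi_pos
  rcases le_or_gt 0 P with h | h
  · rw [abs_of_nonneg h]
    nlinarith
  · rw [abs_of_neg h]
    nlinarith

lemma LL_sub (P : ℝ) : LL P - LL (-P) = Real.pi / 2 * P := by
  unfold LL
  rw [Real.arctan_neg]
  ring

lemma measurable_LL : Measurable LL := by
  unfold LL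
  fun_prop

/-- integration over `ℝ ^ 4` -/
lemma gen4 (h1 : S_rad) (h2 : S_lin) (n : ℕ) (a q : (ℕ → ℝ) → ℝ) (ha : Measurable a)
    (hq : Measurable q) (da : ∀ X Y : ℕ → ℝ, (∀ i < n, X i = Y i) → a X = a Y)
    (dq : ∀ X Y : ℕ → ℝ, (∀ i < n, X i = Y i) → q X = q Y) (q0 : ∀ X, 1 ≤ q X)
    (hI : Integrable fun x : Fin n → ℝ => 1 / q (ext x) * LL (a (ext x))) :
    Integrable (fun z : Fin (n + 4) → ℝ => 1 / (q (ext z) * (1 + (ext z n ^ 2 + ext z (n + 1) ^ 2 +
      ext z (n + 2) ^ 2 + ext z (n + 3) ^ 2 - a (ext z)) ^ 2) ^ 2)) ∧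
    ∫ z : Fin (n + 4) → ℝ, 1 / (q (ext z) * (1 + (ext z n ^ 2 + ext z (n + 1) ^ 2 +
      ext z (n + 2) ^ 2 + ext z (n + 3) ^ 2 - a (ext z)) ^ 2) ^ 2) =
        Real.pi ^ 2 * ∫ x : Fin n → ℝ, 1 / q (ext x) * LL (a (ext x)) := by
  let g : (ℕ → ℝ) → ℝ := fun X => 1 / (q X * (1 + (X n ^ 2 + X (n + 1) ^ 2 +
      X (n + 2) ^ 2 + X (n + 3) ^ 2 - a X) ^ 2) ^ 2)
  have m : ∀ i : ℕ, Measurable fun X : ℕ → ℝ => X i ^ 2 := fun i =>
    (measurable_pi_apply i).pow_const 2
  have hm : Measurable g :=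
    measurable_const.div (hq.mul ((measurable_const.add
      ((((((m n).add (m (n + 1))).add (m (n + 2))).add (m (n + 3))).sub ha).pow_const 2)).pow_const 2))
  have g0 : ∀ X, 0 ≤ g X := fun X => by
    have := q0 X
    change 0 ≤ 1 / _
    positivity
  have hg : ∀ (X : ℕ → ℝ) (y : Fin 4 → ℝ), g (glue n X (ext y)) =
      1 / (q X * (1 + (y 0 ^ 2 + y 1 ^ 2 + y 2 ^ 2 + y 3 ^ 2 - a X) ^ 2) ^ 2) := by
    intro X y
    have e : ∀ i < n, glue n X (ext y) i = X i := fun i hi => by rw [glue, if_pos hi]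
    have e0 : glue n X (ext y) n = y 0 := by
      rw [glue, if_neg (lt_irrefl n), Nat.sub_self]
      rfl
    have e1 : glue n X (ext y) (n + 1) = y 1 := by
      rw [glue, if_neg (by omega), show n + 1 - n = 1 by omega]
      rfl
    have e2 : glue n X (ext y) (n + 2) = y 2 := by
      rw [glue, if_neg (by omega), show n + 2 - n = 2 by omega]
      rfl
    have e3 : glue n X (ext y) (n + 3) = y 3 := by
      rw [glue, if_neg (by omega), show n + 3 - n = 3 by omega]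
      rfl
    change 1 / (q _ * (1 + (glue n X (ext y) n ^ 2 + glue n X (ext y) (n + 1) ^ 2 +
      glue n X (ext y) (n + 2) ^ 2 + glue n X (ext y) (n + 3) ^ 2 - a _) ^ 2) ^ 2) = _
    rw [da _ _ e, dq _ _ e, e0, e1, e2, e3]
  have key : ∫⁻ z : Fin (n + 4) → ℝ, ENNReal.ofReal (g (ext z)) =
      ∫⁻ x : Fin n → ℝ, ENNReal.ofReal (Real.pi ^ 2 * (1 / q (ext x) * LL (a (ext x)))) := by
    rw [lint_split n 4 (fun X => ENNReal.ofReal (g X)) hm.ennreal_ofReal]
    refine lintegral_congr fun x => ?_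
    have q1 : 0 < q (ext x) := lt_of_lt_of_le one_pos (q0 _)
    have e : ∀ y : Fin 4 → ℝ, ENNReal.ofReal (g (glue n (ext x) (ext y))) =
        ENNReal.ofReal (1 / q (ext x)) * ENNReal.ofReal
          (1 / (1 + (y 0 ^ 2 + y 1 ^ 2 + y 2 ^ 2 + y 3 ^ 2 - a (ext x)) ^ 2) ^ 2) := by
      intro y
      rw [hg, ← ENNReal.ofReal_mul (by positivity)]
      congr 1
      rw [one_div_mul_one_div]
    simp only [e]
    have mφ : Measurable fun s : ℝ => ENNReal.ofReal (1 / (1 + (s - a (ext x)) ^ 2) ^ 2) := by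
      fun_prop
    have h3 := h1 (fun s => ENNReal.ofReal (1 / (1 + (s - a (ext x)) ^ 2) ^ 2)) mφ
    rw [lintegral_const_mul _ (by fun_prop)]
    rw [h3, h2]
    rw [← ENNReal.ofReal_mul (by positivity), ← ENNReal.ofReal_mul (by positivity)]
    congr 1
    unfold LL
    ring
  have hI2 : Integrable fun x : Fin n → ℝ => Real.pi ^ 2 * (1 / q (ext x) * LL (a (ext x))) :=
    hI.const_mul _
  have n2 : ∀ x : Fin n → ℝ, 0 ≤ Real.pi ^ 2 * (1 / q (ext x) * LL (a (ext x))) := fun x => by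
    have := q0 (ext x)
    have := LL_nonneg (a (ext x))
    positivity
  have hfin : ∫⁻ z : Fin (n + 4) → ℝ, ENNReal.ofReal (g (ext z)) ≠ ⊤ := by
    rw [key, ← ofReal_integral_eq_lintegral_ofReal hI2 (Filter.Eventually.of_forall n2)]
    exact ENNReal.ofReal_ne_top
  have mz : Measurable fun z : Fin (n + 4) → ℝ => g (ext z) := hm.comp (measurable_ext (n + 4))
  constructor
  · change Integrable fun z : Fin (n + 4) → ℝ => g (ext z)
    refine ⟨mz.aestronglyMeasurable, ?_⟩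
    rw [hasFiniteIntegral_iff_ofReal (Filter.Eventually.of_forall fun z => g0 (ext z))]
    exact hfin.lt_top
  · change ∫ z : Fin (n + 4) → ℝ, g (ext z) = _
    rw [integral_eq_lintegral_of_nonneg_ae (Filter.Eventually.of_forall fun z => g0 (ext z))
      mz.aestronglyMeasurable, key,
      ← ofReal_integral_eq_lintegral_ofReal hI2 (Filter.Eventually.of_forall n2),
      ENNReal.toReal_ofReal (integral_nonneg n2), integral_const_mul]

/-- the weight -/
noncomputable def ww (n : ℕ) (X : ℕ → ℝ) : ℝ := ∏ i ∈ Finset.range n, (1 + X i ^ 2)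

lemma one_le_ww (n : ℕ) (X : ℕ → ℝ) : 1 ≤ ww n X := by
  have h := Finset.prod_le_prod (s := Finset.range n) (f := fun _ => (1 : ℝ))
    (g := fun i => 1 + X i ^ 2) (fun i _ => zero_le_one)
    (fun i _ => by nlinarith [sq_nonneg (X i)])
  simpa [ww] using h

lemma measurable_ww (n : ℕ) : Measurable (ww n) :=
  Finset.measurable_prod _ fun i _ => measurable_const.add ((measurable_pi_apply i).pow_const 2)

lemma ww_congr (n : ℕ) (X Y : ℕ → ℝ) (h : ∀ i < n, X i = Y i) : ww n X = ww n Y :=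
  Finset.prod_congr rfl fun i hi => by rw [h i (Finset.mem_range.1 hi)]

lemma integrable_ww (n : ℕ) : Integrable fun x : Fin n → ℝ => 1 / ww n (ext x) := by
  have h : Integrable fun x : Fin n → ℝ => ∏ i : Fin n, (1 + x i ^ 2)⁻¹ :=
    Integrable.fintype_prod (f := fun (_ : Fin n) (t : ℝ) => (1 + t ^ 2)⁻¹)
      fun i => integrable_inv_one_add_sq
  refine h.congr (Filter.Eventually.of_forall fun x => ?_)
  have e1 : ∏ i ∈ Finset.range n, (1 + ext x i ^ 2) = ∏ i : Fin n, (1 + x i ^ 2) := by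
    rw [Finset.prod_range]
    refine Finset.prod_congr rfl fun i _ => ?_
    have : ext x (i : ℕ) = x i := by
      unfold ext
      rw [dif_pos i.2]
    rw [this]
  change ∏ i : Fin n, (1 + x i ^ 2)⁻¹ = 1 / ∏ i ∈ Finset.range n, (1 + ext x i ^ 2)
  rw [e1, one_div, Finset.prod_inv_distrib]

/-- the two polynomials -/
def yy (p : ℕ × Poly × Poly) : ℕ × Poly × Poly :=
  (p.1 + 4, y1P p.1 p.2.1 p.2.2, y1P p.1 (negP p.2.1) p.2.2)

theorem yy_spec (h1 : S_rad) (h2 : S_lin) (h3 : S_ycod) (n : ℕ) (P Q : Poly) (h : RatFn n P Q) :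
    Rcp (n + 4) (y1P n P Q) ∧ Rcp (n + 4) (y1P n (negP P) Q) ∧
      (∫ x : Fin (n + 4) → ℝ, 1 / pev (ext x) (y1P n P Q)) -
        (∫ x : Fin (n + 4) → ℝ, 1 / pev (ext x) (y1P n (negP P) Q)) =
          Real.pi ^ 3 / 2 * ∫ x : Fin n → ℝ, pev (ext x) P / pev (ext x) Q := by
  obtain ⟨⟨p1, p2⟩, ⟨q1, q2⟩, q3, hI⟩ := h
  obtain ⟨c1, c2, c3, -⟩ := h3
  have hq : ∀ X : ℕ → ℝ, 1 ≤ pev X Q * ww n X := fun X =>
    one_le_mul_of_one_le_of_one_le (q3 X) (one_le_ww n X)
  have mq : Measurable fun X : ℕ → ℝ => pev X Q * ww n X := (measurable_pev Q).mul (measurable_ww n)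
  have ma : Measurable fun X : ℕ → ℝ => pev X P * ww n X := (measurable_pev P).mul (measurable_ww n)
  have dq : ∀ X Y : ℕ → ℝ, (∀ i < n, X i = Y i) → pev X Q * ww n X = pev Y Q * ww n Y :=
    fun X Y e => by rw [pev_congr n Q q1 X Y e, ww_congr n X Y e]
  have da : ∀ X Y : ℕ → ℝ, (∀ i < n, X i = Y i) → pev X P * ww n X = pev Y P * ww n Y :=
    fun X Y e => by rw [pev_congr n P p1 X Y e, ww_congr n X Y e]
  have hquot : ∀ X : ℕ → ℝ, pev X P * ww n X / (pev X Q * ww n X) = pev X P / pev X Q := fun X =>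
    mul_div_mul_right _ _ (lt_of_lt_of_le one_pos (one_le_ww n X)).ne'
  -- integrability
  have int : ∀ a : (ℕ → ℝ) → ℝ, Measurable a → (∀ X, |a X| = |pev X P * ww n X|) →
      Integrable fun x : Fin n → ℝ => 1 / (pev (ext x) Q * ww n (ext x)) * LL (a (ext x)) := by
    intro a hma haa
    have i1 : Integrable fun x : Fin n → ℝ => 1 / 2 * (1 / ww n (ext x)) +
        Real.pi / 2 * |pev (ext x) P / pev (ext x) Q| :=
      ((integrable_ww n).const_mul _).add (hI.abs.const_mul _)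
    refine i1.mono' ?_ (Filter.Eventually.of_forall fun x => ?_)
    · exact ((measurable_const.div (mq.comp (measurable_ext n))).mul
        (measurable_LL.comp (hma.comp (measurable_ext n)))).aestronglyMeasurable
    · have hp : 0 < pev (ext x) Q * ww n (ext x) := lt_of_lt_of_le one_pos (hq _)
      have hw : 0 < ww n (ext x) := lt_of_lt_of_le one_pos (one_le_ww n _)
      rw [Real.norm_of_nonneg (mul_nonneg (by positivity) (LL_nonneg _))]
      have h5 : 1 / (pev (ext x) Q * ww n (ext x)) * LL (a (ext x)) ≤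
          1 / (pev (ext x) Q * ww n (ext x)) * (1 / 2 + Real.pi / 2 * |a (ext x)|) :=
        mul_le_mul_of_nonneg_left (LL_le _) (by positivity)
      refine h5.trans ?_
      rw [mul_add]
      refine add_le_add ?_ (le_of_eq ?_)
      · have h6 : 1 / (pev (ext x) Q * ww n (ext x)) ≤ 1 / ww n (ext x) := by
          apply one_div_le_one_div_of_le hw
          nlinarith [q3 (ext x)]
        linarith
      · rw [haa, ← hquot, abs_div, abs_of_pos hp]
        field_simp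
  have v : ∀ (P' : Poly) (X : ℕ → ℝ), 1 / pev X (y1P n P' Q) =
      1 / (pev X Q * ww n X * (1 + (X n ^ 2 + X (n + 1) ^ 2 + X (n + 2) ^ 2 + X (n + 3) ^ 2 -
        pev X P' * ww n X) ^ 2) ^ 2) := fun P' X => by
    rw [c3]
    rfl
  have one : ∀ (P' : Poly) (X : ℕ → ℝ), 1 ≤ pev X (y1P n P' Q) := fun P' X => by
    rw [c3]
    refine one_le_mul_of_one_le_of_one_le (hq X) (one_le_pow₀ ?_)
    nlinarith [sq_nonneg (X n ^ 2 + X (n + 1) ^ 2 + X (n + 2) ^ 2 + X (n + 3) ^ 2 -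
        pev X P' * ∏ i ∈ Finset.range n, (1 + X i ^ 2))]
  have vneg : ∀ X : ℕ → ℝ, pev X (negP P) * ww n X = -(pev X P * ww n X) := fun X => by
    rw [pev_negP]
    ring
  have j1 := int (fun X => pev X P * ww n X) ma fun X => rfl
  have j2 := int (fun X => pev X (negP P) * ww n X)
    ((measurable_pev (negP P)).mul (measurable_ww n)) fun X => by rw [vneg, abs_neg]
  obtain ⟨a1, a2⟩ := gen4 h1 h2 n (fun X => pev X P * ww n X) (fun X => pev X Q * ww n X) ma mq da dq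
    hq j1
  obtain ⟨b1, b2⟩ := gen4 h1 h2 n (fun X => pev X (negP P) * ww n X) (fun X => pev X Q * ww n X)
    ((measurable_pev (negP P)).mul (measurable_ww n)) mq
    (fun X Y e => by rw [pev_congr n (negP P) (isPoly_negP p1) X Y e, ww_congr n X Y e]) dq hq j2
  refine ⟨⟨c1 n P Q p1 q1, c2 n P Q p2 q2, one P, ?_⟩,
    ⟨c1 n _ Q (isPoly_negP p1) q1, c2 n _ Q (isInt_negP p2) q2, one _, ?_⟩, ?_⟩
  · simp only [v]
    exact a1
  · simp only [v]
    exact b1
  simp only [v]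
  rw [a2, b2, ← mul_sub, ← integral_sub j1 j2]
  have e : ∀ x : Fin n → ℝ, 1 / (pev (ext x) Q * ww n (ext x)) * LL (pev (ext x) P * ww n (ext x)) -
      1 / (pev (ext x) Q * ww n (ext x)) * LL (pev (ext x) (negP P) * ww n (ext x)) =
        Real.pi / 2 * (pev (ext x) P / pev (ext x) Q) := by
    intro x
    rw [vneg, ← mul_sub, LL_sub, ← hquot]
    ring
  simp only [e]
  rw [integral_const_mul]
  ring

theorem yy_spec' (h1 : S_rad) (h2 : S_lin) (h3 : S_ycod) (p : ℕ × Poly × Poly)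
    (h : RatFn p.1 p.2.1 p.2.2) :
    Rcp (yy p).1 (yy p).2.1 ∧ Rcp (yy p).1 (yy p).2.2 ∧
      (∫ x : Fin (yy p).1 → ℝ, 1 / pev (ext x) (yy p).2.1) -
        (∫ x : Fin (yy p).1 → ℝ, 1 / pev (ext x) (yy p).2.2) =
          Real.pi ^ 3 / 2 * ∫ x : Fin p.1 → ℝ, pev (ext x) p.2.1 / pev (ext x) p.2.2 := by
  obtain ⟨n, P, Q⟩ := p
  exact yy_spec h1 h2 h3 n P Q h

section

attribute [local irreducible] y1P

lemma yy_p (h3 : S_ycod) : Primrec yy := by
  obtain ⟨-, -, -, h⟩ := h3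
  have n : Primrec fun p : ℕ × Poly × Poly => p.1 := Primrec.fst
  have P : Primrec fun p : ℕ × Poly × Poly => p.2.1 := Primrec.fst.comp Primrec.snd
  have Q : Primrec fun p : ℕ × Poly × Poly => p.2.2 := Primrec.snd.comp Primrec.snd
  have a : Primrec fun p : ℕ × Poly × Poly => y1P p.1 p.2.1 p.2.2 :=
    (h.comp (n.pair (P.pair Q))).of_eq fun p => rfl
  have b : Primrec fun p : ℕ × Poly × Poly => y1P p.1 (negP p.2.1) p.2.2 :=
    (h.comp (n.pair ((PrimT.negP_p P).pair Q))).of_eq fun p => rfl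
  exact ((Primrec.nat_add.comp n (Primrec.const 4)).pair (a.pair b)).of_eq fun p => rfl

end

/-- `a = (n, p, q)` with integer polynomials `p ≥ 1`, `q ≥ 1` in `n` variables such that `1 / p`, `1 / q` are
integrable over `ℝ ^ n`, and the difference of the integrals is `x`. -/
def _root_.Pool.Agent.H652.PV.RecForm (x : ℝ) (a : ℕ × Poly × Poly) : Prop :=
  Rcp a.1 a.2.1 ∧ Rcp a.1 a.2.2 ∧
    (∫ x : Fin a.1 → ℝ, 1 / pev (ext x) a.2.1) - (∫ x : Fin a.1 → ℝ, 1 / pev (ext x) a.2.2) = x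

theorem form (h1 : S_rad) (h2 : S_lin) (h3 : S_ycod) {x : ℝ} (a : ℕ × Poly × Poly)
    (h : RatFn a.1 a.2.1 a.2.2)
    (e : ∫ x : Fin a.1 → ℝ, pev (ext x) a.2.1 / pev (ext x) a.2.2 = Real.pi ^ 2 * x) :
    RecForm (Real.pi ^ 5 / 2 * x) (yy a) := by
  obtain ⟨p1, p2, p3⟩ := yy_spec' h1 h2 h3 a h
  refine ⟨p1, p2, ?_⟩
  rw [p3, e]
  ring

/-- **Normal form.** -/
theorem normal_rec (h1 : S_rad) (h2 : S_lin) (h3 : S_ycod) :
    ∃ R : Code → ℕ × Poly × Poly, Primrec R ∧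
      ∀ c, Adm c → RecForm (Real.pi ^ 5 / 2 * val c) (R c) := by
  obtain ⟨R, hR, h⟩ := Whole.space_normal
  exact ⟨fun c => yy (R c), (yy_p h3).comp hR, fun c hc => form h1 h2 h3 _ (h c hc).1 (h c hc).2⟩

/-- **Many-one reduction.** -/
theorem pair_rec (h1 : S_rad) (h2 : S_lin) (h3 : S_ycod) :
    ∃ R : Pres × Pres → ℕ × Poly × Poly, Primrec R ∧
      ∀ p q, PAdm p → PAdm q → RecForm (Real.pi ^ 5 / 2 * ‖pval p - pval q‖ ^ 2) (R (p, q)) := by
  obtain ⟨R, hR, h⟩ := Recip.space_pair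
  exact ⟨fun c => yy (R c), (yy_p h3).comp hR, fun p q hp hq =>
    form h1 h2 h3 _ (h p q hp hq).1 (h p q hp hq).2⟩

end Single

end Pool.Agent.H652.PV
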