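import Pool.Agent.H652.PV.Ord

/-!
# The quartics are one minus a sum of squares of quadratic polynomials
-/

set_option autoImplicit false
set_option synthInstance.maxSize 2000

namespace Pool.Agent.H652.PV

open Pool.Agent.TH960.PE MeasureTheory

/-- an integer polynomial of degree at most two in `n` variables -/
def Quad (n : ℕ) (q : Poly) : Prop := IsPoly n q ∧ IsInt q ∧ Deg 2 q

/-- `E` is a sum of squares of integer polynomials of degree at most two in `n` variables -/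
def SqE (n : ℕ) (E : Poly) : Prop :=
  ∃ Q : List Poly, (∀ q ∈ Q, Quad n q) ∧
    ∀ X : ℕ → ℝ, pev X E = (Q.map fun q => pev X q ^ 2).sum

/-- `F` is one minus a sum of squares of integer polynomials of degree at most two in `n` variables -/
def Sq (n : ℕ) (F : Poly) : Prop :=
  ∃ Q : List Poly, (∀ q ∈ Q, Quad n q) ∧
    ∀ X : ℕ → ℝ, pev X F = 1 - (Q.map fun q => pev X q ^ 2).sum

namespace Sos

lemma sqE_nil (n : ℕ) : SqE n [] := ⟨[], by simp, fun X => by simp [pev]⟩

lemma sqE_app {n : ℕ} {A B : Poly} (hA : SqE n A) (hB : SqE n B) : SqE n (A ++ B) := by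
  obtain ⟨Q, h1, h2⟩ := hA
  obtain ⟨Q', h3, h4⟩ := hB
  refine ⟨Q ++ Q', fun q hq => ?_, fun X => ?_⟩
  · rcases List.mem_append.1 hq with h | h
    · exact h1 q h
    · exact h3 q h
  · rw [pev_append, h2, h4, List.map_append, List.sum_append]

lemma sqE_flat {n : ℕ} (L : List ℕ) (f : ℕ → Poly) (h : ∀ j ∈ L, SqE n (f j)) :
    SqE n (L.flatMap f) := by
  induction L with
  | nil => exact sqE_nil n
  | cons j L ih =>
    rw [List.flatMap_cons]
    exact sqE_app (h j List.mem_cons_self) (ih fun i hi => h i (List.mem_cons_of_mem _ hi))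

lemma sqE_sq {n : ℕ} {q : Poly} (h1 : IsPoly n q) (h2 : IsInt q) (h3 : Deg 2 q) :
    SqE n (sqP q) := by
  refine ⟨[q], fun r hr => ?_, fun X => ?_⟩
  · rw [List.mem_singleton.1 hr]
    exact ⟨h1, h2, h3⟩
  · rw [pev_sqP]
    simp

lemma sqE_mul {n : ℕ} (k : ℕ) {A : Poly} (hA : SqE n A) : SqE n (mulS (natP (k ^ 2)) A) := by
  obtain ⟨Q, h1, h2⟩ := hA
  refine ⟨Q.map fun q => mulS (natP k) q, fun q hq => ?_, fun X => ?_⟩
  · obtain ⟨r, hr, rfl⟩ := List.mem_map.1 hq
    obtain ⟨a, b, c⟩ := h1 r hr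
    exact ⟨isPoly_mulS (isPoly_natP _ _) a, isInt_mulS (isInt_natP k) b,
      SCode.deg_mono (by norm_num) (SCode.deg_mulS (SCode.deg_natP k) c)⟩
  · rw [pev_mulS, pev_natP, h2, List.map_map]
    have e : ((fun q => pev X q ^ 2) ∘ fun q => mulS (natP k) q) =
        fun q => ((k ^ 2 : ℕ) : ℝ) * pev X q ^ 2 := by
      funext q
      simp only [Function.comp, pev_mulS, pev_natP]
      push_cast
      ring
    rw [e, List.sum_map_mul_left]

lemma sqE_mono {n m : ℕ} (h : n ≤ m) {A : Poly} (hA : SqE n A) : SqE m A := by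
  obtain ⟨Q, h1, h2⟩ := hA
  exact ⟨Q, fun q hq => ⟨isPoly_mono h (h1 q hq).1, (h1 q hq).2⟩, h2⟩

lemma sq_one {n : ℕ} {A : Poly} (hA : SqE n A) : Sq n (oneP (mulS (natP 4) A)) := by
  obtain ⟨Q, h1, h2⟩ := sqE_mul 2 hA
  refine ⟨Q, h1, fun X => ?_⟩
  rw [← h2, SChain.pev_oneP]
  norm_num

lemma isPoly_flat {n : ℕ} (L : List ℕ) (f : ℕ → Poly) (h : ∀ j ∈ L, IsPoly n (f j)) :
    IsPoly n (L.flatMap f) := by
  intro m hm
  obtain ⟨j, hj, hm'⟩ := List.mem_flatMap.1 hm
  exact h j hj m hm'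

lemma sqE_tree (k n : ℕ) {u : Poly} (hu : Deg 1 u) (hi : IsInt u) (d : ℕ) :
    ∀ (G : Poly) (N : ℕ), IsPoly N u → n < N → IsInt G →
      SqE (N + nod n d) (tree (k ^ 2) n u d G N).1 ∧
        IsPoly (N + nod n d) (tree (k ^ 2) n u d G N).2 := by
  induction d with
  | zero =>
    intro G N hp _ _
    refine ⟨sqE_nil _, ?_⟩
    have h1 : IsPoly N (G.map fun m => ((m.1, []) : Mono)) := by
      intro m hm
      obtain ⟨a, _, rfl⟩ := List.mem_map.1 hm
      simp
    exact isPoly_mulS hp h1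
  | succ d ih =>
    intro G N hp hn hG
    have hN : N + nod n (d + 1) = N + (n + 1) * nod n d + 1 := by
      simp only [nod]
      omega
    have hle : ∀ j ∈ List.range (n + 1), N + j * nod n d + nod n d ≤ N + (n + 1) * nod n d := by
      intro j hj
      have hj' : j + 1 ≤ n + 1 := List.mem_range.1 hj
      have := Nat.mul_le_mul_right (nod n d) hj'
      calc N + j * nod n d + nod n d = N + (j + 1) * nod n d := by ring
        _ ≤ _ := by omega
    have hch := fun j => ih (tl j G) (N + j * nod n d)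
      (isPoly_mono (Nat.le_add_right _ _) hp) (by omega) (QVal.isInt_tl j hG)
    rw [hN]
    simp only [tree]
    refine ⟨sqE_app ?_ (sqE_mul k (sqE_sq ?_ ?_ ?_)), isPoly_varP (by omega)⟩
    · exact sqE_flat _ _ fun j hj => sqE_mono (by have := hle j hj; omega) (hch j).1
    · refine isPoly_subP (isPoly_varP (by omega)) (isPoly_flat _ _ fun j hj => isPoly_mulS
        (isPoly_varP ?_) (isPoly_mono (by have := hle j hj; omega) (hch j).2))
      have := List.mem_range.1 hj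
      omega
    · exact isInt_subP (isInt_varP _) (QVal.isInt_flatMap _ _ fun j _ =>
        isInt_mulS (isInt_varP j) (QVal.isInt_tree (k ^ 2) n hi d _ _ (QVal.isInt_tl j hG)).2)
    · exact SCode.deg_subP (SCode.deg_mono (by norm_num) (SCode.deg_varP _))
        (QVal.deg_flatMap _ _ fun j _ => SCode.deg_mulS (SCode.deg_varP j)
          (QVal.deg_tree (k ^ 2) n hu d _ _).2)

lemma sqE_quarB (n k : ℕ) : SqE (2 * n + 6) (quarB n (k ^ 2)) := by
  have v : ∀ i, i < 2 * n + 6 → IsPoly (2 * n + 6) (varP i) := fun i hi => isPoly_varP hi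
  unfold quarB
  refine sqE_app (sqE_sq ?_ ?_ ?_) (sqE_app (sqE_flat _ _ fun j hj => ?_)
    (sqE_app (sqE_sq ?_ ?_ ?_) (sqE_mul k (sqE_sq ?_ ?_ ?_))))
  · refine SChain.isPoly_oneP (isPoly_flat _ _ fun j hj => isPoly_sqP (v j ?_))
    have := List.mem_range.1 hj
    omega
  · exact SCode.isInt_oneP (QVal.isInt_flatMap _ _ fun j _ => isInt_sqP (isInt_varP j))
  · exact SCode.deg_oneP (QVal.deg_flatMap _ _ fun j _ => SCode.deg_sqP (SCode.deg_varP j))
  · have := List.mem_range.1 hj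
    exact sqE_sq (isPoly_mulS (v _ (by omega)) (v _ (by omega)))
      (isInt_mulS (isInt_varP _) (isInt_varP _))
      (SCode.deg_mulS (SCode.deg_varP _) (SCode.deg_varP _))
  · exact isPoly_mulS (v _ (by omega)) (v _ (by omega))
  · exact isInt_mulS (isInt_varP _) (isInt_varP _)
  · exact SCode.deg_mulS (SCode.deg_varP _) (SCode.deg_varP _)
  · exact isPoly_subP (v _ (by omega)) (SChain.isPoly_append (isPoly_sqP (v _ (by omega)))
      (isPoly_sqP (v _ (by omega))))
  · exact isInt_subP (isInt_varP _) (isInt_append (isInt_sqP (isInt_varP _))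
      (isInt_sqP (isInt_varP _)))
  · exact SCode.deg_subP (SCode.deg_mono (by norm_num) (SCode.deg_varP _))
      (SCode.deg_append (SCode.deg_sqP (SCode.deg_varP _)) (SCode.deg_sqP (SCode.deg_varP _)))

lemma sqE_quar (n d k : ℕ) {F : Poly} (hF : IsInt F) :
    SqE (2 * n + 6 + nod n d) (quarB n (k ^ 2) ++ ((quarT n d (k ^ 2) F).1 ++
      sqP (oneP (quarT n d (k ^ 2) F).2))) := by
  obtain ⟨t1, t2⟩ := sqE_tree k n (SCode.deg_varP (2 * n + 2)) (isInt_varP (2 * n + 2)) d
    (hom n d F) (2 * n + 6) (isPoly_varP (by omega)) (by omega) (QVal.isInt_hom n d hF)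
  refine sqE_app (sqE_mono (Nat.le_add_right _ _) (sqE_quarB n k)) (sqE_app t1 (sqE_sq ?_ ?_ ?_))
  · exact SChain.isPoly_oneP t2
  · exact SCode.isInt_oneP (QVal.isInt_tree _ n (isInt_varP _) d _ _ (QVal.isInt_hom n d hF)).2
  · exact SCode.deg_mono (by norm_num) (SCode.deg_oneP (QVal.deg_tree _ n (SCode.deg_varP _) d _ _).2)

theorem sq_quar (n d B : ℕ) {F : Poly} (hF : IsInt F) :
    Sq (quar n d (kk n d B) F).1 (quar n d (kk n d B) F).2 :=
  sq_one (sqE_quar n d _ hF)

lemma sqE_sgB (k N : ℕ) : SqE (N + 5) (sgB (k ^ 2) N) := by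
  have v : ∀ i, i < N + 5 → IsPoly (N + 5) (varP i) := fun i hi => isPoly_varP hi
  unfold sgB
  refine sqE_app (sqE_sq ?_ ?_ ?_) (sqE_app (sqE_sq ?_ ?_ ?_) (sqE_mul k (sqE_sq ?_ ?_ ?_)))
  · exact isPoly_mulS (v _ (by omega)) (v _ (by omega))
  · exact isInt_mulS (isInt_varP _) (isInt_varP _)
  · exact SCode.deg_mulS (SCode.deg_varP _) (SCode.deg_varP _)
  · exact SChain.isPoly_oneP (isPoly_sqP (v _ (by omega)))
  · exact SCode.isInt_oneP (isInt_sqP (isInt_varP _))
  · exact SCode.deg_oneP (SCode.deg_sqP (SCode.deg_varP _))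
  · exact isPoly_subP (isPoly_mulS (v _ (by omega)) (v _ (by omega)))
      (SChain.isPoly_append (isPoly_sqP (v _ (by omega))) (isPoly_sqP (v _ (by omega))))
  · exact isInt_subP (isInt_mulS (isInt_varP _) (isInt_varP _))
      (isInt_append (isInt_sqP (isInt_varP _)) (isInt_sqP (isInt_varP _)))
  · exact SCode.deg_subP (SCode.deg_mulS (SCode.deg_varP _) (SCode.deg_varP _))
      (SCode.deg_append (SCode.deg_sqP (SCode.deg_varP _)) (SCode.deg_sqP (SCode.deg_varP _)))

theorem sq_quas (n d B : ℕ) {F : Poly} (hF : IsInt F) :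
    Sq (quas n d (kk n d B) F).1 (quas n d (kk n d B) F).2 := by
  obtain ⟨t1, t2⟩ := sqE_tree (4 * ((2 * n + 3) ^ d + B * 2 ^ d)) n
    (SCode.deg_varP (2 * n + 6 + nod n d))
    (isInt_varP (2 * n + 6 + nod n d)) 2 (wrd n) (2 * n + 6 + nod n d + 5)
    (isPoly_varP (by omega)) (by omega) (RCode.isInt_wrd n)
  refine sq_one (sqE_app (sqE_mono ?_ (sqE_quar n d _ hF)) (sqE_app (sqE_mono
    (Nat.le_add_right _ _) (sqE_sgB _ _)) (sqE_app t1 (sqE_sq ?_ ?_ ?_))))
  · change _ ≤ 2 * n + 6 + nod n d + 5 + nod n 2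
    omega
  · exact SChain.isPoly_oneP t2
  · exact SCode.isInt_oneP (QVal.isInt_tree _ n (isInt_varP _) 2 _ _ (RCode.isInt_wrd n)).2
  · exact SCode.deg_mono (by norm_num) (SCode.deg_oneP (QVal.deg_tree _ n (SCode.deg_varP _) 2 _ _).2)

end Sos

end Pool.Agent.H652.PV
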