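import Pool.Agent.H652.PV.Defs

set_option autoImplicit false
set_option synthInstance.maxSize 2000

namespace Pool.Agent.H652.PV

open Pool.Agent.TH960.PE MeasureTheory

/-- A: the volume of the gadget -/
def S_gad : Prop :=
  (∀ a b : ℝ, volume {v : Fin 3 → ℝ | 0 < gad a b (v 0) (v 1) (v 2)} =
    if 0 < a ∧ 0 < b then 1 else 0) ∧
  (∀ a : ℝ, volume {v : Fin 3 → ℝ | gad a 1 (v 0) (v 1) (v 2) = 0} = 0)

/-- B: the zero test -/
def S_zero : Prop :=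
  (∀ (n : ℕ) (g : Poly), IsPoly n g → isZ n g = true → ∀ X : ℕ → ℝ, pev X g = 0) ∧
  (∀ (n : ℕ) (g : Poly), IsPoly n g → isZ n g = false →
    volume {x : Fin n → ℝ | pev (ext x) g = 0} = 0) ∧
  Primrec (fun p : ℕ × Poly => isZ p.1 p.2)

/-- C: computability -/
def S_prim : Prop :=
  Primrec (fun p : Poly × Poly => mulS p.1 p.2) ∧
  Primrec (fun p : Poly × Poly => subP p.1 p.2) ∧
  Primrec negP ∧ Primrec varP ∧
  Primrec (fun p : ℕ × Poly × Poly => gadP p.1 p.2.1 p.2.2) ∧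
  Primrec (fun p : ℕ × List Poly => fold p.1 p.2)

/-- D: values -/
def S_val : Prop :=
  (∀ (X : ℕ → ℝ) (A B : Poly), pev X (mulS A B) = pev X A * pev X B) ∧
  (∀ (X : ℕ → ℝ) (A B : Poly), pev X (subP A B) = pev X A - pev X B) ∧
  (∀ (X : ℕ → ℝ) (A : Poly), pev X (negP A) = - pev X A) ∧
  (∀ (X : ℕ → ℝ) (i : ℕ), pev X (varP i) = X i) ∧
  (∀ (X : ℕ → ℝ) (a : ℕ), pev X (natP a) = a) ∧
  (∀ (X : ℕ → ℝ) (N : ℕ) (A B : Poly), pev X (gadP N A B) =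
    gad (pev X A) (pev X B) (X N) (X (N + 1)) (X (N + 2))) ∧
  (∀ (n : ℕ) (A B : Poly), IsPoly n A → IsPoly n B → IsPoly n (mulS A B)) ∧
  (∀ (n : ℕ) (A B : Poly), IsPoly n A → IsPoly n B → IsPoly n (subP A B)) ∧
  (∀ (N : ℕ) (A B : Poly), IsPoly N A → IsPoly N B → IsPoly (N + 3) (gadP N A B))

end Pool.Agent.H652.PV
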