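import Pool.Agent.H652.PV.Udefs
import Pool.Agent.H652.PV.Ord
import Pool.Agent.H652.PV.All3

/-!
# Integrals of polynomials over regions of degree at most three can be compared
-/

set_option autoImplicit false
set_option synthInstance.maxSize 2000

namespace Pool.Agent.H652.PV

open Pool.Agent.TH960.PE MeasureTheory

namespace UMain

open Cub

/-- the set of the substituted integral -/
def ell (n : ℕ) (r : Coef) (ds : List (Coef × Poly)) : Set (Fin n → ℝ) :=
  {z : Fin n → ℝ | ∑ i ∈ Finset.range n, cv (ent ds i).1 * ext z i ^ 2 < cv r}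

/-- the number `r ^ n / ∏ d_i` -/
noncomputable def aR (n : ℕ) (r : Coef) (ds : List (Coef × Poly)) : ℝ :=
  cv r ^ n / ∏ i ∈ Finset.range n, cv (ent ds i).1

lemma int_ell (h4 : S_mono) (h5 : S_keyC) (n : ℕ) (r : Coef) (ds : List (Coef × Poly))
    (hr : 0 < cv r) (hd : ∀ i < n, 0 < cv (ent ds i).1) : ∀ A : Poly, IsPoly n A →
    IntegrableOn (fun z : Fin n → ℝ => pev (ext z) A) (ell n r ds) ∧
    ∫ z in ell n r ds, pev (ext z) A =
      cv (qS n r ds A) * (√(aR n r ds) * (bal n).toReal) := by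
  intro A
  induction A with
  | nil =>
    intro _
    have h0 : ∀ z : Fin n → ℝ, pev (ext z) [] = 0 := fun z => by simp [pev]
    refine ⟨?_, ?_⟩
    · simp only [h0]
      exact integrableOn_zero
    · simp only [h0, integral_zero]
      rw [h5.2.1]
      simp
  | cons m A ih =>
    intro hA
    obtain ⟨i1, i2⟩ := ih fun m' hm' => hA m' (List.mem_cons_of_mem _ hm')
    obtain ⟨j1, j2⟩ := h4 n (cv r) (fun i => cv (ent ds i).1) m.2 hr hd
      (hA m List.mem_cons_self)
    have e : ∀ z : Fin n → ℝ, pev (ext z) (m :: A) =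
        cv m.1 * mev (ext z) m.2 + pev (ext z) A := fun z => by simp [pev]
    simp only [e]
    have j3 : IntegrableOn (fun z : Fin n → ℝ => cv m.1 * mev (ext z) m.2) (ell n r ds) :=
      Integrable.const_mul j1 _
    refine ⟨j3.add i1, ?_⟩
    rw [integral_add j3 i1, i2, integral_const_mul]
    have j4 : ∫ z in ell n r ds, mev (ext z) m.2 = _ := j2
    rw [j4, h5.2.1, h5.2.1, List.map_cons, List.sum_cons, h5.1 n r ds m.2 hr hd]
    unfold aR
    ring

/-- the integral over a region of degree at most three -/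
lemma int_reg (h1 : S_cmpP) (h2 : S_invP) (h3 : S_chg) (h4 : S_mono) (h5 : S_keyC) (n : ℕ)
    (F : Poly) (r : Coef) (ds : List (Coef × Poly)) (P : Poly) (hF : IsPos n F r ds)
    (hP : IsPoly n P) :
    ∃ x : ℝ, cv (keyC n r ds P) = x * |x| ∧
      ∫ x in reg n F, pev (ext x) P = x * (bal n).toReal := by
  have hP' : IsPoly n (cmpP (invP ds) P) := by
    refine h1.2.1 n _ P fun A hA => ?_
    obtain ⟨i, hi, rfl⟩ := List.mem_iff_getElem.1 hA
    have hi' : i < ds.length := by rw [← h2.1 ds]; exact hi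
    have h := h2.2.1 ds i hi'
    rw [List.getD_eq_getElem _ _ hi] at h
    exact isPoly_mono (by rw [← hF.1]; omega) h
  obtain ⟨-, e⟩ := int_ell h4 h5 n r ds hF.2.1 hF.2.2.1 _ hP'
  refine ⟨cv (qS n r ds (cmpP (invP ds) P)) * √(aR n r ds), ?_, ?_⟩
  · have ha : 0 ≤ aR n r ds := by
      unfold aR
      exact div_nonneg (pow_nonneg hF.2.1.le n)
        (Finset.prod_nonneg fun i hi => (hF.2.2.1 i (Finset.mem_range.1 hi)).le)
    unfold keyC
    rw [cv_cmul, cv_cmul, h5.2.2.2.1, h5.2.2.1 n r ds hF.2.1 hF.2.2.1, abs_mul,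
      abs_of_nonneg (Real.sqrt_nonneg _)]
    change _ * _ * aR n r ds = _
    calc cv (qS n r ds (cmpP (invP ds) P)) * |cv (qS n r ds (cmpP (invP ds) P))| * aR n r ds
        = cv (qS n r ds (cmpP (invP ds) P)) * |cv (qS n r ds (cmpP (invP ds) P))| *
          (√(aR n r ds) * √(aR n r ds)) := by rw [Real.mul_self_sqrt ha]
      _ = _ := by ring
  · have e2 := h3 n F r ds P hF hP
    change ∫ x in reg n F, pev (ext x) P = ∫ z in ell n r ds, _ at e2
    rw [e2, e]
    ring

attribute [local irreducible] keyC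

variable (P N : (ℕ × Poly) × Cer → Bool)

/-- the key of an integral, given a certificate -/
def keyO (a : (ℕ × Poly) × Poly) (c : Cer) : Option Coef :=
  cond (P (a.1, c)) (some (keyC a.1.1 c.1 c.2 a.2)) (cond (N (a.1, c)) (some (0, 0, 0)) none)

/-- the answer given by a pair of certificates -/
def ans (t : Coef × Coef → Bool) (a : (ℕ × (Poly × Poly)) × (Poly × Poly)) (c : Cer × Cer) :
    Option Bool :=
  (keyO P N ((a.1.1, a.1.2.1), a.1.2.2) c.1).bind fun k =>
    (keyO P N ((a.1.1, a.2.1), a.2.2) c.2).map fun k' => t (k, k')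

lemma keyO_p (hP : Primrec P) (hN : Primrec N)
    (hK : Primrec (fun p : (ℕ × Coef) × (List (Coef × Poly) × Poly) =>
      keyC p.1.1 p.1.2 p.2.1 p.2.2)) : Primrec₂ (keyO P N) := by
  have a : Primrec fun p : ((ℕ × Poly) × Poly) × Cer => ((p.1.1, p.2) : (ℕ × Poly) × Cer) :=
    (Primrec.fst.comp Primrec.fst).pair Primrec.snd
  have b : Primrec fun p : ((ℕ × Poly) × Poly) × Cer =>
      (((p.1.1.1, p.2.1), (p.2.2, p.1.2)) : (ℕ × Coef) × (List (Coef × Poly) × Poly)) :=
    ((Primrec.fst.comp (Primrec.fst.comp Primrec.fst)).pair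
      (Primrec.fst.comp Primrec.snd)).pair
      ((Primrec.snd.comp Primrec.snd).pair (Primrec.snd.comp Primrec.fst))
  have k1 : Primrec fun p : ((ℕ × Poly) × Poly) × Cer =>
      (some (keyC p.1.1.1 p.2.1 p.2.2 p.1.2) : Option Coef) :=
    Primrec.option_some.comp (hK.comp b)
  have k2 : Primrec fun p : ((ℕ × Poly) × Poly) × Cer => (some (0, 0, 0) : Option Coef) :=
    Primrec.const _
  have k3 : Primrec fun p : ((ℕ × Poly) × Poly) × Cer => (none : Option Coef) :=
    Primrec.const _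
  have k4 : Primrec fun p : ((ℕ × Poly) × Poly) × Cer =>
      cond (N (p.1.1, p.2)) (some (0, 0, 0) : Option Coef) none :=
    Primrec.cond (hN.comp a) k2 k3
  have k5 : Primrec fun p : ((ℕ × Poly) × Poly) × Cer =>
      cond (P (p.1.1, p.2)) (some (keyC p.1.1.1 p.2.1 p.2.2 p.1.2) : Option Coef)
        (cond (N (p.1.1, p.2)) (some (0, 0, 0)) none) :=
    Primrec.cond (hP.comp a) k1 k4
  exact k5

lemma ans_p (hP : Primrec P) (hN : Primrec N)
    (hK : Primrec (fun p : (ℕ × Coef) × (List (Coef × Poly) × Poly) =>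
      keyC p.1.1 p.1.2 p.2.1 p.2.2)) {t : Coef × Coef → Bool} (ht : Primrec t) :
    Primrec₂ (ans P N t) := by
  have k := keyO_p P N hP hN hK
  have a1 : Primrec fun p : ((ℕ × (Poly × Poly)) × (Poly × Poly)) × (Cer × Cer) =>
      (((p.1.1.1, p.1.1.2.1), p.1.1.2.2) : (ℕ × Poly) × Poly) :=
    ((Primrec.fst.comp (Primrec.fst.comp Primrec.fst)).pair
      (Primrec.fst.comp (Primrec.snd.comp (Primrec.fst.comp Primrec.fst)))).pair
      (Primrec.snd.comp (Primrec.snd.comp (Primrec.fst.comp Primrec.fst)))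
  have a2 : Primrec fun p : ((ℕ × (Poly × Poly)) × (Poly × Poly)) × (Cer × Cer) =>
      (((p.1.1.1, p.1.2.1), p.1.2.2) : (ℕ × Poly) × Poly) :=
    ((Primrec.fst.comp (Primrec.fst.comp Primrec.fst)).pair
      (Primrec.fst.comp (Primrec.snd.comp Primrec.fst))).pair
      (Primrec.snd.comp (Primrec.snd.comp Primrec.fst))
  have c1 : Primrec fun p : ((ℕ × (Poly × Poly)) × (Poly × Poly)) × (Cer × Cer) => p.2.1 :=
    Primrec.fst.comp Primrec.snd
  have c2 : Primrec fun p : ((ℕ × (Poly × Poly)) × (Poly × Poly)) × (Cer × Cer) => p.2.2 :=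
    Primrec.snd.comp Primrec.snd
  have k1 := k.comp a1 c1
  have k2 := k.comp a2 c2
  refine Primrec.option_bind k1 ?_
  refine Primrec.option_map (k2.comp Primrec.fst) ?_
  exact ht.comp ((Primrec.snd.comp Primrec.fst).pair Primrec.snd)

/-- **Comparison of integrals.** -/
theorem intDec3 (h1 : S_cmpP) (h2 : S_invP) (h3 : S_chg) (h4 : S_mono) (h5 : S_keyC)
    (hK : Primrec (fun p : (ℕ × Coef) × (List (Coef × Poly) × Poly) =>
      keyC p.1.1 p.1.2 p.2.1 p.2.2)) (R : ℝ → ℝ → Prop) (t : Coef × Coef → Bool)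
    (ht : Primrec t) (hR : ∀ (k k' : Coef) (x y β : ℝ), 0 < β → cv k = x * |x| →
      cv k' = y * |y| → (t (k, k') = true ↔ R (x * β) (y * β))) : IntDec R 3 := by
  classical
  obtain ⟨⟨P, Pp, hP⟩, ⟨N, Np, hN⟩⟩ := t_chk
  -- existence of certificates
  have ex : ∀ (n : ℕ) (F : Poly), Fine n F → Deg 3 F →
      ∃ c : Cer, P ((n, F), c) = true ∨ N ((n, F), c) = true := by
    intro n F hF hd
    have hlow := t_cub n F hF.1 hd hF.2.2
    have h1 : IsPoly n (low F) := fun m hm => hF.1 m (List.mem_of_mem_filter hm)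
    have h2 : Deg 2 (low F) := fun m hm => by simpa using (List.mem_filter.1 hm).2
    rcases t_tri n (low F) h1 h2 with ⟨r, ds, h⟩ | ⟨e, ds, h⟩ | ⟨ε, hε, h⟩
    · refine ⟨(r, ds), Or.inl ((hP n F r ds hF.1).2 ⟨h.1, h.2.1, h.2.2.1, h.2.2.2.1, ?_⟩)⟩
      intro X
      rw [hlow X]
      exact h.2.2.2.2 X
    · refine ⟨(e, ds), Or.inr ((hN n F e ds hF.1).2 ⟨h.1, h.2.1, ?_⟩)⟩
      intro X
      rw [hlow X]
      exact h.2.2 X
    · exfalso
      refine hF.2.2 (top_le_iff.1 ?_)
      rw [← h]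
      refine measure_mono fun x hx => ?_
      change 0 < pev (ext x) F
      rw [hlow]
      exact lt_trans hε hx
  have hβ : ∀ n, 0 < (bal n).toReal := fun n =>
    ENNReal.toReal_pos (t_vol.1 n).1 (t_vol.1 n).2
  have c0 : cv (0, 0, 0) = (0 : ℝ) * |0| := by simp [cv]
  -- the key
  have key : ∀ (n : ℕ) (F A : Poly) (c : Cer) (k : Coef), Fine n F → IsPoly n A →
      keyO P N ((n, F), A) c = some k →
      ∃ x : ℝ, cv k = x * |x| ∧ ∫ z in reg n F, pev (ext z) A = x * (bal n).toReal := by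
    intro n F A c k hF hA hk
    unfold keyO at hk
    simp only at hk
    cases e1 : P ((n, F), c)
    · cases e2 : N ((n, F), c)
      · simp [e1, e2] at hk
      · simp only [e1, e2, cond_false, cond_true, Option.some.injEq] at hk
        subst hk
        refine ⟨0, c0, ?_⟩
        have h := (hN n F c.1 c.2 hF.1).1 e2
        have hv : volume (reg n F) = 0 := t_vol.2.2 n F c.1 c.2 h
        rw [setIntegral_measure_zero _ hv, zero_mul]
    · simp only [e1, cond_true, Option.some.injEq] at hk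
      subst hk
      exact int_reg h1 h2 h3 h4 h5 n F c.1 c.2 A ((hP n F c.1 c.2 hF.1).1 e1) hA
  have keyEx : ∀ (n : ℕ) (F A : Poly) (c : Cer), (P ((n, F), c) = true ∨ N ((n, F), c) = true) →
      ∃ k, keyO P N ((n, F), A) c = some k := by
    intro n F A c h
    unfold keyO
    simp only
    rcases h with h | h
    · rw [h]
      exact ⟨_, rfl⟩
    · cases P ((n, F), c)
      · rw [h]
        exact ⟨_, rfl⟩
      · exact ⟨_, rfl⟩
  refine ⟨fun a => Nat.rfindOpt fun k => (Encodable.decode (α := Cer × Cer) k).bind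
    (ans P N t a), ?_, fun n F G A B hF dF hG dG hA _ hB _ => ?_⟩
  · refine Partrec.rfindOpt (Primrec.to_comp ?_)
    have g1 : Primrec fun p : ((ℕ × (Poly × Poly)) × (Poly × Poly)) × ℕ =>
        (Encodable.decode p.2 : Option (Cer × Cer)) := Primrec.decode.comp Primrec.snd
    have g2 : Primrec₂ fun (p : ((ℕ × (Poly × Poly)) × (Poly × Poly)) × ℕ) (c : Cer × Cer) =>
        ans P N t p.1 c :=
      (ans_p P N Pp Np hK ht).comp (Primrec.fst.comp Primrec.fst) Primrec.snd
    exact Primrec.option_bind g1 g2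
  · obtain ⟨c, hc⟩ := ex n F hF dF
    obtain ⟨c', hc'⟩ := ex n G hG dG
    have hdom : ∃ k b, b ∈ (Encodable.decode (α := Cer × Cer) k).bind
        (ans P N t ((n, (F, A)), (G, B))) := by
      refine ⟨Encodable.encode (c, c'), ?_⟩
      rw [Encodable.encodek]
      obtain ⟨k, hk⟩ := keyEx n F A c hc
      obtain ⟨k', hk'⟩ := keyEx n G B c' hc'
      refine ⟨t (k, k'), ?_⟩
      simp only [Option.bind_some, ans]
      rw [hk, hk']
      rfl
    have hd := Nat.rfindOpt_dom.2 hdom
    refine ⟨(Nat.rfindOpt fun k => (Encodable.decode (α := Cer × Cer) k).bind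
      (ans P N t ((n, (F, A)), (G, B)))).get hd, Part.get_mem hd, ?_⟩
    obtain ⟨k, hk⟩ := Nat.rfindOpt_spec (Part.get_mem hd)
    rw [Option.mem_def, Option.bind_eq_some_iff] at hk
    obtain ⟨d, -, hd2⟩ := hk
    generalize (Nat.rfindOpt fun k => (Encodable.decode (α := Cer × Cer) k).bind
      (ans P N t ((n, (F, A)), (G, B)))).get hd = b at hd2
    unfold ans at hd2
    simp only at hd2
    rw [Option.bind_eq_some_iff] at hd2
    obtain ⟨k1, e1, hd3⟩ := hd2
    rw [Option.map_eq_some_iff] at hd3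
    obtain ⟨k2, e2, e3⟩ := hd3
    obtain ⟨x, x1, x2⟩ := key n F A d.1 k1 hF hA e1
    obtain ⟨y, y1, y2⟩ := key n G B d.2 k2 hG hB e2
    rw [← e3, x2, y2]
    exact hR k1 k2 x y _ (hβ n) x1 y1

lemma mono_abs (x y : ℝ) : x * |x| ≤ y * |y| ↔ x ≤ y := by
  constructor
  · intro h
    by_contra h1
    have h2 : y < x := not_le.1 h1
    rcases le_or_gt 0 x with hx | hx <;> rcases le_or_gt 0 y with hy | hy
    · rw [abs_of_nonneg hx, abs_of_nonneg hy] at h
      nlinarith
    · rw [abs_of_nonneg hx, abs_of_neg hy] at h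
      nlinarith [mul_pos (neg_pos.2 hy) (neg_pos.2 hy), mul_nonneg hx hx]
    · linarith
    · rw [abs_of_neg hx, abs_of_neg hy] at h
      nlinarith
  · intro h
    rcases le_or_gt 0 x with hx | hx <;> rcases le_or_gt 0 y with hy | hy
    · rw [abs_of_nonneg hx, abs_of_nonneg hy]
      nlinarith
    · linarith
    · rw [abs_of_neg hx, abs_of_nonneg hy]
      nlinarith [mul_pos (neg_pos.2 hx) (neg_pos.2 hx), mul_nonneg hy hy]
    · rw [abs_of_neg hx, abs_of_neg hy]
      nlinarith

lemma rel_le (h5 : S_keyC) (k k' : Coef) (x y β : ℝ) (hβ : 0 < β) (h : cv k = x * |x|)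
    (h' : cv k' = y * |y|) : (cle k k' = true ↔ x * β ≤ y * β) := by
  rw [h5.2.2.2.2, h, h', mono_abs, mul_le_mul_iff_left₀ hβ]

end UMain

end Pool.Agent.H652.PV
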