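import Pool.Agent.H652.PV.Tdefs

/-!
# Comparison of integrals of polynomials over regions of degree at most three: definitions
-/

set_option autoImplicit false
set_option synthInstance.maxSize 2000

namespace Pool.Agent.H652.PV

open Pool.Agent.TH960.PE MeasureTheory

/-! ### Substitution -/

/-- powers -/
def powP (A : Poly) : ℕ → Poly
  | 0 => natP 1
  | k + 1 => mulS A (powP A k)

/-- a monomial at the polynomials `Xs` -/
def monP : List Poly → List ℕ → Poly
  | _, [] => natP 1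
  | Xs, a :: e => mulS (powP (Xs.headD []) a) (monP Xs.tail e)

/-- the polynomial `P` at the polynomials `Xs` -/
def cmpP (Xs : List Poly) (P : Poly) : Poly :=
  P.flatMap fun m => mulS [(m.1, [])] (monP Xs m.2)

/-- the inverse of the substitution `z_i = x_i + l_i (x_0, ..., x_(i-1))` -/
def invP (ds : List (Coef × Poly)) : List Poly :=
  ds.foldl (fun Xs p => Xs ++ [subP (varP Xs.length) (cmpP Xs p.2)]) []

/-! ### Integrals of monomials -/

open Nat in
/-- the integral of the monomial with the exponents `e` over `∑ d_i z_i ^ 2 < r`, divided by the volume -/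
noncomputable def qR (n : ℕ) (r : ℝ) (d : ℕ → ℝ) (e : List ℕ) : ℝ :=
  if e.all (fun a => a % 2 == 0) then
    (∏ i ∈ Finset.range n, (((e.getD i 0 - 1)‼ : ℕ) : ℝ) * (1 / d i) ^ (e.getD i 0 / 2)) *
      r ^ (e.sum / 2) / ∏ k ∈ Finset.range (e.sum / 2), ((n : ℝ) + 2 + 2 * k)
  else 0

/-- the inverse of a positive coefficient -/
def cinv (a : Coef) : Coef := (a.2.2 + 1, 0, a.1 - a.2.1 - 1)

/-- powers of coefficients -/
def cpo (a : Coef) : ℕ → Coef
  | 0 => (1, 0, 0)
  | k + 1 => cmul a (cpo a k)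

/-- the double factorial of `a - 1` for even `a` -/
def dfa (a : ℕ) : ℕ := (List.range (a / 2)).foldr (fun i s => (2 * i + 1) * s) 1

/-- the coefficient with the value `qR` -/
def qC (n : ℕ) (r : Coef) (ds : List (Coef × Poly)) (e : List ℕ) : Coef :=
  if e.all (fun a => a % 2 == 0) then
    cmul ((List.range n).foldr (fun i s =>
      cmul (cmul (dfa (e.getD i 0), 0, 0) (cpo (cinv (ent ds i).1) (e.getD i 0 / 2))) s) (1, 0, 0))
      (cmul (cpo r (e.sum / 2))
        (1, 0, (List.range (e.sum / 2)).foldr (fun k s => (n + 2 + 2 * k) * s) 1 - 1))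
  else (0, 0, 0)

/-- the sum over the monomials of `P` -/
def qS (n : ℕ) (r : Coef) (ds : List (Coef × Poly)) (P : Poly) : Coef :=
  P.foldr (fun m s => cadd (cmul m.1 (qC n r ds m.2)) s) (0, 0, 0)

/-- the coefficient with the value `r ^ n / ∏ d_i` -/
def aC (n : ℕ) (r : Coef) (ds : List (Coef × Poly)) : Coef :=
  cmul (cpo r n) ((List.range n).foldr (fun i s => cmul (cinv (ent ds i).1) s) (1, 0, 0))

/-- the absolute value -/
def cabs (a : Coef) : Coef := if a.2.1 ≤ a.1 then a else (a.2.1, a.1, a.2.2)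

/-- the key: `q |q| r ^ n / ∏ d_i` where `q` is the integral of `P` divided by the volume -/
def keyC (n : ℕ) (r : Coef) (ds : List (Coef × Poly)) (P : Poly) : Coef :=
  cmul (cmul (qS n r ds (cmpP (invP ds) P)) (cabs (qS n r ds (cmpP (invP ds) P)))) (aC n r ds)

/-- comparison of coefficients -/
def cle (a b : Coef) : Bool :=
  decide (a.1 * (b.2.2 + 1) + b.2.1 * (a.2.2 + 1) ≤ b.1 * (a.2.2 + 1) + a.2.1 * (b.2.2 + 1))

/-! ### Statements -/

/-- U1: substitution -/
def S_cmpP : Prop :=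
  (∀ (Z : ℕ → ℝ) (Xs : List Poly) (P : Poly),
    pev Z (cmpP Xs P) = pev (fun i => pev Z (Xs.getD i [])) P) ∧
  (∀ (n : ℕ) (Xs : List Poly) (P : Poly), (∀ A ∈ Xs, IsPoly n A) → IsPoly n (cmpP Xs P)) ∧
  Primrec (fun p : List Poly × Poly => cmpP p.1 p.2)

/-- U2: the inverse substitution -/
def S_invP : Prop :=
  (∀ ds : List (Coef × Poly), (invP ds).length = ds.length) ∧
  (∀ ds : List (Coef × Poly), ∀ i, i < ds.length → IsPoly (i + 1) ((invP ds).getD i [])) ∧
  (∀ (ds : List (Coef × Poly)) (Z : ℕ → ℝ), (∀ i < ds.length, IsPoly i (ent ds i).2) →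
    ∀ i < ds.length, pev Z ((invP ds).getD i []) +
      pev (fun j => pev Z ((invP ds).getD j [])) (ent ds i).2 = Z i) ∧
  Primrec invP

/-- U3: change of variables -/
def S_chg : Prop :=
  ∀ (n : ℕ) (F : Poly) (r : Coef) (ds : List (Coef × Poly)) (P : Poly), IsPos n F r ds →
    IsPoly n P →
    ∫ x in {x : Fin n → ℝ | 0 < pev (ext x) F}, pev (ext x) P =
      ∫ z in {z : Fin n → ℝ | ∑ i ∈ Finset.range n, cv (ent ds i).1 * ext z i ^ 2 < cv r},
        pev (ext z) (cmpP (invP ds) P)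

/-- U4: integrals of monomials over an ellipsoid -/
def S_mono : Prop :=
  ∀ (n : ℕ) (r : ℝ) (d : ℕ → ℝ) (e : List ℕ), 0 < r → (∀ i < n, 0 < d i) → e.length ≤ n →
    IntegrableOn (fun z : Fin n → ℝ => mev (ext z) e)
      {z : Fin n → ℝ | ∑ i ∈ Finset.range n, d i * ext z i ^ 2 < r} ∧
    ∫ z in {z : Fin n → ℝ | ∑ i ∈ Finset.range n, d i * ext z i ^ 2 < r}, mev (ext z) e =
      qR n r d e * (√(r ^ n / ∏ i ∈ Finset.range n, d i) * (bal n).toReal)

/-- U5: the rational numbers -/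
def S_keyC : Prop :=
  (∀ (n : ℕ) (r : Coef) (ds : List (Coef × Poly)) (e : List ℕ), 0 < cv r →
    (∀ i < n, 0 < cv (ent ds i).1) →
      cv (qC n r ds e) = qR n (cv r) (fun i => cv (ent ds i).1) e) ∧
  (∀ (n : ℕ) (r : Coef) (ds : List (Coef × Poly)) (P : Poly),
    cv (qS n r ds P) = (P.map fun m => cv m.1 * cv (qC n r ds m.2)).sum) ∧
  (∀ (n : ℕ) (r : Coef) (ds : List (Coef × Poly)), 0 < cv r → (∀ i < n, 0 < cv (ent ds i).1) →
    cv (aC n r ds) = cv r ^ n / ∏ i ∈ Finset.range n, cv (ent ds i).1) ∧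
  (∀ a : Coef, cv (cabs a) = |cv a|) ∧
  (∀ a b : Coef, cle a b = true ↔ cv a ≤ cv b)

/-- U6: computability of the key -/
def S_keyP : Prop :=
  Primrec (fun p : List Poly × Poly => cmpP p.1 p.2) → Primrec invP →
  Primrec (fun p : (ℕ × Coef) × (List (Coef × Poly) × Poly) =>
    keyC p.1.1 p.1.2 p.2.1 p.2.2) ∧ Primrec (fun p : Coef × Coef => cle p.1 p.2)

/-- U7: halves of a region of degree at most three and its first moment -/
def S_half3 : Prop :=
  ∀ (n k : ℕ) (F : Poly), k < n → IsPoly n F → Deg 3 F →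
    volume {x : Fin n → ℝ | 0 < pev (ext x) F} ≠ ⊤ →
    (∫ x in {x : Fin n → ℝ | 0 < pev (ext x) F}, ext x k ≤ 0 ↔
      volume {x : Fin n → ℝ | 0 < pev (ext x) F ∧ 0 < ext x k} ≤
        volume {x : Fin n → ℝ | 0 < pev (ext x) F ∧ ext x k < 0}) ∧
    (0 ≤ ∫ x in {x : Fin n → ℝ | 0 < pev (ext x) F}, ext x k ↔
      volume {x : Fin n → ℝ | 0 < pev (ext x) F ∧ ext x k < 0} ≤
        volume {x : Fin n → ℝ | 0 < pev (ext x) F ∧ 0 < ext x k})

end Pool.Agent.H652.PV
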