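import Pool.Agent.H652.PV.Val

/-!
# Integrals over the region of a conjunction of inequalities
-/

set_option autoImplicit false
set_option synthInstance.maxSize 2000

namespace Pool.Agent.H652.PV

open Pool.Agent.TH960.PE MeasureTheory

/-- the first `m` coordinates of `X`, followed by those of `Y` -/
def glue (m : ℕ) (X Y : ℕ → ℝ) : ℕ → ℝ := fun i => if i < m then X i else Y (i - m)

lemma ext_eqv (m n : ℕ) (p : (Fin m → ℝ) × (Fin n → ℝ)) :
    ext (eqv m n p) = glue m (ext p.1) (ext p.2) := by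
  funext i
  by_cases h : i < m
  · rw [ext_lt m n p i h, glue, if_pos h]
  · obtain ⟨j, rfl⟩ : ∃ j, i = j + m := ⟨i - m, by omega⟩
    have := congrFun (ext_sh m n p) j
    rw [glue, if_neg h, Nat.add_sub_cancel, ← this]
    rfl

lemma measurable_glue (m : ℕ) : Measurable fun p : (ℕ → ℝ) × (ℕ → ℝ) => glue m p.1 p.2 := by
  refine measurable_pi_lambda _ fun i => ?_
  by_cases h : i < m
  · simp only [glue, h, if_true]
    exact (measurable_pi_apply i).comp measurable_fst
  · simp only [glue, h, if_false]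
    exact (measurable_pi_apply (i - m)).comp measurable_snd

/-- Fubini -/
lemma lint_split (m n : ℕ) (f : (ℕ → ℝ) → ENNReal) (hf : Measurable f) :
    ∫⁻ z : Fin (m + n) → ℝ, f (ext z) =
      ∫⁻ x : Fin m → ℝ, ∫⁻ y : Fin n → ℝ, f (glue m (ext x) (ext y)) := by
  have h1 := (eqv_mp m n).lintegral_comp (hf.comp (measurable_ext (m + n)))
  rw [show (∫⁻ z : Fin (m + n) → ℝ, f (ext z)) = ∫⁻ p, (f ∘ fun x => ext x) (eqv m n p) ∂volume from
    h1.symm]
  simp only [Function.comp, ext_eqv]
  have hm : Measurable fun p : (Fin m → ℝ) × (Fin n → ℝ) => f (glue m (ext p.1) (ext p.2)) :=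
    hf.comp ((measurable_glue m).comp
      (((measurable_ext m).comp measurable_fst).prodMk ((measurable_ext n).comp measurable_snd)))
  exact lintegral_prod _ hm.aemeasurable

open Classical in
/-- the indicator function of `0 < F` -/
noncomputable def chi (F : Poly) (X : ℕ → ℝ) : ENNReal := if 0 < pev X F then 1 else 0

lemma measurable_chi (F : Poly) : Measurable (chi F) := by
  unfold chi
  exact Measurable.ite (measurableSet_lt measurable_const (measurable_pev F)) measurable_const
    measurable_const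

/-- the function depends on the first `N` coordinates -/
def Dep (N : ℕ) {α : Type} (f : (ℕ → ℝ) → α) : Prop :=
  ∀ X Y : ℕ → ℝ, (∀ i < N, X i = Y i) → f X = f Y

lemma Dep.mono {M N : ℕ} (h : M ≤ N) {α : Type} {f : (ℕ → ℝ) → α} (hf : Dep M f) : Dep N f :=
  fun X Y hXY => hf X Y fun i hi => hXY i (lt_of_lt_of_le hi h)

lemma dep_pev {N : ℕ} {F : Poly} (hF : IsPoly N F) : Dep N fun X => pev X F :=
  fun X Y h => pev_congr N F hF X Y h

lemma dep_chi {N : ℕ} {F : Poly} (hF : IsPoly N F) : Dep N (chi F) := by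
  intro X Y h
  unfold chi
  rw [pev_congr N F hF X Y h]

lemma Dep.mul {N : ℕ} {f g : (ℕ → ℝ) → ENNReal} (hf : Dep N f) (hg : Dep N g) :
    Dep N fun X => f X * g X := fun X Y h => by
  show f X * g X = f Y * g Y
  rw [hf X Y h, hg X Y h]

lemma Dep.glue {N : ℕ} {α : Type} {f : (ℕ → ℝ) → α} (hf : Dep N f) (X Y : ℕ → ℝ) :
    f (glue N X Y) = f X := hf _ _ fun i hi => by rw [PV.glue, if_pos hi]

/-- the volume of the gadget -/
lemma lint_gad (hG : S_gad) (a b : ℝ) (N : ℕ) (X : ℕ → ℝ) (F g : Poly) (hF : IsPoly N F)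
    (hg : IsPoly N g) (ha : pev X F = a) (hb : pev X g = b) :
    ∫⁻ y : Fin 3 → ℝ, chi (gadP N F g) (glue N X (ext y)) = chi F X * chi g X := by
  classical
  have h1 : ∀ y : Fin 3 → ℝ, chi (gadP N F g) (glue N X (ext y)) =
      Set.indicator {v : Fin 3 → ℝ | 0 < gad a b (v 0) (v 1) (v 2)} 1 y := by
    intro y
    have h2 : pev (glue N X (ext y)) (gadP N F g) = gad a b (y 0) (y 1) (y 2) := by
      rw [pev_gadP, (dep_pev hF).glue, (dep_pev hg).glue, ha, hb]
      simp [glue, ext]
    unfold chi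
    rw [h2, Set.indicator_apply]
    rfl
  simp only [h1]
  have hm : Measurable fun v : Fin 3 → ℝ => gad a b (v 0) (v 1) (v 2) := by
    unfold gad
    fun_prop
  rw [lintegral_indicator_one (measurableSet_lt measurable_const hm), hG.1 a b]
  unfold chi
  rw [ha, hb]
  by_cases h3 : 0 < a <;> by_cases h4 : 0 < b <;> simp [h3, h4]

/-- one step -/
lemma step (hG : S_gad) {N : ℕ} {F g : Poly} (hF : IsPoly N F) (hg : IsPoly N g)
    {f : (ℕ → ℝ) → ENNReal} (hf : Measurable f) (hd : Dep N f) :
    ∫⁻ z : Fin (N + 3) → ℝ, chi (gadP N F g) (ext z) * f (ext z) =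
      ∫⁻ x : Fin N → ℝ, chi F (ext x) * (chi g (ext x) * f (ext x)) := by
  rw [lint_split N 3 (fun X => chi (gadP N F g) X * f X) ((measurable_chi _).mul hf)]
  refine lintegral_congr fun x => ?_
  simp only [hd.glue]
  have hm : Measurable fun y : Fin 3 → ℝ => chi (gadP N F g) (glue N (ext x) (ext y)) :=
    (measurable_chi _).comp ((measurable_glue N).comp (measurable_const.prodMk (measurable_ext 3)))
  rw [lintegral_mul_const _ hm, lint_gad hG _ _ N (ext x) F g hF hg rfl rfl, mul_assoc]

/-- the fold from a given state -/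
def foldF (st : ℕ × Poly) (l : List Poly) : ℕ × Poly :=
  l.foldl (fun st g => (st.1 + 3, gadP st.1 st.2 g)) st

lemma fold_eq (L : ℕ) (l : List Poly) : fold L l = foldF (L, natP 1) l := rfl

lemma foldF_fst (l : List Poly) : ∀ st : ℕ × Poly, (foldF st l).1 = st.1 + 3 * l.length := by
  induction l with
  | nil => intro st; simp [foldF]
  | cons g l ih =>
    intro st
    have h := ih (st.1 + 3, gadP st.1 st.2 g)
    simp only [List.length_cons]
    rw [show foldF st (g :: l) = foldF (st.1 + 3, gadP st.1 st.2 g) l from rfl, h]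
    ring

lemma isPoly_foldF (l : List Poly) : ∀ st : ℕ × Poly, IsPoly st.1 st.2 →
    (∀ g ∈ l, IsPoly st.1 g) → IsPoly (foldF st l).1 (foldF st l).2 := by
  induction l with
  | nil => intro st h _; exact h
  | cons g l ih =>
    intro st h hl
    exact ih (st.1 + 3, gadP st.1 st.2 g) (isPoly_gadP h (hl g (by simp)))
      fun g' hg' => isPoly_mono (by simp) (hl g' (by simp [hg']))

/-- the product of the indicator functions -/
noncomputable def chis (l : List Poly) (X : ℕ → ℝ) : ENNReal := (l.map fun g => chi g X).prod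

lemma chis_cons (g : Poly) (l : List Poly) (X : ℕ → ℝ) :
    chis (g :: l) X = chi g X * chis l X := by simp [chis]

lemma chis_append (l l' : List Poly) (X : ℕ → ℝ) :
    chis (l ++ l') X = chis l X * chis l' X := by simp [chis]

lemma measurable_chis (l : List Poly) : Measurable (chis l) := by
  induction l with
  | nil =>
    have : chis [] = fun _ => 1 := by
      funext X
      simp [chis]
    rw [this]
    exact measurable_const
  | cons g l ih =>
    have : chis (g :: l) = fun X => chi g X * chis l X := funext fun X => chis_cons g l X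
    rw [this]
    exact (measurable_chi g).mul ih

lemma dep_chis {N : ℕ} {l : List Poly} (hl : ∀ g ∈ l, IsPoly N g) : Dep N (chis l) := by
  induction l with
  | nil => intro X Y _; simp [chis]
  | cons g l ih =>
    intro X Y h
    rw [chis_cons, chis_cons, dep_chi (hl g (by simp)) X Y h,
      ih (fun g' hg' => hl g' (by simp [hg'])) X Y h]

lemma lint_foldF (hG : S_gad) (l : List Poly) : ∀ st : ℕ × Poly, IsPoly st.1 st.2 →
    (∀ g ∈ l, IsPoly st.1 g) → ∀ f : (ℕ → ℝ) → ENNReal, Measurable f → Dep st.1 f →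
    ∫⁻ z : Fin (foldF st l).1 → ℝ, chi (foldF st l).2 (ext z) * f (ext z) =
      ∫⁻ x : Fin st.1 → ℝ, chi st.2 (ext x) * (chis l (ext x) * f (ext x)) := by
  induction l with
  | nil =>
    intro st _ _ f _ _
    change ∫⁻ z : Fin st.1 → ℝ, chi st.2 (ext z) * f (ext z) = _
    refine lintegral_congr fun x => ?_
    simp only [chis, List.map_nil, List.prod_nil, one_mul]
  | cons g l ih =>
    intro st h hl f hf hd
    have hl' : ∀ g ∈ l, IsPoly st.1 g := fun g' hg' => hl g' (by simp [hg'])
    have h1 := ih (st.1 + 3, gadP st.1 st.2 g) (isPoly_gadP h (hl g (by simp)))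
      (fun g' hg' => isPoly_mono (by simp) (hl' g' hg')) f hf (hd.mono (by simp))
    rw [show foldF st (g :: l) = foldF (st.1 + 3, gadP st.1 st.2 g) l from rfl, h1]
    have h2 := step hG h (hl g (by simp)) (f := fun X => chis l X * f X)
      ((measurable_chis l).mul hf) ((dep_chis hl').mul hd)
    refine h2.trans ?_
    simp only [chis_cons, mul_assoc]

/-- **Integrals over the region of a conjunction.** -/
theorem lint_fold (hG : S_gad) {L : ℕ} {l : List Poly} (hl : ∀ g ∈ l, IsPoly L g)
    {f : (ℕ → ℝ) → ENNReal} (hf : Measurable f) (hd : Dep L f) :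
    ∫⁻ z : Fin (fold L l).1 → ℝ, chi (fold L l).2 (ext z) * f (ext z) =
      ∫⁻ x : Fin L → ℝ, chis l (ext x) * f (ext x) := by
  rw [fold_eq]
  have h := lint_foldF hG l (L, natP 1) (isPoly_natP L 1) hl f hf hd
  rw [h]
  refine lintegral_congr fun x => ?_
  have h1 : chi (natP 1) (ext x) = 1 := by
    unfold chi
    rw [pev_natP]
    simp
  simp only [h1, one_mul]

lemma gad_pos {a b s w r : ℝ} (h : 0 < gad a b s w r) : 0 < a ∧ 0 < b := by
  have h1 : 0 ≤ 64 * (a * b) ^ 6 * r ^ 2 := by positivity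
  have h2 : 0 < 225 * (s * (a - s ^ 2)) ^ 2 * (w * (b - w ^ 2)) ^ 2 *
      ((a * b) ^ 2 - ((a - s ^ 2) * b) ^ 2 - ((b - w ^ 2) * a) ^ 2) := by
    unfold gad at h
    linarith
  have h3 : 0 < (a * b) ^ 2 - ((a - s ^ 2) * b) ^ 2 - ((b - w ^ 2) * a) ^ 2 := by
    by_contra h4
    push Not at h4
    have : 225 * (s * (a - s ^ 2)) ^ 2 * (w * (b - w ^ 2)) ^ 2 *
      ((a * b) ^ 2 - ((a - s ^ 2) * b) ^ 2 - ((b - w ^ 2) * a) ^ 2) ≤ 0 :=
      mul_nonpos_of_nonneg_of_nonpos (by positivity) h4
    linarith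
  have hs : s ≠ 0 := by
    rintro rfl
    simp at h2
  have hw : w ≠ 0 := by
    rintro rfl
    simp at h2
  have key : ∀ {a b s : ℝ}, s ≠ 0 → 0 < (a * b) ^ 2 - ((a - s ^ 2) * b) ^ 2 → 0 < a := by
    intro a b s hs h
    have h5 : (a * b) ^ 2 - ((a - s ^ 2) * b) ^ 2 = b ^ 2 * s ^ 2 * (2 * a - s ^ 2) := by ring
    rw [h5] at h
    have h6 : 0 ≤ b ^ 2 * s ^ 2 := by positivity
    have h7 : 0 < 2 * a - s ^ 2 := by
      by_contra h8
      push Not at h8
      have := mul_nonpos_of_nonneg_of_nonpos h6 h8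
      linarith
    have h8 : 0 < s ^ 2 := by positivity
    linarith
  refine ⟨key hs (b := b) ?_, key hw (b := a) ?_⟩
  · nlinarith [sq_nonneg ((b - w ^ 2) * a)]
  · nlinarith [sq_nonneg ((a - s ^ 2) * b)]

lemma foldF_pos (l : List Poly) : ∀ (st : ℕ × Poly) (X : ℕ → ℝ), 0 < pev X (foldF st l).2 →
    0 < pev X st.2 ∧ ∀ g ∈ l, 0 < pev X g := by
  induction l with
  | nil => intro st X h; exact ⟨h, by simp⟩
  | cons g l ih =>
    intro st X h
    obtain ⟨h1, h2⟩ := ih (st.1 + 3, gadP st.1 st.2 g) X h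
    simp only [pev_gadP] at h1
    obtain ⟨h3, h4⟩ := gad_pos h1
    refine ⟨h3, fun g' hg' => ?_⟩
    rcases List.mem_cons.1 hg' with rfl | hg'
    · exact h4
    · exact h2 g' hg'

lemma fold_pos {L : ℕ} {l : List Poly} {X : ℕ → ℝ} (h : 0 < pev X (fold L l).2) :
    ∀ g ∈ l, 0 < pev X g := (foldF_pos l (L, natP 1) X h).2

/-- the polynomial of a conjunction with last member `1` is nonzero almost everywhere -/
lemma fold_ne_zero (hG : S_gad) {L : ℕ} {l : List Poly} (hl : ∀ g ∈ l, IsPoly L g) :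
    ∀ᵐ z : Fin (fold L (l ++ [natP 1])).1 → ℝ, pev (ext z) (fold L (l ++ [natP 1])).2 ≠ 0 := by
  classical
  set st := fold L l with hst
  have h1 : fold L (l ++ [natP 1]) = (st.1 + 3, gadP st.1 st.2 (natP 1)) := by
    simp only [fold, List.foldl_append, List.foldl_cons, List.foldl_nil, hst]
  rw [h1]
  have hF : IsPoly st.1 st.2 := isPoly_foldF l (L, natP 1) (isPoly_natP L 1) hl
  set G := gadP st.1 st.2 (natP 1) with hGd
  have hmG : MeasurableSet {X : ℕ → ℝ | pev X G = 0} :=
    measurableSet_eq_fun (measurable_pev G) measurable_const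
  have h2 : ∫⁻ z : Fin (st.1 + 3) → ℝ, Set.indicator {X : ℕ → ℝ | pev X G = 0} 1 (ext z) = (0 : ENNReal) := by
    rw [lint_split st.1 3 _ (measurable_one.indicator hmG)]
    rw [lintegral_eq_zero_iff' ?_]
    · refine Filter.Eventually.of_forall fun x => ?_
      change ∫⁻ y : Fin 3 → ℝ, Set.indicator {X : ℕ → ℝ | pev X G = 0} 1 (glue st.1 (ext x) (ext y)) = (0 : ENNReal)
      have h3 : ∀ y : Fin 3 → ℝ, Set.indicator {X : ℕ → ℝ | pev X G = 0} (1 : (ℕ → ℝ) → ENNReal) (glue st.1 (ext x) (ext y)) =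
          Set.indicator {v : Fin 3 → ℝ | gad (pev (ext x) st.2) 1 (v 0) (v 1) (v 2) = 0} 1 y := by
        intro y
        have h4 : pev (glue st.1 (ext x) (ext y)) G = gad (pev (ext x) st.2) 1 (y 0) (y 1) (y 2) := by
          rw [hGd, pev_gadP, (dep_pev hF).glue, pev_natP]
          simp [glue, ext]
        simp only [Set.indicator_apply, Set.mem_ofPred_eq, h4, Pi.one_apply]
      simp only [h3]
      have hm : Measurable fun v : Fin 3 → ℝ => gad (pev (ext x) st.2) 1 (v 0) (v 1) (v 2) := by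
        unfold gad
        fun_prop
      rw [lintegral_indicator_one (measurableSet_eq_fun hm measurable_const)]
      exact hG.2 _
    · have hm2 : Measurable fun p : (Fin st.1 → ℝ) × (Fin 3 → ℝ) =>
          Set.indicator {X : ℕ → ℝ | pev X G = 0} (1 : (ℕ → ℝ) → ENNReal) (glue st.1 (ext p.1) (ext p.2)) :=
        (measurable_one.indicator hmG).comp ((measurable_glue _).comp
          (((measurable_ext _).comp measurable_fst).prodMk ((measurable_ext 3).comp measurable_snd)))
      exact hm2.lintegral_prod_right'.aemeasurable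
  have h5 : Measurable fun z : Fin (st.1 + 3) → ℝ =>
      Set.indicator {X : ℕ → ℝ | pev X G = 0} (1 : (ℕ → ℝ) → ENNReal) (ext z) :=
    (measurable_one.indicator hmG).comp (measurable_ext _)
  rw [lintegral_eq_zero_iff h5] at h2
  filter_upwards [h2] with z hz h0
  simp only [Set.indicator_apply, Set.mem_ofPred_eq, Pi.one_apply, Pi.zero_apply, h0, if_true] at hz
  exact one_ne_zero hz

end Pool.Agent.H652.PV
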