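import Pool.Agent.H652.PV.Udefs
import Pool.Agent.H652.PV.Wreal

/-!
# Periods as integrals of rational functions over the whole space: definitions
-/

set_option autoImplicit false
set_option synthInstance.maxSize 2000

namespace Pool.Agent.H652.PV

open Pool.Agent.TH960.PE MeasureTheory

/-- the product of the `1 + x_i ^ 2`, `i < n` -/
def wP : ℕ → Poly
  | 0 => natP 1
  | n + 1 => mulS (natP 1 ++ sqP (varP n)) (wP n)

/-- the polynomial `F ∏ (1 + x_i ^ 2) ^ (2 (dg F + 1))` -/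
def aP (n : ℕ) (F : Poly) : Poly := mulS F (powP (wP n) (2 * (dg F + 1)))

/-- `x_n ^ 2 + x_(n+1) ^ 2` -/
def sP (n : ℕ) : Poly := sqP (varP n) ++ sqP (varP (n + 1))

/-- the first denominator -/
def d1P (n : ℕ) (F : Poly) : Poly := sqP (subP (sP n) (aP n F)) ++ natP 1

/-- the second denominator -/
def d2P (n : ℕ) (F : Poly) : Poly := natP 1 ++ sqP (mulS (aP n F) (natP 1 ++ sP n))

/-- the numerator -/
def nuP (n : ℕ) (F : Poly) : Poly := d2P n F ++ mulS (aP n F) (d1P n F)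

/-- the denominator -/
def deP (n : ℕ) (F : Poly) : Poly := mulS (d1P n F) (d2P n F)

/-- the numerator and the denominator for the difference of two volumes -/
def rfP (n : ℕ) (F G : Poly) : Poly × Poly :=
  (subP (mulS (nuP n F) (deP n G)) (mulS (nuP n G) (deP n F)), mulS (deP n F) (deP n G))

/-- W4: polynomials as elements of `MvPolynomial` -/
def S_mv : Prop :=
  ∀ (n : ℕ) (F : Poly), IsPoly n F → ∃ p : MvPolynomial (Fin n) ℝ, p.totalDegree ≤ dg F ∧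
    ∀ x : Fin n → ℝ, MvPolynomial.eval x p = pev (ext x) F

/-- W5: integrability -/
def S_itg : Prop :=
  ∀ (n : ℕ) (F : Poly), IsPoly n F → (∃ x : Fin n → ℝ, pev (ext x) F ≠ 0) →
    ∫⁻ x : Fin n → ℝ, min 1 ‖pev (ext x) F *
      (∏ i ∈ Finset.range n, (1 + ext x i ^ 2)) ^ (2 * (dg F + 1))‖ₑ⁻¹ ≠ ⊤

/-- W6: the rational functions -/
def S_cod : Prop :=
  (∀ (n : ℕ) (F : Poly), IsPoly n F → IsPoly (n + 2) (nuP n F) ∧ IsPoly (n + 2) (deP n F)) ∧
  (∀ (n : ℕ) (F : Poly), IsInt F → IsInt (nuP n F) ∧ IsInt (deP n F)) ∧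
  (∀ (n : ℕ) (F : Poly) (X : ℕ → ℝ), 1 ≤ pev X (deP n F)) ∧
  (∀ (n : ℕ) (F : Poly) (X : ℕ → ℝ), pev X (nuP n F) / pev X (deP n F) =
    rho (pev X F * (∏ i ∈ Finset.range n, (1 + X i ^ 2)) ^ (2 * (dg F + 1)))
      (X n ^ 2 + X (n + 1) ^ 2)) ∧
  Primrec (fun p : ℕ × Poly × Poly => rfP p.1 p.2.1 p.2.2)

end Pool.Agent.H652.PV
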