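import Pool.Agent.H652.PV.Wdefs
import Pool.Agent.H652.PV.Maps

/-!
# Periods as integrals of rational functions over the whole space
-/

set_option autoImplicit false
set_option synthInstance.maxSize 2000

namespace Pool.Agent.H652.PV

open Pool.Agent.TH960.PE MeasureTheory

/-- `P`, `Q` are integer polynomials in `n` variables, `Q ≥ 1` everywhere, and the rational function
`P / Q` is absolutely integrable over `ℝ ^ n`. -/
def RatFn (n : ℕ) (P Q : Poly) : Prop :=
  (IsPoly n P ∧ IsInt P) ∧ (IsPoly n Q ∧ IsInt Q) ∧ (∀ X : ℕ → ℝ, 1 ≤ pev X Q) ∧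
    Integrable fun x : Fin n → ℝ => pev (ext x) P / pev (ext x) Q

/-- There is an algorithm which decides, for integer polynomials `P`, `Q` in `n` variables such that
`Q ≥ 1` everywhere and `P / Q` is absolutely integrable over `ℝ ^ n`, whether the relation `R` holds for
the integral of `P / Q` over `ℝ ^ n` and zero. -/
def SpaceDec (R : ℝ → ℝ → Prop) : Prop :=
  ∃ f : (ℕ × Poly × Poly) →. Bool, Partrec f ∧ ∀ (n : ℕ) (P Q : Poly), RatFn n P Q →
    ∃ b ∈ f (n, P, Q), (b = true ↔ R (∫ x : Fin n → ℝ, pev (ext x) P / pev (ext x) Q) 0)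

namespace Whole

/-- the argument of the kernel -/
noncomputable def arg (n : ℕ) (F : Poly) (X : ℕ → ℝ) : ℝ :=
  pev X F * (∏ i ∈ Finset.range n, (1 + X i ^ 2)) ^ (2 * (dg F + 1))

lemma wpos (n k : ℕ) (X : ℕ → ℝ) : 0 < (∏ i ∈ Finset.range n, (1 + X i ^ 2)) ^ k :=
  pow_pos (Finset.prod_pos fun i _ => by positivity) k

lemma arg_pos (n : ℕ) (F : Poly) (X : ℕ → ℝ) : 0 < arg n F X ↔ 0 < pev X F := by
  unfold arg
  exact mul_pos_iff_of_pos_right (wpos n _ X)

lemma arg_ne (n : ℕ) (F : Poly) (X : ℕ → ℝ) (h : pev X F ≠ 0) : arg n F X ≠ 0 :=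
  mul_ne_zero h (wpos n _ X).ne'

lemma measurable_arg (n : ℕ) (F : Poly) : Measurable (arg n F) := by
  unfold arg
  refine (measurable_pev F).mul (Measurable.pow_const ?_ _)
  exact Finset.measurable_prod _ fun i _ =>
    measurable_const.add ((measurable_pi_apply i).pow_const 2)

lemma arg_congr (n : ℕ) (F : Poly) (hF : IsPoly n F) (X Y : ℕ → ℝ) (h : ∀ i < n, X i = Y i) :
    arg n F X = arg n F Y := by
  unfold arg
  rw [pev_congr n F hF X Y h]
  congr 2
  exact Finset.prod_congr rfl fun i hi => by rw [h i (Finset.mem_range.1 hi)]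

/-- the integrand -/
noncomputable def ker (n : ℕ) (F : Poly) (X : ℕ → ℝ) : ℝ :=
  rho (arg n F X) (X n ^ 2 + X (n + 1) ^ 2)

lemma measurable_ker (n : ℕ) (F : Poly) : Measurable (ker n F) := by
  unfold ker rho
  have a := measurable_arg n F
  have s : Measurable fun X : ℕ → ℝ => X n ^ 2 + X (n + 1) ^ 2 :=
    ((measurable_pi_apply n).pow_const 2).add ((measurable_pi_apply (n + 1)).pow_const 2)
  exact (measurable_const.div (((s.sub a).pow_const 2).add measurable_const)).add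
    (a.div (measurable_const.add ((a.mul (measurable_const.add s)).pow_const 2)))

lemma ker_glue (n : ℕ) (F : Poly) (hF : IsPoly n F) (X : ℕ → ℝ) (y : Fin 2 → ℝ) :
    ker n F (glue n X (ext y)) = rho (arg n F X) (y 0 ^ 2 + y 1 ^ 2) := by
  unfold ker
  rw [arg_congr n F hF (glue n X (ext y)) X fun i hi => by rw [glue, if_pos hi]]
  have e0 : glue n X (ext y) n = y 0 := by
    rw [glue, if_neg (lt_irrefl n), Nat.sub_self]
    rfl
  have e1 : glue n X (ext y) (n + 1) = y 1 := by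
    rw [glue, if_neg (by omega), show n + 1 - n = 1 by omega]
    rfl
  rw [e0, e1]

lemma ae_ne (n : ℕ) (F : Poly) (hF : IsPoly n F) (h : ∃ x : Fin n → ℝ, pev (ext x) F ≠ 0) :
    ∀ᵐ x : Fin n → ℝ, pev (ext x) F ≠ 0 := by
  have h1 : isZ n F = false := by
    cases e : isZ n F
    · rfl
    · obtain ⟨x, hx⟩ := h
      exact absurd (t_zero.1 n F hF e (ext x)) hx
  have h2 := t_zero.2.1 n F hF h1
  rw [ae_iff]
  simpa using h2

lemma fine_ker (h1 : S_rho) (h2 : S_itg) (n : ℕ) (F : Poly) (hF : Fine n F)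
    (h : ∃ x : Fin n → ℝ, pev (ext x) F ≠ 0) :
    Integrable (fun z : Fin (n + 2) → ℝ => ker n F (ext z)) ∧
      ∫ z : Fin (n + 2) → ℝ, ker n F (ext z) = Real.pi ^ 2 * (volume (reg n F)).toReal := by
  classical
  have hm := measurable_ker n F
  have hae := ae_ne n F hF.1 h
  have hI : Integrable (fun z : Fin (n + 2) → ℝ => ker n F (ext z)) := by
    refine ⟨(hm.comp (measurable_ext (n + 2))).aestronglyMeasurable, ?_⟩
    rw [hasFiniteIntegral_iff_enorm, lint_split n 2 (fun X => ‖ker n F X‖ₑ) hm.enorm]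
    have h3 : ∫⁻ x : Fin n → ℝ, ∫⁻ y : Fin 2 → ℝ, ‖ker n F (glue n (ext x) (ext y))‖ₑ ≤
        ∫⁻ x : Fin n → ℝ, (20 * ((reg n F).indicator 1 x) + 20 * min 1 ‖pev (ext x) F *
          (∏ i ∈ Finset.range n, (1 + ext x i ^ 2)) ^ (2 * (dg F + 1))‖ₑ⁻¹) := by
      refine lintegral_mono_ae ?_
      filter_upwards [hae] with x hx
      simp only [ker_glue n F hF.1]
      refine (h1.1 _ (arg_ne n F _ hx)).trans ?_
      rw [mul_add]
      refine add_le_add ?_ le_rfl
      by_cases h4 : 0 < pev (ext x) F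
      · rw [if_pos ((arg_pos n F _).2 h4), Set.indicator_of_mem (by exact h4)]
        exact le_rfl
      · rw [if_neg fun h5 => h4 ((arg_pos n F _).1 h5)]
        simp
    refine h3.trans_lt ?_
    have hr : MeasurableSet (reg n F) := measurableSet_reg n F
    have m0 : Measurable fun x : Fin n → ℝ => (reg n F).indicator (1 : (Fin n → ℝ) → ENNReal) x :=
      measurable_one.indicator hr
    have m1 : Measurable fun x : Fin n → ℝ => (20 : ENNReal) * (reg n F).indicator 1 x :=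
      measurable_const.mul m0
    rw [lintegral_add_left m1, lintegral_const_mul _ m0, lintegral_indicator_one hr,
      lintegral_const_mul]
    · exact ENNReal.add_lt_top.2 ⟨ENNReal.mul_lt_top (by norm_num) hF.2.2.lt_top,
        ENNReal.mul_lt_top (by norm_num) (h2 n F hF.1 h).lt_top⟩
    · have := ((measurable_arg n F).comp (measurable_ext n)).enorm.inv
      exact measurable_const.min this
  refine ⟨hI, ?_⟩
  have e1 := (eqv_mp n 2).integral_comp (eqv n 2).measurableEmbedding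
    (fun z : Fin (n + 2) → ℝ => ker n F (ext z))
  have i1 := (eqv_mp n 2).integrable_comp_emb (eqv n 2).measurableEmbedding
    (g := fun z : Fin (n + 2) → ℝ => ker n F (ext z))
  have i2 := i1.2 hI
  rw [← e1]
  have i3 : Integrable (fun p : (Fin n → ℝ) × (Fin 2 → ℝ) => ker n F (ext (eqv n 2 p)))
      (volume.prod volume) := i2
  have e2 : ∫ p : (Fin n → ℝ) × (Fin 2 → ℝ), ker n F (ext (eqv n 2 p)) =
      ∫ x : Fin n → ℝ, ∫ y : Fin 2 → ℝ, ker n F (ext (eqv n 2 (x, y))) :=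
    integral_prod _ i3
  rw [e2]
  simp only [ext_eqv, ker_glue n F hF.1]
  have e3 : ∫ x : Fin n → ℝ, ∫ y : Fin 2 → ℝ, rho (arg n F (ext x)) (y 0 ^ 2 + y 1 ^ 2) =
      ∫ x : Fin n → ℝ, (reg n F).indicator (fun _ => Real.pi ^ 2) x := by
    refine integral_congr_ae ?_
    filter_upwards [hae] with x hx
    rw [h1.2 _ (arg_ne n F _ hx)]
    by_cases h4 : 0 < pev (ext x) F
    · rw [if_pos ((arg_pos n F _).2 h4), Set.indicator_of_mem (by exact h4)]
    · rw [if_neg fun h5 => h4 ((arg_pos n F _).1 h5), Set.indicator_of_notMem (by exact h4)]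
  rw [e3, integral_indicator (measurableSet_reg n F), setIntegral_const, smul_eq_mul, mul_comm]
  rfl

/-- a polynomial with the same region which is not zero -/
def nzP (n : ℕ) (F : Poly) : Poly := cond (isZ n F) (negP (natP 1)) F

lemma nzP_spec (n : ℕ) (F : Poly) (hF : Fine n F) : Fine n (nzP n F) ∧
    (∃ x : Fin n → ℝ, pev (ext x) (nzP n F) ≠ 0) ∧ reg n (nzP n F) = reg n F := by
  unfold nzP
  cases e : isZ n F
  · refine ⟨hF, ?_, rfl⟩
    by_contra hc
    push Not at hc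
    have h2 := t_zero.2.1 n F hF.1 e
    have h3 : {x : Fin n → ℝ | pev (ext x) F = 0} = Set.univ := by
      ext x
      simp only [Set.mem_ofPred_eq, Set.mem_univ, iff_true]
      exact hc x
    rw [h3] at h2
    exact (isOpen_univ.measure_ne_zero (volume : Measure (Fin n → ℝ)) Set.univ_nonempty) h2
  · have e0 : ∀ X : ℕ → ℝ, pev X (negP (natP 1)) = -1 := fun X => by
      rw [pev_negP, pev_natP, Nat.cast_one]
    have e1 : reg n (negP (natP 1)) = ∅ := by
      ext x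
      simp only [reg, Set.mem_ofPred_eq, e0, Set.mem_empty_iff_false, iff_false]
      norm_num
    have e2 : reg n F = ∅ := by
      ext x
      simp only [reg, Set.mem_ofPred_eq, t_zero.1 n F hF.1 e, Set.mem_empty_iff_false, iff_false]
      norm_num
    refine ⟨⟨isPoly_negP (isPoly_natP _ _), isInt_negP (isInt_natP 1), ?_⟩, ⟨0, ?_⟩, ?_⟩
    · rw [cond_true, e1]
      simp
    · rw [cond_true, e0]
      norm_num
    · rw [cond_true, e1, e2]

/-- the rational function for two regions -/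
def sp (p : ℕ × Poly × Poly) : ℕ × Poly × Poly :=
  (p.1 + 2, rfP p.1 (nzP p.1 p.2.1) (nzP p.1 p.2.2))

lemma nzP_p : Primrec fun p : ℕ × Poly => nzP p.1 p.2 :=
  Primrec.cond t_zero.2.2 (Primrec.const _) Primrec.snd

section

attribute [local irreducible] rfP nzP

lemma sp_p (h3 : S_cod) : Primrec sp := by
  obtain ⟨-, -, -, -, h⟩ := h3
  have n : Primrec fun p : ℕ × Poly × Poly => p.1 := Primrec.fst
  have F : Primrec fun p : ℕ × Poly × Poly => nzP p.1 p.2.1 :=
    nzP_p.comp (n.pair (Primrec.fst.comp Primrec.snd))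
  have G : Primrec fun p : ℕ × Poly × Poly => nzP p.1 p.2.2 :=
    nzP_p.comp (n.pair (Primrec.snd.comp Primrec.snd))
  have g : Primrec fun p : ℕ × Poly × Poly =>
      ((p.1, nzP p.1 p.2.1, nzP p.1 p.2.2) : ℕ × Poly × Poly) := n.pair (F.pair G)
  have e : Primrec fun p : ℕ × Poly × Poly => rfP p.1 (nzP p.1 p.2.1) (nzP p.1 p.2.2) :=
    (h.comp g).of_eq fun p => rfl
  have n2 : Primrec fun p : ℕ × Poly × Poly => p.1 + 2 :=
    Primrec.nat_add.comp n (Primrec.const 2)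
  exact (n2.pair e).of_eq fun p => rfl

end

theorem sp_spec (h1 : S_rho) (h2 : S_itg) (h3 : S_cod) (n : ℕ) (F G : Poly) (hF : Fine n F)
    (hG : Fine n G) : RatFn (sp (n, F, G)).1 (sp (n, F, G)).2.1 (sp (n, F, G)).2.2 ∧
      ∫ x : Fin (sp (n, F, G)).1 → ℝ, pev (ext x) (sp (n, F, G)).2.1 /
        pev (ext x) (sp (n, F, G)).2.2 =
          Real.pi ^ 2 * ((volume (reg n F)).toReal - (volume (reg n G)).toReal) := by
  obtain ⟨a1, a2, a3⟩ := nzP_spec n F hF
  obtain ⟨b1, b2, b3⟩ := nzP_spec n G hG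
  obtain ⟨c1, c2⟩ := fine_ker h1 h2 n _ a1 a2
  obtain ⟨d1, d2⟩ := fine_ker h1 h2 n _ b1 b2
  rw [a3] at c2
  rw [b3] at d2
  obtain ⟨k1, k2, k3, k4, -⟩ := h3
  have e : ∀ X : ℕ → ℝ, pev X (rfP n (nzP n F) (nzP n G)).1 / pev X (rfP n (nzP n F) (nzP n G)).2 =
      ker n (nzP n F) X - ker n (nzP n G) X := by
    intro X
    have p1 : pev X (deP n (nzP n F)) ≠ 0 := (lt_of_lt_of_le one_pos (k3 n _ X)).ne'
    have p2 : pev X (deP n (nzP n G)) ≠ 0 := (lt_of_lt_of_le one_pos (k3 n _ X)).ne'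
    unfold ker arg
    rw [← k4 n (nzP n F) X, ← k4 n (nzP n G) X, div_sub_div _ _ p1 p2]
    simp only [rfP, pev_subP, pev_mulS]
    ring
  refine ⟨⟨⟨?_, ?_⟩, ⟨?_, ?_⟩, ?_, ?_⟩, ?_⟩
  · exact isPoly_subP (isPoly_mulS (k1 n _ a1.1).1 (k1 n _ b1.1).2)
      (isPoly_mulS (k1 n _ b1.1).1 (k1 n _ a1.1).2)
  · exact isInt_subP (isInt_mulS (k2 n _ a1.2.1).1 (k2 n _ b1.2.1).2)
      (isInt_mulS (k2 n _ b1.2.1).1 (k2 n _ a1.2.1).2)
  · exact isPoly_mulS (k1 n _ a1.1).2 (k1 n _ b1.1).2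
  · exact isInt_mulS (k2 n _ a1.2.1).2 (k2 n _ b1.2.1).2
  · intro X
    change 1 ≤ pev X (mulS (deP n (nzP n F)) (deP n (nzP n G)))
    rw [pev_mulS]
    exact one_le_mul_of_one_le_of_one_le (k3 n _ X) (k3 n _ X)
  · change Integrable fun x : Fin (n + 2) → ℝ => pev (ext x) (rfP n (nzP n F) (nzP n G)).1 /
      pev (ext x) (rfP n (nzP n F) (nzP n G)).2
    simp only [e]
    exact c1.sub d1
  · change ∫ x : Fin (n + 2) → ℝ, pev (ext x) (rfP n (nzP n F) (nzP n G)).1 /
      pev (ext x) (rfP n (nzP n F) (nzP n G)).2 = _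
    simp only [e]
    rw [integral_sub c1 d1, c2, d2]
    ring

/-- **Normal form.** -/
theorem normal_space (h1 : S_rho) (h2 : S_itg) (h3 : S_cod) :
    ∃ R : Code → ℕ × Poly × Poly, Primrec R ∧ ∀ c, Adm c →
      RatFn (R c).1 (R c).2.1 (R c).2.2 ∧
        ∫ x : Fin (R c).1 → ℝ, pev (ext x) (R c).2.1 / pev (ext x) (R c).2.2 =
          Real.pi ^ 2 * val c := by
  obtain ⟨R, hR, h⟩ := normal_volumes
  refine ⟨fun c => sp (R c), (sp_p h3).comp hR, fun c hc => ?_⟩
  obtain ⟨hF, hG, hv⟩ := h c hc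
  obtain ⟨a, b⟩ := sp_spec h1 h2 h3 (R c).1 (R c).2.1 (R c).2.2 hF hG
  refine ⟨a, ?_⟩
  rw [hv]
  exact b

theorem gen_space (h1 : S_rho) (h2 : S_itg) (h3 : S_cod) {R : ENNReal → ENNReal → Prop}
    {R' : ℝ → ℝ → Prop} (hR : ∀ (C : ℝ) (x y : ENNReal), 0 < C → x ≠ ⊤ → y ≠ ⊤ →
      (R' (C * (x.toReal - y.toReal)) 0 ↔ R x y)) (h : SpaceDec R') : Maps.GenVol R := by
  obtain ⟨f, hf, hd⟩ := h
  refine ⟨fun p => f (sp p), hf.comp (sp_p h3).to_comp, fun n F G hF hG => ?_⟩
  obtain ⟨a, b⟩ := sp_spec h1 h2 h3 n F G hF hG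
  obtain ⟨r, hr, h4⟩ := hd _ _ _ a
  refine ⟨r, hr, h4.trans ?_⟩
  rw [b]
  exact hR _ _ _ (by positivity) hF.2.2 hG.2.2

/-! ### Converse -/

lemma space_code (n : ℕ) (P Q : Poly) (h : RatFn n P Q) :
    Adm (n, P, Q, []) ∧ val (n, P, Q, []) = ∫ x : Fin n → ℝ, pev (ext x) P / pev (ext x) Q := by
  classical
  have e : ∀ X : ℕ → ℝ, integrand X (n, P, Q, []) = pev X P / pev X Q := by
    intro X
    have : InDom X [] := fun g hg => absurd hg List.not_mem_nil
    unfold integrand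
    exact if_pos this
  refine ⟨⟨h.1.1, h.2.1.1, fun g hg => absurd hg List.not_mem_nil, ⟨0, ?_⟩, ?_⟩, ?_⟩
  · exact (lt_of_lt_of_le one_pos (h.2.2.1 _)).ne'
  · change Integrable fun x : Fin n → ℝ => integrand (ext x) (n, P, Q, [])
    simp only [e]
    exact h.2.2.2
  · change ∫ x : Fin n → ℝ, integrand (ext x) (n, P, Q, []) = _
    simp only [e]

lemma code_p : Primrec fun p : ℕ × Poly × Poly => ((p.1, p.2.1, p.2.2, []) : Code) :=
  Primrec.fst.pair ((Primrec.fst.comp Primrec.snd).pair ((Primrec.snd.comp Primrec.snd).pair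
    (Primrec.const [])))

theorem space_of_eq (h : AlgDecidable (fun a b => a = b)) : SpaceDec (· = ·) := by
  obtain ⟨f, hf, hd⟩ := h
  refine ⟨fun p => f (((p.1, p.2.1, p.2.2, []), zeroCode), (zeroCode, zeroCode)),
    hf.comp (Primrec.to_comp ((code_p.pair (Primrec.const _)).pair (Primrec.const _))),
    fun n P Q hR => ?_⟩
  obtain ⟨c1, c2⟩ := space_code n P Q hR
  obtain ⟨p1, p2, p3⟩ := pair_val _ _ c1 zero_code.1
  obtain ⟨c, hc, h1⟩ := hd _ _ p1 p2
  refine ⟨c, hc, h1.trans (p3.trans ?_)⟩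
  rw [c2, zero_code.2]

theorem space_of_le (h : AlgDecidable (fun a b => a.re ≤ b.re)) : SpaceDec (· ≤ ·) := by
  obtain ⟨f, hf, hd⟩ := h
  refine ⟨fun p => f (((p.1, p.2.1, p.2.2, []), zeroCode), (zeroCode, zeroCode)),
    hf.comp (Primrec.to_comp ((code_p.pair (Primrec.const _)).pair (Primrec.const _))),
    fun n P Q hR => ?_⟩
  obtain ⟨c1, c2⟩ := space_code n P Q hR
  obtain ⟨p1, p2, p3⟩ := pair_le _ _ c1 zero_code.1
  obtain ⟨c, hc, h1⟩ := hd _ _ p1 p2
  refine ⟨c, hc, h1.trans (p3.trans ?_)⟩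
  rw [c2, zero_code.2]

theorem eq_iff (h1 : S_rho) (h2 : S_itg) (h3 : S_cod) :
    AlgDecidable (fun a b => a = b) ↔ SpaceDec (· = ·) := by
  refine ⟨space_of_eq, fun h => decidable_of_volumes (gen_space h1 h2 h3 (R' := (· = ·))
    (fun C x y hC hx hy => ?_) h)⟩
  rw [← ENNReal.toReal_eq_toReal_iff' hx hy, mul_eq_zero, sub_eq_zero]
  exact ⟨fun h => h.resolve_left hC.ne', Or.inr⟩

theorem le_iff (h1 : S_rho) (h2 : S_itg) (h3 : S_cod) :
    AlgDecidable (fun a b => a.re ≤ b.re) ↔ SpaceDec (· ≤ ·) := by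
  refine ⟨space_of_le, fun h => order_of_volumes (gen_space h1 h2 h3 (R' := (· ≤ ·))
    (fun C x y hC hx hy => ?_) h)⟩
  rw [← ENNReal.toReal_le_toReal hx hy]
  constructor
  · intro h
    by_contra h7
    have := mul_pos hC (sub_pos.2 (not_le.1 h7))
    linarith
  · intro h
    have := mul_nonneg hC.le (sub_nonneg.2 h)
    nlinarith

end Whole

end Pool.Agent.H652.PV
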