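import Pool.Agent.H652.PV.WCod
import Pool.Agent.H652.PV.WItg
import Pool.Agent.H652.PV.Xreal

/-!
# Periods as sums of integrals of reciprocals of polynomials: definitions
-/

set_option autoImplicit false
set_option synthInstance.maxSize 2000

namespace Pool.Agent.H652.PV

open Pool.Agent.TH960.PE MeasureTheory

/-- `1 + x_n ^ 2 + x_(n+1) ^ 2` -/
def vP (n : ℕ) : Poly := natP 1 ++ sP n

/-- the first polynomial -/
def e1P (n : ℕ) (A : Poly) : Poly := natP 1 ++ mulS (natP 4) (sqP (sqP (subP (sP n) A)))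

/-- the second polynomial -/
def e2P (n : ℕ) (A : Poly) : Poly :=
  mulS (mulS (natP 4) (vP n)) (natP 1 ++ subP (mulS (natP 2) (sqP (mulS A (vP n))))
    (mulS (natP 2) (mulS A (vP n))))

/-- X4: integrability -/
def S_itg2 : Prop :=
  ∀ (n : ℕ) (F : Poly), IsPoly n F → (∃ x : Fin n → ℝ, pev (ext x) F ≠ 0) →
    ∫⁻ x : Fin n → ℝ, nrt (dg F + 1) (pev (ext x) F *
      (∏ i ∈ Finset.range n, (1 + ext x i ^ 2)) ^ (2 * (dg F + 1))) ≠ ⊤

/-- X5: the polynomials -/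
def S_cod2 : Prop :=
  (∀ (n : ℕ) (A : Poly), IsPoly (n + 2) A → IsPoly (n + 2) (e1P n A) ∧ IsPoly (n + 2) (e2P n A)) ∧
  (∀ (n : ℕ) (A : Poly), IsInt A → IsInt (e1P n A) ∧ IsInt (e2P n A)) ∧
  (∀ (n : ℕ) (A : Poly) (X : ℕ → ℝ), 1 ≤ pev X (e1P n A) ∧ 1 ≤ pev X (e2P n A)) ∧
  (∀ (n : ℕ) (A : Poly) (X : ℕ → ℝ),
    1 / pev X (e1P n A) = K1 (pev X A) (X n ^ 2 + X (n + 1) ^ 2) ∧
    1 / pev X (e2P n A) = K2 (pev X A) (X n ^ 2 + X (n + 1) ^ 2)) ∧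
  Primrec (fun p : ℕ × Poly => e1P p.1 p.2) ∧ Primrec (fun p : ℕ × Poly => e2P p.1 p.2)

/-- X7: products of explicit integrals -/
def S_mulC : Prop := Primrec (fun p : Code × Code => mulC p.1 p.2)

end Pool.Agent.H652.PV
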